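import Pool.Agent.helper32.ST.AVis

/-!
# ST2-AVisC : elementary properties of visited and real loci
-/

namespace ST2

variable {n : ℕ} {A : ℕ → ℕ}

theorem AVisC_canon {y κ : ℕ} (h1 : 1 ≤ κ) (hL : κ ≤ L n A y) :
    1 ≤ κ ∧ κ ≤ mx n (N n A κ y) ∧ N n A κ (N n A κ y) = N n A κ y ∧ N n A κ y < y := by
  have hm : κ ≤ mx n y := hL.trans (L_le y)
  exact ⟨h1, mx_N hm, N_N hm, N_lt_of_le_L h1 hL⟩

theorem vs0_canon {c z κ : ℕ} (h : VS0 n A c z κ) :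
    1 ≤ κ ∧ κ ≤ mx n z ∧ N n A κ z = z ∧ z < c := by
  obtain ⟨h1, y, hy, hL, hz, -⟩ := h
  obtain ⟨a, b, d, e⟩ := AVisC_canon h1 hL
  rw [hz] at b d e
  exact ⟨a, b, d, e.trans hy⟩

theorem vs_canon {c k z κ : ℕ} (hc : Cell n c) (h : VS n A c k z κ) :
    1 ≤ κ ∧ κ ≤ mx n z ∧ N n A κ z = z ∧ z < c := by
  rcases h with h | ⟨h1, -, hL, hz⟩
  · exact vs0_canon h
  · obtain ⟨a, b, d, e⟩ := AVisC_canon h1 hL
    rw [hz] at b d e
    have := cell_ge n c hc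
    exact ⟨a, b, d, by omega⟩

theorem AVisC_next {y κ : ℕ} (hs : Sent n A) (h1 : 1 ≤ κ) (hL : κ ≤ L n A y)
    (hc : Cell n (y + (n + 2))) :
    N n A κ y + (n + 2) < y + (n + 2) ∧ N n A κ y % (n + 1) < n := by
  have h2 : κ ≤ L n A (y + (n + 2) - (n + 2)) := by rwa [Nat.add_sub_cancel]
  have h3 := child_col hs hc h1 h2
  rw [Nat.add_sub_cancel] at h3
  have := (AVisC_canon h1 hL).2.2.2
  exact ⟨by omega, h3⟩

theorem rs_canon (hs : Sent n A) {c k z κ : ℕ} (hc : Cell n c) (h : RS n A c k z κ) :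
    1 ≤ κ ∧ κ ≤ mx n z ∧ N n A κ z = z ∧ z + (n + 2) < c ∧ z % (n + 1) < n := by
  rcases h with ⟨h1, y, hL, hz, hy, hyc, -⟩ | ⟨h1, -, hL, hz⟩
  · obtain ⟨a, b, d, e⟩ := AVisC_canon h1 hL
    obtain ⟨f, g⟩ := AVisC_next hs h1 hL hy
    rw [hz] at b d e f g
    exact ⟨a, b, d, by omega, g⟩
  · obtain ⟨a, b, d, e⟩ := AVisC_canon h1 hL
    have h3 := child_col hs hc h1 hL
    rw [hz] at b d e h3
    have := cell_ge n c hc
    exact ⟨a, b, d, by omega, h3⟩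

theorem rs0_vs0 {c z κ : ℕ} (h : RS0 n A c z κ) : VS0 n A c z κ := by
  obtain ⟨h1, y, hL, hz, hy, hyc, hl⟩ := h
  exact ⟨h1, y, by omega, hL, hz, Or.inr ⟨hy, hyc, by omega⟩⟩

theorem rs_vs {c k z κ : ℕ} (h : RS n A c k z κ) : VS n A c k z κ := by
  rcases h with h | ⟨h1, hk, hL, hz⟩
  · exact Or.inl (rs0_vs0 h)
  · exact Or.inr ⟨h1, hk.le, hL, hz⟩

theorem rs_image {c k z κ : ℕ} (h : RS n A c k z κ) (h2 : 2 ≤ κ)
    (h3 : L n A z < κ - 1) : VS n A c k z (κ - 1) := by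
  have key : ∀ y, κ ≤ L n A y → N n A κ y = z → N n A (κ - 1) y = z := by
    intro y hL hz
    have hm : κ ≤ mx n y := hL.trans (L_le y)
    have hmz : κ ≤ mx n z := by rw [← hz]; exact mx_N hm
    have e1 : N n A (κ - 1) (N n A κ y) = N n A (κ - 1) y := N_sub (by omega) hm
    rw [← e1, hz]
    exact N_eq_of_L_lt h3 (by omega)
  rcases h with ⟨h1, y, hL, hz, hy, hyc, hl⟩ | ⟨h1, hk, hL, hz⟩
  · exact Or.inl ⟨by omega, y, by omega, by omega, key y hL hz, Or.inr ⟨hy, hyc, by omega⟩⟩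
  · exact Or.inr ⟨by omega, by omega, by omega, key _ hL hz⟩

theorem canon_image2 {c z κ : ℕ} (h2 : 2 ≤ κ) (hz : z < c) (h3 : L n A z = κ - 1) :
    VS0 n A c (N n A (κ - 1) z) (κ - 1) :=
  ⟨by omega, z, hz, by omega, rfl, Or.inl h3.symm⟩

theorem vs0_vs {c k z κ : ℕ} (h : VS0 n A c z κ) : VS n A c k z κ := Or.inl h

theorem rs0_rs {c k z κ : ℕ} (h : RS0 n A c z κ) : RS n A c k z κ := Or.inl h

end ST2
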