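import Pool.Agent.helper32.ST.AVis
import Pool.Agent.helper32.ST.AVisC

/-!
# ST2-ABr : real loci are exactly the branching loci

* rs0_of_branch: let y be a position with E κ y z, cell y + (n+2) < c and
  not E (κ+1) (y+(n+2)) (z+(n+2)), where N κ z = z and z + (n+2) is a cell with κ + 1 <= mx.
  u = N (κ+1) (y+(n+2)) <= y + (n+2), E (κ+1) u (y+(n+2)), v = u - (n+2): E κ v y (N_diag_E),
  so N κ v = z.  v <> z, otherwise u = z + (n+2) (u >= n+2 by mx_mul_le) and E (κ+1) would hold.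
  So z < v and κ <= L v (le_L_iff).  N (κ+1) u = u so L u <= κ (L_lt_of_N_eq).  u is a cell below c.
  Hence RS0 via v (v + (n+2) = u).
* branch_of_rs0: from y in RS0: E κ y z (E_of_N_eq / N_E), L (y+(n+2)) <= κ < κ+1 <= mx (y+(n+2))
  (mx_sub: mx y = mx (y+(n+2)) - 1, i.e. mx (y+(n+2)) = mx y + 1 because y + (n+2) is a cell), hence
  N (κ+1) (y+(n+2)) = y+(n+2), while z + (n+2) < y + (n+2); so E (κ+1) (z+(n+2)) (y+(n+2)) is
  impossible (N_min).
-/

namespace ST2

variable {n : ℕ} {A : ℕ → ℕ}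

theorem mx_prev {y : ℕ} (h : Cell n (y + (n + 2))) : mx n (y + (n + 2)) = mx n y + 1 := by
  have h1 := mx_sub n (y + (n + 2)) 1 h.1
  rw [one_mul, Nat.add_sub_cancel] at h1
  have h2 := h.1
  omega

theorem rs0_of_branch {c z κ y : ℕ} (h1 : 1 ≤ κ) (hz : N n A κ z = z)
    (hz1 : Cell n (z + (n + 2)))
    (hE : E n A κ y z) (hy : Cell n (y + (n + 2))) (hyc : y + (n + 2) < c)
    (hne : ¬ E n A (κ + 1) (y + (n + 2)) (z + (n + 2))) : RS0 n A c z κ := by
  have hms : κ + 1 ≤ mx n (y + (n + 2)) := by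
    rw [mx_prev hy]
    have := hE.1
    omega
  have hmu := mx_N (A := A) hms
  have hEu := N_E (A := A) hms
  have hule := N_le (A := A) hms
  have hNN := N_N (A := A) hms
  have hcu := N_cell (A := A) hy (by omega) hms
  have hd := N_diag_E (A := A) hms
  rw [Nat.add_sub_cancel] at hd
  generalize hu : N n A (κ + 1) (y + (n + 2)) = u at hmu hEu hule hNN hcu hd
  have hge := cell_ge n u hcu
  obtain ⟨v, rfl⟩ : ∃ v, u = v + (n + 2) := ⟨u - (n + 2), by omega⟩
  rw [Nat.add_sub_cancel] at hd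
  have hNv : N n A κ v = z := by
    rw [N_congr hd, N_congr hE, hz]
  have hvz : v ≠ z := by
    rintro rfl
    exact hne (E_symm hEu)
  have hle := N_le (A := A) hd.1
  refine ⟨h1, v, ?_, hNv, hcu, by omega, ?_⟩
  · rw [le_L_iff h1 hd.1, hNv]
    omega
  · have := L_lt_of_N_eq (by omega) hmu hNN
    omega

theorem branch_of_rs0 {c z κ : ℕ} (h : RS0 n A c z κ) :
    ∃ y, E n A κ y z ∧ Cell n (y + (n + 2)) ∧ y + (n + 2) < c ∧ z < y ∧
      ¬ E n A (κ + 1) (y + (n + 2)) (z + (n + 2)) := by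
  obtain ⟨h1, y, hL, hN, hc, hyc, hL2⟩ := h
  have hmy : κ ≤ mx n y := le_trans hL (L_le y)
  have hlt := N_lt_of_le_L h1 hL
  have hE := N_E (A := A) hmy
  rw [hN] at hlt hE
  refine ⟨y, E_symm hE, hc, hyc, hlt, ?_⟩
  intro hE'
  have hms : κ + 1 ≤ mx n (y + (n + 2)) := by
    rw [mx_prev hc]
    omega
  have h3 := N_eq_of_L_lt (A := A) (by omega) hms
  have h4 := N_min (E_symm hE')
  omega

end ST2
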