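import Pool.Agent.helper32.ST.AL

/-!
# ST2-AChild : the main child

c is a cell, x = c - (n+2), 1 <= k <= L x, z1 = N k x (so z1 < x), letters as in `Sent`.
* child_col: z1 % (n+1) < n.  Otherwise z1 % (n+1) = n (as % (n+1) <= n); z1 is a cell (N_cell; x is
  a cell because mx n x >= k >= 1 and x < (n+1)^2), x < n (n+1) (cell_sub_lt), A x = A z1 (E_letter of
  N_E), so Sent gives x = z1, contradiction with z1 < x (N_lt_of_le_L).
* child_cell: mx (z1 + (n+2)) = mx z1 + 1 >= k + 1 (mx_next, mx_N), z1 + (n+2) < x + (n+2) = c.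
* child_mx: mx c = mx x + 1 (mx_sub with 1; mx c >= 1).
* L_nb: L (z1 + 1) <= L z1 + 1 (L_left at z1+1) and L z1 < k (L_lt_of_N_eq with N_N).  L_up at
  z1 + (n+1) similarly.
* main_child_iff: (->) E_up, E_left, E_letter and N_congr (note z1 + (n+2) - (n+1) = z1 + 1,
  z1 + (n+2) - 1 = z1 + (n+1)).  (<-) E_compose; the first hypothesis E k z1 x is N_E, and
  z1 + (n+2) - (n+2) = z1; E_of_N_eq for the other two.
* main_child_N: N (k+1) c <= z1 + (n+2) (N_min); conversely w = N (k+1) c satisfies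
  E k (w - (n+2)) x (N_diag_E), so z1 <= w - (n+2) (N_min), so z1 + (n+2) <= w.
-/

namespace ST2

variable {n : ℕ} {A : ℕ → ℕ}

theorem AChild_x {c k : ℕ} (hc : Cell n c) (h1 : 1 ≤ k) (h2 : k ≤ L n A (c - (n + 2))) :
    Cell n (c - (n + 2)) ∧ k ≤ mx n (c - (n + 2)) ∧ c - (n + 2) + (n + 2) = c ∧
      N n A k (c - (n + 2)) < c - (n + 2) ∧ k ≤ mx n (N n A k (c - (n + 2))) := by
  have hk : k ≤ mx n (c - (n + 2)) := le_trans h2 (L_le _)
  have hge := cell_ge n c hc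
  refine ⟨⟨le_trans h1 hk, ?_⟩, hk, by omega, N_lt_of_le_L h1 h2, mx_N hk⟩
  have := hc.2
  omega

theorem child_col (hs : Sent n A) {c k : ℕ} (hc : Cell n c) (h1 : 1 ≤ k)
    (h2 : k ≤ L n A (c - (n + 2))) : N n A k (c - (n + 2)) % (n + 1) < n := by
  obtain ⟨hx, hk, hcx, hlt, hmx⟩ := AChild_x hc h1 h2
  by_contra hcol
  have hmod : N n A k (c - (n + 2)) % (n + 1) = n := by
    have := Nat.mod_lt (N n A k (c - (n + 2))) (show 0 < n + 1 by omega)
    omega
  have h3 := hs _ _ (N_cell hx h1 hk) hmod hx (cell_sub_lt n c hc) (E_letter (N_E hk) h1).symm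
  omega

theorem child_cell (hs : Sent n A) {c k : ℕ} (hc : Cell n c) (h1 : 1 ≤ k)
    (h2 : k ≤ L n A (c - (n + 2))) :
    Cell n (N n A k (c - (n + 2)) + (n + 2)) ∧ N n A k (c - (n + 2)) + (n + 2) < c ∧
      k + 1 ≤ mx n (N n A k (c - (n + 2)) + (n + 2)) := by
  obtain ⟨hx, hk, hcx, hlt, hmx⟩ := AChild_x hc h1 h2
  have hnext := mx_next n _ (child_col hs hc h1 h2)
  have hc2 := hc.2
  refine ⟨⟨by omega, ?_⟩, by omega, by omega⟩
  omega

theorem child_mx {c k : ℕ} (hc : Cell n c) (h2 : k ≤ L n A (c - (n + 2))) : k + 1 ≤ mx n c := by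
  have hk : k ≤ mx n (c - (n + 2)) := le_trans h2 (L_le _)
  have h3 := mx_sub n c 1 hc.1
  rw [one_mul] at h3
  have := hc.1
  omega

theorem nb_right (hs : Sent n A) {c k : ℕ} (hc : Cell n c) (h1 : 1 ≤ k)
    (h2 : k ≤ L n A (c - (n + 2))) :
    L n A (N n A k (c - (n + 2)) + 1) ≤ k ∧ k ≤ mx n (N n A k (c - (n + 2)) + 1) ∧
      N n A k (c - (n + 2)) + 1 < c := by
  obtain ⟨hx, hk, hcx, hlt, hmx⟩ := AChild_x hc h1 h2
  have h3 := L_left (n := n) (A := A) (N n A k (c - (n + 2)) + 1)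
  rw [Nat.add_sub_cancel] at h3
  have h4 := L_lt_of_N_eq h1 hmx (N_N hk)
  have h5 := mx_right n _ (child_col hs hc h1 h2)
  refine ⟨by omega, by omega, by omega⟩

theorem nb_down (hs : Sent n A) {c k : ℕ} (hc : Cell n c) (h1 : 1 ≤ k)
    (h2 : k ≤ L n A (c - (n + 2))) :
    L n A (N n A k (c - (n + 2)) + (n + 1)) ≤ k ∧ k ≤ mx n (N n A k (c - (n + 2)) + (n + 1)) ∧
      N n A k (c - (n + 2)) + (n + 1) < c := by
  obtain ⟨hx, hk, hcx, hlt, hmx⟩ := AChild_x hc h1 h2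
  have h3 := L_up (n := n) (A := A) (N n A k (c - (n + 2)) + (n + 1))
  rw [Nat.add_sub_cancel] at h3
  have h4 := L_lt_of_N_eq h1 hmx (N_N hk)
  have h5 := mx_down n (N n A k (c - (n + 2)))
  refine ⟨by omega, by omega, by omega⟩

theorem main_child_iff (hs : Sent n A) {c k : ℕ} (hc : Cell n c) (h1 : 1 ≤ k)
    (h2 : k ≤ L n A (c - (n + 2))) :
    E n A (k + 1) (N n A k (c - (n + 2)) + (n + 2)) c ↔
      (N n A k (N n A k (c - (n + 2)) + 1) = N n A k (c - (n + 1)) ∧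
       N n A k (N n A k (c - (n + 2)) + (n + 1)) = N n A k (c - 1) ∧
       A (N n A k (c - (n + 2)) + (n + 2)) = A c) := by
  obtain ⟨hx, hk, hcx, hlt, hmx⟩ := AChild_x hc h1 h2
  have hmc := child_mx hc h2
  obtain ⟨-, -, hm1⟩ := child_cell hs hc h1 h2
  have e1 : N n A k (c - (n + 2)) + (n + 2) - (n + 1) = N n A k (c - (n + 2)) + 1 := by omega
  have e2 : N n A k (c - (n + 2)) + (n + 2) - 1 = N n A k (c - (n + 2)) + (n + 1) := by omega
  constructor
  · intro h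
    have h3 := E_up h
    have h4 := E_left h
    rw [e1] at h3
    rw [e2] at h4
    exact ⟨N_congr h3, N_congr h4, E_letter h (by omega)⟩
  · rintro ⟨h3, h4, h5⟩
    have h6 := mx_up n c hc.1
    have h7 := mx_left n c hc.1
    refine E_compose h1 hm1 hmc ?_ ?_ ?_ h5
    · rw [Nat.add_sub_cancel]
      exact N_E hk
    · rw [e1]
      exact E_of_N_eq (nb_right hs hc h1 h2).2.1 (by omega) h3
    · rw [e2]
      exact E_of_N_eq (nb_down hs hc h1 h2).2.1 (by omega) h4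

theorem main_child_N {c k : ℕ} (hc : Cell n c) (h1 : 1 ≤ k)
    (h2 : k ≤ L n A (c - (n + 2))) (h : E n A (k + 1) (N n A k (c - (n + 2)) + (n + 2)) c) :
    N n A (k + 1) c = N n A k (c - (n + 2)) + (n + 2) := by
  have hmc := child_mx hc h2
  have h3 := N_min h
  have h4 := N_min (N_diag_E (A := A) hmc)
  have h5 := mx_mul_le n (N n A (k + 1) c) 1 (le_trans (by omega) (mx_N (A := A) hmc))
  rw [one_mul] at h5
  omega

end ST2
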