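import Pool.Agent.helper32.ST.AChild

/-!
# ST2-ADict : the dictionary of children

`Cr n A u κ`: a leaf is created at the cell u with size κ, i.e. the κ-square at u is a first
occurrence while the (κ-1)-square at u - (n+2) is not (or κ = 1).
* cr_mx: κ <= L (u-(n+2)) + 1 <= mx (u-(n+2)) + 1 = mx u (mx_sub with 1).
* dict_complete: c cell, x = c-(n+2), 1 <= k <= L x, k+1 <= L c, w = N (k+1) c < c.  N k (w-(n+2)) = N k x
  =: z1 (N_congr of N_diag_E).  If w - (n+2) <> z1 then z1 < w - (n+2), so k <= L (w-(n+2)) (le_L_iff);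
  L w < k+1 by L_lt_of_N_eq and N_N.  The other names by E_up, E_left of N_E.
* dict_sound: E_compose gives E (k+1) w c; if N (k+1) w = w then N (k+1) c = w (N_congr) < c, so
  k + 1 <= L c (le_L_iff).
-/

namespace ST2

variable {n : ℕ} {A : ℕ → ℕ}

def Cr (n : ℕ) (A : ℕ → ℕ) (u κ : ℕ) : Prop :=
  Cell n u ∧ L n A u < κ ∧ κ ≤ L n A (u - (n + 2)) + 1

theorem ADict_sub {z k : ℕ} (h : k + 1 ≤ mx n z) :
    k ≤ mx n (z - (n + 2)) ∧ k ≤ mx n (z - (n + 1)) ∧ k ≤ mx n (z - 1) := by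
  have h1 := mx_sub n z 1 (by omega)
  rw [one_mul] at h1
  have h2 := mx_up n z (by omega)
  have h3 := mx_left n z (by omega)
  refine ⟨by omega, by omega, by omega⟩

theorem cr_mx {u κ : ℕ} (h : Cr n A u κ) : κ ≤ mx n u := by
  have h1 := mx_sub n u 1 h.1.1
  rw [one_mul] at h1
  have h2 := L_le (n := n) (A := A) (u - (n + 2))
  have h3 := h.2.2
  have h4 := h.1.1
  omega

theorem cr_N {u κ : ℕ} (h : Cr n A u κ) : N n A κ u = u := N_eq_of_L_lt h.2.1 (cr_mx h)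

theorem dict_complete {c k : ℕ} (hc : Cell n c) (h1 : 1 ≤ k) (h2 : k ≤ L n A (c - (n + 2)))
    (h3 : k + 1 ≤ L n A c) (h4 : N n A (k + 1) c ≠ N n A k (c - (n + 2)) + (n + 2)) :
    Cr n A (N n A (k + 1) c) (k + 1) ∧ N n A (k + 1) c < c ∧
      N n A k (N n A (k + 1) c - (n + 2)) = N n A k (c - (n + 2)) ∧
      N n A k (N n A (k + 1) c - (n + 1)) = N n A k (c - (n + 1)) ∧
      N n A k (N n A (k + 1) c - 1) = N n A k (c - 1) ∧
      A (N n A (k + 1) c) = A c := by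
  have hmc : k + 1 ≤ mx n c := le_trans h3 (L_le _)
  have hE := N_E (A := A) hmc
  have hd : N n A k (N n A (k + 1) c - (n + 2)) = N n A k (c - (n + 2)) :=
    N_congr (N_diag_E hmc)
  have hcell : Cell n (N n A (k + 1) c) := N_cell hc (by omega) hmc
  have hmw : k + 1 ≤ mx n (N n A (k + 1) c) := mx_N hmc
  have hge := cell_ge n _ hcell
  obtain ⟨hs1, -, -⟩ := ADict_sub hmw
  have hle := N_le (A := A) hs1
  refine ⟨⟨hcell, L_lt_of_N_eq (by omega) hmw (N_N hmc), ?_⟩, N_lt_of_le_L (by omega) h3, hd,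
    N_congr (E_up hE), N_congr (E_left hE), E_letter hE (by omega)⟩
  have : k ≤ L n A (N n A (k + 1) c - (n + 2)) := by
    rw [le_L_iff h1 hs1]
    rcases Nat.lt_or_ge (N n A k (N n A (k + 1) c - (n + 2))) (N n A (k + 1) c - (n + 2)) with h | h
    · exact h
    · exfalso
      apply h4
      omega
  omega

theorem dict_sound {c w k : ℕ} (hc : Cell n c) (h1 : 1 ≤ k) (h2 : k + 1 ≤ mx n c)
    (hw : k + 1 ≤ mx n w)
    (e1 : N n A k (w - (n + 2)) = N n A k (c - (n + 2)))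
    (e2 : N n A k (w - (n + 1)) = N n A k (c - (n + 1)))
    (e3 : N n A k (w - 1) = N n A k (c - 1)) (e4 : A w = A c) : E n A (k + 1) w c := by
  obtain ⟨a1, a2, a3⟩ := ADict_sub hw
  obtain ⟨b1, b2, b3⟩ := ADict_sub h2
  exact E_compose h1 hw h2 (E_of_N_eq a1 b1 e1) (E_of_N_eq a2 b2 e2) (E_of_N_eq a3 b3 e3) e4

/-- if a created (w, k+1) with w < c has the key of c, then it is the first occurrence -/
theorem dict_sound' {c w k : ℕ} (hc : Cell n c) (h1 : 1 ≤ k) (h2 : k + 1 ≤ mx n c)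
    (hw : Cr n A w (k + 1)) (hwc : w < c)
    (e1 : N n A k (w - (n + 2)) = N n A k (c - (n + 2)))
    (e2 : N n A k (w - (n + 1)) = N n A k (c - (n + 1)))
    (e3 : N n A k (w - 1) = N n A k (c - 1)) (e4 : A w = A c) :
    N n A (k + 1) c = w ∧ k + 1 ≤ L n A c := by
  have h3 := N_congr (dict_sound hc h1 h2 (cr_mx hw) e1 e2 e3 e4)
  rw [cr_N hw] at h3
  refine ⟨h3.symm, ?_⟩
  rw [le_L_iff (by omega) h2]
  omega

/-- two created cells with the same key are equal -/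
theorem dict_inj {w w' k : ℕ} (h1 : 1 ≤ k) (hw : Cr n A w (k + 1)) (hw' : Cr n A w' (k + 1))
    (e1 : N n A k (w - (n + 2)) = N n A k (w' - (n + 2)))
    (e2 : N n A k (w - (n + 1)) = N n A k (w' - (n + 1)))
    (e3 : N n A k (w - 1) = N n A k (w' - 1)) (e4 : A w = A w') : w = w' := by
  have h3 := N_congr (dict_sound hw'.1 h1 (cr_mx hw') (cr_mx hw) e1 e2 e3 e4)
  rw [cr_N hw, cr_N hw'] at h3
  exact h3

end ST2
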