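import Pool.Agent.helper32.ST.AMx

/-!
# ST2-AE : the relation E (equality of k-squares)

(proofs: helper51)

All by unfolding `E`.  `E_diag`: mx_sub gives the sizes, and (z - i(n+2)) - a(n+1) - b =
z - (a+i)(n+1) - (b+i) (by Nat.sub_sub and ring), with a+i < k, b+i < k.
`E_up`: (z - (n+1)) - a(n+1) - b = z - (a+1)(n+1) - b, a + 1 < k + 1, b < k + 1 (mx_up for sizes).
`E_left`: (z - 1) - a(n+1) - b = z - a(n+1) - (b+1) (mx_left).
`E_compose`: let a, b < k+1.  If a = 0 and b = 0 use the letter.  If a, b >= 1: use h1 with a-1, b-1.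
If a >= 1, b = 0: use h2 with a-1, 0.  If a = 0, b >= 1: use h3 with 0, b-1.
-/

namespace ST2

variable {n : ℕ} {A : ℕ → ℕ}

theorem E_refl {k z : ℕ} (h : k ≤ mx n z) : E n A k z z :=
  ⟨h, h, fun _ _ _ _ => rfl⟩

theorem E_symm {k z w : ℕ} (h : E n A k z w) : E n A k w z :=
  ⟨h.2.1, h.1, fun a ha b hb => (h.2.2 a ha b hb).symm⟩

theorem E_trans {k z w v : ℕ} (h : E n A k z w) (h' : E n A k w v) : E n A k z v :=
  ⟨h.1, h'.2.1, fun a ha b hb => (h.2.2 a ha b hb).trans (h'.2.2 a ha b hb)⟩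

theorem E_mono {k k' z w : ℕ} (h : E n A k z w) (hk : k' ≤ k) : E n A k' z w :=
  ⟨hk.trans h.1, hk.trans h.2.1,
    fun a ha b hb => h.2.2 a (lt_of_lt_of_le ha hk) b (lt_of_lt_of_le hb hk)⟩

/-- the same cell, written in two ways -/
theorem AE_cell {z x a b y a' b' : ℕ} (h : x + a * (n + 1) + b = y + a' * (n + 1) + b') :
    z - x - a * (n + 1) - b = z - y - a' * (n + 1) - b' := by
  omega

theorem E_diag {k z w : ℕ} (h : E n A k z w) (i : ℕ) (hi : i ≤ k) :
    E n A (k - i) (z - i * (n + 2)) (w - i * (n + 2)) := by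
  refine ⟨?_, ?_, ?_⟩
  · rw [mx_sub n z i (hi.trans h.1)]
    exact Nat.sub_le_sub_right h.1 i
  · rw [mx_sub n w i (hi.trans h.2.1)]
    exact Nat.sub_le_sub_right h.2.1 i
  · intro a ha b hb
    have h1 := h.2.2 (a + i) (by omega) (b + i) (by omega)
    have e : i * (n + 2) + a * (n + 1) + b = 0 + (a + i) * (n + 1) + (b + i) := by ring
    rw [AE_cell e, AE_cell e, Nat.sub_zero, Nat.sub_zero]
    exact h1

theorem E_up {k z w : ℕ} (h : E n A (k + 1) z w) : E n A k (z - (n + 1)) (w - (n + 1)) := by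
  obtain ⟨h1, h2, h3⟩ := h
  refine ⟨?_, ?_, ?_⟩
  · have := mx_up n z (by omega)
    omega
  · have := mx_up n w (by omega)
    omega
  · intro a ha b hb
    have h4 := h3 (a + 1) (by omega) b (by omega)
    have e : (n + 1) + a * (n + 1) + b = 0 + (a + 1) * (n + 1) + b := by ring
    rw [AE_cell e, AE_cell e, Nat.sub_zero, Nat.sub_zero]
    exact h4

theorem E_left {k z w : ℕ} (h : E n A (k + 1) z w) : E n A k (z - 1) (w - 1) := by
  obtain ⟨h1, h2, h3⟩ := h
  refine ⟨?_, ?_, ?_⟩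
  · have := mx_left n z (by omega)
    omega
  · have := mx_left n w (by omega)
    omega
  · intro a ha b hb
    have h4 := h3 a (by omega) (b + 1) (by omega)
    have e : 1 + a * (n + 1) + b = 0 + a * (n + 1) + (b + 1) := by ring
    rw [AE_cell e, AE_cell e, Nat.sub_zero, Nat.sub_zero]
    exact h4

theorem E_letter {k z w : ℕ} (h : E n A k z w) (hk : 1 ≤ k) : A z = A w := by
  have h1 := h.2.2 0 (by omega) 0 (by omega)
  simpa using h1

theorem E_one {z w : ℕ} : E n A 1 z w ↔ 1 ≤ mx n z ∧ 1 ≤ mx n w ∧ A z = A w := by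
  constructor
  · intro h
    exact ⟨h.1, h.2.1, E_letter h le_rfl⟩
  · rintro ⟨h1, h2, h3⟩
    refine ⟨h1, h2, ?_⟩
    intro a ha b hb
    have ha0 : a = 0 := by omega
    have hb0 : b = 0 := by omega
    subst ha0
    subst hb0
    simpa using h3

theorem E_compose {k z w : ℕ} (hk : 1 ≤ k) (hz : k + 1 ≤ mx n z) (hw : k + 1 ≤ mx n w)
    (h1 : E n A k (z - (n + 2)) (w - (n + 2))) (h2 : E n A k (z - (n + 1)) (w - (n + 1)))
    (h3 : E n A k (z - 1) (w - 1)) (h4 : A z = A w) : E n A (k + 1) z w := by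
  refine ⟨hz, hw, ?_⟩
  intro a ha b hb
  rcases Nat.eq_zero_or_pos a with ha0 | ha0
  · rcases Nat.eq_zero_or_pos b with hb0 | hb0
    · subst ha0
      subst hb0
      simpa using h4
    · obtain ⟨b', rfl⟩ : ∃ b', b = b' + 1 := ⟨b - 1, by omega⟩
      subst ha0
      have h5 := h3.2.2 0 (by omega) b' (by omega)
      have e : 1 + 0 * (n + 1) + b' = 0 + 0 * (n + 1) + (b' + 1) := by ring
      rw [AE_cell e, AE_cell e, Nat.sub_zero, Nat.sub_zero] at h5
      exact h5
  · obtain ⟨a', rfl⟩ : ∃ a', a = a' + 1 := ⟨a - 1, by omega⟩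
    rcases Nat.eq_zero_or_pos b with hb0 | hb0
    · subst hb0
      have h5 := h2.2.2 a' (by omega) 0 (by omega)
      have e : (n + 1) + a' * (n + 1) + 0 = 0 + (a' + 1) * (n + 1) + 0 := by ring
      rw [AE_cell e, AE_cell e, Nat.sub_zero, Nat.sub_zero] at h5
      exact h5
    · obtain ⟨b', rfl⟩ : ∃ b', b = b' + 1 := ⟨b - 1, by omega⟩
      have h5 := h1.2.2 a' (by omega) b' (by omega)
      have e : (n + 2) + a' * (n + 1) + b' = 0 + (a' + 1) * (n + 1) + (b' + 1) := by ring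
      rw [AE_cell e, AE_cell e, Nat.sub_zero, Nat.sub_zero] at h5
      exact h5

end ST2
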