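import Pool.Agent.helper32.ST.AVisC

/-!
# ST2-AKey : owners of canonical loci

For a canonical locus (z, k) (1 <= k <= mx z, N k z = z): ko z k is the least κ in [1, k] with
N κ (z-(k-κ)(n+2)) = z-(k-κ)(n+2), uo z k = z - (k - ko)(n+2).  So (uo, ko) is created: Cr.
* ko_spec: sInf of a nonempty set (κ = k belongs to it): Nat.sInf_mem.  L uo < ko by L_lt_of_N_eq.
  ko <= L (uo-(n+2)) + 1: if ko = 1 trivial; otherwise ko - 1 is not in the set, uo - (n+2) =
  z - (k-(ko-1))(n+2), so N (ko-1) (uo-(n+2)) <> uo-(n+2), so it is smaller, so ko - 1 <= L.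
* ko_unique: if Cr u κ and z = u + (k-κ)(n+2), κ <= k <= mx z, then ko z k = κ: κ is in the set (cr_N);
  for κ' < κ in the set, N κ' v = v with v = u-(κ-κ')(n+2); N_diag gives N (κ-1) (u-(n+2)) = u-(n+2),
  so L (u-(n+2)) < κ-1 (L_lt_of_N_eq), contradiction with κ <= L(u-(n+2))+1.
* the last statements follow from ko_unique.
-/

namespace ST2

noncomputable def ko (n : ℕ) (A : ℕ → ℕ) (z k : ℕ) : ℕ :=
  sInf {κ | 1 ≤ κ ∧ κ ≤ k ∧ N n A κ (z - (k - κ) * (n + 2)) = z - (k - κ) * (n + 2)}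

noncomputable def uo (n : ℕ) (A : ℕ → ℕ) (z k : ℕ) : ℕ := z - (k - ko n A z k) * (n + 2)

variable {n : ℕ} {A : ℕ → ℕ}

theorem ko_spec {z k : ℕ} (hz : Cell n z) (h1 : 1 ≤ k) (h2 : k ≤ mx n z) (h : N n A k z = z) :
    1 ≤ ko n A z k ∧ ko n A z k ≤ k ∧ Cr n A (uo n A z k) (ko n A z k) ∧
      uo n A z k ≤ z ∧ z = uo n A z k + (k - ko n A z k) * (n + 2) := by
  have hkS : k ∈ {κ | 1 ≤ κ ∧ κ ≤ k ∧
      N n A κ (z - (k - κ) * (n + 2)) = z - (k - κ) * (n + 2)} := by
    refine ⟨h1, le_rfl, ?_⟩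
    rw [Nat.sub_self, Nat.zero_mul, Nat.sub_zero]
    exact h
  have hmem : ko n A z k ∈ {κ | 1 ≤ κ ∧ κ ≤ k ∧
      N n A κ (z - (k - κ) * (n + 2)) = z - (k - κ) * (n + 2)} := Nat.sInf_mem ⟨k, hkS⟩
  obtain ⟨m1, m2, m3⟩ := hmem
  have hmul : (k - ko n A z k) * (n + 2) ≤ z := mx_mul_le n z _ (by omega)
  have hmx : ko n A z k ≤ mx n (uo n A z k) := by
    unfold uo
    rw [mx_sub n z _ (by omega)]
    omega
  refine ⟨m1, m2, ⟨?_, ?_, ?_⟩, Nat.sub_le _ _, ?_⟩
  · exact cell_sub n z _ hz (by omega)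
  · exact L_lt_of_N_eq m1 hmx m3
  · rcases Nat.lt_or_ge (ko n A z k) 2 with hlt | hge
    · omega
    · have hnot : ko n A z k - 1 ∉ {κ | 1 ≤ κ ∧ κ ≤ k ∧
          N n A κ (z - (k - κ) * (n + 2)) = z - (k - κ) * (n + 2)} := by
        apply Nat.notMem_of_lt_sInf
        show ko n A z k - 1 < ko n A z k
        omega
      have hv : z - (k - (ko n A z k - 1)) * (n + 2) = uo n A z k - (n + 2) := by
        unfold uo
        rw [show k - (ko n A z k - 1) = (k - ko n A z k) + 1 by omega, Nat.add_mul, one_mul,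
          Nat.sub_sub]
      have hmv : ko n A z k - 1 ≤ mx n (uo n A z k - (n + 2)) := by
        rw [← hv, mx_sub n z _ (by omega)]
        omega
      have hne : N n A (ko n A z k - 1) (uo n A z k - (n + 2)) ≠ uo n A z k - (n + 2) := by
        intro hc
        apply hnot
        refine ⟨by omega, by omega, ?_⟩
        rw [hv]
        exact hc
      have hle := N_le (A := A) hmv
      have := (le_L_iff (A := A) (show 1 ≤ ko n A z k - 1 by omega) hmv).2 (by omega)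
      omega
  · unfold uo
    omega

theorem ko_unique {z k u κ : ℕ} (hu : Cr n A u κ) (hk : κ ≤ k) (hz : z = u + (k - κ) * (n + 2))
    (h2 : k ≤ mx n z) : ko n A z k = κ ∧ uo n A z k = u := by
  have hκ1 : 1 ≤ κ := by
    have := hu.2.1
    omega
  have hsub : z - (k - κ) * (n + 2) = u := by omega
  have hκS : κ ∈ {κ | 1 ≤ κ ∧ κ ≤ k ∧
      N n A κ (z - (k - κ) * (n + 2)) = z - (k - κ) * (n + 2)} := by
    refine ⟨hκ1, hk, ?_⟩
    rw [hsub]
    exact cr_N hu
  have hmem : ko n A z k ∈ {κ | 1 ≤ κ ∧ κ ≤ k ∧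
      N n A κ (z - (k - κ) * (n + 2)) = z - (k - κ) * (n + 2)} := Nat.sInf_mem ⟨κ, hκS⟩
  have hle : ko n A z k ≤ κ := Nat.sInf_le hκS
  obtain ⟨m1, m2, m3⟩ := hmem
  have heq : ko n A z k = κ := by
    by_contra hne
    have hlt : ko n A z k < κ := lt_of_le_of_ne hle hne
    have hy : u - (n + 2) = z - (k - κ + 1) * (n + 2) := by
      rw [Nat.add_mul, one_mul]
      omega
    have hmy : κ - 1 ≤ mx n (u - (n + 2)) := by
      rw [hy, mx_sub n z _ (by omega)]
      omega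
    have hyi : u - (n + 2) - (κ - 1 - ko n A z k) * (n + 2) =
        z - (k - ko n A z k) * (n + 2) := by
      rw [hy, Nat.sub_sub, ← Nat.add_mul]
      congr 2
      omega
    have hN := N_diag m3 hyi (by omega)
    rw [show ko n A z k + (κ - 1 - ko n A z k) = κ - 1 by omega] at hN
    have h3 := L_lt_of_N_eq (by omega) hmy hN
    have h4 := hu.2.2
    omega
  refine ⟨heq, ?_⟩
  unfold uo
  rw [heq]
  exact hsub

theorem cr_canon {z k u κ : ℕ} (hu : Cr n A u κ) (hk : κ ≤ k) (hz : z = u + (k - κ) * (n + 2))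
    (h2 : k ≤ mx n z) : N n A k z = z := by
  have hN := N_diag (i := k - κ) (y := z) (cr_N hu) (by omega) (by omega)
  rwa [show κ + (k - κ) = k by omega] at hN

theorem ko_diag {z k i : ℕ} (hz : Cell n z) (h1 : 1 ≤ k) (h2 : k ≤ mx n z) (h : N n A k z = z)
    (h3 : k + i ≤ mx n (z + i * (n + 2))) :
    ko n A (z + i * (n + 2)) (k + i) = ko n A z k ∧
      uo n A (z + i * (n + 2)) (k + i) = uo n A z k := by
  obtain ⟨a1, a2, a3, -, a5⟩ := ko_spec hz h1 h2 h
  refine ko_unique a3 (by omega) ?_ h3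
  rw [show k + i - ko n A z k = (k - ko n A z k) + i by omega, Nat.add_mul]
  omega

/-- two canonical loci with the same owner lie on one diagonal path -/
theorem same_owner {z k z' k' : ℕ} (hz : Cell n z) (h1 : 1 ≤ k) (h2 : k ≤ mx n z)
    (h : N n A k z = z) (hz' : Cell n z') (h1' : 1 ≤ k') (h2' : k' ≤ mx n z')
    (h' : N n A k' z' = z') (hu : uo n A z k = uo n A z' k') (hko : ko n A z k = ko n A z' k')
    (hkk : k ≤ k') : z' = z + (k' - k) * (n + 2) := by
  obtain ⟨a1, a2, a3, -, a5⟩ := ko_spec hz h1 h2 h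
  obtain ⟨b1, b2, b3, -, b5⟩ := ko_spec hz' h1' h2' h'
  rw [← hu, ← hko] at b5
  rw [show k' - ko n A z k = (k - ko n A z k) + (k' - k) by omega, Nat.add_mul] at b5
  omega

/-- created at z itself with its own size: ko z κ = κ -/
theorem ko_cr {u κ : ℕ} (hu : Cr n A u κ) : ko n A u κ = κ ∧ uo n A u κ = u := by
  refine ko_unique hu le_rfl ?_ (cr_mx hu)
  rw [Nat.sub_self, Nat.zero_mul, Nat.add_zero]

end ST2
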