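import Pool.Agent.helper32.ST.AN

/-!
# ST2-AL : the function L

L n A z = Nat.findGreatest (fun k => N n A k z < z) (mx n z).
* le_L_iff: (->) if k <= L z then m = L z >= 1 satisfies N m z < z (Nat.findGreatest_spec; the
  predicate holds at some index because otherwise L z = 0), and N k z <= N m z (N_mono) < z.
  (<-) Nat.le_findGreatest.
* L_diag: if L z <= 1 trivial.  Otherwise k = L z >= 2, w = N k z < z, E (k-1) (w - (n+2)) (z - (n+2))
  (E_diag with i = 1), w - (n+2) < z - (n+2) (since n + 2 <= w by mx_mul_le with 1), so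
  N (k-1) (z-(n+2)) <= w - (n+2) < z - (n+2), and le_L_iff at z - (n+2) (size from mx_sub).
  Similarly L_up (E_up, mx_up) and L_left (E_left, mx_left).
-/

namespace ST2

variable {n : ℕ} {A : ℕ → ℕ}

theorem L_le (z : ℕ) : L n A z ≤ mx n z := by
  unfold L
  exact Nat.findGreatest_le _

theorem le_L_iff {k z : ℕ} (h1 : 1 ≤ k) (h2 : k ≤ mx n z) : k ≤ L n A z ↔ N n A k z < z := by
  constructor
  · intro h
    have h3 : L n A z ≠ 0 := by omega
    have h4 : N n A (L n A z) z < z := by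
      unfold L at h3 ⊢
      exact Nat.findGreatest_of_ne_zero (P := fun k => N n A k z < z) rfl h3
    exact lt_of_le_of_lt (N_mono h (L_le z)) h4
  · intro h
    unfold L
    exact Nat.le_findGreatest h2 h

theorem N_lt_of_le_L {k z : ℕ} (h1 : 1 ≤ k) (h2 : k ≤ L n A z) : N n A k z < z :=
  (le_L_iff h1 (h2.trans (L_le z))).1 h2

theorem N_eq_of_L_lt {k z : ℕ} (h1 : L n A z < k) (h2 : k ≤ mx n z) : N n A k z = z := by
  have h3 : ¬ N n A k z < z := fun h => absurd ((le_L_iff (by omega) h2).2 h) (by omega)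
  have h4 : N n A k z ≤ z := N_le h2
  omega

theorem L_lt_of_N_eq {k z : ℕ} (h1 : 1 ≤ k) (h2 : k ≤ mx n z) (h : N n A k z = z) :
    L n A z < k := by
  by_contra h3
  have h4 := N_lt_of_le_L (A := A) h1 (not_lt.1 h3)
  omega

theorem L_zero {z : ℕ} (h : mx n z = 0) : L n A z = 0 := by
  have h1 := L_le (n := n) (A := A) z
  omega

/-- the first occurrence of the square of size `L z`, if `L z = k + 1` -/
theorem AL_aux {z k : ℕ} (h : L n A z = k + 1) :
    k + 1 ≤ mx n z ∧ N n A (k + 1) z < z ∧ n + 2 ≤ N n A (k + 1) z := by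
  have h1 : k + 1 ≤ mx n z := by
    rw [← h]
    exact L_le z
  have h2 : N n A (k + 1) z < z := N_lt_of_le_L (by omega) (by omega)
  have h3 : k + 1 ≤ mx n (N n A (k + 1) z) := mx_N h1
  have h4 := mx_mul_le n (N n A (k + 1) z) 1 (by omega)
  exact ⟨h1, h2, by omega⟩

theorem L_diag (z : ℕ) : L n A z ≤ L n A (z - (n + 2)) + 1 := by
  obtain hL | ⟨k, hL⟩ : L n A z ≤ 1 ∨ ∃ k, L n A z = (k + 1) + 1 := by
    rcases Nat.lt_or_ge 1 (L n A z) with h | h
    · exact Or.inr ⟨L n A z - 2, by omega⟩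
    · exact Or.inl h
  · omega
  obtain ⟨h1, h2, h3⟩ := AL_aux hL
  have h4 := N_min (N_diag_E (A := A) h1)
  have h5 := mx_sub n z 1 (by omega)
  rw [one_mul] at h5
  have h6 : k + 1 ≤ L n A (z - (n + 2)) :=
    (le_L_iff (by omega) (by omega)).2 (by omega)
  omega

theorem L_up (z : ℕ) : L n A z ≤ L n A (z - (n + 1)) + 1 := by
  obtain hL | ⟨k, hL⟩ : L n A z ≤ 1 ∨ ∃ k, L n A z = (k + 1) + 1 := by
    rcases Nat.lt_or_ge 1 (L n A z) with h | h
    · exact Or.inr ⟨L n A z - 2, by omega⟩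
    · exact Or.inl h
  · omega
  obtain ⟨h1, h2, h3⟩ := AL_aux hL
  have h4 := N_min (E_up (N_E (A := A) h1))
  have h5 := mx_up n z (by omega)
  have h6 : k + 1 ≤ L n A (z - (n + 1)) :=
    (le_L_iff (by omega) (by omega)).2 (by omega)
  omega

theorem L_left (z : ℕ) : L n A z ≤ L n A (z - 1) + 1 := by
  obtain hL | ⟨k, hL⟩ : L n A z ≤ 1 ∨ ∃ k, L n A z = (k + 1) + 1 := by
    rcases Nat.lt_or_ge 1 (L n A z) with h | h
    · exact Or.inr ⟨L n A z - 2, by omega⟩
    · exact Or.inl h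
  · omega
  obtain ⟨h1, h2, h3⟩ := AL_aux hL
  have h4 := N_min (E_left (N_E (A := A) h1))
  have h5 := mx_left n z (by omega)
  have h6 : k + 1 ≤ L n A (z - 1) :=
    (le_L_iff (by omega) (by omega)).2 (by omega)
  omega

/-- `nm k z`: the name of the k-square at z computed from L z and the first occurrence of the
L z-square; correct as soon as L z <= k -/
noncomputable def nm (n : ℕ) (A : ℕ → ℕ) (k z : ℕ) : ℕ :=
  if L n A z < k then z else N n A (L n A z) z

theorem nm_eq {k z : ℕ} (h1 : 1 ≤ k) (h2 : k ≤ mx n z) (h : L n A z ≤ k) :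
    nm n A k z = N n A k z := by
  unfold nm
  by_cases h3 : L n A z < k
  · rw [if_pos h3, N_eq_of_L_lt h3 h2]
  · rw [if_neg h3]
    have h4 : L n A z = k := by omega
    rw [h4]

/-- going down one size from a name: with w = N (k+1) z, N k z = w if L w < k, else N (L w) w -/
theorem N_down {k z : ℕ} (h1 : 1 ≤ k) (h2 : k + 1 ≤ mx n z) :
    N n A k z = if L n A (N n A (k + 1) z) < k then N n A (k + 1) z
      else N n A (L n A (N n A (k + 1) z)) (N n A (k + 1) z) := by
  have h3 : k + 1 ≤ mx n (N n A (k + 1) z) := mx_N h2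
  have h4 : L n A (N n A (k + 1) z) < k + 1 := L_lt_of_N_eq (by omega) h3 (N_N h2)
  have h5 := nm_eq (A := A) h1 (show k ≤ mx n (N n A (k + 1) z) by omega) (by omega)
  rw [N_sub (Nat.le_succ k) h2] at h5
  rw [← h5]
  rfl

end ST2
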