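import Pool.Agent.helper32.ST.Names

/-!
# ST2-AMx : arithmetic of cell codes (z = row * (n+1) + col, col <= n)

Write z = r (n+1) + c with r = z / (n+1), c = z % (n+1).  z - k (n+2) = (r-k)(n+1) + (c-k) for
k <= min r c; z - (n+1) = (r-1)(n+1) + c; z - 1 = r (n+1) + (c-1) (c >= 1);
z + (n+2) = (r+1)(n+1) + (c+1) if c < n; z + 1 = r(n+1) + (c+1) if c < n; z + (n+1) = (r+1)(n+1)+c.
Use `Nat.div_add_mod`, `Nat.add_mul_div_right`, `Nat.add_mul_mod_self_right`, `Nat.div_eq_of_lt`,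
`Nat.mod_eq_of_lt` after rewriting (or `Nat.div_mod_unique`).
-/

namespace ST2

theorem AMx_dm (n r c : ℕ) (h : c ≤ n) :
    (r * (n + 1) + c) / (n + 1) = r ∧ (r * (n + 1) + c) % (n + 1) = c := by
  constructor
  · rw [add_comm, Nat.add_mul_div_right _ _ (Nat.succ_pos n), Nat.div_eq_of_lt (Nat.lt_succ_of_le h),
      zero_add]
  · rw [add_comm, Nat.add_mul_mod_self_right, Nat.mod_eq_of_lt (Nat.lt_succ_of_le h)]

theorem AMx_mx (n r c : ℕ) (h : c ≤ n) : mx n (r * (n + 1) + c) = min r c := by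
  unfold mx
  rw [(AMx_dm n r c h).1, (AMx_dm n r c h).2]

theorem AMx_ex (n z : ℕ) : ∃ r c, c ≤ n ∧ z = r * (n + 1) + c := by
  refine ⟨z / (n + 1), z % (n + 1), Nat.lt_succ_iff.mp (Nat.mod_lt _ (Nat.succ_pos n)), ?_⟩
  have := Nat.div_add_mod z (n + 1)
  rw [mul_comm] at this
  exact this.symm

theorem AMx_sub (n r c k : ℕ) (hr : k ≤ r) (hc : k ≤ c) :
    r * (n + 1) + c - k * (n + 2) = (r - k) * (n + 1) + (c - k) := by
  obtain ⟨r', rfl⟩ := Nat.exists_eq_add_of_le hr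
  obtain ⟨c', rfl⟩ := Nat.exists_eq_add_of_le hc
  rw [Nat.add_sub_cancel_left, Nat.add_sub_cancel_left]
  have : (k + r') * (n + 1) + (k + c') = k * (n + 2) + (r' * (n + 1) + c') := by ring
  rw [this, Nat.add_sub_cancel_left]

theorem mx_le (n z : ℕ) : mx n z ≤ n := by
  obtain ⟨r, c, hc, rfl⟩ := AMx_ex n z
  rw [AMx_mx n r c hc]
  omega

theorem mx_mul_le (n z k : ℕ) (h : k ≤ mx n z) : k * (n + 2) ≤ z := by
  obtain ⟨r, c, hc, rfl⟩ := AMx_ex n z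
  rw [AMx_mx n r c hc] at h
  have h1 : k * (n + 1) ≤ r * (n + 1) := Nat.mul_le_mul_right _ (by omega)
  have h2 : k * (n + 2) = k * (n + 1) + k := by ring
  omega

theorem AMx_sub' (n r c k : ℕ) (hc : c ≤ n) (h : k ≤ mx n (r * (n + 1) + c)) :
    r * (n + 1) + c - k * (n + 2) = (r - k) * (n + 1) + (c - k) := by
  rw [AMx_mx n r c hc] at h
  exact AMx_sub n r c k (by omega) (by omega)

theorem sub_div (n z k : ℕ) (h : k ≤ mx n z) : (z - k * (n + 2)) / (n + 1) = z / (n + 1) - k := by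
  obtain ⟨r, c, hc, rfl⟩ := AMx_ex n z
  rw [AMx_sub' n r c k hc h, (AMx_dm n (r - k) (c - k) (by omega)).1, (AMx_dm n r c hc).1]

theorem sub_mod (n z k : ℕ) (h : k ≤ mx n z) : (z - k * (n + 2)) % (n + 1) = z % (n + 1) - k := by
  obtain ⟨r, c, hc, rfl⟩ := AMx_ex n z
  rw [AMx_sub' n r c k hc h, (AMx_dm n (r - k) (c - k) (by omega)).2, (AMx_dm n r c hc).2]

theorem mx_sub (n z k : ℕ) (h : k ≤ mx n z) : mx n (z - k * (n + 2)) = mx n z - k := by
  unfold mx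
  rw [sub_div n z k h, sub_mod n z k h]
  omega

theorem AMx_up (n r c : ℕ) (hr : 1 ≤ r) : r * (n + 1) + c - (n + 1) = (r - 1) * (n + 1) + c := by
  obtain ⟨r', rfl⟩ := Nat.exists_eq_add_of_le hr
  rw [Nat.add_sub_cancel_left]
  have : (1 + r') * (n + 1) + c = (n + 1) + (r' * (n + 1) + c) := by ring
  rw [this, Nat.add_sub_cancel_left]

theorem AMx_left (n r c : ℕ) (hc : 1 ≤ c) : r * (n + 1) + c - 1 = r * (n + 1) + (c - 1) := by
  omega

theorem mx_up (n z : ℕ) (h : 1 ≤ mx n z) : mx n z - 1 ≤ mx n (z - (n + 1)) := by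
  obtain ⟨r, c, hc, rfl⟩ := AMx_ex n z
  rw [AMx_mx n r c hc] at h ⊢
  rw [AMx_up n r c (by omega), AMx_mx n (r - 1) c hc]
  omega

theorem mx_left (n z : ℕ) (h : 1 ≤ mx n z) : mx n z - 1 ≤ mx n (z - 1) := by
  obtain ⟨r, c, hc, rfl⟩ := AMx_ex n z
  rw [AMx_mx n r c hc] at h ⊢
  rw [AMx_left n r c (by omega), AMx_mx n r (c - 1) (by omega)]
  omega

theorem AMx_next (n r c : ℕ) : r * (n + 1) + c + (n + 2) = (r + 1) * (n + 1) + (c + 1) := by ring

theorem add_div (n z : ℕ) (h : z % (n + 1) < n) : (z + (n + 2)) / (n + 1) = z / (n + 1) + 1 := by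
  obtain ⟨r, c, hc, rfl⟩ := AMx_ex n z
  rw [(AMx_dm n r c hc).2] at h
  rw [AMx_next, (AMx_dm n (r + 1) (c + 1) h).1, (AMx_dm n r c hc).1]

theorem add_mod (n z : ℕ) (h : z % (n + 1) < n) : (z + (n + 2)) % (n + 1) = z % (n + 1) + 1 := by
  obtain ⟨r, c, hc, rfl⟩ := AMx_ex n z
  rw [(AMx_dm n r c hc).2] at h
  rw [AMx_next, (AMx_dm n (r + 1) (c + 1) h).2, (AMx_dm n r c hc).2]

theorem mx_next (n z : ℕ) (h : z % (n + 1) < n) : mx n (z + (n + 2)) = mx n z + 1 := by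
  unfold mx
  rw [add_div n z h, add_mod n z h]
  omega

theorem mx_right (n z : ℕ) (h : z % (n + 1) < n) : mx n z ≤ mx n (z + 1) := by
  obtain ⟨r, c, hc, rfl⟩ := AMx_ex n z
  rw [(AMx_dm n r c hc).2] at h
  have h1 : r * (n + 1) + c + 1 = r * (n + 1) + (c + 1) := by ring
  rw [h1, AMx_mx n r c hc, AMx_mx n r (c + 1) h]
  omega

theorem mx_down (n z : ℕ) : mx n z ≤ mx n (z + (n + 1)) := by
  obtain ⟨r, c, hc, rfl⟩ := AMx_ex n z
  have h1 : r * (n + 1) + c + (n + 1) = (r + 1) * (n + 1) + c := by ring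
  rw [h1, AMx_mx n r c hc, AMx_mx n (r + 1) c hc]
  omega

theorem cell_iff (n z : ℕ) : Cell n z ↔ 1 ≤ z / (n + 1) ∧ z / (n + 1) ≤ n ∧ 1 ≤ z % (n + 1) := by
  unfold Cell mx
  have h0 : z < (n + 1) * (n + 1) ↔ z / (n + 1) < n + 1 :=
    (Nat.div_lt_iff_lt_mul (Nat.succ_pos n)).symm
  rw [h0]
  constructor
  · rintro ⟨h1, h2⟩
    omega
  · rintro ⟨h1, h2, h3⟩
    omega

theorem cell_ge (n z : ℕ) (h : Cell n z) : n + 2 ≤ z := by
  have := mx_mul_le n z 1 h.1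
  omega

/-- if z is a cell and i < mx n z then z - i (n+2) is a cell -/
theorem cell_sub (n z i : ℕ) (h : Cell n z) (hi : i < mx n z) : Cell n (z - i * (n + 2)) := by
  refine ⟨?_, lt_of_le_of_lt (Nat.sub_le _ _) h.2⟩
  rw [mx_sub n z i hi.le]
  omega

/-- if c is a cell, then c - (n+2) lies in rows at most n - 1 -/
theorem cell_sub_lt (n c : ℕ) (h : Cell n c) : c - (n + 2) < n * (n + 1) := by
  have h1 := h.2
  have h2 := cell_ge n c h
  have h3 : (n + 1) * (n + 1) = n * (n + 1) + (n + 1) := by ring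
  omega

end ST2
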