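import Pool.Agent.helper32.ST.AE

/-!
# ST2-AN : first occurrences N

(proofs: helper96)

N n A k z = sInf {w | E n A k w z}.  For k <= mx n z the set contains z (E_refl); use Nat.sInf_mem,
Nat.sInf_le.
* N_size: w = N k' z <= z, E k' w z hence E k w z (E_mono), so z = N k z <= w.
* N_diag: w = N (k+i) y <= y, E_diag with i gives E k (w - i(n+2)) (y - i(n+2)) = E k _ z, so
  z = N k z <= w - i(n+2), and i(n+2) <= w (mx_mul_le), i(n+2) <= y, so y <= w.
* N_sub: E k (N k y) y gives E k' (N k y) y, so both first occurrences agree (N_congr).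
-/

namespace ST2

variable {n : ℕ} {A : ℕ → ℕ}

theorem N_min {k z w : ℕ} (h : E n A k w z) : N n A k z ≤ w :=
  Nat.sInf_le h

theorem N_le {k z : ℕ} (h : k ≤ mx n z) : N n A k z ≤ z :=
  N_min (E_refl h)

theorem N_E {k z : ℕ} (h : k ≤ mx n z) : E n A k (N n A k z) z := by
  have h1 : {w | E n A k w z}.Nonempty := ⟨z, E_refl h⟩
  exact Nat.sInf_mem h1

theorem N_congr {k z w : ℕ} (h : E n A k z w) : N n A k z = N n A k w := by
  apply le_antisymm
  · exact N_min (E_trans (N_E h.2.1) (E_symm h))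
  · exact N_min (E_trans (N_E h.1) h)

theorem E_of_N_eq {k z w : ℕ} (hz : k ≤ mx n z) (hw : k ≤ mx n w) (h : N n A k z = N n A k w) :
    E n A k z w := by
  have h1 : E n A k (N n A k z) z := N_E hz
  have h2 : E n A k (N n A k w) w := N_E hw
  rw [h] at h1
  exact E_trans (E_symm h1) h2

theorem mx_N {k z : ℕ} (h : k ≤ mx n z) : k ≤ mx n (N n A k z) :=
  (N_E h).1

theorem N_N {k z : ℕ} (h : k ≤ mx n z) : N n A k (N n A k z) = N n A k z :=
  N_congr (N_E h)

theorem N_size {k k' z : ℕ} (h : N n A k z = z) (hk : k ≤ k') (hk' : k' ≤ mx n z) :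
    N n A k' z = z := by
  apply le_antisymm (N_le hk')
  have h1 : N n A k z ≤ N n A k' z := N_min (E_mono (N_E hk') hk)
  rwa [h] at h1

theorem N_diag {k z y i : ℕ} (h : N n A k z = z) (hy : y - i * (n + 2) = z)
    (hk : k + i ≤ mx n y) : N n A (k + i) y = y := by
  apply le_antisymm (N_le hk)
  have h1 : E n A (k + i) (N n A (k + i) y) y := N_E hk
  have h2 := E_diag h1 i (Nat.le_add_left i k)
  rw [Nat.add_sub_cancel, hy] at h2
  have h3 : N n A k z ≤ N n A (k + i) y - i * (n + 2) := N_min h2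
  have h4 : i * (n + 2) ≤ N n A (k + i) y := mx_mul_le n _ i (le_trans (Nat.le_add_left i k) h1.1)
  have h5 : i * (n + 2) ≤ y := mx_mul_le n y i (le_trans (Nat.le_add_left i k) hk)
  rw [h] at h3
  omega

theorem N_sub {k k' y : ℕ} (hk : k' ≤ k) (h : k ≤ mx n y) : N n A k' (N n A k y) = N n A k' y :=
  N_congr (E_mono (N_E h) hk)

theorem N_mono {k k' y : ℕ} (hk : k' ≤ k) (h : k ≤ mx n y) : N n A k' y ≤ N n A k y :=
  N_min (E_mono (N_E h) hk)

theorem N_cell {k z : ℕ} (hz : Cell n z) (h1 : 1 ≤ k) (h : k ≤ mx n z) : Cell n (N n A k z) :=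
  ⟨h1.trans (mx_N h), lt_of_le_of_lt (N_le h) hz.2⟩

/-- shifting along the diagonal: if N (k+1) z = w then E k (w - (n+2)) (z - (n+2)) etc. -/
theorem N_diag_E {k z : ℕ} (h : k + 1 ≤ mx n z) :
    E n A k (N n A (k + 1) z - (n + 2)) (z - (n + 2)) := by
  have h1 := E_diag (N_E (A := A) h) 1 (Nat.le_add_left 1 k)
  rw [Nat.add_sub_cancel, one_mul] at h1
  exact h1

end ST2
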