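import Pool.Agent.helper32.ST.AL

/-!
# ST2-ASum : the telescoping sums

For d >= 1: the sum over codes c in [d, M) of L (c - d) is at most the sum over [0, M) of L c
(Finset.sum_Ico / reindex c = c' + d; all terms are >= 0).  Restrict to cells: for non-cells c < (n+1)^2,
L c = 0 (mx n c = 0, L_zero).  So
  sum over cells c of L (c - d) <= sum over c < M of L c = sum over cells of L c,  M = (n+1)^2, d in
{1, n+1, n+2} and every cell c satisfies c >= n+2 >= d.
-/

namespace ST2

variable {n : ℕ} {A : ℕ → ℕ}

open Classical in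
theorem sum_shift (d : ℕ) (hd : d ≤ n + 2) :
    ∑ c ∈ (Finset.range ((n + 1) * (n + 1))).filter (fun c => Cell n c), L n A (c - d) ≤
      ∑ c ∈ (Finset.range ((n + 1) * (n + 1))).filter (fun c => Cell n c), L n A c := by
  have hge : ∀ c ∈ (Finset.range ((n + 1) * (n + 1))).filter (fun c => Cell n c), d ≤ c := by
    intro c hc
    exact hd.trans (cell_ge n c (Finset.mem_filter.mp hc).2)
  have h1 : ∑ c ∈ (Finset.range ((n + 1) * (n + 1))).filter (fun c => Cell n c), L n A (c - d)
      = ∑ c ∈ ((Finset.range ((n + 1) * (n + 1))).filter (fun c => Cell n c)).image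
          (fun c => c - d), L n A c := by
    rw [Finset.sum_image]
    intro a ha b hb hab
    have h2 := hge a ha
    have h3 := hge b hb
    simp only at hab
    omega
  have h4 : ((Finset.range ((n + 1) * (n + 1))).filter (fun c => Cell n c)).image
      (fun c => c - d) ⊆ Finset.range ((n + 1) * (n + 1)) := by
    intro c hc
    obtain ⟨a, ha, rfl⟩ := Finset.mem_image.mp hc
    have h5 := Finset.mem_range.mp (Finset.mem_filter.mp ha).1
    exact Finset.mem_range.mpr (lt_of_le_of_lt (Nat.sub_le a d) h5)
  have h6 : ∑ c ∈ (Finset.range ((n + 1) * (n + 1))).filter (fun c => Cell n c), L n A c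
      = ∑ c ∈ Finset.range ((n + 1) * (n + 1)), L n A c := by
    apply Finset.sum_subset (Finset.filter_subset _ _)
    intro c hc hnc
    apply L_zero
    by_contra hne
    apply hnc
    rw [Finset.mem_filter]
    exact ⟨hc, Nat.one_le_iff_ne_zero.mpr hne, Finset.mem_range.mp hc⟩
  rw [h1, h6]
  exact Finset.sum_le_sum_of_subset h4

end ST2
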