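import Pool.Agent.helper32.ST.ADict

/-!
# ST2-AVis : visited loci, real loci, owners (definitions)

x = c - (n+2).  State (c, k): all cells < c are processed, at the cell c the sizes > k are processed
(k starts at L x and goes down).  A locus (z, κ) is a first occurrence of a κ-square.
* VS0 c, RS0 c, OW0 c: visited loci, real (branching) loci, created leaves before the cell c.
* VS c k, RS c k, OW c k: the same in the state (c, k).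
-/

namespace ST2

def VS0 (n : ℕ) (A : ℕ → ℕ) (c z κ : ℕ) : Prop :=
  1 ≤ κ ∧ ∃ y, y < c ∧ κ ≤ L n A y ∧ N n A κ y = z ∧
    (κ = L n A y ∨ (Cell n (y + (n + 2)) ∧ y + (n + 2) < c ∧ L n A (y + (n + 2)) ≤ κ + 1))

def VS (n : ℕ) (A : ℕ → ℕ) (c k z κ : ℕ) : Prop :=
  VS0 n A c z κ ∨ (1 ≤ κ ∧ k ≤ κ ∧ κ ≤ L n A (c - (n + 2)) ∧ N n A κ (c - (n + 2)) = z)

def RS0 (n : ℕ) (A : ℕ → ℕ) (c z κ : ℕ) : Prop :=
  1 ≤ κ ∧ ∃ y, κ ≤ L n A y ∧ N n A κ y = z ∧ Cell n (y + (n + 2)) ∧ y + (n + 2) < c ∧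
    L n A (y + (n + 2)) ≤ κ

def RS (n : ℕ) (A : ℕ → ℕ) (c k z κ : ℕ) : Prop :=
  RS0 n A c z κ ∨ (1 ≤ κ ∧ k < κ ∧ κ ≤ L n A (c - (n + 2)) ∧ N n A κ (c - (n + 2)) = z)

def OW0 (n : ℕ) (A : ℕ → ℕ) (c u κ : ℕ) : Prop := u < c ∧ Cr n A u κ

def OW (n : ℕ) (A : ℕ → ℕ) (c k u κ : ℕ) : Prop :=
  OW0 n A c u κ ∨ (u = c ∧ k + 2 ≤ κ ∧ κ ≤ L n A (c - (n + 2)) + 1)

end ST2
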