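import Pool.Agent.helper32.ST.AVis

/-!
# ST2-AVisA : the sets at the start, in one step

* vs_start: in the second alternative of VS, κ = L x, so VS0 holds with y = x < c (c >= n+2 by
  cell_ge), κ = L y.  rs_start, ow_start: the second alternatives are empty.
* steps: k - 1 <= κ iff k <= κ or κ = k - 1; etc. (omega after unfolding; for κ = k - 1 <= L x).
-/

namespace ST2

variable {n : ℕ} {A : ℕ → ℕ}

theorem vs_start {c z κ : ℕ} (hc : Cell n c) :
    VS n A c (L n A (c - (n + 2))) z κ ↔ VS0 n A c z κ := by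
  unfold VS
  constructor
  · rintro (h | ⟨h1, h2, h3, h4⟩)
    · exact h
    · have hge := cell_ge n c hc
      have he : κ = L n A (c - (n + 2)) := le_antisymm h3 h2
      exact ⟨h1, c - (n + 2), by omega, h3, h4, Or.inl he⟩
  · intro h
    exact Or.inl h

theorem rs_start {c z κ : ℕ} :
    RS n A c (L n A (c - (n + 2))) z κ ↔ RS0 n A c z κ := by
  unfold RS
  constructor
  · rintro (h | ⟨h1, h2, h3, h4⟩)
    · exact h
    · omega
  · intro h
    exact Or.inl h

theorem ow_start {c u κ : ℕ} :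
    OW n A c (L n A (c - (n + 2))) u κ ↔ OW0 n A c u κ := by
  unfold OW
  constructor
  · rintro (h | ⟨h1, h2, h3⟩)
    · exact h
    · omega
  · intro h
    exact Or.inl h

theorem vs_step {c k z κ : ℕ} (h1 : 1 ≤ k) (h2 : k ≤ L n A (c - (n + 2))) :
    VS n A c (k - 1) z κ ↔
      VS n A c k z κ ∨ (2 ≤ k ∧ κ = k - 1 ∧ z = N n A (k - 1) (c - (n + 2))) := by
  unfold VS
  constructor
  · rintro (h | ⟨g1, g2, g3, g4⟩)
    · exact Or.inl (Or.inl h)
    · by_cases hk : κ = k - 1
      · right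
        refine ⟨by omega, hk, ?_⟩
        rw [← hk]
        exact g4.symm
      · left
        right
        exact ⟨g1, by omega, g3, g4⟩
  · rintro ((h | ⟨g1, g2, g3, g4⟩) | ⟨g1, g2, g3⟩)
    · exact Or.inl h
    · right
      exact ⟨g1, by omega, g3, g4⟩
    · right
      refine ⟨by omega, by omega, by omega, ?_⟩
      rw [g2]
      exact g3.symm

theorem rs_step {c k z κ : ℕ} (h1 : 1 ≤ k) (h2 : k ≤ L n A (c - (n + 2))) :
    RS n A c (k - 1) z κ ↔ RS n A c k z κ ∨ (κ = k ∧ z = N n A k (c - (n + 2))) := by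
  unfold RS
  constructor
  · rintro (h | ⟨g1, g2, g3, g4⟩)
    · exact Or.inl (Or.inl h)
    · by_cases hk : κ = k
      · right
        refine ⟨hk, ?_⟩
        rw [← hk]
        exact g4.symm
      · left
        right
        exact ⟨g1, by omega, g3, g4⟩
  · rintro ((h | ⟨g1, g2, g3, g4⟩) | ⟨g1, g2⟩)
    · exact Or.inl h
    · right
      exact ⟨g1, by omega, g3, g4⟩
    · right
      refine ⟨by omega, by omega, by omega, ?_⟩
      rw [g1]
      exact g2.symm

theorem ow_step {c k u κ : ℕ} (h1 : 1 ≤ k) (h2 : k ≤ L n A (c - (n + 2))) :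
    OW n A c (k - 1) u κ ↔ OW n A c k u κ ∨ (u = c ∧ κ = k + 1) := by
  unfold OW
  constructor
  · rintro (h | ⟨g1, g2, g3⟩)
    · exact Or.inl (Or.inl h)
    · by_cases hk : κ = k + 1
      · exact Or.inr ⟨g1, hk⟩
      · left
        right
        exact ⟨g1, by omega, g3⟩
  · rintro ((h | ⟨g1, g2, g3⟩) | ⟨g1, g2⟩)
    · exact Or.inl h
    · right
      exact ⟨g1, by omega, g3⟩
    · right
      exact ⟨g1, by omega, by omega⟩

end ST2
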