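import Pool.Agent.helper32.ST.AVis

/-!
# ST2-AVisB : the sets when a cell is finished

Statements and plan: helper32; proofs: helper11.

Unfold; for y < c + 1 distinguish y = c (then y + (n+2) < c+1 is false, so κ = L c) and y < c;
in the alternative y + (n+2) < c + 1 distinguish y + (n+2) < c and y + (n+2) = c, i.e. y = c - (n+2).
A cell c satisfies n + 2 <= c (cell_ge).  If c < (n+1)^2 is not a cell then mx n c = 0, L c = 0 (L_zero).
-/

namespace ST2

variable {n : ℕ} {A : ℕ → ℕ}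

private theorem AVisB_aux {c : ℕ} (hc : Cell n c) : c - (n + 2) + (n + 2) = c :=
  Nat.sub_add_cancel (cell_ge n c hc)

theorem vs_end {c k z κ : ℕ} (hc : Cell n c) (hk : L n A c = k + 1) :
    VS0 n A (c + 1) z κ ↔ VS n A c k z κ ∨ (κ = k + 1 ∧ z = N n A (k + 1) c) := by
  have hx := AVisB_aux hc
  unfold VS VS0
  constructor
  · rintro ⟨h1, y, hy, hL, hN, hy2⟩
    rcases Nat.lt_or_ge y c with hyc | hyc
    · rcases hy2 with h | ⟨hcell, hlt, hL2⟩
      · exact Or.inl (Or.inl ⟨h1, y, hyc, hL, hN, Or.inl h⟩)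
      · rcases Nat.lt_or_ge (y + (n + 2)) c with h3 | h3
        · exact Or.inl (Or.inl ⟨h1, y, hyc, hL, hN, Or.inr ⟨hcell, h3, hL2⟩⟩)
        · have h4 : y + (n + 2) = c := by omega
          have h5 : c - (n + 2) = y := by omega
          rw [h4, hk] at hL2
          refine Or.inl (Or.inr ⟨h1, by omega, ?_, ?_⟩)
          · rw [h5]; exact hL
          · rw [h5]; exact hN
    · have h4 : y = c := by omega
      subst h4
      rcases hy2 with h | ⟨_, hlt, _⟩
      · have h6 : κ = k + 1 := h.trans hk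
        exact Or.inr ⟨h6, by rw [← hN, h6]⟩
      · exact absurd hlt (by omega)
  · rintro ((⟨h1, y, hy, hL, hN, hy2⟩ | ⟨h1, h2, h3, h4⟩) | ⟨h1, h2⟩)
    · refine ⟨h1, y, by omega, hL, hN, ?_⟩
      rcases hy2 with h | ⟨h5, h6, h7⟩
      · exact Or.inl h
      · exact Or.inr ⟨h5, by omega, h7⟩
    · refine ⟨h1, c - (n + 2), by omega, h3, h4, Or.inr ?_⟩
      rw [hx]
      exact ⟨hc, by omega, by omega⟩
    · refine ⟨by omega, c, by omega, by omega, ?_, Or.inl ?_⟩
      · rw [h1, h2]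
      · rw [h1, hk]

theorem rs_end {c k z κ : ℕ} (hc : Cell n c) (hk : L n A c = k + 1) :
    RS0 n A (c + 1) z κ ↔ RS n A c k z κ := by
  have hx := AVisB_aux hc
  unfold RS RS0
  constructor
  · rintro ⟨h1, y, hL, hN, hcell, hlt, hL2⟩
    rcases Nat.lt_or_ge (y + (n + 2)) c with h3 | h3
    · exact Or.inl ⟨h1, y, hL, hN, hcell, h3, hL2⟩
    · have h4 : y + (n + 2) = c := by omega
      have h5 : c - (n + 2) = y := by omega
      rw [h4, hk] at hL2
      refine Or.inr ⟨h1, by omega, ?_, ?_⟩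
      · rw [h5]; exact hL
      · rw [h5]; exact hN
  · rintro (⟨h1, y, hL, hN, hcell, hlt, hL2⟩ | ⟨h1, h2, h3, h4⟩)
    · exact ⟨h1, y, hL, hN, hcell, by omega, hL2⟩
    · refine ⟨h1, c - (n + 2), h3, h4, ?_⟩
      rw [hx]
      exact ⟨hc, by omega, by omega⟩

theorem ow_end {c k u κ : ℕ} (hc : Cell n c) (hk : L n A c = k + 1) :
    OW0 n A (c + 1) u κ ↔ OW n A c k u κ := by
  unfold OW OW0
  constructor
  · rintro ⟨hu, hcr⟩
    rcases Nat.lt_or_ge u c with h | h
    · exact Or.inl ⟨h, hcr⟩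
    · have h4 : u = c := by omega
      subst h4
      obtain ⟨_, h5, h6⟩ := hcr
      exact Or.inr ⟨rfl, by omega, h6⟩
  · rintro (⟨hu, hcr⟩ | ⟨hu, h1, h2⟩)
    · exact ⟨by omega, hcr⟩
    · subst hu
      exact ⟨by omega, hc, by omega, h2⟩

theorem vs_end0 {c z κ : ℕ} (hc : Cell n c) (hk : L n A c = 0) :
    VS0 n A (c + 1) z κ ↔ VS n A c 0 z κ := by
  have hx := AVisB_aux hc
  unfold VS VS0
  constructor
  · rintro ⟨h1, y, hy, hL, hN, hy2⟩
    rcases Nat.lt_or_ge y c with hyc | hyc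
    · rcases hy2 with h | ⟨hcell, hlt, hL2⟩
      · exact Or.inl ⟨h1, y, hyc, hL, hN, Or.inl h⟩
      · rcases Nat.lt_or_ge (y + (n + 2)) c with h3 | h3
        · exact Or.inl ⟨h1, y, hyc, hL, hN, Or.inr ⟨hcell, h3, hL2⟩⟩
        · have h5 : c - (n + 2) = y := by omega
          refine Or.inr ⟨h1, by omega, ?_, ?_⟩
          · rw [h5]; exact hL
          · rw [h5]; exact hN
    · have h4 : y = c := by omega
      subst h4
      exact absurd hL (by omega)
  · rintro (⟨h1, y, hy, hL, hN, hy2⟩ | ⟨h1, h2, h3, h4⟩)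
    · refine ⟨h1, y, by omega, hL, hN, ?_⟩
      rcases hy2 with h | ⟨h5, h6, h7⟩
      · exact Or.inl h
      · exact Or.inr ⟨h5, by omega, h7⟩
    · refine ⟨h1, c - (n + 2), by omega, h3, h4, Or.inr ?_⟩
      rw [hx]
      exact ⟨hc, by omega, by omega⟩

theorem rs_end0 {c z κ : ℕ} (hc : Cell n c) (hk : L n A c = 0) :
    RS0 n A (c + 1) z κ ↔ RS n A c 0 z κ := by
  have hx := AVisB_aux hc
  unfold RS RS0
  constructor
  · rintro ⟨h1, y, hL, hN, hcell, hlt, hL2⟩
    rcases Nat.lt_or_ge (y + (n + 2)) c with h3 | h3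
    · exact Or.inl ⟨h1, y, hL, hN, hcell, h3, hL2⟩
    · have h5 : c - (n + 2) = y := by omega
      refine Or.inr ⟨h1, by omega, ?_, ?_⟩
      · rw [h5]; exact hL
      · rw [h5]; exact hN
  · rintro (⟨h1, y, hL, hN, hcell, hlt, hL2⟩ | ⟨h1, h2, h3, h4⟩)
    · exact ⟨h1, y, hL, hN, hcell, by omega, hL2⟩
    · refine ⟨h1, c - (n + 2), h3, h4, ?_⟩
      rw [hx]
      exact ⟨hc, by omega, by omega⟩

theorem ow_end0 {c u κ : ℕ} (hc : Cell n c) (hk : L n A c = 0) :
    OW0 n A (c + 1) u κ ↔ OW n A c 0 u κ ∨ (u = c ∧ κ = 1) := by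
  unfold OW OW0
  constructor
  · rintro ⟨hu, hcr⟩
    rcases Nat.lt_or_ge u c with h | h
    · exact Or.inl (Or.inl ⟨h, hcr⟩)
    · have h4 : u = c := by omega
      subst h4
      obtain ⟨_, h5, h6⟩ := hcr
      rcases Nat.lt_or_ge κ 2 with h7 | h7
      · exact Or.inr ⟨rfl, by omega⟩
      · exact Or.inl (Or.inr ⟨rfl, by omega, h6⟩)
  · rintro ((⟨hu, hcr⟩ | ⟨hu, h1, h2⟩) | ⟨hu, h1⟩)
    · exact ⟨by omega, hcr⟩
    · subst hu
      exact ⟨by omega, hc, by omega, h2⟩
    · subst hu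
      exact ⟨by omega, hc, by omega, by omega⟩

theorem noncell_end {c : ℕ} (hc : ¬ Cell n c) (hc' : c < (n + 1) * (n + 1)) :
    (∀ z κ, VS0 n A (c + 1) z κ ↔ VS0 n A c z κ) ∧
    (∀ z κ, RS0 n A (c + 1) z κ ↔ RS0 n A c z κ) ∧
    (∀ u κ, OW0 n A (c + 1) u κ ↔ OW0 n A c u κ) := by
  have hmx : mx n c = 0 := by
    by_contra h
    exact hc ⟨by omega, hc'⟩
  have hL0 : L n A c = 0 := L_zero hmx
  refine ⟨?_, ?_, ?_⟩
  · intro z κ
    unfold VS0
    constructor
    · rintro ⟨h1, y, hy, hL, hN, hy2⟩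
      rcases Nat.lt_or_ge y c with hyc | hyc
      · refine ⟨h1, y, hyc, hL, hN, ?_⟩
        rcases hy2 with h | ⟨hcell, hlt, hL2⟩
        · exact Or.inl h
        · rcases Nat.lt_or_ge (y + (n + 2)) c with h3 | h3
          · exact Or.inr ⟨hcell, h3, hL2⟩
          · have h4 : y + (n + 2) = c := by omega
            rw [h4] at hcell
            exact absurd hcell hc
      · have h4 : y = c := by omega
        subst h4
        exact absurd hL (by omega)
    · rintro ⟨h1, y, hy, hL, hN, hy2⟩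
      refine ⟨h1, y, by omega, hL, hN, ?_⟩
      rcases hy2 with h | ⟨h5, h6, h7⟩
      · exact Or.inl h
      · exact Or.inr ⟨h5, by omega, h7⟩
  · intro z κ
    unfold RS0
    constructor
    · rintro ⟨h1, y, hL, hN, hcell, hlt, hL2⟩
      rcases Nat.lt_or_ge (y + (n + 2)) c with h3 | h3
      · exact ⟨h1, y, hL, hN, hcell, h3, hL2⟩
      · have h4 : y + (n + 2) = c := by omega
        rw [h4] at hcell
        exact absurd hcell hc
    · rintro ⟨h1, y, hL, hN, hcell, hlt, hL2⟩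
      exact ⟨h1, y, hL, hN, hcell, by omega, hL2⟩
  · intro u κ
    unfold OW0
    constructor
    · rintro ⟨hu, hcr⟩
      rcases Nat.lt_or_ge u c with h | h
      · exact ⟨h, hcr⟩
      · have h4 : u = c := by omega
        subst h4
        exact absurd hcr.1 hc
    · rintro ⟨hu, hcr⟩
      exact ⟨by omega, hcr⟩

end ST2
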