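import Pool.Agent.helper32.ST.ABr

/-!
# ST2-AW : the position lemma (Lemma W)

State (c, k), x = c - (n+2), z = N k x, 2 <= k <= L x, L z < k - 1 (so the image (z, k-1) is canonical).
Assume (z, k) is not real, (z, k-1) is not visited, but (z + i(n+2), k-1+i) is visited, i >= 1.
Then some (z + i'(n+2), k+i') with 1 <= i' <= i is real.

Proof.  Let δ = n+2, zi = z + iδ.  Let y be the witness of VS: N (k-1+i) y = zi, k-1+i <= L y, y < c, and
 (1) k-1+i = L y, or (2) y+δ cell < c with L (y+δ) <= k+i, or (3) y = x.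
zi < y (N_lt_of_le_L).  y0 = y - iδ; mx y >= k-1+i so mx y0 >= k-1 (mx_sub), y = y0 + iδ,
E (k-1) y0 z (E_diag applied to N_E, since k-1+i-i = k-1, zi - iδ = z), z < y0,
N (k-1) z = z (N_eq_of_L_lt; k - 1 <= mx z), so N (k-1) y0 = z, k-1 <= L y0 (le_L_iff).
(ii) If L y0 = k - 1: then (z, k-1) is in VS0 (witness y0 < c, κ = L y0): contradiction.
(i) So k <= L y0, hence k <= mx y0.  Let u = N k y0.
  If u <> z: N (k-1) u = N (k-1) y0 = z (N_sub), z <= u (N_mono) so z < u, so k-1 <= L u; N k u = u so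
  L u < k; so L u = k-1 and (z, k-1) is in VS0 by the witness u <= y0 < c: contradiction.
  So N k y0 = z, i.e. E k y0 z.
  If E (k+j) (y0+jδ) (z+jδ) for all j <= i: then E (k+i) y zi, zi < y, so k+i <= L y (le_L_iff; size
  k+i <= mx y from E).  Case (1) is impossible.  Case (2): L (y+δ) <= k+i: RS0 with witness y,
  N (k+i) y = N (k+i) zi = zi (N_congr, N_diag).  Case (3): y = x: second alternative of RS (k < k+i).
  So i' = i works.
  Otherwise take the least j with E (k+j) false at j+1 (j + 1 <= i; j = 0 holds): E (k+j) (y0+jδ) (z+jδ) and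
  not E (k+j+1) (y0+(j+1)δ) (z+(j+1)δ).  y0+(j+1)δ <= y < c is a cell (cell_sub from y: y0+(j+1)δ =
  y - (i-j-1)δ), z + (j+1)δ is a cell (cell_sub from zi).  N (k+j) (z+jδ) = z+jδ (N_diag).
  rs0_of_branch gives RS0 (z+jδ, k+j).  If j = 0 this contradicts the assumption that (z,k) is not real.
  So j >= 1 and i' = j works.
-/

namespace ST2

variable {n : ℕ} {A : ℕ → ℕ}

/-- the case analysis on the witness `y` of the visited locus -/
theorem AW_aux {c k i y z : ℕ} (hc : Cell n c) (h2 : 2 ≤ k)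
    (hk : k ≤ L n A (c - (n + 2)))
    (hzdef : N n A k (c - (n + 2)) = z)
    (hL : L n A z < k - 1)
    (hR : ¬ RS n A c k z k)
    (hV : ¬ VS n A c k z (k - 1))
    (hi : 1 ≤ i) (hyc : y < c) (hyL : k - 1 + i ≤ L n A y)
    (hyN : N n A (k - 1 + i) y = z + i * (n + 2))
    (hcase : k - 1 + i = L n A y ∨
      (Cell n (y + (n + 2)) ∧ y + (n + 2) < c ∧ L n A (y + (n + 2)) ≤ k + i) ∨
      y = c - (n + 2)) :
    ∃ i', 1 ≤ i' ∧ i' ≤ i ∧ RS n A c k (z + i' * (n + 2)) (k + i') := by
  have hmy : k - 1 + i ≤ mx n y := hyL.trans (L_le y)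
  have hzy : z + i * (n + 2) < y := by
    rw [← hyN]
    exact N_lt_of_le_L (by omega) hyL
  obtain ⟨y0, hy0⟩ : ∃ y0, y = y0 + i * (n + 2) := ⟨y - i * (n + 2), by omega⟩
  have hy0' : y - i * (n + 2) = y0 := by omega
  have hmy0 : mx n y0 = mx n y - i := by
    rw [← hy0']
    exact mx_sub n y i (by omega)
  have hEz : E n A (k - 1) z y0 := by
    have h1 := E_diag (N_E (A := A) hmy) i (by omega)
    rw [hyN] at h1
    have e1 : k - 1 + i - i = k - 1 := by omega
    have e2 : z + i * (n + 2) - i * (n + 2) = z := by omega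
    rw [e1, e2, hy0'] at h1
    exact h1
  have hz0 : z < y0 := by omega
  have hNz1 : N n A (k - 1) z = z := N_eq_of_L_lt hL hEz.1
  have hNy1 : N n A (k - 1) y0 = z := by
    rw [← N_congr hEz]
    exact hNz1
  have hLy1 : k - 1 ≤ L n A y0 := by
    rw [le_L_iff (by omega) hEz.2.1, hNy1]
    exact hz0
  have hy0c : y0 < c := by omega
  by_cases hLy : L n A y0 = k - 1
  · exfalso
    exact hV (Or.inl ⟨by omega, y0, hy0c, hLy1, hNy1, Or.inl hLy.symm⟩)
  have hLy2 : k ≤ L n A y0 := by omega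
  have hmk : k ≤ mx n y0 := hLy2.trans (L_le y0)
  have hNk : N n A k y0 = z := by
    by_contra hne
    have h1 : N n A (k - 1) (N n A k y0) = z := by
      rw [N_sub (by omega) hmk]
      exact hNy1
    have h3 : z ≤ N n A k y0 := by
      rw [← hNy1]
      exact N_mono (by omega) hmk
    have h4 : z < N n A k y0 := by omega
    have h5 : k ≤ mx n (N n A k y0) := mx_N hmk
    have h6 : k - 1 ≤ L n A (N n A k y0) := by
      rw [le_L_iff (by omega) (by omega), h1]
      exact h4
    have h7 : L n A (N n A k y0) < k := L_lt_of_N_eq (by omega) h5 (N_N hmk)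
    have h8 : N n A k y0 ≤ y0 := N_le hmk
    exact hV (Or.inl ⟨by omega, N n A k y0, by omega, h6, h1, Or.inl (by omega)⟩)
  have hE0 : E n A k y0 z := by
    have h1 := N_E (A := A) hmk
    rw [hNk] at h1
    exact E_symm h1
  have hNkz : N n A k z = z := by
    have h1 : k ≤ mx n (c - (n + 2)) := hk.trans (L_le _)
    rw [← hzdef]
    exact N_N h1
  have hcy : Cell n y := ⟨by omega, hyc.trans hc.2⟩
  by_cases hall : ∀ j ≤ i, E n A (k + j) (y0 + j * (n + 2)) (z + j * (n + 2))
  · have hEi := hall i le_rfl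
    rw [← hy0] at hEi
    have h1 : N n A (k + i) y < y := lt_of_le_of_lt (N_min (E_symm hEi)) hzy
    have h3 : k + i ≤ L n A y := by
      rw [le_L_iff (by omega) hEi.1]
      exact h1
    have h4 : N n A (k + i) (z + i * (n + 2)) = z + i * (n + 2) :=
      N_diag hNkz (by omega) hEi.2.1
    have h5 : N n A (k + i) y = z + i * (n + 2) := by
      rw [N_congr hEi]
      exact h4
    refine ⟨i, hi, le_rfl, ?_⟩
    rcases hcase with h6 | ⟨h6, h7, h8⟩ | h6
    · omega
    · exact Or.inl ⟨by omega, y, h3, h5, h6, h7, h8⟩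
    · rw [h6] at h3 h5
      exact Or.inr ⟨by omega, by omega, h3, h5⟩
  · classical
    push Not at hall
    have hex : ∃ j, j ≤ i ∧ ¬ E n A (k + j) (y0 + j * (n + 2)) (z + j * (n + 2)) := hall
    obtain ⟨hj1, hj2⟩ := Nat.find_spec hex
    have hmin := fun m (hm : m < Nat.find hex) => Nat.find_min hex hm
    obtain ⟨j, hj⟩ : ∃ j, Nat.find hex = j + 1 := by
      refine ⟨Nat.find hex - 1, ?_⟩
      have : Nat.find hex ≠ 0 := by
        intro h0
        rw [h0] at hj2
        apply hj2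
        simpa using hE0
      omega
    rw [hj] at hj1 hj2
    have hEj : E n A (k + j) (y0 + j * (n + 2)) (z + j * (n + 2)) := by
      by_contra hn
      exact hmin j (by omega) ⟨by omega, hn⟩
    have e1 : y0 + j * (n + 2) + (n + 2) = y - (i - (j + 1)) * (n + 2) := by
      obtain ⟨d, hd⟩ : ∃ d, i = j + 1 + d := ⟨i - (j + 1), by omega⟩
      rw [hy0, hd, Nat.add_sub_cancel_left]
      have : y0 + (j + 1 + d) * (n + 2) = y0 + j * (n + 2) + (n + 2) + d * (n + 2) := by ring
      rw [this, Nat.add_sub_cancel]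
    have e2 : z + j * (n + 2) + (n + 2) = z + i * (n + 2) - (i - (j + 1)) * (n + 2) := by
      obtain ⟨d, hd⟩ : ∃ d, i = j + 1 + d := ⟨i - (j + 1), by omega⟩
      rw [hd, Nat.add_sub_cancel_left]
      have : z + (j + 1 + d) * (n + 2) = z + j * (n + 2) + (n + 2) + d * (n + 2) := by ring
      rw [this, Nat.add_sub_cancel]
    have hcy1 : Cell n (y0 + j * (n + 2) + (n + 2)) := by
      rw [e1]
      exact cell_sub n y _ hcy (by omega)
    have hczi : Cell n (z + i * (n + 2)) := by
      rw [← hyN]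
      exact N_cell hcy (by omega) hmy
    have hmzi : k - 1 + i ≤ mx n (z + i * (n + 2)) := by
      rw [← hyN]
      exact mx_N hmy
    have hcz1 : Cell n (z + j * (n + 2) + (n + 2)) := by
      rw [e2]
      exact cell_sub n _ _ hczi (by omega)
    have hNj : N n A (k + j) (z + j * (n + 2)) = z + j * (n + 2) :=
      N_diag hNkz (by omega) hEj.2.1
    have hne : ¬ E n A (k + j + 1) (y0 + j * (n + 2) + (n + 2)) (z + j * (n + 2) + (n + 2)) := by
      have e3 : y0 + (j + 1) * (n + 2) = y0 + j * (n + 2) + (n + 2) := by ring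
      have e4 : z + (j + 1) * (n + 2) = z + j * (n + 2) + (n + 2) := by ring
      rw [e3, e4] at hj2
      exact hj2
    have hyc1 : y0 + j * (n + 2) + (n + 2) < c := by
      rw [e1]
      omega
    have hrs : RS0 n A c (z + j * (n + 2)) (k + j) :=
      rs0_of_branch (by omega) hNj hcz1 hEj hcy1 hyc1 hne
    rcases Nat.eq_zero_or_pos j with hj0 | hj0
    · exfalso
      rw [hj0] at hrs
      apply hR
      left
      simpa using hrs
    · exact ⟨j, hj0, by omega, Or.inl hrs⟩

theorem lemma_W {c k i : ℕ} (hc : Cell n c) (h2 : 2 ≤ k)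
    (hk : k ≤ L n A (c - (n + 2)))
    (hL : L n A (N n A k (c - (n + 2))) < k - 1)
    (hR : ¬ RS n A c k (N n A k (c - (n + 2))) k)
    (hV : ¬ VS n A c k (N n A k (c - (n + 2))) (k - 1))
    (hi : 1 ≤ i)
    (hVi : VS n A c k (N n A k (c - (n + 2)) + i * (n + 2)) (k - 1 + i)) :
    ∃ i', 1 ≤ i' ∧ i' ≤ i ∧
      RS n A c k (N n A k (c - (n + 2)) + i' * (n + 2)) (k + i') := by
  rcases hVi with ⟨_, y, h3, h4, h5, h6⟩ | ⟨_, _, h5, h6⟩
  · refine AW_aux hc h2 hk rfl hL hR hV hi h3 h4 h5 ?_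
    rcases h6 with h6 | ⟨h6, h7, h8⟩
    · exact Or.inl h6
    · exact Or.inr (Or.inl ⟨h6, h7, by omega⟩)
  · have hcge := cell_ge n c hc
    exact AW_aux hc h2 hk rfl hL hR hV hi (by omega) h5 h6 (Or.inr (Or.inr rfl))

end ST2
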