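import Pool.Agent.helper32.ST.DPend

/-!
# ST2-DAdd : the insertion loop, group with two children

cur is in ch g for a g in l1 (l = l1.flatMap ch), up cur = g (GrpP.up), g >= 1 (ids).  If
cn g < 3 then (ch g).length = 2; InsR.add, d' = addTo g nw, ch' = fun y => if y = g then
insAfter (ch g) cur nw else ch y, Ls' = l1 :: Ls.
tow: insAfter l cur nw = l1.flatMap (fun g' => insAfter (ch g') cur nw) (ins_flatMap) and for g' <> g
in l1, cur is not in ch g' (up cur = g would be g'), so insAfter (ch g') cur nw = ch g' (ins_notMem).
Above level l1 the function ch' equals ch except at g, which lies only in the level l1 (nodup), so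
Tow for (l1, Ls) is unchanged (ch' = ch on Ls.flatten: prove Tow congruence).
Grp g: length 3 (ins_length; ch g is a sublist of the nodup l), head (ins_head), up: children have
up = g, and up nw = g; flag: GrpP.fl.  For other g' in l1: GrpP.fl with insAfter = ch g'.
nw is not in any ch g' (nodup), so the update of up at nw does not matter elsewhere.  The element of
the top level is not nw (nodup), so `top` is unchanged.
-/

namespace ST2

theorem tow_congr {ch ch' : ℕ → List ℕ} : ∀ (Ls : List (List ℕ)) (l : List ℕ),
    (∀ y ∈ Ls.flatten, ch' y = ch y) → Tow ch l Ls → Tow ch' l Ls := by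
  intro Ls
  induction Ls with
  | nil =>
    intro l _ h
    exact h
  | cons l' Ls ih =>
    intro l hy h
    simp only [Tow] at h ⊢
    refine ⟨?_, ih l' ?_ h.2⟩
    · rw [h.1]
      apply List.flatMap_congr
      intro g hg
      exact (hy g (by simp [hg])).symm
    · intro y hy'
      apply hy y
      rw [List.flatten_cons, List.mem_append]
      exact Or.inr hy'

/-- children of a group of the levels above l lie in l or in these levels -/
theorem DAdd_child {ch : ℕ → List ℕ} : ∀ (Ls : List (List ℕ)) (l : List ℕ), Tow ch l Ls →
    ∀ g ∈ Ls.flatten, ∀ c ∈ ch g, c ∈ l ++ Ls.flatten := by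
  intro Ls
  induction Ls with
  | nil =>
    intro l _ g hg
    simp at hg
  | cons l' Ls ih =>
    intro l h g hg c hc
    simp only [Tow] at h
    rw [List.flatten_cons, List.mem_append] at hg
    rcases hg with hg | hg
    · rw [List.mem_append]
      left
      rw [h.1, List.mem_flatMap]
      exact ⟨g, hg, hc⟩
    · rw [List.mem_append]
      right
      rw [List.flatten_cons]
      exact ih l' h.2 g hg c hc

theorem DAdd_sub (l : List ℕ) (x e : ℕ) : l.Sublist (insAfter l x e) := by
  induction l with
  | nil => simp [insAfter]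
  | cons y l ih =>
    unfold insAfter at ih ⊢
    rw [List.flatMap_cons]
    by_cases h : y = x
    · rw [if_pos h, h]
      exact List.Sublist.cons_cons x (List.Sublist.cons e ih)
    · rw [if_neg h]
      exact List.Sublist.cons_cons y ih

theorem ins_add {d : D} {ch : ℕ → List ℕ} {l l1 : List ℕ} {cur nw : ℕ} {Ls : List (List ℕ)}
    (h : Pend d ch l cur nw (l1 :: Ls)) (h3 : d.cn (d.up cur) < 3) :
    ∃ d' ch' Ls', InsR d cur nw d' 1 ∧ PendOut d d' ch ch' l cur nw (l1 :: Ls) Ls' := by
  -- preliminary facts
  have htow := h.tow
  simp only [Tow] at htow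
  obtain ⟨hl, htow1⟩ := htow
  have hcur := h.hcur
  rw [hl, List.mem_flatMap] at hcur
  obtain ⟨g, hg, hcg⟩ := hcur
  have hP : ∀ g' ∈ l1, GrpP d ch cur nw g' := h.grp0
  have hG : ∀ g' ∈ Ls.flatten, Grp d ch g' := h.grp
  have hupg : d.up cur = g := (hP g hg).up cur hcg
  rw [hupg] at h3
  have hnd := h.nodup
  rw [List.nodup_append'] at hnd
  obtain ⟨hnd1, hnd2, hdis⟩ := hnd
  have hnl : l.Nodup := (DAdd_sub l cur nw).nodup hnd1
  have hperm := ins_perm (e := nw) hnl h.hcur
  have hnw : nw ∉ l := (List.nodup_cons.1 (hperm.nodup_iff.1 hnd1)).1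
  have hnwi : nw ∈ insAfter l cur nw := ins_mem.2 (Or.inr ⟨rfl, h.hcur⟩)
  have hnwL : nw ∉ (l1 :: Ls).flatten := fun hh => hdis hnwi hh
  have hgL : g ∈ (l1 :: Ls).flatten := by
    rw [List.flatten_cons, List.mem_append]
    exact Or.inl hg
  have hflat : (l1 :: Ls).flatten = l1 ++ Ls.flatten := List.flatten_cons
  have hnd3 := hnd2
  rw [hflat, List.nodup_append'] at hnd3
  have hg2 : g ∉ Ls.flatten := fun hh => hnd3.2.2 hg hh
  have hidg := h.ids g (List.mem_append.2 (Or.inr hgL))
  have hidn := h.ids nw (List.mem_append.2 (Or.inl hnwi))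
  have hg0 : d.up cur ≠ 0 := by
    rw [hupg]
    omega
  have hlen : (ch g).length = 2 := by
    have h1 := (hP g hg).len
    have h2 := (hP g hg).cn
    omega
  have hchl : ∀ g' ∈ l1, ∀ c ∈ ch g', c ∈ l := by
    intro g' hg' c hc
    rw [hl, List.mem_flatMap]
    exact ⟨g', hg', hc⟩
  have hnotcur : ∀ g' ∈ l1, g' ≠ g → cur ∉ ch g' := by
    intro g' hg' hne hc
    have := (hP g' hg').up cur hc
    rw [hupg] at this
    exact hne this.symm
  have hchg : (ch g).Nodup := by
    have h1 : (ch g).Sublist (l1.flatMap ch) := by
      have h2 : ([g].flatMap ch).Sublist (l1.flatMap ch) :=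
        (List.singleton_sublist.2 hg).flatMap ch
      simpa using h2
    rw [← hl] at h1
    exact h1.nodup hnl
  refine ⟨d.addTo g nw, fun y => if y = g then insAfter (ch g) cur nw else ch y, l1 :: Ls, ?_, ?_⟩
  · have h1 := InsR.add d cur nw hg0 (by rw [hupg]; exact h3)
    rw [hupg] at h1
    exact h1
  have hcne : ∀ g' ∈ (l1 :: Ls).flatten, ∀ c ∈ ch g', c ≠ nw := by
    intro g' hg' c hc hcn
    have h1 := DAdd_child (l1 :: Ls) l h.tow g' hg' c hc
    rw [hcn, List.mem_append] at h1
    rcases h1 with h1 | h1
    · exact hnw h1
    · exact hnwL h1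
  refine
    { upper :=
        { tow := ?_, lnk := ?_, hd := ?_, nodup := h.nodup, grp := ?_, top := ?_ }
      cnt := le_refl _
      ids := ?_
      hch := ?_
      nx := fun y _ _ _ => rfl
      pv := fun y _ _ _ => rfl
      fi := fun y _ _ => rfl
      cn := ?_
      fl := fun y _ _ => rfl
      up := ?_
      fresh := ?_
      bit := h.bit }
  · simp only [Tow]
    refine ⟨?_, ?_⟩
    · conv_lhs => rw [hl]
      rw [ins_flatMap]
      apply List.flatMap_congr
      intro g' hg'
      by_cases hne : g' = g
      · rw [if_pos hne, hne]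
      · rw [if_neg hne]
        exact ins_notMem (hnotcur g' hg' hne)
    · apply tow_congr Ls l1 _ htow1
      intro y hy
      rw [if_neg]
      rintro rfl
      exact hg2 hy
  · intro L' hL'
    rw [List.mem_cons] at hL'
    rcases hL' with rfl | hL'
    · exact h.lnk0
    · exact h.lnk L' hL'
  · intro L' hL'
    rw [List.mem_cons] at hL'
    rcases hL' with rfl | hL'
    · intro x hx
      rw [ins_head] at hx
      exact h.hd0 x hx
    · exact h.hd L' hL'
  · intro g' hg'
    have hg'2 := hg'
    rw [hflat, List.mem_append] at hg'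
    by_cases hne : g' = g
    · subst hne
      have hp := hP g' hg
      refine { len := ?_, cn := ?_, fi := ?_, up := ?_, fl := ?_ }
      · right
        simp only [if_true]
        rw [ins_length hchg hcg, hlen]
      · simp only [if_true]
        rw [ins_length hchg hcg]
        show upd d.cn g' (d.cn g' + 1) g' = _
        rw [upd_same, hp.cn]
      · simp only [if_true]
        rw [ins_head]
        exact hp.fi
      · intro c hc
        simp only [if_true] at hc
        show upd d.up nw g' c = g'
        by_cases hcn : c = nw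
        · rw [hcn, upd_same]
        · rw [upd_ne _ _ hcn]
          rcases ins_mem.1 hc with hc | hc
          · exact hp.up c hc
          · exact absurd hc.1 hcn
      · simp only [if_true]
        exact hp.fl
    · have hgr : Grp d ch g' := by
        rcases hg' with hg' | hg'
        · have hp := hP g' hg'
          refine { len := hp.len, cn := hp.cn, fi := hp.fi, up := hp.up, fl := ?_ }
          have := hp.fl
          rw [ins_notMem (hnotcur g' hg' hne)] at this
          exact this
        · exact hG g' hg'
      refine { len := ?_, cn := ?_, fi := ?_, up := ?_, fl := ?_ }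
      · simp only [if_neg hne]
        exact hgr.len
      · simp only [if_neg hne]
        show upd d.cn g (d.cn g + 1) g' = _
        rw [upd_ne _ _ hne]
        exact hgr.cn
      · simp only [if_neg hne]
        exact hgr.fi
      · intro c hc
        simp only [if_neg hne] at hc
        show upd d.up nw g c = g'
        rw [upd_ne _ _ (hcne g' hg'2 c hc)]
        exact hgr.up c hc
      · simp only [if_neg hne]
        exact hgr.fl
  · intro x hx
    have h1 : (l :: l1 :: Ls).getLast? = some [x] := by
      rw [List.getLast?_cons_cons] at hx ⊢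
      exact hx
    have h2 := h.top x h1
    have h4 : x ≠ nw := by
      rintro rfl
      rw [List.getLast?_cons_cons] at h1
      have h5 : [x] ∈ (l1 :: Ls) := List.mem_of_getLast? h1
      exact hnwL (List.mem_flatten.2 ⟨[x], h5, List.mem_singleton.2 rfl⟩)
    show upd d.up nw g x = 0
    rw [upd_ne _ _ h4]
    exact h2
  · intro x
    constructor
    · intro hx
      exact Or.inl hx
    · rintro (hx | ⟨hx1, hx2⟩)
      · exact hx
      · exact absurd hx1 (not_lt.2 hx2)
  · intro y _ hy2
    have : y ≠ g := by
      rintro rfl
      exact hy2 hgL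
    simp only [if_neg this]
  · intro y _ hy2
    have : y ≠ g := by
      rintro rfl
      exact hy2 hgL
    show upd d.cn g (d.cn g + 1) y = _
    rw [upd_ne _ _ this]
  · intro y _ _ hy3
    have : y ≠ nw := by
      rintro rfl
      exact hy3 hnwi
    show upd d.up nw g y = _
    rw [upd_ne _ _ this]
  · intro x hx
    have hx' : d.cnt < x := hx
    obtain ⟨f1, f2, f3, f4, f5, f6⟩ := h.fresh x hx'
    have h1 : x ≠ nw := by
      rintro rfl
      omega
    have h2 : x ≠ g := by
      rintro rfl
      omega
    refine ⟨f1, f2, ?_, f4, ?_, f6⟩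
    · show upd d.up nw g x = 0
      rw [upd_ne _ _ h1]
      exact f3
    · show upd d.cn g (d.cn g + 1) x = 0
      rw [upd_ne _ _ h2]
      exact f5

end ST2
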