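import Pool.Agent.helper32.ST.DChld

/-!
# ST2-DAnc : ancestors

anc d x j is the j-th iterated `up` of x.  anc_mem by induction on j with up_mem;
anc_leaf: induction on j: x in lv ch j (anc j) and anc j in ch (anc (j+1)) (List.mem_flatMap).
anc_ne: different levels are disjoint (lvl_disj).  anc_zero: all leaves below anc j are unflagged iff
anc j is unflagged (flag_lv).  anc_stop: the least j with up (anc j) = 0 or fl (up (anc j)) <> 0 exists
(Nat.find; j = Ls.length works by top_up), is < Ls.length and up (anc j) <> 0: otherwise j = Ls.length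
(up_mem, item_pos for j < Ls.length) and anc j is unflagged (for j = 0 it is x; for j > 0 by minimality)
but the top item covers all of l (tow_lv with the level [top]), which contains a flagged y.
-/

namespace ST2

def anc (d : D) (x : ℕ) : ℕ → ℕ
  | 0 => x
  | j + 1 => d.up (anc d x j)

theorem anc_mem {d : D} {ch : ℕ → List ℕ} {l : List ℕ} {Ls : List (List ℕ)} (h : DRep d ch l Ls)
    {x : ℕ} (hx : x ∈ l) {j : ℕ} (hj : j ≤ Ls.length) :
    anc d x j ∈ lvl l Ls j ∧ x ∈ lv ch j (anc d x j) := by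
  induction j with
  | zero =>
    refine ⟨?_, ?_⟩
    · show x ∈ (l :: Ls).getD 0 []
      simpa using hx
    · show x ∈ [x]
      exact List.mem_singleton.2 rfl
  | succ j ih =>
    obtain ⟨h1, h2⟩ := ih (by omega)
    obtain ⟨h3, h4⟩ := up_mem h (i := j) (by omega) h1
    exact ⟨h3, List.mem_flatMap.2 ⟨anc d x j, h4, h2⟩⟩

theorem anc_child {d : D} {ch : ℕ → List ℕ} {l : List ℕ} {Ls : List (List ℕ)} (h : DRep d ch l Ls)
    {x : ℕ} (hx : x ∈ l) {j : ℕ} (hj : j < Ls.length) : anc d x j ∈ ch (anc d x (j + 1)) := by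
  exact (up_mem h hj (anc_mem h hx hj.le).1).2

theorem anc_inj {d : D} {ch : ℕ → List ℕ} {l : List ℕ} {Ls : List (List ℕ)} (h : DRep d ch l Ls)
    {x : ℕ} (hx : x ∈ l) {i j : ℕ} (hi : i ≤ Ls.length) (hj : j ≤ Ls.length)
    (he : anc d x i = anc d x j) : i = j := by
  refine lvl_disj h.upper.nodup (anc_mem h hx hi).1 ?_
  rw [he]
  exact (anc_mem h hx hj).1

theorem anc_stop {d : D} {ch : ℕ → List ℕ} {l : List ℕ} {Ls : List (List ℕ)} (h : DRep d ch l Ls)
    {x : ℕ} (hx : x ∈ l) (hx0 : d.fl x = 0) (hy : ∃ y ∈ l, d.fl y ≠ 0) :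
    ∃ i, i < Ls.length ∧ (∀ j ≤ i, d.fl (anc d x j) = 0) ∧ anc d x (i + 1) ≠ 0 ∧
      d.fl (anc d x (i + 1)) ≠ 0 := by
  classical
  have hex : ∃ i, d.up (anc d x i) = 0 ∨ d.fl (d.up (anc d x i)) ≠ 0 :=
    ⟨Ls.length, Or.inl (top_up h (anc_mem h hx le_rfl).1)⟩
  obtain ⟨i, hPi, hmin⟩ : ∃ i, (d.up (anc d x i) = 0 ∨ d.fl (d.up (anc d x i)) ≠ 0) ∧
      ∀ k < i, ¬ (d.up (anc d x k) = 0 ∨ d.fl (d.up (anc d x k)) ≠ 0) :=
    ⟨Nat.find hex, Nat.find_spec hex, fun k hk => Nat.find_min hex hk⟩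
  have hle : i ≤ Ls.length := by
    by_contra hc
    exact hmin Ls.length (by omega) (Or.inl (top_up h (anc_mem h hx le_rfl).1))
  have hfl : ∀ j ≤ i, d.fl (anc d x j) = 0 := by
    intro j hj
    cases j with
    | zero => exact hx0
    | succ k =>
      have h1 := hmin k (by omega)
      push Not at h1
      exact h1.2
  have hlt : i < Ls.length := by
    refine lt_of_le_of_ne hle fun he => ?_
    obtain ⟨y, hy, hyf⟩ := hy
    obtain ⟨z, hz1, -⟩ := tow_top h.upper.tow
    have h1 := (anc_mem h hx (j := i) hle).1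
    have h2 := hfl i le_rfl
    rw [he, hz1] at h1
    rw [he, List.mem_singleton.1 h1] at h2
    have h3 := tow_lv h.upper.tow (i := Ls.length) le_rfl
    rw [hz1] at h3
    have h4 : y ∈ lv ch Ls.length z := by
      rw [h3] at hy
      simpa using hy
    exact (flag_lv h.upper.tow (fun g hg => (h.upper.grp g hg).fl) Ls.length z
      (by rw [hz1]; exact List.mem_singleton.2 rfl)).2 ⟨y, h4, hyf⟩ h2
  have h5 : anc d x (i + 1) ≠ 0 := by
    have h6 := (item_pos h (anc_mem h hx (j := i + 1) hlt).1).1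
    omega
  refine ⟨i, hlt, hfl, h5, ?_⟩
  rcases hPi with h6 | h6
  · exact absurd h6 h5
  · exact h6

end ST2
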