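import Pool.Agent.helper32.ST.DLv

/-!
# ST2-DChld : the children of a group

g is a member of the level i+1, so ch g is a contiguous part of the level i (tow_ch), of length 2 or 3
with head fi g; lnk_adj gives nx and pv along it.  `first_pv`: the level i is l1 ++ fi g :: l2; if l1 = []
then pv (fi g) = 0 (Upper.hd) and up 0 = 0 <> g (g >= 1 by ids).  Otherwise l1 = l3 ++ [y], pv (fi g) = y
(lnk_adj), y lies in ch g' for a member g' of the level i+1, up y = g'; if g' = g then y and fi g are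
both in ch g with y directly before the head: contradiction to nodup.
`up_mem`: a member of level i (i < Ls.length) lies in ch g for a member g of the level i+1, and up c = g.
-/

namespace ST2

theorem DChld_mem {l : List ℕ} {Ls : List (List ℕ)} {i : ℕ} (hi : i ≤ Ls.length) :
    lvl l Ls i ∈ l :: Ls := by
  have h : i < (l :: Ls).length := by
    rw [List.length_cons]
    omega
  unfold lvl
  rw [List.getD_eq_getElem _ _ h]
  exact List.getElem_mem h

theorem DChld_split {d : D} {ch : ℕ → List ℕ} {l : List ℕ} {Ls : List (List ℕ)}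
    (h : DRep d ch l Ls) {i g : ℕ} (hg : g ∈ lvl l Ls (i + 1)) :
    ∃ A B, lvl l Ls i = A ++ (ch g ++ B) := by
  have hi := lvl_le hg
  obtain ⟨a, b, hab⟩ := List.append_of_mem hg
  refine ⟨a.flatMap ch, b.flatMap ch, ?_⟩
  rw [tow_ch h.upper.tow (by omega), hab, List.flatMap_append, List.flatMap_cons]

theorem up_mem {d : D} {ch : ℕ → List ℕ} {l : List ℕ} {Ls : List (List ℕ)} (h : DRep d ch l Ls)
    {i c : ℕ} (hi : i < Ls.length) (hc : c ∈ lvl l Ls i) :
    d.up c ∈ lvl l Ls (i + 1) ∧ c ∈ ch (d.up c) := by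
  rw [tow_ch h.upper.tow hi] at hc
  obtain ⟨g, hg, hcg⟩ := List.mem_flatMap.1 hc
  have hG := h.upper.grp g (lvl_mem_flatten hg)
  rw [hG.up c hcg]
  exact ⟨hg, hcg⟩

theorem grp_children {d : D} {ch : ℕ → List ℕ} {l : List ℕ} {Ls : List (List ℕ)}
    (h : DRep d ch l Ls) {i g : ℕ} (hg : g ∈ lvl l Ls (i + 1)) :
    (∀ c ∈ ch g, c ∈ lvl l Ls i) ∧ d.pv (d.nx (d.fi g)) = d.fi g ∧
    ((d.cn g = 2 ∧ ch g = [d.fi g, d.nx (d.fi g)]) ∨
     (d.cn g = 3 ∧ ch g = [d.fi g, d.nx (d.fi g), d.nx (d.nx (d.fi g))] ∧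
       d.pv (d.nx (d.nx (d.fi g))) = d.nx (d.fi g))) := by
  have hi := lvl_le hg
  have hG := h.upper.grp g (lvl_mem_flatten hg)
  obtain ⟨A, B, hAB⟩ := DChld_split h hg
  have hl := h.upper.lnk _ (DChld_mem (l := l) (Ls := Ls) (i := i) (by omega))
  refine ⟨?_, ?_⟩
  · intro c hc
    rw [hAB]
    exact List.mem_append_right _ (List.mem_append_left _ hc)
  rw [hAB] at hl
  have hfi := hG.fi
  have hcn := hG.cn
  have hlen := hG.len
  generalize ch g = L at hl hfi hcn hlen ⊢
  rcases hlen with h2 | h3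
  · match L, h2 with
    | [p, q], _ =>
      have hp : p = d.fi g := by simpa using hfi
      have e1 := lnk_adj (nx := d.nx) (pv := d.pv) (l1 := A) (a := p) (b := q) (l2 := B)
        (by simpa using hl)
      rw [← hp, e1.1]
      exact ⟨e1.2, Or.inl ⟨hcn, rfl⟩⟩
  · match L, h3 with
    | [p, q, r], _ =>
      have hp : p = d.fi g := by simpa using hfi
      have e1 := lnk_adj (nx := d.nx) (pv := d.pv) (l1 := A) (a := p) (b := q) (l2 := r :: B)
        (by simpa using hl)
      have e2 := lnk_adj (nx := d.nx) (pv := d.pv) (l1 := A ++ [p]) (a := q) (b := r) (l2 := B)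
        (by simpa using hl)
      rw [← hp, e1.1, e2.1]
      exact ⟨e1.2, Or.inr ⟨hcn, rfl, e2.2⟩⟩

theorem first_pv {d : D} {ch : ℕ → List ℕ} {l : List ℕ} {Ls : List (List ℕ)}
    (h : DRep d ch l Ls) {i g : ℕ} (hg : g ∈ lvl l Ls (i + 1)) : d.up (d.pv (d.fi g)) ≠ g := by
  intro hup
  have hi := lvl_le hg
  have hG := h.upper.grp g (lvl_mem_flatten hg)
  obtain ⟨A, B, hAB⟩ := DChld_split h hg
  have hm := DChld_mem (l := l) (Ls := Ls) (i := i) (by omega)
  have hl := h.upper.lnk _ hm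
  have hh := h.upper.hd _ hm
  have hnd := lvl_nodup h.upper.nodup i
  have hum := fun (c : ℕ) (hc : c ∈ lvl l Ls i) => (up_mem h (i := i) (by omega) hc).2
  have hg1 := ((h.ids g).1 (lvl_mem_all hg)).1
  rw [hAB] at hl hh hnd hum
  have hfi := hG.fi
  obtain ⟨t, ht⟩ : ∃ t, ch g = d.fi g :: t := List.head?_eq_some_iff.1 hfi
  rcases List.eq_nil_or_concat A with hA | ⟨A', y, hA⟩
  · have h1 := hh (d.fi g) (by rw [hA, ht]; rfl)
    rw [h1, h.up0] at hup
    omega
  · have hA2 : A = A' ++ [y] := by rw [hA, List.concat_eq_append]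
    have e1 := lnk_adj (nx := d.nx) (pv := d.pv) (l1 := A') (a := y) (b := d.fi g) (l2 := t ++ B)
      (by rw [hA2, ht] at hl; simpa using hl)
    rw [e1.2] at hup
    have h1 := hum y (List.mem_append_left _ (by rw [hA2]; simp))
    rw [hup] at h1
    have h2 := (List.nodup_append.1 hnd).2.2 y (by rw [hA2]; simp) y (List.mem_append_left _ h1)
    exact h2 rfl

/-- the top item has no group, and is not 0 -/
theorem top_up {d : D} {ch : ℕ → List ℕ} {l : List ℕ} {Ls : List (List ℕ)}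
    (h : DRep d ch l Ls) {c : ℕ} (hc : c ∈ lvl l Ls Ls.length) : d.up c = 0 := by
  obtain ⟨x, h1, h2⟩ := tow_top h.upper.tow
  rw [h1] at hc
  rw [List.mem_singleton.1 hc]
  exact h.upper.top x h2

theorem item_pos {d : D} {ch : ℕ → List ℕ} {l : List ℕ} {Ls : List (List ℕ)}
    (h : DRep d ch l Ls) {i c : ℕ} (hc : c ∈ lvl l Ls i) : 1 ≤ c ∧ c ≤ d.cnt := (h.ids c).1 (lvl_mem_all hc)

end ST2
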