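import Pool.Agent.helper32.ST.DAnc

/-!
# ST2-DClimb : the climbing phase of marking

(proofs: helper51)

mkf d x i: the flags after x = anc 0, ..., anc i have been flagged.
* climb_run: by induction on i - j (downwards): ClimbR.go for j < i (up (anc j) = anc (j+1) <> 0 is
  unflagged in mkf d x j: it differs from anc 0..j by anc_inj), ClimbR.stop at i
  (fl (anc (i+1)) <> 0 also in mkf).
* mkf_eq: mkf d x i y = if y is one of anc 0..i then 1 else fl y.
* climb_rep: only the flags changed.  Grp.fl for g in Ls.flatten: if g = anc (j+1) with j+1 <= i+1: its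
  flag is nonzero (j+1 <= i: set; j+1 = i+1: nonzero before) and its child anc j is flagged.
  Otherwise the flag of g and the flags of its children c are unchanged (if c = anc j then up c = g = anc (j+1)).
  bit: values are 1 or old.  fresh: anc j <= cnt (item_pos).
* climb_fc: i + 1 distinct unflagged items become flagged (anc_inj, item_pos): Finset.filter_insert /
  card of the union with the image of anc on range (i+1); or by induction on i.
-/

namespace ST2

def mkf (d : D) (x : ℕ) : ℕ → ℕ → ℕ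
  | 0 => upd d.fl x 1
  | i + 1 => upd (mkf d x i) (anc d x (i + 1)) 1

theorem mkf_eq (d : D) (x i y : ℕ) :
    ((∃ j ≤ i, y = anc d x j) ∧ mkf d x i y = 1) ∨
      ((∀ j ≤ i, y ≠ anc d x j) ∧ mkf d x i y = d.fl y) := by
  induction i with
  | zero =>
    by_cases hy : y = x
    · left
      refine ⟨⟨0, le_rfl, hy⟩, ?_⟩
      rw [hy]
      exact upd_same d.fl x 1
    · right
      refine ⟨?_, ?_⟩
      · intro j hj
        have hj0 : j = 0 := by omega
        rw [hj0]
        exact hy
      · exact upd_ne d.fl 1 hy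
  | succ i ih =>
    by_cases hy : y = anc d x (i + 1)
    · left
      refine ⟨⟨i + 1, le_rfl, hy⟩, ?_⟩
      rw [hy]
      exact upd_same (mkf d x i) (anc d x (i + 1)) 1
    · have e : mkf d x (i + 1) y = mkf d x i y := upd_ne (mkf d x i) 1 hy
      rw [e]
      rcases ih with ⟨⟨j, hj, hj2⟩, h2⟩ | ⟨h1, h2⟩
      · left
        exact ⟨⟨j, by omega, hj2⟩, h2⟩
      · right
        refine ⟨?_, h2⟩
        intro j hj
        rcases Nat.lt_or_ge j (i + 1) with h3 | h3
        · exact h1 j (by omega)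
        · have : j = i + 1 := by omega
          rw [this]
          exact hy

theorem DClimb_ne (d : D) (x i y : ℕ) :
    mkf d x i y ≠ 0 ↔ (∃ j ≤ i, y = anc d x j) ∨ d.fl y ≠ 0 := by
  rcases mkf_eq d x i y with ⟨h1, h2⟩ | ⟨h1, h2⟩
  · rw [h2]
    exact ⟨fun _ => Or.inl h1, fun _ => one_ne_zero⟩
  · rw [h2]
    constructor
    · exact Or.inr
    · rintro (⟨j, hj, hj2⟩ | h3)
      · exact absurd hj2 (h1 j hj)
      · exact h3

theorem DClimb_run_aux {d : D} {ch : ℕ → List ℕ} {l : List ℕ} {Ls : List (List ℕ)}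
    (h : DRep d ch l Ls)
    {x : ℕ} (hx : x ∈ l) {i : ℕ} (hi : i < Ls.length) (h0 : ∀ j ≤ i, d.fl (anc d x j) = 0)
    (h2 : d.fl (anc d x (i + 1)) ≠ 0) (k : ℕ) (hk : k ≤ i) :
    ClimbR { d with fl := mkf d x (i - k) } (anc d x (i - k)) { d with fl := mkf d x i }
      (anc d x i) k := by
  induction k with
  | zero =>
    refine ClimbR.stop _ _ (Or.inr ?_)
    change mkf d x i (anc d x (i + 1)) ≠ 0
    rw [DClimb_ne]
    exact Or.inr h2
  | succ k ih =>
    have ih' := ih (by omega)
    have e : i - k = i - (k + 1) + 1 := by omega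
    rw [e] at ih'
    refine ClimbR.go _ _ _ _ _ ?_ ?_ ih'
    · change anc d x (i - (k + 1) + 1) ≠ 0
      have h3 := item_pos h (anc_mem h hx (j := i - (k + 1) + 1) (by omega)).1
      omega
    · change mkf d x (i - (k + 1)) (anc d x (i - (k + 1) + 1)) = 0
      by_contra hne
      rw [← ne_eq, DClimb_ne] at hne
      rcases hne with ⟨j, hj, hj2⟩ | h3
      · have h4 := anc_inj h hx (by omega) (by omega) hj2
        omega
      · exact h3 (h0 _ (by omega))

theorem climb_run {d : D} {ch : ℕ → List ℕ} {l : List ℕ} {Ls : List (List ℕ)} (h : DRep d ch l Ls)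
    {x : ℕ} (hx : x ∈ l) {i : ℕ} (hi : i < Ls.length) (h0 : ∀ j ≤ i, d.fl (anc d x j) = 0)
    (h1 : anc d x (i + 1) ≠ 0) (h2 : d.fl (anc d x (i + 1)) ≠ 0) :
    ClimbR { d with fl := upd d.fl x 1 } x { d with fl := mkf d x i } (anc d x i) i := by
  have _ := h1
  have h3 := DClimb_run_aux h hx hi h0 h2 i le_rfl
  rw [Nat.sub_self] at h3
  exact h3

theorem climb_rep {d : D} {ch : ℕ → List ℕ} {l : List ℕ} {Ls : List (List ℕ)} (h : DRep d ch l Ls)
    {x : ℕ} (hx : x ∈ l) {i : ℕ} (hi : i < Ls.length) (h0 : ∀ j ≤ i, d.fl (anc d x j) = 0)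
    (h2 : d.fl (anc d x (i + 1)) ≠ 0) :
    DRep { d with fl := mkf d x i } ch l Ls := by
  have _ := h0
  refine ⟨⟨h.upper.tow, h.upper.lnk, h.upper.hd, h.upper.nodup, ?_, h.upper.top⟩, h.ids, h.leaf,
    h.up0, ?_, h.ne, ?_⟩
  · intro g hg
    have hG := h.upper.grp g hg
    refine ⟨hG.len, hG.cn, hG.fi, hG.up, ?_⟩
    change mkf d x i g ≠ 0 ↔ ∃ c ∈ ch g, mkf d x i c ≠ 0
    constructor
    · intro hne
      rw [DClimb_ne] at hne
      rcases hne with ⟨j, hj, hj2⟩ | h3
      · rcases Nat.eq_zero_or_pos j with hj0 | hj0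
        · exfalso
          rw [hj0] at hj2
          have hxg : x ∈ Ls.flatten := by
            have : g = x := hj2
            rw [← this]
            exact hg
          exact (List.nodup_append.1 h.upper.nodup).2.2 x hx x hxg rfl
        · obtain ⟨j', rfl⟩ : ∃ j', j = j' + 1 := ⟨j - 1, by omega⟩
          refine ⟨anc d x j', ?_, ?_⟩
          · rw [hj2]
            exact anc_child h hx (by omega)
          · rw [DClimb_ne]
            exact Or.inl ⟨j', by omega, rfl⟩
      · obtain ⟨c, hc, hc2⟩ := hG.fl.1 h3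
        refine ⟨c, hc, ?_⟩
        rw [DClimb_ne]
        exact Or.inr hc2
    · rintro ⟨c, hc, hc2⟩
      rw [DClimb_ne] at hc2 ⊢
      rcases hc2 with ⟨j, hj, hj2⟩ | h3
      · have hup := hG.up c hc
        rw [hj2] at hup
        have hanc : anc d x (j + 1) = g := hup
        rcases Nat.lt_or_ge j i with h4 | h4
        · exact Or.inl ⟨j + 1, by omega, hanc.symm⟩
        · have hji : j = i := by omega
          right
          rw [← hanc, hji]
          exact h2
      · exact Or.inr (hG.fl.2 ⟨c, hc, h3⟩)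
  · intro y hy
    have h3 := h.fresh y hy
    refine ⟨h3.1, h3.2.1, h3.2.2.1, h3.2.2.2.1, h3.2.2.2.2.1, ?_⟩
    change mkf d x i y = 0
    by_contra hne
    rw [← ne_eq, DClimb_ne] at hne
    rcases hne with ⟨j, hj, hj2⟩ | h4
    · have h5 := item_pos h (anc_mem h hx (j := j) (by omega)).1
      rw [← hj2] at h5
      have hy2 : d.cnt < y := hy
      omega
    · exact h4 h3.2.2.2.2.2
  · intro y
    change mkf d x i y ≤ 1
    rcases mkf_eq d x i y with ⟨_, h3⟩ | ⟨_, h3⟩
    · rw [h3]
    · rw [h3]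
      exact h.bit y

theorem climb_fc {d : D} {ch : ℕ → List ℕ} {l : List ℕ} {Ls : List (List ℕ)} (h : DRep d ch l Ls)
    {x : ℕ} (hx : x ∈ l) {i : ℕ} (hi : i < Ls.length) (h0 : ∀ j ≤ i, d.fl (anc d x j) = 0) :
    ({ d with fl := mkf d x i } : D).fc = d.fc + i + 1 := by
  classical
  change ((Finset.range (d.cnt + 1)).filter (fun y => mkf d x i y ≠ 0)).card =
    ((Finset.range (d.cnt + 1)).filter (fun y => d.fl y ≠ 0)).card + i + 1
  have e : (Finset.range (d.cnt + 1)).filter (fun y => mkf d x i y ≠ 0) =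
      (Finset.range (d.cnt + 1)).filter (fun y => d.fl y ≠ 0) ∪
        (Finset.range (i + 1)).image (anc d x) := by
    ext y
    rw [Finset.mem_filter, Finset.mem_union, Finset.mem_filter, Finset.mem_image, DClimb_ne]
    constructor
    · rintro ⟨h1, ⟨j, hj, hj2⟩ | h2⟩
      · right
        exact ⟨j, Finset.mem_range.2 (by omega), hj2.symm⟩
      · left
        exact ⟨h1, h2⟩
    · rintro (⟨h1, h2⟩ | ⟨j, hj, hj2⟩)
      · exact ⟨h1, Or.inr h2⟩
      · rw [Finset.mem_range] at hj
        have h5 := item_pos h (anc_mem h hx (j := j) (by omega)).1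
        rw [hj2] at h5
        exact ⟨Finset.mem_range.2 (by omega), Or.inl ⟨j, by omega, hj2.symm⟩⟩
  rw [e, Finset.card_union_of_disjoint]
  · rw [Finset.card_image_of_injOn, Finset.card_range, add_assoc]
    intro a ha b hb hab
    rw [Finset.mem_coe, Finset.mem_range] at ha hb
    exact anc_inj h hx (by omega) (by omega) hab
  · rw [Finset.disjoint_left]
    intro y hy hy2
    rw [Finset.mem_filter] at hy
    rw [Finset.mem_image] at hy2
    obtain ⟨j, hj, hj2⟩ := hy2
    rw [Finset.mem_range] at hj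
    apply hy.2
    rw [← hj2]
    exact h0 j (by omega)

end ST2
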