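import Pool.Agent.helper32.ST.DInsOp

/-!
# ST2-DCnt : the number of items is at most twice the number of elements

Author of the proofs: helper59.

From Tow and Grp.len >= 2 (children lists of members of the next level have at least two elements):
length of a level >= 2 * length of the next level, and the top level has length 1.  By induction on Ls:
Tow ch l Ls, all members g of Ls.flatten have (ch g).length >= 2 implies
Ls.flatten.length + 1 <= l.length.  The ids condition and nodup give cnt = (l ++ Ls.flatten).length
(toFinset = Finset.Icc 1 cnt).  fc <= cnt + 1 because the filter is a subset of range (cnt+1).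
-/

namespace ST2

theorem tow_len {ch : ℕ → List ℕ} : ∀ (Ls : List (List ℕ)) (l : List ℕ), Tow ch l Ls →
    (∀ g ∈ Ls.flatten, 2 ≤ (ch g).length) → Ls.flatten.length + 1 ≤ l.length := by
  intro Ls
  induction Ls with
  | nil =>
    intro l ht _
    obtain ⟨x, rfl⟩ := ht
    simp
  | cons l' Ls ih =>
    intro l ht hg
    obtain ⟨h1, h2⟩ := ht
    have h3 := ih l' h2 (fun g hg' => hg g (by
      rw [List.flatten_cons, List.mem_append]
      exact Or.inr hg'))
    have h4 : 2 * l'.length ≤ l.length := by
      rw [h1, List.length_flatMap]
      have h5 : ∀ g ∈ l', 2 ≤ (ch g).length := fun g hg' => hg g (by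
        rw [List.flatten_cons, List.mem_append]
        exact Or.inl hg')
      clear h1 h2 h3 hg ih
      induction l' with
      | nil => simp
      | cons a m ih2 =>
        have h6 := ih2 (fun g hg' => h5 g (List.mem_cons_of_mem _ hg'))
        have h7 := h5 a List.mem_cons_self
        simp only [List.map_cons, List.sum_cons, List.length_cons]
        omega
    rw [List.flatten_cons, List.length_append]
    omega

theorem cnt_le {d : D} {l : List ℕ} (h : LRep d l) : d.cnt + 1 ≤ 2 * l.length := by
  obtain ⟨ch, Ls, hd⟩ := h
  have h1 := tow_len Ls l hd.upper.tow (fun g hg => by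
    rcases (hd.upper.grp g hg).len with h2 | h2 <;> omega)
  have h2 : (l ++ Ls.flatten).toFinset = Finset.Icc 1 d.cnt := by
    ext x
    rw [List.mem_toFinset, Finset.mem_Icc]
    exact hd.ids x
  have h3 := List.toFinset_card_of_nodup hd.upper.nodup
  rw [h2, Nat.card_Icc, List.length_append] at h3
  omega

theorem fc_le (d : D) : d.fc ≤ d.cnt + 1 := by
  unfold D.fc
  refine (Finset.card_filter_le _ _).trans ?_
  rw [Finset.card_range]

end ST2
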