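import Mathlib

/-!
# ST2-DDef : the 2-3 list (definitions)

Items are positive numbers 1..cnt.  Items of level 0 are the elements of the list; an item g of level
i+1 is a group of two or three consecutive items of level i (its children): `fi g` first child,
`cn g` number of children (0 at level 0), `up c = g` for the children.  `nx`, `pv` are the links of the
list of each level, `fl` is 1 for marked elements, and for groups containing a marked element.
-/

namespace ST2

/-- point update -/
def upd (f : ℕ → ℕ) (i v : ℕ) : ℕ → ℕ := fun j => if j = i then v else f j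

@[simp] theorem upd_same (f : ℕ → ℕ) (i v : ℕ) : upd f i v i = v := by simp [upd]

theorem upd_ne (f : ℕ → ℕ) {i j : ℕ} (v : ℕ) (h : j ≠ i) : upd f i v j = f j := by simp [upd, h]

structure D where
  nx : ℕ → ℕ
  pv : ℕ → ℕ
  up : ℕ → ℕ
  fi : ℕ → ℕ
  cn : ℕ → ℕ
  fl : ℕ → ℕ
  cnt : ℕ

/-- link the item e directly after x in the list of its level (index 0 is junk) -/
def D.link (d : D) (x e : ℕ) : D :=
  { d with nx := upd (upd d.nx x e) e (d.nx x), pv := upd (upd d.pv e x) (d.nx x) e }

/-- a new root with the two children cur, nw -/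
def D.newRoot (d : D) (cur nw : ℕ) : D :=
  { d with up := upd (upd d.up cur (d.cnt + 1)) nw (d.cnt + 1),
           fi := upd d.fi (d.cnt + 1) cur,
           cn := upd d.cn (d.cnt + 1) 2,
           fl := upd d.fl (d.cnt + 1) (if 0 < d.fl cur + d.fl nw then 1 else 0),
           cnt := d.cnt + 1 }

/-- nw becomes a further child of g -/
def D.addTo (d : D) (g nw : ℕ) : D :=
  { d with up := upd d.up nw g, cn := upd d.cn g (d.cn g + 1) }

/-- the four children a, b, c, e of g after nw is linked -/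
def D.c1 (d : D) (g : ℕ) : ℕ := d.fi g
def D.c2 (d : D) (g : ℕ) : ℕ := d.nx (d.fi g)
def D.c3 (d : D) (g : ℕ) : ℕ := d.nx (d.nx (d.fi g))
def D.c4 (d : D) (g : ℕ) : ℕ := d.nx (d.nx (d.nx (d.fi g)))

/-- split g (which now has four children in the list of the level below): g keeps the first two, the
new group cnt+1 gets the last two, and is linked after g -/
def D.split (d : D) (g nw : ℕ) : D :=
  ({ d with up := upd (upd (upd d.up nw g) (d.c3 g) (d.cnt + 1)) (d.c4 g) (d.cnt + 1),
            fi := upd d.fi (d.cnt + 1) (d.c3 g),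
            cn := upd (upd d.cn g 2) (d.cnt + 1) 2,
            fl := upd (upd d.fl g (if 0 < d.fl (d.c1 g) + d.fl (d.c2 g) then 1 else 0)) (d.cnt + 1)
              (if 0 < d.fl (d.c3 g) + d.fl (d.c4 g) then 1 else 0),
            cnt := d.cnt + 1 } : D).link g (d.cnt + 1)

/-- the insertion loop: nw is linked after cur in its level, but has no group yet; t steps -/
inductive InsR : D → ℕ → ℕ → D → ℕ → Prop
  | root (d : D) (cur nw : ℕ) (h : d.up cur = 0) : InsR d cur nw (d.newRoot cur nw) 1
  | add (d : D) (cur nw : ℕ) (h : d.up cur ≠ 0) (h2 : d.cn (d.up cur) < 3) :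
      InsR d cur nw (d.addTo (d.up cur) nw) 1
  | split (d : D) (cur nw : ℕ) (d' : D) (t : ℕ) (h : d.up cur ≠ 0) (h2 : ¬ d.cn (d.up cur) < 3)
      (h3 : InsR (d.split (d.up cur) nw) (d.up cur) (d.cnt + 1) d' t) : InsR d cur nw d' (t + 1)

/-- insert a new element (the item cnt+1) after x -/
def InsOp (d : D) (x : ℕ) (d' : D) (t : ℕ) : Prop :=
  InsR (({ d with cnt := d.cnt + 1 } : D).link x (d.cnt + 1)) x (d.cnt + 1) d' t

/-- climbing after marking: cur is newly flagged; flag the ancestors which are not flagged -/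
inductive ClimbR : D → ℕ → D → ℕ → ℕ → Prop
  | stop (d : D) (cur : ℕ) (h : d.up cur = 0 ∨ d.fl (d.up cur) ≠ 0) : ClimbR d cur d cur 0
  | go (d : D) (cur : ℕ) (d' : D) (r t : ℕ) (h : d.up cur ≠ 0) (h2 : d.fl (d.up cur) = 0)
      (h3 : ClimbR { d with fl := upd d.fl (d.up cur) 1 } (d.up cur) d' r t) :
      ClimbR d cur d' r (t + 1)

/-- last flagged child -/
def D.lastF (d : D) (u : ℕ) : ℕ :=
  if d.cn u = 3 ∧ d.fl (d.nx (d.nx (d.fi u))) ≠ 0 then d.nx (d.nx (d.fi u))
  else if d.fl (d.nx (d.fi u)) ≠ 0 then d.nx (d.fi u) else d.fi u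

/-- first flagged child -/
def D.firstF (d : D) (u : ℕ) : ℕ :=
  if d.fl (d.fi u) ≠ 0 then d.fi u
  else if d.fl (d.nx (d.fi u)) ≠ 0 then d.nx (d.fi u) else d.nx (d.nx (d.fi u))

/-- descend to the last marked element -/
inductive DescL (d : D) : ℕ → ℕ → ℕ → Prop
  | leaf (u : ℕ) (h : d.cn u = 0) : DescL d u u 0
  | node (u r t : ℕ) (h : d.cn u ≠ 0) (h2 : DescL d (d.lastF u) r t) : DescL d u r (t + 1)

/-- descend to the first marked element -/
inductive DescF (d : D) : ℕ → ℕ → ℕ → Prop
  | leaf (u : ℕ) (h : d.cn u = 0) : DescF d u u 0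
  | node (u r t : ℕ) (h : d.cn u ≠ 0) (h2 : DescF d (d.firstF u) r t) : DescF d u r (t + 1)

/-- candidate on the left of cur inside the group of cur -/
def D.leftC (d : D) (cur : ℕ) : ℕ :=
  if d.up (d.pv cur) = d.up cur ∧ d.fl (d.pv cur) = 0 then d.pv (d.pv cur) else d.pv cur

/-- candidate on the right of cur -/
def D.rightC (d : D) (cur : ℕ) : ℕ :=
  if d.fl (d.nx cur) = 0 then d.nx (d.nx cur) else d.nx cur

/-- marking the element x: the flags are updated, and r is the nearest marked element on the left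
(left = true) or on the right (left = false) of x; t counts the steps -/
inductive MarkOp (d : D) (x : ℕ) : D → ℕ → Bool → ℕ → Prop
  | left (d' : D) (cur r t t' : ℕ) (h : ClimbR { d with fl := upd d.fl x 1 } x d' cur t)
      (h2 : d'.up (d'.leftC cur) = d'.up cur ∧ d'.fl (d'.leftC cur) ≠ 0)
      (h3 : DescL d' (d'.leftC cur) r t') : MarkOp d x d' r true (t + t')
  | right (d' : D) (cur r t t' : ℕ) (h : ClimbR { d with fl := upd d.fl x 1 } x d' cur t)
      (h2 : ¬ (d'.up (d'.leftC cur) = d'.up cur ∧ d'.fl (d'.leftC cur) ≠ 0))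
      (h3 : DescF d' (d'.rightC cur) r t') : MarkOp d x d' r false (t + t')

/-! ### the representation -/

/-- doubly linked list (without junk at the ends: nx of the last and pv of the first are 0) -/
def Lnk (nx pv : ℕ → ℕ) : List ℕ → Prop
  | [] => True
  | [x] => nx x = 0
  | x :: y :: l => nx x = y ∧ pv y = x ∧ Lnk nx pv (y :: l)

/-- the list of levels: each level is the concatenation of the children lists of the next one; the top
level is a single item -/
def Tow (ch : ℕ → List ℕ) : List ℕ → List (List ℕ) → Prop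
  | l, [] => ∃ x, l = [x]
  | l, l' :: Ls => l = l'.flatMap ch ∧ Tow ch l' Ls

/-- g is a correct group with children list `ch g` -/
structure Grp (d : D) (ch : ℕ → List ℕ) (g : ℕ) : Prop where
  len : (ch g).length = 2 ∨ (ch g).length = 3
  cn : d.cn g = (ch g).length
  fi : (ch g).head? = some (d.fi g)
  up : ∀ c ∈ ch g, d.up c = g
  fl : d.fl g ≠ 0 ↔ ∃ c ∈ ch g, d.fl c ≠ 0

/-- the upper part of the structure: the level list l and the levels Ls above it -/
structure Upper (d : D) (ch : ℕ → List ℕ) (l : List ℕ) (Ls : List (List ℕ)) : Prop where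
  tow : Tow ch l Ls
  lnk : ∀ L' ∈ l :: Ls, Lnk d.nx d.pv L'
  hd : ∀ L' ∈ l :: Ls, ∀ x ∈ L'.head?, d.pv x = 0
  nodup : (l ++ Ls.flatten).Nodup
  grp : ∀ g ∈ Ls.flatten, Grp d ch g
  top : ∀ x, (l :: Ls).getLast? = some [x] → d.up x = 0

/-- the whole structure represents the list l of elements -/
structure DRep (d : D) (ch : ℕ → List ℕ) (l : List ℕ) (Ls : List (List ℕ)) : Prop where
  upper : Upper d ch l Ls
  ids : ∀ x, x ∈ l ++ Ls.flatten ↔ 1 ≤ x ∧ x ≤ d.cnt
  leaf : ∀ x ∈ l, d.cn x = 0
  up0 : d.up 0 = 0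
  fresh : ∀ x, d.cnt < x → d.nx x = 0 ∧ d.pv x = 0 ∧ d.up x = 0 ∧ d.fi x = 0 ∧ d.cn x = 0 ∧ d.fl x = 0
  ne : l ≠ []
  bit : ∀ x, d.fl x ≤ 1

def LRep (d : D) (l : List ℕ) : Prop := ∃ ch Ls, DRep d ch l Ls

/-- number of flagged items -/
def D.fc (d : D) : ℕ := ((Finset.range (d.cnt + 1)).filter (fun x => d.fl x ≠ 0)).card

end ST2
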