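import Pool.Agent.helper32.ST.DChld

/-!
# ST2-DDesc : descending to the last / first marked leaf

Induction on i.  i = 0: u in l, cn u = 0 (leaf), lv ch 0 u = [u].  i + 1: cn u = 2 or 3 (grp_children);
u is flagged, so some child is flagged (Grp.fl); lastF u is the last flagged child w (cases 2, 3 children);
ch u = p ++ w :: q with all members of q unflagged; the induction hypothesis for w; the leaves of
unflagged items are unflagged (flag_lv).  lv ch (i+1) u = (p.flatMap ..) ++ (a ++ r :: b) ++ (q.flatMap ..).
-/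

namespace ST2

theorem DDesc_unfl {d : D} {ch : ℕ → List ℕ} {l : List ℕ} {Ls : List (List ℕ)} (h : DRep d ch l Ls)
    {i w : ℕ} (hw : w ∈ lvl l Ls i) (h0 : d.fl w = 0) : ∀ y ∈ lv ch i w, d.fl y = 0 := by
  intro y hy
  by_contra hne
  exact (flag_lv h.upper.tow (fun g hg => (h.upper.grp g hg).fl) i w hw).2 ⟨y, hy, hne⟩ h0

theorem descL {d : D} {ch : ℕ → List ℕ} {l : List ℕ} {Ls : List (List ℕ)} (h : DRep d ch l Ls) :
    ∀ i u, u ∈ lvl l Ls i → d.fl u ≠ 0 → ∃ r a b, DescL d u r i ∧ lv ch i u = a ++ r :: b ∧
      d.fl r ≠ 0 ∧ ∀ y ∈ b, d.fl y = 0 := by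
  intro i
  induction i with
  | zero =>
    intro u hu hf
    have hul : u ∈ l := hu
    exact ⟨u, [], [], DescL.leaf u (h.leaf u hul), rfl, hf, by simp⟩
  | succ i ih =>
    intro u hu hf
    obtain ⟨hc, _, hcase⟩ := grp_children h hu
    have hG := h.upper.grp u (lvl_mem_flatten hu)
    obtain ⟨c, hc1, hc2⟩ := hG.fl.1 hf
    rcases hcase with ⟨hcn, hch⟩ | ⟨hcn, hch, _⟩
    · rw [hch] at hc1 hc
      have m1 := hc (d.fi u) (by simp)
      have m2 := hc (d.nx (d.fi u)) (by simp)
      simp only [List.mem_cons, List.not_mem_nil, or_false] at hc1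
      by_cases hy : d.fl (d.nx (d.fi u)) = 0
      · have hx : d.fl (d.fi u) ≠ 0 := by
          rcases hc1 with hc1 | hc1
          · rw [← hc1]; exact hc2
          · rw [hc1] at hc2; exact absurd hy hc2
        have hlast : d.lastF u = d.fi u := by simp [D.lastF, hcn, hy]
        obtain ⟨r, a, b, h1, h2, h3, h4⟩ := ih (d.fi u) m1 hx
        refine ⟨r, a, b ++ lv ch i (d.nx (d.fi u)),
          DescL.node u r i (by omega) (by rw [hlast]; exact h1), ?_, h3, ?_⟩
        · simp [lv, hch, h2]
        · intro y hy'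
          rcases List.mem_append.1 hy' with h' | h'
          · exact h4 y h'
          · exact DDesc_unfl h m2 hy y h'
      · have hlast : d.lastF u = d.nx (d.fi u) := by simp [D.lastF, hcn, hy]
        obtain ⟨r, a, b, h1, h2, h3, h4⟩ := ih (d.nx (d.fi u)) m2 hy
        refine ⟨r, lv ch i (d.fi u) ++ a, b,
          DescL.node u r i (by omega) (by rw [hlast]; exact h1), ?_, h3, h4⟩
        simp [lv, hch, h2]
    · rw [hch] at hc1 hc
      have m1 := hc (d.fi u) (by simp)
      have m2 := hc (d.nx (d.fi u)) (by simp)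
      have m3 := hc (d.nx (d.nx (d.fi u))) (by simp)
      simp only [List.mem_cons, List.not_mem_nil, or_false] at hc1
      by_cases hz : d.fl (d.nx (d.nx (d.fi u))) = 0
      · by_cases hy : d.fl (d.nx (d.fi u)) = 0
        · have hx : d.fl (d.fi u) ≠ 0 := by
            rcases hc1 with hc1 | hc1 | hc1
            · rw [← hc1]; exact hc2
            · rw [hc1] at hc2; exact absurd hy hc2
            · rw [hc1] at hc2; exact absurd hz hc2
          have hlast : d.lastF u = d.fi u := by simp [D.lastF, hz, hy]
          obtain ⟨r, a, b, h1, h2, h3, h4⟩ := ih (d.fi u) m1 hx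
          refine ⟨r, a, b ++ (lv ch i (d.nx (d.fi u)) ++ lv ch i (d.nx (d.nx (d.fi u)))),
            DescL.node u r i (by omega) (by rw [hlast]; exact h1), ?_, h3, ?_⟩
          · simp [lv, hch, h2]
          · intro y hy'
            rcases List.mem_append.1 hy' with h' | h'
            · exact h4 y h'
            · rcases List.mem_append.1 h' with h' | h'
              · exact DDesc_unfl h m2 hy y h'
              · exact DDesc_unfl h m3 hz y h'
        · have hlast : d.lastF u = d.nx (d.fi u) := by simp [D.lastF, hz, hy]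
          obtain ⟨r, a, b, h1, h2, h3, h4⟩ := ih (d.nx (d.fi u)) m2 hy
          refine ⟨r, lv ch i (d.fi u) ++ a, b ++ lv ch i (d.nx (d.nx (d.fi u))),
            DescL.node u r i (by omega) (by rw [hlast]; exact h1), ?_, h3, ?_⟩
          · simp [lv, hch, h2]
          · intro y hy'
            rcases List.mem_append.1 hy' with h' | h'
            · exact h4 y h'
            · exact DDesc_unfl h m3 hz y h'
      · have hlast : d.lastF u = d.nx (d.nx (d.fi u)) := by simp [D.lastF, hcn, hz]
        obtain ⟨r, a, b, h1, h2, h3, h4⟩ := ih (d.nx (d.nx (d.fi u))) m3 hz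
        refine ⟨r, lv ch i (d.fi u) ++ (lv ch i (d.nx (d.fi u)) ++ a), b,
          DescL.node u r i (by omega) (by rw [hlast]; exact h1), ?_, h3, h4⟩
        simp [lv, hch, h2]

theorem descF {d : D} {ch : ℕ → List ℕ} {l : List ℕ} {Ls : List (List ℕ)} (h : DRep d ch l Ls) :
    ∀ i u, u ∈ lvl l Ls i → d.fl u ≠ 0 → ∃ r a b, DescF d u r i ∧ lv ch i u = a ++ r :: b ∧
      d.fl r ≠ 0 ∧ ∀ y ∈ a, d.fl y = 0 := by
  intro i
  induction i with
  | zero =>
    intro u hu hf
    have hul : u ∈ l := hu
    exact ⟨u, [], [], DescF.leaf u (h.leaf u hul), rfl, hf, by simp⟩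
  | succ i ih =>
    intro u hu hf
    obtain ⟨hc, _, hcase⟩ := grp_children h hu
    have hG := h.upper.grp u (lvl_mem_flatten hu)
    obtain ⟨c, hc1, hc2⟩ := hG.fl.1 hf
    rcases hcase with ⟨hcn, hch⟩ | ⟨hcn, hch, _⟩
    · rw [hch] at hc1 hc
      have m1 := hc (d.fi u) (by simp)
      have m2 := hc (d.nx (d.fi u)) (by simp)
      simp only [List.mem_cons, List.not_mem_nil, or_false] at hc1
      by_cases hx : d.fl (d.fi u) = 0
      · have hy : d.fl (d.nx (d.fi u)) ≠ 0 := by
          rcases hc1 with hc1 | hc1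
          · rw [hc1] at hc2; exact absurd hx hc2
          · rw [← hc1]; exact hc2
        have hlast : d.firstF u = d.nx (d.fi u) := by simp [D.firstF, hx, hy]
        obtain ⟨r, a, b, h1, h2, h3, h4⟩ := ih (d.nx (d.fi u)) m2 hy
        refine ⟨r, lv ch i (d.fi u) ++ a, b,
          DescF.node u r i (by omega) (by rw [hlast]; exact h1), ?_, h3, ?_⟩
        · simp [lv, hch, h2]
        · intro y hy'
          rcases List.mem_append.1 hy' with h' | h'
          · exact DDesc_unfl h m1 hx y h'
          · exact h4 y h'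
      · have hlast : d.firstF u = d.fi u := by simp [D.firstF, hx]
        obtain ⟨r, a, b, h1, h2, h3, h4⟩ := ih (d.fi u) m1 hx
        refine ⟨r, a, b ++ lv ch i (d.nx (d.fi u)),
          DescF.node u r i (by omega) (by rw [hlast]; exact h1), ?_, h3, h4⟩
        simp [lv, hch, h2]
    · rw [hch] at hc1 hc
      have m1 := hc (d.fi u) (by simp)
      have m2 := hc (d.nx (d.fi u)) (by simp)
      have m3 := hc (d.nx (d.nx (d.fi u))) (by simp)
      simp only [List.mem_cons, List.not_mem_nil, or_false] at hc1
      by_cases hx : d.fl (d.fi u) = 0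
      · by_cases hy : d.fl (d.nx (d.fi u)) = 0
        · have hz : d.fl (d.nx (d.nx (d.fi u))) ≠ 0 := by
            rcases hc1 with hc1 | hc1 | hc1
            · rw [hc1] at hc2; exact absurd hx hc2
            · rw [hc1] at hc2; exact absurd hy hc2
            · rw [← hc1]; exact hc2
          have hlast : d.firstF u = d.nx (d.nx (d.fi u)) := by simp [D.firstF, hx, hy]
          obtain ⟨r, a, b, h1, h2, h3, h4⟩ := ih (d.nx (d.nx (d.fi u))) m3 hz
          refine ⟨r, lv ch i (d.fi u) ++ (lv ch i (d.nx (d.fi u)) ++ a), b,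
            DescF.node u r i (by omega) (by rw [hlast]; exact h1), ?_, h3, ?_⟩
          · simp [lv, hch, h2]
          · intro y hy'
            rcases List.mem_append.1 hy' with h' | h'
            · exact DDesc_unfl h m1 hx y h'
            · rcases List.mem_append.1 h' with h' | h'
              · exact DDesc_unfl h m2 hy y h'
              · exact h4 y h'
        · have hlast : d.firstF u = d.nx (d.fi u) := by simp [D.firstF, hx, hy]
          obtain ⟨r, a, b, h1, h2, h3, h4⟩ := ih (d.nx (d.fi u)) m2 hy
          refine ⟨r, lv ch i (d.fi u) ++ a, b ++ lv ch i (d.nx (d.nx (d.fi u))),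
            DescF.node u r i (by omega) (by rw [hlast]; exact h1), ?_, h3, ?_⟩
          · simp [lv, hch, h2]
          · intro y hy'
            rcases List.mem_append.1 hy' with h' | h'
            · exact DDesc_unfl h m1 hx y h'
            · exact h4 y h'
      · have hlast : d.firstF u = d.fi u := by simp [D.firstF, hx]
        obtain ⟨r, a, b, h1, h2, h3, h4⟩ := ih (d.fi u) m1 hx
        refine ⟨r, a, b ++ (lv ch i (d.nx (d.fi u)) ++ lv ch i (d.nx (d.nx (d.fi u)))),
          DescF.node u r i (by omega) (by rw [hlast]; exact h1), ?_, h3, h4⟩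
        simp [lv, hch, h2]

end ST2
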