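import Pool.Agent.helper32.ST.DDef

/-!
# ST2-DInit : the initial structure: one element 1, which is flagged

ch arbitrary (fun _ => []), Ls = [].  Tow: l = [1].  All fields by simp / cases; fl values: upd 0-function.
lrep_pos, lrep_nodup, lrep_pv: consequences of DRep (ids, nodup, lnk of level 0, hd; lnk_adj).
-/

namespace ST2

def D.init : D := ⟨fun _ => 0, fun _ => 0, fun _ => 0, fun _ => 0, fun _ => 0, upd (fun _ => 0) 1 1, 1⟩

theorem init_rep : LRep D.init [1] := by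
  refine ⟨fun _ => [], [], ⟨⟨⟨1, rfl⟩, ?_, ?_, by simp, by simp, fun x _ => rfl⟩, ?_, fun x _ => rfl,
    rfl, ?_, by simp, ?_⟩⟩
  · intro L' hL'
    simp only [List.mem_singleton] at hL'
    subst hL'
    rfl
  · intro L' _ x _
    rfl
  · intro x
    have hc : D.init.cnt = 1 := rfl
    simp only [List.flatten_nil, List.append_nil, List.mem_singleton, hc]
    omega
  · intro x hx
    have hc : D.init.cnt = 1 := rfl
    rw [hc] at hx
    refine ⟨rfl, rfl, rfl, rfl, rfl, ?_⟩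
    have hx' : x ≠ 1 := by omega
    exact upd_ne (fun _ => 0) 1 hx'
  · intro x
    change upd (fun _ => 0) 1 1 x ≤ 1
    by_cases hx : x = 1
    · subst hx
      exact le_of_eq (upd_same _ _ _)
    · rw [upd_ne (fun _ => 0) 1 hx]
      exact Nat.zero_le 1

theorem init_fc : D.init.fc = 1 := by
  rfl

theorem lrep_pos {d : D} {l : List ℕ} (h : LRep d l) {x : ℕ} (hx : x ∈ l) :
    1 ≤ x ∧ x ≤ d.cnt := by
  obtain ⟨ch, Ls, h⟩ := h
  exact (h.ids x).1 (List.mem_append_left _ hx)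

theorem lrep_nodup {d : D} {l : List ℕ} (h : LRep d l) : l.Nodup := by
  obtain ⟨ch, Ls, h⟩ := h
  exact h.upper.nodup.of_append_left

theorem DInit_adj {nx pv : ℕ → ℕ} {a b : ℕ} {l2 : List ℕ} :
    ∀ l1 : List ℕ, Lnk nx pv (l1 ++ a :: b :: l2) → pv b = a ∧ nx a = b
  | [], h => ⟨h.2.1, h.1⟩
  | [_], h => DInit_adj [] h.2.2
  | _ :: y :: l, h => DInit_adj (y :: l) h.2.2

theorem lrep_pv {d : D} {l l1 l2 : List ℕ} {a b : ℕ} (h : LRep d l) (he : l = l1 ++ a :: b :: l2) :
    d.pv b = a ∧ d.nx a = b := by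
  obtain ⟨ch, Ls, h⟩ := h
  have h1 := h.upper.lnk l (List.mem_cons_self ..)
  rw [he] at h1
  exact DInit_adj l1 h1

end ST2
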