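import Pool.Agent.helper32.ST.DDef

/-!
# ST2-DIns : list lemmas for insAfter (author of the proofs: helper59)

insAfter l x e = insert e directly after (every occurrence of) x.  Induction on l (cases y = x or not).
`ins_split`: if l = l1 ++ x :: l2 and x is not in l1, l2 then insAfter l x e = l1 ++ x :: e :: l2.
`ins_flatMap`: flatMap_assoc.
`ins_nodup`: for a nodup l containing x and e not in l (via ins_split, List.nodup_append, or
List.Perm: insAfter l x e ~ e :: l, see ins_perm).
-/

namespace ST2

def insAfter (l : List ℕ) (x e : ℕ) : List ℕ := l.flatMap (fun y => if y = x then [x, e] else [y])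

private theorem DIns_append (l1 l2 : List ℕ) (x e : ℕ) :
    insAfter (l1 ++ l2) x e = insAfter l1 x e ++ insAfter l2 x e := List.flatMap_append

private theorem DIns_cons (y : ℕ) (l : List ℕ) (x e : ℕ) :
    insAfter (y :: l) x e = (if y = x then [x, e] else [y]) ++ insAfter l x e := List.flatMap_cons

theorem ins_notMem {l : List ℕ} {x e : ℕ} (h : x ∉ l) : insAfter l x e = l := by
  induction l with
  | nil => rfl
  | cons y l ih =>
    have h1 : ¬ y = x := by
      intro h2
      rw [h2] at h
      exact h List.mem_cons_self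
    rw [DIns_cons, if_neg h1, ih (fun h' => h (List.mem_cons_of_mem _ h'))]
    rfl

theorem ins_split {l1 l2 : List ℕ} {x e : ℕ} (h1 : x ∉ l1) (h2 : x ∉ l2) :
    insAfter (l1 ++ x :: l2) x e = l1 ++ x :: e :: l2 := by
  rw [DIns_append, DIns_cons, if_pos rfl, ins_notMem h1, ins_notMem h2]
  rfl

theorem ins_flatMap {l : List ℕ} {ch : ℕ → List ℕ} {x e : ℕ} :
    insAfter (l.flatMap ch) x e = l.flatMap (fun g => insAfter (ch g) x e) := by
  unfold insAfter
  rw [List.flatMap_assoc]

/-- a nodup list is split by a member -/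
theorem exists_split {l : List ℕ} {x : ℕ} (hn : l.Nodup) (hx : x ∈ l) :
    ∃ l1 l2, l = l1 ++ x :: l2 ∧ x ∉ l1 ∧ x ∉ l2 := by
  obtain ⟨l1, l2, rfl⟩ := List.append_of_mem hx
  refine ⟨l1, l2, rfl, ?_, ?_⟩
  · intro h
    exact (List.nodup_append.1 hn).2.2 x h x List.mem_cons_self rfl
  · intro h
    have h1 := (List.nodup_append.1 hn).2.1
    exact (List.nodup_cons.1 h1).1 h

theorem ins_perm {l : List ℕ} {x e : ℕ} (hn : l.Nodup) (hx : x ∈ l) :
    (insAfter l x e).Perm (e :: l) := by
  obtain ⟨l1, l2, rfl, h1, h2⟩ := exists_split hn hx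
  rw [ins_split h1 h2]
  have h3 : (l1 ++ x :: e :: l2) = (l1 ++ [x]) ++ e :: l2 := by simp
  have h4 : e :: (l1 ++ x :: l2) = e :: ((l1 ++ [x]) ++ l2) := by simp
  rw [h3, h4]
  exact List.perm_middle

theorem ins_mem {l : List ℕ} {x e y : ℕ} : y ∈ insAfter l x e ↔ y ∈ l ∨ (y = e ∧ x ∈ l) := by
  unfold insAfter
  rw [List.mem_flatMap]
  constructor
  · rintro ⟨z, hz, hy⟩
    by_cases h : z = x
    · rw [if_pos h] at hy
      rcases List.mem_cons.1 hy with h1 | h1
      · left
        rw [h1, ← h]
        exact hz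
      · right
        exact ⟨List.mem_singleton.1 h1, h ▸ hz⟩
    · rw [if_neg h] at hy
      left
      rw [List.mem_singleton.1 hy]
      exact hz
  · rintro (h | ⟨h1, h2⟩)
    · refine ⟨y, h, ?_⟩
      by_cases h' : y = x
      · rw [if_pos h', h']
        exact List.mem_cons_self
      · rw [if_neg h']
        exact List.mem_singleton.2 rfl
    · refine ⟨x, h2, ?_⟩
      rw [if_pos rfl, h1]
      exact List.mem_cons_of_mem _ List.mem_cons_self

theorem ins_length {l : List ℕ} {x e : ℕ} (hn : l.Nodup) (hx : x ∈ l) :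
    (insAfter l x e).length = l.length + 1 := by
  rw [(ins_perm hn hx).length_eq, List.length_cons]

theorem ins_head {l : List ℕ} {x e : ℕ} : (insAfter l x e).head? = l.head? := by
  cases l with
  | nil => rfl
  | cons y l =>
    rw [DIns_cons]
    by_cases h : y = x
    · rw [if_pos h, h]
      rfl
    · rw [if_neg h]
      rfl

end ST2
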