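import Pool.Agent.helper32.ST.DInsOp

/-!
# ST2-DInsFc : an insertion does not decrease the number of flagged items

By induction on InsR: fc does not decrease in newRoot (new item only), in addTo (no flag changes), in split:
the items <= cnt other than g keep their flags; if g was flagged then one of the four children is
flagged?  (this needs the structure).  So we prove it along `ins_loop`: for Pend states:
if fl g <> 0 (g = up cur) then (GrpP.fl, split_children) one of c1..c4 is flagged, so the new flag of g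
or of cnt+1 is nonzero: the number of flagged items does not decrease.
Induction on Ls as in ins_loop (InsR is deterministic: insR_det).
-/

namespace ST2

theorem DInsFc_mono {d d' : D} (hc : d.cnt ≤ d'.cnt)
    (h : ∀ x, x ≤ d.cnt → d.fl x ≠ 0 → d'.fl x ≠ 0) : d.fc ≤ d'.fc := by
  unfold D.fc
  apply Finset.card_le_card
  intro x hx
  rw [Finset.mem_filter, Finset.mem_range] at hx ⊢
  exact ⟨by omega, h x (by omega) hx.2⟩

theorem DInsFc_root (d : D) (cur nw : ℕ) : d.fc ≤ (d.newRoot cur nw).fc := by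
  apply DInsFc_mono
  · show d.cnt ≤ d.cnt + 1
    omega
  · intro x hx h
    show upd d.fl (d.cnt + 1) _ x ≠ 0
    rw [upd_ne _ _ (by omega)]
    exact h

theorem DInsFc_pend {d : D} {ch : ℕ → List ℕ} {l : List ℕ} {Ls : List (List ℕ)} {x : ℕ}
    (h : DRep d ch l Ls) (hx : x ∈ l) :
    Pend (({ d with cnt := d.cnt + 1 } : D).link x (d.cnt + 1)) ch l x (d.cnt + 1) Ls := by
  have hu := h.upper
  have hln : l.Nodup := (List.nodup_append.1 hu.nodup).1
  have hall : ∀ y ∈ l ++ Ls.flatten, 1 ≤ y ∧ y ≤ d.cnt := fun y hy => (h.ids y).1 hy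
  have hl : ∀ y ∈ l, 1 ≤ y ∧ y ≤ d.cnt := fun y hy => hall y (List.mem_append_left _ hy)
  have hLs : ∀ y ∈ Ls.flatten, 1 ≤ y ∧ y ≤ d.cnt := fun y hy => hall y (List.mem_append_right _ hy)
  have he : d.cnt + 1 ∉ l := fun h1 => by have := hl _ h1; omega
  have h0 : 0 ∉ l := fun h1 => by have := hl _ h1; omega
  have hlnk : Lnk d.nx d.pv l := hu.lnk l List.mem_cons_self
  have hdis : ∀ y ∈ Ls.flatten, y ∉ l := fun y hy hy' =>
    (List.nodup_append.1 hu.nodup).2.2 y hy' y hy rfl
  have hother : ∀ L' ∈ Ls, (∀ y ∈ L', (({ d with cnt := d.cnt + 1 } : D).link x (d.cnt + 1)).nx y =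
      d.nx y) ∧ (∀ y ∈ L', (({ d with cnt := d.cnt + 1 } : D).link x (d.cnt + 1)).pv y = d.pv y) := by
    intro L' hL'
    have hm : ∀ y ∈ L', y ∈ Ls.flatten := fun y hy => List.mem_flatten.2 ⟨L', hL', hy⟩
    exact link_other (d := { d with cnt := d.cnt + 1 }) hlnk hx
      (fun h1 => by have := hLs _ (hm _ h1); omega) (fun y hy => hdis y (hm y hy))
      (fun h1 => by have := hLs _ (hm _ h1); omega)
  have hgrp : ∀ g ∈ Ls.flatten, Grp (({ d with cnt := d.cnt + 1 } : D).link x (d.cnt + 1)) ch g :=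
    fun g hg => ⟨(hu.grp g hg).len, (hu.grp g hg).cn, (hu.grp g hg).fi, (hu.grp g hg).up,
      (hu.grp g hg).fl⟩
  have hfle : d.fl (d.cnt + 1) = 0 := (h.fresh _ (by omega)).2.2.2.2.2
  have hnx : d.nx x ≤ d.cnt := by
    obtain ⟨l1, l2, rfl⟩ := List.append_of_mem hx
    cases l2 with
    | nil =>
      rw [lnk_last hlnk]
      omega
    | cons y l3 =>
      rw [(lnk_adj hlnk).1]
      exact (hl y (by simp)).2
  refine ⟨hx, hu.tow, ?_, ?_, ?_, ?_, ?_, ?_, ?_, ?_, ?_, ?_, ?_⟩
  · exact lnk_link (d := { d with cnt := d.cnt + 1 }) hlnk hln hx he h0 (by omega)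
  · intro L' hL'
    exact lnk_congr (hu.lnk L' (List.mem_cons_of_mem _ hL')) (hother L' hL').1 (hother L' hL').2
  · have h1 := link_head (d := { d with cnt := d.cnt + 1 }) hlnk hln hx he h0 (by omega)
      (hu.hd l List.mem_cons_self)
    rw [ins_head] at h1
    exact h1
  · intro L' hL' y hy
    rw [(hother L' hL').2 y (List.mem_of_mem_head? hy)]
    exact hu.hd L' (List.mem_cons_of_mem _ hL') y hy
  · have h1 : (insAfter l x (d.cnt + 1) ++ Ls.flatten).Perm ((d.cnt + 1) :: (l ++ Ls.flatten)) :=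
      (ins_perm hln hx).append_right _
    rw [h1.nodup_iff, List.nodup_cons]
    refine ⟨fun h2 => ?_, hu.nodup⟩
    have := hall _ h2
    omega
  · intro g hg
    have hg' : g ∈ Ls.flatten := by
      cases Ls with
      | nil => simp at hg
      | cons a b =>
        rw [List.flatten_cons]
        exact List.mem_append_left _ hg
    have h1 := hgrp g hg'
    refine ⟨h1.len, h1.cn, h1.fi, h1.up, ?_⟩
    rw [h1.fl]
    constructor
    · rintro ⟨c, hc, hc'⟩
      exact ⟨c, ins_mem.2 (Or.inl hc), hc'⟩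
    · rintro ⟨c, hc, hc'⟩
      rcases ins_mem.1 hc with h2 | ⟨h2, -⟩
      · exact ⟨c, h2, hc'⟩
      · exfalso
        apply hc'
        rw [h2]
        exact hfle
  · intro g hg
    apply hgrp
    cases Ls with
    | nil => simp at hg
    | cons a b =>
      rw [List.flatten_cons]
      exact List.mem_append_right _ hg
  · exact hu.top
  · intro y hy
    show 1 ≤ y ∧ y ≤ d.cnt + 1
    rcases List.mem_append.1 hy with h1 | h1
    · rcases ins_mem.1 h1 with h2 | ⟨h2, -⟩
      · have := hl _ h2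
        omega
      · omega
    · have := hLs _ h1
      omega
  · intro y hy
    have hy' : d.cnt + 1 < y := hy
    obtain ⟨f1, f2, f3⟩ := h.fresh y (by omega)
    have hxc := (hl x hx).2
    refine ⟨?_, ?_, f3⟩
    · show upd (upd d.nx x (d.cnt + 1)) (d.cnt + 1) (d.nx x) y = 0
      rw [upd_ne _ _ (by omega), upd_ne _ _ (by omega)]
      exact f1
    · show upd (upd d.pv (d.cnt + 1) x) (d.nx x) (d.cnt + 1) y = 0
      rw [upd_ne _ _ (by omega), upd_ne _ _ (by omega)]
      exact f2
  · exact h.bit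

theorem insR_det {d : D} {cur nw : ℕ} {d' d'' : D} {t t' : ℕ} (h : InsR d cur nw d' t)
    (h' : InsR d cur nw d'' t') : d' = d'' ∧ t = t' := by
  induction h generalizing d'' t' with
  | root d cur nw h =>
    cases h' with
    | root => exact ⟨rfl, rfl⟩
    | add _ _ _ h1 _ => exact absurd h h1
    | split _ _ _ _ _ h1 _ _ => exact absurd h h1
  | add d cur nw h h2 =>
    cases h' with
    | root _ _ _ h1 => exact absurd h1 h
    | add _ _ _ _ _ => exact ⟨rfl, rfl⟩
    | split _ _ _ _ _ _ h3 _ => exact absurd h2 h3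
  | split d cur nw d' t h h2 h3 ih =>
    cases h' with
    | root _ _ _ h1 => exact absurd h1 h
    | add _ _ _ _ h4 => exact absurd h4 h2
    | split _ _ _ _ _ _ _ h5 =>
      obtain ⟨h6, h7⟩ := ih h5
      exact ⟨h6, by rw [h7]⟩

theorem split_fc {d : D} {ch : ℕ → List ℕ} {l l1 : List ℕ} {cur nw : ℕ} {Ls : List (List ℕ)}
    (h : Pend d ch l cur nw (l1 :: Ls)) (h3 : ¬ d.cn (d.up cur) < 3) :
    d.fc ≤ (d.split (d.up cur) nw).fc := by
  obtain ⟨hg1, hg0, hcur, hch⟩ := split_children h h3
  have hP := h.grp0 (d.up cur) hg1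
  have hgc : d.up cur ≤ d.cnt := by
    refine (h.ids (d.up cur) ?_).2
    rw [List.flatten_cons]
    exact List.mem_append_right _ (List.mem_append_left _ hg1)
  have hfl : (d.split (d.up cur) nw).fl =
      upd (upd d.fl (d.up cur)
        (if 0 < d.fl (d.c1 (d.up cur)) + d.fl (d.c2 (d.up cur)) then 1 else 0)) (d.cnt + 1)
        (if 0 < d.fl (d.c3 (d.up cur)) + d.fl (d.c4 (d.up cur)) then 1 else 0) := rfl
  have hcnt : (d.split (d.up cur) nw).cnt = d.cnt + 1 := rfl
  by_cases hcase : d.fl (d.up cur) ≠ 0 ∧ ¬ 0 < d.fl (d.c1 (d.up cur)) + d.fl (d.c2 (d.up cur))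
  · obtain ⟨hf, h12⟩ := hcase
    have h34 : 0 < d.fl (d.c3 (d.up cur)) + d.fl (d.c4 (d.up cur)) := by
      obtain ⟨c, hc, hc'⟩ := hP.fl.1 hf
      rw [hch] at hc
      simp only [List.mem_cons, List.not_mem_nil, or_false] at hc
      rcases hc with rfl | rfl | rfl | rfl <;> omega
    have hsub : insert (d.cnt + 1) (((Finset.range (d.cnt + 1)).filter
        (fun x => d.fl x ≠ 0)).erase (d.up cur)) ⊆
        (Finset.range ((d.split (d.up cur) nw).cnt + 1)).filter
          (fun x => (d.split (d.up cur) nw).fl x ≠ 0) := by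
      intro x hx
      rw [Finset.mem_filter, Finset.mem_range, hfl, hcnt]
      rw [Finset.mem_insert, Finset.mem_erase, Finset.mem_filter, Finset.mem_range] at hx
      rcases hx with rfl | ⟨hx1, hx2, hx3⟩
      · refine ⟨by omega, ?_⟩
        rw [upd_same, if_pos h34]
        exact one_ne_zero
      · refine ⟨by omega, ?_⟩
        rw [upd_ne _ _ (by omega), upd_ne _ _ hx1]
        exact hx3
    have hcard := Finset.card_le_card hsub
    rw [Finset.card_insert_of_notMem, Finset.card_erase_of_mem] at hcard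
    · unfold D.fc
      omega
    · rw [Finset.mem_filter, Finset.mem_range]
      exact ⟨by omega, hf⟩
    · rw [Finset.mem_erase, Finset.mem_filter, Finset.mem_range]
      omega
  · apply DInsFc_mono
    · rw [hcnt]
      omega
    · intro x hx hx'
      rw [hfl, upd_ne _ _ (by omega)]
      by_cases hxg : x = d.up cur
      · rw [hxg, upd_same, if_pos]
        · exact one_ne_zero
        · by_contra h5
          exact hcase ⟨by rw [← hxg]; exact hx', h5⟩
      · rw [upd_ne _ _ hxg]
        exact hx'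

theorem ins_fc : ∀ (Ls : List (List ℕ)) (d : D) (ch : ℕ → List ℕ) (l : List ℕ) (cur nw : ℕ)
    (d' : D) (t : ℕ), Pend d ch l cur nw Ls → InsR d cur nw d' t → d.fc ≤ d'.fc := by
  intro Ls
  induction Ls with
  | nil =>
    intro d ch l cur nw d' t h h'
    cases h' with
    | root _ _ _ _ => exact DInsFc_root d cur nw
    | add _ _ _ _ _ => exact le_refl _
    | split _ _ _ _ _ h1 _ _ =>
      exfalso
      apply h1
      obtain ⟨x, hx⟩ : ∃ x, l = [x] := h.tow
      have h2 := h.hcur
      rw [hx, List.mem_singleton] at h2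
      rw [h2]
      apply h.top
      rw [hx]
      rfl
  | cons l1 Ls ih =>
    intro d ch l cur nw d' t h h'
    cases h' with
    | root _ _ _ _ => exact DInsFc_root d cur nw
    | add _ _ _ _ _ => exact le_refl _
    | split _ _ _ _ _ _ h2 h3 =>
      exact le_trans (split_fc h h2) (ih _ _ _ _ _ _ _ (split_pend h h2) h3)

theorem insOp_fc {d d' : D} {l : List ℕ} {x t : ℕ} (h : LRep d l) (hx : x ∈ l)
    (h' : InsOp d x d' t) : d.fc ≤ d'.fc := by
  obtain ⟨ch, Ls, hr⟩ := h
  refine le_trans ?_ (ins_fc Ls _ ch l x (d.cnt + 1) d' t (DInsFc_pend hr hx) h')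
  apply DInsFc_mono
  · show d.cnt ≤ d.cnt + 1
    omega
  · intro y _ h2
    exact h2

end ST2
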