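import Pool.Agent.helper32.ST.DSplitB

/-!
# ST2-DSplitC : from the result for the next level to the result for this level

Author of the proof: helper59.

d1 = d.split g nw (g = up cur), ch1 as in DSplitB.  Given PendOut d1 d' ch1 ch' l1 g (cnt+1) Ls Ls'
we get PendOut d d' ch ch' l cur nw (l1 :: Ls) (insAfter l1 g (cnt+1) :: Ls').
* tow: insAfter l cur nw = l1.flatMap (insAfter (ch g') cur nw) = (insAfter l1 g g2).flatMap ch' : for
  g' <> g in l1: ch' g' = ch1 g' = ch g' (PendOut.hch: g' <= d1.cnt, g' not in Ls.flatten by nodup), cur is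
  not in ch g'; for g: [c1,c2] ++ [c3,c4] = insAfter (ch g) cur nw (split_children); ch' g2 = ch1 g2.
* grp for g' in insAfter l1 g g2: cn, fi, fl of g' and of its children, up of the children are those of d1
  (PendOut.cn ...; the children are <= d.cnt, not in Ls.flatten and not in insAfter l1 g g2), and in d1:
  GrpP of d for g' <> g; for g and g2 by the definition of split (flags 0 < fl c1 + fl c2).
* lnk of insAfter l cur nw: nx, pv of its members unchanged in d1 (link_other) and in d' (PendOut.nx, pv).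
* frame fields: for y <= d.cnt not in (l1 :: Ls).flatten: first d1 versus d, then d' versus d1.
-/

namespace ST2

theorem DSplitC_sub (l : List ℕ) (x e : ℕ) : l.Sublist (insAfter l x e) := by
  induction l with
  | nil => exact List.nil_sublist _
  | cons y l ih =>
    have h1 : insAfter (y :: l) x e = (if y = x then [x, e] else [y]) ++ insAfter l x e :=
      List.flatMap_cons
    have h2 : y :: l = [y] ++ l := rfl
    rw [h1, h2]
    refine List.Sublist.append ?_ ih
    by_cases h : y = x
    · rw [if_pos h, h]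
      exact List.Sublist.cons_cons _ (List.nil_sublist _)
    · rw [if_neg h]

theorem split_out {d d' : D} {ch ch' : ℕ → List ℕ} {l l1 : List ℕ} {cur nw : ℕ}
    {Ls Ls' : List (List ℕ)}
    (h : Pend d ch l cur nw (l1 :: Ls)) (h3 : ¬ d.cn (d.up cur) < 3)
    (ho : PendOut (d.split (d.up cur) nw) d' (ch1 d ch (d.up cur)) ch' l1 (d.up cur) (d.cnt + 1)
      Ls Ls') :
    PendOut d d' ch ch' l cur nw (l1 :: Ls) (insAfter l1 (d.up cur) (d.cnt + 1) :: Ls') := by
  obtain ⟨hg1, hg0, hcg, hins⟩ := split_children h h3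
  obtain ⟨g, hg⟩ : ∃ g, g = d.up cur := ⟨_, rfl⟩
  rw [← hg] at hg1 hg0 hcg hins h3 ho ⊢
  obtain ⟨g2, hg2⟩ : ∃ g2, g2 = d.cnt + 1 := ⟨_, rfl⟩
  rw [← hg2] at ho ⊢
  -- the basic facts
  have hl : l = l1.flatMap ch := h.tow.1
  have hnd := h.nodup
  have hids := h.ids
  rw [List.flatten_cons] at hnd hids
  have hnd1 := List.nodup_append.1 hnd
  have hnd2 := List.nodup_append.1 hnd1.2.1
  have hI : ∀ x ∈ insAfter l cur nw, 1 ≤ x ∧ x ≤ d.cnt := fun x hx =>
    hids x (List.mem_append.2 (Or.inl hx))
  have hI1 : ∀ x ∈ l1, 1 ≤ x ∧ x ≤ d.cnt := fun x hx =>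
    hids x (List.mem_append.2 (Or.inr (List.mem_append.2 (Or.inl hx))))
  have hIs : ∀ x ∈ Ls.flatten, 1 ≤ x ∧ x ≤ d.cnt := fun x hx =>
    hids x (List.mem_append.2 (Or.inr (List.mem_append.2 (Or.inr hx))))
  have hdis1 : ∀ x ∈ insAfter l cur nw, x ∉ l1 := fun x hx hx1 =>
    hnd1.2.2 x hx x (List.mem_append.2 (Or.inl hx1)) rfl
  have hdiss : ∀ x ∈ insAfter l cur nw, x ∉ Ls.flatten := fun x hx hx1 =>
    hnd1.2.2 x hx x (List.mem_append.2 (Or.inr hx1)) rfl
  have hdis2 : ∀ x ∈ l1, x ∉ Ls.flatten := fun x hx hx1 => hnd2.2.2 x hx x hx1 rfl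
  have hdisg : ∀ x ∈ insAfter l cur nw, x ∉ insAfter l1 g g2 := by
    intro x hx hx1
    rcases ins_mem.1 hx1 with h4 | ⟨h4, -⟩
    · exact hdis1 x hx h4
    · have := (hI x hx).2
      omega
  have hlnd : l.Nodup := (DSplitC_sub l cur nw).nodup hnd1.1
  have hnwl : nw ∉ l := by
    have h4 := (ins_perm hlnd h.hcur (e := nw)).nodup_iff.1 hnd1.1
    exact (List.nodup_cons.1 h4).1
  have hlin : ∀ x ∈ l, x ∈ insAfter l cur nw := fun x hx => ins_mem.2 (Or.inl hx)
  have hnwin : nw ∈ insAfter l cur nw := ins_mem.2 (Or.inr ⟨rfl, h.hcur⟩)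
  have hchl : ∀ y ∈ l1, ∀ c ∈ ch y, c ∈ l := by
    intro y hy c hc
    rw [hl]
    exact List.mem_flatMap.2 ⟨y, hy, hc⟩
  have hgrp0 : ∀ y ∈ l1, GrpP d ch cur nw y := fun y hy => h.grp0 y hy
  have hcurn : ∀ y ∈ l1, y ≠ g → cur ∉ ch y := by
    intro y hy hne hc
    apply hne
    rw [hg]
    exact ((hgrp0 y hy).up cur hc).symm
  have hg2l : g2 ∉ Ls.flatten := fun h4 => by
    have := (hIs g2 h4).2
    omega
  have hgg2 : g ≠ g2 := by
    have := (hI1 g hg1).2
    omega
  -- the four children
  obtain ⟨c1, hc1⟩ : ∃ c, c = d.c1 g := ⟨_, rfl⟩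
  obtain ⟨c2, hc2⟩ : ∃ c, c = d.c2 g := ⟨_, rfl⟩
  obtain ⟨c3, hc3⟩ : ∃ c, c = d.c3 g := ⟨_, rfl⟩
  obtain ⟨c4, hc4⟩ : ∃ c, c = d.c4 g := ⟨_, rfl⟩
  rw [← hc1, ← hc2, ← hc3, ← hc4] at hins
  have hinsl : insAfter l cur nw = l1.flatMap (fun y => insAfter (ch y) cur nw) := by
    rw [hl]
    exact ins_flatMap
  have hsub4 : ∀ c ∈ [c1, c2, c3, c4], c ∈ insAfter l cur nw := by
    intro c hc
    rw [hinsl]
    refine List.mem_flatMap.2 ⟨g, hg1, ?_⟩
    rw [hins]
    exact hc
  have hnd4 : [c1, c2, c3, c4].Nodup := by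
    rw [← hins]
    have h4 := hnd1.1
    rw [hinsl] at h4
    exact (List.nodup_flatMap.1 h4).1 g hg1
  have hup4 : ∀ c ∈ [c1, c2, c3, c4], c ≠ nw → d.up c = g := by
    intro c hc hne
    rw [← hins] at hc
    rcases ins_mem.1 hc with h4 | ⟨h4, -⟩
    · exact (hgrp0 g hg1).up c h4
    · exact absurd h4 hne
  simp only [List.nodup_cons, List.mem_cons, List.not_mem_nil, or_false, not_or, List.nodup_nil,
    and_true, not_false_eq_true] at hnd4
  obtain ⟨⟨h12, h13, h14⟩, ⟨h23, h24⟩, h34⟩ := hnd4
  -- the fields of the split structure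
  obtain ⟨d1, hd1⟩ : ∃ d1, d1 = d.split g nw := ⟨_, rfl⟩
  rw [← hd1] at ho
  have e_up : ∀ y, d1.up y = upd (upd (upd d.up nw g) c3 g2) c4 g2 y := by
    intro y
    rw [hd1, hc3, hc4, hg2]
    rfl
  have e_fi : ∀ y, d1.fi y = upd d.fi g2 c3 y := by
    intro y
    rw [hd1, hc3, hg2]
    rfl
  have e_cn : ∀ y, d1.cn y = upd (upd d.cn g 2) g2 2 y := by
    intro y
    rw [hd1, hg2]
    rfl
  have e_fl : ∀ y, d1.fl y = upd (upd d.fl g (if 0 < d.fl c1 + d.fl c2 then 1 else 0)) g2
      (if 0 < d.fl c3 + d.fl c4 then 1 else 0) y := by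
    intro y
    rw [hd1, hc1, hc2, hc3, hc4, hg2]
    rfl
  have e_cnt : d1.cnt = g2 := by
    rw [hd1, hg2]
    rfl
  have e_link : ∀ y, y ≠ 0 → y ≠ g2 → y ∉ l1 → d1.nx y = d.nx y ∧ d1.pv y = d.pv y := by
    intro y hy0 hyg2 hyl1
    let d0 : D := { d with up := upd (upd (upd d.up nw g) (d.c3 g) (d.cnt + 1)) (d.c4 g) (d.cnt + 1),
                           fi := upd d.fi (d.cnt + 1) (d.c3 g),
                           cn := upd (upd d.cn g 2) (d.cnt + 1) 2,
                           fl := upd (upd d.fl g (if 0 < d.fl (d.c1 g) + d.fl (d.c2 g) then 1 else 0))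
                             (d.cnt + 1) (if 0 < d.fl (d.c3 g) + d.fl (d.c4 g) then 1 else 0),
                           cnt := d.cnt + 1 }
    have h4 : d1 = d0.link g (d.cnt + 1) := hd1
    have h5 := link_other (d := d0) (l := l1) (l' := [y]) (x := g) (e := d.cnt + 1)
      (h.lnk l1 List.mem_cons_self) hg1 (by
        rw [List.mem_singleton]
        omega) (by
        intro z hz
        rw [List.mem_singleton.1 hz]
        exact hyl1) (by
        rw [List.mem_singleton]
        omega)
    rw [h4]
    exact ⟨h5.1 y (List.mem_singleton.2 rfl), h5.2 y (List.mem_singleton.2 rfl)⟩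
  -- transfer to the final structure
  have t_nx : ∀ y ∈ insAfter l cur nw, d'.nx y = d.nx y ∧ d'.pv y = d.pv y := by
    intro y hy
    have h4 := hI y hy
    have h5 := e_link y (by omega) (by omega) (hdis1 y hy)
    rw [ho.nx y h4.1 (by rw [e_cnt]; omega) (hdiss y hy),
      ho.pv y h4.1 (by rw [e_cnt]; omega) (hdiss y hy)]
    exact h5
  have t_fl : ∀ y ∈ insAfter l cur nw, d'.fl y = d.fl y := by
    intro y hy
    have h4 := hI y hy
    rw [ho.fl y (by rw [e_cnt]; omega) (hdiss y hy), e_fl, upd_ne _ _ (by omega), upd_ne]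
    intro h5
    rw [h5] at hy
    exact hdis1 g hy hg1
  have t_up : ∀ y ∈ insAfter l cur nw, d'.up y = upd (upd (upd d.up nw g) c3 g2) c4 g2 y := by
    intro y hy
    have h4 := hI y hy
    rw [ho.up y (by rw [e_cnt]; omega) (hdiss y hy) (hdisg y hy), e_up]
  have hch' : ∀ y ∈ l1, y ≠ g → ch' y = ch y := by
    intro y hy hne
    have h4 := hI1 y hy
    rw [ho.hch y (by rw [e_cnt]; omega) (hdis2 y hy)]
    unfold ch1
    rw [if_neg (by omega), if_neg hne]
  have hch'g : ch' g = [c1, c2] := by
    have h4 := hI1 g hg1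
    rw [ho.hch g (by rw [e_cnt]; omega) (hdis2 g hg1)]
    unfold ch1
    rw [if_neg (by omega), if_pos rfl, hc1, hc2]
  have hch'g2 : ch' g2 = [c3, c4] := by
    rw [ho.hch g2 (by rw [e_cnt]) hg2l]
    unfold ch1
    rw [if_pos hg2, hc3, hc4]
  have hm1 : ∀ y, y ∈ insAfter l1 g g2 ↔ y ∈ l1 ∨ y = g2 := by
    intro y
    rw [ins_mem]
    constructor
    · rintro (h4 | ⟨h4, -⟩)
      · exact Or.inl h4
      · exact Or.inr h4
    · rintro (h4 | h4)
      · exact Or.inl h4
      · exact Or.inr ⟨h4, hg1⟩
  have hcnt' : g2 ≤ d'.cnt := by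
    have := ho.cnt
    rw [e_cnt] at this
    exact this
  refine ⟨⟨⟨?_, ho.upper.tow⟩, ?_, ?_, ?_, ?_, ?_⟩, ?_, ?_, ?_, ?_, ?_, ?_, ?_, ?_, ?_, ho.fresh,
    ho.bit⟩
  · -- tow
    rw [hinsl]
    unfold insAfter
    rw [List.flatMap_assoc]
    refine List.flatMap_congr ?_
    intro y hy
    change insAfter (ch y) cur nw = (if y = g then [g, g2] else [y]).flatMap ch'
    by_cases hyg : y = g
    · rw [if_pos hyg, hyg, hins]
      simp only [List.flatMap_cons, List.flatMap_nil, List.append_nil, hch'g, hch'g2,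
        List.cons_append, List.nil_append]
    · rw [if_neg hyg, ins_notMem (hcurn y hy hyg)]
      simp only [List.flatMap_cons, List.flatMap_nil, List.append_nil]
      rw [hch' y hy hyg]
  · -- lnk
    intro L' hL'
    rcases List.mem_cons.1 hL' with h4 | h4
    · rw [h4]
      exact lnk_congr h.lnk0 (fun x hx => (t_nx x hx).1) (fun x hx => (t_nx x hx).2)
    · exact ho.upper.lnk L' h4
  · -- hd
    intro L' hL' x hx
    rcases List.mem_cons.1 hL' with h4 | h4
    · rw [h4] at hx
      have h5 : x ∈ insAfter l cur nw := List.mem_of_mem_head? hx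
      rw [(t_nx x h5).2]
      rw [ins_head] at hx
      exact h.hd0 x hx
    · exact ho.upper.hd L' h4 x hx
  · -- nodup
    rw [List.flatten_cons]
    refine List.nodup_append.2 ⟨hnd1.1, ho.upper.nodup, ?_⟩
    intro x hx y hy hxy
    subst hxy
    rcases List.mem_append.1 hy with h4 | h4
    · exact hdisg x hx h4
    · rcases (ho.ids x).1 h4 with h5 | ⟨h5, -⟩
      · exact hdiss x hx h5
      · rw [e_cnt] at h5
        have := (hI x hx).2
        omega
  · -- grp
    intro y hy
    rw [List.flatten_cons] at hy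
    rcases List.mem_append.1 hy with h4 | h4
    · rcases (hm1 y).1 h4 with h5 | h5
      · by_cases hyg : y = g
        · rw [hyg]
          have h6 := hI1 g hg1
          have e1 : d'.cn g = 2 := by
            rw [ho.cn g (by rw [e_cnt]; omega) (hdis2 g hg1), e_cn, upd_ne _ _ hgg2, upd_same]
          have e2 : d'.fi g = c1 := by
            rw [ho.fi g (by rw [e_cnt]; omega) (hdis2 g hg1), e_fi, upd_ne _ _ hgg2, hc1]
            rfl
          have e3 : d'.fl g = if 0 < d.fl c1 + d.fl c2 then 1 else 0 := by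
            rw [ho.fl g (by rw [e_cnt]; omega) (hdis2 g hg1), e_fl, upd_ne _ _ hgg2, upd_same]
          refine ⟨?_, ?_, ?_, ?_, ?_⟩
          · rw [hch'g]
            exact Or.inl rfl
          · rw [hch'g, e1]
            rfl
          · rw [hch'g, e2]
            rfl
          · rw [hch'g]
            intro c hc
            have hc' : c = c1 ∨ c = c2 := by simpa using hc
            have hc4' : c ∈ [c1, c2, c3, c4] := by
              rcases hc' with h7 | h7 <;> rw [h7] <;> simp
            rw [t_up c (hsub4 c hc4')]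
            have h8 : c ≠ c4 := by rcases hc' with h7 | h7 <;> rw [h7] <;> assumption
            have h9 : c ≠ c3 := by rcases hc' with h7 | h7 <;> rw [h7] <;> assumption
            rw [upd_ne _ _ h8, upd_ne _ _ h9]
            by_cases h10 : c = nw
            · rw [h10, upd_same]
            · rw [upd_ne _ _ h10]
              exact hup4 c hc4' h10
          · rw [hch'g, e3]
            simp only [List.mem_cons, List.not_mem_nil, or_false, exists_eq_or_imp, exists_eq_left]
            rw [t_fl c1 (hsub4 c1 (by simp)), t_fl c2 (hsub4 c2 (by simp))]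
            split_ifs with h7 <;> omega
        · have h6 := hI1 y h5
          have hG := hgrp0 y h5
          have hcy := hcurn y h5 hyg
          have e1 : d'.cn y = d.cn y := by
            rw [ho.cn y (by rw [e_cnt]; omega) (hdis2 y h5), e_cn, upd_ne _ _ (by omega),
              upd_ne _ _ hyg]
          have e2 : d'.fi y = d.fi y := by
            rw [ho.fi y (by rw [e_cnt]; omega) (hdis2 y h5), e_fi, upd_ne _ _ (by omega)]
          have e3 : d'.fl y = d.fl y := by
            rw [ho.fl y (by rw [e_cnt]; omega) (hdis2 y h5), e_fl, upd_ne _ _ (by omega),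
              upd_ne _ _ hyg]
          refine ⟨?_, ?_, ?_, ?_, ?_⟩
          · rw [hch' y h5 hyg]
            exact hG.len
          · rw [hch' y h5 hyg, e1]
            exact hG.cn
          · rw [hch' y h5 hyg, e2]
            exact hG.fi
          · rw [hch' y h5 hyg]
            intro c hc
            have h7 := hchl y h5 c hc
            rw [t_up c (hlin c h7)]
            have h8 : d.up c = y := hG.up c hc
            have h9 : c ≠ nw := by
              intro h10
              rw [h10] at h7
              exact hnwl h7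
            have h10 : c ∉ [c1, c2, c3, c4] := by
              intro h11
              have h12 := hup4 c h11 h9
              exact hyg (h8.symm.trans h12)
            simp only [List.mem_cons, List.not_mem_nil, or_false, not_or] at h10
            rw [upd_ne _ _ h10.2.2.2, upd_ne _ _ h10.2.2.1, upd_ne _ _ h9]
            exact h8
          · rw [hch' y h5 hyg, e3, hG.fl, ins_notMem hcy]
            constructor
            · rintro ⟨c, hc, h7⟩
              exact ⟨c, hc, by rw [t_fl c (hlin c (hchl y h5 c hc))]; exact h7⟩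
            · rintro ⟨c, hc, h7⟩
              exact ⟨c, hc, by rw [t_fl c (hlin c (hchl y h5 c hc))] at h7; exact h7⟩
      · rw [h5]
        have e1 : d'.cn g2 = 2 := by
          rw [ho.cn g2 (by rw [e_cnt]) hg2l, e_cn, upd_same]
        have e2 : d'.fi g2 = c3 := by
          rw [ho.fi g2 (by rw [e_cnt]) hg2l, e_fi, upd_same]
        have e3 : d'.fl g2 = if 0 < d.fl c3 + d.fl c4 then 1 else 0 := by
          rw [ho.fl g2 (by rw [e_cnt]) hg2l, e_fl, upd_same]
        refine ⟨?_, ?_, ?_, ?_, ?_⟩
        · rw [hch'g2]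
          exact Or.inl rfl
        · rw [hch'g2, e1]
          rfl
        · rw [hch'g2, e2]
          rfl
        · rw [hch'g2]
          intro c hc
          have hc' : c = c3 ∨ c = c4 := by simpa using hc
          have hc4' : c ∈ [c1, c2, c3, c4] := by
            rcases hc' with h7 | h7 <;> rw [h7] <;> simp
          rw [t_up c (hsub4 c hc4')]
          rcases hc' with h7 | h7
          · rw [h7, upd_ne _ _ h34, upd_same]
          · rw [h7, upd_same]
        · rw [hch'g2, e3]
          simp only [List.mem_cons, List.not_mem_nil, or_false, exists_eq_or_imp, exists_eq_left]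
          rw [t_fl c3 (hsub4 c3 (by simp)), t_fl c4 (hsub4 c4 (by simp))]
          split_ifs with h7 <;> omega
    · exact ho.upper.grp y h4
  · -- top
    intro x hx
    rw [List.getLast?_cons_cons] at hx
    exact ho.upper.top x hx
  · -- cnt
    omega
  · -- ids
    intro x
    rw [List.flatten_cons, List.flatten_cons, List.mem_append, List.mem_append, hm1, ho.ids, e_cnt]
    constructor
    · rintro ((h4 | h4) | (h4 | h4))
      · exact Or.inl (Or.inl h4)
      · right
        omega
      · exact Or.inl (Or.inr h4)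
      · right
        omega
    · rintro ((h4 | h4) | h4)
      · exact Or.inl (Or.inl h4)
      · exact Or.inr (Or.inl h4)
      · by_cases h5 : x = g2
        · exact Or.inl (Or.inr h5)
        · right
          right
          omega
  · -- hch
    intro y hy hyn
    rw [List.flatten_cons, List.mem_append, not_or] at hyn
    rw [ho.hch y (by rw [e_cnt]; omega) hyn.2]
    unfold ch1
    rw [if_neg (by omega), if_neg (fun h4 => hyn.1 (by rw [h4]; exact hg1))]
  · -- nx
    intro y hy1 hy hyn
    rw [List.flatten_cons, List.mem_append, not_or] at hyn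
    rw [ho.nx y hy1 (by rw [e_cnt]; omega) hyn.2]
    exact (e_link y (by omega) (by omega) hyn.1).1
  · -- pv
    intro y hy1 hy hyn
    rw [List.flatten_cons, List.mem_append, not_or] at hyn
    rw [ho.pv y hy1 (by rw [e_cnt]; omega) hyn.2]
    exact (e_link y (by omega) (by omega) hyn.1).2
  · -- fi
    intro y hy hyn
    rw [List.flatten_cons, List.mem_append, not_or] at hyn
    rw [ho.fi y (by rw [e_cnt]; omega) hyn.2, e_fi, upd_ne _ _ (by omega)]
  · -- cn
    intro y hy hyn
    rw [List.flatten_cons, List.mem_append, not_or] at hyn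
    rw [ho.cn y (by rw [e_cnt]; omega) hyn.2, e_cn, upd_ne _ _ (by omega),
      upd_ne _ _ (fun h4 => hyn.1 (by rw [h4]; exact hg1))]
  · -- fl
    intro y hy hyn
    rw [List.flatten_cons, List.mem_append, not_or] at hyn
    rw [ho.fl y (by rw [e_cnt]; omega) hyn.2, e_fl, upd_ne _ _ (by omega),
      upd_ne _ _ (fun h4 => hyn.1 (by rw [h4]; exact hg1))]
  · -- up
    intro y hy hyn hyi
    rw [List.flatten_cons, List.mem_append, not_or] at hyn
    have h4 : y ∉ insAfter l1 g g2 := by
      rw [hm1]
      rintro (h5 | h5)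
      · exact hyn.1 h5
      · omega
    rw [ho.up y (by rw [e_cnt]; omega) hyn.2 h4, e_up]
    have h5 : y ≠ c4 := fun h6 => hyi (by rw [h6]; exact hsub4 c4 (by simp))
    have h6 : y ≠ c3 := fun h7 => hyi (by rw [h7]; exact hsub4 c3 (by simp))
    have h7 : y ≠ nw := fun h8 => hyi (by rw [h8]; exact hnwin)
    rw [upd_ne _ _ h5, upd_ne _ _ h6, upd_ne _ _ h7]

end ST2
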