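import Pool.Agent.helper32.ST.DRoot
import Pool.Agent.helper32.ST.DAdd
import Pool.Agent.helper32.ST.DSplitC

/-!
# ST2-DInsLoop : the insertion loop terminates with a correct structure

Induction on Ls, generalizing everything: Ls = [] ins_root; Ls = l1 :: Ls: if cn (up cur) < 3 ins_add,
otherwise split_pend, the induction hypothesis and split_out, with InsR.split (up cur <> 0 by
split_children).  `insR_cnt` by induction on InsR (newRoot: cnt+1; add: cnt; split: (d.split ..).cnt = cnt+1).
-/

namespace ST2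

theorem ins_loop : ∀ (Ls : List (List ℕ)) (d : D) (ch : ℕ → List ℕ) (l : List ℕ) (cur nw : ℕ),
    Pend d ch l cur nw Ls →
    ∃ d' t ch' Ls', InsR d cur nw d' t ∧ PendOut d d' ch ch' l cur nw Ls Ls' := by
  intro Ls
  induction Ls with
  | nil =>
    intro d ch l cur nw h
    obtain ⟨d', ch', Ls', h1, h2⟩ := ins_root h
    exact ⟨d', 1, ch', Ls', h1, h2⟩
  | cons l1 Ls ih =>
    intro d ch l cur nw h
    by_cases h3 : d.cn (d.up cur) < 3
    · obtain ⟨d', ch', Ls', h1, h2⟩ := ins_add h h3
      exact ⟨d', 1, ch', Ls', h1, h2⟩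
    · have hp := split_pend h h3
      obtain ⟨d', t, ch', Ls', h1, h2⟩ := ih _ _ _ _ _ hp
      obtain ⟨_, hne, _, _⟩ := split_children h h3
      exact ⟨d', t + 1, ch', _, InsR.split d cur nw d' t hne h3 h1, split_out h h3 h2⟩

theorem insR_cnt {d : D} {cur nw : ℕ} {d' : D} {t : ℕ} (h : InsR d cur nw d' t) :
    d.cnt ≤ d'.cnt ∧ t ≤ 1 + (d'.cnt - d.cnt) := by
  induction h with
  | root d cur nw h => simp [D.newRoot]
  | add d cur nw h h2 => simp [D.addTo]
  | split d cur nw d' t h h2 h3 ih =>
    have hc : (d.split (d.up cur) nw).cnt = d.cnt + 1 := by simp [D.split, D.link]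
    rw [hc] at ih
    omega

end ST2
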