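import Pool.Agent.helper32.ST.DInsLoop

/-!
# ST2-DInsOp : inserting an element

Given DRep d ch l Ls and x in l, e = cnt+1: the state after `cnt := cnt+1; link x e` is pending:
Pend d1 ch l x e Ls (lnk_link, link_other, link_head; fl e = 0, up e = 0 by fresh; the flags of
the groups: insAfter (ch g) x e only adds e with fl e = 0; e is new because ids).  Apply ins_loop.  From
PendOut: ids: x in insAfter l x e ++ Ls'.flatten iff 1 <= x <= d'.cnt.  leaf: cn unchanged for the
members of l (not in Ls.flatten, nodup), cn e = 0 (cn d1 e = cn d e = 0).  up0: index 0 is not in Ls.flatten,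
not in insAfter.  bit and fresh from PendOut.
Flags of elements unchanged: PendOut.fl.
-/

namespace ST2

theorem DInsOp_pend {d : D} {ch : ℕ → List ℕ} {l : List ℕ} {Ls : List (List ℕ)} {x : ℕ}
    (h : DRep d ch l Ls) (hx : x ∈ l) :
    Pend (({ d with cnt := d.cnt + 1 } : D).link x (d.cnt + 1)) ch l x (d.cnt + 1) Ls := by
  have hnd := List.nodup_append.1 h.upper.nodup
  have hidl : ∀ y ∈ l, 1 ≤ y ∧ y ≤ d.cnt := fun y hy => (h.ids y).1 (List.mem_append_left _ hy)
  have hidL : ∀ y ∈ Ls.flatten, 1 ≤ y ∧ y ≤ d.cnt := fun y hy =>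
    (h.ids y).1 (List.mem_append_right _ hy)
  have hel : d.cnt + 1 ∉ l := fun hc => by have := (hidl _ hc).2; omega
  have heL : d.cnt + 1 ∉ Ls.flatten := fun hc => by have := (hidL _ hc).2; omega
  have h0l : 0 ∉ l := fun hc => by have := (hidl _ hc).1; omega
  have h0L : 0 ∉ Ls.flatten := fun hc => by have := (hidL _ hc).1; omega
  have hlnk : Lnk ({ d with cnt := d.cnt + 1 } : D).nx ({ d with cnt := d.cnt + 1 } : D).pv l :=
    h.upper.lnk l (by simp)
  have hmem : ∀ L' ∈ Ls, ∀ y ∈ L', y ∈ Ls.flatten := fun L' hL' y hy =>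
    List.mem_flatten.2 ⟨L', hL', hy⟩
  have hoth : ∀ L' ∈ Ls, (∀ y ∈ L', (({ d with cnt := d.cnt + 1 } : D).link x (d.cnt + 1)).nx y =
      d.nx y) ∧ (∀ y ∈ L', (({ d with cnt := d.cnt + 1 } : D).link x (d.cnt + 1)).pv y = d.pv y) := by
    intro L' hL'
    exact link_other hlnk hx (fun hc => heL (hmem L' hL' _ hc))
      (fun y hy hyl => hnd.2.2 y hyl y (hmem L' hL' y hy) rfl) (fun hc => h0L (hmem L' hL' _ hc))
  have hnx : d.nx x = 0 ∨ d.nx x ∈ l := by
    obtain ⟨l1, l2, rfl⟩ := List.append_of_mem hx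
    rcases DLnk_nx hlnk with ⟨-, hx'⟩ | ⟨y, l3, rfl, hy, -⟩
    · exact Or.inl hx'
    · right
      rw [show d.nx x = y from hy]
      simp
  refine ⟨hx, h.upper.tow, ?_, ?_, ?_, ?_, ?_, ?_, ?_, h.upper.top, ?_, ?_, h.bit⟩
  · exact lnk_link hlnk hnd.1 hx hel h0l (by omega)
  · intro L' hL'
    exact lnk_congr (h.upper.lnk L' (List.mem_cons_of_mem _ hL')) (hoth L' hL').1 (hoth L' hL').2
  · have := link_head hlnk hnd.1 hx hel h0l (e := d.cnt + 1) (by omega)
      (fun y hy => h.upper.hd l (by simp) y hy)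
    rwa [ins_head] at this
  · intro L' hL' y hy
    rw [(hoth L' hL').2 y (List.mem_of_mem_head? hy)]
    exact h.upper.hd L' (List.mem_cons_of_mem _ hL') y hy
  · have hp : (insAfter l x (d.cnt + 1) ++ Ls.flatten).Perm ((d.cnt + 1) :: (l ++ Ls.flatten)) :=
      (ins_perm hnd.1 hx).append_right _
    rw [hp.nodup_iff, List.nodup_cons]
    refine ⟨fun hc => ?_, h.upper.nodup⟩
    rcases List.mem_append.1 hc with h1 | h1
    · exact hel h1
    · exact heL h1
  · intro g hg
    have hgL : g ∈ Ls.flatten := by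
      cases Ls with
      | nil => simp at hg
      | cons l1 Ls => exact List.mem_flatten.2 ⟨l1, by simp, by simpa using hg⟩
    have G := h.upper.grp g hgL
    refine ⟨G.len, G.cn, G.fi, G.up, ?_⟩
    show d.fl g ≠ 0 ↔ ∃ c ∈ insAfter (ch g) x (d.cnt + 1), d.fl c ≠ 0
    rw [G.fl]
    constructor
    · rintro ⟨c, hc, hc2⟩
      exact ⟨c, ins_mem.2 (Or.inl hc), hc2⟩
    · rintro ⟨c, hc, hc2⟩
      rcases ins_mem.1 hc with h1 | ⟨h1, -⟩
      · exact ⟨c, h1, hc2⟩
      · exfalso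
        apply hc2
        rw [h1]
        exact (h.fresh _ (by omega)).2.2.2.2.2
  · intro g hg
    have hgL : g ∈ Ls.flatten := by
      cases Ls with
      | nil => simp at hg
      | cons l1 Ls =>
        rw [List.flatten_cons]
        exact List.mem_append_right _ hg
    have G := h.upper.grp g hgL
    exact ⟨G.len, G.cn, G.fi, G.up, G.fl⟩
  · intro y hy
    show 1 ≤ y ∧ y ≤ d.cnt + 1
    rcases List.mem_append.1 hy with h1 | h1
    · rcases ins_mem.1 h1 with h2 | ⟨h2, -⟩
      · have := hidl y h2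
        omega
      · omega
    · have := hidL y h1
      omega
  · intro y hy
    have hy' : d.cnt + 1 < y := hy
    have hf := h.fresh y (by omega)
    have hye : y ≠ d.cnt + 1 := by omega
    have hyx : y ≠ x := by
      have := (hidl x hx).2
      omega
    have hyn : y ≠ d.nx x := by
      rcases hnx with h1 | h1
      · omega
      · have := (hidl _ h1).2
        omega
    refine ⟨?_, ?_, hf.2.2.1, hf.2.2.2.1, hf.2.2.2.2.1, hf.2.2.2.2.2⟩
    · show upd (upd d.nx x (d.cnt + 1)) (d.cnt + 1) (d.nx x) y = 0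
      rw [upd_ne _ _ hye, upd_ne _ _ hyx]
      exact hf.1
    · show upd (upd d.pv (d.cnt + 1) x) (d.nx x) (d.cnt + 1) y = 0
      rw [upd_ne _ _ hyn, upd_ne _ _ hye]
      exact hf.2.1

theorem ins_op {d : D} {l : List ℕ} {x : ℕ} (h : LRep d l) (hx : x ∈ l) :
    ∃ d' t, InsOp d x d' t ∧ LRep d' (insAfter l x (d.cnt + 1)) ∧ d.cnt + 1 ∉ l ∧
      (∀ y ∈ l, d'.fl y = d.fl y) ∧ d'.fl (d.cnt + 1) = 0 ∧ d.cnt + 1 ≤ d'.cnt ∧
      t ≤ d'.cnt - d.cnt := by
  obtain ⟨ch, Ls, h⟩ := h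
  have hnd := List.nodup_append.1 h.upper.nodup
  have hidl : ∀ y ∈ l, 1 ≤ y ∧ y ≤ d.cnt := fun y hy => (h.ids y).1 (List.mem_append_left _ hy)
  have hidL : ∀ y ∈ Ls.flatten, 1 ≤ y ∧ y ≤ d.cnt := fun y hy =>
    (h.ids y).1 (List.mem_append_right _ hy)
  have hel : d.cnt + 1 ∉ l := fun hc => by have := (hidl _ hc).2; omega
  have heL : d.cnt + 1 ∉ Ls.flatten := fun hc => by have := (hidL _ hc).2; omega
  have h0l : 0 ∉ l := fun hc => by have := (hidl _ hc).1; omega
  have h0L : 0 ∉ Ls.flatten := fun hc => by have := (hidL _ hc).1; omega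
  have hlL : ∀ y ∈ l, y ∉ Ls.flatten := fun y hy hyL => hnd.2.2 y hy y hyL rfl
  obtain ⟨d', t, ch', Ls', hins, out⟩ := ins_loop Ls _ ch l x (d.cnt + 1) (DInsOp_pend h hx)
  have hcnt : d.cnt + 1 ≤ d'.cnt := out.cnt
  have hf := h.fresh (d.cnt + 1) (by omega)
  refine ⟨d', t, hins, ⟨ch', Ls', ?_⟩, hel, ?_, ?_, hcnt, ?_⟩
  · refine ⟨out.upper, ?_, ?_, ?_, out.fresh, ?_, out.bit⟩
    · intro y
      have h1 : y ∈ Ls'.flatten ↔ y ∈ Ls.flatten ∨ (d.cnt + 1 < y ∧ y ≤ d'.cnt) := out.ids y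
      have h2 := h.ids y
      rw [List.mem_append] at h2 ⊢
      rw [ins_mem, h1]
      constructor
      · rintro ((h3 | ⟨h3, -⟩) | (h3 | h3))
        · have := h2.1 (Or.inl h3)
          omega
        · omega
        · have := h2.1 (Or.inr h3)
          omega
        · omega
      · rintro ⟨h3, h4⟩
        rcases Nat.lt_or_ge d.cnt y with h5 | h5
        · rcases Nat.lt_or_ge (d.cnt + 1) y with h6 | h6
          · exact Or.inr (Or.inr ⟨h6, h4⟩)
          · exact Or.inl (Or.inr ⟨by omega, hx⟩)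
        · rcases h2.2 ⟨h3, h5⟩ with h6 | h6
          · exact Or.inl (Or.inl h6)
          · exact Or.inr (Or.inl h6)
    · intro y hy
      rcases ins_mem.1 hy with h1 | ⟨h1, -⟩
      · have h3 : d'.cn y = d.cn y := out.cn y (by have := (hidl y h1).2; show y ≤ d.cnt + 1; omega)
          (hlL y h1)
        rw [h3]
        exact h.leaf y h1
      · rw [h1]
        have h3 : d'.cn (d.cnt + 1) = d.cn (d.cnt + 1) := out.cn _ (le_refl _) heL
        rw [h3]
        exact hf.2.2.2.2.1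
    · have h3 : d'.up 0 = d.up 0 := out.up 0 (Nat.zero_le _) h0L (fun hc => by
        rcases ins_mem.1 hc with h1 | ⟨h1, -⟩
        · exact h0l h1
        · omega)
      rw [h3]
      exact h.up0
    · intro hc
      have : x ∈ insAfter l x (d.cnt + 1) := ins_mem.2 (Or.inl hx)
      rw [hc] at this
      simp at this
  · intro y hy
    exact out.fl y (by have := (hidl y hy).2; show y ≤ d.cnt + 1; omega) (hlL y hy)
  · have h3 : d'.fl (d.cnt + 1) = d.fl (d.cnt + 1) := out.fl _ (le_refl _) heL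
    rw [h3]
    exact hf.2.2.2.2.2
  · have h4 := (insR_cnt hins).2
    have h5 : t ≤ 1 + (d'.cnt - (d.cnt + 1)) := h4
    omega

end ST2
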