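import Pool.Agent.helper32.ST.DIns

/-!
# ST2-DLnk : linked list lemmas

All by induction on the list (cases [], [x], x :: y :: l of `Lnk`).
* lnk_adj: from l = l1 ++ a :: b :: l2, induction on l1.
* lnk_last: the last element has nx = 0.
* lnk_congr: only the values nx, pv on the members of l matter.
* lnk_link: for l = l1 ++ x :: l2 (exists_split), the new links: nx x = e, pv e = x, nx e = old nx x
  (= head of l2, or 0), pv (head of l2) = e; other members unchanged (nodup).  Induction on l1, base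
  cases l2 = [] and l2 = y :: l3.  Note nx x = 0 if l2 = [], the update at index 0 does not matter
  because 0 is not a member of insAfter l x e (hypotheses h0, he0).
-/

namespace ST2

theorem DLnk_congr2 {nx pv nx' pv' : ℕ → ℕ} : ∀ {l : List ℕ}, Lnk nx pv l →
    (∀ x ∈ l, nx' x = nx x) → (∀ x ∈ l.tail, pv' x = pv x) → Lnk nx' pv' l
  | [], _, _, _ => trivial
  | [x], h, h1, _ => (h1 x (by simp)).trans h
  | x :: y :: l, h, h1, h2 => by
    obtain ⟨a, b, c⟩ := h
    refine ⟨(h1 x (by simp)).trans a, (h2 y (by simp)).trans b, ?_⟩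
    refine DLnk_congr2 c (fun z hz => h1 z (List.mem_cons_of_mem _ hz)) (fun z hz => h2 z ?_)
    exact List.mem_of_mem_tail hz

theorem DLnk_glue {nx pv nx' pv' : ℕ → ℕ} {x : ℕ} {l2 l2' : List ℕ}
    (h' : Lnk nx' pv' (x :: l2')) : ∀ {l1 : List ℕ}, Lnk nx pv (l1 ++ x :: l2) →
    (∀ z ∈ l1, nx' z = nx z) → (∀ z ∈ l1 ++ [x], pv' z = pv z) → Lnk nx' pv' (l1 ++ x :: l2')
  | [], _, _, _ => h'
  | [c], h, h1, h2 => by
    obtain ⟨a, b, _⟩ := h
    exact ⟨(h1 c (by simp)).trans a, (h2 x (by simp)).trans b, h'⟩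
  | c :: d :: l1, h, h1, h2 => by
    obtain ⟨a, b, e⟩ := h
    refine ⟨(h1 c (by simp)).trans a, (h2 d (by simp)).trans b, ?_⟩
    exact DLnk_glue (l1 := d :: l1) h' e (fun z hz => h1 z (List.mem_cons_of_mem _ hz))
      (fun z hz => h2 z (List.mem_cons_of_mem _ hz))

theorem DLnk_suffix {nx pv : ℕ → ℕ} {l2 : List ℕ} : ∀ {l1 : List ℕ}, Lnk nx pv (l1 ++ l2) →
    Lnk nx pv l2
  | [], h => h
  | [c], h => by
    cases l2 with
    | nil => trivial
    | cons y l => exact h.2.2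
  | c :: d :: l1, h => DLnk_suffix (l1 := d :: l1) h.2.2

theorem lnk_adj {nx pv : ℕ → ℕ} {l1 l2 : List ℕ} {a b : ℕ} (h : Lnk nx pv (l1 ++ a :: b :: l2)) :
    nx a = b ∧ pv b = a := by
  have h' := DLnk_suffix h
  exact ⟨h'.1, h'.2.1⟩

theorem lnk_last {nx pv : ℕ → ℕ} {l1 : List ℕ} {a : ℕ} (h : Lnk nx pv (l1 ++ [a])) : nx a = 0 := by
  have h' : Lnk nx pv [a] := DLnk_suffix h
  exact h'

theorem lnk_congr {nx pv nx' pv' : ℕ → ℕ} {l : List ℕ} (h : Lnk nx pv l)
    (h1 : ∀ x ∈ l, nx' x = nx x) (h2 : ∀ x ∈ l, pv' x = pv x) : Lnk nx' pv' l := by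
  exact DLnk_congr2 h h1 fun x hx => h2 x (List.mem_of_mem_tail hx)

/-- the successor of a member -/
theorem DLnk_nx {nx pv : ℕ → ℕ} {l1 l2 : List ℕ} {x : ℕ} (h : Lnk nx pv (l1 ++ x :: l2)) :
    (l2 = [] ∧ nx x = 0) ∨ ∃ y l3, l2 = y :: l3 ∧ nx x = y ∧ pv y = x := by
  cases l2 with
  | nil => exact Or.inl ⟨rfl, lnk_last h⟩
  | cons y l3 => exact Or.inr ⟨y, l3, rfl, (lnk_adj h).1, (lnk_adj h).2⟩

theorem lnk_link {d : D} {l : List ℕ} {x e : ℕ} (h : Lnk d.nx d.pv l) (hn : l.Nodup) (hx : x ∈ l)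
    (he : e ∉ l) (h0 : 0 ∉ l) (he0 : e ≠ 0) :
    Lnk (d.link x e).nx (d.link x e).pv (insAfter l x e) := by
  obtain ⟨l1, l2, hl, hx1, hx2⟩ := exists_split hn hx
  subst hl
  rw [ins_split hx1 hx2]
  have hxe : x ≠ e := fun hc => he (hc ▸ hx)
  have hx0 : x ≠ 0 := fun hc => h0 (hc ▸ hx)
  have hnd := List.nodup_append.1 hn
  have hsuf : Lnk d.nx d.pv (x :: l2) := DLnk_suffix h
  -- the suffix
  have hS : Lnk (d.link x e).nx (d.link x e).pv (x :: e :: l2) := by
    rcases DLnk_nx h with ⟨rfl, hx'⟩ | ⟨y, l3, rfl, hy, hpy⟩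
    · refine ⟨?_, ?_, ?_⟩
      · show upd (upd d.nx x e) e (d.nx x) x = e
        rw [upd_ne _ _ hxe, upd_same]
      · show upd (upd d.pv e x) (d.nx x) e e = x
        rw [hx', upd_ne _ _ he0, upd_same]
      · show upd (upd d.nx x e) e (d.nx x) e = 0
        rw [upd_same, hx']
    · have hye : y ≠ e := fun hc => he (by rw [← hc]; simp)
      have hn2 : (y :: l3).Nodup := (List.nodup_cons.1 hnd.2.1).2
      refine ⟨?_, ?_, ?_, ?_, ?_⟩
      · show upd (upd d.nx x e) e (d.nx x) x = e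
        rw [upd_ne _ _ hxe, upd_same]
      · show upd (upd d.pv e x) (d.nx x) e e = x
        rw [hy, upd_ne _ _ hye.symm, upd_same]
      · show upd (upd d.nx x e) e (d.nx x) e = y
        rw [upd_same, hy]
      · show upd (upd d.pv e x) (d.nx x) e y = e
        rw [hy, upd_same]
      · refine DLnk_congr2 (nx := d.nx) (pv := d.pv) hsuf.2.2 (fun z hz => ?_) (fun z hz => ?_)
        · show upd (upd d.nx x e) e (d.nx x) z = d.nx z
          have hze : z ≠ e := fun hc => he (by rw [← hc]; simp at hz ⊢; tauto)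
          have hzx : z ≠ x := fun hc => hx2 (hc ▸ hz)
          rw [upd_ne _ _ hze, upd_ne _ _ hzx]
        · show upd (upd d.pv e x) (d.nx x) e z = d.pv z
          have hz' : z ∈ l3 := hz
          have hze : z ≠ e := fun hc => he (by rw [← hc]; simp [hz'])
          have hzy : z ≠ y := fun hc => (List.nodup_cons.1 hn2).1 (hc ▸ hz')
          rw [hy, upd_ne _ _ hzy, upd_ne _ _ hze]
  refine DLnk_glue (nx := d.nx) (pv := d.pv) hS h (fun z hz => ?_) (fun z hz => ?_)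
  · show upd (upd d.nx x e) e (d.nx x) z = d.nx z
    have hze : z ≠ e := fun hc => he (by rw [← hc]; simp [hz])
    have hzx : z ≠ x := fun hc => hx1 (hc ▸ hz)
    rw [upd_ne _ _ hze, upd_ne _ _ hzx]
  · show upd (upd d.pv e x) (d.nx x) e z = d.pv z
    have hz' : z ∈ l1 ∨ z = x := by simpa using hz
    have hzl : z ∈ l1 ++ x :: l2 := by
      rcases hz' with hz' | hz'
      · simp [hz']
      · simp [hz']
    have hze : z ≠ e := fun hc => he (hc ▸ hzl)
    have hz0 : z ≠ 0 := fun hc => h0 (hc ▸ hzl)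
    have hzn : z ≠ d.nx x := by
      rcases DLnk_nx h with ⟨-, hx'⟩ | ⟨y, l3, rfl, hy, -⟩
      · rw [hx']
        exact hz0
      · rw [hy]
        intro hc
        rcases hz' with hz' | hz'
        · exact hnd.2.2 z hz' y (by simp) hc
        · exact hx2 (by rw [← hz', hc]; simp)
    rw [upd_ne _ _ hzn, upd_ne _ _ hze]

/-- links of members of another list are unchanged -/
theorem link_other {d : D} {l l' : List ℕ} {x e : ℕ} (h : Lnk d.nx d.pv l) (hx : x ∈ l)
    (he : e ∉ l') (hd : ∀ y ∈ l', y ∉ l) (h0 : 0 ∉ l') :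
    (∀ y ∈ l', (d.link x e).nx y = d.nx y) ∧ (∀ y ∈ l', (d.link x e).pv y = d.pv y) := by
  have hnx : d.nx x = 0 ∨ d.nx x ∈ l := by
    obtain ⟨l1, l2, rfl⟩ := List.append_of_mem hx
    rcases DLnk_nx h with ⟨-, hx'⟩ | ⟨y, l3, rfl, hy, -⟩
    · exact Or.inl hx'
    · right
      rw [hy]
      simp
  refine ⟨fun y hy => ?_, fun y hy => ?_⟩
  · show upd (upd d.nx x e) e (d.nx x) y = d.nx y
    have hye : y ≠ e := fun hc => he (hc ▸ hy)
    have hyx : y ≠ x := fun hc => hd y hy (hc ▸ hx)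
    rw [upd_ne _ _ hye, upd_ne _ _ hyx]
  · show upd (upd d.pv e x) (d.nx x) e y = d.pv y
    have hye : y ≠ e := fun hc => he (hc ▸ hy)
    have hyn : y ≠ d.nx x := by
      rcases hnx with h1 | h1
      · rw [h1]
        exact fun hc => h0 (hc ▸ hy)
      · exact fun hc => hd y hy (hc ▸ h1)
    rw [upd_ne _ _ hyn, upd_ne _ _ hye]

/-- pv of the head stays 0 -/
theorem link_head {d : D} {l : List ℕ} {x e : ℕ} (h : Lnk d.nx d.pv l) (hn : l.Nodup) (hx : x ∈ l)
    (he : e ∉ l) (h0 : 0 ∉ l) (he0 : e ≠ 0) (hh : ∀ y ∈ l.head?, d.pv y = 0) :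
    ∀ y ∈ (insAfter l x e).head?, (d.link x e).pv y = 0 := by
  intro y hy
  rw [ins_head] at hy
  have hyl : y ∈ l := List.mem_of_mem_head? hy
  have hye : y ≠ e := fun hc => he (hc ▸ hyl)
  have hy0 : y ≠ 0 := fun hc => h0 (hc ▸ hyl)
  have hx0 : x ≠ 0 := fun hc => h0 (hc ▸ hx)
  show upd (upd d.pv e x) (d.nx x) e y = 0
  have hyn : y ≠ d.nx x := by
    obtain ⟨l1, l2, rfl⟩ := List.append_of_mem hx
    rcases DLnk_nx h with ⟨-, hx'⟩ | ⟨z, l3, rfl, hz, hpz⟩
    · rw [hx']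
      exact hy0
    · rw [hz]
      intro hc
      have h1 := hh y hy
      rw [hc, hpz] at h1
      exact hx0 h1
  rw [upd_ne _ _ hyn, upd_ne _ _ hye]
  exact hh y hy

end ST2
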