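import Pool.Agent.helper32.ST.DLnk

/-!
# ST2-DLv : levels and leaves of the 2-3 structure

`lvl l Ls i` is the level list number i (level 0 is l).  `lv ch i g` is the list of the leaves below the
item g of level i.
* tow_ch: by induction on i, generalizing l, Ls (Tow of the tail).
* tow_lv: induction on i: level i = (level i+1).flatMap ch, flatMap_assoc.
* tow_top: induction on Ls.
* flag_lv: induction on i; the children of g are members of the level i (tow_ch).
* lv_mem_level: the leaves below a member of a level belong to l (tow_lv).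
-/

namespace ST2

/-- level number i -/
def lvl (l : List ℕ) (Ls : List (List ℕ)) (i : ℕ) : List ℕ := (l :: Ls).getD i []

/-- leaves of an item of level i -/
def lv (ch : ℕ → List ℕ) : ℕ → ℕ → List ℕ
  | 0, g => [g]
  | i + 1, g => (ch g).flatMap (lv ch i)

theorem tow_ch {ch : ℕ → List ℕ} {l : List ℕ} {Ls : List (List ℕ)} (ht : Tow ch l Ls) {i : ℕ}
    (hi : i < Ls.length) : lvl l Ls i = (lvl l Ls (i + 1)).flatMap ch := by
  induction i generalizing l Ls with
  | zero =>
    cases Ls with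
    | nil => simp at hi
    | cons l' Ls => exact ht.1
  | succ i ih =>
    cases Ls with
    | nil => simp at hi
    | cons l' Ls =>
      have h1 : i < Ls.length := by
        rw [List.length_cons] at hi
        omega
      exact ih ht.2 h1

theorem tow_lv {ch : ℕ → List ℕ} {l : List ℕ} {Ls : List (List ℕ)} (ht : Tow ch l Ls) {i : ℕ}
    (hi : i ≤ Ls.length) : l = (lvl l Ls i).flatMap (lv ch i) := by
  induction i with
  | zero =>
    show l = l.flatMap (fun g => [g])
    simp
  | succ i ih =>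
    have h1 := ih (by omega)
    rw [tow_ch ht (by omega), List.flatMap_assoc] at h1
    exact h1

theorem tow_top {ch : ℕ → List ℕ} {l : List ℕ} {Ls : List (List ℕ)} (ht : Tow ch l Ls) :
    ∃ x, lvl l Ls Ls.length = [x] ∧ (l :: Ls).getLast? = some [x] := by
  induction Ls generalizing l with
  | nil =>
    obtain ⟨x, hx⟩ : ∃ x, l = [x] := ht
    subst hx
    exact ⟨x, rfl, rfl⟩
  | cons l' Ls ih =>
    obtain ⟨x, h1, h2⟩ := ih ht.2
    refine ⟨x, h1, ?_⟩
    rw [List.getLast?_cons_cons]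
    exact h2

theorem lvl_mem_flatten {l : List ℕ} {Ls : List (List ℕ)} {i g : ℕ} (hg : g ∈ lvl l Ls (i + 1)) :
    g ∈ Ls.flatten := by
  have h1 : g ∈ Ls.getD i [] := hg
  by_cases h2 : i < Ls.length
  · rw [List.getD_eq_getElem _ _ h2] at h1
    exact List.mem_flatten.2 ⟨_, List.getElem_mem h2, h1⟩
  · rw [List.getD_eq_default _ _ (by omega)] at h1
    simp at h1

theorem lvl_le {l : List ℕ} {Ls : List (List ℕ)} {i g : ℕ} (hg : g ∈ lvl l Ls i) :
    i ≤ Ls.length := by
  by_contra h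
  have h1 : g ∈ (l :: Ls).getD i [] := hg
  rw [List.getD_eq_default _ _ (by rw [List.length_cons]; omega)] at h1
  simp at h1

theorem lvl_mem_all {l : List ℕ} {Ls : List (List ℕ)} {i g : ℕ} (hg : g ∈ lvl l Ls i) :
    g ∈ l ++ Ls.flatten := by
  cases i with
  | zero => exact List.mem_append_left _ hg
  | succ i => exact List.mem_append_right _ (lvl_mem_flatten hg)

/-- different levels are disjoint -/
theorem lvl_disj {l : List ℕ} {Ls : List (List ℕ)} (hn : (l ++ Ls.flatten).Nodup) {i j g : ℕ}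
    (hi : g ∈ lvl l Ls i) (hj : g ∈ lvl l Ls j) : i = j := by
  have h1 : ((l :: Ls).flatten).Nodup := by
    rw [List.flatten_cons]
    exact hn
  have h2 := (List.nodup_flatten.1 h1).2
  rw [List.pairwise_iff_getElem] at h2
  have key : ∀ a b : ℕ, a < b → g ∈ lvl l Ls a → g ∈ lvl l Ls b → False := by
    intro a b hab ha hb
    have hb' := lvl_le hb
    have e1 : lvl l Ls a = (l :: Ls)[a]'(by rw [List.length_cons]; omega) :=
      List.getD_eq_getElem _ _ _
    have e2 : lvl l Ls b = (l :: Ls)[b]'(by rw [List.length_cons]; omega) :=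
      List.getD_eq_getElem _ _ _
    rw [e1] at ha
    rw [e2] at hb
    exact h2 a b _ _ hab ha hb
  rcases lt_trichotomy i j with h | h | h
  · exact (key i j h hi hj).elim
  · exact h
  · exact (key j i h hj hi).elim

theorem lvl_nodup {l : List ℕ} {Ls : List (List ℕ)} (hn : (l ++ Ls.flatten).Nodup) (i : ℕ) :
    (lvl l Ls i).Nodup := by
  have h1 : ((l :: Ls).flatten).Nodup := by
    rw [List.flatten_cons]
    exact hn
  by_cases h2 : i < (l :: Ls).length
  · have e1 : lvl l Ls i = (l :: Ls)[i] := List.getD_eq_getElem _ _ h2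
    rw [e1]
    exact (List.nodup_flatten.1 h1).1 _ (List.getElem_mem h2)
  · have e1 : lvl l Ls i = [] := List.getD_eq_default _ _ (by omega)
    rw [e1]
    exact List.nodup_nil

theorem flag_lv {d : D} {ch : ℕ → List ℕ} {l : List ℕ} {Ls : List (List ℕ)} (ht : Tow ch l Ls)
    (hg : ∀ g ∈ Ls.flatten, (d.fl g ≠ 0 ↔ ∃ c ∈ ch g, d.fl c ≠ 0)) :
    ∀ i g, g ∈ lvl l Ls i → (d.fl g ≠ 0 ↔ ∃ y ∈ lv ch i g, d.fl y ≠ 0) := by
  intro i
  induction i with
  | zero =>
    intro g _
    show d.fl g ≠ 0 ↔ ∃ y ∈ [g], d.fl y ≠ 0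
    simp
  | succ i ih =>
    intro g hgl
    have h1 : i < Ls.length := by
      have := lvl_le hgl
      omega
    have h2 : ∀ c ∈ ch g, c ∈ lvl l Ls i := by
      intro c hc
      rw [tow_ch ht h1, List.mem_flatMap]
      exact ⟨g, hgl, hc⟩
    rw [hg g (lvl_mem_flatten hgl)]
    show (∃ c ∈ ch g, d.fl c ≠ 0) ↔ ∃ y ∈ (ch g).flatMap (lv ch i), d.fl y ≠ 0
    constructor
    · rintro ⟨c, hc, hc'⟩
      obtain ⟨y, hy, hy'⟩ := (ih c (h2 c hc)).1 hc'
      exact ⟨y, List.mem_flatMap.2 ⟨c, hc, hy⟩, hy'⟩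
    · rintro ⟨y, hy, hy'⟩
      obtain ⟨c, hc, hyc⟩ := List.mem_flatMap.1 hy
      exact ⟨c, hc, (ih c (h2 c hc)).2 ⟨y, hyc, hy'⟩⟩

theorem lv_mem_level {ch : ℕ → List ℕ} {l : List ℕ} {Ls : List (List ℕ)} (ht : Tow ch l Ls)
    {i g y : ℕ} (hg : g ∈ lvl l Ls i) (hy : y ∈ lv ch i g) : y ∈ l := by
  rw [tow_lv ht (lvl_le hg)]
  exact List.mem_flatMap.2 ⟨g, hg, hy⟩

end ST2
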