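import Pool.Agent.helper32.ST.DSib

/-!
# ST2-DMark : the mark operation

Statement and plan: helper32; proof: helper11.

Let i be from anc_stop, cur = anc i, g = anc (i+1) = up cur, d' = d with flags mkf d x i (climb_run,
climb_rep, climb_fc).  g was flagged in d, so (Grp.fl in d) some child c' is flagged in d; cur is unflagged in d,
so c' <> cur; in d' c' keeps its flag (mkf_eq).  sib_cases in d' for c = cur.
Left case: u = leftC cur flagged in d' and u <> cur (nodup), so u is flagged; descL for u at level i gives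
r, and l = (level i+1).flatMap (lv (i+1)) contains lv (i+1) g = (ch g).flatMap (lv i) =
.. (a ++ r :: b) ++ (q leaves) ++ (lv i cur) ..; lv i cur = a' ++ x :: b' (anc_mem) where all leaves of
cur are unflagged in d (flag_lv, fl cur = 0).  So l = l1 ++ r :: (m ++ x :: l2), m = b ++ q leaves ++ a', all
unflagged in d (the flags of members of l in d' differ from those in d only at x, and x occurs once).
Right case symmetric with descF.
The time is i + i <= 2 (fc d' - fc d).
Flags on l: for y in l: y = anc j only for j = 0 (lvl_disj).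
-/

namespace ST2

private theorem DMark_l0 {l : List ℕ} {Ls : List (List ℕ)} {y : ℕ} (hy : y ∈ l) : y ∈ lvl l Ls 0 := hy

/-- the members of l which are flagged after the climb: x and the old ones -/
private theorem DMark_flags {d : D} {ch : ℕ → List ℕ} {l : List ℕ} {Ls : List (List ℕ)}
    (h : DRep d ch l Ls) {x : ℕ} (hx : x ∈ l) {i : ℕ} (hi : i < Ls.length) {y : ℕ} (hy : y ∈ l) :
    mkf d x i y ≠ 0 ↔ y = x ∨ d.fl y ≠ 0 := by
  rcases mkf_eq d x i y with ⟨⟨j, hj, hyj⟩, hm⟩ | ⟨hne, hm⟩
  · have h1 : y ∈ lvl l Ls j := by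
      rw [hyj]
      exact (anc_mem h hx (by omega)).1
    have h2 : j = 0 := lvl_disj h.upper.nodup h1 (DMark_l0 hy)
    subst h2
    rw [hm]
    constructor
    · intro _
      exact Or.inl hyj
    · intro _
      exact one_ne_zero
  · rw [hm]
    constructor
    · intro h1
      exact Or.inr h1
    · rintro (h1 | h1)
      · exact absurd h1 (hne 0 (Nat.zero_le i))
      · exact h1

private theorem DMark_up (d : D) (x i y : ℕ) (h : mkf d x i y = 0) : d.fl y = 0 := by
  rcases mkf_eq d x i y with ⟨_, hm⟩ | ⟨_, hm⟩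
  · rw [hm] at h
    exact absurd h one_ne_zero
  · rw [← hm]
    exact h

/-- decomposition of l along a group -/
private theorem DMark_dec {ch : ℕ → List ℕ} {l : List ℕ} {Ls : List (List ℕ)} (ht : Tow ch l Ls)
    {i g : ℕ} (hi : i < Ls.length) (hg : g ∈ lvl l Ls (i + 1)) :
    ∃ s t, l = s ++ ((ch g).flatMap (lv ch i) ++ t) := by
  obtain ⟨s, t, hst⟩ := List.append_of_mem hg
  have h1 := tow_lv ht (i := i + 1) (by omega)
  rw [hst, List.flatMap_append, List.flatMap_cons] at h1
  exact ⟨_, _, h1⟩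

theorem mark_op {d : D} {l : List ℕ} {x : ℕ} (h : LRep d l) (hx : x ∈ l) (hx0 : d.fl x = 0)
    (hy : ∃ y ∈ l, d.fl y ≠ 0) :
    ∃ d' r b t, MarkOp d x d' r b t ∧ LRep d' l ∧ d' = { d with fl := d'.fl } ∧
      (∀ y ∈ l, (d'.fl y ≠ 0 ↔ y = x ∨ d.fl y ≠ 0)) ∧ r ∈ l ∧ d.fl r ≠ 0 ∧
      (b = true → ∃ l1 m l2, l = l1 ++ r :: (m ++ x :: l2) ∧ ∀ y ∈ m, d.fl y = 0) ∧
      (b = false → ∃ l1 m l2, l = l1 ++ x :: (m ++ r :: l2) ∧ ∀ y ∈ m, d.fl y = 0) ∧
      d.fc < d'.fc ∧ t ≤ 2 * (d'.fc - d.fc) := by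
  obtain ⟨ch, Ls, hR⟩ := h
  obtain ⟨i, hi, h0, h1, h2⟩ := anc_stop hR hx hx0 hy
  have hrun := climb_run hR hx hi h0 h1 h2
  have hR' := climb_rep hR hx hi h0 h2
  have hfc := climb_fc hR hx hi h0
  have hg : anc d x (i + 1) ∈ lvl l Ls (i + 1) := (anc_mem hR hx (by omega)).1
  have hcur : anc d x i ∈ ch (anc d x (i + 1)) := anc_child hR hx hi
  have hcur0 : d.fl (anc d x i) = 0 := h0 i le_rfl
  have hxc : x ∈ lv ch i (anc d x i) := (anc_mem hR hx (by omega)).2
  obtain ⟨c', hc', hc'f⟩ := ((hR.upper.grp _ (lvl_mem_flatten hg)).fl).1 h2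
  have hc'f2 : mkf d x i c' ≠ 0 := fun hc => hc'f (DMark_up d x i c' hc)
  have hne : c' ≠ anc d x i := fun hc => hc'f (by rw [hc]; exact hcur0)
  have hflv := flag_lv hR.upper.tow (fun g hg => (hR.upper.grp g hg).fl)
  have hflv' := flag_lv (d := { d with fl := mkf d x i }) hR'.upper.tow
    (fun g hg => (hR'.upper.grp g hg).fl)
  have hchm := (grp_children hR' hg).1
  obtain ⟨s, t, hst⟩ := DMark_dec hR.upper.tow hi hg
  obtain ⟨a', b', hab'⟩ := List.append_of_mem hxc
  have hnd : l.Nodup := (List.nodup_append.1 hR.upper.nodup).1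
  have hcurm : anc d x i ∈ lvl l Ls i := (anc_mem hR hx (by omega)).1
  -- leaves of cur are unflagged in d
  have hlc : ∀ y ∈ lv ch i (anc d x i), d.fl y = 0 := by
    intro y hy
    by_contra hc
    exact ((hflv i _ hcurm).2 ⟨y, hy, hc⟩) hcur0
  -- leaves of unflagged (in d') items of level i are unflagged in d
  have hlq : ∀ q : List ℕ, (∀ w ∈ q, w ∈ ch (anc d x (i + 1))) →
      (∀ w ∈ q, mkf d x i w = 0) → ∀ y ∈ q.flatMap (lv ch i), d.fl y = 0 := by
    intro q hq1 hq2 y hy
    obtain ⟨w, hw, hyw⟩ := List.mem_flatMap.1 hy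
    have h5 : w ∈ lvl l Ls i := hchm w (hq1 w hw)
    apply DMark_up d x i y
    by_contra hc
    exact ((hflv' i w h5).2 ⟨y, hyw, hc⟩) (hq2 w hw)
  have hfr : ∀ r ∈ l, r ≠ x → mkf d x i r ≠ 0 → d.fl r ≠ 0 := by
    intro r hr hrx hrf
    rcases (DMark_flags hR hx hi hr).1 hrf with h5 | h5
    · exact absurd h5 hrx
    · exact h5
  rcases sib_cases hR' hg hcur ⟨c', hc', hne, hc'f2⟩ with
    ⟨htest, p, q, r0, hchg, hq⟩ | ⟨htest, hrf, p, q, r0, hchg, hq⟩
  · -- left
    have hum : D.leftC { d with fl := mkf d x i } (anc d x i) ∈ ch (anc d x (i + 1)) := by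
      rw [hchg]; simp
    obtain ⟨r, a, b, hdesc, hlvu, hrf, hb⟩ := descL hR' i _ (hchm _ hum) htest.2
    have hqm : ∀ w ∈ q, w ∈ ch (anc d x (i + 1)) := by
      intro w hw
      rw [hchg]; simp [hw]
    have hl : l = (s ++ (p.flatMap (lv ch i) ++ a)) ++
        r :: ((b ++ (q.flatMap (lv ch i) ++ a')) ++ x :: (b' ++ (r0.flatMap (lv ch i) ++ t))) := by
      rw [hchg] at hst
      simp only [List.flatMap_append, List.flatMap_cons, hlvu, hab', List.append_assoc,
        List.cons_append] at hst ⊢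
      exact hst
    have hrl : r ∈ l := by rw [hl]; simp
    have hrx : r ≠ x := by
      intro hc
      rw [hl] at hnd
      have h6 := (List.nodup_append.1 hnd).2.1
      rw [List.nodup_cons] at h6
      apply h6.1
      rw [hc]; simp
    refine ⟨{ d with fl := mkf d x i }, r, true, i + i,
      MarkOp.left _ (anc d x i) r i i hrun htest hdesc, ⟨ch, Ls, hR'⟩, rfl,
      fun y hy => DMark_flags hR hx hi hy, hrl, hfr r hrl hrx hrf, ?_, ?_, ?_, ?_⟩
    · intro _
      refine ⟨_, _, _, hl, ?_⟩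
      intro y hy
      rw [List.mem_append, List.mem_append] at hy
      rcases hy with hy | hy | hy
      · exact DMark_up d x i y (hb y hy)
      · exact hlq q hqm hq y hy
      · exact hlc y (by rw [hab']; simp [hy])
    · intro hc
      exact absurd hc (by simp)
    · rw [hfc]; omega
    · rw [hfc]; omega
  · -- right
    have hum : D.rightC { d with fl := mkf d x i } (anc d x i) ∈ ch (anc d x (i + 1)) := by
      rw [hchg]; simp
    obtain ⟨r, a, b, hdesc, hlvu, hrf', ha⟩ := descF hR' i _ (hchm _ hum) hrf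
    have hqm : ∀ w ∈ q, w ∈ ch (anc d x (i + 1)) := by
      intro w hw
      rw [hchg]; simp [hw]
    have hl : l = (s ++ (p.flatMap (lv ch i) ++ a')) ++
        x :: ((b' ++ (q.flatMap (lv ch i) ++ a)) ++ r :: (b ++ (r0.flatMap (lv ch i) ++ t))) := by
      rw [hchg] at hst
      simp only [List.flatMap_append, List.flatMap_cons, hlvu, hab', List.append_assoc,
        List.cons_append] at hst ⊢
      exact hst
    have hrl : r ∈ l := by rw [hl]; simp
    have hrx : r ≠ x := by
      intro hc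
      rw [hl] at hnd
      have h6 := (List.nodup_append.1 hnd).2.1
      rw [List.nodup_cons] at h6
      apply h6.1
      rw [← hc]; simp
    refine ⟨{ d with fl := mkf d x i }, r, false, i + i,
      MarkOp.right _ (anc d x i) r i i hrun htest hdesc, ⟨ch, Ls, hR'⟩, rfl,
      fun y hy => DMark_flags hR hx hi hy, hrl, hfr r hrl hrx hrf', ?_, ?_, ?_, ?_⟩
    · intro hc
      exact absurd hc (by simp)
    · intro _
      refine ⟨_, _, _, hl, ?_⟩
      intro y hy
      rw [List.mem_append, List.mem_append] at hy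
      rcases hy with hy | hy | hy
      · exact hlc y (by rw [hab']; simp [hy])
      · exact hlq q hqm hq y hy
      · exact DMark_up d x i y (ha y hy)
    · rw [hfc]; omega
    · rw [hfc]; omega

end ST2
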