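import Pool.Agent.helper32.ST.DLnk

/-!
# ST2-DPend : the state during an insertion

`Pend d ch l cur nw Ls`: the level list l (with the levels Ls above it) is correct, except that nw has
been linked after cur (so the links are those of insAfter l cur nw), nw has no group, and the flag of a
group of the first level above refers to its children together with nw.
-/

namespace ST2

structure GrpP (d : D) (ch : ℕ → List ℕ) (cur nw g : ℕ) : Prop where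
  len : (ch g).length = 2 ∨ (ch g).length = 3
  cn : d.cn g = (ch g).length
  fi : (ch g).head? = some (d.fi g)
  up : ∀ c ∈ ch g, d.up c = g
  fl : d.fl g ≠ 0 ↔ ∃ c ∈ insAfter (ch g) cur nw, d.fl c ≠ 0

structure Pend (d : D) (ch : ℕ → List ℕ) (l : List ℕ) (cur nw : ℕ) (Ls : List (List ℕ)) : Prop where
  hcur : cur ∈ l
  tow : Tow ch l Ls
  lnk0 : Lnk d.nx d.pv (insAfter l cur nw)
  lnk : ∀ L' ∈ Ls, Lnk d.nx d.pv L'
  hd0 : ∀ x ∈ l.head?, d.pv x = 0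
  hd : ∀ L' ∈ Ls, ∀ x ∈ L'.head?, d.pv x = 0
  nodup : (insAfter l cur nw ++ Ls.flatten).Nodup
  grp0 : ∀ g ∈ Ls.headD [], GrpP d ch cur nw g
  grp : ∀ g ∈ Ls.tail.flatten, Grp d ch g
  top : ∀ x, (l :: Ls).getLast? = some [x] → d.up x = 0
  ids : ∀ x ∈ insAfter l cur nw ++ Ls.flatten, 1 ≤ x ∧ x ≤ d.cnt
  fresh : ∀ x, d.cnt < x → d.nx x = 0 ∧ d.pv x = 0 ∧ d.up x = 0 ∧ d.fi x = 0 ∧ d.cn x = 0 ∧ d.fl x = 0
  bit : ∀ x, d.fl x ≤ 1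

/-- what the loop guarantees at the end -/
structure PendOut (d d' : D) (ch ch' : ℕ → List ℕ) (l : List ℕ) (cur nw : ℕ)
    (Ls Ls' : List (List ℕ)) : Prop where
  upper : Upper d' ch' (insAfter l cur nw) Ls'
  cnt : d.cnt ≤ d'.cnt
  ids : ∀ x, x ∈ Ls'.flatten ↔ x ∈ Ls.flatten ∨ (d.cnt < x ∧ x ≤ d'.cnt)
  hch : ∀ y, y ≤ d.cnt → y ∉ Ls.flatten → ch' y = ch y
  nx : ∀ y, 1 ≤ y → y ≤ d.cnt → y ∉ Ls.flatten → d'.nx y = d.nx y
  pv : ∀ y, 1 ≤ y → y ≤ d.cnt → y ∉ Ls.flatten → d'.pv y = d.pv y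
  fi : ∀ y, y ≤ d.cnt → y ∉ Ls.flatten → d'.fi y = d.fi y
  cn : ∀ y, y ≤ d.cnt → y ∉ Ls.flatten → d'.cn y = d.cn y
  fl : ∀ y, y ≤ d.cnt → y ∉ Ls.flatten → d'.fl y = d.fl y
  up : ∀ y, y ≤ d.cnt → y ∉ Ls.flatten → y ∉ insAfter l cur nw → d'.up y = d.up y
  fresh : ∀ x, d'.cnt < x →
    d'.nx x = 0 ∧ d'.pv x = 0 ∧ d'.up x = 0 ∧ d'.fi x = 0 ∧ d'.cn x = 0 ∧ d'.fl x = 0
  bit : ∀ x, d'.fl x ≤ 1

end ST2
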