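import Pool.Agent.helper32.ST.DPend

/-!
# ST2-DRoot : the insertion loop, new root (author of the proof: helper59)

Ls = [], so l = [x] (Tow), cur = x, up x = 0 (top with getLast? of [[x]]).  InsR.root.  With r = cnt+1:
d' = newRoot, ch' = fun y => if y = r then [cur, nw] else ch y, Ls' = [[r]].
insAfter [cur] cur nw = [cur, nw] = [r].flatMap ch'.  Links of level 0 unchanged (lnk0), the new level
[r] has nx r = 0, pv r = 0 (fresh).  Grp r: len 2, cn 2, fi cur, up cur = up nw = r, flag
0 < fl cur + fl nw.  up r = 0 (fresh; r differs from cur, nw by ids).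
-/

namespace ST2

theorem ins_root {d : D} {ch : ℕ → List ℕ} {l : List ℕ} {cur nw : ℕ}
    (h : Pend d ch l cur nw []) :
    ∃ d' ch' Ls', InsR d cur nw d' 1 ∧ PendOut d d' ch ch' l cur nw [] Ls' := by
  obtain ⟨x, rfl⟩ := h.tow
  have hc : cur = x := List.mem_singleton.1 h.hcur
  subst hc
  have hi : insAfter [cur] cur nw = [cur, nw] := by
    have h1 := ins_split (l1 := []) (l2 := []) (x := cur) (e := nw) (by simp) (by simp)
    simpa using h1
  have hl0 := h.lnk0
  have hnd := h.nodup
  have hids := h.ids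
  rw [hi] at hl0 hnd hids
  have hne : cur ≠ nw := by
    intro h1
    rw [h1] at hnd
    simp at hnd
  have hcc : 1 ≤ cur ∧ cur ≤ d.cnt := hids cur (by simp)
  have hcn : 1 ≤ nw ∧ nw ≤ d.cnt := hids nw (by simp)
  have hup : d.up cur = 0 := h.top cur rfl
  have hfr := h.fresh (d.cnt + 1) (Nat.lt_succ_self _)
  refine ⟨d.newRoot cur nw, fun y => if y = d.cnt + 1 then [cur, nw] else ch y, [[d.cnt + 1]],
    InsR.root d cur nw hup, ?_⟩
  refine ⟨⟨?_, ?_, ?_, ?_, ?_, ?_⟩, ?_, ?_, ?_, ?_, ?_, ?_, ?_, ?_, ?_, ?_, ?_⟩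
  · rw [hi]
    refine ⟨?_, d.cnt + 1, rfl⟩
    simp
  · rw [hi]
    intro L' hL'
    rcases List.mem_cons.1 hL' with h1 | h1
    · rw [h1]
      exact hl0
    · rw [List.mem_singleton.1 h1]
      exact hfr.1
  · rw [hi]
    intro L' hL' y hy
    rcases List.mem_cons.1 hL' with h1 | h1
    · rw [h1] at hy
      have h2 : y = cur := by simpa using hy.symm
      rw [h2]
      exact h.hd0 cur (by simp)
    · rw [List.mem_singleton.1 h1] at hy
      have h2 : y = d.cnt + 1 := by simpa using hy.symm
      rw [h2]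
      exact hfr.2.1
  · rw [hi]
    simp only [List.flatten_cons, List.flatten_nil, List.append_nil, List.cons_append,
      List.nil_append, List.nodup_cons, List.mem_cons, List.not_mem_nil, or_false, not_or,
      List.nodup_nil, and_true, not_false_eq_true]
    refine ⟨⟨hne, ?_⟩, ?_⟩ <;> omega
  · intro g hg
    have hg' : g = d.cnt + 1 := by simpa using hg
    rw [hg']
    refine ⟨?_, ?_, ?_, ?_, ?_⟩
    · left
      rw [if_pos rfl]
      rfl
    · rw [if_pos rfl]
      exact upd_same _ _ _
    · rw [if_pos rfl]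
      change some cur = some (upd d.fi (d.cnt + 1) cur (d.cnt + 1))
      rw [upd_same]
    · rw [if_pos rfl]
      intro c hc
      change upd (upd d.up cur (d.cnt + 1)) nw (d.cnt + 1) c = d.cnt + 1
      by_cases h1 : c = nw
      · rw [h1, upd_same]
      · have h2 : c = cur := by
          rcases List.mem_cons.1 hc with h3 | h3
          · exact h3
          · exact absurd (List.mem_singleton.1 h3) h1
        rw [upd_ne _ _ h1, h2, upd_same]
    · rw [if_pos rfl]
      change upd d.fl (d.cnt + 1) (if 0 < d.fl cur + d.fl nw then 1 else 0) (d.cnt + 1) ≠ 0 ↔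
        ∃ c ∈ [cur, nw], upd d.fl (d.cnt + 1) (if 0 < d.fl cur + d.fl nw then 1 else 0) c ≠ 0
      have h1 : ∀ v, upd d.fl (d.cnt + 1) v cur = d.fl cur := fun v => upd_ne _ _ (by omega)
      have h2 : ∀ v, upd d.fl (d.cnt + 1) v nw = d.fl nw := fun v => upd_ne _ _ (by omega)
      rw [upd_same]
      simp only [List.mem_cons, List.not_mem_nil, or_false, exists_eq_or_imp, exists_eq_left, h1, h2]
      split_ifs with h3 <;> omega
  · rw [hi]
    intro y hy
    have h1 : y = d.cnt + 1 := by
      simp only [List.getLast?_cons_cons, List.getLast?_singleton, Option.some.injEq,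
        List.cons.injEq, and_true] at hy
      exact hy.symm
    rw [h1]
    change upd (upd d.up cur (d.cnt + 1)) nw (d.cnt + 1) (d.cnt + 1) = 0
    rw [upd_ne _ _ (by omega), upd_ne _ _ (by omega)]
    exact hfr.2.2.1
  · exact Nat.le_succ _
  · intro y
    change y ∈ [[d.cnt + 1]].flatten ↔ y ∈ ([] : List (List ℕ)).flatten ∨
      (d.cnt < y ∧ y ≤ d.cnt + 1)
    simp only [List.flatten_cons, List.flatten_nil, List.append_nil, List.mem_singleton,
      List.not_mem_nil, false_or]
    omega
  · intro y hy _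
    exact if_neg (by omega)
  · intro y _ _ _
    rfl
  · intro y _ _ _
    rfl
  · intro y hy _
    exact upd_ne _ _ (by omega)
  · intro y hy _
    exact upd_ne _ _ (by omega)
  · intro y hy _
    exact upd_ne _ _ (by omega)
  · intro y hy _ hy2
    rw [hi] at hy2
    simp only [List.mem_cons, List.not_mem_nil, or_false, not_or] at hy2
    change upd (upd d.up cur (d.cnt + 1)) nw (d.cnt + 1) y = d.up y
    rw [upd_ne _ _ hy2.2, upd_ne _ _ hy2.1]
  · intro y hy
    have hy' : d.cnt + 1 < y := hy
    have h1 := h.fresh y (by omega)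
    refine ⟨h1.1, h1.2.1, ?_, ?_, ?_, ?_⟩
    · change upd (upd d.up cur (d.cnt + 1)) nw (d.cnt + 1) y = 0
      rw [upd_ne _ _ (by omega), upd_ne _ _ (by omega)]
      exact h1.2.2.1
    · change upd d.fi (d.cnt + 1) cur y = 0
      rw [upd_ne _ _ (by omega)]
      exact h1.2.2.2.1
    · change upd d.cn (d.cnt + 1) 2 y = 0
      rw [upd_ne _ _ (by omega)]
      exact h1.2.2.2.2.1
    · change upd d.fl (d.cnt + 1) _ y = 0
      rw [upd_ne _ _ (by omega)]
      exact h1.2.2.2.2.2
  · intro y
    change upd d.fl (d.cnt + 1) (if 0 < d.fl cur + d.fl nw then 1 else 0) y ≤ 1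
    by_cases h1 : y = d.cnt + 1
    · rw [h1, upd_same]
      split_ifs <;> omega
    · rw [upd_ne _ _ h1]
      exact h.bit y

end ST2
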