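import Pool.Agent.helper32.ST.DDesc
import Pool.Agent.helper32.ST.DClimb

/-!
# ST2-DSib : the nearest flagged sibling

g is a member of level i+1, c in ch g is flagged, and some other child of g is flagged.
Cases by grp_children (2 or 3 children) and the position of c:
* c first child: pv c has up <> g (first_pv), so leftC c = pv c fails; right: the next child if flagged,
  otherwise the third.
* c second child: leftC c = first child if flagged; otherwise pv (first child) whose up is <> g
  (first_pv), so right: the third child (flagged, nx c).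
* c third child: leftC c = second child if flagged, otherwise the first.
(up c = g for all children by Grp.up.)
Result: either the left test succeeds, and ch g = p ++ leftC c :: q ++ c :: r with q unflagged; or it fails and
ch g = p ++ c :: q ++ rightC c :: r with q unflagged and rightC c flagged.
-/

namespace ST2

theorem sib_cases {d : D} {ch : ℕ → List ℕ} {l : List ℕ} {Ls : List (List ℕ)}
    (h : DRep d ch l Ls) {i g c : ℕ} (hg : g ∈ lvl l Ls (i + 1)) (hc : c ∈ ch g)
    (ho : ∃ c' ∈ ch g, c' ≠ c ∧ d.fl c' ≠ 0) :
    ((d.up (d.leftC c) = d.up c ∧ d.fl (d.leftC c) ≠ 0) ∧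
      ∃ p q r, ch g = p ++ d.leftC c :: (q ++ c :: r) ∧ ∀ y ∈ q, d.fl y = 0) ∨
    (¬ (d.up (d.leftC c) = d.up c ∧ d.fl (d.leftC c) ≠ 0) ∧ d.fl (d.rightC c) ≠ 0 ∧
      ∃ p q r, ch g = p ++ c :: (q ++ d.rightC c :: r) ∧ ∀ y ∈ q, d.fl y = 0) := by
  obtain ⟨_, hpb, hcase⟩ := grp_children h hg
  have hG := h.upper.grp g (lvl_mem_flatten hg)
  have hfp := first_pv h hg
  have hup := hG.up
  rcases hcase with ⟨_, hch⟩ | ⟨_, hch, hpe⟩
  · rw [hch] at hc ho hup ⊢
    have ua := hup (d.fi g) (by simp)
    have ub := hup (d.nx (d.fi g)) (by simp)
    obtain ⟨c', hc', hne, hfl⟩ := ho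
    simp only [List.mem_cons, List.not_mem_nil, or_false] at hc hc'
    rcases hc with hc | hc
    · -- first child
      right
      have e1 : c' = d.nx (d.fi g) := by
        rcases hc' with h1 | h1
        · exact absurd (h1.trans hc.symm) hne
        · exact h1
      rw [e1] at hfl
      have hL : d.leftC c = d.pv c := by
        unfold D.leftC
        rw [if_neg]
        rw [hc, ua]
        exact fun hh => hfp hh.1
      have hR : d.rightC c = d.nx (d.fi g) := by
        unfold D.rightC
        rw [hc, if_neg hfl]
      refine ⟨?_, ?_, [], [], [], ?_, ?_⟩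
      · rw [hL, hc, ua]
        exact fun hh => hfp hh.1
      · rw [hR]; exact hfl
      · rw [hR, hc]; rfl
      · simp
    · -- second child
      left
      have e1 : c' = d.fi g := by
        rcases hc' with h1 | h1
        · exact h1
        · exact absurd (h1.trans hc.symm) hne
      rw [e1] at hfl
      have hL : d.leftC c = d.fi g := by
        unfold D.leftC
        rw [hc, hpb, if_neg]
        exact fun hh => hfl hh.2
      refine ⟨⟨?_, ?_⟩, [], [], [], ?_, ?_⟩
      · rw [hL, hc, ua, ub]
      · rw [hL]; exact hfl
      · rw [hL, hc]; rfl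
      · simp
  · rw [hch] at hc ho hup ⊢
    have ua := hup (d.fi g) (by simp)
    have ub := hup (d.nx (d.fi g)) (by simp)
    have ue := hup (d.nx (d.nx (d.fi g))) (by simp)
    obtain ⟨c', hc', hne, hfl⟩ := ho
    simp only [List.mem_cons, List.not_mem_nil, or_false] at hc hc'
    rcases hc with hc | hc | hc
    · -- first child
      right
      have hL : d.leftC c = d.pv c := by
        unfold D.leftC
        rw [if_neg]
        rw [hc, ua]
        exact fun hh => hfp hh.1
      have hl : ¬ (d.up (d.leftC c) = d.up c ∧ d.fl (d.leftC c) ≠ 0) := by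
        rw [hL, hc, ua]
        exact fun hh => hfp hh.1
      by_cases hb : d.fl (d.nx (d.fi g)) = 0
      · have e1 : c' = d.nx (d.nx (d.fi g)) := by
          rcases hc' with h1 | h1 | h1
          · exact absurd (h1.trans hc.symm) hne
          · rw [h1] at hfl
            exact absurd hb hfl
          · exact h1
        rw [e1] at hfl
        have hR : d.rightC c = d.nx (d.nx (d.fi g)) := by
          unfold D.rightC
          rw [hc, if_pos hb]
        refine ⟨hl, ?_, [], [d.nx (d.fi g)], [], ?_, ?_⟩
        · rw [hR]; exact hfl
        · rw [hR, hc]; rfl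
        · simp [hb]
      · have hR : d.rightC c = d.nx (d.fi g) := by
          unfold D.rightC
          rw [hc, if_neg hb]
        refine ⟨hl, ?_, [], [], [d.nx (d.nx (d.fi g))], ?_, ?_⟩
        · rw [hR]; exact hb
        · rw [hR, hc]; rfl
        · simp
    · -- second child
      by_cases ha : d.fl (d.fi g) = 0
      · right
        have e1 : c' = d.nx (d.nx (d.fi g)) := by
          rcases hc' with h1 | h1 | h1
          · rw [h1] at hfl
            exact absurd ha hfl
          · exact absurd (h1.trans hc.symm) hne
          · exact h1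
        rw [e1] at hfl
        have hL : d.leftC c = d.pv (d.fi g) := by
          unfold D.leftC
          rw [hc, hpb, if_pos ⟨ua.trans ub.symm, ha⟩]
        have hR : d.rightC c = d.nx (d.nx (d.fi g)) := by
          unfold D.rightC
          rw [hc, if_neg hfl]
        refine ⟨?_, ?_, [d.fi g], [], [], ?_, ?_⟩
        · rw [hL, hc, ub]
          exact fun hh => hfp hh.1
        · rw [hR]; exact hfl
        · rw [hR, hc]; rfl
        · simp
      · left
        have hL : d.leftC c = d.fi g := by
          unfold D.leftC
          rw [hc, hpb, if_neg]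
          exact fun hh => ha hh.2
        refine ⟨⟨?_, ?_⟩, [], [], [d.nx (d.nx (d.fi g))], ?_, ?_⟩
        · rw [hL, hc, ua, ub]
        · rw [hL]; exact ha
        · rw [hL, hc]; rfl
        · simp
    · -- third child
      left
      by_cases hb : d.fl (d.nx (d.fi g)) = 0
      · have e1 : c' = d.fi g := by
          rcases hc' with h1 | h1 | h1
          · exact h1
          · rw [h1] at hfl
            exact absurd hb hfl
          · exact absurd (h1.trans hc.symm) hne
        rw [e1] at hfl
        have hL : d.leftC c = d.fi g := by
          unfold D.leftC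
          rw [hc, hpe, if_pos ⟨ub.trans ue.symm, hb⟩, hpb]
        refine ⟨⟨?_, ?_⟩, [], [d.nx (d.fi g)], [], ?_, ?_⟩
        · rw [hL, hc, ua, ue]
        · rw [hL]; exact hfl
        · rw [hL, hc]; rfl
        · simp [hb]
      · have hL : d.leftC c = d.nx (d.fi g) := by
          unfold D.leftC
          rw [hc, hpe, if_neg]
          exact fun hh => hb hh.2
        refine ⟨⟨?_, ?_⟩, [d.fi g], [], [], ?_, ?_⟩
        · rw [hL, hc, ub, ue]
        · rw [hL]; exact hb
        · rw [hL, hc]; rfl
        · simp

end ST2
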