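import Pool.Agent.helper32.ST.DPend
import Pool.Agent.helper32.ST.DAdd

/-!
# ST2-DSplitA : the four children before a split

cur in ch g, g in l1, (ch g).length = 3.  insAfter (ch g) cur nw = [a, b, c, e] (length 4).
It is a contiguous part of insAfter l cur nw = l1.flatMap (fun g' => insAfter (ch g') cur nw), so
lnk_adj gives nx a = b, nx b = c, nx c = e, and fi g = a by GrpP.fi and ins_head.
-/

namespace ST2

theorem DSplitA_sub (l : List ℕ) (x e : ℕ) : l.Sublist (insAfter l x e) := by
  induction l with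
  | nil => exact List.Sublist.refl _
  | cons y l ih =>
    have h1 : insAfter (y :: l) x e = (if y = x then [x, e] else [y]) ++ insAfter l x e := rfl
    rw [h1]
    have h2 : y :: l = [y] ++ l := rfl
    rw [h2]
    apply List.Sublist.append _ ih
    by_cases hy : y = x
    · rw [if_pos hy, hy]
      exact List.sublist_append_left [x] [e]
    · rw [if_neg hy]

theorem split_children {d : D} {ch : ℕ → List ℕ} {l l1 : List ℕ} {cur nw : ℕ} {Ls : List (List ℕ)}
    (h : Pend d ch l cur nw (l1 :: Ls)) (h3 : ¬ d.cn (d.up cur) < 3) :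
    d.up cur ∈ l1 ∧ d.up cur ≠ 0 ∧ cur ∈ ch (d.up cur) ∧
      insAfter (ch (d.up cur)) cur nw =
        [d.c1 (d.up cur), d.c2 (d.up cur), d.c3 (d.up cur), d.c4 (d.up cur)] := by
  obtain ⟨ht, -⟩ := h.tow
  have hc := h.hcur
  rw [ht] at hc
  obtain ⟨g, hg, hcg⟩ := List.mem_flatMap.1 hc
  have hG : GrpP d ch cur nw g := h.grp0 g hg
  have hup : d.up cur = g := hG.up cur hcg
  rw [hup] at h3 ⊢
  have hg0 : g ≠ 0 := by
    have h1 := (h.ids g (List.mem_append_right _ (by
      rw [List.flatten_cons]
      exact List.mem_append_left _ hg))).1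
    omega
  refine ⟨hg, hg0, hcg, ?_⟩
  have hlen : (ch g).length = 3 := by
    have h1 := hG.cn
    rcases hG.len with h2 | h2
    · omega
    · exact h2
  have hnd : l.Nodup := (DSplitA_sub l cur nw).nodup (List.nodup_append.1 h.nodup).1
  obtain ⟨a, b, hab⟩ := List.append_of_mem hg
  have hl : l = a.flatMap ch ++ (ch g ++ b.flatMap ch) := by
    rw [ht, hab, List.flatMap_append, List.flatMap_cons]
  have hndg : (ch g).Nodup := by
    rw [hl] at hnd
    exact (List.nodup_append.1 (List.nodup_append.1 hnd).2.1).1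
  have hlen4 := ins_length (e := nw) hndg hcg
  rw [hlen] at hlen4
  have hins : insAfter l cur nw = a.flatMap (fun g' => insAfter (ch g') cur nw) ++
      (insAfter (ch g) cur nw ++ b.flatMap (fun g' => insAfter (ch g') cur nw)) := by
    rw [ht, hab, ins_flatMap, List.flatMap_append, List.flatMap_cons]
  have hl0 := h.lnk0
  rw [hins] at hl0
  have hh : (insAfter (ch g) cur nw).head? = some (d.fi g) := by
    rw [ins_head, hG.fi]
  obtain ⟨L, hL⟩ : ∃ L, L = insAfter (ch g) cur nw := ⟨_, rfl⟩
  rw [← hL] at hl0 hh hlen4 ⊢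
  match L, hlen4, hh, hl0 with
  | [p, q, r, s], _, hh, hl0 =>
    have hp : p = d.fi g := by
      simpa using hh
    have e1 := lnk_adj (l1 := a.flatMap (fun g' => insAfter (ch g') cur nw)) (a := p) (b := q)
      (l2 := r :: s :: b.flatMap (fun g' => insAfter (ch g') cur nw)) hl0
    have e2 := lnk_adj (l1 := a.flatMap (fun g' => insAfter (ch g') cur nw) ++ [p]) (a := q) (b := r)
      (l2 := s :: b.flatMap (fun g' => insAfter (ch g') cur nw)) (nx := d.nx) (pv := d.pv)
      (by simpa using hl0)
    have e3 := lnk_adj (l1 := a.flatMap (fun g' => insAfter (ch g') cur nw) ++ [p, q]) (a := r) (b := s)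
      (l2 := b.flatMap (fun g' => insAfter (ch g') cur nw)) (nx := d.nx) (pv := d.pv)
      (by simpa using hl0)
    unfold D.c1 D.c2 D.c3 D.c4
    rw [← hp, e1.1, e2.1, e3.1]

end ST2
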