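import Pool.Agent.helper32.ST.DSplitA

/-!
# ST2-DSplitB : after a split the next level is pending

g = up cur, g2 = cnt+1, d1 = d.split g nw, ch1 = ch with ch1 g = [c1, c2], ch1 g2 = [c3, c4].
Pend d1 ch1 l1 g g2 Ls.  The fields:
* lnk0: link g g2 in the level l1 (lnk_link); lnk: link_other; hd: link_head / link_other.
* nodup: g2 is new (ids); grp0 for g' in Ls.headD []: the children lists ch g' (in l1) are unchanged;
  flag: before, fl g' <> 0 iff some child of g' (in l1) is flagged; if g is not a child of g' nothing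
  changes and insAfter (ch g') g g2 = ch g'.  If g is a child of g': the old flag of g was
  nonzero iff one of [c1,c2,c3,c4] is flagged (GrpP.fl and split_children), i.e. iff the new flag of
  g or the flag of g2 is nonzero.
* grp: unchanged (the updates of up at nw, c3, c4 concern items of insAfter l cur nw, those of cn, fl, fi at
  g and g2; none of them is in Ls.flatten nor in the children lists of Ls.tail.flatten except through l1).
* top: the top item of l1 :: Ls is not among nw, c3, c4 (nodup), so up is unchanged.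
* bit, fresh, ids: cnt + 1.
-/

namespace ST2

/-- the new children function -/
def ch1 (d : D) (ch : ℕ → List ℕ) (g : ℕ) : ℕ → List ℕ := fun y =>
  if y = d.cnt + 1 then [d.c3 g, d.c4 g] else if y = g then [d.c1 g, d.c2 g] else ch y

theorem DSplitB_nx (d : D) (g nw : ℕ) : (d.split g nw).nx = (d.link g (d.cnt + 1)).nx := rfl

theorem DSplitB_pv (d : D) (g nw : ℕ) : (d.split g nw).pv = (d.link g (d.cnt + 1)).pv := rfl

theorem DSplitB_up (d : D) (g nw : ℕ) : (d.split g nw).up =
    upd (upd (upd d.up nw g) (d.c3 g) (d.cnt + 1)) (d.c4 g) (d.cnt + 1) := rfl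

theorem DSplitB_fi (d : D) (g nw : ℕ) : (d.split g nw).fi = upd d.fi (d.cnt + 1) (d.c3 g) := rfl

theorem DSplitB_cn (d : D) (g nw : ℕ) :
    (d.split g nw).cn = upd (upd d.cn g 2) (d.cnt + 1) 2 := rfl

theorem DSplitB_fl (d : D) (g nw : ℕ) : (d.split g nw).fl =
    upd (upd d.fl g (if 0 < d.fl (d.c1 g) + d.fl (d.c2 g) then 1 else 0)) (d.cnt + 1)
      (if 0 < d.fl (d.c3 g) + d.fl (d.c4 g) then 1 else 0) := rfl

theorem DSplitB_cnt (d : D) (g nw : ℕ) : (d.split g nw).cnt = d.cnt + 1 := rfl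

/-- children of a group of the first level are in the level below -/
theorem DSplitB_child0 {ch : ℕ → List ℕ} {l : List ℕ} {Ls : List (List ℕ)} (h : Tow ch l Ls)
    {g c : ℕ} (hg : g ∈ Ls.headD []) (hc : c ∈ ch g) : c ∈ l := by
  cases Ls with
  | nil => simp at hg
  | cons l' Ls' =>
    have h1 : l = l'.flatMap ch := h.1
    rw [h1, List.mem_flatMap]
    exact ⟨g, hg, hc⟩

/-- children of a group of a higher level -/
theorem DSplitB_child {ch : ℕ → List ℕ} : ∀ (Ls : List (List ℕ)) (l : List ℕ), Tow ch l Ls →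
    ∀ g c : ℕ, g ∈ Ls.tail.flatten → c ∈ ch g → c ∈ Ls.flatten := by
  intro Ls
  induction Ls with
  | nil => intro l _ g c hg _; simp at hg
  | cons l' Ls' ih =>
    intro l h g c hg hc
    have h2 : Tow ch l' Ls' := h.2
    cases Ls' with
    | nil => simp at hg
    | cons l'' Ls'' =>
      have hg' : g ∈ l'' ∨ g ∈ Ls''.flatten := by
        simpa using hg
      rcases hg' with hg' | hg'
      · have h3 : c ∈ l' := DSplitB_child0 h2 (by simpa using hg') hc
        simp [h3]
      · have h3 := ih l' h2 g c (by simpa using hg') hc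
        rw [List.flatten_cons, List.mem_append]
        exact Or.inr h3

theorem DSplitB_nxmem {nx pv : ℕ → ℕ} {l : List ℕ} (h : Lnk nx pv l) (hn : l.Nodup) {g : ℕ}
    (hg : g ∈ l) : nx g = 0 ∨ nx g ∈ l := by
  obtain ⟨l1, l2, hl, _, _⟩ := exists_split hn hg
  cases l2 with
  | nil =>
    left
    rw [hl] at h
    exact lnk_last h
  | cons b l3 =>
    right
    rw [hl] at h
    rw [(lnk_adj h).1, hl]
    simp

theorem split_pend {d : D} {ch : ℕ → List ℕ} {l l1 : List ℕ} {cur nw : ℕ} {Ls : List (List ℕ)}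
    (h : Pend d ch l cur nw (l1 :: Ls)) (h3 : ¬ d.cn (d.up cur) < 3) :
    Pend (d.split (d.up cur) nw) (ch1 d ch (d.up cur)) l1 (d.up cur) (d.cnt + 1) Ls := by
  obtain ⟨hg1, hg0, hcurch, hfour⟩ := split_children h h3
  obtain ⟨g, hge⟩ : ∃ g, g = d.up cur := ⟨_, rfl⟩
  rw [← hge] at hg1 hg0 hcurch hfour ⊢
  have htow : l = l1.flatMap ch := h.tow.1
  have htow2 : Tow ch l1 Ls := h.tow.2
  -- nodup facts
  have hnd := h.nodup
  rw [List.flatten_cons] at hnd
  have hnd1 : (l1 ++ Ls.flatten).Nodup := (List.nodup_append.mp hnd).2.1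
  have hl1nd : l1.Nodup := (List.nodup_append.mp hnd1).1
  have hdisj : ∀ x ∈ insAfter l cur nw, ∀ y ∈ l1 ++ Ls.flatten, x ≠ y :=
    (List.nodup_append.mp hnd).2.2
  have hdisj1 : ∀ x ∈ l1, ∀ y ∈ Ls.flatten, x ≠ y := (List.nodup_append.mp hnd1).2.2
  -- membership of the four children
  have hsub : ∀ x ∈ insAfter (ch g) cur nw, x ∈ insAfter l cur nw := by
    intro x hx
    rw [htow, ins_flatMap, List.mem_flatMap]
    exact ⟨g, hg1, hx⟩
  have hnw : nw ∈ insAfter l cur nw := by
    rw [ins_mem]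
    exact Or.inr ⟨rfl, h.hcur⟩
  have hc3 : d.c3 g ∈ insAfter l cur nw := hsub _ (by rw [hfour]; simp)
  have hc4 : d.c4 g ∈ insAfter l cur nw := hsub _ (by rw [hfour]; simp)
  -- ids
  have hids : ∀ x ∈ insAfter l cur nw ++ (l1 ++ Ls.flatten), 1 ≤ x ∧ x ≤ d.cnt := by
    intro x hx
    have := h.ids x
    rw [List.flatten_cons] at this
    exact this hx
  have hidsA : ∀ x ∈ insAfter l cur nw, 1 ≤ x ∧ x ≤ d.cnt := fun x hx =>
    hids x (List.mem_append_left _ hx)
  have hidsB : ∀ x ∈ l1 ++ Ls.flatten, 1 ≤ x ∧ x ≤ d.cnt := fun x hx =>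
    hids x (List.mem_append_right _ hx)
  have hids1 : ∀ x ∈ l1, 1 ≤ x ∧ x ≤ d.cnt := fun x hx => hidsB x (List.mem_append_left _ hx)
  have hidsL : ∀ x ∈ Ls.flatten, 1 ≤ x ∧ x ≤ d.cnt := fun x hx =>
    hidsB x (List.mem_append_right _ hx)
  have hg2 : ∀ x ∈ l1 ++ Ls.flatten, x ≠ d.cnt + 1 := by
    intro x hx
    have := hidsB x hx
    omega
  have hg21 : d.cnt + 1 ∉ l1 := fun hx => hg2 _ (List.mem_append_left _ hx) rfl
  have h01 : (0 : ℕ) ∉ l1 := fun hx => by have := hids1 0 hx; omega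
  -- upward pointers
  have hup : ∀ x ∈ l1 ++ Ls.flatten, (d.split g nw).up x = d.up x := by
    intro x hx
    rw [DSplitB_up, upd_ne _ _ (hdisj _ hc4 x hx).symm, upd_ne _ _ (hdisj _ hc3 x hx).symm,
      upd_ne _ _ (hdisj _ hnw x hx).symm]
  have hfl : ∀ x, x ≠ g → x ≠ d.cnt + 1 → (d.split g nw).fl x = d.fl x := by
    intro x hx1 hx2
    rw [DSplitB_fl, upd_ne _ _ hx2, upd_ne _ _ hx1]
  have hcn : ∀ x, x ≠ g → x ≠ d.cnt + 1 → (d.split g nw).cn x = d.cn x := by
    intro x hx1 hx2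
    rw [DSplitB_cn, upd_ne _ _ hx2, upd_ne _ _ hx1]
  have hfi : ∀ x, x ≠ d.cnt + 1 → (d.split g nw).fi x = d.fi x := by
    intro x hx2
    rw [DSplitB_fi, upd_ne _ _ hx2]
  have hgL : ∀ x ∈ Ls.flatten, x ≠ g := fun x hx => (hdisj1 g hg1 x hx).symm
  have hg2L : ∀ x ∈ Ls.flatten, x ≠ d.cnt + 1 := fun x hx =>
    hg2 x (List.mem_append_right _ hx)
  have hch : ∀ x ∈ Ls.flatten, ch1 d ch g x = ch x := by
    intro x hx
    unfold ch1
    rw [if_neg (hg2L x hx), if_neg (hgL x hx)]
  have hlnk1 : Lnk d.nx d.pv l1 := h.lnk l1 (by simp)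
  have hoth : ∀ L' ∈ Ls, (∀ y ∈ L', (d.split g nw).nx y = d.nx y) ∧
      (∀ y ∈ L', (d.split g nw).pv y = d.pv y) := by
    intro L' hL'
    have hmem : ∀ y ∈ L', y ∈ Ls.flatten := fun y hy => List.mem_flatten.mpr ⟨L', hL', hy⟩
    have h5 := link_other (d := d) (l := l1) (l' := L') (x := g) (e := d.cnt + 1) hlnk1 hg1
      (fun hx => hg2L _ (hmem _ hx) rfl) (fun y hy hy1 => hdisj1 y hy1 y (hmem y hy) rfl)
      (fun hx => by have := hidsL 0 (hmem 0 hx); omega)
    exact h5
  -- flags of g and of the new group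
  have hgrpg : GrpP d ch cur nw g := h.grp0 g (by simpa using hg1)
  have hflg := hgrpg.fl
  rw [hfour] at hflg
  have hflS : (d.split g nw).fl g ≠ 0 ↔ (d.fl (d.c1 g) ≠ 0 ∨ d.fl (d.c2 g) ≠ 0) := by
    have hgne : g ≠ d.cnt + 1 := hg2 g (List.mem_append_left _ hg1)
    rw [DSplitB_fl, upd_ne _ _ hgne, upd_same]
    split_ifs with h6
    · constructor
      · intro _; omega
      · intro _; omega
    · constructor
      · intro h7; omega
      · intro h7; omega
  have hflS2 : (d.split g nw).fl (d.cnt + 1) ≠ 0 ↔ (d.fl (d.c3 g) ≠ 0 ∨ d.fl (d.c4 g) ≠ 0) := by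
    rw [DSplitB_fl, upd_same]
    split_ifs with h6
    · constructor
      · intro _; omega
      · intro _; omega
    · constructor
      · intro h7; omega
      · intro h7; omega
  have hflall : d.fl g ≠ 0 ↔ ((d.split g nw).fl g ≠ 0 ∨ (d.split g nw).fl (d.cnt + 1) ≠ 0) := by
    rw [hflg, hflS, hflS2]
    simp [or_assoc]
  refine ⟨hg1, ?_, ?_, ?_, ?_, ?_, ?_, ?_, ?_, ?_, ?_, ?_, ?_⟩
  · -- tow
    exact tow_congr Ls l1 hch htow2
  · -- lnk0
    exact lnk_link (d := d) hlnk1 hl1nd hg1 hg21 h01 (Nat.succ_ne_zero _)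
  · -- lnk
    intro L' hL'
    exact lnk_congr (h.lnk L' (by simp [hL'])) (hoth L' hL').1 (hoth L' hL').2
  · -- hd0
    intro x hx
    have h5 := link_head (d := d) hlnk1 hl1nd hg1 hg21 h01 (Nat.succ_ne_zero _)
      (h.hd l1 (by simp)) x (by rw [ins_head]; exact hx)
    exact h5
  · -- hd
    intro L' hL' x hx
    rw [(hoth L' hL').2 x (List.mem_of_mem_head? hx)]
    exact h.hd L' (by simp [hL']) x hx
  · -- nodup
    have hp : (insAfter l1 g (d.cnt + 1) ++ Ls.flatten).Perm
        ((d.cnt + 1) :: (l1 ++ Ls.flatten)) := (ins_perm hl1nd hg1).append_right _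
    rw [hp.nodup_iff, List.nodup_cons]
    exact ⟨fun hx => hg2 _ hx rfl, hnd1⟩
  · -- grp0
    intro g' hg'
    have hg'L : g' ∈ Ls.flatten := by
      cases Ls with
      | nil => simp at hg'
      | cons l2 Ls2 =>
        rw [List.flatten_cons, List.mem_append]
        exact Or.inl (by simpa using hg')
    have hG : Grp d ch g' := h.grp g' (by simpa using hg'L)
    have hchild : ∀ c ∈ ch g', c ∈ l1 := fun c hc => DSplitB_child0 htow2 hg' hc
    have hc2 : ∀ c ∈ ch g', c ≠ d.cnt + 1 := fun c hc =>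
      hg2 c (List.mem_append_left _ (hchild c hc))
    refine ⟨?_, ?_, ?_, ?_, ?_⟩
    · rw [hch g' hg'L]; exact hG.len
    · rw [hch g' hg'L, hcn g' (hgL g' hg'L) (hg2L g' hg'L)]; exact hG.cn
    · rw [hch g' hg'L, hfi g' (hg2L g' hg'L)]; exact hG.fi
    · intro c hc
      rw [hch g' hg'L] at hc
      rw [hup c (List.mem_append_left _ (hchild c hc))]
      exact hG.up c hc
    · rw [hch g' hg'L, hfl g' (hgL g' hg'L) (hg2L g' hg'L), hG.fl]
      constructor
      · rintro ⟨c, hc, hcf⟩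
        by_cases hcg : c = g
        · rw [hcg] at hc hcf
          rcases hflall.mp hcf with h6 | h6
          · exact ⟨g, ins_mem.mpr (Or.inl hc), h6⟩
          · exact ⟨d.cnt + 1, ins_mem.mpr (Or.inr ⟨rfl, hc⟩), h6⟩
        · exact ⟨c, ins_mem.mpr (Or.inl hc), by rw [hfl c hcg (hc2 c hc)]; exact hcf⟩
      · rintro ⟨c, hc, hcf⟩
        rcases ins_mem.mp hc with hc' | ⟨hc', hgm⟩
        · by_cases hcg : c = g
          · rw [hcg] at hc' hcf
            exact ⟨g, hc', hflall.mpr (Or.inl hcf)⟩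
          · exact ⟨c, hc', by rw [hfl c hcg (hc2 c hc')] at hcf; exact hcf⟩
        · rw [hc'] at hcf
          exact ⟨g, hgm, hflall.mpr (Or.inr hcf)⟩
  · -- grp
    intro g' hg'
    have hg'L : g' ∈ Ls.flatten := by
      cases Ls with
      | nil => simp at hg'
      | cons l2 Ls2 =>
        rw [List.flatten_cons, List.mem_append]
        exact Or.inr (by simpa using hg')
    have hG : Grp d ch g' := h.grp g' (by simpa using hg'L)
    have hchild : ∀ c ∈ ch g', c ∈ Ls.flatten := fun c hc =>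
      DSplitB_child Ls l1 htow2 g' c hg' hc
    refine ⟨?_, ?_, ?_, ?_, ?_⟩
    · rw [hch g' hg'L]; exact hG.len
    · rw [hch g' hg'L, hcn g' (hgL g' hg'L) (hg2L g' hg'L)]; exact hG.cn
    · rw [hch g' hg'L, hfi g' (hg2L g' hg'L)]; exact hG.fi
    · intro c hc
      rw [hch g' hg'L] at hc
      rw [hup c (List.mem_append_right _ (hchild c hc))]
      exact hG.up c hc
    · rw [hch g' hg'L, hfl g' (hgL g' hg'L) (hg2L g' hg'L), hG.fl]
      constructor
      · rintro ⟨c, hc, hcf⟩
        exact ⟨c, hc, by rw [hfl c (hgL c (hchild c hc)) (hg2L c (hchild c hc))]; exact hcf⟩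
      · rintro ⟨c, hc, hcf⟩
        rw [hfl c (hgL c (hchild c hc)) (hg2L c (hchild c hc))] at hcf
        exact ⟨c, hc, hcf⟩
  · -- top
    intro x hx
    have h5 : (l :: l1 :: Ls).getLast? = some [x] := by
      rw [List.getLast?_cons_cons]
      exact hx
    have h6 : x ∈ l1 ++ Ls.flatten := by
      have h7 : [x] ∈ l1 :: Ls := List.mem_of_getLast? hx
      rw [← List.flatten_cons]
      exact List.mem_flatten.mpr ⟨[x], h7, by simp⟩
    rw [hup x h6]
    exact h.top x h5
  · -- ids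
    intro x hx
    rw [DSplitB_cnt]
    rcases List.mem_append.mp hx with hx | hx
    · rcases ins_mem.mp hx with hx | ⟨hx, _⟩
      · have := hids1 x hx; omega
      · omega
    · have := hidsL x hx; omega
  · -- fresh
    intro x hx
    rw [DSplitB_cnt] at hx
    obtain ⟨f1, f2, f3, f4, f5, f6⟩ := h.fresh x (by omega)
    have hgc := hids1 g hg1
    have hxg : x ≠ g := by omega
    have hxg2 : x ≠ d.cnt + 1 := by omega
    have hxn : x ≠ d.nx g := by
      rcases DSplitB_nxmem hlnk1 hl1nd hg1 with h6 | h6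
      · rw [h6]; omega
      · have := hids1 _ h6; omega
    have hxnw : x ≠ nw := by have := hidsA _ hnw; omega
    have hx3 : x ≠ d.c3 g := by have := hidsA _ hc3; omega
    have hx4 : x ≠ d.c4 g := by have := hidsA _ hc4; omega
    refine ⟨?_, ?_, ?_, ?_, ?_, ?_⟩
    · show upd (upd d.nx g (d.cnt + 1)) (d.cnt + 1) (d.nx g) x = 0
      rw [upd_ne _ _ hxg2, upd_ne _ _ hxg]; exact f1
    · show upd (upd d.pv (d.cnt + 1) g) (d.nx g) (d.cnt + 1) x = 0
      rw [upd_ne _ _ hxn, upd_ne _ _ hxg2]; exact f2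
    · rw [DSplitB_up, upd_ne _ _ hx4, upd_ne _ _ hx3, upd_ne _ _ hxnw]; exact f3
    · rw [hfi x hxg2]; exact f4
    · rw [hcn x hxg hxg2]; exact f5
    · rw [hfl x hxg hxg2]; exact f6
  · -- bit
    intro x
    by_cases hxg2 : x = d.cnt + 1
    · rw [hxg2, DSplitB_fl, upd_same]
      split_ifs <;> omega
    · by_cases hxg : x = g
      · rw [hxg] at hxg2 ⊢
        rw [DSplitB_fl, upd_ne _ _ hxg2, upd_same]
        split_ifs <;> omega
      · rw [hfl x hxg hxg2]
        exact h.bit x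

end ST2
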