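import Pool.Agent.helper32.ST.RDef

/-!
# ST2-RCode : the program
-/

namespace ST2

open Ex Cmd

/-- link the item e directly after x; y is the old successor -/
def linkC (x e : Rg) : Cmd := bl [
  set .iY (get .nx (reg x)), put .nx (reg x) (reg e), put .nx (reg e) (reg .iY),
  put .pv (reg e) (reg x), put .pv (reg .iY) (reg e)]

def rootC : Cmd := bl [
  set .iF1 (lt (lit 0) (add (get .fl (reg .iCur)) (get .fl (reg .iNw)))),
  set .cnt (add (reg .cnt) (lit 1)),
  put .up (reg .iCur) (reg .cnt),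
  put .up (reg .iNw) (reg .cnt),
  put .fi (reg .cnt) (reg .iCur),
  put .cn (reg .cnt) (lit 2),
  put .fl (reg .cnt) (reg .iF1),
  set .iRun (lit 0)]

def addC : Cmd := bl [
  put .up (reg .iNw) (reg .iG),
  put .cn (reg .iG) (add (get .cn (reg .iG)) (lit 1)),
  set .iRun (lit 0)]

def splitDC : Cmd := bl [
  set .iC1 (get .fi (reg .iG)),
  set .iC2 (get .nx (reg .iC1)),
  set .iC3 (get .nx (reg .iC2)),
  set .iC4 (get .nx (reg .iC3)),
  set .iF1 (lt (lit 0) (add (get .fl (reg .iC1)) (get .fl (reg .iC2)))),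
  set .iF2 (lt (lit 0) (add (get .fl (reg .iC3)) (get .fl (reg .iC4)))),
  set .cnt (add (reg .cnt) (lit 1)),
  put .up (reg .iNw) (reg .iG),
  put .up (reg .iC3) (reg .cnt),
  put .up (reg .iC4) (reg .cnt),
  put .fi (reg .cnt) (reg .iC3),
  put .cn (reg .iG) (lit 2),
  put .cn (reg .cnt) (lit 2),
  put .fl (reg .iG) (reg .iF1),
  put .fl (reg .cnt) (reg .iF2),
  linkC .iG .cnt,
  set .iCur (reg .iG),
  set .iNw (reg .cnt)]

def insBody : Cmd := bl [
  set .iG (get .up (reg .iCur)),
  ite (eq (reg .iG) (lit 0)) rootC (ite (lt (get .cn (reg .iG)) (lit 3)) addC splitDC)]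

/-- insert a new element after iX, its number is put into iE -/
def insC : Cmd := bl [
  set .cnt (add (reg .cnt) (lit 1)),
  set .iE (reg .cnt),
  linkC .iX .iE,
  set .iCur (reg .iX),
  set .iNw (reg .iE),
  set .iRun (lit 1),
  loop (reg .iRun) insBody]

def climbBody : Cmd := bl [
  set .mG (get .up (reg .mC)), put .fl (reg .mG) (lit 1), set .mC (reg .mG)]

def climbCond : Ex :=
  mul (lt (lit 0) (get .up (reg .mC))) (eq (get .fl (get .up (reg .mC))) (lit 0))

def kidsC : Cmd := bl [
  set .mA (get .fi (reg .mU)), set .mB2 (get .nx (reg .mA)), set .mC3 (get .nx (reg .mB2))]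

def descLBody : Cmd := bl [kidsC,
  ite (mul (eq (get .cn (reg .mU)) (lit 3)) (get .fl (reg .mC3))) (set .mU (reg .mC3))
    (ite (get .fl (reg .mB2)) (set .mU (reg .mB2)) (set .mU (reg .mA)))]

def descFBody : Cmd := bl [kidsC,
  ite (get .fl (reg .mA)) (set .mU (reg .mA))
    (ite (get .fl (reg .mB2)) (set .mU (reg .mB2)) (set .mU (reg .mC3)))]

/-- mark mE; the neighbour is put into mU, the side into mB -/
def markOpC : Cmd := bl [
  put .fl (reg .mE) (lit 1),
  set .mC (reg .mE),
  loop climbCond climbBody,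
  set .mP (get .pv (reg .mC)),
  ite (mul (eq (get .up (reg .mP)) (get .up (reg .mC))) (eq (get .fl (reg .mP)) (lit 0)))
    (set .mU (get .pv (reg .mP))) (set .mU (reg .mP)),
  ite (mul (eq (get .up (reg .mU)) (get .up (reg .mC))) (get .fl (reg .mU)))
    (bl [loop (get .cn (reg .mU)) descLBody, set .mB (lit 1)])
    (bl [ite (eq (get .fl (get .nx (reg .mC))) (lit 0))
          (set .mU (get .nx (get .nx (reg .mC)))) (set .mU (get .nx (reg .mC))),
        loop (get .cn (reg .mU)) descFBody, set .mB (lit 0)])]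

/-- mark mE and link it into the list of marked elements -/
def markC : Cmd := bl [
  markOpC,
  ite (reg .mB) (bl [set .mRR (reg .mU), set .mTT (get .nm (reg .mU))])
    (bl [set .mRR (get .pm (reg .mU)), set .mTT (reg .mU)]),
  put .nm (reg .mRR) (reg .mE),
  put .nm (reg .mE) (reg .mTT),
  put .pm (reg .mE) (reg .mRR),
  put .pm (reg .mTT) (reg .mE)]

/-- index of a locus -/
def ixE (z k : Ex) : Ex := add (mul z (reg .bb)) k

/-- insert the locus (vZ, vK) after vY if it is not in the list -/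
def evisC : Cmd := 
  ite (get .el (ixE (reg .vZ) (reg .vK))) skip (bl [
    set .iX (reg .vY),
    insC,
    put .el (ixE (reg .vZ) (reg .vK)) (reg .iE),
    put .kz (reg .iE) (reg .vZ),
    put .kk (reg .iE) (reg .vK)])

/-- new leaf with position lP below the node lV -/
def addChildC : Cmd := bl [
  set .tc (add (reg .tc) (lit 1)),
  set .sF (get .fc (reg .lV)),
  put .par (reg .tc) (reg .lV),
  put .fc (reg .lV) (reg .tc),
  put .ns (reg .tc) (reg .sF),
  put .ps (reg .tc) (lit 0),
  put .ps (reg .sF) (reg .tc),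
  put .sz (reg .tc) (lit 0),
  put .po (reg .tc) (reg .lP)]

def newLeafC : Cmd := bl [
  set .iX (reg .last),
  insC,
  addChildC,
  put .hs (reg .lP) (reg .last),
  put .ts (reg .lP) (reg .iE),
  put .nd (reg .iE) (reg .tc),
  set .last (reg .iE),
  set .mE (reg .iE),
  markC]

/-- new internal node above sW with size sK and position sP -/
def splitC : Cmd := bl [
  set .tc (add (reg .tc) (lit 1)),
  set .sU (get .par (reg .sW)),
  set .sA (get .ps (reg .sW)),
  set .sB (get .ns (reg .sW)),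
  put .par (reg .tc) (reg .sU),
  put .par (reg .sW) (reg .tc),
  ite (reg .sA) (put .ns (reg .sA) (reg .tc)) (put .fc (reg .sU) (reg .tc)),
  put .fc (reg .tc) (reg .sW),
  put .ns (reg .tc) (reg .sB),
  put .ns (reg .sW) (lit 0),
  put .ps (reg .sB) (reg .tc),
  put .ps (reg .tc) (reg .sA),
  put .ps (reg .sW) (lit 0),
  put .sz (reg .tc) (reg .sK),
  put .po (reg .tc) (reg .sP)]

/-- make the locus (aZ, aK) a tree node -/
def realC : Cmd := bl [
  set .aE (get .el (ixE (reg .aZ) (reg .aK))),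
  ite (get .fl (reg .aE)) skip (bl [
    set .mE (reg .aE),
    markC,
    set .sW (get .nd (get .nm (reg .aE))),
    set .sK (reg .aK),
    set .sP (sub (reg .aZ) (mul (sub (reg .aK) (lit 1)) (reg .dl))),
    splitC,
    put .nd (reg .aE) (reg .tc)])]

/-- attach a leaf with position aP at the locus (aZ, aK) -/
def attachC : Cmd := bl [
  realC,
  set .lV (get .nd (get .el (ixE (reg .aZ) (reg .aK)))),
  set .lP (reg .aP),
  newLeafC]

/-- descend the name (l, m) by one size -/
def dnC (l m : Rg) : Cmd := bl [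
  ite (lt (get .lm (reg m)) (sub (reg l) (lit 1))) skip (set m (get .om (reg m))),
  set l (sub (reg l) (lit 1))]

def preC : Cmd := bl [
  loop (lt (reg .cK) (reg .cL2)) (dnC .cL2 .cN2),
  loop (lt (reg .cK) (reg .cL3)) (dnC .cL3 .cN3)]

def imgC : Cmd := bl [
  set .cT (get .nm (get .el (ixE (reg .cN1) (reg .cK)))),
  ite (get .kk (reg .cT))
    (set .vY (get .pv (get .el (ixE (get .kz (reg .cT)) (sub (get .kk (reg .cT)) (lit 1))))))
    (set .vY (get .pv (get .ts (sub (reg .cN1) (mul (sub (reg .cK) (lit 2)) (reg .dl))))))]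

/-- names of the neighbours -/
def namesC : Cmd := bl [
  ite (eq (reg .cL2) (reg .cK)) (set .cT2 (reg .cN2)) (set .cT2 (sub (reg .c) (reg .n1))),
  ite (eq (reg .cL3) (reg .cK)) (set .cT3 (reg .cN3)) (set .cT3 (sub (reg .c) (lit 1))),
  ite (lt (get .lm (add (reg .cN1) (lit 1))) (reg .cK)) (set .cM2 (add (reg .cN1) (lit 1)))
    (set .cM2 (get .om (add (reg .cN1) (lit 1)))),
  ite (lt (get .lm (add (reg .cN1) (reg .n1))) (reg .cK)) (set .cM3 (add (reg .cN1) (reg .n1)))
    (set .cM3 (get .om (add (reg .cN1) (reg .n1))))]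

def mainE : Ex := mul (mul (eq (reg .cM2) (reg .cT2)) (eq (reg .cM3) (reg .cT3)))
  (eq (get .am (add (reg .cN1) (reg .dl))) (reg .cA))

def dxE : Ex :=
  add (mul (add (mul (add (mul (add (mul (reg .cK) (reg .bb)) (reg .cN1)) (reg .bb)) (reg .cT2))
    (reg .bb)) (reg .cT3)) (reg .bb)) (reg .cA)

def nextC : Cmd := bl [
  ite (lt (get .lm (reg .cN1)) (sub (reg .cK) (lit 1))) skip (set .cN1 (get .om (reg .cN1))),
  ite (eq (reg .cL2) (reg .cK)) (dnC .cL2 .cN2) skip,
  ite (eq (reg .cL3) (reg .cK)) (dnC .cL3 .cN3) skip,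
  set .cK (sub (reg .cK) (lit 1))]

def missC : Cmd := bl [
  put .dm dxE (reg .c),
  set .aZ (reg .cN1),
  set .aK (reg .cK),
  set .aP (sub (reg .c) (mul (reg .cK) (reg .dl))),
  attachC,
  ite (lt (get .lm (reg .cN1)) (sub (reg .cK) (lit 1)))
    (bl [imgC, set .vZ (reg .cN1), set .vK (sub (reg .cK) (lit 1)), evisC]) skip,
  nextC]

def hitC : Cmd := bl [
  set .vZ (reg .cFD), set .vK (add (reg .cK) (lit 1)), evisC]

def bodyC : Cmd := bl [
  namesC,
  ite mainE
    (bl [set .cFD (add (reg .cN1) (reg .dl)),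
        set .vY (get .el (ixE (reg .cN1) (reg .cK))), hitC])
    (bl [set .cFD (get .dm dxE),
        ite (reg .cFD)
          (bl [set .vY (get .hs (sub (reg .cFD) (mul (reg .cK) (reg .dl)))), hitC])
          missC])]

def mainC : Cmd := loop (mul (lt (lit 0) (reg .cK)) (eq (reg .cFD) (lit 0))) bodyC

def endC : Cmd :=
  ite (reg .cFD)
    (bl [put .lm (reg .c) (add (reg .cK) (lit 1)), put .om (reg .c) (reg .cFD)])
    (ite (eq (reg .cA) (reg .c))
      (bl [put .lm (reg .c) (lit 0), set .lV (lit 1), set .lP (reg .c), newLeafC])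
      (bl [put .lm (reg .c) (lit 1), put .om (reg .c) (reg .cA), set .vZ (reg .cA),
        set .vK (lit 1), set .vY (get .hs (reg .cA)), evisC]))

/-- one cell: code in c, letter in cS -/
def cellC : Cmd := bl [
  ite (get .fm (reg .cS)) (set .cA (get .fm (reg .cS))) (set .cA (reg .c)),
  put .fm (reg .cS) (reg .cA),
  put .am (reg .c) (reg .cA),
  set .cK (get .lm (sub (reg .c) (reg .dl))),
  set .cN1 (get .om (sub (reg .c) (reg .dl))),
  set .cL2 (get .lm (sub (reg .c) (reg .n1))),
  set .cN2 (get .om (sub (reg .c) (reg .n1))),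
  set .cL3 (get .lm (sub (reg .c) (lit 1))),
  set .cN3 (get .om (sub (reg .c) (lit 1))),
  preC,
  set .cFD (lit 0),
  mainC,
  endC]

/-- one row -/
def rowC : Cmd := bl [
  set .c (add (reg .c) (lit 1)),
  set .j (lit 0),
  loop (lt (reg .j) (reg .n)) (bl [
    set .c (add (reg .c) (lit 1)), rd .cS, cellC, set .j (add (reg .j) (lit 1))])]

/-- initialisation: reads n -/
def initC : Cmd := bl [
  rd .n,
  set .n1 (add (reg .n) (lit 1)),
  set .dl (add (reg .n) (lit 2)),
  set .bb (mul (reg .n1) (reg .n1)),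
  set .cnt (lit 1),
  put .fl (lit 1) (lit 1),
  set .last (lit 1),
  set .tc (lit 1),
  set .c (reg .n)]

end ST2
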