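import Pool.Agent.helper32.ST.FDef
import Pool.Agent.helper32.ST.RCode

/-!
# ST2-FComp : from the array language to one memory

Register r lives at the address 64 * r.code, entry i of the array a at 64 i + a.code (1 <= a.code <= 25).
Codes are injective (cases, or decide).  RunB M: a run in which all states are bounded by M.
* ev_bound: by induction, literals <= 4: e.ev s <= (M+4)^size (M+4 >= 1; x + y <= (M+4) * X * Y for
  X, Y >= 1; x * y <= X Y; get: value <= M).
* fc_ev: Rep s m implies (e.fc).ev m = e.ev s.  fc_ok: with W >= 64 (M+4)^K + 5000, size <= K.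
  (Addresses: i*64 + code <= 64 (M+4)^K + 25; 64 * r.code <= 64 * 63.)
* fc_size: e.fc.size <= 5 e.size.
* rep_set, rep_put: address arithmetic: 64 * r.code = 64 i + a.code impossible (mod 64); omega.
* frun_of_runB: induction on RunB; t' <= 6 t.
-/

namespace ST2

def Rg.code : Rg → ℕ
  | .n => 0 | .n1 => 1 | .dl => 2 | .bb => 3 | .cnt => 4 | .last => 5 | .tc => 6 | .c => 7
  | .j => 8 | .iX => 9 | .iE => 10 | .iCur => 11 | .iNw => 12 | .iG => 13 | .iRun => 14
  | .iC1 => 15 | .iC2 => 16 | .iC3 => 17 | .iC4 => 18 | .iF1 => 19 | .iF2 => 20 | .iY => 21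
  | .mE => 22 | .mC => 23 | .mG => 24 | .mU => 25 | .mP => 26 | .mA => 27 | .mB2 => 28
  | .mC3 => 29 | .mB => 30 | .mRR => 31 | .mTT => 32 | .vZ => 33 | .vK => 34 | .vY => 35
  | .lV => 36 | .lP => 37 | .sF => 38 | .sW => 39 | .sK => 40 | .sP => 41 | .sU => 42
  | .sA => 43 | .sB => 44 | .aZ => 45 | .aK => 46 | .aP => 47 | .aE => 48 | .cS => 49
  | .cA => 50 | .cK => 51 | .cN1 => 52 | .cL2 => 53 | .cN2 => 54 | .cL3 => 55 | .cN3 => 56
  | .cT2 => 57 | .cT3 => 58 | .cM2 => 59 | .cM3 => 60 | .cFD => 61 | .cT => 62 | .cNN => 63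

def Ar.code : Ar → ℕ
  | .nx => 1 | .pv => 2 | .up => 3 | .fi => 4 | .cn => 5 | .fl => 6 | .nm => 7 | .pm => 8
  | .nd => 9 | .el => 10 | .kz => 11 | .kk => 12 | .hs => 13 | .ts => 14 | .par => 15
  | .fc => 16 | .ns => 17 | .ps => 18 | .sz => 19 | .po => 20 | .lm => 21 | .om => 22
  | .am => 23 | .fm => 24 | .dm => 25

def Ex.fc : Ex → FEx
  | .lit k => .lit k
  | .reg r => .ld (.lit (64 * r.code))
  | .get a i => .ld (.add (.mul i.fc (.lit 64)) (.lit a.code))
  | .add x y => .add x.fc y.fc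
  | .sub x y => .sub x.fc y.fc
  | .mul x y => .mul x.fc y.fc
  | .eq x y => .eq x.fc y.fc
  | .lt x y => .lt x.fc y.fc

def Cmd.fc : Cmd → FCmd
  | .skip => .skip
  | .set r e => .st (.lit (64 * r.code)) e.fc
  | .put a i e => .st (.add (.mul i.fc (.lit 64)) (.lit a.code)) e.fc
  | .rd r => .rd (.lit (64 * r.code))
  | .seq c d => .seq c.fc d.fc
  | .ite e c d => .ite e.fc c.fc d.fc
  | .loop e c => .loop e.fc c.fc

/-- the memory m represents the state s -/
structure Rep (s : St) (m : ℕ → ℕ) : Prop where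
  reg : ∀ r : Rg, m (64 * r.code) = s.rg r
  arr : ∀ (a : Ar) (i : ℕ), m (i * 64 + a.code) = s.ar a i

/-- all values of the state are at most M -/
def Bd (M : ℕ) (s : St) : Prop :=
  (∀ r, s.rg r ≤ M) ∧ (∀ a i, s.ar a i ≤ M) ∧ ∀ v ∈ s.inp, v ≤ M

/-- a run in which all states are bounded by M -/
inductive RunB (M : ℕ) : Cmd → St → St → ℕ → Prop
  | skip (s : St) : RunB M .skip s s 0
  | set (r : Rg) (e : Ex) (s : St) (hb : Bd M s) :
      RunB M (.set r e) s (s.setr r (e.ev s)) (e.size + 1)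
  | put (a : Ar) (i e : Ex) (s : St) (hb : Bd M s) :
      RunB M (.put a i e) s (s.seta a (i.ev s) (e.ev s)) (i.size + e.size + 1)
  | rd (r : Rg) (s : St) (v : ℕ) (w : List ℕ) (h : s.inp = v :: w) (hb : Bd M s) :
      RunB M (.rd r) s { s.setr r v with inp := w } 1
  | seq (c d : Cmd) (s s1 s2 : St) (t1 t2 : ℕ) (h1 : RunB M c s s1 t1) (h2 : RunB M d s1 s2 t2) :
      RunB M (.seq c d) s s2 (t1 + t2)
  | iteT (e : Ex) (c d : Cmd) (s s' : St) (t : ℕ) (hb : Bd M s) (h : e.ev s ≠ 0)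
      (h1 : RunB M c s s' t) : RunB M (.ite e c d) s s' (t + e.size + 1)
  | iteF (e : Ex) (c d : Cmd) (s s' : St) (t : ℕ) (hb : Bd M s) (h : e.ev s = 0)
      (h1 : RunB M d s s' t) : RunB M (.ite e c d) s s' (t + e.size + 1)
  | loopF (e : Ex) (c : Cmd) (s : St) (hb : Bd M s) (h : e.ev s = 0) :
      RunB M (.loop e c) s s (e.size + 1)
  | loopT (e : Ex) (c : Cmd) (s s1 s2 : St) (t1 t2 : ℕ) (hb : Bd M s) (h : e.ev s ≠ 0)
      (h1 : RunB M c s s1 t1) (h2 : RunB M (.loop e c) s1 s2 t2) :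
      RunB M (.loop e c) s s2 (t1 + t2 + e.size + 1)

/-- all literals are at most 4 -/
def Ex.lok : Ex → Bool
  | .lit k => decide (k ≤ 4)
  | .reg _ => true
  | .get _ i => i.lok
  | .add x y => x.lok && y.lok
  | .sub x y => x.lok && y.lok
  | .mul x y => x.lok && y.lok
  | .eq x y => x.lok && y.lok
  | .lt x y => x.lok && y.lok

/-- all expressions of the program have size at most K and literals at most 4 -/
def Cmd.lok (K : ℕ) : Cmd → Bool
  | .skip => true
  | .set _ e => e.lok && decide (e.size ≤ K)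
  | .put _ i e => i.lok && decide (i.size ≤ K) && e.lok && decide (e.size ≤ K)
  | .rd _ => true
  | .seq c d => c.lok K && d.lok K
  | .ite e c d => e.lok && decide (e.size ≤ K) && c.lok K && d.lok K
  | .loop e c => e.lok && decide (e.size ≤ K) && c.lok K

theorem FComp_lt (s : St) (x y : Ex) : (Ex.lt x y).ev s ≤ 1 := by
  show (if x.ev s < y.ev s then 1 else 0) ≤ 1
  split_ifs
  · exact le_rfl
  · exact Nat.zero_le _

theorem FComp_eq (s : St) (x y : Ex) : (Ex.eq x y).ev s ≤ 1 := by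
  show (if x.ev s = y.ev s then 1 else 0) ≤ 1
  split_ifs
  · exact le_rfl
  · exact Nat.zero_le _

theorem ev_bound {M : ℕ} {s : St} (hb : Bd M s) (e : Ex) (h : e.lok = true) :
    e.ev s ≤ (M + 4) ^ e.size := by
  have hpos : ∀ k, 1 ≤ (M + 4) ^ k := fun k => Nat.one_le_pow _ _ (by omega)
  have hstep : ∀ a b : ℕ, (M + 4) ^ (a + b + 1) = (M + 4) * ((M + 4) ^ a * (M + 4) ^ b) := by
    intro a b
    rw [pow_succ, pow_add, mul_comm]
  have hprod : ∀ a b : ℕ, (M + 4) ^ a * (M + 4) ^ b ≤ (M + 4) ^ (a + b + 1) := by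
    intro a b
    rw [hstep]
    exact Nat.le_mul_of_pos_left _ (by omega)
  induction e with
  | lit k =>
    have h2 : k ≤ 4 := by simpa [Ex.lok] using h
    show k ≤ (M + 4) ^ 1
    rw [pow_one]
    omega
  | reg r =>
    have h2 := hb.1 r
    show s.rg r ≤ (M + 4) ^ 1
    rw [pow_one]
    omega
  | get a i ih =>
    have h2 := hb.2.1 a (i.ev s)
    show s.ar a (i.ev s) ≤ (M + 4) ^ (i.size + 1)
    have h3 : M + 4 ≤ (M + 4) ^ (i.size + 1) := Nat.le_self_pow (by omega) _
    omega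
  | add x y ihx ihy =>
    have h2 : x.lok = true ∧ y.lok = true := by simpa [Ex.lok] using h
    have hx := ihx h2.1
    have hy := ihy h2.2
    show x.ev s + y.ev s ≤ (M + 4) ^ (x.size + y.size + 1)
    rw [hstep]
    have p1 := hpos x.size
    have p2 := hpos y.size
    generalize (M + 4) ^ x.size = a at *
    generalize (M + 4) ^ y.size = b at *
    have e1 : a ≤ a * b := Nat.le_mul_of_pos_right _ p2
    have e2 : b ≤ a * b := Nat.le_mul_of_pos_left _ p1
    have e3 : 2 * (a * b) ≤ (M + 4) * (a * b) := Nat.mul_le_mul_right _ (by omega)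
    omega
  | sub x y ihx ihy =>
    have h2 : x.lok = true ∧ y.lok = true := by simpa [Ex.lok] using h
    have hx := ihx h2.1
    show x.ev s - y.ev s ≤ (M + 4) ^ (x.size + y.size + 1)
    have h3 := hprod x.size y.size
    have h4 : (M + 4) ^ x.size ≤ (M + 4) ^ x.size * (M + 4) ^ y.size :=
      Nat.le_mul_of_pos_right _ (hpos _)
    omega
  | mul x y ihx ihy =>
    have h2 : x.lok = true ∧ y.lok = true := by simpa [Ex.lok] using h
    show x.ev s * y.ev s ≤ (M + 4) ^ (x.size + y.size + 1)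
    exact le_trans (Nat.mul_le_mul (ihx h2.1) (ihy h2.2)) (hprod _ _)
  | eq x y ihx ihy => exact le_trans (FComp_eq s x y) (hpos _)
  | lt x y ihx ihy => exact le_trans (FComp_lt s x y) (hpos _)

/-- the list of the registers -/
def FComp_rgs : List Rg :=
  [.n, .n1, .dl, .bb, .cnt, .last, .tc, .c, .j, .iX, .iE, .iCur, .iNw, .iG, .iRun,
   .iC1, .iC2, .iC3, .iC4, .iF1, .iF2, .iY, .mE, .mC, .mG, .mU, .mP, .mA, .mB2,
   .mC3, .mB, .mRR, .mTT, .vZ, .vK, .vY, .lV, .lP, .sF, .sW, .sK, .sP, .sU,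
   .sA, .sB, .aZ, .aK, .aP, .aE, .cS, .cA, .cK, .cN1, .cL2, .cN2, .cL3, .cN3,
   .cT2, .cT3, .cM2, .cM3, .cFD, .cT, .cNN]

theorem FComp_rg (r : Rg) : FComp_rgs.getD r.code .n = r := by
  cases r <;> rfl

theorem FComp_rginj {r q : Rg} (h : r.code = q.code) : r = q := by
  rw [← FComp_rg r, ← FComp_rg q, h]

theorem FComp_rgle (r : Rg) : r.code ≤ 63 := by
  cases r <;> decide

/-- the list of the arrays -/
def FComp_ars : List Ar :=
  [.nx, .nx, .pv, .up, .fi, .cn, .fl, .nm, .pm, .nd, .el, .kz, .kk, .hs, .ts, .par,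
   .fc, .ns, .ps, .sz, .po, .lm, .om, .am, .fm, .dm]

theorem FComp_ar (a : Ar) : FComp_ars.getD a.code .nx = a := by
  cases a <;> rfl

theorem FComp_arinj {a b : Ar} (h : a.code = b.code) : a = b := by
  rw [← FComp_ar a, ← FComp_ar b, h]

theorem FComp_arle (a : Ar) : 1 ≤ a.code ∧ a.code ≤ 25 := by
  cases a <;> decide

theorem FComp_ev {s : St} {m : ℕ → ℕ} (hr : Rep s m) (e : Ex) : e.fc.ev m = e.ev s := by
  induction e with
  | lit k => rfl
  | reg r => exact hr.reg r
  | get a i ih =>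
    show m (i.fc.ev m * 64 + a.code) = s.ar a (i.ev s)
    rw [ih]
    exact hr.arr a _
  | add x y ihx ihy =>
    show x.fc.ev m + y.fc.ev m = _
    rw [ihx, ihy]
    rfl
  | sub x y ihx ihy =>
    show x.fc.ev m - y.fc.ev m = _
    rw [ihx, ihy]
    rfl
  | mul x y ihx ihy =>
    show x.fc.ev m * y.fc.ev m = _
    rw [ihx, ihy]
    rfl
  | eq x y ihx ihy =>
    show (if x.fc.ev m = y.fc.ev m then 1 else 0) = _
    rw [ihx, ihy]
    rfl
  | lt x y ihx ihy =>
    show (if x.fc.ev m < y.fc.ev m then 1 else 0) = _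
    rw [ihx, ihy]
    rfl

theorem FComp_size (e : Ex) : e.fc.size ≤ 5 * e.size := by
  induction e with
  | lit k => show 1 ≤ 5 * 1; omega
  | reg r => show 1 + 1 ≤ 5 * 1; omega
  | get a i ih =>
    show (i.fc.size + 1 + 1) + 1 + 1 + 1 ≤ 5 * (i.size + 1)
    omega
  | add x y ihx ihy =>
    show x.fc.size + y.fc.size + 1 ≤ 5 * (x.size + y.size + 1)
    omega
  | sub x y ihx ihy =>
    show x.fc.size + y.fc.size + 1 ≤ 5 * (x.size + y.size + 1)
    omega
  | mul x y ihx ihy =>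
    show x.fc.size + y.fc.size + 1 ≤ 5 * (x.size + y.size + 1)
    omega
  | eq x y ihx ihy =>
    show x.fc.size + y.fc.size + 1 ≤ 5 * (x.size + y.size + 1)
    omega
  | lt x y ihx ihy =>
    show x.fc.size + y.fc.size + 1 ≤ 5 * (x.size + y.size + 1)
    omega

theorem FComp_evle {M K : ℕ} {s : St} (hb : Bd M s) (e : Ex) (h : e.lok = true)
    (hs : e.size ≤ K) : e.ev s ≤ (M + 4) ^ K :=
  le_trans (ev_bound hb e h) (Nat.pow_le_pow_right (by omega) hs)

theorem FComp_ok {M K W : ℕ} (hK : 1 ≤ K) (hW : 64 * (M + 4) ^ K + 5000 ≤ W) {s : St}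
    {m : ℕ → ℕ} (hb : Bd M s) (hr : Rep s m) (e : Ex) (h : e.lok = true) (hs : e.size ≤ K) :
    e.fc.ok W m := by
  have hM : M + 4 ≤ (M + 4) ^ K := Nat.le_self_pow (by omega) _
  induction e with
  | lit k =>
    have h2 : k ≤ 4 := by simpa [Ex.lok] using h
    show k < W
    omega
  | reg r =>
    have h1 := FComp_rgle r
    have h2 := hb.1 r
    show 64 * r.code < W ∧ 64 * r.code < W ∧ m (64 * r.code) < W
    rw [hr.reg r]
    refine ⟨by omega, by omega, by omega⟩
  | get a i ih =>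
    have hs' : i.size + 1 ≤ K := hs
    have h' : i.lok = true := h
    have h1 := ih h' (by omega)
    have h2 := FComp_arle a
    have h3 := hb.2.1 a (i.ev s)
    have h4 := FComp_evle (K := K) hb i h' (by omega)
    have h5 := hr.arr a (i.ev s)
    show ((i.fc.ok W m ∧ 64 < W ∧ i.fc.ev m * 64 < W) ∧ a.code < W ∧
      i.fc.ev m * 64 + a.code < W) ∧ i.fc.ev m * 64 + a.code < W ∧
      m (i.fc.ev m * 64 + a.code) < W
    rw [FComp_ev hr i, h5]
    refine ⟨⟨⟨h1, by omega, by omega⟩, by omega, by omega⟩, by omega, by omega⟩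
  | add x y ihx ihy =>
    have hs' : x.size + y.size + 1 ≤ K := hs
    have h2 : x.lok = true ∧ y.lok = true := by simpa [Ex.lok] using h
    have h3 := FComp_evle (K := K) hb (.add x y) h hs
    have h3' : x.ev s + y.ev s ≤ (M + 4) ^ K := h3
    show x.fc.ok W m ∧ y.fc.ok W m ∧ x.fc.ev m + y.fc.ev m < W
    rw [FComp_ev hr x, FComp_ev hr y]
    exact ⟨ihx h2.1 (by omega), ihy h2.2 (by omega), by omega⟩
  | sub x y ihx ihy =>
    have hs' : x.size + y.size + 1 ≤ K := hs
    have h2 : x.lok = true ∧ y.lok = true := by simpa [Ex.lok] using h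
    have h3 := FComp_evle (K := K) hb (.sub x y) h hs
    have h3' : x.ev s - y.ev s ≤ (M + 4) ^ K := h3
    show x.fc.ok W m ∧ y.fc.ok W m ∧ x.fc.ev m - y.fc.ev m < W
    rw [FComp_ev hr x, FComp_ev hr y]
    exact ⟨ihx h2.1 (by omega), ihy h2.2 (by omega), by omega⟩
  | mul x y ihx ihy =>
    have hs' : x.size + y.size + 1 ≤ K := hs
    have h2 : x.lok = true ∧ y.lok = true := by simpa [Ex.lok] using h
    have h3 := FComp_evle (K := K) hb (.mul x y) h hs
    have h3' : x.ev s * y.ev s ≤ (M + 4) ^ K := h3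
    show x.fc.ok W m ∧ y.fc.ok W m ∧ x.fc.ev m * y.fc.ev m < W
    rw [FComp_ev hr x, FComp_ev hr y]
    exact ⟨ihx h2.1 (by omega), ihy h2.2 (by omega), by omega⟩
  | eq x y ihx ihy =>
    have hs' : x.size + y.size + 1 ≤ K := hs
    have h2 : x.lok = true ∧ y.lok = true := by simpa [Ex.lok] using h
    exact ⟨ihx h2.1 (by omega), ihy h2.2 (by omega), by omega⟩
  | lt x y ihx ihy =>
    have hs' : x.size + y.size + 1 ≤ K := hs
    have h2 : x.lok = true ∧ y.lok = true := by simpa [Ex.lok] using h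
    exact ⟨ihx h2.1 (by omega), ihy h2.2 (by omega), by omega⟩

theorem FComp_set {s : St} {m : ℕ → ℕ} (h : Rep s m) (r : Rg) (v : ℕ) :
    Rep (s.setr r v) (upd m (64 * r.code) v) := by
  refine ⟨fun q => ?_, fun a i => ?_⟩
  · rw [rg_setr]
    by_cases hq : q = r
    · rw [if_pos hq, hq, upd_same]
    · rw [if_neg hq, upd_ne, h.reg q]
      intro hc
      exact hq (FComp_rginj (by omega))
  · rw [ar_setr, upd_ne, h.arr a i]
    have := FComp_arle a
    omega

theorem FComp_put {s : St} {m : ℕ → ℕ} (h : Rep s m) (a : Ar) (i v : ℕ) :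
    Rep (s.seta a i v) (upd m (i * 64 + a.code) v) := by
  have ha := FComp_arle a
  refine ⟨fun q => ?_, fun b j => ?_⟩
  · rw [rg_seta, upd_ne, h.reg q]
    omega
  · have hb := FComp_arle b
    rw [ar_seta]
    by_cases hba : b = a
    · rw [if_pos hba, hba]
      by_cases hij : j = i
      · rw [hij, upd_same, upd_same]
      · rw [upd_ne _ _ hij, upd_ne, h.arr a j]
        omega
    · rw [if_neg hba, upd_ne, h.arr b j]
      intro hc
      exact hba (FComp_arinj (by omega))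

theorem FComp_inp {s : St} {m : ℕ → ℕ} (h : Rep s m) (w : List ℕ) :
    Rep { s with inp := w } m := ⟨h.reg, h.arr⟩

/-- the hypothesis `1 ≤ K` is needed for the command rd -/
theorem frun_of_runB {M K W : ℕ} (hK : 1 ≤ K) (hW : 64 * (M + 4) ^ K + 5000 ≤ W) {c : Cmd}
    {s s' : St} {t : ℕ} (h : RunB M c s s' t) (hc : c.lok K = true) : ∀ m, Rep s m →
    ∃ m' t', FRun W c.fc m s.inp m' s'.inp t' ∧ Rep s' m' ∧ t' ≤ 6 * t := by
  have hM : M + 4 ≤ (M + 4) ^ K := Nat.le_self_pow (by omega) _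
  induction h with
  | skip s => exact fun m hm => ⟨m, 0, FRun.skip m _, hm, le_rfl⟩
  | set r e s hb =>
    intro m hm
    have h2 : e.lok = true ∧ e.size ≤ K := by simpa [Cmd.lok] using hc
    have hr := FComp_rgle r
    have hes := FComp_size e
    have ha : (FEx.lit (64 * r.code)).ok W m := by
      show 64 * r.code < W
      omega
    have hf := FRun.st (W := W) (.lit (64 * r.code)) e.fc m s.inp ha
      (FComp_ok hK hW hb hm e h2.1 h2.2)
    refine ⟨_, _, hf, ?_, ?_⟩
    · rw [FComp_ev hm e]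
      exact FComp_set hm r _
    · show 1 + e.fc.size + 1 ≤ 6 * (e.size + 1)
      omega
  | put a i e s hb =>
    intro m hm
    have h2 : ((i.lok = true ∧ i.size ≤ K) ∧ e.lok = true) ∧ e.size ≤ K := by
      simpa [Cmd.lok] using hc
    have hca := FComp_arle a
    have his := FComp_size i
    have hes := FComp_size e
    have hiv := FComp_evle (K := K) hb i h2.1.1.1 h2.1.1.2
    have ha : (FEx.add (.mul i.fc (.lit 64)) (.lit a.code)).ok W m := by
      show (i.fc.ok W m ∧ 64 < W ∧ i.fc.ev m * 64 < W) ∧ a.code < W ∧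
        i.fc.ev m * 64 + a.code < W
      rw [FComp_ev hm i]
      exact ⟨⟨FComp_ok hK hW hb hm i h2.1.1.1 h2.1.1.2, by omega, by omega⟩, by omega, by omega⟩
    have hf := FRun.st (W := W) (.add (.mul i.fc (.lit 64)) (.lit a.code)) e.fc m s.inp ha
      (FComp_ok hK hW hb hm e h2.1.2 h2.2)
    refine ⟨_, _, hf, ?_, ?_⟩
    · rw [FComp_ev hm e]
      have h3 : (FEx.add (.mul i.fc (.lit 64)) (.lit a.code)).ev m = i.ev s * 64 + a.code := by
        show i.fc.ev m * 64 + a.code = _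
        rw [FComp_ev hm i]
      rw [h3]
      exact FComp_put hm a _ _
    · show (i.fc.size + 1 + 1) + 1 + 1 + e.fc.size + 1 ≤ 6 * (i.size + e.size + 1)
      omega
  | rd r s v w hv hb =>
    intro m hm
    have hr := FComp_rgle r
    have hvM : v ≤ M := hb.2.2 v (by rw [hv]; simp)
    have ha : (FEx.lit (64 * r.code)).ok W m := by
      show 64 * r.code < W
      omega
    have hf := FRun.rd (W := W) (.lit (64 * r.code)) m v w ha (by omega)
    rw [hv]
    refine ⟨_, _, hf, ?_, ?_⟩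
    · exact FComp_inp (FComp_set hm r v) w
    · show 1 + 1 ≤ 6 * 1
      omega
  | seq c d s s1 s2 t1 t2 _ _ ih1 ih2 =>
    intro m hm
    have h2 : c.lok K = true ∧ d.lok K = true := by simpa [Cmd.lok] using hc
    obtain ⟨m1, u1, r1, p1, q1⟩ := ih1 h2.1 m hm
    obtain ⟨m2, u2, r2, p2, q2⟩ := ih2 h2.2 m1 p1
    exact ⟨m2, _, FRun.seq _ _ _ _ _ _ _ _ _ _ r1 r2, p2, by omega⟩
  | iteT e c d s s' t hb he _ ih =>
    intro m hm
    have h2 : ((e.lok = true ∧ e.size ≤ K) ∧ c.lok K = true) ∧ d.lok K = true := by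
      simpa [Cmd.lok] using hc
    have hes := FComp_size e
    obtain ⟨m1, u1, r1, p1, q1⟩ := ih h2.1.2 m hm
    exact ⟨m1, _, FRun.iteT _ _ _ _ _ _ _ _ (FComp_ok hK hW hb hm e h2.1.1.1 h2.1.1.2)
      (by rw [FComp_ev hm e]; exact he) r1, p1, by omega⟩
  | iteF e c d s s' t hb he _ ih =>
    intro m hm
    have h2 : ((e.lok = true ∧ e.size ≤ K) ∧ c.lok K = true) ∧ d.lok K = true := by
      simpa [Cmd.lok] using hc
    have hes := FComp_size e
    obtain ⟨m1, u1, r1, p1, q1⟩ := ih h2.2 m hm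
    exact ⟨m1, _, FRun.iteF _ _ _ _ _ _ _ _ (FComp_ok hK hW hb hm e h2.1.1.1 h2.1.1.2)
      (by rw [FComp_ev hm e]; exact he) r1, p1, by omega⟩
  | loopF e c s hb he =>
    intro m hm
    have h2 : (e.lok = true ∧ e.size ≤ K) ∧ c.lok K = true := by simpa [Cmd.lok] using hc
    have hes := FComp_size e
    exact ⟨m, _, FRun.loopF _ _ _ _ (FComp_ok hK hW hb hm e h2.1.1 h2.1.2)
      (by rw [FComp_ev hm e]; exact he), hm, by omega⟩
  | loopT e c s s1 s2 t1 t2 hb he _ _ ih1 ih2 =>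
    intro m hm
    have h2 : (e.lok = true ∧ e.size ≤ K) ∧ c.lok K = true := by simpa [Cmd.lok] using hc
    have hes := FComp_size e
    obtain ⟨m1, u1, r1, p1, q1⟩ := ih1 h2.2 m hm
    obtain ⟨m2, u2, r2, p2, q2⟩ := ih2 hc m1 p1
    exact ⟨m2, _, FRun.loopT _ _ _ _ _ _ _ _ _ _ (FComp_ok hK hW hb hm e h2.1.1 h2.1.2)
      (by rw [FComp_ev hm e]; exact he) r1 r2, p2, by omega⟩

theorem rowC_lok : rowC.lok 18 = true ∧ initC.lok 18 = true := by
  constructor
  · decide +kernel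
  · decide +kernel

theorem rep_zero (w : List ℕ) : Rep ⟨fun _ => 0, fun _ _ => 0, w⟩ (fun _ => 0) :=
  ⟨fun _ => rfl, fun _ _ => rfl⟩

end ST2
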