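import Pool.Agent.helper32.ST.DDef

/-!
# ST2-FDef : structured programs over a word memory (definitions)

m : ℕ → ℕ is the memory, w the remaining input.  All values that occur are < W.
-/

namespace ST2

inductive FEx
  | lit (k : ℕ)
  | ld (a : FEx)
  | add (x y : FEx)
  | sub (x y : FEx)
  | mul (x y : FEx)
  | eq (x y : FEx)
  | lt (x y : FEx)

@[simp] def FEx.ev (m : ℕ → ℕ) : FEx → ℕ
  | .lit k => k
  | .ld a => m (a.ev m)
  | .add x y => x.ev m + y.ev m
  | .sub x y => x.ev m - y.ev m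
  | .mul x y => x.ev m * y.ev m
  | .eq x y => if x.ev m = y.ev m then 1 else 0
  | .lt x y => if x.ev m < y.ev m then 1 else 0

@[simp] def FEx.size : FEx → ℕ
  | .lit _ => 1
  | .ld a => a.size + 1
  | .add x y => x.size + y.size + 1
  | .sub x y => x.size + y.size + 1
  | .mul x y => x.size + y.size + 1
  | .eq x y => x.size + y.size + 1
  | .lt x y => x.size + y.size + 1

/-- all values which occur in the evaluation are < W -/
def FEx.ok (W : ℕ) (m : ℕ → ℕ) : FEx → Prop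
  | .lit k => k < W
  | .ld a => a.ok W m ∧ a.ev m < W ∧ m (a.ev m) < W
  | .add x y => x.ok W m ∧ y.ok W m ∧ x.ev m + y.ev m < W
  | .sub x y => x.ok W m ∧ y.ok W m ∧ x.ev m - y.ev m < W
  | .mul x y => x.ok W m ∧ y.ok W m ∧ x.ev m * y.ev m < W
  | .eq x y => x.ok W m ∧ y.ok W m ∧ 1 < W
  | .lt x y => x.ok W m ∧ y.ok W m ∧ 1 < W

inductive FCmd
  | skip
  | st (a e : FEx)
  | rd (a : FEx)
  | seq (c d : FCmd)
  | ite (e : FEx) (c d : FCmd)
  | loop (e : FEx) (c : FCmd)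

/-- FRun W c m w m' w' t: the program c started with memory m and input w ends with memory m' and remaining
input w' after t elementary steps, and all values are < W -/
inductive FRun (W : ℕ) : FCmd → (ℕ → ℕ) → List ℕ → (ℕ → ℕ) → List ℕ → ℕ → Prop
  | skip (m : ℕ → ℕ) (w : List ℕ) : FRun W .skip m w m w 0
  | st (a e : FEx) (m : ℕ → ℕ) (w : List ℕ) (ha : a.ok W m) (he : e.ok W m) :
      FRun W (.st a e) m w (upd m (a.ev m) (e.ev m)) w (a.size + e.size + 1)
  | rd (a : FEx) (m : ℕ → ℕ) (v : ℕ) (w : List ℕ) (ha : a.ok W m) (hv : v < W) :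
      FRun W (.rd a) m (v :: w) (upd m (a.ev m) v) w (a.size + 1)
  | seq (c d : FCmd) (m m1 m2 : ℕ → ℕ) (w w1 w2 : List ℕ) (t1 t2 : ℕ)
      (h1 : FRun W c m w m1 w1 t1) (h2 : FRun W d m1 w1 m2 w2 t2) :
      FRun W (.seq c d) m w m2 w2 (t1 + t2)
  | iteT (e : FEx) (c d : FCmd) (m m' : ℕ → ℕ) (w w' : List ℕ) (t : ℕ) (he : e.ok W m)
      (h : e.ev m ≠ 0) (h1 : FRun W c m w m' w' t) :
      FRun W (.ite e c d) m w m' w' (t + e.size + 1)
  | iteF (e : FEx) (c d : FCmd) (m m' : ℕ → ℕ) (w w' : List ℕ) (t : ℕ) (he : e.ok W m)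
      (h : e.ev m = 0) (h1 : FRun W d m w m' w' t) :
      FRun W (.ite e c d) m w m' w' (t + e.size + 1)
  | loopF (e : FEx) (c : FCmd) (m : ℕ → ℕ) (w : List ℕ) (he : e.ok W m) (h : e.ev m = 0) :
      FRun W (.loop e c) m w m w (e.size + 1)
  | loopT (e : FEx) (c : FCmd) (m m1 m2 : ℕ → ℕ) (w w1 w2 : List ℕ) (t1 t2 : ℕ)
      (he : e.ok W m) (h : e.ev m ≠ 0) (h1 : FRun W c m w m1 w1 t1)
      (h2 : FRun W (.loop e c) m1 w1 m2 w2 t2) :
      FRun W (.loop e c) m w m2 w2 (t1 + t2 + e.size + 1)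

end ST2
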