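import Mathlib

/-!
# ST2-ZDef : definitions for the final statement
-/

namespace ST2

/-- row t of the matrix M -/
def rowOf (n : ℕ) (M : ℕ → ℕ → ℕ) (t : ℕ) : List ℕ := (List.range n).map (fun j => M t (j + 1))

/-- The letters of the last column (the row sentinels) occur nowhere else in the rows 1, ..., n-1. -/
def RowSent (n : ℕ) (M : ℕ → ℕ → ℕ) : Prop :=
  ∀ i i' j', 1 ≤ i → i ≤ n → 1 ≤ i' → i' < n → 1 ≤ j' → j' ≤ n → M i' j' = M i n →
    i' = i ∧ j' = n

/-- The value of the entry number a of the data structure stored in the memory m.  The memory may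
contain anything at the beginning, so m 3 is the number of the entries written so far, 4a+1 holds a
pointer, 4p+2 the back pointer number p; an entry which has not been written has the value 0. -/
def vread (m : ℕ → ℕ) (a : ℕ) : ℕ :=
  if 0 < m (4 * a + 1) ∧ m (4 * a + 1) ≤ m 3 ∧ m (4 * m (4 * a + 1) + 2) = a then m (4 * a) else 0

end ST2
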