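import Pool.Agent.helper32.ST.FDef
import Pool.Agent.helper32.ST.ZDef

/-!
# ST2-FLazy : arbitrary initial memory (lazy initialisation)

The virtual memory cell a lives in the real cell 4a; real cell 4a+1 holds a pointer p, real cell 4j+2 the back
pointer number j, real cell 3 the number of initialised cells; 7 and 11 are scratch.  The virtual cell a is
initialised iff 0 < p <= m 3 and m (4p+2) = a; otherwise its value is 0 (vread).
* lz_ev: (e.lz).ev m = e.ev (vread m): p0 = P * [P < cnt + 1]; product of tests.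
* lz_ok: if e.ok Wv (vread m), 4 Wv + 8 <= W, all words of m are < W, m 3 < Wv: all intermediate values are < W:
  4b + 1 < W since b < Wv (ok gives a.ev < Wv), p0 <= m 3 < Wv.
* st: after st 7, st 11 the virtual memory is unchanged (cells 7, 11 are not of the form 4a, 4a+1, 4j+2; 3 is
  unchanged).  If a is not initialised: cnt+1 pushed: P[a] = cnt+1, Q[cnt+1] = a: the initialised cells are the old
  ones and a (for old b: P[b] <= cnt so Q[P[b]] unchanged, P[b] unchanged for b <> a; a new b with P[b] = cnt+1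
  needs Q[cnt+1] = b = a).  Then st (4a) v: vread m' = upd (vread m) a v.
* no other invariant is needed (the test Q[P[a]] = a with P[a] <= cnt: for old initialised b <> a the push does not
  change Q[P[b]] because P[b] <= cnt).
-/

namespace ST2


/-- the pointer of the cell b, replaced by 0 if it is larger than the counter -/
def ptrE (b : FEx) : FEx :=
  .mul (.ld (.add (.mul (.lit 4) b) (.lit 1)))
    (.lt (.ld (.add (.mul (.lit 4) b) (.lit 1))) (.add (.ld (.lit 3)) (.lit 1)))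

/-- 1 if the cell b is initialised, else 0 -/
def initE (b : FEx) : FEx :=
  .mul (.lt (.lit 0) (ptrE b)) (.eq (.ld (.add (.mul (.lit 4) (ptrE b)) (.lit 2))) b)

def FEx.lz : FEx → FEx
  | .lit k => .lit k
  | .ld a => .mul (.ld (.mul (.lit 4) a.lz)) (initE a.lz)
  | .add x y => .add x.lz y.lz
  | .sub x y => .sub x.lz y.lz
  | .mul x y => .mul x.lz y.lz
  | .eq x y => .eq x.lz y.lz
  | .lt x y => .lt x.lz y.lz

/-- register the cell whose number is in 7, then store the value of 11 there -/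
def pushC : FCmd :=
  .seq (.ite (initE (.ld (.lit 7))) .skip
    (.seq (.st (.lit 3) (.add (.ld (.lit 3)) (.lit 1)))
      (.seq (.st (.add (.mul (.lit 4) (.ld (.lit 7))) (.lit 1)) (.ld (.lit 3)))
        (.st (.add (.mul (.lit 4) (.ld (.lit 3))) (.lit 2)) (.ld (.lit 7))))))
    (.st (.mul (.lit 4) (.ld (.lit 7))) (.ld (.lit 11)))

def FCmd.lz : FCmd → FCmd
  | .skip => .skip
  | .st a e => .seq (.st (.lit 7) a.lz) (.seq (.st (.lit 11) e.lz) pushC)
  | .rd a => .seq (.st (.lit 7) a.lz) (.seq (.rd (.lit 11)) pushC)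
  | .seq c d => .seq c.lz d.lz
  | .ite e c d => .ite e.lz c.lz d.lz
  | .loop e c => .loop e.lz c.lz

/-- slowdown factor -/
def FCmd.fac : FCmd → ℕ
  | .skip => 0
  | .st a e => a.lz.size + e.lz.size + 200
  | .rd a => a.lz.size + 200
  | .seq c d => c.fac + d.fac
  | .ite e c d => e.lz.size + c.fac + d.fac + 1
  | .loop e c => e.lz.size + c.fac + 1

theorem FLazy_ok_ev {W : ℕ} {m : ℕ → ℕ} : ∀ {e : FEx}, e.ok W m → e.ev m < W := by
  intro e
  cases e with
  | lit k => intro h; exact h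
  | ld a => intro h; exact h.2.2
  | add x y => intro h; exact h.2.2
  | sub x y => intro h; exact h.2.2
  | mul x y => intro h; exact h.2.2
  | eq x y =>
    intro h
    have h1 : 1 < W := h.2.2
    simp only [FEx.ev]
    split_ifs <;> omega
  | lt x y =>
    intro h
    have h1 : 1 < W := h.2.2
    simp only [FEx.ev]
    split_ifs <;> omega

theorem FLazy_ptr (m : ℕ → ℕ) (b : FEx) : (ptrE b).ev m =
    if m (4 * b.ev m + 1) ≤ m 3 then m (4 * b.ev m + 1) else 0 := by
  show m (4 * b.ev m + 1) * (if m (4 * b.ev m + 1) < m 3 + 1 then 1 else 0) = _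
  by_cases h : m (4 * b.ev m + 1) ≤ m 3
  · rw [if_pos h, if_pos (by omega), Nat.mul_one]
  · rw [if_neg h, if_neg (by omega), Nat.mul_zero]

theorem FLazy_init (m : ℕ → ℕ) (b : FEx) : (initE b).ev m =
    if 0 < m (4 * b.ev m + 1) ∧ m (4 * b.ev m + 1) ≤ m 3 ∧
      m (4 * m (4 * b.ev m + 1) + 2) = b.ev m then 1 else 0 := by
  have hp := FLazy_ptr m b
  have : (initE b).ev m = (if 0 < (ptrE b).ev m then 1 else 0) *
      (if m (4 * (ptrE b).ev m + 2) = b.ev m then 1 else 0) := rfl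
  rw [this, hp]
  by_cases h : m (4 * b.ev m + 1) ≤ m 3
  · rw [if_pos h]
    by_cases h1 : 0 < m (4 * b.ev m + 1)
    · rw [if_pos h1, Nat.one_mul]
      by_cases h2 : m (4 * m (4 * b.ev m + 1) + 2) = b.ev m
      · rw [if_pos h2, if_pos ⟨h1, h, h2⟩]
      · rw [if_neg h2, if_neg (fun hh => h2 hh.2.2)]
    · rw [if_neg h1, Nat.zero_mul, if_neg (fun hh => h1 hh.1)]
  · rw [if_neg h, if_neg (lt_irrefl 0), Nat.zero_mul, if_neg (fun hh => h hh.2.1)]

theorem FLazy_ev (m : ℕ → ℕ) : ∀ e : FEx, e.lz.ev m = e.ev (vread m) := by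
  intro e
  induction e with
  | lit k => rfl
  | ld a ih =>
    have : (FEx.ld a).lz.ev m = m (4 * a.lz.ev m) * (initE a.lz).ev m := rfl
    have h2 : (FEx.ld a).ev (vread m) = vread m (a.ev (vread m)) := rfl
    rw [this, h2, FLazy_init, ih]
    generalize a.ev (vread m) = y
    unfold vread
    by_cases h : 0 < m (4 * y + 1) ∧ m (4 * y + 1) ≤ m 3 ∧ m (4 * m (4 * y + 1) + 2) = y
    · rw [if_pos h, if_pos h, Nat.mul_one]
    · rw [if_neg h, if_neg h, Nat.mul_zero]
  | add x y ihx ihy => simp only [FEx.lz, FEx.ev, ihx, ihy]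
  | sub x y ihx ihy => simp only [FEx.lz, FEx.ev, ihx, ihy]
  | mul x y ihx ihy => simp only [FEx.lz, FEx.ev, ihx, ihy]
  | eq x y ihx ihy => simp only [FEx.lz, FEx.ev, ihx, ihy]
  | lt x y ihx ihy => simp only [FEx.lz, FEx.ev, ihx, ihy]

theorem FLazy_init_ok {W Wv : ℕ} (hW : 4 * Wv + 8 ≤ W) {m : ℕ → ℕ} (hm : ∀ x, m x < W)
    (h3 : m 3 < Wv) {b : FEx} (hb : b.ok W m) (hbv : b.ev m < Wv) : (initE b).ok W m := by
  have h1 : (FEx.add (.mul (.lit 4) b) (.lit 1)).ok W m := by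
    refine ⟨⟨?_, hb, ?_⟩, ?_, ?_⟩
    · show 4 < W; omega
    · show 4 * b.ev m < W; omega
    · show 1 < W; omega
    · show 4 * b.ev m + 1 < W; omega
  have h1e : (FEx.add (.mul (.lit 4) b) (.lit 1)).ev m = 4 * b.ev m + 1 := rfl
  have h2 : (FEx.ld (.add (.mul (.lit 4) b) (.lit 1))).ok W m := by
    refine ⟨h1, ?_, hm _⟩
    rw [h1e]; omega
  have h4 : (FEx.add (.ld (.lit 3)) (.lit 1)).ok W m := by
    refine ⟨⟨?_, ?_, hm _⟩, ?_, ?_⟩
    · show 3 < W; omega
    · show 3 < W; omega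
    · show 1 < W; omega
    · show m 3 + 1 < W; omega
  have hpv := FLazy_ptr m b
  have h5 : (ptrE b).ok W m := by
    refine ⟨h2, ⟨h2, h4, by omega⟩, ?_⟩
    show (ptrE b).ev m < W
    rw [hpv]
    split_ifs
    · exact hm _
    · omega
  have h6 : (ptrE b).ev m < Wv := by
    rw [hpv]
    split_ifs with hh
    · omega
    · omega
  refine ⟨⟨?_, h5, by omega⟩, ⟨⟨⟨⟨?_, h5, ?_⟩, ?_, ?_⟩, ?_, hm _⟩, hb, by omega⟩, ?_⟩
  · show 0 < W; omega
  · show 4 < W; omega
  · show 4 * (ptrE b).ev m < W; omega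
  · show 2 < W; omega
  · show 4 * (ptrE b).ev m + 2 < W; omega
  · show 4 * (ptrE b).ev m + 2 < W; omega
  · show (initE b).ev m < W
    rw [FLazy_init]
    split_ifs <;> omega

theorem FLazy_ok {W Wv : ℕ} (hW : 4 * Wv + 8 ≤ W) {m : ℕ → ℕ} (hm : ∀ x, m x < W)
    (h3 : m 3 < Wv) : ∀ {e : FEx}, e.ok Wv (vread m) → e.lz.ok W m := by
  intro e
  induction e with
  | lit k =>
    intro h
    have h' : k < Wv := h
    show k < W
    omega
  | ld a ih =>
    intro h
    obtain ⟨ha, hav, hv⟩ := h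
    have hae := FLazy_ev m a
    have hI := FLazy_init_ok hW hm h3 (ih ha) (by rw [hae]; exact hav)
    refine ⟨⟨⟨?_, ih ha, ?_⟩, ?_, hm _⟩, hI, ?_⟩
    · show 4 < W; omega
    · show 4 * a.lz.ev m < W; rw [hae]; omega
    · show 4 * a.lz.ev m < W; rw [hae]; omega
    · have : m (4 * a.lz.ev m) * (initE a.lz).ev m = (FEx.ld a).lz.ev m := rfl
      show m (4 * a.lz.ev m) * (initE a.lz).ev m < W
      rw [this, FLazy_ev]
      have hv' : (FEx.ld a).ev (vread m) < Wv := hv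
      omega
  | add x y ihx ihy =>
    intro h
    obtain ⟨hx, hy, hv⟩ := h
    refine ⟨ihx hx, ihy hy, ?_⟩
    rw [FLazy_ev, FLazy_ev]; omega
  | sub x y ihx ihy =>
    intro h
    obtain ⟨hx, hy, hv⟩ := h
    refine ⟨ihx hx, ihy hy, ?_⟩
    rw [FLazy_ev, FLazy_ev]; omega
  | mul x y ihx ihy =>
    intro h
    obtain ⟨hx, hy, hv⟩ := h
    refine ⟨ihx hx, ihy hy, ?_⟩
    rw [FLazy_ev, FLazy_ev]; omega
  | eq x y ihx ihy =>
    intro h
    obtain ⟨hx, hy, hv⟩ := h
    exact ⟨ihx hx, ihy hy, by omega⟩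
  | lt x y ihx ihy =>
    intro h
    obtain ⟨hx, hy, hv⟩ := h
    exact ⟨ihx hx, ihy hy, by omega⟩

theorem FLazy_vupd (m : ℕ → ℕ) (x v : ℕ) (h0 : x % 4 = 3) (h3 : x ≠ 3) :
    vread (upd m x v) = vread m := by
  funext b
  unfold vread
  rw [upd_ne m v (show 4 * b + 1 ≠ x by omega), upd_ne m v (show 3 ≠ x by omega),
    upd_ne m v (show 4 * m (4 * b + 1) + 2 ≠ x by omega), upd_ne m v (show 4 * b ≠ x by omega)]

theorem FLazy_store {m : ℕ → ℕ} {a v : ℕ} (h : 0 < m (4 * a + 1) ∧ m (4 * a + 1) ≤ m 3 ∧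
    m (4 * m (4 * a + 1) + 2) = a) : vread (upd m (4 * a) v) = upd (vread m) a v := by
  funext b
  unfold vread
  rw [upd_ne m v (show 4 * b + 1 ≠ 4 * a by omega), upd_ne m v (show 3 ≠ 4 * a by omega),
    upd_ne m v (show 4 * m (4 * b + 1) + 2 ≠ 4 * a by omega)]
  by_cases hb : b = a
  · subst hb
    rw [if_pos h, upd_same, upd_same]
  · rw [upd_ne m v (show 4 * b ≠ 4 * a by omega), upd_ne _ v hb]

theorem FLazy_push {m : ℕ → ℕ} {a : ℕ} (h : ¬ (0 < m (4 * a + 1) ∧ m (4 * a + 1) ≤ m 3 ∧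
    m (4 * m (4 * a + 1) + 2) = a)) {m' : ℕ → ℕ}
    (hm' : m' = upd (upd (upd m 3 (m 3 + 1)) (4 * a + 1) (m 3 + 1)) (4 * (m 3 + 1) + 2) a) :
    (∀ b, b ≠ a → vread m' b = vread m b) ∧
    (0 < m' (4 * a + 1) ∧ m' (4 * a + 1) ≤ m' 3 ∧ m' (4 * m' (4 * a + 1) + 2) = a) ∧
    m' 3 = m 3 + 1 := by
  have e3 : m' 3 = m 3 + 1 := by
    rw [hm', upd_ne _ _ (by omega), upd_ne _ _ (by omega), upd_same]
  have e1 : m' (4 * a + 1) = m 3 + 1 := by
    rw [hm', upd_ne _ _ (by omega), upd_same]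
  have e2 : m' (4 * (m 3 + 1) + 2) = a := by
    rw [hm', upd_same]
  refine ⟨?_, ⟨by omega, by omega, by rw [e1]; exact e2⟩, e3⟩
  intro b hb
  have f1 : m' (4 * b + 1) = m (4 * b + 1) := by
    rw [hm', upd_ne _ _ (by omega), upd_ne _ _ (by omega), upd_ne _ _ (by omega)]
  have f0 : m' (4 * b) = m (4 * b) := by
    rw [hm', upd_ne _ _ (by omega), upd_ne _ _ (by omega), upd_ne _ _ (by omega)]
  have f2 : ∀ p, p ≠ m 3 + 1 → m' (4 * p + 2) = m (4 * p + 2) := by
    intro p hp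
    rw [hm', upd_ne _ _ (by omega), upd_ne _ _ (by omega), upd_ne _ _ (by omega)]
  unfold vread
  rw [f1, f0, e3]
  by_cases hp : m (4 * b + 1) = m 3 + 1
  · rw [hp, e2]
    rw [if_neg (fun hh => hb hh.2.2.symm), if_neg (fun hh => by omega)]
  · rw [f2 _ hp]
    by_cases hq : 0 < m (4 * b + 1) ∧ m (4 * b + 1) ≤ m 3 ∧ m (4 * m (4 * b + 1) + 2) = b
    · rw [if_pos hq, if_pos ⟨hq.1, by omega, hq.2.2⟩]
    · rw [if_neg hq, if_neg (fun hh => hq ⟨hh.1, by omega, hh.2.2⟩)]

theorem FLazy_pushC {W Wv : ℕ} (hW : 4 * Wv + 8 ≤ W) {m : ℕ → ℕ} (w : List ℕ)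
    (hm : ∀ x, m x < W) (h7 : m 7 < Wv) (h3 : m 3 + 1 < Wv) :
    ∃ m' t', FRun W pushC m w m' w t' ∧ vread m' = upd (vread m) (m 7) (m 11) ∧
      (∀ x, m' x < W) ∧ m' 3 ≤ m 3 + 1 ∧ t' ≤ 100 := by
  have hok7 : (FEx.ld (.lit 7)).ok W m := by
    refine ⟨?_, ?_, hm _⟩
    · show 7 < W; omega
    · show 7 < W; omega
  have hI : (initE (.ld (.lit 7))).ok W m := FLazy_init_ok hW hm (by omega) hok7 h7
  have hIe := FLazy_init m (.ld (.lit 7))
  have h7e : (FEx.ld (.lit 7)).ev m = m 7 := rfl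
  rw [h7e] at hIe
  have hmu : ∀ (f : ℕ → ℕ) (i v : ℕ), (∀ x, f x < W) → v < W → ∀ x, upd f i v x < W := by
    intro f i v hf hv x
    unfold upd
    split_ifs
    · exact hv
    · exact hf x
  by_cases h : 0 < m (4 * m 7 + 1) ∧ m (4 * m 7 + 1) ≤ m 3 ∧
      m (4 * m (4 * m 7 + 1) + 2) = m 7
  · rw [if_pos h] at hIe
    refine ⟨upd m (4 * m 7) (m 11), _, FRun.seq _ _ m m _ w w w _ _
      (FRun.iteT _ _ _ m m w w 0 hI (by rw [hIe]; exact one_ne_zero) (FRun.skip m w))
      (FRun.st (.mul (.lit 4) (.ld (.lit 7))) (.ld (.lit 11)) m w ?_ ?_), ?_, ?_, ?_, ?_⟩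
    · refine ⟨?_, hok7, ?_⟩
      · show 4 < W; omega
      · show 4 * m 7 < W; omega
    · refine ⟨?_, ?_, hm _⟩
      · show 11 < W; omega
      · show 11 < W; omega
    · exact FLazy_store h
    · exact hmu _ _ _ hm (hm _)
    · rw [upd_ne _ _ (by omega)]; omega
    · simp [initE, ptrE]
  · rw [if_neg h] at hIe
    obtain ⟨hb, hin, hc3⟩ := FLazy_push h rfl
    set m1 := upd m 3 (m 3 + 1) with hm1
    set m2 := upd m1 (4 * m 7 + 1) (m 3 + 1) with hm2
    set m3 := upd m2 (4 * (m 3 + 1) + 2) (m 7) with hm3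
    have e13 : m1 3 = m 3 + 1 := by rw [hm1, upd_same]
    have e17 : m1 7 = m 7 := by rw [hm1, upd_ne _ _ (by omega)]
    have e23 : m2 3 = m 3 + 1 := by rw [hm2, upd_ne _ _ (by omega), e13]
    have e27 : m2 7 = m 7 := by rw [hm2, upd_ne _ _ (by omega), e17]
    have e37 : m3 7 = m 7 := by rw [hm3, upd_ne _ _ (by omega), e27]
    have e311 : m3 11 = m 11 := by
      rw [hm3, upd_ne _ _ (by omega), hm2, upd_ne _ _ (by omega), hm1, upd_ne _ _ (by omega)]
    have g1 : ∀ x, m1 x < W := hmu _ _ _ hm (by omega)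
    have g2 : ∀ x, m2 x < W := hmu _ _ _ g1 (by omega)
    have g3 : ∀ x, m3 x < W := hmu _ _ _ g2 (hm _)
    have r1 : FRun W (.st (.lit 3) (.add (.ld (.lit 3)) (.lit 1))) m w m1 w 6 := by
      refine FRun.st (.lit 3) (.add (.ld (.lit 3)) (.lit 1)) m w ?_ ?_
      · show 3 < W; omega
      · refine ⟨⟨?_, ?_, hm _⟩, ?_, ?_⟩
        · show 3 < W; omega
        · show 3 < W; omega
        · show 1 < W; omega
        · show m 3 + 1 < W; omega
    have r2 : FRun W (.st (.add (.mul (.lit 4) (.ld (.lit 7))) (.lit 1)) (.ld (.lit 3)))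
        m1 w m2 w 9 := by
      have := FRun.st (W := W) (.add (.mul (.lit 4) (.ld (.lit 7))) (.lit 1)) (.ld (.lit 3)) m1 w
        (by
          refine ⟨⟨?_, ⟨?_, ?_, g1 _⟩, ?_⟩, ?_, ?_⟩
          · show 4 < W; omega
          · show 7 < W; omega
          · show 7 < W; omega
          · show 4 * m1 7 < W; omega
          · show 1 < W; omega
          · show 4 * m1 7 + 1 < W; omega)
        (by
          refine ⟨?_, ?_, g1 _⟩
          · show 3 < W; omega
          · show 3 < W; omega)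
      have e : upd m1 (4 * m1 7 + 1) (m1 3) = m2 := by rw [e17, e13]
      rw [← e]
      exact this
    have r3 : FRun W (.st (.add (.mul (.lit 4) (.ld (.lit 3))) (.lit 2)) (.ld (.lit 7)))
        m2 w m3 w 9 := by
      have := FRun.st (W := W) (.add (.mul (.lit 4) (.ld (.lit 3))) (.lit 2)) (.ld (.lit 7)) m2 w
        (by
          refine ⟨⟨?_, ⟨?_, ?_, g2 _⟩, ?_⟩, ?_, ?_⟩
          · show 4 < W; omega
          · show 3 < W; omega
          · show 3 < W; omega
          · show 4 * m2 3 < W; omega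
          · show 2 < W; omega
          · show 4 * m2 3 + 2 < W; omega)
        (by
          refine ⟨?_, ?_, g2 _⟩
          · show 7 < W; omega
          · show 7 < W; omega)
      have e : upd m2 (4 * m2 3 + 2) (m2 7) = m3 := by rw [e23, e27]
      rw [← e]
      exact this
    have r4 : FRun W (.st (.mul (.lit 4) (.ld (.lit 7))) (.ld (.lit 11))) m3 w
        (upd m3 (4 * m3 7) (m3 11)) w 7 := by
      refine FRun.st (.mul (.lit 4) (.ld (.lit 7))) (.ld (.lit 11)) m3 w ?_ ?_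
      · refine ⟨?_, ⟨?_, ?_, g3 _⟩, ?_⟩
        · show 4 < W; omega
        · show 7 < W; omega
        · show 7 < W; omega
        · show 4 * m3 7 < W; omega
      · refine ⟨?_, ?_, g3 _⟩
        · show 11 < W; omega
        · show 11 < W; omega
    refine ⟨upd m3 (4 * m3 7) (m3 11), _, FRun.seq _ _ m m3 _ w w w _ _
      (FRun.iteF _ _ _ m m3 w w _ hI hIe (FRun.seq _ _ m m1 m3 w w w _ _ r1
        (FRun.seq _ _ m1 m2 m3 w w w _ _ r2 r3))) r4, ?_, ?_, ?_, ?_⟩
    · rw [e37, e311, FLazy_store hin]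
      funext b
      by_cases hba : b = m 7
      · rw [hba, upd_same, upd_same]
      · rw [upd_ne _ _ hba, upd_ne _ _ hba, hb b hba]
    · exact hmu _ _ _ g3 (g3 _)
    · rw [e37, upd_ne _ _ (by omega), hc3]
    · simp [initE, ptrE]

theorem vread_zero (m : ℕ → ℕ) : vread (upd m 3 0) = fun _ => 0 := by
  funext a
  unfold vread
  rw [if_neg]
  intro hh
  rw [upd_same] at hh
  omega

theorem lz_run {W Wv : ℕ} (hW : 4 * Wv + 8 ≤ W) {c : FCmd} {v v' : ℕ → ℕ} {w w' : List ℕ}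
    {t : ℕ} (h : FRun Wv c v w v' w' t) : ∀ m, v = vread m → (∀ x, m x < W) →
    m 3 + t < Wv → ∃ m' t', FRun W c.lz m w m' w' t' ∧ v' = vread m' ∧ (∀ x, m' x < W) ∧
      m' 3 ≤ m 3 + t ∧ t' ≤ c.fac * t := by
  induction h with
  | skip m0 w0 =>
    intro m hv hm h3
    exact ⟨m, 0, FRun.skip m w0, hv, hm, by omega, by omega⟩
  | st a e m0 w0 ha he =>
    intro m hv hm h3
    subst hv
    have hav : a.ev (vread m) < Wv := FLazy_ok_ev ha
    have hev : e.ev (vread m) < Wv := FLazy_ok_ev he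
    have h3' : m 3 < Wv := by omega
    have ha' : a.lz.ok W m := FLazy_ok hW hm h3' ha
    have hmu : ∀ (f : ℕ → ℕ) (i v : ℕ), (∀ x, f x < W) → v < W → ∀ x, upd f i v x < W := by
      intro f i v hf hv x
      unfold upd
      split_ifs
      · exact hv
      · exact hf x
    have r1 : FRun W (.st (.lit 7) a.lz) m w0 (upd m 7 (a.ev (vread m))) w0 (1 + a.lz.size + 1) := by
      have := FRun.st (W := W) (.lit 7) a.lz m w0 (by show 7 < W; omega) ha'
      rw [FLazy_ev] at this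
      exact this
    set m1 := upd m 7 (a.ev (vread m)) with hm1
    have hv1 : vread m1 = vread m := FLazy_vupd m 7 _ (by norm_num) (by norm_num)
    have g1 : ∀ x, m1 x < W := hmu _ _ _ hm (by omega)
    have e13 : m1 3 = m 3 := by rw [hm1, upd_ne _ _ (by omega)]
    have he' : e.lz.ok W m1 := FLazy_ok hW g1 (by omega) (by rw [hv1]; exact he)
    have r2 : FRun W (.st (.lit 11) e.lz) m1 w0 (upd m1 11 (e.ev (vread m))) w0
        (1 + e.lz.size + 1) := by
      have := FRun.st (W := W) (.lit 11) e.lz m1 w0 (by show 11 < W; omega) he'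
      rw [FLazy_ev, hv1] at this
      exact this
    set m2 := upd m1 11 (e.ev (vread m)) with hm2
    have hv2 : vread m2 = vread m := by
      rw [hm2, FLazy_vupd m1 11 _ (by norm_num) (by norm_num), hv1]
    have g2 : ∀ x, m2 x < W := hmu _ _ _ g1 (by omega)
    have e27 : m2 7 = a.ev (vread m) := by rw [hm2, upd_ne _ _ (by omega), hm1, upd_same]
    have e211 : m2 11 = e.ev (vread m) := by rw [hm2, upd_same]
    have e23 : m2 3 = m 3 := by rw [hm2, upd_ne _ _ (by omega), e13]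
    obtain ⟨m', t', hr, hvv, g', h3'', ht'⟩ := FLazy_pushC hW w0 g2 (by rw [e27]; exact hav)
      (by rw [e23]; omega)
    refine ⟨m', _, FRun.seq _ _ m m1 m' w0 w0 w0 _ _ r1 (FRun.seq _ _ m1 m2 m' w0 w0 w0 _ _ r2 hr),
      ?_, g', ?_, ?_⟩
    · rw [hvv, e27, e211, hv2]
    · rw [e23] at h3''
      omega
    · show _ ≤ (a.lz.size + e.lz.size + 200) * (a.size + e.size + 1)
      have : (a.lz.size + e.lz.size + 200) * 1 ≤
          (a.lz.size + e.lz.size + 200) * (a.size + e.size + 1) :=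
        Nat.mul_le_mul_left _ (by omega)
      omega
  | rd a m0 v0 w0 ha hv0 =>
    intro m hv hm h3
    subst hv
    have hav : a.ev (vread m) < Wv := FLazy_ok_ev ha
    have h3' : m 3 < Wv := by omega
    have ha' : a.lz.ok W m := FLazy_ok hW hm h3' ha
    have hmu : ∀ (f : ℕ → ℕ) (i v : ℕ), (∀ x, f x < W) → v < W → ∀ x, upd f i v x < W := by
      intro f i v hf hv x
      unfold upd
      split_ifs
      · exact hv
      · exact hf x
    have r1 : FRun W (.st (.lit 7) a.lz) m (v0 :: w0) (upd m 7 (a.ev (vread m))) (v0 :: w0)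
        (1 + a.lz.size + 1) := by
      have := FRun.st (W := W) (.lit 7) a.lz m (v0 :: w0) (by show 7 < W; omega) ha'
      rw [FLazy_ev] at this
      exact this
    set m1 := upd m 7 (a.ev (vread m)) with hm1
    have hv1 : vread m1 = vread m := FLazy_vupd m 7 _ (by norm_num) (by norm_num)
    have g1 : ∀ x, m1 x < W := hmu _ _ _ hm (by omega)
    have e13 : m1 3 = m 3 := by rw [hm1, upd_ne _ _ (by omega)]
    have r2 : FRun W (.rd (.lit 11)) m1 (v0 :: w0) (upd m1 11 v0) w0 2 :=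
      FRun.rd (.lit 11) m1 v0 w0 (by show 11 < W; omega) (by omega)
    set m2 := upd m1 11 v0 with hm2
    have hv2 : vread m2 = vread m := by
      rw [hm2, FLazy_vupd m1 11 _ (by norm_num) (by norm_num), hv1]
    have g2 : ∀ x, m2 x < W := hmu _ _ _ g1 (by omega)
    have e27 : m2 7 = a.ev (vread m) := by rw [hm2, upd_ne _ _ (by omega), hm1, upd_same]
    have e211 : m2 11 = v0 := by rw [hm2, upd_same]
    have e23 : m2 3 = m 3 := by rw [hm2, upd_ne _ _ (by omega), e13]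
    obtain ⟨m', t', hr, hvv, g', h3'', ht'⟩ := FLazy_pushC hW w0 g2 (by rw [e27]; exact hav)
      (by
        rw [e23]
        have : 1 ≤ a.size := by cases a <;> simp
        omega)
    refine ⟨m', _, FRun.seq _ _ m m1 m' (v0 :: w0) (v0 :: w0) w0 _ _ r1
      (FRun.seq _ _ m1 m2 m' (v0 :: w0) w0 w0 _ _ r2 hr), ?_, g', ?_, ?_⟩
    · rw [hvv, e27, e211, hv2]
    · rw [e23] at h3''
      omega
    · show _ ≤ (a.lz.size + 200) * (a.size + 1)
      have : (a.lz.size + 200) * 1 ≤ (a.lz.size + 200) * (a.size + 1) :=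
        Nat.mul_le_mul_left _ (by omega)
      omega
  | seq c d m0 m1 m2 w0 w1 w2 t1 t2 h1 h2 ih1 ih2 =>
    intro m hv hm h3
    obtain ⟨ma, ta, ra, va, ga, ca, la⟩ := ih1 m hv hm (by omega)
    obtain ⟨mb, tb, rb, vb, gb, cb, lb⟩ := ih2 ma va ga (by omega)
    refine ⟨mb, ta + tb, FRun.seq _ _ m ma mb w0 w1 w2 _ _ ra rb, vb, gb, by omega, ?_⟩
    show ta + tb ≤ (c.fac + d.fac) * (t1 + t2)
    nlinarith [Nat.zero_le (c.fac * t2), Nat.zero_le (d.fac * t1)]
  | iteT e c d m0 m' w0 w' t0 he h h1 ih =>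
    intro m hv hm h3
    obtain ⟨ma, ta, ra, va, ga, ca, la⟩ := ih m hv hm (by omega)
    subst hv
    refine ⟨ma, ta + e.lz.size + 1, FRun.iteT _ _ _ m ma w0 w' ta (FLazy_ok hW hm (by omega) he)
      (by rw [FLazy_ev]; exact h) ra, va, ga, by omega, ?_⟩
    show _ ≤ (e.lz.size + c.fac + d.fac + 1) * (t0 + e.size + 1)
    have e1 : (e.lz.size + c.fac + d.fac + 1) * (t0 + e.size + 1) =
      c.fac * t0 + (e.lz.size + 1) + ((e.lz.size + d.fac + 1) * t0 +
        (e.lz.size + c.fac + d.fac + 1) * e.size + c.fac + d.fac) := by ring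
    omega
  | iteF e c d m0 m' w0 w' t0 he h h1 ih =>
    intro m hv hm h3
    obtain ⟨ma, ta, ra, va, ga, ca, la⟩ := ih m hv hm (by omega)
    subst hv
    refine ⟨ma, ta + e.lz.size + 1, FRun.iteF _ _ _ m ma w0 w' ta (FLazy_ok hW hm (by omega) he)
      (by rw [FLazy_ev]; exact h) ra, va, ga, by omega, ?_⟩
    show _ ≤ (e.lz.size + c.fac + d.fac + 1) * (t0 + e.size + 1)
    have e1 : (e.lz.size + c.fac + d.fac + 1) * (t0 + e.size + 1) =
      d.fac * t0 + (e.lz.size + 1) + ((e.lz.size + c.fac + 1) * t0 +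
        (e.lz.size + c.fac + d.fac + 1) * e.size + c.fac + d.fac) := by ring
    omega
  | loopF e c m0 w0 he h =>
    intro m hv hm h3
    subst hv
    refine ⟨m, e.lz.size + 1, FRun.loopF _ _ m w0 (FLazy_ok hW hm (by omega) he)
      (by rw [FLazy_ev]; exact h), rfl, hm, by omega, ?_⟩
    show _ ≤ (e.lz.size + c.fac + 1) * (e.size + 1)
    have e1 : (e.lz.size + c.fac + 1) * (e.size + 1) =
      (e.lz.size + 1) + ((e.lz.size + c.fac + 1) * e.size + c.fac) := by ring
    omega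
  | loopT e c m0 m1 m2 w0 w1 w2 t1 t2 he h h1 h2 ih1 ih2 =>
    intro m hv hm h3
    obtain ⟨ma, ta, ra, va, ga, ca, la⟩ := ih1 m hv hm (by omega)
    obtain ⟨mb, tb, rb, vb, gb, cb, lb⟩ := ih2 ma va ga (by omega)
    subst hv
    refine ⟨mb, ta + tb + e.lz.size + 1, FRun.loopT _ _ m ma mb w0 w1 w2 ta tb
      (FLazy_ok hW hm (by omega) he) (by rw [FLazy_ev]; exact h) ra rb, vb, gb, by omega, ?_⟩
    have lb' : tb ≤ (e.lz.size + c.fac + 1) * t2 := lb
    show _ ≤ (e.lz.size + c.fac + 1) * (t1 + t2 + e.size + 1)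
    have e1 : (e.lz.size + c.fac + 1) * (t1 + t2 + e.size + 1) =
      c.fac * t1 + (e.lz.size + c.fac + 1) * t2 + (e.lz.size + 1) +
        ((e.lz.size + 1) * t1 + (e.lz.size + c.fac + 1) * e.size + c.fac) := by ring
    omega

end ST2
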