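import Pool.Agent.helper32.ST.FComp

/-!
# ST2-FTame : the values grow slowly

Stored expressions of rowC have a simple form (Ex.tm), so their value is at most M + P, where P bounds 4 and the
parameter registers n1, dl, which are never changed (Cmd.tm).
tame_run: induction on Run; every set, put, rd costs at least 1.  runB_mono: Bd is monotone in M.
init_runB: invert the run of initC (cases on the Run of each command), all values are <= (n+4)^2.
rowC_tm: by decide / rfl / simp with all definitions.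
-/

namespace ST2

def Ex.simple : Ex → Bool
  | .reg _ => true
  | .get _ _ => true
  | _ => false

/-- simple stored expressions -/
def Ex.tm : Ex → Bool
  | .lit k => decide (k ≤ 4)
  | .reg _ => true
  | .get _ _ => true
  | .add x (.lit k) => x.simple && decide (k ≤ 4)
  | .add x (.reg .n1) => x.simple
  | .add x (.reg .dl) => x.simple
  | .sub x _ => x.simple
  | .eq _ _ => true
  | .lt _ _ => true
  | _ => false

def Rg.free (r : Rg) : Bool := decide (r ≠ .n ∧ r ≠ .n1 ∧ r ≠ .dl ∧ r ≠ .bb)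

def Cmd.tm : Cmd → Bool
  | .skip => true
  | .set r e => r.free && e.tm
  | .put _ _ e => e.tm
  | .rd r => r.free
  | .seq c d => c.tm && d.tm
  | .ite _ c d => c.tm && d.tm
  | .loop _ c => c.tm

theorem FTame_bd_mono {M M' : ℕ} (hM : M ≤ M') {s : St} (h : Bd M s) : Bd M' s :=
  ⟨fun r => (h.1 r).trans hM, fun a i => (h.2.1 a i).trans hM, fun v hv => (h.2.2 v hv).trans hM⟩

theorem FTame_bd_setr {M : ℕ} {s : St} (h : Bd M s) (r : Rg) {v : ℕ} (hv : v ≤ M) :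
    Bd M (s.setr r v) := by
  refine ⟨fun q => ?_, fun a i => h.2.1 a i, fun u hu => h.2.2 u hu⟩
  rw [rg_setr]
  split_ifs
  · exact hv
  · exact h.1 q

theorem FTame_bd_seta {M : ℕ} {s : St} (h : Bd M s) (a : Ar) (i : ℕ) {v : ℕ} (hv : v ≤ M) :
    Bd M (s.seta a i v) := by
  refine ⟨fun q => h.1 q, fun b j => ?_, fun u hu => h.2.2 u hu⟩
  rw [ar_seta]
  split_ifs
  · unfold upd
    split_ifs
    · exact hv
    · exact h.2.1 a j
  · exact h.2.1 b j

theorem FTame_simple {M : ℕ} {s : St} (h : Bd M s) (e : Ex) (he : e.simple = true) :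
    e.ev s ≤ M := by
  cases e with
  | reg r => exact h.1 r
  | get a i => exact h.2.1 a _
  | _ => simp [Ex.simple] at he

theorem FTame_ev {M P : ℕ} (hP : 4 ≤ P) {s : St} (h : Bd M s) (h1 : s.rg .n1 ≤ P)
    (h2 : s.rg .dl ≤ P) (e : Ex) (he : e.tm = true) : e.ev s ≤ M + P := by
  unfold Ex.tm at he
  split at he
  · have := of_decide_eq_true he
    simp only [Ex.ev]
    omega
  · rename_i r
    have := h.1 r
    simp only [Ex.ev]
    omega
  · rename_i a i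
    have := h.2.1 a (i.ev s)
    simp only [Ex.ev]
    omega
  · rename_i x k
    rw [Bool.and_eq_true] at he
    have := of_decide_eq_true he.2
    have := FTame_simple h x he.1
    simp only [Ex.ev]
    omega
  · rename_i x
    have := FTame_simple h x he
    simp only [Ex.ev]
    omega
  · rename_i x
    have := FTame_simple h x he
    simp only [Ex.ev]
    omega
  · rename_i x y
    have := FTame_simple h x he
    simp only [Ex.ev]
    omega
  · simp only [Ex.ev]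
    split_ifs <;> omega
  · simp only [Ex.ev]
    split_ifs <;> omega
  · exact absurd he (by simp)

theorem runB_mono {M M' : ℕ} (hM : M ≤ M') {c : Cmd} {s s' : St} {t : ℕ} (h : RunB M c s s' t) :
    RunB M' c s s' t := by
  induction h with
  | skip s => exact RunB.skip s
  | set r e s hb => exact RunB.set r e s (FTame_bd_mono hM hb)
  | put a i e s hb => exact RunB.put a i e s (FTame_bd_mono hM hb)
  | rd r s v w h hb => exact RunB.rd r s v w h (FTame_bd_mono hM hb)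
  | seq c d s s1 s2 t1 t2 h1 h2 ih1 ih2 => exact RunB.seq c d s s1 s2 t1 t2 ih1 ih2
  | iteT e c d s s' t hb h h1 ih => exact RunB.iteT e c d s s' t (FTame_bd_mono hM hb) h ih
  | iteF e c d s s' t hb h h1 ih => exact RunB.iteF e c d s s' t (FTame_bd_mono hM hb) h ih
  | loopF e c s hb h => exact RunB.loopF e c s (FTame_bd_mono hM hb) h
  | loopT e c s s1 s2 t1 t2 hb h h1 h2 ih1 ih2 =>
    exact RunB.loopT e c s s1 s2 t1 t2 (FTame_bd_mono hM hb) h ih1 ih2

theorem tame_run {P : ℕ} (hP : 4 ≤ P) {c : Cmd} {s s' : St} {t : ℕ} (h : Run c s s' t)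
    (hc : c.tm = true) : ∀ M, Bd M s → s.rg .n1 ≤ P → s.rg .dl ≤ P →
    RunB (M + P * t) c s s' t ∧ Bd (M + P * t) s' ∧ s'.rg .n1 = s.rg .n1 ∧
      s'.rg .dl = s.rg .dl := by
  induction h with
  | skip s =>
    intro M hb _ _
    rw [Nat.mul_zero, Nat.add_zero]
    exact ⟨RunB.skip s, hb, rfl, rfl⟩
  | set r e s =>
    intro M hb h1 h2
    rw [Cmd.tm, Bool.and_eq_true] at hc
    have hv := FTame_ev hP hb h1 h2 e hc.2
    have hle : M + P ≤ M + P * (e.size + 1) := by nlinarith [Nat.zero_le (P * e.size)]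
    have hf : r ≠ .n ∧ r ≠ .n1 ∧ r ≠ .dl ∧ r ≠ .bb := of_decide_eq_true hc.1
    refine ⟨RunB.set r e s (FTame_bd_mono (by omega) hb),
      FTame_bd_setr (FTame_bd_mono (by omega) hb) r (hv.trans hle), ?_, ?_⟩
    · rw [rg_setr, if_neg hf.2.1.symm]
    · rw [rg_setr, if_neg hf.2.2.1.symm]
  | put a i e s =>
    intro M hb h1 h2
    rw [Cmd.tm] at hc
    have hv := FTame_ev hP hb h1 h2 e hc
    have hle : M + P ≤ M + P * (i.size + e.size + 1) := by
      nlinarith [Nat.zero_le (P * (i.size + e.size))]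
    exact ⟨RunB.put a i e s (FTame_bd_mono (by omega) hb),
      FTame_bd_seta (FTame_bd_mono (by omega) hb) a _ (hv.trans hle), rfl, rfl⟩
  | rd r s v w h =>
    intro M hb h1 h2
    rw [Cmd.tm] at hc
    have hf : r ≠ .n ∧ r ≠ .n1 ∧ r ≠ .dl ∧ r ≠ .bb := of_decide_eq_true hc
    have hvM : v ≤ M := hb.2.2 v (by rw [h]; exact List.mem_cons_self)
    have hb2 := FTame_bd_setr (FTame_bd_mono (show M ≤ M + P * 1 by omega) hb) r
      (show v ≤ M + P * 1 by omega)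
    refine ⟨RunB.rd r s v w h (FTame_bd_mono (by omega) hb),
      ⟨fun q => hb2.1 q, fun a i => hb2.2.1 a i, fun u hu => ?_⟩, ?_, ?_⟩
    · have := hb.2.2 u (by rw [h]; exact List.mem_cons_of_mem _ hu)
      omega
    · change (s.setr r v).rg .n1 = _
      rw [rg_setr, if_neg hf.2.1.symm]
    · change (s.setr r v).rg .dl = _
      rw [rg_setr, if_neg hf.2.2.1.symm]
  | seq c d s s1 s2 t1 t2 h1 h2 ih1 ih2 =>
    intro M hb hn hd
    rw [Cmd.tm, Bool.and_eq_true] at hc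
    obtain ⟨r1, b1, e1, e2⟩ := ih1 hc.1 M hb hn hd
    obtain ⟨r2, b2, e3, e4⟩ := ih2 hc.2 _ b1 (e1 ▸ hn) (e2 ▸ hd)
    have hM : M + P * t1 + P * t2 = M + P * (t1 + t2) := by ring
    rw [hM] at r2 b2
    have hle : M + P * t1 ≤ M + P * (t1 + t2) := by
      rw [Nat.mul_add]
      omega
    exact ⟨RunB.seq c d s s1 s2 t1 t2 (runB_mono hle r1) r2, b2, e3.trans e1, e4.trans e2⟩
  | iteT e c d s s' t h h1 ih =>
    intro M hb hn hd
    rw [Cmd.tm, Bool.and_eq_true] at hc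
    obtain ⟨r1, b1, e1, e2⟩ := ih hc.1 M hb hn hd
    have hle : M + P * t ≤ M + P * (t + e.size + 1) := by
      rw [Nat.mul_add, Nat.mul_add]
      omega
    exact ⟨RunB.iteT e c d s s' t (FTame_bd_mono (by omega) hb) h (runB_mono hle r1),
      FTame_bd_mono hle b1, e1, e2⟩
  | iteF e c d s s' t h h1 ih =>
    intro M hb hn hd
    rw [Cmd.tm, Bool.and_eq_true] at hc
    obtain ⟨r1, b1, e1, e2⟩ := ih hc.2 M hb hn hd
    have hle : M + P * t ≤ M + P * (t + e.size + 1) := by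
      rw [Nat.mul_add, Nat.mul_add]
      omega
    exact ⟨RunB.iteF e c d s s' t (FTame_bd_mono (by omega) hb) h (runB_mono hle r1),
      FTame_bd_mono hle b1, e1, e2⟩
  | loopF e c s h =>
    intro M hb hn hd
    exact ⟨RunB.loopF e c s (FTame_bd_mono (by omega) hb) h,
      FTame_bd_mono (by omega) hb, rfl, rfl⟩
  | loopT e c s s1 s2 t1 t2 h h1 h2 ih1 ih2 =>
    intro M hb hn hd
    have hc' : c.tm = true := by
      rw [Cmd.tm] at hc
      exact hc
    obtain ⟨r1, b1, e1, e2⟩ := ih1 hc' M hb hn hd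
    obtain ⟨r2, b2, e3, e4⟩ := ih2 hc _ b1 (e1 ▸ hn) (e2 ▸ hd)
    have hM : M + P * t1 + P * t2 = M + P * (t1 + t2) := by ring
    rw [hM] at r2 b2
    have hle : M + P * t1 ≤ M + P * (t1 + t2 + e.size + 1) := by
      rw [Nat.mul_add, Nat.mul_add, Nat.mul_add]
      omega
    have hle2 : M + P * (t1 + t2) ≤ M + P * (t1 + t2 + e.size + 1) := by
      rw [Nat.mul_add, Nat.mul_add P (t1 + t2 + e.size), Nat.mul_add P (t1 + t2) e.size,
        Nat.mul_add]
      omega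
    exact ⟨RunB.loopT e c s s1 s2 t1 t2 (FTame_bd_mono (by omega) hb) h (runB_mono hle r1)
      (runB_mono hle2 r2), FTame_bd_mono hle2 b2, e3.trans e1, e4.trans e2⟩

theorem rowC_tm : rowC.tm = true := by
  decide

theorem FTame_set {M : ℕ} {r : Rg} {e : Ex} {s s' : St} {t : ℕ} (hb : Bd M s)
    (he : e.ev s ≤ M) (h : Run (.set r e) s s' t) :
    RunB M (.set r e) s s' t ∧ Bd M s' ∧ s' = s.setr r (e.ev s) := by
  cases h with
  | set => exact ⟨RunB.set r e s hb, FTame_bd_setr hb r he, rfl⟩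

theorem FTame_put {M : ℕ} {a : Ar} {i e : Ex} {s s' : St} {t : ℕ} (hb : Bd M s)
    (he : e.ev s ≤ M) (h : Run (.put a i e) s s' t) :
    RunB M (.put a i e) s s' t ∧ Bd M s' ∧ s' = s.seta a (i.ev s) (e.ev s) := by
  cases h with
  | put => exact ⟨RunB.put a i e s hb, FTame_bd_seta hb a _ he, rfl⟩

theorem FTame_seq {M : ℕ} {c d : Cmd} {s s' : St} {t : ℕ} (h : Run (.seq c d) s s' t)
    (Q : St → Prop) (h1 : ∀ s1 t1, Run c s s1 t1 → RunB M c s s1 t1 ∧ Q s1)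
    (h2 : ∀ s1 t1, Q s1 → Run d s1 s' t1 → RunB M d s1 s' t1 ∧ Bd M s') :
    RunB M (.seq c d) s s' t ∧ Bd M s' := by
  cases h with
  | seq _ _ _ s1 _ t1 t2 ha hb =>
    obtain ⟨r1, q1⟩ := h1 s1 t1 ha
    obtain ⟨r2, b2⟩ := h2 s1 t2 q1 hb
    exact ⟨RunB.seq c d s s1 s' t1 t2 r1 r2, b2⟩

theorem init_runB {n : ℕ} {s' : St} {t : ℕ}
    (h : Run initC ⟨fun _ => 0, fun _ _ => 0, [n]⟩ s' t) :
    RunB ((n + 4) ^ 2) initC ⟨fun _ => 0, fun _ _ => 0, [n]⟩ s' t ∧ Bd ((n + 4) ^ 2) s' := by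
  have hM1 : n + 4 ≤ (n + 4) ^ 2 := by nlinarith
  have hM2 : (n + 1) * (n + 1) ≤ (n + 4) ^ 2 := by nlinarith
  obtain ⟨M, hM⟩ : ∃ M, M = (n + 4) ^ 2 := ⟨_, rfl⟩
  rw [← hM] at hM1 hM2 ⊢
  have hb0 : Bd M ⟨fun _ => 0, fun _ _ => 0, [n]⟩ := by
    refine ⟨fun _ => Nat.zero_le _, fun _ _ => Nat.zero_le _, fun v hv => ?_⟩
    simp only [List.mem_singleton] at hv
    omega
  unfold initC at h ⊢
  simp only [bl] at h ⊢
  refine FTame_seq h (fun s => Bd M s ∧ s.rg .n = n) ?_ ?_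
  · intro s1 t1 h1
    cases h1 with
    | rd _ _ v w hv =>
      simp only [List.cons.injEq] at hv
      obtain ⟨rfl, rfl⟩ := hv
      refine ⟨RunB.rd _ _ _ _ rfl hb0, ?_, ?_⟩
      · have hb1 := FTame_bd_setr hb0 .n (show n ≤ M by omega)
        exact ⟨fun q => hb1.1 q, fun a i => hb1.2.1 a i, fun u hu => absurd hu (by simp)⟩
      · simp
  rintro s1 t1 ⟨hb1, hn1⟩ h1
  refine FTame_seq h1 (fun s => Bd M s ∧ s.rg .n = n ∧ s.rg .n1 = n + 1) ?_ ?_
  · intro s2 t2 h2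
    obtain ⟨r2, b2, e2⟩ := FTame_set hb1 (by simp only [Ex.ev, hn1]; omega) h2
    refine ⟨r2, b2, ?_, ?_⟩ <;> rw [e2] <;> simp [hn1]
  rintro s2 t2 ⟨hb2, hn2, hn3⟩ h2
  refine FTame_seq h2 (fun s => Bd M s ∧ s.rg .n = n ∧ s.rg .n1 = n + 1) ?_ ?_
  · intro s3 t3 h3
    obtain ⟨r2, b2, e2⟩ := FTame_set hb2 (by simp only [Ex.ev, hn2]; omega) h3
    refine ⟨r2, b2, ?_, ?_⟩ <;> rw [e2] <;> simp [hn2, hn3]
  rintro s3 t3 ⟨hb3, hn4, hn5⟩ h3
  refine FTame_seq h3 (fun s => Bd M s ∧ s.rg .n = n) ?_ ?_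
  · intro s4 t4 h4
    obtain ⟨r2, b2, e2⟩ := FTame_set hb3 (by simp only [Ex.ev, hn5]; omega) h4
    refine ⟨r2, b2, ?_⟩
    rw [e2]
    simp [hn4]
  rintro s4 t4 ⟨hb4, hn6⟩ h4
  refine FTame_seq h4 (fun s => Bd M s ∧ s.rg .n = n) ?_ ?_
  · intro s5 t5 h5
    obtain ⟨r2, b2, e2⟩ := FTame_set hb4 (by simp only [Ex.ev]; omega) h5
    refine ⟨r2, b2, ?_⟩
    rw [e2]
    simp [hn6]
  rintro s5 t5 ⟨hb5, hn7⟩ h5
  refine FTame_seq h5 (fun s => Bd M s ∧ s.rg .n = n) ?_ ?_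
  · intro s6 t6 h6
    obtain ⟨r2, b2, e2⟩ := FTame_put hb5 (by simp only [Ex.ev]; omega) h6
    refine ⟨r2, b2, ?_⟩
    rw [e2]
    simp [hn7]
  rintro s6 t6 ⟨hb6, hn8⟩ h6
  refine FTame_seq h6 (fun s => Bd M s ∧ s.rg .n = n) ?_ ?_
  · intro s7 t7 h7
    obtain ⟨r2, b2, e2⟩ := FTame_set hb6 (by simp only [Ex.ev]; omega) h7
    refine ⟨r2, b2, ?_⟩
    rw [e2]
    simp [hn8]
  rintro s7 t7 ⟨hb7, hn9⟩ h7
  refine FTame_seq h7 (fun s => Bd M s ∧ s.rg .n = n) ?_ ?_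
  · intro s8 t8 h8
    obtain ⟨r2, b2, e2⟩ := FTame_set hb7 (by simp only [Ex.ev]; omega) h8
    refine ⟨r2, b2, ?_⟩
    rw [e2]
    simp [hn9]
  rintro s8 t8 ⟨hb8, hn10⟩ h8
  refine FTame_seq h8 (fun s => Bd M s) ?_ ?_
  · intro s9 t9 h9
    obtain ⟨r2, b2, e2⟩ := FTame_set hb8 (by simp only [Ex.ev, hn10]; omega) h9
    exact ⟨r2, b2⟩
  intro s9 t9 hb9 h9
  cases h9 with
  | skip => exact ⟨RunB.skip _, hb9⟩

end ST2
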