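import Pool.Agent.helper32.ST.GDef
import Pool.Agent.helper32.ST.DLnk

/-!
# ST2-GTr : the tree operations preserve TRep

proofs: helper51

kids (cnt+1) = [] (its members w would have par w = cnt+1 > cnt), 0 is in no kids list, and the kids
lists are pairwise disjoint (par is a function).
* trep_add: the list of v becomes (cnt+1) :: kids v: ns (cnt+1) = fc v = head of kids v (or 0), ps of the head
  = cnt+1.  For u <> v the links of the members of kids u are unchanged: ns is updated at cnt+1 only, ps at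
  cnt+1 and at fc v, which is 0 or a member of kids v.  Use lnk_congr.
* trep_split: u = par w: replace w by cnt+1 in kids u (induction on the list, or split
  kids u = l1 ++ w :: l2; ps w = 0 iff l1 = []: if l1 <> [] then ps w is the last of l1, which is >= 2);
  new list [w] of cnt+1: ns w = 0, ps w = 0.  par: only w (now cnt+1) and cnt+1 (now u).
-/

namespace ST2

theorem trep_init : TRep TR.init (fun _ => []) := by
  refine ⟨le_rfl, fun v w => ?_, fun w h2 h1 => ?_, fun v => List.nodup_nil, fun v _ => rfl,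
    fun v => trivial, fun v w hw => ?_⟩
  · constructor
    · intro h
      simp at h
    · rintro ⟨h1, h2, -⟩
      have : w ≤ 1 := h2
      omega
  · have : w ≤ 1 := h1
    omega
  · simp at hw

/-- the first child is 0 or a child -/
theorem GTr_fc {τ : TR} {kids : ℕ → List ℕ} {v : ℕ} (h : TRep τ kids) (hv : 1 ≤ v) :
    (kids v = [] ∧ τ.fc v = 0) ∨ ∃ y l, kids v = y :: l ∧ τ.fc v = y := by
  have h1 := h.fc v hv
  rcases hk : kids v with _ | ⟨y, l⟩
  · rw [hk] at h1
    exact Or.inl ⟨rfl, h1⟩
  · rw [hk] at h1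
    exact Or.inr ⟨y, l, rfl, h1⟩

theorem trep_add {τ : TR} {kids : ℕ → List ℕ} {v p : ℕ} (h : TRep τ kids) (hv : 1 ≤ v)
    (hv' : v ≤ τ.cnt) :
    TRep (τ.addChild v p) (fun u => if u = v then (τ.cnt + 1) :: kids v else kids u) := by
  have hle : ∀ u, ∀ x ∈ kids u, 2 ≤ x ∧ x ≤ τ.cnt ∧ τ.par x = u := fun u x hx => (h.mem u x).1 hx
  have hfc0 := GTr_fc h hv
  have hfcm : ∀ u, u ≠ v → ∀ x ∈ kids u, x ≠ τ.fc v := by
    intro u hu x hx hc
    have h1 := hle u x hx
    rcases hfc0 with ⟨-, h0⟩ | ⟨y, l, hk, hy⟩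
    · rw [h0] at hc
      omega
    · have h2 := hle v y (by rw [hk]; simp)
      rw [hy] at hc
      subst hc
      exact hu (h1.2.2.symm.trans h2.2.2)
  have hfcle : τ.fc v ≤ τ.cnt := by
    rcases hfc0 with ⟨-, h0⟩ | ⟨y, l, hk, hy⟩
    · omega
    · have h2 := hle v y (by rw [hk]; simp)
      omega
  have hcm : ∀ u, ∀ x ∈ kids u, x ≠ τ.cnt + 1 := fun u x hx => by
    have := hle u x hx
    omega
  refine ⟨?_, fun u w => ?_, fun w h2 h1 => ?_, fun u => ?_, fun u hu => ?_, fun u => ?_,
    fun u w hw => ?_⟩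
  · show 1 ≤ τ.cnt + 1
    omega
  · show w ∈ (if u = v then (τ.cnt + 1) :: kids v else kids u) ↔
      2 ≤ w ∧ w ≤ τ.cnt + 1 ∧ upd τ.par (τ.cnt + 1) v w = u
    have hpos := h.pos
    by_cases hw : w = τ.cnt + 1
    · subst hw
      rw [upd_same]
      by_cases hu : u = v
      · subst hu
        rw [if_pos rfl]
        refine ⟨fun _ => ⟨by omega, le_rfl, rfl⟩, fun _ => by simp⟩
      · rw [if_neg hu]
        refine ⟨fun hx => absurd rfl (hcm u _ hx), fun hx => absurd hx.2.2.symm hu⟩
    · rw [upd_ne _ _ hw]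
      have h3 : w ≤ τ.cnt + 1 ↔ w ≤ τ.cnt := by omega
      rw [h3]
      by_cases hu : u = v
      · subst hu
        rw [if_pos rfl, List.mem_cons, h.mem u w]
        constructor
        · rintro (hx | hx)
          · exact absurd hx hw
          · exact hx
        · exact fun hx => Or.inr hx
      · rw [if_neg hu, h.mem u w]
  · have h1' : w ≤ τ.cnt + 1 := h1
    show 1 ≤ upd τ.par (τ.cnt + 1) v w ∧ upd τ.par (τ.cnt + 1) v w ≤ τ.cnt + 1
    by_cases hw : w = τ.cnt + 1
    · subst hw
      rw [upd_same]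
      omega
    · rw [upd_ne _ _ hw]
      have := h.par w h2 (by omega)
      omega
  · show (if u = v then (τ.cnt + 1) :: kids v else kids u).Nodup
    by_cases hu : u = v
    · rw [if_pos hu]
      exact List.nodup_cons.2 ⟨fun hx => hcm v _ hx rfl, h.nodup v⟩
    · rw [if_neg hu]
      exact h.nodup u
  · show upd τ.fc v (τ.cnt + 1) u = (if u = v then (τ.cnt + 1) :: kids v else kids u).headD 0
    by_cases hu' : u = v
    · subst hu'
      rw [upd_same, if_pos rfl]
      rfl
    · rw [upd_ne _ _ hu', if_neg hu']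
      exact h.fc u hu
  · show Lnk (upd τ.ns (τ.cnt + 1) (τ.fc v)) (upd (upd τ.ps (τ.cnt + 1) 0) (τ.fc v) (τ.cnt + 1))
      (if u = v then (τ.cnt + 1) :: kids v else kids u)
    by_cases hu : u = v
    · rw [if_pos hu]
      rcases hfc0 with ⟨hk, h0⟩ | ⟨y, l, hk, hy⟩
      · rw [hk]
        show upd τ.ns (τ.cnt + 1) (τ.fc v) (τ.cnt + 1) = 0
        rw [upd_same, h0]
      · have hl := h.lnk v
        have hnd := h.nodup v
        have hcv := hcm v
        rw [hk] at hl hnd hcv
        rw [hk]
        refine ⟨?_, ?_, ?_⟩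
        · rw [upd_same, hy]
        · rw [hy, upd_same]
        · refine DLnk_congr2 hl (fun x hx => ?_) (fun x hx => ?_)
          · rw [upd_ne _ _ (hcv x hx)]
          · have hx' : x ∈ l := hx
            have hxy : x ≠ τ.fc v := by
              rw [hy]
              exact fun hc => (List.nodup_cons.1 hnd).1 (hc ▸ hx')
            rw [upd_ne _ _ hxy, upd_ne _ _ (hcv x (List.mem_cons_of_mem _ hx'))]
    · rw [if_neg hu]
      refine lnk_congr (h.lnk u) (fun x hx => ?_) (fun x hx => ?_)
      · rw [upd_ne _ _ (hcm u x hx)]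
      · rw [upd_ne _ _ (hfcm u hu x hx), upd_ne _ _ (hcm u x hx)]
  · show upd (upd τ.ps (τ.cnt + 1) 0) (τ.fc v) (τ.cnt + 1) w = 0
    have hw' : w ∈ (if u = v then (τ.cnt + 1) :: kids v else kids u).head? := hw
    by_cases hu : u = v
    · rw [if_pos hu] at hw'
      have hw2 : τ.cnt + 1 = w := by simpa using hw'
      subst hw2
      rw [upd_ne _ _ (by omega), upd_same]
    · rw [if_neg hu] at hw'
      have hx : w ∈ kids u := List.mem_of_mem_head? hw'
      rw [upd_ne _ _ (hfcm u hu w hx), upd_ne _ _ (hcm u w hx)]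
      exact h.hd u w hw'

/-- replacing the member w of a list without repetitions -/
theorem GTr_map {w c : ℕ} : ∀ {l : List ℕ}, w ∉ l → l.map (fun y => if y = w then c else y) = l
  | [], _ => rfl
  | x :: l, h => by
    have h1 : x ≠ w := fun hc => h (by rw [hc]; simp)
    have h2 : w ∉ l := fun hc => h (List.mem_cons_of_mem _ hc)
    rw [List.map_cons, GTr_map h2, if_neg h1]

/-- the links of the list in which w is replaced by c -/
theorem GTr_lnk {ns ps : ℕ → ℕ} {l1 l2 : List ℕ} {w c : ℕ} (hl : Lnk ns ps (l1 ++ w :: l2))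
    (hnd : (l1 ++ w :: l2).Nodup) (hc : c ∉ l1 ++ w :: l2) (h0 : 0 ∉ l1 ++ w :: l2)
    (hd : ∀ y ∈ (l1 ++ w :: l2).head?, ps y = 0) :
    Lnk (upd (upd (if ps w = 0 then ns else upd ns (ps w) c) c (ns w)) w 0)
      (upd (upd (upd ps (ns w) c) c (ps w)) w 0) (l1 ++ c :: l2) := by
  have hnd' := List.nodup_append.1 hnd
  have hw2 : w ∉ l2 := (List.nodup_cons.1 hnd'.2.1).1
  have hw1 : w ∉ l1 := fun hx => hnd'.2.2 w hx w (by simp) rfl
  have hcw : c ≠ w := fun hx => hc (by rw [hx]; simp)
  have hsuf : Lnk ns ps (w :: l2) := DLnk_suffix hl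
  -- the part c :: l2
  have hS : ∀ (hps : ps w ∉ l2),
      Lnk (upd (upd (if ps w = 0 then ns else upd ns (ps w) c) c (ns w)) w 0)
      (upd (upd (upd ps (ns w) c) c (ps w)) w 0) (c :: l2) := by
    intro hps
    rcases DLnk_nx hl with ⟨rfl, hx'⟩ | ⟨y, l3, rfl, hy, hpy⟩
    · show upd (upd (if ps w = 0 then ns else upd ns (ps w) c) c (ns w)) w 0 c = 0
      rw [upd_ne _ _ hcw, upd_same, hx']
    · have hyc : y ≠ c := fun hx => hc (by rw [← hx]; simp)
      have hyw : y ≠ w := fun hx => hw2 (by rw [← hx]; simp)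
      have hn2 : (y :: l3).Nodup := (List.nodup_cons.1 hnd'.2.1).2
      refine ⟨?_, ?_, ?_⟩
      · rw [upd_ne _ _ hcw, upd_same, hy]
      · rw [upd_ne _ _ hyw, upd_ne _ _ hyc, hy, upd_same]
      · refine DLnk_congr2 hsuf.2.2 (fun z hz => ?_) (fun z hz => ?_)
        · have hzw : z ≠ w := fun hx => hw2 (hx ▸ hz)
          have hzc : z ≠ c := fun hx => hc (by rw [← hx]; simp at hz ⊢; tauto)
          have hzp : z ≠ ps w := fun hx => hps (hx ▸ hz)
          rw [upd_ne _ _ hzw, upd_ne _ _ hzc]
          split_ifs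
          · rfl
          · rw [upd_ne _ _ hzp]
        · have hz' : z ∈ l3 := hz
          have hzw : z ≠ w := fun hx => hw2 (by rw [← hx]; simp [hz'])
          have hzc : z ≠ c := fun hx => hc (by rw [← hx]; simp [hz'])
          have hzy : z ≠ ns w := by
            rw [hy]
            exact fun hx => (List.nodup_cons.1 hn2).1 (hx ▸ hz')
          rw [upd_ne _ _ hzw, upd_ne _ _ hzc, upd_ne _ _ hzy]
  rcases List.eq_nil_or_concat l1 with hl1 | ⟨l1', a, hl1⟩
  · subst hl1
    have hpw : ps w = 0 := hd w (by simp)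
    have h02 : ps w ∉ l2 := by
      rw [hpw]
      exact fun hx => h0 (by simp [hx])
    exact hS h02
  · have hl1' : l1 = l1' ++ [a] := by rw [hl1, List.concat_eq_append]
    clear hl1
    subst hl1'
    have e1 : l1' ++ [a] ++ w :: l2 = l1' ++ a :: (w :: l2) := by simp
    have e2 : l1' ++ [a] ++ c :: l2 = l1' ++ a :: (c :: l2) := by simp
    rw [e1] at hl
    rw [e2]
    have hadj := lnk_adj hl
    have hpa : ps w = a := hadj.2
    have haw : a ≠ w := fun hx => hw1 (by rw [← hx]; simp)
    have hac : a ≠ c := fun hx => hc (by rw [← hx]; simp)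
    have ha0 : a ≠ 0 := fun hx => h0 (by rw [← hx]; simp)
    have ha2 : a ∉ l2 := fun hx => hnd'.2.2 a (by simp) a (by simp [hx]) rfl
    have hpw0 : ¬ ps w = 0 := by rw [hpa]; exact ha0
    have hnd1 := List.nodup_append.1 hnd'.1
    have hnw : ∀ z ∈ l1' ++ [a], z ≠ ns w := by
      intro z hz
      rw [← e1] at hl
      rcases DLnk_nx hl with ⟨-, hx'⟩ | ⟨y, l3, h3, hy, hpy⟩
      · rw [hx']
        intro hx
        exact h0 (by rw [← hx]; exact List.mem_append_left _ hz)
      · rw [hy]
        intro hx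
        exact hnd'.2.2 z hz y (by rw [h3]; simp) hx
    refine DLnk_glue (x := a) (l2 := w :: l2) (nx := ns) (pv := ps) ?_ hl (fun z hz => ?_)
      (fun z hz => ?_)
    · refine ⟨?_, ?_, hS (by rw [hpa]; exact ha2)⟩
      · rw [upd_ne _ _ haw, upd_ne _ _ hac, if_neg hpw0, hpa, upd_same]
      · rw [upd_ne _ _ hcw, upd_same, hpa]
    · have hzw : z ≠ w := fun hx => hw1 (by rw [← hx]; simp [hz])
      have hzc : z ≠ c := fun hx => hc (by rw [← hx]; simp [hz])
      have hza : z ≠ a := fun hx => hnd1.2.2 z hz a (by simp) hx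
      rw [upd_ne _ _ hzw, upd_ne _ _ hzc, if_neg hpw0, hpa, upd_ne _ _ hza]
    · have hzw : z ≠ w := fun hx => hw1 (by rw [← hx]; exact hz)
      have hzc : z ≠ c := fun hx => hc (by rw [← hx]; exact List.mem_append_left _ hz)
      rw [upd_ne _ _ hzw, upd_ne _ _ hzc, upd_ne _ _ (hnw z hz)]

/-- the neighbours of a member of a linked list are 0 or members -/
theorem GTr_nbr {ns ps : ℕ → ℕ} {l : List ℕ} {w : ℕ} (hl : Lnk ns ps l) (hw : w ∈ l)
    (hd : ∀ y ∈ l.head?, ps y = 0) : (ns w = 0 ∨ ns w ∈ l) ∧ (ps w = 0 ∨ ps w ∈ l) := by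
  obtain ⟨l1, l2, rfl⟩ := List.append_of_mem hw
  constructor
  · rcases DLnk_nx hl with ⟨-, hx'⟩ | ⟨y, l3, rfl, hy, -⟩
    · exact Or.inl hx'
    · right
      rw [hy]
      simp
  · rcases List.eq_nil_or_concat l1 with hl1 | ⟨l1', a, hl1⟩
    · subst hl1
      exact Or.inl (hd w (by simp))
    · have hl1' : l1 = l1' ++ [a] := by rw [hl1, List.concat_eq_append]
      clear hl1
      subst hl1'
      have e1 : l1' ++ [a] ++ w :: l2 = l1' ++ a :: (w :: l2) := by simp
      rw [e1] at hl
      right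
      rw [(lnk_adj hl).2]
      simp

theorem trep_split {τ : TR} {kids : ℕ → List ℕ} {w k p : ℕ} (h : TRep τ kids) (hw : 2 ≤ w)
    (hw' : w ≤ τ.cnt) :
    TRep (τ.splitAbove w k p) (fun u => if u = τ.cnt + 1 then [w] else if u = τ.par w then
      (kids u).map (fun y => if y = w then τ.cnt + 1 else y) else kids u) := by
  have hle : ∀ u, ∀ x ∈ kids u, 2 ≤ x ∧ x ≤ τ.cnt ∧ τ.par x = u := fun u x hx => (h.mem u x).1 hx
  have hcm : ∀ u, τ.cnt + 1 ∉ kids u := fun u hx => by
    have := hle u _ hx
    omega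
  have h0m : ∀ u, 0 ∉ kids u := fun u hx => by
    have := hle u _ hx
    omega
  have hpw := h.par w hw hw'
  have hwq : w ∈ kids (τ.par w) := (h.mem _ _).2 ⟨hw, hw', rfl⟩
  have hqc : τ.par w ≠ τ.cnt + 1 := by omega
  have hwc : w ≠ τ.cnt + 1 := by omega
  obtain ⟨l1, l2, hk⟩ := List.append_of_mem hwq
  have hlq := h.lnk (τ.par w)
  have hndq := h.nodup (τ.par w)
  have hcq := hcm (τ.par w)
  have h0q := h0m (τ.par w)
  have hdq := h.hd (τ.par w)
  have hnbr := GTr_nbr hlq hwq hdq
  have hother : ∀ u, u ≠ τ.par w → ∀ x ∈ kids u, x ≠ w ∧ x ≠ τ.cnt + 1 ∧ x ≠ τ.ns w ∧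
      x ≠ τ.ps w := by
    intro u hu x hx
    have h1 := hle u x hx
    refine ⟨fun hc => ?_, by omega, fun hc => ?_, fun hc => ?_⟩
    · subst hc
      exact hu h1.2.2.symm
    · rcases hnbr.1 with h2 | h2
      · omega
      · have h3 := hle _ _ h2
        rw [← hc] at h3
        exact hu (h1.2.2.symm.trans h3.2.2)
    · rcases hnbr.2 with h2 | h2
      · omega
      · have h3 := hle _ _ h2
        rw [← hc] at h3
        exact hu (h1.2.2.symm.trans h3.2.2)
  rw [hk] at hlq hndq hcq h0q hdq
  have hnd' := List.nodup_append.1 hndq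
  have hw2 : w ∉ l2 := (List.nodup_cons.1 hnd'.2.1).1
  have hw1 : w ∉ l1 := fun hx => hnd'.2.2 w hx w (by simp) rfl
  have hmap : (kids (τ.par w)).map (fun y => if y = w then τ.cnt + 1 else y) =
      l1 ++ (τ.cnt + 1) :: l2 := by
    rw [hk, List.map_append, List.map_cons, GTr_map hw1, GTr_map hw2, if_pos rfl]
  have hkids : ∀ u, (if u = τ.cnt + 1 then [w] else if u = τ.par w then
      (kids u).map (fun y => if y = w then τ.cnt + 1 else y) else kids u) =
      (if u = τ.cnt + 1 then [w] else if u = τ.par w then l1 ++ (τ.cnt + 1) :: l2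
        else kids u) := by
    intro u
    by_cases h1 : u = τ.cnt + 1
    · rw [if_pos h1, if_pos h1]
    · rw [if_neg h1, if_neg h1]
      by_cases h2 : u = τ.par w
      · rw [if_pos h2, if_pos h2, h2, hmap]
      · rw [if_neg h2, if_neg h2]
  have hfun : (fun u => if u = τ.cnt + 1 then [w] else if u = τ.par w then
      (kids u).map (fun y => if y = w then τ.cnt + 1 else y) else kids u) =
      (fun u => if u = τ.cnt + 1 then [w] else if u = τ.par w then l1 ++ (τ.cnt + 1) :: l2
        else kids u) := funext hkids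
  rw [hfun]
  have hc12 : τ.cnt + 1 ∉ l1 ∧ τ.cnt + 1 ∉ l2 := by
    constructor
    · exact fun hx => hcq (by simp [hx])
    · exact fun hx => hcq (by simp [hx])
  refine ⟨?_, fun u x => ?_, fun x h2 h1 => ?_, fun u => ?_, fun u hu => ?_, fun u => ?_,
    fun u x hx => ?_⟩
  · show 1 ≤ τ.cnt + 1
    omega
  · show x ∈ (if u = τ.cnt + 1 then [w] else if u = τ.par w then l1 ++ (τ.cnt + 1) :: l2
        else kids u) ↔ 2 ≤ x ∧ x ≤ τ.cnt + 1 ∧
        upd (upd τ.par (τ.cnt + 1) (τ.par w)) w (τ.cnt + 1) x = u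
    by_cases hxw : x = w
    · subst hxw
      rw [upd_same]
      by_cases hu : u = τ.cnt + 1
      · rw [if_pos hu]
        refine ⟨fun _ => ⟨hw, by omega, hu.symm⟩, fun _ => by simp⟩
      · rw [if_neg hu]
        refine ⟨fun hx => ?_, fun hx => absurd hx.2.2.symm hu⟩
        exfalso
        by_cases hu2 : u = τ.par x
        · rw [if_pos hu2] at hx
          rcases List.mem_append.1 hx with h3 | h3
          · exact hw1 h3
          · rcases List.mem_cons.1 h3 with h4 | h4
            · exact hwc h4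
            · exact hw2 h4
        · rw [if_neg hu2] at hx
          exact hu2 ((hle u x hx).2.2).symm
    · rw [upd_ne _ _ hxw]
      by_cases hxc : x = τ.cnt + 1
      · rw [hxc, upd_same]
        by_cases hu : u = τ.cnt + 1
        · rw [if_pos hu]
          refine ⟨fun hx => ?_, fun hx => ?_⟩
          · exact absurd (List.mem_singleton.1 hx).symm hwc
          · exact absurd (hx.2.2.trans hu) hqc
        · rw [if_neg hu]
          by_cases hu2 : u = τ.par w
          · rw [if_pos hu2]
            refine ⟨fun _ => ⟨by omega, le_rfl, hu2.symm⟩, fun _ => by simp⟩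
          · rw [if_neg hu2]
            refine ⟨fun hx => absurd hx (hcm u), fun hx => absurd hx.2.2.symm hu2⟩
      · rw [upd_ne _ _ hxc]
        have h3 : x ≤ τ.cnt + 1 ↔ x ≤ τ.cnt := by omega
        rw [h3, ← h.mem u x]
        by_cases hu : u = τ.cnt + 1
        · rw [if_pos hu]
          refine ⟨fun hx => absurd (List.mem_singleton.1 hx) hxw, fun hx => ?_⟩
          have h4 := hle u x hx
          have h5 := h.par x h4.1 h4.2.1
          omega
        · rw [if_neg hu]
          by_cases hu2 : u = τ.par w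
          · rw [if_pos hu2, hu2, hk]
            simp only [List.mem_append, List.mem_cons]
            tauto
          · rw [if_neg hu2]
  · have h1' : x ≤ τ.cnt + 1 := h1
    show 1 ≤ upd (upd τ.par (τ.cnt + 1) (τ.par w)) w (τ.cnt + 1) x ∧
      upd (upd τ.par (τ.cnt + 1) (τ.par w)) w (τ.cnt + 1) x ≤ τ.cnt + 1
    by_cases hxw : x = w
    · rw [hxw, upd_same]
      omega
    · rw [upd_ne _ _ hxw]
      by_cases hxc : x = τ.cnt + 1
      · rw [hxc, upd_same]
        omega
      · rw [upd_ne _ _ hxc]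
        have := h.par x h2 (by omega)
        omega
  · show (if u = τ.cnt + 1 then [w] else if u = τ.par w then l1 ++ (τ.cnt + 1) :: l2
        else kids u).Nodup
    split_ifs with h1 h2
    · exact List.nodup_singleton w
    · rw [List.nodup_append] at hndq ⊢
      refine ⟨hndq.1, List.nodup_cons.2 ⟨hc12.2, (List.nodup_cons.1 hndq.2.1).2⟩, ?_⟩
      intro a ha b hb
      rcases List.mem_cons.1 hb with h4 | h4
      · rw [h4]
        exact fun hc => hc12.1 (hc ▸ ha)
      · exact hndq.2.2 a ha b (List.mem_cons_of_mem _ h4)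
    · exact h.nodup u
  · show upd (if τ.ps w = 0 then upd τ.fc (τ.par w) (τ.cnt + 1) else τ.fc) (τ.cnt + 1) w u =
      (if u = τ.cnt + 1 then [w] else if u = τ.par w then l1 ++ (τ.cnt + 1) :: l2
        else kids u).headD 0
    by_cases h1 : u = τ.cnt + 1
    · rw [if_pos h1, h1, upd_same]
      rfl
    · rw [if_neg h1, upd_ne _ _ h1]
      by_cases h2 : u = τ.par w
      · rw [if_pos h2]
        have hf := h.fc u hu
        rw [h2, hk] at hf
        rcases l1 with _ | ⟨a, l1⟩
        · have hp0 : τ.ps w = 0 := hdq w (by simp)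
          rw [if_pos hp0, h2, upd_same]
          rfl
        · have hp0 : ¬ τ.ps w = 0 := by
            intro hc
            have h5 := hnbr.2
            rcases List.eq_nil_or_concat (a :: l1) with hl1 | ⟨l1', b, hl1⟩
            · simp at hl1
            · rw [hl1, List.concat_eq_append] at hlq h0q
              have e1 : l1' ++ [b] ++ w :: l2 = l1' ++ b :: (w :: l2) := by simp
              rw [e1] at hlq
              have h6 := (lnk_adj hlq).2
              rw [hc] at h6
              exact h0q (by rw [h6]; simp)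
          rw [if_neg hp0, h2, hf]
          rfl
      · rw [if_neg h2]
        have hfu : (if τ.ps w = 0 then upd τ.fc (τ.par w) (τ.cnt + 1) else τ.fc) u = τ.fc u := by
          split_ifs
          · rw [upd_ne _ _ h2]
          · rfl
        rw [hfu]
        exact h.fc u hu
  · show Lnk (upd (upd (if τ.ps w = 0 then τ.ns else upd τ.ns (τ.ps w) (τ.cnt + 1)) (τ.cnt + 1)
      (τ.ns w)) w 0) (upd (upd (upd τ.ps (τ.ns w) (τ.cnt + 1)) (τ.cnt + 1) (τ.ps w)) w 0)
      (if u = τ.cnt + 1 then [w] else if u = τ.par w then l1 ++ (τ.cnt + 1) :: l2 else kids u)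
    by_cases h1 : u = τ.cnt + 1
    · rw [if_pos h1]
      show upd (upd (if τ.ps w = 0 then τ.ns else upd τ.ns (τ.ps w) (τ.cnt + 1)) (τ.cnt + 1)
        (τ.ns w)) w 0 w = 0
      rw [upd_same]
    · rw [if_neg h1]
      by_cases h2 : u = τ.par w
      · rw [if_pos h2]
        exact GTr_lnk hlq hndq hcq h0q hdq
      · rw [if_neg h2]
        refine lnk_congr (h.lnk u) (fun x hx => ?_) (fun x hx => ?_)
        · obtain ⟨a1, a2, a3, a4⟩ := hother u h2 x hx
          rw [upd_ne _ _ a1, upd_ne _ _ a2]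
          split_ifs
          · rfl
          · rw [upd_ne _ _ a4]
        · obtain ⟨a1, a2, a3, a4⟩ := hother u h2 x hx
          rw [upd_ne _ _ a1, upd_ne _ _ a2, upd_ne _ _ a3]
  · show upd (upd (upd τ.ps (τ.ns w) (τ.cnt + 1)) (τ.cnt + 1) (τ.ps w)) w 0 x = 0
    have hx' : x ∈ (if u = τ.cnt + 1 then [w] else if u = τ.par w then l1 ++ (τ.cnt + 1) :: l2
        else kids u).head? := hx
    by_cases h1 : u = τ.cnt + 1
    · rw [if_pos h1] at hx'
      have hxw : w = x := by simpa using hx'
      rw [← hxw, upd_same]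
    · rw [if_neg h1] at hx'
      by_cases h2 : u = τ.par w
      · rw [if_pos h2] at hx'
        rcases l1 with _ | ⟨a, l1⟩
        · have hxc : τ.cnt + 1 = x := by simpa using hx'
          rw [← hxc, upd_ne _ _ hwc.symm, upd_same]
          exact hdq w (by simp)
        · have hxa : a = x := by simpa using hx'
          rw [← hxa]
          have haw : a ≠ w := fun hx => hw1 (by rw [← hx]; simp)
          have hac : a ≠ τ.cnt + 1 := fun hx => hc12.1 (by rw [← hx]; simp)
          have han : a ≠ τ.ns w := by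
            rcases DLnk_nx hlq with ⟨-, hx'⟩ | ⟨y, l3, h3, hy, hpy⟩
            · rw [hx']
              intro hx
              exact h0q (by rw [← hx]; simp)
            · rw [hy]
              intro hx
              exact hnd'.2.2 a (by simp) y (by rw [h3]; simp) hx
          rw [upd_ne _ _ haw, upd_ne _ _ hac, upd_ne _ _ han]
          exact hdq a (by simp)
      · rw [if_neg h2] at hx'
        have hxm : x ∈ kids u := List.mem_of_mem_head? hx'
        obtain ⟨a1, a2, a3, a4⟩ := hother u h2 x hxm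
        rw [upd_ne _ _ a1, upd_ne _ _ a2, upd_ne _ _ a3]
        exact h.hd u x hx'

end ST2
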