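import Pool.Agent.helper32.ST.GLeafL
import Pool.Agent.helper32.ST.GTr

/-!
# ST2-GLeafT : a new leaf, tree invariant

e = cnt+1 (not in l), nd' e = t.cnt+1, trep_add (v is 1 or the node of a real element, so 1 <= v <= cnt).
For flagged f <> 1 in l: pm' f = pm f (both are the greatest flagged element below f, pm_spec in both LI; e is
above all).  par' = par on [2, cnt].  nd' = nd on l.  hd for old owners unchanged (el of R loci is in l).
For e: pm' e is in l (or 1), its key has an owner in O (owner_key) or is (0,0,0), and (u, κ) is not in O by hO,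
so not SameO; par' (cnt+1) = v = hd n A g' u κ (el (R locus) in l, nd' = nd there).
ts' (tl u' κ') for old owners is unchanged: tl_inj.
-/

namespace ST2

variable {n : ℕ} {A : ℕ → ℕ} {V R O : ℕ → ℕ → Prop} {g g' : G} {l : List ℕ}
  {ky : ℕ → ℕ × ℕ × ℕ}

theorem leaf_TI (h : LI n A V R O g l ky) (hT : TI n A R O g l ky) {u κ v : ℕ}
    (hc : Cr n A u κ) (h1 : 1 ≤ κ) (hO : ∀ u' κ', O u' κ' → u' < u ∨ (u' = u ∧ κ < κ'))
    (hR : 2 ≤ κ → R (N n A (κ - 1) (u - (n + 2))) (κ - 1)) (hv : v = hd n A g u κ)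
    (h' : LI n A V R (addp O u κ) g' (l ++ [g.d.cnt + 1])
        (Function.update ky (g.d.cnt + 1) (u, κ, n + 1)))
    (ht : g'.t = g.t.addChild v (tl n u κ)) (hnd : g'.nd = upd g.nd (g.d.cnt + 1) (g.t.cnt + 1))
    (hel : g'.el = g.el) (hts : g'.ts = upd g.ts (tl n u κ) (g.d.cnt + 1))
    (he : g.d.cnt + 1 ∉ l) (hf : ∀ f ∈ l, (g'.d.fl f ≠ 0 ↔ g.d.fl f ≠ 0)) :
    TI n A R (addp O u κ) g' (l ++ [g.d.cnt + 1])
      (Function.update ky (g.d.cnt + 1) (u, κ, n + 1)) := by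
  have he1 : g.d.cnt + 1 ≠ 1 := by
    have := (li_pos h h.one).2
    omega
  have hfne : ∀ f ∈ l, f ≠ g.d.cnt + 1 := fun f hfl hcc => he (hcc ▸ hfl)
  have hnl : ∀ f ∈ l, g'.nd f = g.nd f := by
    intro f hfl
    rw [hnd, upd_ne _ _ (hfne f hfl)]
  have hne : g'.nd (g.d.cnt + 1) = g.t.cnt + 1 := by rw [hnd, upd_same]
  have hkl : ∀ f ∈ l, Function.update ky (g.d.cnt + 1) (u, κ, n + 1) f = ky f := by
    intro f hfl
    exact Function.update_of_ne (hfne f hfl) _ _
  have hke : Function.update ky (g.d.cnt + 1) (u, κ, n + 1) (g.d.cnt + 1) = (u, κ, n + 1) :=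
    Function.update_self _ _ _
  have hu1 : 0 < u := by
    have h2 := hc.1.1
    unfold mx at h2
    rcases Nat.eq_zero_or_pos u with h0 | h0
    · rw [h0] at h2
      simp at h2
    · exact h0
  have hnO : ¬ O u κ := by
    intro ho
    rcases hO u κ ho with h2 | h2 <;> omega
  have hbelow : ∀ f ∈ l, klt (ky f) (u, κ, n + 1) := by
    intro f hfl
    by_cases hf1 : f = 1
    · rw [hf1, h.one_ky]
      exact Or.inl hu1
    · have ho := (owner_key h hfl hf1).1
      rcases hO _ _ ho with h2 | h2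
      · exact Or.inl h2
      · exact Or.inr ⟨h2.1, Or.inl h2.2⟩
  have hfle : g'.d.fl (g.d.cnt + 1) ≠ 0 := by
    have h2 := h'.ofl u κ (Or.inr ⟨rfl, rfl⟩)
    rwa [hts, upd_same] at h2
  have hpm : ∀ a ∈ l, a ≠ 1 → g.d.fl a ≠ 0 → g.pm a ∈ l ∧ g'.pm a = g.pm a := by
    intro a ha ha1 haf
    obtain ⟨p1, p2, p3, -, p5⟩ := pm_spec h ha ha1 haf
    have haf' := (hf a ha).2 haf
    obtain ⟨q1, q2, q3, -, q5⟩ := pm_spec h' (List.mem_append_left _ ha) ha1 haf'
    have hq : g'.pm a ∈ l := by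
      rcases List.mem_append.1 q1 with h2 | h2
      · exact h2
      · exfalso
        have h3 : g'.pm a = g.d.cnt + 1 := by simpa using h2
        rw [h3, hke, hkl a ha] at q3
        exact GKey_asymm q3 (hbelow a ha)
    rw [hkl _ hq, hkl a ha] at q3
    have hqf := (hf _ hq).1 q2
    refine ⟨p1, ?_⟩
    rcases p5 _ hq hqf q3 with h2 | h2
    · exact h2
    · have h3 := q5 (g.pm a) (List.mem_append_left _ p1) ((hf _ p1).2 p2)
        (by rw [hkl _ p1, hkl a ha]; exact p3)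
      rcases h3 with h4 | h4
      · exact h4.symm
      · rw [hkl _ p1, hkl _ hq] at h4
        exact (GKey_asymm h2 h4).elim
  have hel' : ∀ z k, R z k → g.el (ix n z k) ∈ l := fun z k hr => h.vel z k (h.rv z k hr)
  have helb : ∀ z k, R z k → 2 ≤ g.nd (g.el (ix n z k)) ∧ g.nd (g.el (ix n z k)) ≤ g.t.cnt :=
    fun z k hr => hT.rng _ (hel' _ _ hr) (el_ne_one h (h.rv _ _ hr))
      ((h.mark _ _ (h.rv _ _ hr)).2 hr)
  have htsb : ∀ u' κ', O u' κ' → g.nd (g.ts (tl n u' κ')) ≤ g.t.cnt := fun u' κ' ho =>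
    (hT.rng _ (h.ots _ _ ho) (ts_ne_one h ho) (h.ofl _ _ ho)).2
  have hhd : ∀ u' κ', (2 ≤ κ' → R (N n A (κ' - 1) (u' - (n + 2))) (κ' - 1)) →
      hd n A g' u' κ' = hd n A g u' κ' := by
    intro u' κ' hr
    unfold hd
    by_cases hk : κ' ≤ 1
    · rw [if_pos hk, if_pos hk]
    · rw [if_neg hk, if_neg hk, hel, hnl _ (hel' _ _ (hr (by omega)))]
  obtain ⟨kids, hk⟩ := hT.rep
  have hcnt := hk.pos
  have hvb : 1 ≤ v ∧ v ≤ g.t.cnt := by
    rw [hv]
    unfold hd
    by_cases hk1 : κ ≤ 1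
    · rw [if_pos hk1]
      exact ⟨le_rfl, hcnt⟩
    · rw [if_neg hk1]
      have := helb _ _ (hR (by omega))
      omega
  have hcnt' : g'.t.cnt = g.t.cnt + 1 := by rw [ht]; rfl
  have hsz : ∀ x, x ≤ g.t.cnt → g'.t.sz x = g.t.sz x := by
    intro x hx
    rw [ht]
    exact upd_ne _ _ (by omega)
  have hpo : ∀ x, x ≤ g.t.cnt → g'.t.po x = g.t.po x := by
    intro x hx
    rw [ht]
    exact upd_ne _ _ (by omega)
  have hpar : ∀ x, x ≤ g.t.cnt → g'.t.par x = g.t.par x := by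
    intro x hx
    rw [ht]
    exact upd_ne _ _ (by omega)
  have hsz1 : g'.t.sz (g.t.cnt + 1) = 0 := by
    rw [ht]
    exact upd_same _ _ _
  have hpo1 : g'.t.po (g.t.cnt + 1) = tl n u κ := by
    rw [ht]
    exact upd_same _ _ _
  have hpar1 : g'.t.par (g.t.cnt + 1) = v := by
    rw [ht]
    exact upd_same _ _ _
  have htsold : ∀ u' κ', O u' κ' → g'.ts (tl n u' κ') = g.ts (tl n u' κ') := by
    intro u' κ' ho
    rw [hts]
    refine upd_ne _ _ ?_
    intro hcc
    obtain ⟨r1, r2⟩ := tl_inj (h.ocr u' κ' ho) hc (h.opos u' κ' ho) h1 hcc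
    rw [r1, r2] at ho
    exact hnO ho
  have htsnew : g'.ts (tl n u κ) = g.d.cnt + 1 := by rw [hts, upd_same]
  have hmem : ∀ a ∈ l ++ [g.d.cnt + 1], a ∈ l ∨ a = g.d.cnt + 1 := by
    intro a ha
    rcases List.mem_append.1 ha with h2 | h2
    · exact Or.inl h2
    · exact Or.inr (by simpa using h2)
  refine ⟨⟨_, by rw [ht]; exact trep_add hk hvb.1 hvb.2⟩, ?_, ?_, ?_, ?_, ?_, ?_, ?_, ?_, ?_, ?_⟩
  · -- inj
    intro a ha b hb ha1 hb1 haf hbf hab
    rcases hmem a ha with ha2 | ha2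
    · rcases hmem b hb with hb2 | hb2
      · rw [hnl a ha2, hnl b hb2] at hab
        exact hT.inj a ha2 b hb2 ha1 hb1 ((hf a ha2).1 haf) ((hf b hb2).1 hbf) hab
      · exfalso
        rw [hnl a ha2, hb2, hne] at hab
        have := (hT.rng a ha2 ha1 ((hf a ha2).1 haf)).2
        omega
    · rcases hmem b hb with hb2 | hb2
      · exfalso
        rw [hnl b hb2, ha2, hne] at hab
        have := (hT.rng b hb2 hb1 ((hf b hb2).1 hbf)).2
        omega
      · rw [ha2, hb2]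
  · -- rng
    intro a ha ha1 haf
    rw [hcnt']
    rcases hmem a ha with ha2 | ha2
    · rw [hnl a ha2]
      have := hT.rng a ha2 ha1 ((hf a ha2).1 haf)
      omega
    · rw [ha2, hne]
      omega
  · -- sur
    intro x hx1 hx2
    rw [hcnt'] at hx2
    by_cases hx : x = g.t.cnt + 1
    · exact ⟨g.d.cnt + 1, by simp, he1, hfle, by rw [hne, hx]⟩
    · obtain ⟨a, ha, ha1, haf, hax⟩ := hT.sur x hx1 (by omega)
      exact ⟨a, List.mem_append_left _ ha, ha1, (hf a ha).2 haf, by rw [hnl a ha]; exact hax⟩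
  · -- szr
    intro z k hr
    rw [hel, hnl _ (hel' z k hr), hsz _ (helb z k hr).2]
    exact hT.szr z k hr
  · -- por
    intro z k hr
    rw [hel, hnl _ (hel' z k hr), hpo _ (helb z k hr).2]
    exact hT.por z k hr
  · -- szo
    intro u' κ' ho
    rcases ho with ho | ⟨rfl, rfl⟩
    · rw [htsold u' κ' ho, hnl _ (h.ots u' κ' ho), hsz _ (htsb u' κ' ho)]
      exact hT.szo u' κ' ho
    · rw [htsnew, hne, hsz1]
  · -- poo
    intro u' κ' ho
    rcases ho with ho | ⟨rfl, rfl⟩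
    · rw [htsold u' κ' ho, hnl _ (h.ots u' κ' ho), hpo _ (htsb u' κ' ho)]
      exact hT.poo u' κ' ho
    · rw [htsnew, hne, hpo1]
  · -- oR
    intro u' κ' ho h2
    rcases ho with ho | ⟨rfl, rfl⟩
    · exact hT.oR u' κ' ho h2
    · exact hR h2
  · -- par1
    intro a ha ha1 haf hS
    rcases hmem a ha with ha2 | ha2
    · have haf2 := (hf a ha2).1 haf
      obtain ⟨p1, p2⟩ := hpm a ha2 ha1 haf2
      rw [p2] at hS ⊢
      unfold SameO at hS
      rw [hkl _ p1, hkl a ha2] at hS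
      rw [hnl a ha2, hnl _ p1, hpar _ (hT.rng a ha2 ha1 haf2).2]
      exact hT.par1 a ha2 ha1 haf2 hS
    · exfalso
      subst ha2
      obtain ⟨q1, q2, q3, -, -⟩ := pm_spec h' ha ha1 haf
      have hq : g'.pm (g.d.cnt + 1) ∈ l := by
        rcases hmem _ q1 with h2 | h2
        · exact h2
        · rw [h2] at q3
          exact (klt_irrefl _ q3).elim
      unfold SameO at hS
      rw [hkl _ hq, hke] at hS
      by_cases hp1 : g'.pm (g.d.cnt + 1) = 1
      · rw [hp1, h.one_ky] at hS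
        have h2 : 0 = u := hS.1
        omega
      · have ho := (owner_key h hq hp1).1
        rw [hS.1, hS.2] at ho
        exact hnO ho
  · -- par2
    intro a ha ha1 haf hS
    rcases hmem a ha with ha2 | ha2
    · have haf2 := (hf a ha2).1 haf
      obtain ⟨p1, p2⟩ := hpm a ha2 ha1 haf2
      rw [p2] at hS
      unfold SameO at hS
      rw [hkl _ p1, hkl a ha2] at hS
      rw [hkl a ha2, hhd _ _ (hT.oR _ _ (owner_key h ha2 ha1).1), hnl a ha2,
        hpar _ (hT.rng a ha2 ha1 haf2).2]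
      exact hT.par2 a ha2 ha1 haf2 hS
    · subst ha2
      rw [hke, hne, hpar1, hhd u κ hR]
      exact hv

end ST2
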