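import Pool.Agent.helper32.ST.GReal
import Pool.Agent.helper32.ST.GLeafT

/-!
# ST2-GAtt : attaching a leaf

newleaf_GI: leaf_LI and leaf_TI.  attach_GI: real_GI for (z, k) with V z k, then newleaf_GI for the owner
(u, κ) with κ = k + 1, N k (u - (n+2)) = z: hd n A g1 u κ = nd (el (ix z k)) in the record g1.
The top left position is tl n u (k+1) = u - k (n+2).
-/

namespace ST2

variable {n : ℕ} {A : ℕ → ℕ} {V R O : ℕ → ℕ → Prop} {g : G} {l : List ℕ}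
  {ky : ℕ → ℕ × ℕ × ℕ}

theorem newleaf_GI (h : LI n A V R O g l ky) (hT : TI n A R O g l ky) {u κ : ℕ}
    (hc : Cr n A u κ) (h1 : 1 ≤ κ) (hO : ∀ u' κ', O u' κ' → u' < u ∨ (u' = u ∧ κ < κ'))
    (hR : 2 ≤ κ → R (N n A (κ - 1) (u - (n + 2))) (κ - 1)) :
    ∃ g' t l' ky', NewLeafR g (hd n A g u κ) (tl n u κ) g' t ∧
      LI n A V R (addp O u κ) g' l' ky' ∧ TI n A R (addp O u κ) g' l' ky' ∧
      g.w + t ≤ g'.w ∧ l'.length = l.length + 1 := by
  obtain ⟨g', t, hnl, hLI, hw, ht, hnd, hel, hts, hne, hf⟩ :=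
    leaf_LI h hc h1 hO (hd n A g u κ)
  exact ⟨g', t, _, _, hnl, hLI,
    leaf_TI h hT hc h1 hO hR rfl hLI ht hnd hel hts hne hf, hw, by simp⟩

theorem attach_GI (h : LI n A V R O g l ky) (hT : TI n A R O g l ky) {c z k : ℕ} (hV : V z k)
    (hz : N n A k (c - (n + 2)) = z) (hc : Cr n A c (k + 1))
    (hO : ∀ u' κ', O u' κ' → u' < c ∨ (u' = c ∧ k + 1 < κ')) :
    ∃ g' t l' ky', AttachR n g z k (c - k * (n + 2)) g' t ∧
      LI n A V (addp R z k) (addp O c (k + 1)) g' l' ky' ∧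
      TI n A (addp R z k) (addp O c (k + 1)) g' l' ky' ∧
      g.w + t ≤ g'.w ∧ l'.length = l.length + 1 := by
  obtain ⟨g1, t1, hr, hLI, hTI, hw⟩ := real_GI h hT hV
  have hk : 1 ≤ k := (h.vcan z k hV).2.1
  obtain ⟨g', t2, l', ky', hnl, hLI', hTI', hw', hl⟩ :=
    newleaf_GI hLI hTI hc (by omega) hO (fun _ => by
      rw [Nat.add_sub_cancel, hz]
      exact Or.inr ⟨rfl, rfl⟩)
  have hhd : hd n A g1 c (k + 1) = g1.nd (g1.el (ix n z k)) := by
    unfold hd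
    rw [if_neg (by omega), Nat.add_sub_cancel, hz]
  have htl : tl n c (k + 1) = c - k * (n + 2) := by
    unfold tl
    rw [Nat.add_sub_cancel]
  rw [hhd, htl] at hnl
  exact ⟨g', t1 + t2, l', ky', ⟨g1, t1, t2, hr, hnl, rfl⟩, hLI', hTI', by omega, hl⟩

end ST2
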