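import Pool.Agent.helper32.ST.GLI

/-!
# ST2-GBas : simple consequences of the invariants

* ids of elements are >= 1 (lrep_pos); l nodup (lrep_nodup).
* el_inj by vkz, vkk.  el_ne_one, ts_ne_one, el_ne_ts by the keys (uo >= 1 since Cr gives Cell; k >= 1,
  k <= mx <= n < n + 1) or by kk.
* tl_inj: two created owners with the same top left position: u = p + (κ-1)(n+2) (cr_mx, mx_mul_le), say
  κ <= κ'; then u' = u + (κ'-κ)(n+2), and ko_unique for both owners at (u', κ').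
* tl_uo: uo = z - (k-ko)(n+2), tl = uo - (ko-1)(n+2) (ko_spec, mx_mul_le).
* fl_cases: by `all` and `mark`.
* nmpm_spec: pm_prev / nm_next with p e = decide (fl e <> 0); for pm: every e <> 1 has klt (0,0,0) (ky e), ky 1 =
  (0,0,0), 1 is flagged.  For nm at a real element or a visited element: the sentinel of its owner is
  flagged and later.
* nm_owner: e = element of a real locus (z,k): nm e is in l, flagged, has the same owner, and it is either the
  sentinel ts (tl uo ko), or the element of a real locus (z + i(n+2), k+i), i >= 1 (same_owner).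
* owner_key: all elements of l other than 1 have their owner in O.
-/

namespace ST2

variable {n : ℕ} {A : ℕ → ℕ} {V R O : ℕ → ℕ → Prop} {g : G} {l : List ℕ}
  {ky : ℕ → ℕ × ℕ × ℕ}

theorem li_pos (h : LI n A V R O g l ky) {e : ℕ} (he : e ∈ l) : 1 ≤ e ∧ e ≤ g.d.cnt := by
  exact lrep_pos h.rep he

theorem li_nodup (h : LI n A V R O g l ky) : l.Nodup := by
  exact lrep_nodup h.rep

theorem el_inj (h : LI n A V R O g l ky) {z k z' k' : ℕ} (hv : V z k) (hv' : V z' k')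
    (he : g.el (ix n z k) = g.el (ix n z' k')) : z = z' ∧ k = k' := by
  have h1 := h.vkz z k hv
  have h2 := h.vkz z' k' hv'
  have h3 := h.vkk z k hv
  have h4 := h.vkk z' k' hv'
  rw [he] at h1 h3
  exact ⟨h1.symm.trans h2, h3.symm.trans h4⟩

theorem el_ne_one (h : LI n A V R O g l ky) {z k : ℕ} (hv : V z k) : g.el (ix n z k) ≠ 1 := by
  intro h1
  have h2 := h.vkk z k hv
  rw [h1, h.one_kk] at h2
  have h3 := (h.vcan z k hv).2.1
  omega

theorem ts_ne_one (h : LI n A V R O g l ky) {u κ : ℕ} (ho : O u κ) : g.ts (tl n u κ) ≠ 1 := by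
  intro h1
  have h2 := h.oky u κ ho
  rw [h1, h.one_ky] at h2
  have h3 := congrArg (fun a => a.2.2) h2
  simp only at h3
  omega

theorem el_ne_ts (h : LI n A V R O g l ky) {z k u κ : ℕ} (hv : V z k) (ho : O u κ) :
    g.el (ix n z k) ≠ g.ts (tl n u κ) := by
  intro h1
  have h2 := h.vkk z k hv
  rw [h1, h.okk u κ ho] at h2
  have h3 := (h.vcan z k hv).2.1
  omega

theorem tl_inj {u κ u' κ' : ℕ} (h1 : Cr n A u κ) (h2 : Cr n A u' κ') (p1 : 1 ≤ κ) (p2 : 1 ≤ κ')
    (he : tl n u κ = tl n u' κ') : u = u' ∧ κ = κ' := by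
  have key : ∀ {u κ u' κ' : ℕ}, Cr n A u κ → Cr n A u' κ' → 1 ≤ κ → 1 ≤ κ' →
      tl n u κ = tl n u' κ' → κ ≤ κ' → u = u' ∧ κ = κ' := by
    intro u κ u' κ' h1 h2 p1 p2 he hle
    have m1 := mx_mul_le n u (κ - 1) (by have := cr_mx h1; omega)
    have m2 := mx_mul_le n u' (κ' - 1) (by have := cr_mx h2; omega)
    have e1 : (κ' - 1) * (n + 2) = (κ - 1) * (n + 2) + (κ' - κ) * (n + 2) := by
      rw [← Nat.add_mul]
      congr 1
      omega
    unfold tl at he
    have hz : u' = u + (κ' - κ) * (n + 2) := by omega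
    have a1 := ko_unique h1 hle hz (cr_mx h2)
    have a2 := ko_cr h2
    exact ⟨a1.2.symm.trans a2.2, a1.1.symm.trans a2.1⟩
  rcases Nat.le_total κ κ' with hle | hle
  · exact key h1 h2 p1 p2 he hle
  · have h3 := key h2 h1 p2 p1 he.symm hle
    exact ⟨h3.1.symm, h3.2.symm⟩

theorem tl_uo {z k : ℕ} (hz : Cell n z) (h1 : 1 ≤ k) (h2 : k ≤ mx n z) (h : N n A k z = z) :
    tl n (uo n A z k) (ko n A z k) = z - (k - 1) * (n + 2) := by
  obtain ⟨a1, a2, -, -, -⟩ := ko_spec hz h1 h2 h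
  unfold tl uo
  rw [Nat.sub_sub, ← Nat.add_mul]
  congr 2
  omega

theorem ix_inj {z k z' k' : ℕ} (h1 : k < (n + 1) * (n + 1)) (h2 : k' < (n + 1) * (n + 1))
    (he : ix n z k = ix n z' k') : z = z' ∧ k = k' := by
  unfold ix at he
  have hM : 0 < (n + 1) * (n + 1) := by positivity
  have e1 : (z * ((n + 1) * (n + 1)) + k) % ((n + 1) * (n + 1)) = k := by
    rw [Nat.mul_add_mod_self_right, Nat.mod_eq_of_lt h1]
  have e2 : (z' * ((n + 1) * (n + 1)) + k') % ((n + 1) * (n + 1)) = k' := by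
    rw [Nat.mul_add_mod_self_right, Nat.mod_eq_of_lt h2]
  have hk : k = k' := by rw [← e1, ← e2, he]
  refine ⟨?_, hk⟩
  subst hk
  exact Nat.eq_of_mul_eq_mul_right hM (Nat.add_right_cancel he)

theorem key_pos (h : LI n A V R O g l ky) {e : ℕ} (he : e ∈ l) (h1 : e ≠ 1) :
    klt (0, 0, 0) (ky e) := by
  rcases h.all e he with h2 | ⟨z, k, hv, h2⟩ | ⟨u, κ, ho, h2⟩
  · exact absurd h2 h1
  · rw [h2, h.vky z k hv]
    have h3 := cell_ge n _ (h.ocr _ _ (h.vo z k hv)).1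
    left
    show 0 < uo n A z k
    omega
  · rw [h2, h.oky u κ ho]
    have h3 := cell_ge n _ (h.ocr _ _ ho).1
    left
    show 0 < u
    omega

theorem fl_cases (h : LI n A V R O g l ky) {e : ℕ} (he : e ∈ l) (hf : g.d.fl e ≠ 0) :
    e = 1 ∨ (∃ z k, R z k ∧ e = g.el (ix n z k)) ∨ (∃ u κ, O u κ ∧ e = g.ts (tl n u κ)) := by
  rcases h.all e he with h2 | ⟨z, k, hv, h2⟩ | ⟨u, κ, ho, h2⟩
  · exact Or.inl h2
  · refine Or.inr (Or.inl ⟨z, k, ?_, h2⟩)
    rw [h2] at hf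
    exact (h.mark z k hv).1 hf
  · exact Or.inr (Or.inr ⟨u, κ, ho, h2⟩)

theorem pm_spec (h : LI n A V R O g l ky) {e : ℕ} (he : e ∈ l) (h1 : e ≠ 1)
    (hf : g.d.fl e ≠ 0) :
    g.pm e ∈ l ∧ g.d.fl (g.pm e) ≠ 0 ∧ klt (ky (g.pm e)) (ky e) ∧ g.nm (g.pm e) = e ∧
      ∀ f ∈ l, g.d.fl f ≠ 0 → klt (ky f) (ky e) → f = g.pm e ∨ klt (ky f) (ky (g.pm e)) := by
  have h2 := pm_prev h.srt h.nmpm he (by simpa using hf)
    ⟨1, h.one, by simpa using h.one_fl, by rw [h.one_ky]; exact key_pos h he h1⟩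
  obtain ⟨b1, b2, b3, b4, b5⟩ := h2
  refine ⟨b1, by simpa using b2, b3, b4, ?_⟩
  intro f hfl hff hk
  exact b5 f hfl (by simpa using hff) hk

theorem nm_spec (h : LI n A V R O g l ky) {e : ℕ} (he : e ∈ l) (hf : g.d.fl e ≠ 0)
    (hl : ∃ f ∈ l, g.d.fl f ≠ 0 ∧ klt (ky e) (ky f)) :
    g.nm e ∈ l ∧ g.d.fl (g.nm e) ≠ 0 ∧ klt (ky e) (ky (g.nm e)) ∧ g.pm (g.nm e) = e ∧
      ∀ f ∈ l, g.d.fl f ≠ 0 → klt (ky e) (ky f) → f = g.nm e ∨ klt (ky (g.nm e)) (ky f) := by
  obtain ⟨f, hfl, hff, hk⟩ := hl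
  have h2 := nm_next h.srt h.nmpm he (by simpa using hf) ⟨f, hfl, by simpa using hff, hk⟩
  obtain ⟨b1, b2, b3, b4, b5⟩ := h2
  refine ⟨b1, by simpa using b2, b3, b4, ?_⟩
  intro f hfl hff hk
  exact b5 f hfl (by simpa using hff) hk

/-- the next marked element after a real element -/
theorem nm_owner (h : LI n A V R O g l ky) {z k : ℕ} (hr : R z k) :
    g.nm (g.el (ix n z k)) ∈ l ∧ g.d.fl (g.nm (g.el (ix n z k))) ≠ 0 ∧
    g.nm (g.el (ix n z k)) ≠ 1 ∧ g.pm (g.nm (g.el (ix n z k))) = g.el (ix n z k) ∧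
    SameO ky (g.nm (g.el (ix n z k))) (g.el (ix n z k)) ∧
    ((g.nm (g.el (ix n z k)) = g.ts (tl n (uo n A z k) (ko n A z k)) ∧
        ∀ i, 1 ≤ i → ¬ R (z + i * (n + 2)) (k + i)) ∨
     ∃ i, 1 ≤ i ∧ R (z + i * (n + 2)) (k + i) ∧
        g.nm (g.el (ix n z k)) = g.el (ix n (z + i * (n + 2)) (k + i)) ∧
        ∀ j, 1 ≤ j → j < i → ¬ R (z + j * (n + 2)) (k + j)) := by
  have hv := h.rv z k hr
  obtain ⟨c1, c2, c3, c4⟩ := h.vcan z k hv
  have hel := h.vel z k hv
  have hfl := (h.mark z k hv).2 hr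
  have hky := h.vky z k hv
  have hO := h.vo z k hv
  have hmxn := mx_le n z
  have hs1 := h.ots _ _ hO
  have hs2 := h.ofl _ _ hO
  have hs3 := h.oky _ _ hO
  have hes : klt (ky (g.el (ix n z k))) (ky (g.ts (tl n (uo n A z k) (ko n A z k)))) := by
    rw [hky, hs3]
    right
    refine ⟨rfl, Or.inr ⟨rfl, ?_⟩⟩
    show k < n + 1
    omega
  obtain ⟨b1, b2, b3, b4, b5⟩ := nm_spec h hel hfl ⟨_, hs1, hs2, hes⟩
  have hne1 : g.nm (g.el (ix n z k)) ≠ 1 := by
    intro h1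
    rw [h1, h.one_ky] at b3
    exact GKey_asymm b3 (key_pos h hel (el_ne_one h hv))
  have hso : SameO ky (g.nm (g.el (ix n z k))) (g.el (ix n z k)) := by
    rcases b5 _ hs1 hs2 hes with h1 | h1
    · rw [← h1]
      unfold SameO
      rw [hky, hs3]
      exact ⟨rfl, rfl⟩
    · unfold SameO
      rw [hky] at b3 ⊢
      rw [hs3] at h1
      unfold klt at b3 h1
      simp only at b3 h1 ⊢
      omega
  refine ⟨b1, b2, hne1, b4, hso, ?_⟩
  have hso' := hso
  unfold SameO at hso'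
  rw [hky] at hso' b3
  simp only at hso'
  -- the elements of the loci further down the diagonal
  have hdiag : ∀ i, 1 ≤ i → R (z + i * (n + 2)) (k + i) →
      g.el (ix n (z + i * (n + 2)) (k + i)) ∈ l ∧
      g.d.fl (g.el (ix n (z + i * (n + 2)) (k + i))) ≠ 0 ∧
      ky (g.el (ix n (z + i * (n + 2)) (k + i))) = (uo n A z k, ko n A z k, k + i) ∧
      k + i ≤ n ∧
      (g.el (ix n (z + i * (n + 2)) (k + i)) = g.nm (g.el (ix n z k)) ∨
        klt (ky (g.nm (g.el (ix n z k)))) (ky (g.el (ix n (z + i * (n + 2)) (k + i))))) := by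
    intro i hi hRi
    have hvi := h.rv _ _ hRi
    obtain ⟨d1, d2, d3, d4⟩ := h.vcan _ _ hvi
    have hd := ko_diag c1 c2 c3 c4 d3
    have hk2 := h.vky _ _ hvi
    rw [hd.1, hd.2] at hk2
    have hm2 := mx_le n (z + i * (n + 2))
    have hf2 := (h.mark _ _ hvi).2 hRi
    refine ⟨h.vel _ _ hvi, hf2, hk2, by omega, ?_⟩
    refine b5 _ (h.vel _ _ hvi) hf2 ?_
    rw [hky, hk2]
    right
    refine ⟨rfl, Or.inr ⟨rfl, ?_⟩⟩
    show k < k + i
    omega
  rcases fl_cases h b1 b2 with h1 | ⟨z', k', hr', h1⟩ | ⟨u, κ, ho, h1⟩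
  · exact absurd h1 hne1
  · right
    have hv' := h.rv z' k' hr'
    obtain ⟨d1, d2, d3, d4⟩ := h.vcan z' k' hv'
    have hk' := h.vky z' k' hv'
    rw [h1, hk'] at hso' b3
    unfold klt at b3
    simp only at hso' b3
    have hkk : k < k' := by omega
    have hz' := same_owner c1 c2 c3 c4 d1 d2 d3 d4 hso'.1.symm hso'.2.symm hkk.le
    have e1 : k + (k' - k) = k' := by omega
    refine ⟨k' - k, by omega, ?_, ?_, ?_⟩
    · rw [e1, ← hz']
      exact hr'
    · rw [e1, ← hz']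
      exact h1
    · intro j hj1 hj2 hRj
      obtain ⟨f1, f2, f3, f4, f5⟩ := hdiag j hj1 hRj
      have h6 : (ky (g.nm (g.el (ix n z k)))).2.2 = k' := by rw [h1, hk']
      have h7 : (ky (g.nm (g.el (ix n z k)))).1 = uo n A z' k' := by rw [h1, hk']
      have h8 : (ky (g.nm (g.el (ix n z k)))).2.1 = ko n A z' k' := by rw [h1, hk']
      rcases f5 with h5 | h5
      · rw [h5] at f3
        rw [f3] at h6
        simp only at h6
        omega
      · rw [f3] at h5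
        unfold klt at h5
        simp only at h5
        omega
  · left
    have hk' := h.oky u κ ho
    rw [h1, hk'] at hso'
    simp only at hso'
    have hu : u = uo n A z k := hso'.1
    have hκ : κ = ko n A z k := hso'.2
    refine ⟨by rw [h1, hu, hκ], ?_⟩
    intro i hi hRi
    obtain ⟨f1, f2, f3, f4, f5⟩ := hdiag i hi hRi
    rw [h1, hk'] at f5
    rcases f5 with h5 | h5
    · exact el_ne_ts h (h.rv _ _ hRi) ho h5
    · rw [f3] at h5
      unfold klt at h5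
      simp only at h5
      omega

theorem owner_key (h : LI n A V R O g l ky) {e : ℕ} (he : e ∈ l) (h1 : e ≠ 1) :
    O (ky e).1 (ky e).2.1 ∧ (ky e).2.2 ≤ n + 1 := by
  rcases h.all e he with h2 | ⟨z, k, hv, h2⟩ | ⟨u, κ, ho, h2⟩
  · exact absurd h2 h1
  · rw [h2, h.vky z k hv]
    have h3 := (h.vcan z k hv).2.2.1
    have h4 := mx_le n z
    refine ⟨h.vo z k hv, ?_⟩
    show k ≤ n + 1
    omega
  · rw [h2, h.oky u κ ho]
    exact ⟨ho, le_rfl⟩

/-- the last element has the greatest key -/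
theorem last_max (h : LI n A V R O g l ky) {e : ℕ} (he : e ∈ l) (h1 : e ≠ g.last) :
    klt (ky e) (ky g.last) := by
  obtain ⟨l1, hl⟩ := List.getLast?_eq_some_iff.1 h.last
  have h2 := h.srt
  rw [hl, List.pairwise_append] at h2
  rw [hl] at he
  rcases List.mem_append.1 he with h3 | h3
  · exact h2.2.2 e h3 g.last (List.mem_singleton.2 rfl)
  · exact absurd (List.mem_singleton.1 h3) h1

end ST2
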