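import Pool.Agent.helper32.ST.DDef
import Pool.Agent.helper32.ST.AKey

/-!
# ST2-GDef : the algorithm (definitions)

The tree arrays, the list with its auxiliary arrays, the name arrays, and the operations of the
algorithm as relations with a step count.
-/

namespace ST2

/-- the tree: par = parent, fc = first child, ns/ps = next/previous sibling, sz = size of the string of an
internal node (0 for leaves), po = top left position; nodes 1..cnt, root 1 -/
structure TR where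
  par : ℕ → ℕ
  fc : ℕ → ℕ
  ns : ℕ → ℕ
  ps : ℕ → ℕ
  sz : ℕ → ℕ
  po : ℕ → ℕ
  cnt : ℕ

def TR.init : TR := ⟨fun _ => 0, fun _ => 0, fun _ => 0, fun _ => 0, fun _ => 0, fun _ => 0, 1⟩

/-- a new leaf cnt+1 as first child of v -/
def TR.addChild (τ : TR) (v p : ℕ) : TR :=
  { par := upd τ.par (τ.cnt + 1) v,
    fc := upd τ.fc v (τ.cnt + 1),
    ns := upd τ.ns (τ.cnt + 1) (τ.fc v),
    ps := upd (upd τ.ps (τ.cnt + 1) 0) (τ.fc v) (τ.cnt + 1),
    sz := upd τ.sz (τ.cnt + 1) 0,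
    po := upd τ.po (τ.cnt + 1) p,
    cnt := τ.cnt + 1 }

/-- a new internal node cnt+1 (size k, position p) on the edge above w -/
def TR.splitAbove (τ : TR) (w k p : ℕ) : TR :=
  { par := upd (upd τ.par (τ.cnt + 1) (τ.par w)) w (τ.cnt + 1),
    fc := upd (if τ.ps w = 0 then upd τ.fc (τ.par w) (τ.cnt + 1) else τ.fc) (τ.cnt + 1) w,
    ns := upd (upd (if τ.ps w = 0 then τ.ns else upd τ.ns (τ.ps w) (τ.cnt + 1)) (τ.cnt + 1)
      (τ.ns w)) w 0,
    ps := upd (upd (upd τ.ps (τ.ns w) (τ.cnt + 1)) (τ.cnt + 1) (τ.ps w)) w 0,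
    sz := upd τ.sz (τ.cnt + 1) k,
    po := upd τ.po (τ.cnt + 1) p,
    cnt := τ.cnt + 1 }

/-- correctness of the tree arrays; kids v = list of the children of v -/
structure TRep (τ : TR) (kids : ℕ → List ℕ) : Prop where
  pos : 1 ≤ τ.cnt
  mem : ∀ v w, w ∈ kids v ↔ 2 ≤ w ∧ w ≤ τ.cnt ∧ τ.par w = v
  par : ∀ w, 2 ≤ w → w ≤ τ.cnt → 1 ≤ τ.par w ∧ τ.par w ≤ τ.cnt
  nodup : ∀ v, (kids v).Nodup
  fc : ∀ v, 1 ≤ v → τ.fc v = (kids v).headD 0
  lnk : ∀ v, Lnk τ.ns τ.ps (kids v)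
  hd : ∀ v, ∀ w ∈ (kids v).head?, τ.ps w = 0

/-- index of a locus -/
def ix (n z k : ℕ) : ℕ := z * ((n + 1) * (n + 1)) + k

/-- index in the dictionary -/
def dix (n k n1 t2 t3 a : ℕ) : ℕ :=
  (((k * ((n + 1) * (n + 1)) + n1) * ((n + 1) * (n + 1)) + t2) * ((n + 1) * (n + 1)) + t3) *
    ((n + 1) * (n + 1)) + a

/-- list, auxiliary arrays of the list, and tree -/
structure G where
  d : D
  nm : ℕ → ℕ
  pm : ℕ → ℕ
  nd : ℕ → ℕ
  el : ℕ → ℕ
  kz : ℕ → ℕ
  kk : ℕ → ℕ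
  hs : ℕ → ℕ
  ts : ℕ → ℕ
  last : ℕ
  t : TR

/-- the arrays of names: L, O (name of the L-square), A (name of the letter), F (first cell of a letter),
D (dictionary) -/
structure X where
  Lm : ℕ → ℕ
  Om : ℕ → ℕ
  Am : ℕ → ℕ
  Fm : ℕ → ℕ
  Dm : ℕ → ℕ

/-- insert the locus (z, k) into the list after y -/
def VisitR (n : ℕ) (g : G) (z k y : ℕ) (g' : G) (t : ℕ) : Prop :=
  ∃ d', InsOp g.d y d' t ∧
    g' = { g with d := d', el := upd g.el (ix n z k) (g.d.cnt + 1),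
                  kz := upd g.kz (g.d.cnt + 1) z, kk := upd g.kk (g.d.cnt + 1) k }

/-- the same if it is not yet in the list -/
def EVisR (n : ℕ) (g : G) (z k y : ℕ) (g' : G) (t : ℕ) : Prop :=
  (g.el (ix n z k) ≠ 0 ∧ g' = g ∧ t = 0) ∨ (g.el (ix n z k) = 0 ∧ VisitR n g z k y g' t)

/-- link e into the list of marked elements, r the nearest marked element on the left (b = true) or right -/
def G.relink (g : G) (d' : D) (e r : ℕ) (b : Bool) : G :=
  { g with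
      d := d',
      nm := upd (upd g.nm (if b = true then r else g.pm r) e) e (if b = true then g.nm r else r),
      pm := upd (upd g.pm e (if b = true then r else g.pm r)) (if b = true then g.nm r else r) e }

def MarkG (g : G) (e : ℕ) (g' : G) (t : ℕ) : Prop :=
  ∃ d' r b, MarkOp g.d e d' r b t ∧ g' = g.relink d' e r b

/-- the record before marking the sentinel of a new leaf -/
def G.preLeaf (g : G) (d1 : D) (v p : ℕ) : G :=
  { g with d := d1, t := g.t.addChild v p, hs := upd g.hs p g.last,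
           ts := upd g.ts p (g.d.cnt + 1), nd := upd g.nd (g.d.cnt + 1) (g.t.cnt + 1),
           last := g.d.cnt + 1 }

/-- new leaf with top left position p below the node v -/
def NewLeafR (g : G) (v p : ℕ) (g' : G) (t : ℕ) : Prop :=
  ∃ d1 t1 t2, InsOp g.d g.last d1 t1 ∧ MarkG (g.preLeaf d1 v p) (g.d.cnt + 1) g' t2 ∧ t = t1 + t2

/-- after marking e = element of (z, k): insert the tree node -/
def G.splitE (g : G) (n z k e : ℕ) : G :=
  { g with t := g.t.splitAbove (g.nd (g.nm e)) k (z - (k - 1) * (n + 2)),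
           nd := upd g.nd e (g.t.cnt + 1) }

/-- make sure that (z, k) is a tree node -/
def RealR (n : ℕ) (g : G) (z k : ℕ) (g' : G) (t : ℕ) : Prop :=
  (g.d.fl (g.el (ix n z k)) ≠ 0 ∧ g' = g ∧ t = 0) ∨
  (g.d.fl (g.el (ix n z k)) = 0 ∧
    ∃ g1, MarkG g (g.el (ix n z k)) g1 t ∧ g' = g1.splitE n z k (g.el (ix n z k)))

/-- attach a leaf at the locus (z, k) -/
def AttachR (n : ℕ) (g : G) (z k p : ℕ) (g' : G) (t : ℕ) : Prop :=
  ∃ g1 t1 t2, RealR n g z k g1 t1 ∧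
    NewLeafR g1 (g1.nd (g1.el (ix n z k))) p g' t2 ∧ t = t1 + t2

/-- the element after which the image (z, k-1) of (z, k) is inserted -/
def G.imgPos (g : G) (n z k : ℕ) : ℕ :=
  if g.kk (g.nm (g.el (ix n z k))) = 0 then g.d.pv (g.ts (z - (k - 2) * (n + 2)))
  else g.d.pv (g.el (ix n (g.kz (g.nm (g.el (ix n z k))))
    (g.kk (g.nm (g.el (ix n z k))) - 1)))

/-- name of size l - 1 from a name of size l -/
def dn (x : X) (l m : ℕ) : ℕ := if x.Lm m < l - 1 then m else x.Om m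

/-- name of size k at the cell y -/
def nmx (x : X) (k y : ℕ) : ℕ := if x.Lm y < k then y else x.Om y

/-- descend from size l to size k -/
inductive PreR (x : X) (k : ℕ) : ℕ → ℕ → ℕ → ℕ → ℕ → Prop
  | stop (l m : ℕ) (h : ¬ k < l) : PreR x k l m l m 0
  | go (l m l' m' t : ℕ) (h : k < l) (h2 : PreR x k (l - 1) (dn x l m) l' m' t) :
      PreR x k l m l' m' (t + 1)

/-- registers of the main loop -/
structure Q where
  k : ℕ
  n1 : ℕ
  l2 : ℕ
  n2 : ℕ
  l3 : ℕ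
  n3 : ℕ

def Q.t2 (q : Q) (n c : ℕ) : ℕ := if q.l2 = q.k then q.n2 else c - (n + 1)
def Q.t3 (q : Q) (c : ℕ) : ℕ := if q.l3 = q.k then q.n3 else c - 1

/-- the test for the main child -/
def MainT (n c a : ℕ) (x : X) (q : Q) : Prop :=
  nmx x q.k (q.n1 + 1) = q.t2 n c ∧ nmx x q.k (q.n1 + (n + 1)) = q.t3 c ∧
    x.Am (q.n1 + (n + 2)) = a

def Q.dx (q : Q) (n c a : ℕ) : ℕ := dix n q.k q.n1 (q.t2 n c) (q.t3 c) a

/-- the search succeeds in this iteration: (d, k+1) is the locus of the square at c -/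
def HitR (n c a : ℕ) (x : X) (g : G) (q : Q) (g' : G) (d t : ℕ) : Prop :=
  (MainT n c a x q ∧ d = q.n1 + (n + 2) ∧ EVisR n g d (q.k + 1) (g.el (ix n q.n1 q.k)) g' t) ∨
  (¬ MainT n c a x q ∧ d = x.Dm (q.dx n c a) ∧ d ≠ 0 ∧
    EVisR n g d (q.k + 1) (g.hs (d - q.k * (n + 2))) g' t)

/-- the registers in the next iteration -/
def Q.next (q : Q) (x : X) : Q :=
  { k := q.k - 1,
    n1 := dn x q.k q.n1,
    l2 := if q.l2 = q.k then q.l2 - 1 else q.l2,
    n2 := if q.l2 = q.k then dn x q.l2 q.n2 else q.n2,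
    l3 := if q.l3 = q.k then q.l3 - 1 else q.l3,
    n3 := if q.l3 = q.k then dn x q.l3 q.n3 else q.n3 }

/-- an unsuccessful iteration -/
def StepR (n c a : ℕ) (x : X) (g : G) (q : Q) (x' : X) (g' : G) (t : ℕ) : Prop :=
  ¬ MainT n c a x q ∧ x.Dm (q.dx n c a) = 0 ∧ x' = { x with Dm := upd x.Dm (q.dx n c a) c } ∧
  ∃ g1 t1, AttachR n g q.n1 q.k (c - q.k * (n + 2)) g1 t1 ∧
    ((x.Lm q.n1 < q.k - 1 ∧ ∃ t2, EVisR n g1 q.n1 (q.k - 1) (g1.imgPos n q.n1 q.k) g' t2 ∧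
        t = t1 + t2) ∨
     (¬ x.Lm q.n1 < q.k - 1 ∧ g' = g1 ∧ t = t1))

/-- the main loop: k', d are the final size and the locus found (0 if none) -/
inductive LoopR (n c a : ℕ) : X → G → Q → X → G → ℕ → ℕ → ℕ → Prop
  | stop (x : X) (g : G) (q : Q) (h : q.k = 0) : LoopR n c a x g q x g 0 0 0
  | hit (x : X) (g : G) (q : Q) (g' : G) (d t : ℕ) (h : q.k ≠ 0) (h2 : HitR n c a x g q g' d t) :
      LoopR n c a x g q x g' q.k d (t + 1)
  | step (x : X) (g : G) (q : Q) (x1 : X) (g1 : G) (t1 : ℕ) (x' : X) (g' : G) (k' d t : ℕ)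
      (h : q.k ≠ 0) (h2 : StepR n c a x g q x1 g1 t1)
      (h3 : LoopR n c a x1 g1 (q.next x) x' g' k' d t) :
      LoopR n c a x g q x' g' k' d (t1 + t + 1)

/-- the letter is read -/
def X.letter (x : X) (c s : ℕ) : X :=
  { x with Fm := upd x.Fm s (if x.Fm s = 0 then c else x.Fm s),
           Am := upd x.Am c (if x.Fm s = 0 then c else x.Fm s) }

/-- the end of a cell: d = 0 if the search was not successful -/
def EndR (n c a k d : ℕ) (x : X) (g : G) (x' : X) (g' : G) (t : ℕ) : Prop :=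
  (d ≠ 0 ∧ x' = { x with Lm := upd x.Lm c (k + 1), Om := upd x.Om c d } ∧ g' = g ∧ t = 0) ∨
  (d = 0 ∧ a = c ∧ x' = { x with Lm := upd x.Lm c 0 } ∧ NewLeafR g 1 c g' t) ∨
  (d = 0 ∧ a ≠ c ∧ x' = { x with Lm := upd x.Lm c 1, Om := upd x.Om c a } ∧
    EVisR n g a 1 (g.hs a) g' t)

/-- processing the cell c with letter s; t counts the steps -/
def CellR (n : ℕ) (x : X) (g : G) (c s : ℕ) (x' : X) (g' : G) (t : ℕ) : Prop :=
  ∃ (x0 : X) (a l2 m2 s2 l3 m3 s3 : ℕ) (x1 : X) (g1 : G) (k d s4 s5 : ℕ),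
    x0 = x.letter c s ∧ a = x0.Am c ∧
    PreR x0 (x0.Lm (c - (n + 2))) (x0.Lm (c - (n + 1))) (x0.Om (c - (n + 1))) l2 m2 s2 ∧
    PreR x0 (x0.Lm (c - (n + 2))) (x0.Lm (c - 1)) (x0.Om (c - 1)) l3 m3 s3 ∧
    LoopR n c a x0 g ⟨x0.Lm (c - (n + 2)), x0.Om (c - (n + 2)), l2, m2, l3, m3⟩ x1 g1 k d s4 ∧
    EndR n c a k d x1 g1 x' g' s5 ∧ t = s2 + s3 + s4 + s5 + 1

def X.init : X := ⟨fun _ => 0, fun _ => 0, fun _ => 0, fun _ => 0, fun _ => 0⟩

end ST2
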