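import Pool.Agent.helper32.ST.DInit
import Pool.Agent.helper32.ST.DInsOp

/-!
# ST2-GKey : the order of the list

klt is a strict total order on triples (omega after unfolding; Prod.ext for equality).
* srt_cmp: from Pairwise, by splitting the list at e (List.pairwise_append) or
  List.Pairwise.forall_of_forall-like lemmas / induction.
* ins_srt: l = l1 ++ y :: l2 (exists_split); the members of l1 are below ky y, those of l2 are above ky y, so
  (PosAft) above K; ky' = ky on l (e not in l).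
* pv_pos: l = l1 ++ e :: l2; l1 <> [] because some f has klt (ky f) K, klt K (ky e), so f is before e; so
  l = l3 ++ y :: e :: l2 and pv e = y (lrep_pv); members of l3 are below ky y; ky y < ky e gives ky y < K;
  members of l2 and e are above K.
-/

namespace ST2

def klt (a b : ℕ × ℕ × ℕ) : Prop :=
  a.1 < b.1 ∨ (a.1 = b.1 ∧ (b.2.1 < a.2.1 ∨ (a.2.1 = b.2.1 ∧ a.2.2 < b.2.2)))

theorem klt_irrefl (a : ℕ × ℕ × ℕ) : ¬ klt a a := by
  unfold klt
  omega

theorem klt_trans {a b c : ℕ × ℕ × ℕ} (h : klt a b) (h' : klt b c) : klt a c := by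
  unfold klt at *
  omega

theorem klt_total (a b : ℕ × ℕ × ℕ) : klt a b ∨ a = b ∨ klt b a := by
  obtain ⟨a1, a2, a3⟩ := a
  obtain ⟨b1, b2, b3⟩ := b
  unfold klt
  by_cases h1 : a1 = b1
  · by_cases h2 : a2 = b2
    · by_cases h3 : a3 = b3
      · right
        left
        rw [h1, h2, h3]
      · dsimp only
        omega
    · dsimp only
      omega
  · dsimp only
    omega

/-- the new key K belongs directly after y -/
def PosAft (l : List ℕ) (ky : ℕ → ℕ × ℕ × ℕ) (y : ℕ) (K : ℕ × ℕ × ℕ) : Prop :=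
  y ∈ l ∧ klt (ky y) K ∧ ∀ f ∈ l, f ≠ y → klt (ky f) (ky y) ∨ klt K (ky f)

theorem GKey_asymm {a b : ℕ × ℕ × ℕ} (h : klt a b) (h' : klt b a) : False :=
  klt_irrefl a (klt_trans h h')

theorem srt_cmp {l : List ℕ} {ky : ℕ → ℕ × ℕ × ℕ}
    (h : l.Pairwise (fun e f => klt (ky e) (ky f))) {e f : ℕ} (he : e ∈ l) (hf : f ∈ l)
    (hne : e ≠ f) : klt (ky e) (ky f) ∨ klt (ky f) (ky e) := by
  obtain ⟨l1, l2, rfl⟩ := List.append_of_mem he
  rw [List.pairwise_append, List.pairwise_cons] at h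
  rcases List.mem_append.1 hf with h1 | h1
  · exact Or.inr (h.2.2 f h1 e List.mem_cons_self)
  · rcases List.mem_cons.1 h1 with h2 | h2
    · exact absurd h2.symm hne
    · exact Or.inl (h.2.1.1 f h2)

/-- equal keys: equal elements -/
theorem srt_inj {l : List ℕ} {ky : ℕ → ℕ × ℕ × ℕ}
    (h : l.Pairwise (fun e f => klt (ky e) (ky f))) {e f : ℕ} (he : e ∈ l) (hf : f ∈ l)
    (hk : ky e = ky f) : e = f := by
  by_contra hne
  rcases srt_cmp h he hf hne with h1 | h1
  · rw [hk] at h1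
    exact klt_irrefl _ h1
  · rw [hk] at h1
    exact klt_irrefl _ h1

/-- position of members in a split list -/
theorem srt_split {l l1 l2 : List ℕ} {ky : ℕ → ℕ × ℕ × ℕ} {y : ℕ}
    (h : l.Pairwise (fun e f => klt (ky e) (ky f))) (hl : l = l1 ++ y :: l2) {f : ℕ} (hf : f ∈ l) :
    (klt (ky f) (ky y) ↔ f ∈ l1) ∧ (klt (ky y) (ky f) ↔ f ∈ l2) := by
  subst hl
  rw [List.pairwise_append, List.pairwise_cons] at h
  have hA : ∀ a ∈ l1, klt (ky a) (ky y) := fun a ha => h.2.2 a ha y List.mem_cons_self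
  have hB : ∀ b ∈ l2, klt (ky y) (ky b) := fun b hb => h.2.1.1 b hb
  rcases List.mem_append.1 hf with h1 | h1
  · refine ⟨⟨fun _ => h1, fun _ => hA f h1⟩, ⟨fun h2 => (GKey_asymm h2 (hA f h1)).elim,
      fun h2 => hB f h2⟩⟩
  · rcases List.mem_cons.1 h1 with h2 | h2
    · subst h2
      exact ⟨⟨fun h3 => (klt_irrefl _ h3).elim, hA f⟩, ⟨fun h3 => (klt_irrefl _ h3).elim, hB f⟩⟩
    · exact ⟨⟨fun h3 => (GKey_asymm h3 (hB f h2)).elim, hA f⟩, ⟨fun _ => h2, fun _ => hB f h2⟩⟩

theorem ins_srt {l : List ℕ} {ky : ℕ → ℕ × ℕ × ℕ} {y e : ℕ} {K : ℕ × ℕ × ℕ}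
    (h : l.Pairwise (fun e f => klt (ky e) (ky f))) (hn : l.Nodup) (he : e ∉ l)
    (hp : PosAft l ky y K) :
    (insAfter l y e).Pairwise
      (fun a b => klt (Function.update ky e K a) (Function.update ky e K b)) := by
  obtain ⟨hy, hyK, hoth⟩ := hp
  obtain ⟨l1, l2, hl, hy1, hy2⟩ := exists_split hn hy
  have hup : ∀ a ∈ l, Function.update ky e K a = ky a := by
    intro a ha
    apply Function.update_of_ne
    intro h1
    rw [h1] at ha
    exact he ha
  have hue : Function.update ky e K e = K := Function.update_self _ _ _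
  subst hl
  rw [ins_split hy1 hy2]
  have h' := h
  rw [List.pairwise_append, List.pairwise_cons] at h'
  obtain ⟨hP1, ⟨hyl2, hP2⟩, hc⟩ := h'
  have m1 : ∀ a ∈ l1, a ∈ l1 ++ y :: l2 := fun a ha => List.mem_append_left _ ha
  have m2 : ∀ a ∈ l2, a ∈ l1 ++ y :: l2 := fun a ha =>
    List.mem_append_right _ (List.mem_cons_of_mem _ ha)
  have hK2 : ∀ b ∈ l2, klt K (ky b) := by
    intro b hb
    have hne : b ≠ y := by
      intro h1
      rw [h1] at hb
      exact hy2 hb
    rcases hoth b (m2 b hb) hne with h1 | h1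
    · exact (GKey_asymm h1 (hyl2 b hb)).elim
    · exact h1
  rw [List.pairwise_append, List.pairwise_cons, List.pairwise_cons]
  refine ⟨?_, ⟨?_, ?_, ?_⟩, ?_⟩
  · refine List.Pairwise.imp_of_mem ?_ hP1
    intro a b ha hb hab
    rw [hup a (m1 a ha), hup b (m1 b hb)]
    exact hab
  · intro b hb
    rw [hup y hy]
    rcases List.mem_cons.1 hb with h1 | h1
    · rw [h1, hue]
      exact hyK
    · rw [hup b (m2 b h1)]
      exact hyl2 b h1
  · intro b hb
    rw [hue, hup b (m2 b hb)]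
    exact hK2 b hb
  · refine List.Pairwise.imp_of_mem ?_ hP2
    intro a b ha hb hab
    rw [hup a (m2 a ha), hup b (m2 b hb)]
    exact hab
  · intro a ha b hb
    rw [hup a (m1 a ha)]
    rcases List.mem_cons.1 hb with h1 | h1
    · rw [h1, hup y hy]
      exact hc a ha y List.mem_cons_self
    · rcases List.mem_cons.1 h1 with h2 | h2
      · rw [h2, hue]
        exact klt_trans (hc a ha y List.mem_cons_self) hyK
      · rw [hup b (m2 b h2)]
        exact hc a ha b (List.mem_cons_of_mem _ h2)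

theorem pv_pos {d : D} {l : List ℕ} {ky : ℕ → ℕ × ℕ × ℕ} {e : ℕ} {K : ℕ × ℕ × ℕ}
    (hr : LRep d l) (h : l.Pairwise (fun e f => klt (ky e) (ky f))) (he : e ∈ l)
    (hK : klt K (ky e)) (hf : ∃ f ∈ l, klt (ky f) K)
    (ha : ∀ f ∈ l, klt (ky f) (ky e) → klt (ky f) K) : PosAft l ky (d.pv e) K := by
  obtain ⟨l1, l2, hl, -, -⟩ := exists_split (lrep_nodup hr) he
  obtain ⟨f, hfl, hfK⟩ := hf
  have hf1 : f ∈ l1 := (srt_split h hl hfl).1.1 (klt_trans hfK hK)
  rcases List.eq_nil_or_concat l1 with h1 | ⟨l3, y, h1⟩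
  · rw [h1] at hf1
    exact absurd hf1 List.not_mem_nil
  · have hl3 : l = l3 ++ y :: e :: l2 := by
      rw [hl, h1]
      simp
    have hpv := (lrep_pv hr hl3).1
    rw [hpv]
    have hy : y ∈ l := by
      rw [hl3]
      exact List.mem_append_right _ List.mem_cons_self
    have hye : klt (ky y) (ky e) := by
      refine (srt_split h hl3 he).2.2 ?_
      exact List.mem_cons_self
    refine ⟨hy, ha y hy hye, ?_⟩
    intro g hg hgy
    rcases srt_cmp h hg hy hgy with h2 | h2
    · exact Or.inl h2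
    · right
      have h3 := (srt_split h hl3 hg).2.1 h2
      rcases List.mem_cons.1 h3 with h4 | h4
      · rw [h4]
        exact hK
      · exact klt_trans hK ((srt_split h hl hg).2.2 h4)

end ST2
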