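import Pool.Agent.helper32.ST.GMl
import Pool.Agent.helper32.ST.GDef

/-!
# ST2-GLI : the invariants (definitions)

V, R, O: the visited loci, the real loci, the owners; l the list of elements, ky their keys.
The key of the element of a visited locus (z, k) is (uo, ko, k), the key of the sentinel of the owner
(u, κ) is (u, κ, n+1), the key of the first element 1 is (0, 0, 0).
-/

namespace ST2

/-- top left position of the owner (u, κ) -/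
def tl (n u κ : ℕ) : ℕ := u - (κ - 1) * (n + 2)

structure LI (n : ℕ) (A : ℕ → ℕ) (V R O : ℕ → ℕ → Prop) (g : G) (l : List ℕ)
    (ky : ℕ → ℕ × ℕ × ℕ) : Prop where
  rep : LRep g.d l
  srt : l.Pairwise (fun e f => klt (ky e) (ky f))
  one : 1 ∈ l
  one_ky : ky 1 = (0, 0, 0)
  one_kk : g.kk 1 = 0
  one_fl : g.d.fl 1 ≠ 0
  vcan : ∀ z k, V z k → Cell n z ∧ 1 ≤ k ∧ k ≤ mx n z ∧ N n A k z = z
  rv : ∀ z k, R z k → V z k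
  ocr : ∀ u κ, O u κ → Cr n A u κ
  opos : ∀ u κ, O u κ → 1 ≤ κ
  vo : ∀ z k, V z k → O (uo n A z k) (ko n A z k)
  vel : ∀ z k, V z k → g.el (ix n z k) ∈ l
  vkz : ∀ z k, V z k → g.kz (g.el (ix n z k)) = z
  vkk : ∀ z k, V z k → g.kk (g.el (ix n z k)) = k
  vky : ∀ z k, V z k → ky (g.el (ix n z k)) = (uo n A z k, ko n A z k, k)
  nvis : ∀ z k, z < (n + 1) * (n + 1) → k < (n + 1) * (n + 1) → ¬ V z k → g.el (ix n z k) = 0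
  ots : ∀ u κ, O u κ → g.ts (tl n u κ) ∈ l
  okk : ∀ u κ, O u κ → g.kk (g.ts (tl n u κ)) = 0
  oky : ∀ u κ, O u κ → ky (g.ts (tl n u κ)) = (u, κ, n + 1)
  ofl : ∀ u κ, O u κ → g.d.fl (g.ts (tl n u κ)) ≠ 0
  ohs : ∀ u κ, O u κ → g.hs (tl n u κ) ∈ l ∧ klt (ky (g.hs (tl n u κ))) (u, κ, 0) ∧
    ∀ f ∈ l, klt (ky f) (u, κ, 0) → f = g.hs (tl n u κ) ∨ klt (ky f) (ky (g.hs (tl n u κ)))
  all : ∀ e ∈ l, e = 1 ∨ (∃ z k, V z k ∧ e = g.el (ix n z k)) ∨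
    (∃ u κ, O u κ ∧ e = g.ts (tl n u κ))
  mark : ∀ z k, V z k → (g.d.fl (g.el (ix n z k)) ≠ 0 ↔ R z k)
  nmpm : Lnk g.nm g.pm (l.filter (fun e => decide (g.d.fl e ≠ 0)))
  last : l.getLast? = some g.last
  frkk : ∀ e, g.d.cnt < e → g.kk e = 0

/-- tree node below which the leaf of the owner (u, κ) was attached -/
noncomputable def hd (n : ℕ) (A : ℕ → ℕ) (g : G) (u κ : ℕ) : ℕ :=
  if κ ≤ 1 then 1 else g.nd (g.el (ix n (N n A (κ - 1) (u - (n + 2))) (κ - 1)))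

/-- same owner -/
def SameO (ky : ℕ → ℕ × ℕ × ℕ) (e f : ℕ) : Prop := (ky e).1 = (ky f).1 ∧ (ky e).2.1 = (ky f).2.1

structure TI (n : ℕ) (A : ℕ → ℕ) (R O : ℕ → ℕ → Prop) (g : G) (l : List ℕ)
    (ky : ℕ → ℕ × ℕ × ℕ) : Prop where
  rep : ∃ kids, TRep g.t kids
  inj : ∀ e ∈ l, ∀ f ∈ l, e ≠ 1 → f ≠ 1 → g.d.fl e ≠ 0 → g.d.fl f ≠ 0 → g.nd e = g.nd f → e = f
  rng : ∀ e ∈ l, e ≠ 1 → g.d.fl e ≠ 0 → 2 ≤ g.nd e ∧ g.nd e ≤ g.t.cnt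
  sur : ∀ v, 2 ≤ v → v ≤ g.t.cnt → ∃ e ∈ l, e ≠ 1 ∧ g.d.fl e ≠ 0 ∧ g.nd e = v
  szr : ∀ z k, R z k → g.t.sz (g.nd (g.el (ix n z k))) = k
  por : ∀ z k, R z k → g.t.po (g.nd (g.el (ix n z k))) = z - (k - 1) * (n + 2)
  szo : ∀ u κ, O u κ → g.t.sz (g.nd (g.ts (tl n u κ))) = 0
  poo : ∀ u κ, O u κ → g.t.po (g.nd (g.ts (tl n u κ))) = tl n u κ
  oR : ∀ u κ, O u κ → 2 ≤ κ → R (N n A (κ - 1) (u - (n + 2))) (κ - 1)
  par1 : ∀ e ∈ l, e ≠ 1 → g.d.fl e ≠ 0 → SameO ky (g.pm e) e →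
    g.t.par (g.nd e) = g.nd (g.pm e)
  par2 : ∀ e ∈ l, e ≠ 1 → g.d.fl e ≠ 0 → ¬ SameO ky (g.pm e) e →
    g.t.par (g.nd e) = hd n A g (ky e).1 (ky e).2.1

/-- the potential -/
def G.w (g : G) : ℕ := g.d.cnt + 2 * g.d.fc

/-- the invariant with m = number of elements -/
def GI (n : ℕ) (A : ℕ → ℕ) (V R O : ℕ → ℕ → Prop) (g : G) (m : ℕ) : Prop :=
  ∃ l ky, LI n A V R O g l ky ∧ TI n A R O g l ky ∧ l.length = m

/-- add a pair to a set of pairs -/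
def addp (V : ℕ → ℕ → Prop) (z k : ℕ) : ℕ → ℕ → Prop := fun z' k' => V z' k' ∨ (z' = z ∧ k' = k)

end ST2
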