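import Pool.Agent.helper32.ST.GMarkL
import Pool.Agent.helper32.ST.DInsFc

/-!
# ST2-GLeafL : a new leaf, list invariant (proofs by helper93)

e = cnt+1.  ins_op after last: LRep d1 (insAfter l last e), and insAfter l last e = l ++ [e] (last is the
last element, nodup).  ky' = update ky e (u, κ, n+1): all old keys are below it: the key of 1; the other elements
have owners in O (owner_key) which are before (u, κ) by hO.  Then mark_gen for the record preLeaf and e (the
filtered list before is the old one: e is unflagged in d1, the others keep their flags).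
LI of the result: hs p = old last, ts p = e with p = tl u κ; other owners have different p (tl_inj).
ohs for the new owner: last_max; for old owners (u', κ'): e has a key above (u', κ', 0).
kk e = 0 (frkk).  last: new last = e.  nvis, vel: el unchanged.  all: e = ts p.
-/

namespace ST2

variable {n : ℕ} {A : ℕ → ℕ} {V R O : ℕ → ℕ → Prop} {g : G} {l : List ℕ}
  {ky : ℕ → ℕ × ℕ × ℕ}

/-- inserting after the last element -/
theorem GLeafL_ins {l : List ℕ} {x e : ℕ} (hn : l.Nodup) (hx : l.getLast? = some x) :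
    x ∈ l ∧ insAfter l x e = l ++ [e] := by
  obtain ⟨l0, hl0⟩ := List.getLast?_eq_some_iff.1 hx
  subst hl0
  refine ⟨by simp, ?_⟩
  have h1 : x ∉ l0 := fun hc => (List.nodup_append.1 hn).2.2 x hc x (by simp) rfl
  have h2 := ins_split (e := e) h1 (List.not_mem_nil (a := x))
  rw [h2]
  simp

/-- the keys of the old elements are below the keys of a new owner -/
theorem GLeafL_key (h : LI n A V R O g l ky) {u κ : ℕ} (hc : Cr n A u κ)
    (hO : ∀ u' κ', O u' κ' → u' < u ∨ (u' = u ∧ κ < κ')) {f : ℕ} (hf : f ∈ l) (i : ℕ) :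
    klt (ky f) (u, κ, i) := by
  by_cases h1 : f = 1
  · rw [h1, h.one_ky]
    have hu : 0 < u := by
      rcases Nat.eq_zero_or_pos u with h0 | h0
      · have h2 := hc.1.1
        rw [h0] at h2
        unfold mx at h2
        simp at h2
      · exact h0
    exact Or.inl hu
  · rcases hO _ _ (owner_key h hf h1).1 with h2 | ⟨h2, h3⟩
    · exact Or.inl h2
    · exact Or.inr ⟨h2, Or.inl h3⟩

theorem leaf_LI (h : LI n A V R O g l ky) {u κ : ℕ} (hc : Cr n A u κ) (h1 : 1 ≤ κ)
    (hO : ∀ u' κ', O u' κ' → u' < u ∨ (u' = u ∧ κ < κ')) (v : ℕ) :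
    ∃ g' t, NewLeafR g v (tl n u κ) g' t ∧
      LI n A V R (addp O u κ) g' (l ++ [g.d.cnt + 1])
        (Function.update ky (g.d.cnt + 1) (u, κ, n + 1)) ∧
      g.w + t ≤ g'.w ∧ g'.t = g.t.addChild v (tl n u κ) ∧
      g'.nd = upd g.nd (g.d.cnt + 1) (g.t.cnt + 1) ∧ g'.el = g.el ∧
      g'.ts = upd g.ts (tl n u κ) (g.d.cnt + 1) ∧ g.d.cnt + 1 ∉ l ∧
      (∀ f ∈ l, (g'.d.fl f ≠ 0 ↔ g.d.fl f ≠ 0)) := by
  have hnd : l.Nodup := li_nodup h
  obtain ⟨hlast, hins⟩ := GLeafL_ins (e := g.d.cnt + 1) hnd h.last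
  obtain ⟨d1, t1, hop, hrep1, hel, hfl1, hfl0, hcnt1, ht1⟩ := ins_op h.rep hlast
  rw [hins] at hrep1
  have hfc : g.d.fc ≤ d1.fc := insOp_fc h.rep hlast hop
  -- keys
  have hup : ∀ f ∈ l, Function.update ky (g.d.cnt + 1) (u, κ, n + 1) f = ky f := by
    intro f hf
    apply Function.update_of_ne
    intro h2
    rw [h2] at hf
    exact hel hf
  have hue : Function.update ky (g.d.cnt + 1) (u, κ, n + 1) (g.d.cnt + 1) = (u, κ, n + 1) :=
    Function.update_self _ _ _
  have hkl : ∀ f ∈ l, ∀ i, klt (ky f) (u, κ, i) := fun f hf i => GLeafL_key h hc hO hf i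
  have hmem : ∀ f, f ∈ l ++ [g.d.cnt + 1] ↔ f ∈ l ∨ f = g.d.cnt + 1 := by
    intro f
    simp
  have hsrt : (l ++ [g.d.cnt + 1]).Pairwise
      (fun a b => klt (Function.update ky (g.d.cnt + 1) (u, κ, n + 1) a)
        (Function.update ky (g.d.cnt + 1) (u, κ, n + 1) b)) := by
    rw [List.pairwise_append]
    refine ⟨?_, List.pairwise_singleton _ _, ?_⟩
    · refine List.Pairwise.imp_of_mem ?_ h.srt
      intro a b ha hb hab
      rw [hup a ha, hup b hb]
      exact hab
    · intro a ha b hb
      rw [List.mem_singleton.1 hb, hup a ha, hue]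
      exact hkl a ha _
  have hfilt : (l ++ [g.d.cnt + 1]).filter (fun e => decide (d1.fl e ≠ 0)) =
      l.filter (fun e => decide (g.d.fl e ≠ 0)) := by
    rw [List.filter_append]
    have h2 : [g.d.cnt + 1].filter (fun e => decide (d1.fl e ≠ 0)) = [] := by
      rw [List.filter_eq_nil_iff]
      intro y hy
      rw [List.mem_singleton.1 hy, hfl0]
      simp
    rw [h2, List.append_nil]
    apply List.filter_congr
    intro y hy
    rw [hfl1 y hy]
  have hone_e : (1 : ℕ) ≠ g.d.cnt + 1 := fun hc' => hel (hc' ▸ h.one)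
  obtain ⟨g', t2, hmark, hrep', hcnt', hfl', hlnk', hw', heq⟩ :=
    mark_gen (g := g.preLeaf d1 v (tl n u κ)) (e := g.d.cnt + 1) (l := l ++ [g.d.cnt + 1])
      (ky := Function.update ky (g.d.cnt + 1) (u, κ, n + 1)) hrep1 hsrt
      ((hmem 1).2 (Or.inl h.one))
      (by
        show d1.fl 1 ≠ 0
        rw [hfl1 1 h.one]
        exact h.one_fl)
      (by
        intro f hf hf1
        rw [hup 1 h.one]
        rcases (hmem f).1 hf with h2 | h2
        · rw [hup f h2, h.one_ky]
          exact key_pos h h2 hf1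
        · rw [h2, hue]
          exact hkl 1 h.one _)
      (by
        show Lnk g.nm g.pm ((l ++ [g.d.cnt + 1]).filter (fun e => decide (d1.fl e ≠ 0)))
        rw [hfilt]
        exact h.nmpm)
      ((hmem _).2 (Or.inr rfl)) hfl0
  have e_t : g'.t = g.t.addChild v (tl n u κ) := congrArg G.t heq
  have e_nd : g'.nd = upd g.nd (g.d.cnt + 1) (g.t.cnt + 1) := congrArg G.nd heq
  have e_el : g'.el = g.el := (congrArg G.el heq).trans rfl
  have e_kz : g'.kz = g.kz := (congrArg G.kz heq).trans rfl
  have e_kk : g'.kk = g.kk := (congrArg G.kk heq).trans rfl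
  have e_hs : g'.hs = upd g.hs (tl n u κ) g.last := congrArg G.hs heq
  have e_ts : g'.ts = upd g.ts (tl n u κ) (g.d.cnt + 1) := congrArg G.ts heq
  have e_last : g'.last = g.d.cnt + 1 := congrArg G.last heq
  have hcnt2 : g'.d.cnt = d1.cnt := hcnt'
  -- flags on the old elements
  have hflo : ∀ f ∈ l, (g'.d.fl f ≠ 0 ↔ g.d.fl f ≠ 0) := by
    intro f hf
    have h2 := hfl' f ((hmem f).2 (Or.inl hf))
    have h3 : f ≠ g.d.cnt + 1 := fun hc' => hel (hc' ▸ hf)
    have h4 : (g.preLeaf d1 v (tl n u κ)).d.fl f = g.d.fl f := hfl1 f hf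
    rw [h4] at h2
    rw [h2]
    constructor
    · rintro (h5 | h5)
      · exact absurd h5 h3
      · exact h5
    · exact Or.inr
  have hfle : g'.d.fl (g.d.cnt + 1) ≠ 0 :=
    (hfl' (g.d.cnt + 1) ((hmem _).2 (Or.inr rfl))).2 (Or.inl rfl)
  -- other owners have other top left positions
  have htl : ∀ u' κ', O u' κ' → tl n u' κ' ≠ tl n u κ := by
    intro u' κ' ho hc'
    obtain ⟨h2, h3⟩ := tl_inj (h.ocr u' κ' ho) hc (h.opos u' κ' ho) h1 hc'
    have := hO u' κ' ho
    omega
  have e_tso : ∀ u' κ', O u' κ' → g'.ts (tl n u' κ') = g.ts (tl n u' κ') := by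
    intro u' κ' ho
    rw [e_ts]
    exact upd_ne _ _ (htl u' κ' ho)
  have e_tsn : g'.ts (tl n u κ) = g.d.cnt + 1 := by
    rw [e_ts]
    exact upd_same _ _ _
  have e_hso : ∀ u' κ', O u' κ' → g'.hs (tl n u' κ') = g.hs (tl n u' κ') := by
    intro u' κ' ho
    rw [e_hs]
    exact upd_ne _ _ (htl u' κ' ho)
  have e_hsn : g'.hs (tl n u κ) = g.last := by
    rw [e_hs]
    exact upd_same _ _ _
  refine ⟨g', t1 + t2, ⟨d1, t1, t2, hop, hmark, rfl⟩, ?_, ?_, e_t, e_nd, e_el, e_ts, hel, hflo⟩
  · constructor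
    · exact hrep'
    · exact hsrt
    · exact (hmem 1).2 (Or.inl h.one)
    · rw [hup 1 h.one]
      exact h.one_ky
    · rw [e_kk]
      exact h.one_kk
    · exact (hflo 1 h.one).2 h.one_fl
    · exact h.vcan
    · exact h.rv
    · rintro u' κ' (ho | ⟨rfl, rfl⟩)
      · exact h.ocr u' κ' ho
      · exact hc
    · rintro u' κ' (ho | ⟨rfl, rfl⟩)
      · exact h.opos u' κ' ho
      · exact h1
    · intro z k hV
      exact Or.inl (h.vo z k hV)
    · intro z k hV
      rw [e_el]
      exact (hmem _).2 (Or.inl (h.vel z k hV))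
    · intro z k hV
      rw [e_el, e_kz]
      exact h.vkz z k hV
    · intro z k hV
      rw [e_el, e_kk]
      exact h.vkk z k hV
    · intro z k hV
      rw [e_el, hup _ (h.vel z k hV)]
      exact h.vky z k hV
    · intro z k hz hk hV
      rw [e_el]
      exact h.nvis z k hz hk hV
    · rintro u' κ' (ho | ⟨rfl, rfl⟩)
      · rw [e_tso u' κ' ho]
        exact (hmem _).2 (Or.inl (h.ots u' κ' ho))
      · rw [e_tsn]
        exact (hmem _).2 (Or.inr rfl)
    · rintro u' κ' (ho | ⟨rfl, rfl⟩)
      · rw [e_tso u' κ' ho, e_kk]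
        exact h.okk u' κ' ho
      · rw [e_tsn, e_kk]
        exact h.frkk _ (Nat.lt_succ_self _)
    · rintro u' κ' (ho | ⟨rfl, rfl⟩)
      · rw [e_tso u' κ' ho, hup _ (h.ots u' κ' ho)]
        exact h.oky u' κ' ho
      · rw [e_tsn, hue]
    · rintro u' κ' (ho | ⟨rfl, rfl⟩)
      · rw [e_tso u' κ' ho]
        exact (hflo _ (h.ots u' κ' ho)).2 (h.ofl u' κ' ho)
      · rw [e_tsn]
        exact hfle
    · rintro u' κ' (ho | ⟨rfl, rfl⟩)
      · obtain ⟨a1, a2, a3⟩ := h.ohs u' κ' ho
        rw [e_hso u' κ' ho]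
        refine ⟨(hmem _).2 (Or.inl a1), ?_, ?_⟩
        · rw [hup _ a1]
          exact a2
        · intro f hf hk
          rcases (hmem f).1 hf with h2 | h2
          · rw [hup f h2] at hk ⊢
            rw [hup _ a1]
            exact a3 f h2 hk
          · exfalso
            rw [h2, hue] at hk
            have h3 := hO u' κ' ho
            unfold klt at hk
            dsimp only at hk
            omega
      · rw [e_hsn]
        refine ⟨(hmem _).2 (Or.inl hlast), ?_, ?_⟩
        · rw [hup _ hlast]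
          exact hkl _ hlast 0
        · intro f hf hk
          rcases (hmem f).1 hf with h2 | h2
          · rw [hup f h2, hup _ hlast]
            by_cases h3 : f = g.last
            · exact Or.inl h3
            · exact Or.inr (last_max h h2 h3)
          · exfalso
            rw [h2, hue] at hk
            unfold klt at hk
            dsimp only at hk
            omega
    · intro e he
      rcases (hmem e).1 he with h2 | h2
      · rcases h.all e h2 with h3 | ⟨z, k, hV, h3⟩ | ⟨u', κ', ho, h3⟩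
        · exact Or.inl h3
        · refine Or.inr (Or.inl ⟨z, k, hV, ?_⟩)
          rw [e_el]
          exact h3
        · refine Or.inr (Or.inr ⟨u', κ', Or.inl ho, ?_⟩)
          rw [e_tso u' κ' ho]
          exact h3
      · refine Or.inr (Or.inr ⟨u, κ, Or.inr ⟨rfl, rfl⟩, ?_⟩)
        rw [e_tsn]
        exact h2
    · intro z k hV
      rw [e_el, hflo _ (h.vel z k hV)]
      exact h.mark z k hV
    · exact hlnk'
    · rw [e_last]
      simp
    · intro e he
      rw [hcnt2] at he
      rw [e_kk]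
      exact h.frkk e (by omega)
  · have h2 : (g.preLeaf d1 v (tl n u κ)).w = d1.cnt + 2 * d1.fc := rfl
    rw [h2] at hw'
    have h3 : g.w = g.d.cnt + 2 * g.d.fc := rfl
    omega

end ST2
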