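import Pool.Agent.helper32.ST.GBas
import Pool.Agent.helper32.ST.DMark

/-!
# ST2-GMarkL : marking an element of the list, list invariant

e in l is unflagged, e <> 1.  mark_op for e (1 is flagged) gives d', r, b; MarkG g e (g.relink d' e r b) t.  LI
for the new record with R' such that the new flags are right.
General lemma `mark_gen`: given any old record satisfying LI except that we only use rep, srt, one, one_ky,
one_fl, nmpm, key_pos; conclusion: LRep, new nmpm.
nmpm: relink_lnk with p f = decide (fl f <> 0), p' for d'; for b = false: l = l1 ++ x :: .. and 1 is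
flagged, 1 <> x, 1 has the least key so 1 is in l1 (srt_split).
All other fields of LI do not mention nm, pm and mention d only through cnt (unchanged) and fl.
w: fc grows, t <= 2 (fc' - fc), cnt the same.
-/

namespace ST2

variable {n : ℕ} {A : ℕ → ℕ} {V R O : ℕ → ℕ → Prop} {g : G} {l : List ℕ}
  {ky : ℕ → ℕ × ℕ × ℕ}

theorem mark_gen {e : ℕ} (hr : LRep g.d l)
    (hs : l.Pairwise (fun e f => klt (ky e) (ky f))) (h1 : 1 ∈ l) (h1f : g.d.fl 1 ≠ 0)
    (hk : ∀ f ∈ l, f ≠ 1 → klt (ky 1) (ky f))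
    (hn : Lnk g.nm g.pm (l.filter (fun e => decide (g.d.fl e ≠ 0))))
    (he : e ∈ l) (hf : g.d.fl e = 0) :
    ∃ g' t, MarkG g e g' t ∧ LRep g'.d l ∧ g'.d.cnt = g.d.cnt ∧
      (∀ f ∈ l, (g'.d.fl f ≠ 0 ↔ f = e ∨ g.d.fl f ≠ 0)) ∧
      Lnk g'.nm g'.pm (l.filter (fun e => decide (g'.d.fl e ≠ 0))) ∧ g.w + t ≤ g'.w ∧
      g' = { g with d := g'.d, nm := g'.nm, pm := g'.pm } := by
  obtain ⟨d', r, b, t, hM, hL, hd, hfl, hrl, hrf, hb1, hb2, hfc, ht⟩ := mark_op hr he hf ⟨1, h1, h1f⟩
  have hcnt : d'.cnt = g.d.cnt := by rw [hd]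
  have hpos : ∀ y ∈ l, 1 ≤ y := fun y hy => (lrep_pos hr hy).1
  have h0 : 0 ∉ l := fun hc => absurd (hpos 0 hc) (by omega)
  have hnd : l.Nodup := lrep_nodup hr
  have hp' : ∀ y ∈ l, ((fun e => decide (d'.fl e ≠ 0)) y = true ↔
      (y = e ∨ (fun e => decide (g.d.fl e ≠ 0)) y = true)) := by
    intro y hy
    simp only [decide_eq_true_eq]
    exact hfl y hy
  have hx : (fun e => decide (g.d.fl e ≠ 0)) e = false := by
    simp only [decide_eq_false_iff_not, ne_eq, not_not]
    exact hf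
  have hrr : (fun e => decide (g.d.fl e ≠ 0)) r = true := by
    simp only [decide_eq_true_eq]
    exact hrf
  have h1e : (1 : ℕ) ≠ e := by
    intro hc
    rw [← hc] at hf
    exact h1f hf
  refine ⟨g.relink d' e r b, t, ⟨d', r, b, hM, rfl⟩, hL, hcnt, hfl, ?_, ?_, rfl⟩
  · cases b
    · obtain ⟨l1, m, l2, hl, hm⟩ := hb2 rfl
      have hm' : ∀ y ∈ m, (fun e => decide (g.d.fl e ≠ 0)) y = false := by
        intro y hy
        simp only [decide_eq_false_iff_not, ne_eq, not_not]
        exact hm y hy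
      have h1l : 1 ∈ l1 := ((srt_split hs hl h1).1).1 (hk e he h1e.symm)
      have := relink_lnk (b := false) hnd h0 hp' hx hrr hn hm' (l1 := l1) (l2 := l2)
        (fun hc => absurd hc (by simp))
        (fun _ => ⟨hl, 1, h1l, by simp only [decide_eq_true_eq]; exact h1f⟩)
      exact this
    · obtain ⟨l1, m, l2, hl, hm⟩ := hb1 rfl
      have hm' : ∀ y ∈ m, (fun e => decide (g.d.fl e ≠ 0)) y = false := by
        intro y hy
        simp only [decide_eq_false_iff_not, ne_eq, not_not]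
        exact hm y hy
      have := relink_lnk (b := true) hnd h0 hp' hx hrr hn hm' (l1 := l1) (l2 := l2)
        (fun _ => hl) (fun hc => absurd hc (by simp))
      exact this
  · show g.d.cnt + 2 * g.d.fc + t ≤ d'.cnt + 2 * d'.fc
    omega

/-- marking the element of a visited locus -/
theorem mark_LI (h : LI n A V R O g l ky) {z k : ℕ} (hV : V z k) (hR : ¬ R z k) :
    ∃ g' t, MarkG g (g.el (ix n z k)) g' t ∧ LI n A V (addp R z k) O g' l ky ∧
      g.w + t ≤ g'.w ∧ g' = { g with d := g'.d, nm := g'.nm, pm := g'.pm } ∧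
      (∀ f ∈ l, (g'.d.fl f ≠ 0 ↔ f = g.el (ix n z k) ∨ g.d.fl f ≠ 0)) := by
  have he := h.vel z k hV
  have hf : g.d.fl (g.el (ix n z k)) = 0 := by
    by_contra hc
    exact hR ((h.mark z k hV).1 hc)
  have hk : ∀ f ∈ l, f ≠ 1 → klt (ky 1) (ky f) := by
    intro f hf hf1
    rw [h.one_ky]
    exact key_pos h hf hf1
  obtain ⟨g', t, hM, hL, hc, hfl, hnm, hw, hg⟩ :=
    mark_gen h.rep h.srt h.one h.one_fl hk h.nmpm he hf
  refine ⟨g', t, hM, ?_, hw, hg, hfl⟩
  have eel : g'.el = g.el := by rw [hg]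
  have ekz : g'.kz = g.kz := by rw [hg]
  have ekk : g'.kk = g.kk := by rw [hg]
  have ehs : g'.hs = g.hs := by rw [hg]
  have ets : g'.ts = g.ts := by rw [hg]
  have ela : g'.last = g.last := by rw [hg]
  constructor
  · exact hL
  · exact h.srt
  · exact h.one
  · exact h.one_ky
  · rw [ekk]
    exact h.one_kk
  · exact (hfl 1 h.one).2 (Or.inr h.one_fl)
  · exact h.vcan
  · rintro z' k' (h1 | ⟨rfl, rfl⟩)
    · exact h.rv z' k' h1
    · exact hV
  · exact h.ocr
  · exact h.opos
  · exact h.vo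
  · rw [eel]
    exact h.vel
  · rw [eel, ekz]
    exact h.vkz
  · rw [eel, ekk]
    exact h.vkk
  · rw [eel]
    exact h.vky
  · rw [eel]
    exact h.nvis
  · rw [ets]
    exact h.ots
  · rw [ets, ekk]
    exact h.okk
  · rw [ets]
    exact h.oky
  · intro u κ ho
    rw [ets]
    exact (hfl _ (h.ots u κ ho)).2 (Or.inr (h.ofl u κ ho))
  · rw [ehs]
    exact h.ohs
  · rw [eel, ets]
    exact h.all
  · intro z' k' hv'
    rw [eel]
    refine (hfl _ (h.vel z' k' hv')).trans ?_
    constructor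
    · rintro (h1 | h1)
      · exact Or.inr (el_inj h hv' hV h1)
      · exact Or.inl ((h.mark z' k' hv').1 h1)
    · rintro (h1 | ⟨rfl, rfl⟩)
      · exact Or.inr ((h.mark z' k' hv').2 h1)
      · exact Or.inl rfl
  · exact hnm
  · rw [ela]
    exact h.last
  · rw [hc, ekk]
    exact h.frkk

/-- LI does not depend on the tree and on nd -/
theorem LI_tree (h : LI n A V R O g l ky) (t' : TR) (nd' : ℕ → ℕ) :
    LI n A V R O { g with t := t', nd := nd' } l ky := by
  exact ⟨h.rep, h.srt, h.one, h.one_ky, h.one_kk, h.one_fl, h.vcan, h.rv, h.ocr, h.opos, h.vo,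
    h.vel, h.vkz, h.vkk, h.vky, h.nvis, h.ots, h.okk, h.oky, h.ofl, h.ohs, h.all, h.mark, h.nmpm,
    h.last, h.frkk⟩

end ST2
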