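import Pool.Agent.helper32.ST.GKey

/-!
# ST2-GMl : the list of marked elements

* relink_lnk: filter p' of l is the filter p of l with x inserted after r (b = true) or before r (b =
  false).  b = true: l.filter p = F1 ++ r :: F2, F1 = filter l1, F2 = filter l2 (m and x are unflagged);
  filter p' = F1 ++ r :: x :: F2; nm r = head of F2 or 0.  The new links: nm r = x, pm x = r, nm x = old nm r,
  pm (old nm r) = x.  This is lnk_link of DLnk (with the D having nx := nm, pv := pm) and insAfter.
  b = false: F1 is not empty, its last element is pm r =: r0 (lnk_adj), nm r0 = r; now insert x after r0: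
  same lemma with r0, since nm r0 = r.
* nmx_next, pm_prev: the filtered list is F1 ++ e :: f :: F2 around e (lnk_adj), the order by Pairwise of the
  filtered list (List.Pairwise.filter) and srt_split.
-/

namespace ST2

theorem GMl_link {nm pm : ℕ → ℕ} {F1 F2 : List ℕ} {r x : ℕ} (h : Lnk nm pm (F1 ++ r :: F2))
    (hn : (F1 ++ r :: F2).Nodup) (hx : x ∉ F1 ++ r :: F2) (h0 : 0 ∉ F1 ++ r :: F2) (hx0 : x ≠ 0) :
    Lnk (upd (upd nm r x) x (nm r)) (upd (upd pm x r) (nm r) x) (F1 ++ r :: x :: F2) := by
  have h1 := lnk_link (d := ⟨nm, pm, fun _ => 0, fun _ => 0, fun _ => 0, fun _ => 0, 0⟩)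
    (l := F1 ++ r :: F2) (x := r) (e := x) h hn (by simp) hx h0 hx0
  have hnd := List.nodup_append.1 hn
  have hr1 : r ∉ F1 := fun hc => hnd.2.2 r hc r (by simp) rfl
  have hr2 : r ∉ F2 := (List.nodup_cons.1 hnd.2.1).1
  rw [ins_split hr1 hr2] at h1
  exact h1

theorem GMl_filter_eq {p p' : ℕ → Bool} {l : List ℕ} (h : ∀ y ∈ l, p' y = p y) :
    l.filter p' = l.filter p := by
  exact List.filter_congr h

theorem GMl_filter_nil {p : ℕ → Bool} {m : List ℕ} (h : ∀ y ∈ m, p y = false) :
    m.filter p = [] := by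
  rw [List.filter_eq_nil_iff]
  intro y hy
  rw [h y hy]
  simp

theorem relink_lnk {nm pm : ℕ → ℕ} {p p' : ℕ → Bool} {l l1 m l2 : List ℕ} {x r : ℕ} {b : Bool}
    (hn : l.Nodup) (h0 : 0 ∉ l) (hp' : ∀ y ∈ l, (p' y = true ↔ (y = x ∨ p y = true)))
    (hx : p x = false) (hr : p r = true) (h : Lnk nm pm (l.filter p))
    (hm : ∀ y ∈ m, p y = false)
    (h1 : b = true → l = l1 ++ r :: (m ++ x :: l2))
    (h2 : b = false → l = l1 ++ x :: (m ++ r :: l2) ∧ ∃ y ∈ l1, p y = true) :
    Lnk (upd (upd nm (if b = true then r else pm r) x) x (if b = true then nm r else r))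
      (upd (upd pm x (if b = true then r else pm r)) (if b = true then nm r else r) x)
      (l.filter p') := by
  have hpe : ∀ y ∈ l, y ≠ x → p' y = p y := by
    intro y hy hyx
    have h3 := hp' y hy
    cases hq : p y
    · cases hq' : p' y
      · rfl
      · rcases h3.1 hq' with h4 | h4
        · exact absurd h4 hyx
        · rw [hq] at h4
          exact absurd h4 (by simp)
    · exact h3.2 (Or.inr hq)
  have hrx : r ≠ x := by
    intro hc
    rw [hc, hx] at hr
    exact absurd hr (by simp)
  cases b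
  · -- before r
    obtain ⟨hl, y0, hy0, hpy0⟩ := h2 rfl
    subst hl
    clear h1 h2
    have hxl : x ∈ l1 ++ x :: (m ++ r :: l2) := by simp
    have hxt : p' x = true := (hp' x hxl).2 (Or.inl rfl)
    have hnd := List.nodup_append.1 hn
    have hxm : x ∉ m ++ r :: l2 := (List.nodup_cons.1 hnd.2.1).1
    have hx1 : x ∉ l1 := fun hc => hnd.2.2 x hc x (by simp) rfl
    have e1 : l1.filter p' = l1.filter p := GMl_filter_eq fun y hy =>
      hpe y (by simp [hy]) fun hc => hx1 (hc ▸ hy)
    have e2 : m.filter p' = [] := GMl_filter_nil fun y hy => by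
      rw [hpe y (by simp [hy]) fun hc => hxm (by rw [← hc]; simp [hy])]
      exact hm y hy
    have e3 : l2.filter p' = l2.filter p := GMl_filter_eq fun y hy =>
      hpe y (by simp [hy]) fun hc => hxm (by rw [← hc]; simp [hy])
    have e4 : m.filter p = [] := GMl_filter_nil hm
    have hrt : p' r = true := by
      rw [hpe r (by simp) hrx]
      exact hr
    have hF : (l1 ++ x :: (m ++ r :: l2)).filter p = l1.filter p ++ r :: l2.filter p := by
      rw [List.filter_append, List.filter_cons, List.filter_append, List.filter_cons, hx, hr, e4]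
      simp
    have hF' : (l1 ++ x :: (m ++ r :: l2)).filter p' = l1.filter p ++ x :: r :: l2.filter p := by
      rw [List.filter_append, List.filter_cons, List.filter_append, List.filter_cons, hxt, hrt, e2,
        e1, e3]
      simp
    rw [hF']
    rw [hF] at h
    -- the last element of l1.filter p
    have hne : l1.filter p ≠ [] := by
      intro hc
      have : y0 ∈ l1.filter p := List.mem_filter.2 ⟨hy0, hpy0⟩
      rw [hc] at this
      simp at this
    rcases List.eq_nil_or_concat (l1.filter p) with hc | ⟨F0, r0, hF0⟩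
    · exact absurd hc hne
    rw [hF0] at h ⊢
    have hadj : nm r0 = r ∧ pm r = r0 := by
      have h5 : Lnk nm pm (F0 ++ r0 :: r :: l2.filter p) := by
        simpa using h
      exact lnk_adj h5
    have hnF : (F0 ++ r0 :: (r :: l2.filter p)).Nodup := by
      have h6 : ((l1 ++ x :: (m ++ r :: l2)).filter p).Nodup := hn.filter p
      rw [hF, hF0] at h6
      simpa using h6
    have hsub : ∀ y ∈ F0 ++ r0 :: (r :: l2.filter p),
        y ∈ (l1 ++ x :: (m ++ r :: l2)).filter p := by
      intro y hy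
      rw [hF, hF0]
      simpa using hy
    have hxF : x ∉ F0 ++ r0 :: (r :: l2.filter p) := by
      intro hc
      have := (List.mem_filter.1 (hsub x hc)).2
      rw [hx] at this
      exact absurd this (by simp)
    have h0F : 0 ∉ F0 ++ r0 :: (r :: l2.filter p) := by
      intro hc
      exact h0 (List.mem_filter.1 (hsub 0 hc)).1
    have hx0 : x ≠ 0 := fun hc => h0 (hc ▸ hxl)
    have h7 := GMl_link (by simpa using h) hnF hxF h0F hx0
    rw [hadj.1] at h7
    have e5' : F0.concat r0 ++ x :: r :: l2.filter p = F0 ++ r0 :: x :: (r :: l2.filter p) := by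
      simp
    rw [e5']
    simp only [Bool.false_eq_true, if_false]
    rw [hadj.2]
    exact h7
  · -- after r
    have hl := h1 rfl
    subst hl
    clear h1 h2
    have hxl : x ∈ l1 ++ r :: (m ++ x :: l2) := by simp
    have hxt : p' x = true := (hp' x hxl).2 (Or.inl rfl)
    have hnd := List.nodup_append.1 hn
    have hnd2 := List.nodup_cons.1 hnd.2.1
    have hnd3 := List.nodup_append.1 hnd2.2
    have hxm : x ∉ m := fun hc => hnd3.2.2 x hc x (by simp) rfl
    have hx2 : x ∉ l2 := (List.nodup_cons.1 hnd3.2.1).1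
    have hx1 : x ∉ l1 := fun hc => hnd.2.2 x hc x (by simp) rfl
    have e1 : l1.filter p' = l1.filter p := GMl_filter_eq fun y hy =>
      hpe y (by simp [hy]) fun hc => hx1 (hc ▸ hy)
    have e2 : m.filter p' = [] := GMl_filter_nil fun y hy => by
      rw [hpe y (by simp [hy]) fun hc => hxm (hc ▸ hy)]
      exact hm y hy
    have e3 : l2.filter p' = l2.filter p := GMl_filter_eq fun y hy =>
      hpe y (by simp [hy]) fun hc => hx2 (hc ▸ hy)
    have e4 : m.filter p = [] := GMl_filter_nil hm
    have hrt : p' r = true := by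
      rw [hpe r (by simp) hrx]
      exact hr
    have hF : (l1 ++ r :: (m ++ x :: l2)).filter p = l1.filter p ++ r :: l2.filter p := by
      rw [List.filter_append, List.filter_cons, List.filter_append, List.filter_cons, hx, hr, e4]
      simp
    have hF' : (l1 ++ r :: (m ++ x :: l2)).filter p' = l1.filter p ++ r :: x :: l2.filter p := by
      rw [List.filter_append, List.filter_cons, List.filter_append, List.filter_cons, hxt, hrt, e2,
        e1, e3]
      simp
    rw [hF']
    rw [hF] at h
    have hnF : (l1.filter p ++ r :: l2.filter p).Nodup := by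
      have h6 : ((l1 ++ r :: (m ++ x :: l2)).filter p).Nodup := hn.filter p
      rw [hF] at h6
      exact h6
    have hsub : ∀ y ∈ l1.filter p ++ r :: l2.filter p,
        y ∈ (l1 ++ r :: (m ++ x :: l2)).filter p := by
      intro y hy
      rw [hF]
      exact hy
    have hxF : x ∉ l1.filter p ++ r :: l2.filter p := by
      intro hc
      have := (List.mem_filter.1 (hsub x hc)).2
      rw [hx] at this
      exact absurd this (by simp)
    have h0F : 0 ∉ l1.filter p ++ r :: l2.filter p := by
      intro hc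
      exact h0 (List.mem_filter.1 (hsub 0 hc)).1
    have hx0 : x ≠ 0 := fun hc => h0 (hc ▸ hxl)
    have h7 := GMl_link h hnF hxF h0F hx0
    simp only [if_true]
    exact h7

theorem nm_next {nm pm : ℕ → ℕ} {p : ℕ → Bool} {l : List ℕ} {ky : ℕ → ℕ × ℕ × ℕ} {e : ℕ}
    (hs : l.Pairwise (fun e f => klt (ky e) (ky f))) (h : Lnk nm pm (l.filter p))
    (he : e ∈ l) (hp : p e = true) (hf : ∃ f ∈ l, p f = true ∧ klt (ky e) (ky f)) :
    nm e ∈ l ∧ p (nm e) = true ∧ klt (ky e) (ky (nm e)) ∧ pm (nm e) = e ∧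
      ∀ f ∈ l, p f = true → klt (ky e) (ky f) → f = nm e ∨ klt (ky (nm e)) (ky f) := by
  have hsF : (l.filter p).Pairwise (fun e f => klt (ky e) (ky f)) := hs.filter p
  have heF : e ∈ l.filter p := List.mem_filter.2 ⟨he, hp⟩
  obtain ⟨F1, F2, hF⟩ := List.append_of_mem heF
  obtain ⟨f, hfl, hpf, hkf⟩ := hf
  have hfF : f ∈ l.filter p := List.mem_filter.2 ⟨hfl, hpf⟩
  have hf2 : f ∈ F2 := ((srt_split hsF hF hfF).2).1 hkf
  cases F2 with
  | nil => simp at hf2
  | cons g F3 =>
    have hadj : nm e = g ∧ pm g = e := by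
      rw [hF] at h
      exact lnk_adj h
    have hgF : g ∈ l.filter p := by
      rw [hF]
      simp
    have hkg : klt (ky e) (ky g) := ((srt_split hsF hF hgF).2).2 (by simp)
    have hF3 : l.filter p = (F1 ++ [e]) ++ g :: F3 := by
      rw [hF]
      simp
    rw [hadj.1]
    refine ⟨(List.mem_filter.1 hgF).1, (List.mem_filter.1 hgF).2, hkg, hadj.2, ?_⟩
    intro f' hf' hpf' hkf'
    have hfF' : f' ∈ l.filter p := List.mem_filter.2 ⟨hf', hpf'⟩
    have h2 : f' ∈ g :: F3 := ((srt_split hsF hF hfF').2).1 hkf'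
    rcases List.mem_cons.1 h2 with h3 | h3
    · exact Or.inl h3
    · exact Or.inr (((srt_split hsF hF3 hfF').2).2 h3)

theorem pm_prev {nm pm : ℕ → ℕ} {p : ℕ → Bool} {l : List ℕ} {ky : ℕ → ℕ × ℕ × ℕ} {e : ℕ}
    (hs : l.Pairwise (fun e f => klt (ky e) (ky f))) (h : Lnk nm pm (l.filter p))
    (he : e ∈ l) (hp : p e = true) (hf : ∃ f ∈ l, p f = true ∧ klt (ky f) (ky e)) :
    pm e ∈ l ∧ p (pm e) = true ∧ klt (ky (pm e)) (ky e) ∧ nm (pm e) = e ∧
      ∀ f ∈ l, p f = true → klt (ky f) (ky e) → f = pm e ∨ klt (ky f) (ky (pm e)) := by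
  have hsF : (l.filter p).Pairwise (fun e f => klt (ky e) (ky f)) := hs.filter p
  have heF : e ∈ l.filter p := List.mem_filter.2 ⟨he, hp⟩
  obtain ⟨F1, F2, hF⟩ := List.append_of_mem heF
  obtain ⟨f, hfl, hpf, hkf⟩ := hf
  have hfF : f ∈ l.filter p := List.mem_filter.2 ⟨hfl, hpf⟩
  have hf1 : f ∈ F1 := ((srt_split hsF hF hfF).1).1 hkf
  rcases List.eq_nil_or_concat F1 with hc | ⟨F0, g, hF0⟩
  · rw [hc] at hf1
    simp at hf1
  have hF0' : F1 = F0 ++ [g] := by simpa using hF0
  have hFg : l.filter p = F0 ++ g :: (e :: F2) := by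
    rw [hF, hF0']
    simp
  have hadj : nm g = e ∧ pm e = g := by
    rw [hFg] at h
    exact lnk_adj h
  have hgF : g ∈ l.filter p := by
    rw [hFg]
    simp
  have hkg : klt (ky g) (ky e) := ((srt_split hsF hF hgF).1).2 (by rw [hF0']; simp)
  rw [hadj.2]
  refine ⟨(List.mem_filter.1 hgF).1, (List.mem_filter.1 hgF).2, hkg, hadj.1, ?_⟩
  intro f' hf' hpf' hkf'
  have hfF' : f' ∈ l.filter p := List.mem_filter.2 ⟨hf', hpf'⟩
  have h2 : f' ∈ F1 := ((srt_split hsF hF hfF').1).1 hkf'
  rw [hF0'] at h2
  rcases List.mem_append.1 h2 with h3 | h3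
  · exact Or.inr (((srt_split hsF hFg hfF').1).2 h3)
  · exact Or.inl (by simpa using h3)

end ST2
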