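import Pool.Agent.helper32.ST.GBas

/-!
# ST2-GPos : insertion positions

proofs: helper68

All with K = (uo, ko, size).  For f in l, f <> y: f = 1 (key (0,0,0), below), or the element of a visited locus
or a sentinel; compare the triples with omega.
* pos_main: d = z + (n+2), size k+1, same owner as (z, k) (ko_diag).  y = el (z,k) has key (uo, ko, k).  An
  element f with the same owner has third component <> k (srt_inj) and <> k+1 (else f is a visited locus
  (z', k+1) with the same owner, z' = d by same_owner: V d (k+1)).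
* pos_new: (u, κ) owner, ¬ V u κ: K = (u, κ, κ) (ko_cr).  y = hs (tl u κ): ohs; f with the same owner: a
  visited locus (z', k') with uo = u, ko = κ <= k'; k' = κ gives z' = u (ko_spec: z' = uo + 0): excluded; or
  the sentinel.  So every f is below (u,κ,0), hence y or below y, or above K.
* pos_img: z, k >= 2 with (z, k-1) canonical, (z,k) real, not V z (k-1).  K = (uo z (k-1), ko z (k-1), k-1).
  s = nm (el (z,k)), nm_owner.
  Case s sentinel (kk s = 0 by okk): no real (z+i(n+2), k+i), i >= 1, so by hW no visited (z+i(n+2), k-1+i), i >= 1.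
  e' = ts (z-(k-2)(n+2)) = ts (tl (uo z (k-1)) (ko z (k-1))) (tl_uo), key (uo, ko, n+1).  pv_pos: f with key
  below ky e': if it has the same owner it is a visited (z', k'), by same_owner on the diagonal of z: if
  k' >= k then z' = z + (k'-k+1)(n+2), excluded; k' = k-1 excluded (z' = z); so k' < k-1: below K.
  Case s = el (z+i(n+2), k+i), kk s = k+i <> 0: hI gives V (z+i(n+2)) (k+i-1), with key (uo z (k-1), ko, k+i-1)
  (ko_diag); e' = its element; f below e' with the same owner and size k' >= k: k' < k+i-1, z' = z+(k'-k+1)(n+2);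
  hW gives a real one with 1 <= i' <= k'-k+1 < i: contradiction to the minimality in nm_owner.
-/

namespace ST2

variable {n : ℕ} {A : ℕ → ℕ} {V R O : ℕ → ℕ → Prop} {g : G} {l : List ℕ}
  {ky : ℕ → ℕ × ℕ × ℕ}

/-- data of a visited locus -/
theorem GPos_v (h : LI n A V R O g l ky) {z k : ℕ} (hV : V z k) :
    1 ≤ ko n A z k ∧ ko n A z k ≤ k ∧ k ≤ n ∧ n + 2 ≤ uo n A z k ∧
      z = uo n A z k + (k - ko n A z k) * (n + 2) := by
  obtain ⟨c1, c2, c3, c4⟩ := h.vcan z k hV
  obtain ⟨d1, d2, d3, -, d5⟩ := ko_spec c1 c2 c3 c4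
  exact ⟨d1, d2, c3.trans (mx_le n z), cell_ge n _ d3.1, d5⟩

/-- the elements and their keys -/
theorem GPos_f (h : LI n A V R O g l ky) {f : ℕ} (hf : f ∈ l) :
    (f = 1 ∧ ky f = (0, 0, 0)) ∨
    (∃ z' k', V z' k' ∧ f = g.el (ix n z' k') ∧ ky f = (uo n A z' k', ko n A z' k', k')) ∨
    (∃ u κ, O u κ ∧ f = g.ts (tl n u κ) ∧ ky f = (u, κ, n + 1)) := by
  rcases h.all f hf with h1 | ⟨z', k', hV, h1⟩ | ⟨u, κ, hO, h1⟩
  · left
    subst h1
    exact ⟨rfl, h.one_ky⟩
  · right
    left
    refine ⟨z', k', hV, h1, ?_⟩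
    rw [h1]
    exact h.vky z' k' hV
  · right
    right
    refine ⟨u, κ, hO, h1, ?_⟩
    rw [h1]
    exact h.oky u κ hO

/-- visited loci with the owner of a canonical locus -/
theorem GPos_same (h : LI n A V R O g l ky) {z k z' k' : ℕ} (hz : Cell n z) (h1 : 1 ≤ k)
    (h2 : k ≤ mx n z) (h3 : N n A k z = z) (hV : V z' k') (hu : uo n A z' k' = uo n A z k)
    (hk : ko n A z' k' = ko n A z k) (hkk : k ≤ k') : z' = z + (k' - k) * (n + 2) := by
  obtain ⟨c1, c2, c3, c4⟩ := h.vcan z' k' hV
  exact same_owner hz h1 h2 h3 c1 c2 c3 c4 hu.symm hk.symm hkk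

theorem pos_main (h : LI n A V R O g l ky) {z k : ℕ} (hV : V z k)
    (hd : k + 1 ≤ mx n (z + (n + 2))) (hn : ¬ V (z + (n + 2)) (k + 1)) :
    PosAft l ky (g.el (ix n z k))
      (uo n A (z + (n + 2)) (k + 1), ko n A (z + (n + 2)) (k + 1), k + 1) ∧
    O (uo n A (z + (n + 2)) (k + 1)) (ko n A (z + (n + 2)) (k + 1)) := by
  obtain ⟨c1, c2, c3, c4⟩ := h.vcan z k hV
  have hdg := ko_diag (i := 1) c1 c2 c3 c4 (by rw [one_mul]; exact hd)
  rw [one_mul] at hdg
  rw [hdg.1, hdg.2]
  have hkn : k + 1 ≤ n := hd.trans (mx_le n _)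
  have hky := h.vky z k hV
  obtain ⟨d1, d2, d3, d4, d5⟩ := GPos_v h hV
  refine ⟨⟨h.vel z k hV, ?_, ?_⟩, h.vo z k hV⟩
  · rw [hky]
    unfold klt
    dsimp only
    omega
  · intro f hf hne
    rw [hky]
    rcases GPos_f h hf with ⟨-, h1⟩ | ⟨z', k', hV', h1, h2⟩ | ⟨u, κ, hO, h1, h2⟩
    · left
      rw [h1]
      unfold klt
      dsimp only
      omega
    · rw [h2]
      by_cases hs : uo n A z' k' = uo n A z k ∧ ko n A z' k' = ko n A z k
      · have e1 : k' ≠ k := by
          intro hk
          subst hk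
          have := GPos_same h c1 c2 c3 c4 hV' hs.1 hs.2 le_rfl
          rw [Nat.sub_self, Nat.zero_mul, Nat.add_zero] at this
          subst this
          exact hne h1
        have e2 : k' ≠ k + 1 := by
          intro hk
          subst hk
          have := GPos_same h c1 c2 c3 c4 hV' hs.1 hs.2 (by omega)
          rw [Nat.add_sub_cancel_left, one_mul] at this
          subst this
          exact hn hV'
        rw [hs.1, hs.2]
        unfold klt
        dsimp only
        omega
      · unfold klt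
        dsimp only
        omega
    · rw [h2]
      unfold klt
      dsimp only
      omega

theorem pos_new (h : LI n A V R O g l ky) {u κ : ℕ} (hO : O u κ) (hn : ¬ V u κ) :
    PosAft l ky (g.hs (tl n u κ)) (uo n A u κ, ko n A u κ, κ) ∧ O (uo n A u κ) (ko n A u κ) := by
  have hcr := h.ocr u κ hO
  obtain ⟨e1, e2⟩ := ko_cr hcr
  rw [e1, e2]
  obtain ⟨o1, o2, o3⟩ := h.ohs u κ hO
  have hp := h.opos u κ hO
  have hun := cell_ge n u hcr.1
  have hκn : κ ≤ n := (cr_mx hcr).trans (mx_le n u)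
  have h0 : klt (u, κ, 0) (u, κ, κ) := by
    unfold klt
    dsimp only
    omega
  refine ⟨⟨o1, klt_trans o2 h0, ?_⟩, hO⟩
  intro f hf hne
  by_cases hb : klt (ky f) (u, κ, 0)
  · rcases o3 f hf hb with h1 | h1
    · exact absurd h1 hne
    · exact Or.inl h1
  · right
    rcases GPos_f h hf with ⟨-, h1⟩ | ⟨z', k', hV', h1, h2⟩ | ⟨u', κ', hO', h1, h2⟩
    · exfalso
      apply hb
      rw [h1]
      unfold klt
      dsimp only
      omega
    · rw [h2] at hb ⊢
      obtain ⟨d1, d2, d3, d4, d5⟩ := GPos_v h hV'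
      have e3 : uo n A z' k' = u ∧ ko n A z' k' = κ → k' ≠ κ := by
        rintro ⟨f1, f2⟩ hk
        rw [f1, f2, hk, Nat.sub_self, Nat.zero_mul, Nat.add_zero] at d5
        rw [d5, hk] at hV'
        exact hn hV'
      unfold klt at hb ⊢
      dsimp only at hb ⊢
      omega
    · rw [h2] at hb ⊢
      unfold klt at hb ⊢
      dsimp only at hb ⊢
      omega

theorem pos_img (h : LI n A V R O g l ky) {z k : ℕ} (hR : R z k) (h2 : 2 ≤ k)
    (hN : N n A (k - 1) z = z) (hn : ¬ V z (k - 1)) (hO : O (uo n A z (k - 1)) (ko n A z (k - 1)))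
    (hW : ∀ i, 1 ≤ i → V (z + i * (n + 2)) (k - 1 + i) →
      ∃ i', 1 ≤ i' ∧ i' ≤ i ∧ R (z + i' * (n + 2)) (k + i'))
    (hI : ∀ i, 1 ≤ i → R (z + i * (n + 2)) (k + i) → V (z + i * (n + 2)) (k + i - 1)) :
    PosAft l ky (g.imgPos n z k) (uo n A z (k - 1), ko n A z (k - 1), k - 1) := by
  have hVz := h.rv z k hR
  obtain ⟨c1, c2, c3, c4⟩ := h.vcan z k hVz
  have hk1 : 1 ≤ k - 1 := by omega
  have hk2 : k - 1 ≤ mx n z := by omega
  have hkn : k ≤ n := c3.trans (mx_le n z)
  have hun : n + 2 ≤ uo n A z (k - 1) := cell_ge n _ (h.ocr _ _ hO).1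
  -- an element of the same owner
  have hsame : ∀ z' k', V z' k' → uo n A z' k' = uo n A z (k - 1) →
      ko n A z' k' = ko n A z (k - 1) → k - 1 ≤ k' →
      ∃ j, 1 ≤ j ∧ k' = k - 1 + j ∧ V (z + j * (n + 2)) (k - 1 + j) := by
    intro z' k' hV' hu hk hle
    have he := GPos_same h c1 hk1 hk2 hN hV' hu hk hle
    obtain ⟨j, hj⟩ : ∃ j, k' = k - 1 + j := ⟨k' - (k - 1), by omega⟩
    subst hj
    rw [Nat.add_sub_cancel_left] at he
    subst he
    refine ⟨j, ?_, rfl, hV'⟩
    rcases Nat.eq_zero_or_pos j with h0 | h0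
    · subst h0
      rw [Nat.zero_mul, Nat.add_zero, Nat.add_zero] at hV'
      exact absurd hV' hn
    · exact h0
  have hone : ∃ f ∈ l, klt (ky f) (uo n A z (k - 1), ko n A z (k - 1), k - 1) := by
    refine ⟨1, h.one, ?_⟩
    rw [h.one_ky]
    unfold klt
    dsimp only
    omega
  obtain ⟨-, -, -, -, -, hcase⟩ := nm_owner h hR
  rcases hcase with ⟨hs, hno⟩ | ⟨i, hi, hRi, hs, hmin⟩
  · have hkk : g.kk (g.nm (g.el (ix n z k))) = 0 := by
      rw [hs]
      exact h.okk _ _ (h.vo z k hVz)
    have htl : tl n (uo n A z (k - 1)) (ko n A z (k - 1)) = z - (k - 2) * (n + 2) := by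
      rw [tl_uo c1 hk1 hk2 hN]
      rfl
    have himg : g.imgPos n z k = g.d.pv (g.ts (tl n (uo n A z (k - 1)) (ko n A z (k - 1)))) := by
      unfold G.imgPos
      rw [if_pos hkk, htl]
    rw [himg]
    have hke := h.oky _ _ hO
    refine pv_pos h.rep h.srt (h.ots _ _ hO) ?_ hone ?_
    · rw [hke]
      unfold klt
      dsimp only
      omega
    · intro f hf hlt
      rw [hke] at hlt
      rcases GPos_f h hf with ⟨-, h1⟩ | ⟨z', k', hV', h1, h3⟩ | ⟨u', κ', hO', h1, h3⟩
      · rw [h1]
        unfold klt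
        dsimp only
        omega
      · rw [h3] at hlt ⊢
        have e1 : uo n A z' k' = uo n A z (k - 1) → ko n A z' k' = ko n A z (k - 1) →
            k' < k - 1 := by
          intro f1 f2
          by_contra hc
          obtain ⟨j, j1, -, j3⟩ := hsame z' k' hV' f1 f2 (by omega)
          obtain ⟨i', i1, -, i3⟩ := hW j j1 j3
          exact hno i' i1 i3
        unfold klt at hlt ⊢
        dsimp only at hlt ⊢
        omega
      · rw [h3] at hlt ⊢
        unfold klt at hlt ⊢
        dsimp only at hlt ⊢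
        omega
  · have hVi := h.rv _ _ hRi
    have hVj := hI i hi hRi
    have hkk : g.kk (g.nm (g.el (ix n z k))) = k + i := by
      rw [hs]
      exact h.vkk _ _ hVi
    have hkz : g.kz (g.nm (g.el (ix n z k))) = z + i * (n + 2) := by
      rw [hs]
      exact h.vkz _ _ hVi
    have himg : g.imgPos n z k = g.d.pv (g.el (ix n (z + i * (n + 2)) (k + i - 1))) := by
      unfold G.imgPos
      rw [hkk, hkz, if_neg (by omega)]
    rw [himg]
    obtain ⟨b1, b2, b3, b4⟩ := h.vcan _ _ hVj
    have hke := h.vky _ _ hVj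
    have hki : k + i - 1 = k - 1 + i := by omega
    have hdg := ko_diag (i := i) c1 hk1 hk2 hN (by rw [← hki]; exact b3)
    rw [← hki] at hdg
    rw [hdg.1, hdg.2] at hke
    have hin : k + i - 1 ≤ n := b3.trans (mx_le n _)
    refine pv_pos h.rep h.srt (h.vel _ _ hVj) ?_ hone ?_
    · rw [hke]
      unfold klt
      dsimp only
      omega
    · intro f hf hlt
      rw [hke] at hlt
      rcases GPos_f h hf with ⟨-, h1⟩ | ⟨z', k', hV', h1, h3⟩ | ⟨u', κ', hO', h1, h3⟩
      · rw [h1]
        unfold klt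
        dsimp only
        omega
      · rw [h3] at hlt ⊢
        have e1 : uo n A z' k' = uo n A z (k - 1) → ko n A z' k' = ko n A z (k - 1) →
            k' < k + i - 1 → k' < k - 1 := by
          intro f1 f2 f3
          by_contra hc
          obtain ⟨j, j1, j2, j3⟩ := hsame z' k' hV' f1 f2 (by omega)
          obtain ⟨i', i1, i2, i3⟩ := hW j j1 j3
          exact hmin i' i1 (by omega) i3
        unfold klt at hlt ⊢
        dsimp only at hlt ⊢
        omega
      · rw [h3] at hlt ⊢
        unfold klt at hlt ⊢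
        dsimp only at hlt ⊢
        omega

end ST2
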