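import Pool.Agent.helper32.ST.GRealT

/-!
# ST2-GReal : RealR keeps the invariants

If R z k: the element is flagged (mark), RealR with g' = g, addp R z k = R.  Otherwise mark_LI, real_TI,
LI_tree (splitE only changes t and nd), and w does not depend on t, nd.
-/

namespace ST2

variable {n : ℕ} {A : ℕ → ℕ} {V R O : ℕ → ℕ → Prop} {g : G} {l : List ℕ}
  {ky : ℕ → ℕ × ℕ × ℕ}

theorem real_GI (h : LI n A V R O g l ky) (hT : TI n A R O g l ky) {z k : ℕ} (hV : V z k) :
    ∃ g' t, RealR n g z k g' t ∧ LI n A V (addp R z k) O g' l ky ∧ TI n A (addp R z k) O g' l ky ∧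
      g.w + t ≤ g'.w := by
  by_cases hR : R z k
  · have h1 : addp R z k = R := by
      funext z' k'
      apply propext
      constructor
      · rintro (h2 | ⟨rfl, rfl⟩)
        · exact h2
        · exact hR
      · exact fun h2 => Or.inl h2
    refine ⟨g, 0, Or.inl ⟨(h.mark z k hV).2 hR, rfl, rfl⟩, ?_, ?_, le_rfl⟩
    · rw [h1]; exact h
    · rw [h1]; exact hT
  · obtain ⟨g1, t, hM, hLI, hw, hg, hf⟩ := mark_LI h hV hR
    have h0 : g.d.fl (g.el (ix n z k)) = 0 := by
      by_contra hc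
      exact hR ((h.mark z k hV).1 hc)
    exact ⟨g1.splitE n z k (g.el (ix n z k)), t, Or.inr ⟨h0, g1, hM, rfl⟩,
      LI_tree hLI _ _, real_TI h hT hV hR hg hLI hf, hw⟩

end ST2
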