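import Pool.Agent.helper32.ST.GMarkL
import Pool.Agent.helper32.ST.GTr

/-!
# ST2-GRealT : the tree invariant after marking and splitting

e = el (z, k), not real before.  g1 = g with new d, nm, pm (flags: e added), LI for R' = addp R z k.
s = nm e in g1: in l, flagged, <> 1, same owner as e, pm1 s = e (nm_owner in the new LI).  w = nd s in [2, cnt]
(TI.rng old: s <> e so s was flagged in g).  Let r = pm s in the old record.  Then pm1 e = r and pm1 f = pm f
for all flagged f <> e, s, 1 (both are characterised by pm_spec: the greatest flagged element below f; the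
flagged sets differ only by e, and e is between r and s).
splitE: new tree node v = cnt+1: trep_split; par v = old par w, par w = v; nd e = v.
par1/par2:
* for e: pm1 e = r; SameO r e iff SameO r s; old TI.par for s: par (nd s) = nd r or hd (owner s).
* for s: pm1 s = e, SameO e s: par (nd s) = par w = v = nd e.
* others: unchanged (nd f <> w by inj, nd f <> v by rng; nd (pm f): pm f <> e because pm1 f = e would make f the
  next marked element after e).
hd of the owners: nd (el (R locus)), an R locus (oR), whose element is flagged before, so it is not e: unchanged.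
szr, por for (z,k): sz v = k, po v = z - (k-1)(n+2); for the old ones nd <= cnt so the updates at cnt+1 do not matter.
-/

namespace ST2

variable {n : ℕ} {A : ℕ → ℕ} {V R O : ℕ → ℕ → Prop} {g g1 : G} {l : List ℕ}
  {ky : ℕ → ℕ × ℕ × ℕ}

theorem GRealT_asymm {a b : ℕ × ℕ × ℕ} (h : klt a b) (h' : klt b a) : False :=
  klt_irrefl a (klt_trans h h')

/-- the previous marked elements after e is marked, s = nm e -/
theorem GRealT_pm (h : LI n A V R O g l ky) {R' : ℕ → ℕ → Prop}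
    (h1 : LI n A V R' O g1 l ky) {e s : ℕ} (he : e ∈ l) (he1 : e ≠ 1)
    (heu : ¬ g.d.fl e ≠ 0) (hf : ∀ f ∈ l, (g1.d.fl f ≠ 0 ↔ f = e ∨ g.d.fl f ≠ 0))
    (hs : s ∈ l) (hs1 : s ≠ 1) (hsf : g1.d.fl s ≠ 0) (hse : s ≠ e) (hnm : g1.nm e = s)
    (hes : klt (ky e) (ky s)) :
    g1.pm e = g.pm s ∧
      ∀ f ∈ l, f ≠ 1 → g.d.fl f ≠ 0 → f ≠ s → g1.pm f = g.pm f := by
  have hef : g1.d.fl e ≠ 0 := (hf e he).2 (Or.inl rfl)
  have hsg : g.d.fl s ≠ 0 := ((hf s hs).1 hsf).resolve_left hse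
  constructor
  · obtain ⟨a1, a2, a3, a4, a5⟩ := pm_spec h1 he he1 hef
    obtain ⟨b1, b2, b3, b4, b5⟩ := pm_spec h hs hs1 hsg
    obtain ⟨c1, c2, c3, c4, c5⟩ := nm_spec h1 he hef ⟨s, hs, hsf, hes⟩
    have hae : g1.pm e ≠ e := by
      intro hc
      rw [hc] at a3
      exact klt_irrefl _ a3
    have hag : g.d.fl (g1.pm e) ≠ 0 := ((hf _ a1).1 a2).resolve_left hae
    rcases b5 _ a1 hag (klt_trans a3 hes) with h2 | h2
    · exact h2
    · exfalso
      have hbe : g.pm s ≠ e := by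
        intro hc
        rw [hc] at b2
        exact heu b2
      have hb1 : g1.d.fl (g.pm s) ≠ 0 := (hf _ b1).2 (Or.inr b2)
      rcases srt_cmp h.srt b1 he hbe with h3 | h3
      · rcases a5 _ b1 hb1 h3 with h4 | h4
        · rw [h4] at h2
          exact klt_irrefl _ h2
        · exact GRealT_asymm h2 h4
      · rcases c5 _ b1 hb1 h3 with h4 | h4
        · rw [hnm] at h4
          rw [h4] at b3
          exact klt_irrefl _ b3
        · rw [hnm] at h4
          exact GRealT_asymm b3 h4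
  · intro f hfl hf1 hff hfs
    have hff1 : g1.d.fl f ≠ 0 := (hf f hfl).2 (Or.inr hff)
    obtain ⟨a1, a2, a3, a4, a5⟩ := pm_spec h1 hfl hf1 hff1
    obtain ⟨b1, b2, b3, b4, b5⟩ := pm_spec h hfl hf1 hff
    have hae : g1.pm f ≠ e := by
      intro hc
      rw [hc, hnm] at a4
      exact hfs a4.symm
    have hag : g.d.fl (g1.pm f) ≠ 0 := ((hf _ a1).1 a2).resolve_left hae
    have hb1 : g1.d.fl (g.pm f) ≠ 0 := (hf _ b1).2 (Or.inr b2)
    rcases b5 _ a1 hag a3 with h2 | h2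
    · exact h2
    · exfalso
      rcases a5 _ b1 hb1 b3 with h4 | h4
      · rw [h4] at h2
        exact klt_irrefl _ h2
      · exact GRealT_asymm h2 h4

theorem GRealT_aux (h : LI n A V R O g l ky) (hT : TI n A R O g l ky) {z k : ℕ}
    (hR : ¬ R z k) {G' : G} {e s : ℕ} (he : e = g.el (ix n z k)) (hel : e ∈ l) (he1 : e ≠ 1)
    (heu : ¬ g.d.fl e ≠ 0) (hf : ∀ f ∈ l, (G'.d.fl f ≠ 0 ↔ f = e ∨ g.d.fl f ≠ 0))
    (s1 : s ∈ l) (s3 : s ≠ 1) (sfl : g.d.fl s ≠ 0) (hse : s ≠ e) (s5 : SameO ky s e)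
    (pmE : G'.pm e = g.pm s) (pmS : G'.pm s = e)
    (pmO : ∀ f ∈ l, f ≠ 1 → g.d.fl f ≠ 0 → f ≠ s → G'.pm f = g.pm f)
    (ht : G'.t = g.t.splitAbove (g.nd s) k (z - (k - 1) * (n + 2)))
    (hnd : G'.nd = upd g.nd e (g.t.cnt + 1)) (hel' : G'.el = g.el) (hts : G'.ts = g.ts) :
    TI n A (addp R z k) O G' l ky := by
  obtain ⟨kids, hkids⟩ := hT.rep
  have hw := hT.rng s s1 s3 sfl
  have ndE : G'.nd e = g.t.cnt + 1 := by rw [hnd, upd_same]
  have ndO : ∀ f, f ≠ e → G'.nd f = g.nd f := fun f hfe => by rw [hnd, upd_ne _ _ hfe]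
  have hcnt : G'.t.cnt = g.t.cnt + 1 := by rw [ht]; rfl
  have hpar : G'.t.par = upd (upd g.t.par (g.t.cnt + 1) (g.t.par (g.nd s))) (g.nd s)
      (g.t.cnt + 1) := by rw [ht]; rfl
  have hsz : G'.t.sz = upd g.t.sz (g.t.cnt + 1) k := by rw [ht]; rfl
  have hpo : G'.t.po = upd g.t.po (g.t.cnt + 1) (z - (k - 1) * (n + 2)) := by rw [ht]; rfl
  have hfe : ∀ f, g.d.fl f ≠ 0 → f ≠ e := fun f h2 hc => heu (hc ▸ h2)
  have pmf : ∀ f ∈ l, f ≠ 1 → g.d.fl f ≠ 0 → g.d.fl (g.pm f) ≠ 0 := fun f a b c =>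
    (pm_spec h a b c).2.1
  have hRf : ∀ z' k', R z' k' → g.el (ix n z' k') ∈ l ∧ g.el (ix n z' k') ≠ 1 ∧
      g.d.fl (g.el (ix n z' k')) ≠ 0 := fun z' k' hr =>
    ⟨h.vel _ _ (h.rv _ _ hr), el_ne_one h (h.rv _ _ hr), (h.mark _ _ (h.rv _ _ hr)).2 hr⟩
  have hOf : ∀ u κ, O u κ → g.ts (tl n u κ) ∈ l ∧ g.ts (tl n u κ) ≠ 1 ∧
      g.d.fl (g.ts (tl n u κ)) ≠ 0 := fun u κ ho =>
    ⟨h.ots _ _ ho, ts_ne_one h ho, h.ofl _ _ ho⟩
  have hhd : ∀ u κ, O u κ → hd n A G' u κ = hd n A g u κ := by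
    intro u κ ho
    unfold hd
    by_cases hk : κ ≤ 1
    · rw [if_pos hk, if_pos hk]
    · rw [if_neg hk, if_neg hk, hel']
      exact ndO _ (hfe _ (hRf _ _ (hT.oR u κ ho (by omega))).2.2)
  have hold : ∀ f ∈ l, f ≠ 1 → G'.d.fl f ≠ 0 → f ≠ e → g.d.fl f ≠ 0 := fun f a _ c d =>
    ((hf f a).1 c).resolve_left d
  have parE : G'.t.par (g.t.cnt + 1) = g.t.par (g.nd s) := by
    rw [hpar, upd_ne _ _ (by omega), upd_same]
  have parS : G'.t.par (g.nd s) = g.t.cnt + 1 := by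
    rw [hpar, upd_same]
  have parO : ∀ f ∈ l, f ≠ 1 → g.d.fl f ≠ 0 → f ≠ s → G'.t.par (g.nd f) = g.t.par (g.nd f) := by
    intro f a b c d
    have h2 := hT.rng f a b c
    have h3 : g.nd f ≠ g.nd s := fun hc => d (hT.inj f a s s1 b s3 c sfl hc)
    rw [hpar, upd_ne _ _ h3, upd_ne _ _ (by omega)]
  refine ⟨?_, ?_, ?_, ?_, ?_, ?_, ?_, ?_, ?_, ?_, ?_⟩
  · rw [ht]
    exact ⟨_, trep_split hkids hw.1 hw.2⟩
  · intro a ha b hb ha1 hb1 haf hbf hab
    by_cases hae : a = e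
    · by_cases hbe : b = e
      · rw [hae, hbe]
      · exfalso
        have h2 := hT.rng b hb hb1 (hold b hb hb1 hbf hbe)
        rw [hae, ndE, ndO b hbe] at hab
        omega
    · by_cases hbe : b = e
      · exfalso
        have h2 := hT.rng a ha ha1 (hold a ha ha1 haf hae)
        rw [hbe, ndE, ndO a hae] at hab
        omega
      · rw [ndO a hae, ndO b hbe] at hab
        exact hT.inj a ha b hb ha1 hb1 (hold a ha ha1 haf hae) (hold b hb hb1 hbf hbe) hab
  · intro a ha ha1 haf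
    rw [hcnt]
    by_cases hae : a = e
    · rw [hae, ndE]
      have := hkids.pos
      omega
    · have h2 := hT.rng a ha ha1 (hold a ha ha1 haf hae)
      rw [ndO a hae]
      omega
  · intro v hv hv'
    rw [hcnt] at hv'
    by_cases hvc : v = g.t.cnt + 1
    · exact ⟨e, hel, he1, (hf e hel).2 (Or.inl rfl), by rw [ndE, hvc]⟩
    · obtain ⟨a, a1, a2, a3, a4⟩ := hT.sur v hv (by omega)
      exact ⟨a, a1, a2, (hf a a1).2 (Or.inr a3), by rw [ndO a (hfe a a3), a4]⟩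
  · rintro z' k' (hr | ⟨rfl, rfl⟩)
    · obtain ⟨c1, c2, c3⟩ := hRf z' k' hr
      have h2 := hT.rng _ c1 c2 c3
      rw [hel', ndO _ (hfe _ c3), hsz, upd_ne _ _ (by omega)]
      exact hT.szr z' k' hr
    · rw [hel', ← he, ndE, hsz, upd_same]
  · rintro z' k' (hr | ⟨rfl, rfl⟩)
    · obtain ⟨c1, c2, c3⟩ := hRf z' k' hr
      have h2 := hT.rng _ c1 c2 c3
      rw [hel', ndO _ (hfe _ c3), hpo, upd_ne _ _ (by omega)]
      exact hT.por z' k' hr
    · rw [hel', ← he, ndE, hpo, upd_same]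
  · intro u κ ho
    obtain ⟨c1, c2, c3⟩ := hOf u κ ho
    have h2 := hT.rng _ c1 c2 c3
    rw [hts, ndO _ (hfe _ c3), hsz, upd_ne _ _ (by omega)]
    exact hT.szo u κ ho
  · intro u κ ho
    obtain ⟨c1, c2, c3⟩ := hOf u κ ho
    have h2 := hT.rng _ c1 c2 c3
    rw [hts, ndO _ (hfe _ c3), hpo, upd_ne _ _ (by omega)]
    exact hT.poo u κ ho
  · exact fun u κ ho hk => Or.inl (hT.oR u κ ho hk)
  · intro a ha ha1 haf hso
    by_cases hae : a = e
    · rw [hae] at hso ⊢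
      rw [pmE] at hso ⊢
      rw [ndE, parE, ndO _ (hfe _ (pmf s s1 s3 sfl))]
      exact hT.par1 s s1 s3 sfl ⟨hso.1.trans s5.1.symm, hso.2.trans s5.2.symm⟩
    · have hag := hold a ha ha1 haf hae
      by_cases has : a = s
      · rw [has, pmS, ndO s hse, ndE, parS]
      · rw [pmO a ha ha1 hag has] at hso ⊢
        rw [ndO a hae, parO a ha ha1 hag has, ndO _ (hfe _ (pmf a ha ha1 hag))]
        exact hT.par1 a ha ha1 hag hso
  · intro a ha ha1 haf hso
    rw [hhd _ _ (owner_key h ha ha1).1]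
    by_cases hae : a = e
    · rw [hae] at hso ⊢
      rw [pmE] at hso
      rw [ndE, parE, ← s5.1, ← s5.2]
      exact hT.par2 s s1 s3 sfl fun hc => hso ⟨hc.1.trans s5.1, hc.2.trans s5.2⟩
    · have hag := hold a ha ha1 haf hae
      by_cases has : a = s
      · exfalso
        rw [has, pmS] at hso
        exact hso ⟨s5.1.symm, s5.2.symm⟩
      · rw [pmO a ha ha1 hag has] at hso
        rw [ndO a hae, parO a ha ha1 hag has]
        exact hT.par2 a ha ha1 hag hso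

theorem real_TI (h : LI n A V R O g l ky) (hT : TI n A R O g l ky) {z k : ℕ} (hV : V z k)
    (hR : ¬ R z k) (hg : g1 = { g with d := g1.d, nm := g1.nm, pm := g1.pm })
    (h1 : LI n A V (addp R z k) O g1 l ky)
    (hf : ∀ f ∈ l, (g1.d.fl f ≠ 0 ↔ f = g.el (ix n z k) ∨ g.d.fl f ≠ 0)) :
    TI n A (addp R z k) O (g1.splitE n z k (g.el (ix n z k))) l ky := by
  have end_ : g1.nd = g.nd := by
    have hc := congrArg G.nd hg
    exact hc
  have eel : g1.el = g.el := by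
    have hc := congrArg G.el hg
    exact hc
  have ets : g1.ts = g.ts := by
    have hc := congrArg G.ts hg
    exact hc
  have et : g1.t = g.t := by
    have hc := congrArg G.t hg
    exact hc
  have hel := h.vel z k hV
  have he1 := el_ne_one h hV
  have heu : ¬ g.d.fl (g.el (ix n z k)) ≠ 0 := fun hc => hR ((h.mark z k hV).1 hc)
  obtain ⟨s1, s2, s3, s4, s5, -⟩ := nm_owner h1 (z := z) (k := k) (Or.inr ⟨rfl, rfl⟩)
  rw [eel] at s1 s2 s3 s4 s5
  obtain ⟨-, -, q3, -, -⟩ := pm_spec h1 s1 s3 s2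
  rw [s4] at q3
  have hse : g1.nm (g.el (ix n z k)) ≠ g.el (ix n z k) := by
    intro hc
    rw [hc] at q3
    exact klt_irrefl _ q3
  have sfl : g.d.fl (g1.nm (g.el (ix n z k))) ≠ 0 := ((hf _ s1).1 s2).resolve_left hse
  obtain ⟨pmE, pmO⟩ := GRealT_pm h h1 hel he1 heu hf s1 s3 s2 hse rfl q3
  refine GRealT_aux h hT hR rfl hel he1 heu hf s1 s3 sfl hse s5 pmE s4 pmO ?_ ?_ ?_ ?_
  · show g1.t.splitAbove (g1.nd (g1.nm (g.el (ix n z k)))) k _ = _
    rw [et, end_]
  · show upd g1.nd (g.el (ix n z k)) (g1.t.cnt + 1) = _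
    rw [et, end_]
  · exact eel
  · exact ets

end ST2
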