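import Pool.Agent.helper32.ST.GBas
import Pool.Agent.helper32.ST.DInsFc

/-!
# ST2-GVisL : inserting a locus, list invariant

ins_op for y gives d', LRep d' (insAfter l y e), e = cnt+1 not in l, flags unchanged on l and 0 at e.
The new V' = addp V z k.  kk, kz, el change only at e resp. ix z k (which had el = 0 by nvis; the
index is injective, ix_inj: sizes < (n+1)^2); ky' = update at e, e not in l.
srt: ins_srt.  ohs: for an owner (u, κ): the hs element h is not e; if the new key K is below (u, κ, 0),
then its owner (uo, ko) (in O by hO) is before (u, κ), the key (uo, ko, n+1) of its sentinel is below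
(u, κ, 0), hence the sentinel is h or below h, and K < (uo, ko, n+1) (k <= n) gives K < ky h.
all: ins_mem.  nmpm: the filtered list is unchanged (e unflagged; insAfter = l1 ++ y :: e :: l2, exists_split).
last: y <> last or e is not the last?  e is not the last element of the new list: the key of the sentinel
of the owner of (z, k) is above K, so some element comes after e; formally l = l1 ++ y :: l2 with l2 nonempty
(the sentinel ts is in l and above K, so it is in l2 by srt_split), so getLast? is unchanged.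
frkk: e = cnt+1 <= d'.cnt.
w: t <= d'.cnt - cnt (ins_op) and fc does not decrease (insOp_fc).
vkk etc. for e: kk e = k.
-/

namespace ST2

variable {n : ℕ} {A : ℕ → ℕ} {V R O : ℕ → ℕ → Prop} {g : G} {l : List ℕ}
  {ky : ℕ → ℕ × ℕ × ℕ}

theorem visit_LI (h : LI n A V R O g l ky) {z k y : ℕ} (hz : Cell n z) (h1 : 1 ≤ k)
    (h2 : k ≤ mx n z) (hN : N n A k z = z) (hV : ¬ V z k) (hO : O (uo n A z k) (ko n A z k))
    (hp : PosAft l ky y (uo n A z k, ko n A z k, k)) :
    ∃ g' t, VisitR n g z k y g' t ∧
      LI n A (addp V z k) R O g' (insAfter l y (g.d.cnt + 1))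
        (Function.update ky (g.d.cnt + 1) (uo n A z k, ko n A z k, k)) ∧
      g.w + t ≤ g'.w ∧ g.d.cnt + 1 ∉ l ∧ (∀ f ∈ l, g'.d.fl f = g.d.fl f) ∧
      g'.d.fl (g.d.cnt + 1) = 0 := by
  obtain ⟨hy, hyK, hoth⟩ := hp
  have hp : PosAft l ky y (uo n A z k, ko n A z k, k) := ⟨hy, hyK, hoth⟩
  have hnd : l.Nodup := li_nodup h
  obtain ⟨d', t, hop, hrep', hel, hfl1, hfl0, hcnt1, ht1⟩ := ins_op h.rep hy
  have hfc : g.d.fc ≤ d'.fc := insOp_fc h.rep hy hop
  have hkn : k ≤ n := h2.trans (mx_le n z)
  have hup : ∀ f ∈ l, Function.update ky (g.d.cnt + 1) (uo n A z k, ko n A z k, k) f = ky f := by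
    intro f hf
    apply Function.update_of_ne
    intro h3
    rw [h3] at hf
    exact hel hf
  have hue : Function.update ky (g.d.cnt + 1) (uo n A z k, ko n A z k, k) (g.d.cnt + 1) =
      (uo n A z k, ko n A z k, k) := Function.update_self _ _ _
  have hne : ∀ f ∈ l, f ≠ g.d.cnt + 1 := by
    intro f hf h3
    rw [h3] at hf
    exact hel hf
  have hsm : ∀ j ≤ n, j < (n + 1) * (n + 1) := by
    intro j hj
    nlinarith
  have e_el : ∀ z' k', V z' k' →
      upd g.el (ix n z k) (g.d.cnt + 1) (ix n z' k') = g.el (ix n z' k') := by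
    intro z' k' hv
    apply upd_ne
    intro h3
    have h4 := (h.vcan z' k' hv).2.2.1
    have h5 := ix_inj (hsm k' (h4.trans (mx_le n z'))) (hsm k hkn) h3
    rw [h5.1, h5.2] at hv
    exact hV hv
  have e_eln : upd g.el (ix n z k) (g.d.cnt + 1) (ix n z k) = g.d.cnt + 1 := upd_same _ _ _
  -- the sentinel of the owner
  have hs1 := h.ots _ _ hO
  have hs3 := h.oky _ _ hO
  have hys : klt (ky y) (ky (g.ts (tl n (uo n A z k) (ko n A z k)))) := by
    refine klt_trans hyK ?_
    rw [hs3]
    right
    refine ⟨rfl, Or.inr ⟨rfl, ?_⟩⟩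
    show k < n + 1
    omega
  obtain ⟨l1, l2, hl, hy1, hy2⟩ := exists_split hnd hy
  have hins : insAfter l y (g.d.cnt + 1) = l1 ++ y :: (g.d.cnt + 1) :: l2 := by
    rw [hl, ins_split hy1 hy2]
  have hs2 : g.ts (tl n (uo n A z k) (ko n A z k)) ∈ l2 := (srt_split h.srt hl hs1).2.1 hys
  refine ⟨{ g with d := d', el := upd g.el (ix n z k) (g.d.cnt + 1),
                   kz := upd g.kz (g.d.cnt + 1) z, kk := upd g.kk (g.d.cnt + 1) k }, t,
    ⟨d', hop, rfl⟩, ?_, ?_, hel, hfl1, hfl0⟩
  · constructor
    · exact hrep'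
    · exact ins_srt h.srt hnd hel hp
    · exact ins_mem.2 (Or.inl h.one)
    · rw [hup 1 h.one]
      exact h.one_ky
    · show upd g.kk (g.d.cnt + 1) k 1 = 0
      rw [upd_ne _ _ (hne 1 h.one)]
      exact h.one_kk
    · show d'.fl 1 ≠ 0
      rw [hfl1 1 h.one]
      exact h.one_fl
    · rintro z' k' (hv | ⟨rfl, rfl⟩)
      · exact h.vcan z' k' hv
      · exact ⟨hz, h1, h2, hN⟩
    · intro z' k' hr
      exact Or.inl (h.rv z' k' hr)
    · exact h.ocr
    · exact h.opos
    · rintro z' k' (hv | ⟨rfl, rfl⟩)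
      · exact h.vo z' k' hv
      · exact hO
    · rintro z' k' (hv | ⟨rfl, rfl⟩)
      · show upd g.el (ix n z k) (g.d.cnt + 1) (ix n z' k') ∈ _
        rw [e_el z' k' hv]
        exact ins_mem.2 (Or.inl (h.vel z' k' hv))
      · show upd g.el _ (g.d.cnt + 1) _ ∈ _
        rw [e_eln]
        exact ins_mem.2 (Or.inr ⟨rfl, hy⟩)
    · rintro z' k' (hv | ⟨rfl, rfl⟩)
      · show upd g.kz (g.d.cnt + 1) z (upd g.el (ix n z k) (g.d.cnt + 1) (ix n z' k')) = z'
        rw [e_el z' k' hv, upd_ne _ _ (hne _ (h.vel z' k' hv))]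
        exact h.vkz z' k' hv
      · show upd g.kz (g.d.cnt + 1) _ (upd g.el _ (g.d.cnt + 1) _) = _
        rw [e_eln]
        exact upd_same _ _ _
    · rintro z' k' (hv | ⟨rfl, rfl⟩)
      · show upd g.kk (g.d.cnt + 1) k (upd g.el (ix n z k) (g.d.cnt + 1) (ix n z' k')) = k'
        rw [e_el z' k' hv, upd_ne _ _ (hne _ (h.vel z' k' hv))]
        exact h.vkk z' k' hv
      · show upd g.kk (g.d.cnt + 1) _ (upd g.el _ (g.d.cnt + 1) _) = _
        rw [e_eln]
        exact upd_same _ _ _
    · rintro z' k' (hv | ⟨rfl, rfl⟩)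
      · show Function.update ky (g.d.cnt + 1) (uo n A z k, ko n A z k, k)
          (upd g.el (ix n z k) (g.d.cnt + 1) (ix n z' k')) = _
        rw [e_el z' k' hv, hup _ (h.vel z' k' hv)]
        exact h.vky z' k' hv
      · show Function.update ky (g.d.cnt + 1) _ (upd g.el _ (g.d.cnt + 1) _) = _
        rw [e_eln]
        exact hue
    · intro z' k' hz' hk' hv
      show upd g.el (ix n z k) (g.d.cnt + 1) (ix n z' k') = 0
      rw [upd_ne]
      · exact h.nvis z' k' hz' hk' (fun hc => hv (Or.inl hc))
      · intro h3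
        exact hv (Or.inr (ix_inj hk' (hsm k hkn) h3))
    · intro u κ ho
      exact ins_mem.2 (Or.inl (h.ots u κ ho))
    · intro u κ ho
      show upd g.kk (g.d.cnt + 1) k (g.ts (tl n u κ)) = 0
      rw [upd_ne _ _ (hne _ (h.ots u κ ho))]
      exact h.okk u κ ho
    · intro u κ ho
      show Function.update ky (g.d.cnt + 1) (uo n A z k, ko n A z k, k) (g.ts (tl n u κ)) = _
      rw [hup _ (h.ots u κ ho)]
      exact h.oky u κ ho
    · intro u κ ho
      show d'.fl (g.ts (tl n u κ)) ≠ 0
      rw [hfl1 _ (h.ots u κ ho)]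
      exact h.ofl u κ ho
    · intro u κ ho
      obtain ⟨a1, a2, a3⟩ := h.ohs u κ ho
      refine ⟨ins_mem.2 (Or.inl a1), ?_, ?_⟩
      · show klt (Function.update ky (g.d.cnt + 1) (uo n A z k, ko n A z k, k)
          (g.hs (tl n u κ))) _
        rw [hup _ a1]
        exact a2
      · intro f hf hk
        show f = g.hs (tl n u κ) ∨ klt _ (Function.update ky (g.d.cnt + 1)
          (uo n A z k, ko n A z k, k) (g.hs (tl n u κ)))
        rw [hup _ a1]
        rcases ins_mem.1 hf with h3 | ⟨h3, -⟩
        · rw [hup f h3] at hk ⊢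
          exact a3 f h3 hk
        · right
          rw [h3, hue] at hk ⊢
          have h4 : klt (ky (g.ts (tl n (uo n A z k) (ko n A z k)))) (u, κ, 0) := by
            rw [hs3]
            unfold klt at hk ⊢
            dsimp only at hk ⊢
            omega
          have h6 : klt (uo n A z k, ko n A z k, k) (uo n A z k, ko n A z k, n + 1) := by
            right
            refine ⟨rfl, Or.inr ⟨rfl, ?_⟩⟩
            show k < n + 1
            omega
          rcases a3 _ hs1 h4 with h5 | h5
          · rw [← h5, hs3]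
            exact h6
          · rw [hs3] at h5
            exact klt_trans h6 h5
    · intro f hf
      rcases ins_mem.1 hf with h3 | ⟨h3, -⟩
      · rcases h.all f h3 with h4 | ⟨z', k', hv, h4⟩ | ⟨u, κ, ho, h4⟩
        · exact Or.inl h4
        · refine Or.inr (Or.inl ⟨z', k', Or.inl hv, ?_⟩)
          show f = upd g.el (ix n z k) (g.d.cnt + 1) (ix n z' k')
          rw [e_el z' k' hv]
          exact h4
        · exact Or.inr (Or.inr ⟨u, κ, ho, h4⟩)
      · refine Or.inr (Or.inl ⟨z, k, Or.inr ⟨rfl, rfl⟩, ?_⟩)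
        show f = upd g.el (ix n z k) (g.d.cnt + 1) (ix n z k)
        rw [e_eln]
        exact h3
    · rintro z' k' (hv | ⟨rfl, rfl⟩)
      · show d'.fl (upd g.el (ix n z k) (g.d.cnt + 1) (ix n z' k')) ≠ 0 ↔ R z' k'
        rw [e_el z' k' hv, hfl1 _ (h.vel z' k' hv)]
        exact h.mark z' k' hv
      · show d'.fl (upd g.el _ (g.d.cnt + 1) _) ≠ 0 ↔ R _ _
        rw [e_eln, hfl0]
        constructor
        · intro h3
          exact absurd rfl h3
        · intro h3
          exact absurd (h.rv _ _ h3) hV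
    · show Lnk g.nm g.pm ((insAfter l y (g.d.cnt + 1)).filter (fun e => decide (d'.fl e ≠ 0)))
      have h3 : (insAfter l y (g.d.cnt + 1)).filter (fun e => decide (d'.fl e ≠ 0)) =
          l.filter (fun e => decide (g.d.fl e ≠ 0)) := by
        have h4 : (insAfter l y (g.d.cnt + 1)).filter (fun e => decide (d'.fl e ≠ 0)) =
            l.filter (fun e => decide (d'.fl e ≠ 0)) := by
          rw [hins]
          conv_rhs => rw [hl]
          rw [List.filter_append, List.filter_append, List.filter_cons, List.filter_cons,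
            List.filter_cons]
          have h5 : decide (d'.fl (g.d.cnt + 1) ≠ 0) = false := by
            rw [hfl0]
            simp
          rw [h5]
          simp
        rw [h4]
        apply List.filter_congr
        intro f hf
        rw [hfl1 f hf]
      rw [h3]
      exact h.nmpm
    · show (insAfter l y (g.d.cnt + 1)).getLast? = some g.last
      have h3 := h.last
      have h4 : l2 ≠ [] := List.ne_nil_of_mem hs2
      rw [hl, show l1 ++ y :: l2 = (l1 ++ [y]) ++ l2 by simp,
        List.getLast?_append_of_ne_nil _ h4] at h3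
      rw [hins, show l1 ++ y :: (g.d.cnt + 1) :: l2 = (l1 ++ [y, g.d.cnt + 1]) ++ l2 by simp,
        List.getLast?_append_of_ne_nil _ h4]
      exact h3
    · intro f hf
      show upd g.kk (g.d.cnt + 1) k f = 0
      have hf' : d'.cnt < f := hf
      rw [upd_ne _ _ (by omega)]
      exact h.frkk f (by omega)
  · show g.d.cnt + 2 * g.d.fc + t ≤ d'.cnt + 2 * d'.fc
    omega

end ST2
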