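import Pool.Agent.helper32.ST.GBas

/-!
# ST2-GVisT : inserting a locus, tree invariant

All flagged elements of the new list are flagged elements of l (e is unflagged), their keys are
unchanged (e not in l), nd, pm, t are unchanged, el is unchanged at R loci (they are in V, and ix z k is not
the index of a V locus: ix_inj; indices of V loci have size < (n+1)^2 by vcan, mx_le).  pm f of a flagged f in l is in l
(pm_spec of the old LI), so SameO is unchanged.
-/

namespace ST2

variable {n : ℕ} {A : ℕ → ℕ} {V R O : ℕ → ℕ → Prop} {g : G} {l : List ℕ}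
  {ky : ℕ → ℕ × ℕ × ℕ}

theorem visit_TI (h : LI n A V R O g l ky) (hT : TI n A R O g l ky) {z k y t : ℕ} {g' : G}
    (hk : k < (n + 1) * (n + 1)) (hV : ¬ V z k) (hg : VisitR n g z k y g' t)
    (he : g.d.cnt + 1 ∉ l) (hf : ∀ f ∈ l, g'.d.fl f = g.d.fl f) (h0 : g'.d.fl (g.d.cnt + 1) = 0)
    (K : ℕ × ℕ × ℕ) :
    TI n A R O g' (insAfter l y (g.d.cnt + 1)) (Function.update ky (g.d.cnt + 1) K) := by
  obtain ⟨d', hI, rfl⟩ := hg
  have hf' : ∀ f ∈ l, d'.fl f = g.d.fl f := hf
  have h0' : d'.fl (g.d.cnt + 1) = 0 := h0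
  have hky : ∀ e ∈ l, Function.update ky (g.d.cnt + 1) K e = ky e := by
    intro e h1
    apply Function.update_of_ne
    intro h2
    rw [h2] at h1
    exact he h1
  have hmem : ∀ e, e ∈ insAfter l y (g.d.cnt + 1) → d'.fl e ≠ 0 → e ∈ l ∧ g.d.fl e ≠ 0 := by
    intro e h1 h2
    rcases ins_mem.1 h1 with h3 | ⟨h3, _⟩
    · refine ⟨h3, ?_⟩
      rw [← hf' e h3]
      exact h2
    · rw [h3] at h2
      exact absurd h0' h2
  have hel : ∀ z' k', R z' k' →
      upd g.el (ix n z k) (g.d.cnt + 1) (ix n z' k') = g.el (ix n z' k') := by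
    intro z' k' hR
    have hV' := h.rv z' k' hR
    obtain ⟨_, _, h3, _⟩ := h.vcan z' k' hV'
    apply upd_ne
    intro h4
    have h5 : k' < (n + 1) * (n + 1) := by
      have h6 : mx n z' ≤ z' % (n + 1) := min_le_right _ _
      have h7 : z' % (n + 1) < n + 1 := Nat.mod_lt _ (Nat.succ_pos n)
      have h8 : n + 1 ≤ (n + 1) * (n + 1) := Nat.le_mul_of_pos_left _ (Nat.succ_pos n)
      omega
    obtain ⟨h6, h7⟩ := ix_inj h5 hk h4
    rw [h6, h7] at hV'
    exact hV hV'
  have hhd : ∀ u κ, O u κ →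
      hd n A { g with d := d', el := upd g.el (ix n z k) (g.d.cnt + 1),
                      kz := upd g.kz (g.d.cnt + 1) z, kk := upd g.kk (g.d.cnt + 1) k } u κ =
        hd n A g u κ := by
    intro u κ hO
    unfold hd
    by_cases h1 : κ ≤ 1
    · rw [if_pos h1, if_pos h1]
    · rw [if_neg h1, if_neg h1]
      exact congrArg g.nd (hel _ _ (hT.oR u κ hO (by omega)))
  refine
    { rep := hT.rep
      inj := ?_
      rng := ?_
      sur := ?_
      szr := ?_
      por := ?_
      szo := hT.szo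
      poo := hT.poo
      oR := hT.oR
      par1 := ?_
      par2 := ?_ }
  · intro e h1 f h2 h3 h4 h5 h6 h7
    obtain ⟨a1, a2⟩ := hmem e h1 h5
    obtain ⟨b1, b2⟩ := hmem f h2 h6
    exact hT.inj e a1 f b1 h3 h4 a2 b2 h7
  · intro e h1 h2 h3
    obtain ⟨a1, a2⟩ := hmem e h1 h3
    exact hT.rng e a1 h2 a2
  · intro v h1 h2
    obtain ⟨e, a1, a2, a3, a4⟩ := hT.sur v h1 h2
    refine ⟨e, ins_mem.2 (Or.inl a1), a2, ?_, a4⟩
    change d'.fl e ≠ 0
    rw [hf' e a1]
    exact a3
  · intro z' k' hR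
    change g.t.sz (g.nd (upd g.el (ix n z k) (g.d.cnt + 1) (ix n z' k'))) = k'
    rw [hel z' k' hR]
    exact hT.szr z' k' hR
  · intro z' k' hR
    change g.t.po (g.nd (upd g.el (ix n z k) (g.d.cnt + 1) (ix n z' k'))) = _
    rw [hel z' k' hR]
    exact hT.por z' k' hR
  · intro e h1 h2 h3 h4
    obtain ⟨a1, a2⟩ := hmem e h1 h3
    have a3 := (pm_spec h a1 h2 a2).1
    change SameO (Function.update ky (g.d.cnt + 1) K) (g.pm e) e at h4
    unfold SameO at h4
    rw [hky e a1, hky (g.pm e) a3] at h4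
    exact hT.par1 e a1 h2 a2 h4
  · intro e h1 h2 h3 h4
    obtain ⟨a1, a2⟩ := hmem e h1 h3
    have a3 := (pm_spec h a1 h2 a2).1
    change ¬ SameO (Function.update ky (g.d.cnt + 1) K) (g.pm e) e at h4
    unfold SameO at h4
    rw [hky e a1, hky (g.pm e) a3] at h4
    rw [hky e a1, hhd _ _ (owner_key h a1 h2).1]
    exact hT.par2 e a1 h2 a2 h4

end ST2
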