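import Pool.Agent.helper32.ST.GVisL
import Pool.Agent.helper32.ST.GVisT

/-!
# ST2-GVisit : inserting a locus if necessary

If V z k: el <> 0 (li_pos), EVisR with g' = g, and addp V z k = V as predicate.  If not V z k: el = 0 (nvis),
visit_LI, visit_TI, ins_length.
(proofs: helper41)
-/

namespace ST2

variable {n : ℕ} {A : ℕ → ℕ} {V R O : ℕ → ℕ → Prop} {g : G} {l : List ℕ}
  {ky : ℕ → ℕ × ℕ × ℕ}

theorem evis_GI (h : LI n A V R O g l ky) (hT : TI n A R O g l ky) {z k y : ℕ} (hz : Cell n z)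
    (h1 : 1 ≤ k) (h2 : k ≤ mx n z) (hN : N n A k z = z) (hO : O (uo n A z k) (ko n A z k))
    (hp : ¬ V z k → PosAft l ky y (uo n A z k, ko n A z k, k)) :
    ∃ g' t m', EVisR n g z k y g' t ∧ GI n A (addp V z k) R O g' m' ∧ g.w + t ≤ g'.w ∧
      m' ≤ l.length + 1 := by
  have hk : k < (n + 1) * (n + 1) := by
    have e1 : mx n z ≤ z % (n + 1) := min_le_right _ _
    have e2 : z % (n + 1) < n + 1 := Nat.mod_lt _ (Nat.succ_pos n)
    have e3 : n + 1 ≤ (n + 1) * (n + 1) := Nat.le_mul_of_pos_left _ (Nat.succ_pos n)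
    omega
  by_cases hV : V z k
  · have he : addp V z k = V := by
      funext z' k'
      apply propext
      constructor
      · rintro (h3 | ⟨rfl, rfl⟩)
        · exact h3
        · exact hV
      · exact Or.inl
    have h3 := (li_pos h (h.vel z k hV)).1
    refine ⟨g, 0, l.length, Or.inl ⟨by omega, rfl, rfl⟩, ?_, le_rfl, Nat.le_succ _⟩
    rw [he]
    exact ⟨l, ky, h, hT, rfl⟩
  · obtain ⟨g', t, hg, hLI, hw, hel, hfl, hf0⟩ := visit_LI h hz h1 h2 hN hV hO (hp hV)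
    refine ⟨g', t, l.length + 1, Or.inr ⟨h.nvis z k hz.2 hk hV, hg⟩, ?_, hw, le_rfl⟩
    exact ⟨_, _, hLI, visit_TI h hT hk hV hg hel hfl hf0 _, ins_length (li_nodup h) (hp hV).1⟩

end ST2
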