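import Pool.Agent.helper32.ST.HCell
import Pool.Agent.helper32.ST.DCnt

/-!
# ST2-HAll : all cells

G.init: d = D.init, everything 0, last = 1, t = TR.init.  init_SI: l = [1], ky = fun _ => (0,0,0); VS0 0, RS0 0, OW0 0
are empty; DInit, trep_init, init_NI.
all_ex: define the sequences by recursion with choice (a state (x, g, m, t) with SI; if c is a cell use cell_ex,
otherwise keep (noncell_SI)).  It is easiest to prove by induction on M <= (n+1)^2: there are xs, gs, ms, ts on {0..M} with the
properties (extend the functions at M+1), or to use `Nat.rec` with a subtype.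
Sum: w (gs M) >= sum of (ts c - Ic c) ..: sum ts + w 0 <= w (gs M) + sum Ic, w = cnt + 2 fc <= 3 cnt + 2 <= 3 (2 m) + 2
(cnt_le, fc_le), m <= 1 + 2 sum Ic.  sum over cells of Ic <= 6 * number of cells: sum_shift for d = n+2, n+1, 1 gives
sum L(c-d) <= sum L c, and Ic + 3 L c = ... + 6 (no truncation since L c <= L(c-d) + 1).
Number of cells <= (n+1)^2.  So sum ts <= sum Ic + 6 m + 2 <= 13 sum Ic + 8 <= 78 (n+1)^2 + 8 <= 86 (n+1)^2.
(proofs: helper41)
-/

namespace ST2

variable {n : ℕ} {A : ℕ → ℕ}

def G.init : G := ⟨D.init, fun _ => 0, fun _ => 0, fun _ => 0, fun _ => 0, fun _ => 0, fun _ => 0,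
  fun _ => 0, fun _ => 0, 1, TR.init⟩

theorem init_SI : SI n A 0 X.init G.init 1 := by
  have hV : ∀ z κ, ¬ VS0 n A 0 z κ := by
    rintro z κ ⟨-, y, hy, -⟩
    omega
  have hR : ∀ z κ, ¬ RS0 n A 0 z κ := by
    rintro z κ ⟨-, y, -, -, -, hy, -⟩
    omega
  have hO : ∀ u κ, ¬ OW0 n A 0 u κ := by
    rintro u κ ⟨hu, -⟩
    omega
  have hne : ∀ e ∈ [1], e ≠ 1 → False := fun e he h1 => h1 (List.mem_singleton.1 he)
  refine ⟨init_NI.1, init_NI.2, [1], fun _ => (0, 0, 0), ?_, ?_, rfl⟩
  · exact
      { rep := init_rep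
        srt := List.pairwise_singleton _ _
        one := List.mem_singleton.2 rfl
        one_ky := rfl
        one_kk := rfl
        one_fl := by
          show upd (fun _ => 0) 1 1 1 ≠ 0
          rw [upd_same]
          exact one_ne_zero
        vcan := fun z k h => absurd h (hV z k)
        rv := fun z k h => absurd h (hR z k)
        ocr := fun u κ h => absurd h (hO u κ)
        opos := fun u κ h => absurd h (hO u κ)
        vo := fun z k h => absurd h (hV z k)
        vel := fun z k h => absurd h (hV z k)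
        vkz := fun z k h => absurd h (hV z k)
        vkk := fun z k h => absurd h (hV z k)
        vky := fun z k h => absurd h (hV z k)
        nvis := fun _ _ _ _ _ => rfl
        ots := fun u κ h => absurd h (hO u κ)
        okk := fun u κ h => absurd h (hO u κ)
        oky := fun u κ h => absurd h (hO u κ)
        ofl := fun u κ h => absurd h (hO u κ)
        ohs := fun u κ h => absurd h (hO u κ)
        all := fun e he => Or.inl (List.mem_singleton.1 he)
        mark := fun z k h => absurd h (hV z k)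
        nmpm := by
          have h1 : ([1].filter (fun e => decide (G.init.d.fl e ≠ 0))) = [1] := by
            rw [List.filter_eq_self]
            intro e he
            rw [List.mem_singleton.1 he]
            exact decide_eq_true (by
              show upd (fun _ => 0) 1 1 1 ≠ 0
              rw [upd_same]
              exact one_ne_zero)
          rw [h1]
          rfl
        last := rfl
        frkk := fun _ _ => rfl }
  · exact
      { rep := ⟨_, trep_init⟩
        inj := fun e he _ _ h1 => (hne e he h1).elim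
        rng := fun e he h1 => (hne e he h1).elim
        sur := fun v h1 h2 => by
          have h3 : v ≤ 1 := h2
          omega
        szr := fun z k h => absurd h (hR z k)
        por := fun z k h => absurd h (hR z k)
        szo := fun u κ h => absurd h (hO u κ)
        poo := fun u κ h => absurd h (hO u κ)
        oR := fun u κ h => absurd h (hO u κ)
        par1 := fun e he h1 => (hne e he h1).elim
        par2 := fun e he h1 => (hne e he h1).elim }

theorem Ic_sum :
    ∑ c ∈ (Finset.range ((n + 1) * (n + 1))).filter (fun c => 1 ≤ mx n c), Ic n A c ≤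
      6 * ((n + 1) * (n + 1)) := by
  classical
  have hf : (Finset.range ((n + 1) * (n + 1))).filter (fun c => 1 ≤ mx n c) =
      (Finset.range ((n + 1) * (n + 1))).filter (fun c => Cell n c) := by
    refine Finset.filter_congr fun c hc => ?_
    exact ⟨fun h => ⟨h, Finset.mem_range.1 hc⟩, fun h => h.1⟩
  rw [hf]
  have e1 := sum_shift (n := n) (A := A) (n + 2) le_rfl
  have e2 := sum_shift (n := n) (A := A) (n + 1) (by omega)
  have e3 := sum_shift (n := n) (A := A) 1 (by omega)
  have e4 : ((Finset.range ((n + 1) * (n + 1))).filter (fun c => Cell n c)).card ≤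
      (n + 1) * (n + 1) := by
    refine (Finset.card_filter_le _ _).trans ?_
    rw [Finset.card_range]
  have e5 : ∑ c ∈ (Finset.range ((n + 1) * (n + 1))).filter (fun c => Cell n c),
      (Ic n A c + 3 * L n A c) =
      ∑ c ∈ (Finset.range ((n + 1) * (n + 1))).filter (fun c => Cell n c),
      (L n A (c - (n + 2)) + L n A (c - (n + 1)) + L n A (c - 1) + 6) := by
    refine Finset.sum_congr rfl fun c _ => ?_
    have h1 := L_diag (n := n) (A := A) c
    have h2 := L_up (n := n) (A := A) c
    have h3 := L_left (n := n) (A := A) c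
    unfold Ic
    omega
  rw [Finset.sum_add_distrib, ← Finset.mul_sum, Finset.sum_add_distrib, Finset.sum_add_distrib,
    Finset.sum_add_distrib, Finset.sum_const, smul_eq_mul] at e5
  linarith

/-- the cost of the code c -/
noncomputable def HAll_J (n : ℕ) (A : ℕ → ℕ) (c : ℕ) : ℕ := if 1 ≤ mx n c then Ic n A c else 0

/-- one code -/
theorem HAll_step (hs : Sent n A) {c : ℕ} (hc : c < (n + 1) * (n + 1)) {x : X} {g : G} {m : ℕ}
    (h : SI n A c x g m) :
    ∃ x' g' t m', (Cell n c → CellR n x g c (A c) x' g' t) ∧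
      (¬ Cell n c → x' = x ∧ g' = g ∧ t = 0) ∧ SI n A (c + 1) x' g' m' ∧
      g.w + t ≤ g'.w + HAll_J n A c ∧ m' ≤ m + 2 * HAll_J n A c := by
  by_cases hcell : Cell n c
  · obtain ⟨x', g', t, m', h1, h2, h3, h4⟩ := cell_ex hs hcell h
    have hJ : HAll_J n A c = Ic n A c := if_pos hcell.1
    refine ⟨x', g', t, m', fun _ => h1, fun h5 => absurd hcell h5, h2, ?_, ?_⟩
    · rw [hJ]
      exact h3
    · rw [hJ]
      exact h4
  · exact ⟨x, g, 0, m, fun h5 => absurd h5 hcell, fun _ => ⟨rfl, rfl, rfl⟩,
      noncell_SI hcell hc h, Nat.le_add_right _ _, Nat.le_add_right _ _⟩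

/-- the first M codes -/
theorem HAll_seq (hs : Sent n A) (M : ℕ) (hM : M ≤ (n + 1) * (n + 1)) :
    ∃ (xs : ℕ → X) (gs : ℕ → G) (ts ms : ℕ → ℕ), xs 0 = X.init ∧ gs 0 = G.init ∧
      (∀ c < M,
        (Cell n c → CellR n (xs c) (gs c) c (A c) (xs (c + 1)) (gs (c + 1)) (ts c)) ∧
        (¬ Cell n c → xs (c + 1) = xs c ∧ gs (c + 1) = gs c ∧ ts c = 0)) ∧
      (∀ c ≤ M, SI n A c (xs c) (gs c) (ms c)) ∧
      G.init.w + ∑ c ∈ Finset.range M, ts c ≤ (gs M).w + ∑ c ∈ Finset.range M, HAll_J n A c ∧
      ms M ≤ 1 + 2 * ∑ c ∈ Finset.range M, HAll_J n A c := by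
  induction M with
  | zero =>
    refine ⟨fun _ => X.init, fun _ => G.init, fun _ => 0, fun _ => 1, rfl, rfl,
      fun c hc => absurd hc (Nat.not_lt_zero c), ?_, ?_, ?_⟩
    · intro c hc
      rw [Nat.le_zero.1 hc]
      exact init_SI
    · simp
    · simp
  | succ M ih =>
    obtain ⟨xs, gs, ts, ms, hx0, hg0, hst, hSI, hw, hm⟩ := ih (Nat.le_of_succ_le hM)
    obtain ⟨x', g', t, m', h1, h2, h3, h4, h5⟩ := HAll_step hs (Nat.lt_of_succ_le hM) (hSI M le_rfl)
    refine ⟨fun c => if c ≤ M then xs c else x', fun c => if c ≤ M then gs c else g',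
      fun c => if c < M then ts c else t, fun c => if c ≤ M then ms c else m', ?_, ?_, ?_, ?_, ?_,
      ?_⟩
    · show (if 0 ≤ M then xs 0 else x') = X.init
      rw [if_pos (Nat.zero_le M), hx0]
    · show (if 0 ≤ M then gs 0 else g') = G.init
      rw [if_pos (Nat.zero_le M), hg0]
    · intro c hc
      by_cases hcM : c < M
      · simp only [if_pos hcM, if_pos hcM.le, if_pos (show c + 1 ≤ M from hcM)]
        exact hst c hcM
      · have he : c = M := by omega
        subst he
        simp only [if_neg hcM, if_pos (le_refl c), if_neg (show ¬ c + 1 ≤ c by omega)]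
        exact ⟨h1, h2⟩
    · intro c hc
      by_cases hcM : c ≤ M
      · simp only [if_pos hcM]
        exact hSI c hcM
      · have he : c = M + 1 := by omega
        subst he
        simp only [if_neg hcM]
        exact h3
    · have e1 : ∑ c ∈ Finset.range (M + 1), (if c < M then ts c else t) =
          ∑ c ∈ Finset.range M, ts c + t := by
        rw [Finset.sum_range_succ, if_neg (lt_irrefl M)]
        congr 1
        refine Finset.sum_congr rfl fun c hc => ?_
        rw [if_pos (Finset.mem_range.1 hc)]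
      have e2 : (if M + 1 ≤ M then gs (M + 1) else g') = g' := if_neg (by omega)
      show G.init.w + ∑ c ∈ Finset.range (M + 1), (if c < M then ts c else t) ≤
        (if M + 1 ≤ M then gs (M + 1) else g').w + ∑ c ∈ Finset.range (M + 1), HAll_J n A c
      rw [e1, e2, Finset.sum_range_succ]
      omega
    · have e2 : (if M + 1 ≤ M then ms (M + 1) else m') = m' := if_neg (by omega)
      show (if M + 1 ≤ M then ms (M + 1) else m') ≤
        1 + 2 * ∑ c ∈ Finset.range (M + 1), HAll_J n A c
      rw [e2, Finset.sum_range_succ]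
      omega

theorem all_ex (hs : Sent n A) :
    ∃ (xs : ℕ → X) (gs : ℕ → G) (ts ms : ℕ → ℕ), xs 0 = X.init ∧ gs 0 = G.init ∧
      (∀ c < (n + 1) * (n + 1),
        (Cell n c → CellR n (xs c) (gs c) c (A c) (xs (c + 1)) (gs (c + 1)) (ts c)) ∧
        (¬ Cell n c → xs (c + 1) = xs c ∧ gs (c + 1) = gs c ∧ ts c = 0)) ∧
      (∀ c ≤ (n + 1) * (n + 1), SI n A c (xs c) (gs c) (ms c)) ∧
      ∑ c ∈ Finset.range ((n + 1) * (n + 1)), ts c ≤ 86 * ((n + 1) * (n + 1)) := by
  obtain ⟨xs, gs, ts, ms, hx0, hg0, hst, hSI, hw, hm⟩ := HAll_seq hs ((n + 1) * (n + 1)) le_rfl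
  refine ⟨xs, gs, ts, ms, hx0, hg0, hst, hSI, ?_⟩
  have hJ : ∑ c ∈ Finset.range ((n + 1) * (n + 1)), HAll_J n A c ≤ 6 * ((n + 1) * (n + 1)) := by
    refine le_trans (le_of_eq ?_) (Ic_sum (n := n) (A := A))
    rw [Finset.sum_filter]
    rfl
  obtain ⟨l, ky, hLI, -, hlen⟩ := (hSI _ le_rfl).2.2
  have h1 := cnt_le hLI.rep
  rw [hlen] at h1
  have h2 := fc_le (gs ((n + 1) * (n + 1))).d
  have h3 : (gs ((n + 1) * (n + 1))).w = (gs ((n + 1) * (n + 1))).d.cnt +
      2 * (gs ((n + 1) * (n + 1))).d.fc := rfl
  have h4 : 1 ≤ (n + 1) * (n + 1) := Nat.mul_pos (Nat.succ_pos n) (Nat.succ_pos n)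
  generalize (∑ c ∈ Finset.range ((n + 1) * (n + 1)), HAll_J n A c) = S at *
  generalize (∑ c ∈ Finset.range ((n + 1) * (n + 1)), ts c) = T at *
  rw [h3] at hw
  generalize (gs ((n + 1) * (n + 1))).d.cnt = a at *
  generalize (gs ((n + 1) * (n + 1))).d.fc = b at *
  generalize ms ((n + 1) * (n + 1)) = m at *
  generalize (n + 1) * (n + 1) = B at *
  omega

end ST2
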