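import Pool.Agent.helper32.ST.HNam

/-!
# ST2-HPre : descending the names before the loop

pre_ex: by induction on l - k: while k < l: dn gives the name of size l - 1 (dn_spec; N l y <= y < c).
If the final l is 0 nothing is claimed about the name.  For l = 1 -> 0: no claim needed.
Precisely: from (l, m) with l <= mx y, (1 <= l -> m = N l y), get (min l k, m'), in l - min l k steps.
-/

namespace ST2

variable {n : ℕ} {A : ℕ → ℕ} {O : ℕ → ℕ → Prop} {x : X}

theorem pre_ex {c k y : ℕ} (h : NI n A c O x) (hc : y < c) : ∀ l m, l ≤ mx n y →
    (1 ≤ l → m = N n A l y) → ∃ m', PreR x k l m (min l k) m' (l - min l k) ∧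
      (1 ≤ min l k → m' = N n A (min l k) y) := by
  intro l
  induction l with
  | zero =>
    intro m _ _
    refine ⟨m, ?_, ?_⟩
    · rw [Nat.zero_min]
      exact PreR.stop 0 m (by omega)
    · intro h1
      rw [Nat.zero_min] at h1
      omega
  | succ l ih =>
    intro m hl hm
    by_cases hk : k < l + 1
    · have h1 : 1 ≤ l → dn x (l + 1) m = N n A l y := by
        intro h2
        have h3 := hm (by omega)
        have h4 : N n A (l + 1) y ≤ y := N_le (A := A) hl
        have h5 := dn_spec h (l := l + 1) (y := y) (by omega) hl (by omega)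
        rw [h3, h5, Nat.add_sub_cancel]
      obtain ⟨m', hp, hm'⟩ := ih (dn x (l + 1) m) (by omega) h1
      refine ⟨m', ?_, ?_⟩
      · have e1 : min (l + 1) k = min l k := by omega
        have e2 : l + 1 - min (l + 1) k = (l - min l k) + 1 := by omega
        rw [e2, e1]
        exact PreR.go (l + 1) m (min l k) m' (l - min l k) hk hp
      · have e1 : min (l + 1) k = min l k := by omega
        rw [e1]
        exact hm'
    · refine ⟨m, ?_, ?_⟩
      · have e1 : min (l + 1) k = l + 1 := by omega
        rw [e1, Nat.sub_self]
        exact PreR.stop (l + 1) m hk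
      · have e1 : min (l + 1) k = l + 1 := by omega
        rw [e1]
        exact hm

end ST2
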