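import Pool.Agent.helper32.ST.HLoop
import Pool.Agent.helper32.ST.HPre
import Pool.Agent.helper32.ST.ASum

/-!
# ST2-HCell : one cell

Start: x0 = x.letter c (A c): letter_FI, letter_NI; a = N 1 c.  VS c (L x) = VS0 c etc. (vs_start, rs_start,
ow_start).  pre_ex for TR and BL with k = L x (Lm (c-(n+2)) = L x: lm; L TR <= mx TR).  QI for the start
registers: kx, n1 (om), l2, n2, l3, n3 (pre_ex), lc: L_diag.
loop_ex.  End:
* d <> 0: EndR first case.  NI (c+1): lm: Lm c = k'+1 = L c; om: Om c = d; dictionary: OW0 (c+1) = OW c k' (ow_end).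
* d = 0, L c = 0 (iff a = c, N_one): NewLeafR g 1 c (newleaf_GI with u = c, κ = 1: tl n c 1 = c, hd .. 1 = 1, Cr n A c 1,
  hO: OW c 0: u' < c or κ' >= 2); sets by vs_end0, rs_end0, ow_end0.  NI: OW0 (c+1) w (k'+1) with k' >= 1 iff
  OW c 0.
* d = 0, L c = 1, a <> c: (a, 1): N 1 c = a; evis_GI with pos_new (owner (a,1): Cr n A a 1, a < c); sets by vs_end
  with k = 0 (VS0 (c+1) = addp (VS c 0) a 1).
Costs: s2 + s3 <= (L TR - min) + (L BL - min), min >= L c - 1 (L_up, L_left, L_diag), loop: q.k - k' + 1 with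
k' + 1 >= L c.  Total: t <= (g'.w - g.w) + L x + L TR + L BL + 6 - 3 L c, lengths similarly.
(`Ic` is the bound; natural subtraction is at the end and L c <= L x + 1 etc. make it nonnegative.)
-/

namespace ST2

variable {n : ℕ} {A : ℕ → ℕ}

/-- number of iterations at the cell c -/
noncomputable def Ic (n : ℕ) (A : ℕ → ℕ) (c : ℕ) : ℕ :=
  L n A (c - (n + 2)) + L n A (c - (n + 1)) + L n A (c - 1) + 6 - 3 * L n A c

/-- the invariant before the code c -/
def SI (n : ℕ) (A : ℕ → ℕ) (c : ℕ) (x : X) (g : G) (m : ℕ) : Prop :=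
  NI n A c (OW0 n A c) x ∧ FI n A c x ∧
    GI n A (VS0 n A c) (RS0 n A c) (OW0 n A c) g m

private theorem HCell_NI_congr {c : ℕ} {O O' : ℕ → ℕ → Prop} {x : X}
    (hO : ∀ u κ, O' u κ ↔ O u κ) (h : NI n A c O x) : NI n A c O' x := by
  have : O' = O := by
    funext u κ
    exact propext (hO u κ)
  rw [this]
  exact h

private theorem HCell_GI_congr {V V' R R' O O' : ℕ → ℕ → Prop} {g : G} {m : ℕ}
    (hV : ∀ u κ, V' u κ ↔ V u κ) (hR : ∀ u κ, R' u κ ↔ R u κ) (hO : ∀ u κ, O' u κ ↔ O u κ)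
    (h : GI n A V R O g m) : GI n A V' R' O' g m := by
  have h1 : V' = V := by
    funext u κ
    exact propext (hV u κ)
  have h2 : R' = R := by
    funext u κ
    exact propext (hR u κ)
  have h3 : O' = O := by
    funext u κ
    exact propext (hO u κ)
  rw [h1, h2, h3]
  exact h

/-- the end of a cell: the name arrays, if the size is positive -/
private theorem HCell_end_pos {c l d : ℕ} {O O' : ℕ → ℕ → Prop} {x : X} (h : NI n A c O x)
    (hl : L n A c = l) (hd : N n A l c = d)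
    (hO : ∀ u κ, O' u κ ↔ O u κ) :
    NI n A (c + 1) O' { x with Lm := upd x.Lm c l, Om := upd x.Om c d } := by
  have h := HCell_NI_congr hO h
  refine ⟨?_, ?_, ?_, h.dms, h.dmc⟩
  · intro z hz
    change upd x.Lm c l z = L n A z
    by_cases hzc : z = c
    · rw [hzc, upd_same, hl]
    · rw [upd_ne _ _ hzc]
      exact h.lm z (by omega)
  · intro z hz hL
    change upd x.Om c d z = N n A (L n A z) z
    by_cases hzc : z = c
    · rw [hzc, upd_same, hl, hd]
    · rw [upd_ne _ _ hzc]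
      exact h.om z (by omega) hL
  · intro z hz
    change upd x.Lm c l z = 0
    rw [upd_ne _ _ (by omega)]
    exact h.lz z (by omega)

/-- the end of a cell: the name arrays, if the size is 0 -/
private theorem HCell_end_zero {c : ℕ} {O O' : ℕ → ℕ → Prop} {x : X} (h : NI n A c O x)
    (hl : L n A c = 0)
    (hO : ∀ u κ, O' u κ ↔ O u κ ∨ (u = c ∧ κ = 1)) :
    NI n A (c + 1) O' { x with Lm := upd x.Lm c 0 } := by
  refine ⟨?_, ?_, ?_, ?_, ?_⟩
  · intro z hz
    change upd x.Lm c 0 z = L n A z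
    by_cases hzc : z = c
    · rw [hzc, upd_same, hl]
    · rw [upd_ne _ _ hzc]
      exact h.lm z (by omega)
  · intro z hz hL
    change x.Om z = N n A (L n A z) z
    by_cases hzc : z = c
    · rw [hzc] at hL
      omega
    · exact h.om z (by omega) hL
  · intro z hz
    change upd x.Lm c 0 z = 0
    rw [upd_ne _ _ (by omega)]
    exact h.lz z (by omega)
  · intro k' n1 t2 t3 a h1 h2 h3 h4 h5 h6 h7
    obtain ⟨w, hw, hOw, hr⟩ := h.dms k' n1 t2 t3 a h1 h2 h3 h4 h5 h6 h7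
    exact ⟨w, hw, (hO _ _).2 (Or.inl hOw), hr⟩
  · intro w k' h1 h2
    rcases (hO _ _).1 h2 with h3 | ⟨_, h3⟩
    · exact h.dmc w k' h1 h3
    · omega

/-- the end of a cell after the loop -/
private theorem HCell_end {c m k' d : ℕ} (hc : Cell n c) {x : X} {g : G}
    (hF : FI n A (c + 1) x) (hN : NI n A c (OW n A c k') x)
    (h : (d ≠ 0 ∧ L n A c = k' + 1 ∧ N n A (k' + 1) c = d ∧
          GI n A (VS0 n A (c + 1)) (RS0 n A (c + 1)) (OW0 n A (c + 1)) g m) ∨
       (d = 0 ∧ k' = 0 ∧ L n A c ≤ 1 ∧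
          GI n A (VS n A c 0) (RS n A c 0) (OW n A c 0) g m)) :
    ∃ x' g' t m', EndR n c (N n A 1 c) k' d x g x' g' t ∧ SI n A (c + 1) x' g' m' ∧
      g.w + t ≤ g'.w ∧ m' ≤ m + 1 := by
  rcases h with ⟨hd0, hL, hNd, hG⟩ | ⟨hd0, hk, hL, hG⟩
  · refine ⟨{ x with Lm := upd x.Lm c (k' + 1), Om := upd x.Om c d }, g, 0, m,
      Or.inl ⟨hd0, rfl, rfl, rfl⟩, ⟨?_, ⟨hF.am, hF.fm⟩, hG⟩, le_rfl, Nat.le_succ _⟩
    exact HCell_end_pos hN hL hNd (fun u κ => ow_end hc hL)
  · subst hk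
    obtain ⟨hNc, hNle, hN0⟩ := N_one (A := A) hc
    obtain ⟨l, ky, hLI, hTI, hlen⟩ := hG
    rcases Nat.lt_or_ge (L n A c) 1 with h0 | h0
    · have hL0 : L n A c = 0 := by omega
      have hac : N n A 1 c = c := hN0.2 hL0
      obtain ⟨g', t, l', ky', hnl, hLI', hTI', hw, hlen'⟩ :=
        newleaf_GI hLI hTI (u := c) (κ := 1) ⟨hc, by omega, by omega⟩ le_rfl
          (by
            rintro u' κ' (⟨h1, _⟩ | ⟨h1, h2, _⟩)
            · exact Or.inl h1
            · exact Or.inr ⟨h1, by omega⟩)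
          (by intro h2; omega)
      have hhd : hd n A g c 1 = 1 := by
        unfold hd
        rw [if_pos le_rfl]
      have htl : tl n c 1 = c := by
        unfold tl
        omega
      rw [hhd, htl] at hnl
      refine ⟨{ x with Lm := upd x.Lm c 0 }, g', t, m + 1,
        Or.inr (Or.inl ⟨hd0, hac, rfl, hnl⟩), ⟨?_, ⟨hF.am, hF.fm⟩, ?_⟩, hw, le_rfl⟩
      · exact HCell_end_zero hN hL0 (fun u κ => ow_end0 hc hL0)
      · refine HCell_GI_congr (fun z κ => vs_end0 hc hL0) (fun z κ => rs_end0 hc hL0)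
          (fun u κ => ow_end0 hc hL0) ?_
        exact ⟨l', ky', hLI', hTI', by rw [hlen', hlen]⟩
    · have hL1 : L n A c = 0 + 1 := by omega
      have hac : N n A 1 c ≠ c := by
        intro h1
        have := hN0.1 h1
        omega
      have hlt : N n A 1 c < c := lt_of_le_of_ne hNle hac
      have hNN : N n A 1 (N n A 1 c) = N n A 1 c := N_N hc.1
      have hcr : Cr n A (N n A 1 c) 1 := ⟨hNc, L_lt_of_N_eq le_rfl hNc.1 hNN, by omega⟩
      obtain ⟨hko, huo⟩ := ko_cr hcr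
      have hOa : OW n A c 0 (N n A 1 c) 1 := Or.inl ⟨hlt, hcr⟩
      have htl : tl n (N n A 1 c) 1 = N n A 1 c := by
        unfold tl
        omega
      obtain ⟨g', t, m', hev, hG', hw, hm⟩ := evis_GI hLI hTI (z := N n A 1 c) (k := 1)
        (y := g.hs (N n A 1 c)) hNc le_rfl hNc.1 hNN (by rw [hko, huo]; exact hOa)
        (by
          intro hV
          have := (pos_new hLI hOa hV).1
          rwa [htl] at this)
      refine ⟨{ x with Lm := upd x.Lm c 1, Om := upd x.Om c (N n A 1 c) }, g', t, m',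
        Or.inr (Or.inr ⟨hd0, hac, rfl, hev⟩), ⟨?_, ⟨hF.am, hF.fm⟩, ?_⟩, hw, by omega⟩
      · exact HCell_end_pos hN hL1 rfl (fun u κ => ow_end hc hL1)
      · refine HCell_GI_congr (fun z κ => ?_) (fun z κ => rs_end hc hL1)
          (fun u κ => ow_end hc hL1) hG'
        rw [vs_end hc hL1]
        unfold addp
        rw [Nat.zero_add]
        constructor
        · rintro (h1 | ⟨h1, h2⟩)
          · exact Or.inl h1
          · exact Or.inr ⟨h2, h1⟩
        · rintro (h1 | ⟨h1, h2⟩)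
          · exact Or.inl h1
          · exact Or.inr ⟨h2, h1⟩

theorem cell_ex (hs : Sent n A) {c : ℕ} (hc : Cell n c) {x : X} {g : G} {m : ℕ}
    (h : SI n A c x g m) :
    ∃ x' g' t m', CellR n x g c (A c) x' g' t ∧ SI n A (c + 1) x' g' m' ∧
      g.w + t ≤ g'.w + Ic n A c ∧ m' ≤ m + 2 * Ic n A c := by
  obtain ⟨hNI, hFI, hGI⟩ := h
  obtain ⟨hF, ham⟩ := letter_FI hc hFI
  have hN0 : NI n A c (OW0 n A c) (x.letter c (A c)) := letter_NI hNI
  have hge := cell_ge n c hc
  obtain ⟨m2, hp2, hm2⟩ := pre_ex (k := L n A (c - (n + 2))) (y := c - (n + 1)) hN0 (by omega)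
    (L n A (c - (n + 1))) ((x.letter c (A c)).Om (c - (n + 1))) (L_le _)
    (fun h1 => hN0.om _ (by omega) h1)
  obtain ⟨m3, hp3, hm3⟩ := pre_ex (k := L n A (c - (n + 2))) (y := c - 1) hN0 (by omega)
    (L n A (c - 1)) ((x.letter c (A c)).Om (c - 1)) (L_le _)
    (fun h1 => hN0.om _ (by omega) h1)
  have hNk : NI n A c (OW n A c (L n A (c - (n + 2)))) (x.letter c (A c)) :=
    HCell_NI_congr (fun u κ => ow_start) hN0
  have hQ : QI n A c ⟨L n A (c - (n + 2)), (x.letter c (A c)).Om (c - (n + 2)),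
      min (L n A (c - (n + 1))) (L n A (c - (n + 2))), m2,
      min (L n A (c - 1)) (L n A (c - (n + 2))), m3⟩ :=
    ⟨le_rfl, fun h1 => hN0.om _ (by omega) h1, rfl, hm2, rfl, hm3, L_diag c⟩
  have hGk : GI n A (VS n A c (L n A (c - (n + 2)))) (RS n A c (L n A (c - (n + 2))))
      (OW n A c (L n A (c - (n + 2)))) g m :=
    HCell_GI_congr (fun z κ => vs_start hc) (fun z κ => rs_start) (fun u κ => ow_start) hGI
  obtain ⟨x1, g1, k', d, t1, m1, hLoop, hF1, hN1, hk', hw1, hm1, hcase⟩ :=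
    loop_ex hs hc (L n A (c - (n + 2))) _ (x.letter c (A c)) g m rfl hNk hF hQ hGk
  obtain ⟨x', g', t2, m', hEnd, hSI, hw2, hm'⟩ := HCell_end hc hF1 hN1 hcase
  have hlk : L n A c ≤ k' + 1 := by
    rcases hcase with ⟨_, h1, _⟩ | ⟨_, h1, h2, _⟩ <;> omega
  have e1 : (x.letter c (A c)).Lm (c - (n + 2)) = L n A (c - (n + 2)) := hN0.lm _ (by omega)
  have e2 : (x.letter c (A c)).Lm (c - (n + 1)) = L n A (c - (n + 1)) := hN0.lm _ (by omega)
  have e3 : (x.letter c (A c)).Lm (c - 1) = L n A (c - 1) := hN0.lm _ (by omega)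
  have u1 := L_up (n := n) (A := A) c
  have u2 := L_left (n := n) (A := A) c
  have u3 := L_diag (n := n) (A := A) c
  have hp2' := hp2
  have hp3' := hp3
  rw [← e1] at hp2' hp3'
  rw [← e2] at hp2'
  rw [← e3] at hp3'
  refine ⟨x', g', _, m', ⟨x.letter c (A c), N n A 1 c, _, m2, _, _, m3, _, x1, g1, k', d, t1, t2,
    rfl, ham.symm, hp2', hp3', ?_, hEnd, rfl⟩, hSI, ?_, ?_⟩
  · rw [e1, e2, e3]
    exact hLoop
  · simp only at hw1 hk'
    rw [e1, e2, e3]
    unfold Ic
    omega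
  · simp only at hm1 hk'
    unfold Ic
    omega

/-- codes which are not cells -/
theorem noncell_SI {c : ℕ} (hc : ¬ Cell n c) (hc' : c < (n + 1) * (n + 1)) {x : X} {g : G}
    {m : ℕ} (h : SI n A c x g m) : SI n A (c + 1) x g m := by
  obtain ⟨hNI, hFI, hGI⟩ := h
  obtain ⟨n1, n2, n3⟩ := noncell_end (A := A) hc hc'
  have hmx : mx n c = 0 := by
    by_contra h1
    exact hc ⟨by omega, hc'⟩
  have hL : L n A c = 0 := L_zero hmx
  have hN := HCell_NI_congr n3 hNI
  refine ⟨⟨?_, ?_, ?_, hN.dms, hN.dmc⟩, ⟨?_, ?_⟩, HCell_GI_congr n1 n2 n3 hGI⟩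
  · intro z hz
    by_cases hzc : z = c
    · rw [hzc, hL]
      exact hN.lz c le_rfl
    · exact hN.lm z (by omega)
  · intro z hz h1
    by_cases hzc : z = c
    · rw [hzc] at h1
      omega
    · exact hN.om z (by omega) h1
  · intro z hz
    exact hN.lz z (by omega)
  · intro z hz hz'
    by_cases hzc : z = c
    · rw [hzc] at hz'
      exact absurd hz' hc
    · exact hFI.am z (by omega) hz'
  · intro s
    rcases hFI.fm s with ⟨h1, h2⟩ | ⟨h1, h2⟩
    · left
      refine ⟨h1, ?_⟩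
      intro z hz hz'
      by_cases hzc : z = c
      · rw [hzc] at hz'
        exact absurd hz' hc
      · exact h2 z (by omega) hz'
    · right
      exact ⟨by omega, h2⟩

end ST2
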