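import Pool.Agent.helper32.ST.GBas

/-!
# ST2-HFin : the tree, without the list

From LI and TI: fr z k = nd (el (ix z k)), fo u κ = nd (ts (tl u κ)).
* sur: TI.sur and fl_cases.  inj: nodes with equal (sz, po): node v = nd e, v' = nd e', e, e' flagged; both real:
  k = k', po equal: z - (k-1)(n+2) equal, so z = z' (mx_mul_le), e = e'.  Both owners: sz = 0; po = tl: tl_inj.
  real and owner: sz = k >= 1 versus 0.
* parr: e = el (z,k) real, pm_spec: pm e.  If SameO (pm e) e: pm e is not 1 (key (0,0,0) has owner 0; uo >= 1) and it is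
  not a sentinel (its key (uo,ko,n+1) would be above), so it is a real (z', j) with the same owner, j < k, and
  z' = z - (k-j)(n+2) (same_owner), ko <= j (ko_spec).  Maximality from pm_spec: a real (z-(k-i)(n+2), i),
  ko <= i with j < i < k would be a flagged element between.  If not SameO: no real with the same owner and
  smaller size exists (it would be a flagged element below e, above or equal pm e in the order; since the
  keys between have the same owner: klt).  par2.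
* paro: similarly with e = sentinel; real elements with the same owner: z' = u + (j-κ)(n+2), j >= κ.
-/

namespace ST2

structure FinT (n : ℕ) (A : ℕ → ℕ) (R O : ℕ → ℕ → Prop) (τ : TR) (fr fo : ℕ → ℕ → ℕ) : Prop where
  rep : ∃ kids, TRep τ kids
  inj : ∀ v w, 2 ≤ v → v ≤ τ.cnt → 2 ≤ w → w ≤ τ.cnt → τ.sz v = τ.sz w → τ.po v = τ.po w → v = w
  rr : ∀ z k, R z k → 2 ≤ fr z k ∧ fr z k ≤ τ.cnt ∧ τ.sz (fr z k) = k ∧
    τ.po (fr z k) = z - (k - 1) * (n + 2)
  oo : ∀ u κ, O u κ → 2 ≤ fo u κ ∧ fo u κ ≤ τ.cnt ∧ τ.sz (fo u κ) = 0 ∧ τ.po (fo u κ) = tl n u κ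
  sur : ∀ v, 2 ≤ v → v ≤ τ.cnt → (∃ z k, R z k ∧ v = fr z k) ∨ (∃ u κ, O u κ ∧ v = fo u κ)
  parr : ∀ z k, R z k →
    (∃ j, ko n A z k ≤ j ∧ j < k ∧ R (z - (k - j) * (n + 2)) j ∧
      (∀ i, j < i → i < k → ¬ R (z - (k - i) * (n + 2)) i) ∧
      τ.par (fr z k) = fr (z - (k - j) * (n + 2)) j) ∨
    ((∀ i, ko n A z k ≤ i → i < k → ¬ R (z - (k - i) * (n + 2)) i) ∧
      τ.par (fr z k) = if ko n A z k ≤ 1 then 1
        else fr (N n A (ko n A z k - 1) (uo n A z k - (n + 2))) (ko n A z k - 1))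
  paro : ∀ u κ, O u κ →
    (∃ j, κ ≤ j ∧ R (u + (j - κ) * (n + 2)) j ∧ (∀ i, j < i → ¬ R (u + (i - κ) * (n + 2)) i) ∧
      τ.par (fo u κ) = fr (u + (j - κ) * (n + 2)) j) ∨
    ((∀ i, κ ≤ i → ¬ R (u + (i - κ) * (n + 2)) i) ∧
      τ.par (fo u κ) = if κ ≤ 1 then 1 else fr (N n A (κ - 1) (u - (n + 2))) (κ - 1))

variable {n : ℕ} {A : ℕ → ℕ} {V R O : ℕ → ℕ → Prop} {g : G} {m : ℕ}

theorem HFin_same {l : List ℕ} {ky : ℕ → ℕ × ℕ × ℕ} (h : LI n A V R O g l ky)
    {e f u κ K i : ℕ} (he : e ∈ l) (h1 : e ≠ 1) (hfe : g.d.fl e ≠ 0) (hke : ky e = (u, κ, K))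
    (hf : f ∈ l) (hff : g.d.fl f ≠ 0) (hkf : ky f = (u, κ, i)) (hi : i < K) :
    SameO ky (g.pm e) e ∧ (f = g.pm e ∨ i < (ky (g.pm e)).2.2) := by
  obtain ⟨p1, p2, p3, -, p5⟩ := pm_spec h he h1 hfe
  have hlt : klt (ky f) (ky e) := by
    rw [hkf, hke]
    exact Or.inr ⟨rfl, Or.inr ⟨rfl, hi⟩⟩
  rcases p5 f hf hff hlt with h2 | h2
  · refine ⟨?_, Or.inl h2⟩
    unfold SameO
    rw [← h2, hkf, hke]
    exact ⟨rfl, rfl⟩
  · unfold SameO
    rw [hkf] at h2
    rw [hke] at p3 ⊢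
    unfold klt at h2 p3
    dsimp only at h2 p3 ⊢
    refine ⟨⟨by omega, by omega⟩, Or.inr (by omega)⟩

theorem HFin_real {l : List ℕ} {ky : ℕ → ℕ × ℕ × ℕ} (h : LI n A V R O g l ky)
    {e u κ K : ℕ} (he : e ∈ l) (h1 : e ≠ 1) (hfe : g.d.fl e ≠ 0) (hke : ky e = (u, κ, K))
    (hu : 0 < u) (hK : K ≤ n + 1) (hS : SameO ky (g.pm e) e) :
    ∃ z j, R z j ∧ g.pm e = g.el (ix n z j) ∧ uo n A z j = u ∧ ko n A z j = κ ∧ j < K := by
  obtain ⟨p1, p2, p3, -, p5⟩ := pm_spec h he h1 hfe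
  unfold SameO at hS
  rw [hke] at hS p3
  dsimp only at hS
  rcases fl_cases h p1 p2 with h2 | ⟨z, j, hr, h2⟩ | ⟨u', κ', ho, h2⟩
  · exfalso
    rw [h2, h.one_ky] at hS
    have h3 : 0 = u := hS.1
    omega
  · rw [h2, h.vky z j (h.rv z j hr)] at hS p3
    unfold klt at p3
    dsimp only at hS p3
    exact ⟨z, j, hr, h2, hS.1, hS.2, by omega⟩
  · exfalso
    rw [h2, h.oky u' κ' ho] at hS p3
    unfold klt at p3
    dsimp only at hS p3
    omega

theorem fin_of_GI (h : GI n A V R O g m) : ∃ fr fo, FinT n A R O g.t fr fo := by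
  obtain ⟨l, ky, h, hT, -⟩ := h
  have hkR : ∀ z k, R z k → ky (g.el (ix n z k)) = (uo n A z k, ko n A z k, k) :=
    fun z k hr => h.vky z k (h.rv z k hr)
  have hflR : ∀ z k, R z k → g.d.fl (g.el (ix n z k)) ≠ 0 :=
    fun z k hr => (h.mark z k (h.rv z k hr)).2 hr
  have helR : ∀ z k, R z k → g.el (ix n z k) ∈ l := fun z k hr => h.vel z k (h.rv z k hr)
  have hCu : ∀ u κ, Cr n A u κ → 0 < u := by
    intro u κ hc
    have h2 := hc.1.1
    unfold mx at h2
    rcases Nat.eq_zero_or_pos u with h0 | h0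
    · rw [h0] at h2
      simp at h2
    · exact h0
  refine ⟨fun z k => g.nd (g.el (ix n z k)), fun u κ => g.nd (g.ts (tl n u κ)), hT.rep, ?_, ?_,
    ?_, ?_, ?_, ?_⟩
  · -- inj
    intro v w hv1 hv2 hw1 hw2 hsz hpo
    obtain ⟨e, he, he1, hfe, hev⟩ := hT.sur v hv1 hv2
    obtain ⟨e', he', he1', hfe', hev'⟩ := hT.sur w hw1 hw2
    rcases fl_cases h he hfe with h2 | ⟨z, k, hr, h2⟩ | ⟨u, κ, ho, h2⟩
    · exact absurd h2 he1
    · have hs1 : g.t.sz v = k := by rw [← hev, h2]; exact hT.szr z k hr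
      have hp1 : g.t.po v = z - (k - 1) * (n + 2) := by rw [← hev, h2]; exact hT.por z k hr
      obtain ⟨c1, c2, c3, c4⟩ := h.vcan z k (h.rv z k hr)
      have hm1 := mx_mul_le n z (k - 1) (by omega)
      rcases fl_cases h he' hfe' with h3 | ⟨z', k', hr', h3⟩ | ⟨u', κ', ho', h3⟩
      · exact absurd h3 he1'
      · have hs2 : g.t.sz w = k' := by rw [← hev', h3]; exact hT.szr z' k' hr'
        have hp2 : g.t.po w = z' - (k' - 1) * (n + 2) := by
          rw [← hev', h3]
          exact hT.por z' k' hr'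
        obtain ⟨d1, d2, d3, d4⟩ := h.vcan z' k' (h.rv z' k' hr')
        have hm2 := mx_mul_le n z' (k' - 1) (by omega)
        have hkk : k = k' := by omega
        subst hkk
        have hzz : z = z' := by omega
        subst hzz
        rw [← hev, ← hev', h2, h3]
      · exfalso
        have hs2 : g.t.sz w = 0 := by rw [← hev', h3]; exact hT.szo u' κ' ho'
        omega
    · have hs1 : g.t.sz v = 0 := by rw [← hev, h2]; exact hT.szo u κ ho
      have hp1 : g.t.po v = tl n u κ := by rw [← hev, h2]; exact hT.poo u κ ho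
      rcases fl_cases h he' hfe' with h3 | ⟨z', k', hr', h3⟩ | ⟨u', κ', ho', h3⟩
      · exact absurd h3 he1'
      · exfalso
        have hs2 : g.t.sz w = k' := by rw [← hev', h3]; exact hT.szr z' k' hr'
        obtain ⟨d1, d2, d3, d4⟩ := h.vcan z' k' (h.rv z' k' hr')
        omega
      · have hp2 : g.t.po w = tl n u' κ' := by rw [← hev', h3]; exact hT.poo u' κ' ho'
        have htl : tl n u κ = tl n u' κ' := by rw [← hp1, ← hp2]; exact hpo
        rw [← hev, ← hev', h2, h3, htl]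
  · -- rr
    intro z k hr
    obtain ⟨r1, r2⟩ := hT.rng _ (helR z k hr) (el_ne_one h (h.rv z k hr)) (hflR z k hr)
    exact ⟨r1, r2, hT.szr z k hr, hT.por z k hr⟩
  · -- oo
    intro u κ ho
    obtain ⟨r1, r2⟩ := hT.rng _ (h.ots u κ ho) (ts_ne_one h ho) (h.ofl u κ ho)
    exact ⟨r1, r2, hT.szo u κ ho, hT.poo u κ ho⟩
  · -- sur
    intro v hv1 hv2
    obtain ⟨e, he, he1, hfe, hev⟩ := hT.sur v hv1 hv2
    rcases fl_cases h he hfe with h2 | ⟨z, k, hr, h2⟩ | ⟨u, κ, ho, h2⟩
    · exact absurd h2 he1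
    · exact Or.inl ⟨z, k, hr, by rw [← hev, h2]⟩
    · exact Or.inr ⟨u, κ, ho, by rw [← hev, h2]⟩
  · -- parr
    intro z k hr
    obtain ⟨c1, c2, c3, c4⟩ := h.vcan z k (h.rv z k hr)
    obtain ⟨o1, o2, o3, -, o5⟩ := ko_spec c1 c2 c3 c4
    have hu := hCu _ _ o3
    have he := helR z k hr
    have he1 := el_ne_one h (h.rv z k hr)
    have hfe := hflR z k hr
    have hke := hkR z k hr
    have hdiag : ∀ i, i < k → R (z - (k - i) * (n + 2)) i →
        ky (g.el (ix n (z - (k - i) * (n + 2)) i)) = (uo n A z k, ko n A z k, i) := by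
      intro i hi hri
      obtain ⟨d1, d2, d3, d4⟩ := h.vcan _ _ (h.rv _ _ hri)
      have hm := mx_mul_le n z (k - i) (by omega)
      have hz : z - (k - i) * (n + 2) + (k - i) * (n + 2) = z := Nat.sub_add_cancel hm
      have hki : i + (k - i) = k := by omega
      have hdd := ko_diag (i := k - i) d1 d2 d3 d4 (by rw [hz, hki]; exact c3)
      rw [hz, hki] at hdd
      rw [hkR _ _ hri, hdd.1, hdd.2]
    by_cases hS : SameO ky (g.pm (g.el (ix n z k))) (g.el (ix n z k))
    · left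
      obtain ⟨z', j, q1, q2, q3, q4, q5⟩ := HFin_real h he he1 hfe hke hu
        (by have := mx_le n z; omega) hS
      obtain ⟨d1, d2, d3, d4⟩ := h.vcan _ _ (h.rv _ _ q1)
      have hz' : z = z' + (k - j) * (n + 2) :=
        same_owner d1 d2 d3 d4 c1 c2 c3 c4 q3 q4 (by omega)
      have hz2 : z - (k - j) * (n + 2) = z' := by omega
      refine ⟨j, ?_, q5, by rw [hz2]; exact q1, ?_, ?_⟩
      · rw [← q4]
        exact (ko_spec d1 d2 d3 d4).2.1
      · intro i hi1 hi2 hri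
        obtain ⟨-, r2⟩ := HFin_same h he he1 hfe hke (helR _ _ hri) (hflR _ _ hri)
          (hdiag i hi2 hri) hi2
        rw [q2] at r2
        rcases r2 with r2 | r2
        · have := (el_inj h (h.rv _ _ hri) (h.rv _ _ q1) r2).2
          omega
        · rw [hkR _ _ q1] at r2
          dsimp only at r2
          omega
      · rw [hz2]
        have hp := hT.par1 _ he he1 hfe hS
        rw [q2] at hp
        exact hp
    · right
      refine ⟨?_, ?_⟩
      · intro i _ hi2 hri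
        exact hS (HFin_same h he he1 hfe hke (helR _ _ hri) (hflR _ _ hri)
          (hdiag i hi2 hri) hi2).1
      · have hp := hT.par2 _ he he1 hfe hS
        rw [hke] at hp
        exact hp
  · -- paro
    intro u κ ho
    have hcr := h.ocr u κ ho
    have hu := hCu _ _ hcr
    have he := h.ots u κ ho
    have he1 := ts_ne_one h ho
    have hfe := h.ofl u κ ho
    have hke := h.oky u κ ho
    have hdiag : ∀ i, κ ≤ i → R (u + (i - κ) * (n + 2)) i → i < n + 1 ∧
        ky (g.el (ix n (u + (i - κ) * (n + 2)) i)) = (u, κ, i) := by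
      intro i hi hri
      obtain ⟨d1, d2, d3, d4⟩ := h.vcan _ _ (h.rv _ _ hri)
      have hdd := ko_unique hcr hi rfl d3
      have hm := mx_le n (u + (i - κ) * (n + 2))
      refine ⟨by omega, ?_⟩
      rw [hkR _ _ hri, hdd.1, hdd.2]
    by_cases hS : SameO ky (g.pm (g.ts (tl n u κ))) (g.ts (tl n u κ))
    · left
      obtain ⟨z', j, q1, q2, q3, q4, q5⟩ := HFin_real h he he1 hfe hke hu le_rfl hS
      obtain ⟨d1, d2, d3, d4⟩ := h.vcan _ _ (h.rv _ _ q1)
      obtain ⟨s1, s2, s3, -, s5⟩ := ko_spec d1 d2 d3 d4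
      rw [q3, q4] at s5
      rw [q4] at s2
      refine ⟨j, s2, by rw [← s5]; exact q1, ?_, ?_⟩
      · intro i hi hri
        obtain ⟨t1, t2⟩ := hdiag i (by omega) hri
        obtain ⟨-, r2⟩ := HFin_same h he he1 hfe hke (helR _ _ hri) (hflR _ _ hri) t2 t1
        rw [q2] at r2
        rcases r2 with r2 | r2
        · have := (el_inj h (h.rv _ _ hri) (h.rv _ _ q1) r2).2
          omega
        · rw [hkR _ _ q1] at r2
          dsimp only at r2
          omega
      · rw [← s5]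
        have hp := hT.par1 _ he he1 hfe hS
        rw [q2] at hp
        exact hp
    · right
      refine ⟨?_, ?_⟩
      · intro i hi hri
        obtain ⟨t1, t2⟩ := hdiag i hi hri
        exact hS (HFin_same h he he1 hfe hke (helR _ _ hri) (hflR _ _ hri) t2 t1).1
      · have hp := hT.par2 _ he he1 hfe hS
        rw [hke] at hp
        exact hp

end ST2
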