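import Pool.Agent.helper32.ST.HStep
import Pool.Agent.helper32.ST.GPos
import Pool.Agent.helper32.ST.GVisit
import Pool.Agent.helper32.ST.GAtt
import Pool.Agent.helper32.ST.AW

/-!
# ST2-HHit : a successful iteration, and an unsuccessful one, keep the invariants

hit: d = N (k+1) c, so by vs_end, rs_end, ow_end (hk: L c = k+1) the new sets VS0 (c+1), RS0 (c+1), OW0 (c+1) are
addp (VS c k) d (k+1), RS c k, OW c k (as predicates: funext, propext).  MainT iff E by main_spec.
Main case: pos_main for z = n1 (V n1 k: second alternative of VS), evis_GI.  Dictionary case: pos_new.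
If V d (k+1) already, nothing is inserted (evis_GI covers both cases).
d is a cell (N_cell), k+1 <= mx d (mx_N), N (k+1) d = d (N_N), d <> 0.
step: attach_GI (Cr n A c (k+1): L c <= k < k+1 <= L x + 1), the sets become RS c (k-1), OW c (k-1)
(rs_step, ow_step); hO from OW c k: u' < c or u' = c and k+2 <= κ'.
Then if Lm n1 = L n1 < k-1 (so k >= 2): N (k-1) x = n1 (N_down), evis_GI at (n1, k-1) with pos_img: if not V n1 (k-1)
then by rs_image not RS c k n1 k (L n1 < k-1), so lemma_W applies (V = VS c k); hI: rs_image with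
N (k+i-1) (n1+i(n+2)) = n1+i(n+2) (N_diag), L_lt_of_N_eq.  The new V is VS c (k-1) by vs_step.
If not L n1 < k-1: for k = 1, VS c 0 = VS c 1 (vs_step).  For k >= 2: L n1 = k-1 (L n1 < k by N_N, L_lt_of_N_eq),
N (k-1) x = N (k-1) n1 (N_sub) and (N (k-1) n1, k-1) is already visited (canon_image2, vs0_vs), so VS c (k-1) = VS c k.
Owner condition for (n1,k-1): VS implies its owner is in OW: from ko_spec: Cr (uo) (ko), uo <= z < c: OW0.
Times and lengths: add up.
(proofs: helper57)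
-/

namespace ST2

variable {n : ℕ} {A : ℕ → ℕ} {x : X} {g : G} {m : ℕ}

theorem HHit_end {c k d : ℕ} (hc : Cell n c) (hL : L n A c = k + 1) (hN : N n A (k + 1) c = d) :
    addp (VS n A c k) d (k + 1) = VS0 n A (c + 1) ∧ RS n A c k = RS0 n A (c + 1) ∧
      OW n A c k = OW0 n A (c + 1) := by
  refine ⟨?_, ?_, ?_⟩
  · funext z κ
    apply propext
    rw [vs_end hc hL, hN]
    unfold addp
    constructor
    · rintro (h | ⟨h1, h2⟩)
      · exact Or.inl h
      · exact Or.inr ⟨h2, h1⟩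
    · rintro (h | ⟨h1, h2⟩)
      · exact Or.inl h
      · exact Or.inr ⟨h2, h1⟩
  · funext z κ
    apply propext
    rw [rs_end hc hL]
  · funext z κ
    apply propext
    rw [ow_end hc hL]

theorem hit_ex (hs : Sent n A) {c : ℕ} {q : Q} (hc : Cell n c)
    (hx : NI n A c (OW n A c q.k) x) (hf : FI n A (c + 1) x) (hq : QI n A c q) (hk : 1 ≤ q.k)
    (hg : GI n A (VS n A c q.k) (RS n A c q.k) (OW n A c q.k) g m)
    (hh : MainT n c (N n A 1 c) x q ∨ x.Dm (q.dx n c (N n A 1 c)) ≠ 0) :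
    ∃ g' d t m', HitR n c (N n A 1 c) x g q g' d t ∧ d ≠ 0 ∧ L n A c = q.k + 1 ∧
      N n A (q.k + 1) c = d ∧
      GI n A (VS0 n A (c + 1)) (RS0 n A (c + 1)) (OW0 n A (c + 1)) g' m' ∧
      g.w + t ≤ g'.w ∧ m' ≤ m + 1 := by
  have hkx := hq.kx
  have hn1 := hq.n1 hk
  have hmc : q.k + 1 ≤ mx n c := child_mx hc hkx
  obtain ⟨l, ky, hLI, hTI, rfl⟩ := hg
  by_cases hM : MainT n c (N n A 1 c) x q
  · have hE := (main_spec hs hc hx hf hq hk).1 hM
    obtain ⟨hLc, hNc⟩ := main_hit hs hc hq hk hE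
    obtain ⟨eV, eR, eO⟩ := HHit_end hc hLc hNc
    obtain ⟨cc1, cc2, cc3⟩ := child_cell hs hc hk hkx
    rw [← hn1] at cc1 cc2 cc3
    have hV : VS n A c q.k q.n1 q.k := Or.inr ⟨hk, le_rfl, hkx, hn1.symm⟩
    have hNd : N n A (q.k + 1) (q.n1 + (n + 2)) = q.n1 + (n + 2) := by
      have h1 := N_N (A := A) hmc
      rw [hNc] at h1
      exact h1
    have hO : OW n A c q.k (uo n A (q.n1 + (n + 2)) (q.k + 1))
        (ko n A (q.n1 + (n + 2)) (q.k + 1)) := by
      by_cases hn : VS n A c q.k (q.n1 + (n + 2)) (q.k + 1)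
      · exact hLI.vo _ _ hn
      · exact (pos_main hLI hV cc3 hn).2
    obtain ⟨g', t, m', h1, h2, h3, h4⟩ := evis_GI hLI hTI (z := q.n1 + (n + 2)) (k := q.k + 1)
      (y := g.el (ix n q.n1 q.k)) cc1 (by omega) cc3 hNd hO
      (fun hn => (pos_main hLI hV cc3 hn).1)
    rw [eV, eR, eO] at h2
    exact ⟨g', q.n1 + (n + 2), t, m', Or.inl ⟨hM, rfl, h1⟩, by omega, hLc, hNc, h2, h3, h4⟩
  · have hd : x.Dm (q.dx n c (N n A 1 c)) ≠ 0 := by
      rcases hh with h | h
      · exact absurd h hM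
      · exact h
    obtain ⟨hLc, hNc, hOd⟩ := dict_hit hc hx hq hk hd
    obtain ⟨eV, eR, eO⟩ := HHit_end hc hLc hNc
    generalize hde : x.Dm (q.dx n c (N n A 1 c)) = d at hd hNc hOd eV
    have hcd : Cell n d := by
      rw [← hNc]
      exact N_cell hc (by omega) hmc
    have hmd : q.k + 1 ≤ mx n d := by
      rw [← hNc]
      exact mx_N hmc
    have hNd : N n A (q.k + 1) d = d := by
      rw [← hNc]
      exact N_N hmc
    have hcr := hLI.ocr _ _ hOd
    have hO : OW n A c q.k (uo n A d (q.k + 1)) (ko n A d (q.k + 1)) := by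
      obtain ⟨e1, e2⟩ := ko_cr hcr
      rw [e1, e2]
      exact hOd
    obtain ⟨g', t, m', h1, h2, h3, h4⟩ := evis_GI hLI hTI (z := d) (k := q.k + 1)
      (y := g.hs (tl n d (q.k + 1))) hcd (by omega) hmd hNd hO
      (fun hn => (pos_new hLI hOd hn).1)
    rw [eV, eR, eO] at h2
    have htl : tl n d (q.k + 1) = d - q.k * (n + 2) := by
      unfold tl
      rw [Nat.add_sub_cancel]
    rw [htl] at h1
    exact ⟨g', d, t, m', Or.inr ⟨hM, hde.symm, hd, h1⟩, hd, hLc, hNc, h2, h3, h4⟩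

theorem HHit_step {c k : ℕ} (h1 : 1 ≤ k) (h2 : k ≤ L n A (c - (n + 2))) :
    addp (RS n A c k) (N n A k (c - (n + 2))) k = RS n A c (k - 1) ∧
      addp (OW n A c k) c (k + 1) = OW n A c (k - 1) := by
  refine ⟨?_, ?_⟩
  · funext z κ
    apply propext
    rw [rs_step h1 h2]
    unfold addp
    constructor
    · rintro (h | ⟨h3, h4⟩)
      · exact Or.inl h
      · exact Or.inr ⟨h4, h3⟩
    · rintro (h | ⟨h3, h4⟩)
      · exact Or.inl h
      · exact Or.inr ⟨h4, h3⟩
  · funext z κ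
    apply propext
    rw [ow_step h1 h2]
    exact Iff.rfl

theorem step_ex (hs : Sent n A) {c : ℕ} {q : Q} (hc : Cell n c)
    (hx : NI n A c (OW n A c q.k) x) (hf : FI n A (c + 1) x) (hq : QI n A c q) (hk : 1 ≤ q.k)
    (hg : GI n A (VS n A c q.k) (RS n A c q.k) (OW n A c q.k) g m)
    (h1 : ¬ MainT n c (N n A 1 c) x q) (h2 : x.Dm (q.dx n c (N n A 1 c)) = 0) :
    ∃ x' g' t m', StepR n c (N n A 1 c) x g q x' g' t ∧ L n A c ≤ q.k ∧
      NI n A c (OW n A c (q.k - 1)) x' ∧ FI n A (c + 1) x' ∧ QI n A c (q.next x) ∧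
      GI n A (VS n A c (q.k - 1)) (RS n A c (q.k - 1)) (OW n A c (q.k - 1)) g' m' ∧
      g.w + t ≤ g'.w ∧ m' ≤ m + 2 := by
  have hkx := hq.kx
  have hn1 := hq.n1 hk
  have hmc : q.k + 1 ≤ mx n c := child_mx hc hkx
  obtain ⟨x1, x2, x3, x4, x5⟩ := AChild_x hc hk hkx
  have hE : ¬ E n A (q.k + 1) (q.n1 + (n + 2)) c := fun h =>
    h1 ((main_spec hs hc hx hf hq hk).2 h)
  have hLc : L n A c ≤ q.k := no_hit hc hx hq hk hE h2
  have hNI := step_NI hc hx hq hk hLc h2
  have hQI := next_QI hc hx hq hk hLc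
  have hFI : FI n A (c + 1) { x with Dm := upd x.Dm (q.dx n c (N n A 1 c)) c } := ⟨hf.am, hf.fm⟩
  obtain ⟨l, ky, hLI, hTI, rfl⟩ := hg
  have hV : VS n A c q.k q.n1 q.k := Or.inr ⟨hk, le_rfl, hkx, hn1.symm⟩
  have hcr : Cr n A c (q.k + 1) := ⟨hc, by omega, by omega⟩
  obtain ⟨g1, t1, l', ky', ha, hLI1, hTI1, hw1, hl1⟩ := attach_GI hLI hTI (c := c) hV hn1.symm hcr
    (by
      rintro u' κ' (⟨h3, -⟩ | ⟨h3, h4, -⟩)
      · exact Or.inl h3
      · exact Or.inr ⟨h3, by omega⟩)
  obtain ⟨eR, eO⟩ := HHit_step (n := n) (A := A) (c := c) hk hkx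
  rw [hn1] at hLI1 hTI1
  rw [eR, eO] at hLI1 hTI1
  rw [← hn1] at eR x4 x5
  have hn1c : q.n1 < c := by omega
  have hn1cell : Cell n q.n1 := by
    rw [hn1]
    exact N_cell x1 hk x2
  have hLm : x.Lm q.n1 = L n A q.n1 := hx.lm _ hn1c
  have hNk : N n A q.k q.n1 = q.n1 := by
    rw [hn1]
    exact N_N x2
  by_cases hL1 : x.Lm q.n1 < q.k - 1
  · have hL2 : L n A q.n1 < q.k - 1 := by omega
    have hk2 : 2 ≤ q.k := by omega
    have hND : N n A (q.k - 1) (c - (n + 2)) = q.n1 := by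
      have h3 := N_down (n := n) (A := A) (k := q.k - 1) (z := c - (n + 2)) (by omega)
        (by omega)
      rw [show q.k - 1 + 1 = q.k by omega, ← hn1, if_pos hL2] at h3
      exact h3
    have eV : addp (VS n A c q.k) q.n1 (q.k - 1) = VS n A c (q.k - 1) := by
      funext z κ
      apply propext
      rw [vs_step hk hkx, hND]
      unfold addp
      constructor
      · rintro (h | ⟨h3, h4⟩)
        · exact Or.inl h
        · exact Or.inr ⟨hk2, h4, h3⟩
      · rintro (h | ⟨-, h3, h4⟩)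
        · exact Or.inl h
        · exact Or.inr ⟨h4, h3⟩
    have hNn : N n A (q.k - 1) q.n1 = q.n1 := by
      have h3 := N_sub (n := n) (A := A) (k := q.k) (k' := q.k - 1) (y := c - (n + 2))
        (by omega) x2
      rw [← hn1, hND] at h3
      exact h3
    obtain ⟨k1, k2, k3, k4, k5⟩ := ko_spec hn1cell (by omega : 1 ≤ q.k - 1) (by omega) hNn
    have hO : OW n A c (q.k - 1) (uo n A q.n1 (q.k - 1)) (ko n A q.n1 (q.k - 1)) :=
      Or.inl ⟨by omega, k3⟩
    have hR1 : RS n A c (q.k - 1) q.n1 q.k := by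
      rw [rs_step hk hkx]
      exact Or.inr ⟨rfl, hn1⟩
    obtain ⟨g', t, m', h3, h4, h5, h6⟩ := evis_GI hLI1 hTI1 (z := q.n1) (k := q.k - 1)
      (y := g1.imgPos n q.n1 q.k) hn1cell (by omega) (by omega) hNn hO
      (by
        intro hn
        refine pos_img hLI1 hR1 hk2 hNn hn hO ?_ ?_
        · intro i hi hVi
          have hR0 : ¬ RS n A c q.k (N n A q.k (c - (n + 2))) q.k := by
            rw [← hn1]
            intro hR
            exact hn (rs_image hR hk2 hL2)
          have hV0 : ¬ VS n A c q.k (N n A q.k (c - (n + 2))) (q.k - 1) := by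
            rw [← hn1]
            exact hn
          have hVi' : VS n A c q.k (N n A q.k (c - (n + 2)) + i * (n + 2)) (q.k - 1 + i) := by
            rw [← hn1]
            exact hVi
          obtain ⟨i', j1, j2, j3⟩ := lemma_W hc hk2 hkx (by rw [← hn1]; exact hL2) hR0 hV0 hi hVi'
          rw [← hn1] at j3
          refine ⟨i', j1, j2, ?_⟩
          rw [rs_step hk hkx]
          exact Or.inl j3
        · intro i hi hRi
          rw [rs_step hk hkx] at hRi
          rcases hRi with hRi | ⟨h7, -⟩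
          · obtain ⟨v1, v2, v3, v4⟩ := vs_canon hc (rs_vs hRi)
            have hND2 : N n A (q.k - 1 + i) (q.n1 + i * (n + 2)) = q.n1 + i * (n + 2) :=
              N_diag hNn (Nat.add_sub_cancel _ _) (by omega)
            have hL3 := L_lt_of_N_eq (n := n) (A := A) (k := q.k - 1 + i)
              (z := q.n1 + i * (n + 2)) (by omega) (by omega) hND2
            exact rs_image hRi (by omega) (by omega)
          · omega)
    rw [eV] at h4
    exact ⟨_, g', t1 + t, m', ⟨h1, h2, rfl, g1, t1, ha, Or.inl ⟨hL1, t, h3, rfl⟩⟩, hLc, hNI, hFI,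
      hQI, h4, by omega, by omega⟩
  · have eV : VS n A c q.k = VS n A c (q.k - 1) := by
      funext z κ
      apply propext
      rw [vs_step hk hkx]
      constructor
      · exact Or.inl
      · rintro (h | ⟨hk2, h3, h4⟩)
        · exact h
        · rw [h3, h4]
          have h5 : L n A q.n1 < q.k := L_lt_of_N_eq hk x5 hNk
          have h6 : L n A q.n1 = q.k - 1 := by omega
          have h7 := canon_image2 (n := n) (A := A) hk2 hn1c h6
          have h8 := N_sub (n := n) (A := A) (k := q.k) (k' := q.k - 1) (y := c - (n + 2))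
            (by omega) x2
          rw [← hn1] at h8
          rw [h8] at h7
          exact vs0_vs h7
    rw [eV] at hLI1
    exact ⟨_, g1, t1, l'.length, ⟨h1, h2, rfl, g1, t1, ha, Or.inr ⟨hL1, rfl, rfl⟩⟩, hLc, hNI, hFI,
      hQI, ⟨l', ky', hLI1, hTI1, rfl⟩, hw1, by omega⟩

end ST2
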