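import Pool.Agent.helper32.ST.HHit

/-!
# ST2-HLoop : the main loop

Induction on q.k, generalizing.  q.k = 0: LoopR.stop; L c <= 1.  q.k >= 1: hit_ex or step_ex (note
(q.next x).k = q.k - 1).  In the step case the loop continues with x' and q.next x (next is computed from the
old x; dn only uses Lm, Om, so it does not matter).
-/

namespace ST2

variable {n : ℕ} {A : ℕ → ℕ}

theorem loop_ex (hs : Sent n A) {c : ℕ} (hc : Cell n c) : ∀ (K : ℕ) (q : Q) (x : X) (g : G)
    (m : ℕ), q.k = K → NI n A c (OW n A c q.k) x → FI n A (c + 1) x → QI n A c q →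
    GI n A (VS n A c q.k) (RS n A c q.k) (OW n A c q.k) g m →
    ∃ x' g' k' d t m', LoopR n c (N n A 1 c) x g q x' g' k' d t ∧ FI n A (c + 1) x' ∧
      NI n A c (OW n A c k') x' ∧ k' ≤ q.k ∧
      g.w + t ≤ g'.w + (q.k - k' + 1) ∧ m' ≤ m + 2 * (q.k - k' + 1) ∧
      ((d ≠ 0 ∧ L n A c = k' + 1 ∧ N n A (k' + 1) c = d ∧
          GI n A (VS0 n A (c + 1)) (RS0 n A (c + 1)) (OW0 n A (c + 1)) g' m') ∨
       (d = 0 ∧ k' = 0 ∧ L n A c ≤ 1 ∧
          GI n A (VS n A c 0) (RS n A c 0) (OW n A c 0) g' m')) := by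
  intro K
  induction K with
  | zero =>
    intro q x g m hqk hx hf hq hg
    rw [hqk] at hx hg
    refine ⟨x, g, 0, 0, 0, m, LoopR.stop x g q hqk, hf, hx, Nat.zero_le _, ?_, ?_, Or.inr
      ⟨rfl, rfl, ?_, hg⟩⟩
    · omega
    · omega
    · have := hq.lc
      omega
  | succ K ih =>
    intro q x g m hqk hx hf hq hg
    have hk : 1 ≤ q.k := by omega
    have hk0 : q.k ≠ 0 := by omega
    by_cases hh : MainT n c (N n A 1 c) x q ∨ x.Dm (q.dx n c (N n A 1 c)) ≠ 0
    · obtain ⟨g', d, t, m', hH, hd, hL, hN, hG, hw, hm⟩ := hit_ex hs hc hx hf hq hk hg hh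
      refine ⟨x, g', q.k, d, t + 1, m', LoopR.hit x g q g' d t hk0 hH, hf, hx, le_rfl, ?_, ?_,
        Or.inl ⟨hd, hL, hN, hG⟩⟩
      · omega
      · omega
    · have h1 : ¬ MainT n c (N n A 1 c) x q := fun hc' => hh (Or.inl hc')
      have h2 : x.Dm (q.dx n c (N n A 1 c)) = 0 := by
        by_contra hc'
        exact hh (Or.inr hc')
      obtain ⟨x1, g1, t1, m1, hS, hL, hNI, hFI, hQI, hGI, hw, hm⟩ :=
        step_ex hs hc hx hf hq hk hg h1 h2
      have hnk : (q.next x).k = q.k - 1 := rfl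
      obtain ⟨x', g', k', d, t, m', hLoop, hFI', hNI', hk', hw', hm', hor⟩ :=
        ih (q.next x) x1 g1 m1 (by rw [hnk]; omega) hNI hFI hQI hGI
      rw [hnk] at hk' hw' hm'
      refine ⟨x', g', k', d, t1 + t + 1, m', LoopR.step x g q x1 g1 t1 x' g' k' d t hk0 hS hLoop,
        hFI', hNI', by omega, ?_, ?_, hor⟩
      · omega
      · omega

end ST2
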