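import Pool.Agent.helper32.ST.GDef
import Pool.Agent.helper32.ST.AVisB
import Pool.Agent.helper32.ST.AVisA
import Pool.Agent.helper32.ST.AVisC

/-!
# ST2-HNam : the arrays of names (invariants)

NI n A c O x: L, O are right for all codes < c; the dictionary contains exactly the owners (w, k'+1) of O with
k' >= 1.  FI n A c x: the letters of the cells < c are known.  QI: the registers of the main loop.
* B = (n+1)^2 is larger than all sizes, codes and names.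
* dix_inj: twice/four times uniqueness of division with remainder (Nat.add_mul_div / omega with
  nlinarith; for r, r' < B: q B + r = q' B + r' implies q = q', r = r').
* dn_spec: N_down with k = l - 1, m = N l y (m < c because m <= ... is assumed).
* nmx_spec: nm_eq; Om y = N (L y) y if L y = k.
-/

namespace ST2

structure NI (n : ℕ) (A : ℕ → ℕ) (c : ℕ) (O : ℕ → ℕ → Prop) (x : X) : Prop where
  lm : ∀ z < c, x.Lm z = L n A z
  om : ∀ z < c, 1 ≤ L n A z → x.Om z = N n A (L n A z) z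
  lz : ∀ z, c ≤ z → x.Lm z = 0
  dms : ∀ k' n1 t2 t3 a, 1 ≤ k' → k' < (n + 1) * (n + 1) → n1 < (n + 1) * (n + 1) →
    t2 < (n + 1) * (n + 1) → t3 < (n + 1) * (n + 1) → a < (n + 1) * (n + 1) →
    x.Dm (dix n k' n1 t2 t3 a) ≠ 0 →
    ∃ w, x.Dm (dix n k' n1 t2 t3 a) = w ∧ O w (k' + 1) ∧ N n A k' (w - (n + 2)) = n1 ∧
      N n A k' (w - (n + 1)) = t2 ∧ N n A k' (w - 1) = t3 ∧ N n A 1 w = a
  dmc : ∀ w k', 1 ≤ k' → O w (k' + 1) →
    x.Dm (dix n k' (N n A k' (w - (n + 2))) (N n A k' (w - (n + 1))) (N n A k' (w - 1))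
      (N n A 1 w)) = w

structure FI (n : ℕ) (A : ℕ → ℕ) (c : ℕ) (x : X) : Prop where
  am : ∀ z < c, Cell n z → x.Am z = N n A 1 z
  fm : ∀ s, (x.Fm s = 0 ∧ ∀ z < c, Cell n z → A z ≠ s) ∨
    (x.Fm s < c ∧ Cell n (x.Fm s) ∧ A (x.Fm s) = s ∧ ∀ z, Cell n z → A z = s → x.Fm s ≤ z)

structure QI (n : ℕ) (A : ℕ → ℕ) (c : ℕ) (q : Q) : Prop where
  kx : q.k ≤ L n A (c - (n + 2))
  n1 : 1 ≤ q.k → q.n1 = N n A q.k (c - (n + 2))
  l2 : q.l2 = min (L n A (c - (n + 1))) q.k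
  n2 : 1 ≤ q.l2 → q.n2 = N n A q.l2 (c - (n + 1))
  l3 : q.l3 = min (L n A (c - 1)) q.k
  n3 : 1 ≤ q.l3 → q.n3 = N n A q.l3 (c - 1)
  lc : L n A c ≤ q.k + 1

variable {n : ℕ} {A : ℕ → ℕ} {O : ℕ → ℕ → Prop} {x : X}

theorem HNam_div {B q r q' r' : ℕ} (h : r < B) (h' : r' < B) (he : q * B + r = q' * B + r') :
    q = q' ∧ r = r' := by
  have hB : 0 < B := by omega
  have h1 : (q * B + r) / B = q := by
    rw [mul_comm, Nat.mul_add_div hB, Nat.div_eq_of_lt h, add_zero]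
  have h2 : (q' * B + r') / B = q' := by
    rw [mul_comm, Nat.mul_add_div hB, Nat.div_eq_of_lt h', add_zero]
  have h3 : q = q' := by rw [← h1, ← h2, he]
  subst h3
  exact ⟨rfl, by omega⟩

theorem dix_inj {k n1 t2 t3 a k' n1' t2' t3' a' : ℕ}
    (h1 : n1 < (n + 1) * (n + 1)) (h2 : t2 < (n + 1) * (n + 1)) (h3 : t3 < (n + 1) * (n + 1))
    (h4 : a < (n + 1) * (n + 1)) (h1' : n1' < (n + 1) * (n + 1)) (h2' : t2' < (n + 1) * (n + 1))
    (h3' : t3' < (n + 1) * (n + 1)) (h4' : a' < (n + 1) * (n + 1))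
    (he : dix n k n1 t2 t3 a = dix n k' n1' t2' t3' a') :
    k = k' ∧ n1 = n1' ∧ t2 = t2' ∧ t3 = t3' ∧ a = a' := by
  unfold dix at he
  obtain ⟨he, ha⟩ := HNam_div h4 h4' he
  obtain ⟨he, ht3⟩ := HNam_div h3 h3' he
  obtain ⟨he, ht2⟩ := HNam_div h2 h2' he
  obtain ⟨he, ht1⟩ := HNam_div h1 h1' he
  exact ⟨he, ht1, ht2, ht3, ha⟩

theorem dn_spec {c l y : ℕ} (h : NI n A c O x) (hl : 2 ≤ l) (hy : l ≤ mx n y)
    (hm : N n A l y < c) : dn x l (N n A l y) = N n A (l - 1) y := by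
  obtain ⟨k, rfl⟩ : ∃ k, l = k + 1 := ⟨l - 1, by omega⟩
  have h1 : 1 ≤ k := by omega
  rw [Nat.add_sub_cancel, N_down h1 hy, dn, Nat.add_sub_cancel, h.lm _ hm]
  by_cases h2 : L n A (N n A (k + 1) y) < k
  · rw [if_pos h2, if_pos h2]
  · rw [if_neg h2, if_neg h2]
    exact h.om _ hm (by omega)

theorem nmx_spec {c k y : ℕ} (h : NI n A c O x) (hk : 1 ≤ k) (hy : k ≤ mx n y) (hc : y < c)
    (hL : L n A y ≤ k) : nmx x k y = N n A k y := by
  rw [← nm_eq hk hy hL, nmx, nm, h.lm _ hc]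
  by_cases h2 : L n A y < k
  · rw [if_pos h2, if_pos h2]
  · rw [if_neg h2, if_neg h2]
    exact h.om _ hc (by omega)

theorem HNam_N1 {c : ℕ} (hc : Cell n c) :
    Cell n (N n A 1 c) ∧ N n A 1 c ≤ c ∧ A (N n A 1 c) = A c :=
  ⟨N_cell hc le_rfl hc.1, N_le hc.1, E_letter (N_E hc.1) le_rfl⟩

theorem HNam_N1_le {c w : ℕ} (hc : Cell n c) (hw : Cell n w) (h : A w = A c) : N n A 1 c ≤ w :=
  N_min (E_one.2 ⟨hw.1, hc.1, h⟩)

theorem HNam_cell0 : ¬ Cell n 0 := by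
  intro h
  have h1 := h.1
  unfold mx at h1
  simp at h1

/-- reading the letter: `FI` for c + 1, the letter name is N 1 c -/
theorem letter_FI {c : ℕ} (hc : Cell n c) (h : FI n A c x) :
    FI n A (c + 1) (x.letter c (A c)) ∧ (x.letter c (A c)).Am c = N n A 1 c := by
  obtain ⟨hw1, hw2, hw3⟩ := HNam_N1 (A := A) hc
  have key : (if x.Fm (A c) = 0 then c else x.Fm (A c)) = N n A 1 c := by
    rcases h.fm (A c) with ⟨h1, h2⟩ | ⟨h1, h2, h3, h4⟩
    · rw [if_pos h1]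
      by_contra hne
      exact h2 _ (by omega) hw1 hw3
    · have h0 : x.Fm (A c) ≠ 0 := by
        intro h0
        rw [h0] at h2
        exact HNam_cell0 h2
      rw [if_neg h0]
      exact le_antisymm (h4 _ hw1 hw3) (HNam_N1_le hc h2 h3)
  refine ⟨⟨?_, ?_⟩, ?_⟩
  · intro z hz hzc
    by_cases hzc' : z = c
    · subst hzc'
      show upd x.Am z _ z = _
      rw [upd_same, key]
    · show upd x.Am c _ z = _
      rw [upd_ne _ _ hzc']
      exact h.am z (by omega) hzc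
  · intro s
    by_cases hs : s = A c
    · right
      subst hs
      show upd x.Fm (A c) _ (A c) < c + 1 ∧ Cell n (upd x.Fm (A c) _ (A c)) ∧
        A (upd x.Fm (A c) _ (A c)) = A c ∧ ∀ z, Cell n z → A z = A c → upd x.Fm (A c) _ (A c) ≤ z
      rw [upd_same, key]
      exact ⟨by omega, hw1, hw3, fun z hz hz2 => HNam_N1_le hc hz hz2⟩
    · show (upd x.Fm (A c) _ s = 0 ∧ _) ∨ (upd x.Fm (A c) _ s < c + 1 ∧
        Cell n (upd x.Fm (A c) _ s) ∧ A (upd x.Fm (A c) _ s) = s ∧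
        ∀ z, Cell n z → A z = s → upd x.Fm (A c) _ s ≤ z)
      rw [upd_ne _ _ hs]
      rcases h.fm s with ⟨h1, h2⟩ | ⟨h1, h2, h3, h4⟩
      · left
        refine ⟨h1, fun z hz hzc => ?_⟩
        by_cases hzc' : z = c
        · subst hzc'
          exact fun e => hs e.symm
        · exact h2 z (by omega) hzc
      · right
        exact ⟨by omega, h2, h3, h4⟩
  · show upd x.Am c _ c = _
    rw [upd_same, key]

theorem letter_NI {c s : ℕ} (h : NI n A c O x) : NI n A c O (x.letter c s) :=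
  ⟨h.lm, h.om, h.lz, h.dms, h.dmc⟩

theorem init_NI : NI n A 0 (OW0 n A 0) X.init ∧ FI n A 0 X.init := by
  refine ⟨⟨?_, ?_, ?_, ?_, ?_⟩, ⟨?_, ?_⟩⟩
  · intro z hz
    exact absurd hz (Nat.not_lt_zero z)
  · intro z hz
    exact absurd hz (Nat.not_lt_zero z)
  · intro z _
    rfl
  · intro k' n1 t2 t3 a _ _ _ _ _ _ h
    exact absurd rfl h
  · intro w k' _ h
    exact absurd h.1 (Nat.not_lt_zero w)
  · intro z hz
    exact absurd hz (Nat.not_lt_zero z)
  · intro s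
    exact Or.inl ⟨rfl, fun z hz => absurd hz (Nat.not_lt_zero z)⟩

/-- the name array for a cell: first occurrence of the letter -/
theorem N_one {c : ℕ} (hc : Cell n c) : Cell n (N n A 1 c) ∧ N n A 1 c ≤ c ∧
    (N n A 1 c = c ↔ L n A c = 0) := by
  obtain ⟨hw1, hw2, -⟩ := HNam_N1 (A := A) hc
  refine ⟨hw1, hw2, ?_⟩
  have h := le_L_iff (A := A) (z := c) le_rfl hc.1
  constructor
  · intro h1
    by_contra h2
    have h3 := h.1 (by omega)
    omega
  · intro h1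
    by_contra h2
    have h3 := h.2 (by omega)
    omega

end ST2
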