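import Pool.Agent.helper32.ST.HTest

/-!
# ST2-HStep : consequences of the tests

k = q.k >= 1, O = OW n A c k.
* main_hit: E (k+1) (n1+(n+2)) c, n1+(n+2) < c (child_cell): main_child_N, so N (k+1) c = d < c, k+1 <= L c
  (le_L_iff, child_mx), and L c <= k+1.
* dict_hit: dms gives w = d with OW n A c k w (k+1) (so OW0: w < c, Cr w (k+1); the second alternative w = c,
  k + 2 <= k + 1 is impossible) and equal names; dict_sound' (A w = A c from N 1 w = N 1 c).
* no_hit: if k+1 <= L c, then L c = k + 1; N (k+1) c <> n1+(n+2) (otherwise E by N_E), so dict_complete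
  gives w = N (k+1) c, Cr w (k+1), w < c, so OW0 w (k+1), dmc gives Dm (key) = w <> 0 (w is a cell).
* step_NI: new entry at the key of c: dms for the new key: OW n A c (k-1) c (k+1) (ow_step); for other
  indices the old entry, OW c k implies OW c (k-1) (ow_step).  dmc: for (c, k+1) the new entry (k' = k); an old
  owner (w, k'+1) whose index is the new one would have had Dm = w <> 0 there, contradiction with = 0.  (k' with
  OW c (k-1) w (k'+1): by ow_step either old or w = c, k' = k.)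
* next_QI: k - 1: n1: dn_spec (k >= 2: k <= L x <= mx x; N k x < c).  l2' = min (L TR) (k-1): if l2 = k then
  L TR >= k, l2 - 1 = k-1; else l2 = L TR < k.  n2: dn_spec.  lc: L c <= k.
-/

namespace ST2

variable {n : ℕ} {A : ℕ → ℕ} {x : X}

theorem main_hit (hs : Sent n A) {c : ℕ} {q : Q} (hc : Cell n c) (hq : QI n A c q) (hk : 1 ≤ q.k)
    (hE : E n A (q.k + 1) (q.n1 + (n + 2)) c) :
    L n A c = q.k + 1 ∧ N n A (q.k + 1) c = q.n1 + (n + 2) := by
  have hn1 := hq.n1 hk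
  rw [hn1] at hE ⊢
  have h1 := main_child_N hc hk hq.kx hE
  have h2 := (child_cell hs hc hk hq.kx).2.1
  have h3 := (le_L_iff (A := A) (by omega) (child_mx hc hq.kx)).2 (by omega)
  have h4 := hq.lc
  exact ⟨by omega, h1⟩

theorem dict_hit {c : ℕ} {q : Q} (hc : Cell n c) (hx : NI n A c (OW n A c q.k) x)
    (hq : QI n A c q) (hk : 1 ≤ q.k) (hd : x.Dm (q.dx n c (N n A 1 c)) ≠ 0) :
    L n A c = q.k + 1 ∧ N n A (q.k + 1) c = x.Dm (q.dx n c (N n A 1 c)) ∧
      OW n A c q.k (x.Dm (q.dx n c (N n A 1 c))) (q.k + 1) := by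
  obtain ⟨b1, b2, b3, b4, b5⟩ := names_lt hc hq hk
  obtain ⟨w, hw, hO, e1, e2, e3, e4⟩ := hx.dms q.k q.n1 (q.t2 n c) (q.t3 c) (N n A 1 c) hk b1 b2
    b3 b4 b5 hd
  have hO' : OW0 n A c w (q.k + 1) := by
    rcases hO with h | ⟨_, h, _⟩
    · exact h
    · omega
  rw [hq.n1 hk] at e1
  rw [t2_spec hc hq hk] at e2
  rw [t3_spec hc hq hk] at e3
  have h1 : A w = A c := E_letter (E_of_N_eq hO'.2.1.1 hc.1 e4) le_rfl
  obtain ⟨h2, h3⟩ := dict_sound' hc hk (child_mx hc hq.kx) hO'.2 hO'.1 e1 e2 e3 h1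
  have h4 := hq.lc
  have hw' : x.Dm (q.dx n c (N n A 1 c)) = w := hw
  rw [hw']
  exact ⟨by omega, h2, hO⟩

theorem no_hit {c : ℕ} {q : Q} (hc : Cell n c) (hx : NI n A c (OW n A c q.k) x)
    (hq : QI n A c q) (hk : 1 ≤ q.k) (hE : ¬ E n A (q.k + 1) (q.n1 + (n + 2)) c)
    (hd : x.Dm (q.dx n c (N n A 1 c)) = 0) : L n A c ≤ q.k := by
  by_contra hcon
  have h3 : q.k + 1 ≤ L n A c := by omega
  have h4 : N n A (q.k + 1) c ≠ N n A q.k (c - (n + 2)) + (n + 2) := by
    intro h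
    apply hE
    have h5 := N_E (A := A) (child_mx hc hq.kx)
    rw [h] at h5
    rw [hq.n1 hk]
    exact h5
  obtain ⟨g1, g2, g3, g4, g5, g6⟩ := dict_complete hc hk hq.kx h3 h4
  have h6 := hx.dmc (N n A (q.k + 1) c) q.k hk (Or.inl ⟨g2, g1⟩)
  have h7 : N n A 1 (N n A (q.k + 1) c) = N n A 1 c := N_congr (E_one.2 ⟨g1.1.1, hc.1, g6⟩)
  rw [g3, g4, g5, h7, ← dx_eq hc hq hk, hd] at h6
  have h8 := cell_ge n _ g1.1
  omega

theorem step_NI {c : ℕ} {q : Q} (hc : Cell n c) (hx : NI n A c (OW n A c q.k) x)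
    (hq : QI n A c q) (hk : 1 ≤ q.k) (hL : L n A c ≤ q.k)
    (hd : x.Dm (q.dx n c (N n A 1 c)) = 0) :
    NI n A c (OW n A c (q.k - 1)) { x with Dm := upd x.Dm (q.dx n c (N n A 1 c)) c } := by
  have hcell : ∀ w κ, OW n A c q.k w κ → Cell n w := by
    rintro w κ (h | ⟨rfl, _, _⟩)
    · exact h.2.1
    · exact hc
  refine ⟨hx.lm, hx.om, hx.lz, ?_, ?_⟩
  · intro k' n1 t2 t3 a hk' b1 b2 b3 b4 b5 hne
    obtain ⟨a1, a2, a3, a4, a5⟩ := names_lt hc hq hk
    show ∃ w, upd x.Dm (q.dx n c (N n A 1 c)) c (dix n k' n1 t2 t3 a) = w ∧ _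
    by_cases h : dix n k' n1 t2 t3 a = q.dx n c (N n A 1 c)
    · obtain ⟨r1, r2, r3, r4, r5⟩ := dix_inj b2 b3 b4 b5 a2 a3 a4 a5 h
      refine ⟨c, ?_, ?_, ?_, ?_, ?_, ?_⟩
      · rw [h, upd_same]
      · rw [ow_step hk hq.kx]
        exact Or.inr ⟨rfl, by rw [r1]⟩
      · rw [r1, r2, hq.n1 hk]
      · rw [r1, r3, t2_spec hc hq hk]
      · rw [r1, r4, t3_spec hc hq hk]
      · rw [r5]
    · have hne' : x.Dm (dix n k' n1 t2 t3 a) ≠ 0 := by
        have h1 : upd x.Dm (q.dx n c (N n A 1 c)) c (dix n k' n1 t2 t3 a) ≠ 0 := hne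
        rwa [upd_ne _ _ h] at h1
      obtain ⟨w, hw, hO, e⟩ := hx.dms k' n1 t2 t3 a hk' b1 b2 b3 b4 b5 hne'
      refine ⟨w, ?_, ?_, e⟩
      · rw [upd_ne _ _ h]
        exact hw
      · rw [ow_step hk hq.kx]
        exact Or.inl hO
  · intro w k' hk' hO
    rw [ow_step hk hq.kx] at hO
    show upd x.Dm (q.dx n c (N n A 1 c)) c _ = w
    rcases hO with hO | ⟨rfl, hk2⟩
    · have h1 := hx.dmc w k' hk' hO
      rw [upd_ne]
      · exact h1
      · intro h2
        rw [h2, hd] at h1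
        have h3 := cell_ge n _ (hcell _ _ hO)
        omega
    · have h3 : k' = q.k := by omega
      rw [h3, ← dx_eq hc hq hk, upd_same]

theorem next_QI {c : ℕ} {q : Q} {O : ℕ → ℕ → Prop} (hc : Cell n c) (hx : NI n A c O x)
    (hq : QI n A c q) (hk : 1 ≤ q.k) (hL : L n A c ≤ q.k) : QI n A c (q.next x) := by
  have hge := cell_ge n c hc
  refine ⟨?_, ?_, ?_, ?_, ?_, ?_, ?_⟩
  · show q.k - 1 ≤ _
    have := hq.kx
    omega
  · intro h1
    have h1' : 1 ≤ q.k - 1 := h1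
    show dn x q.k q.n1 = N n A (q.k - 1) (c - (n + 2))
    have h2 : q.k ≤ mx n (c - (n + 2)) := hq.kx.trans (L_le _)
    have h3 := N_le (A := A) h2
    rw [hq.n1 hk]
    exact dn_spec hx (by omega) h2 (by omega)
  · show (if q.l2 = q.k then q.l2 - 1 else q.l2) = min (L n A (c - (n + 1))) (q.k - 1)
    have := hq.l2
    split_ifs with h
    · omega
    · omega
  · show 1 ≤ (if q.l2 = q.k then q.l2 - 1 else q.l2) →
      (if q.l2 = q.k then dn x q.l2 q.n2 else q.n2) =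
        N n A (if q.l2 = q.k then q.l2 - 1 else q.l2) (c - (n + 1))
    split_ifs with h
    · intro h1
      have h2 : q.l2 ≤ mx n (c - (n + 1)) := by
        have h3 := hq.l2
        have h4 := L_le (n := n) (A := A) (c - (n + 1))
        omega
      have h3 := N_le (A := A) h2
      rw [hq.n2 (by omega)]
      exact dn_spec hx (by omega) h2 (by omega)
    · exact hq.n2
  · show (if q.l3 = q.k then q.l3 - 1 else q.l3) = min (L n A (c - 1)) (q.k - 1)
    have := hq.l3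
    split_ifs with h
    · omega
    · omega
  · show 1 ≤ (if q.l3 = q.k then q.l3 - 1 else q.l3) →
      (if q.l3 = q.k then dn x q.l3 q.n3 else q.n3) =
        N n A (if q.l3 = q.k then q.l3 - 1 else q.l3) (c - 1)
    split_ifs with h
    · intro h1
      have h2 : q.l3 ≤ mx n (c - 1) := by
        have h3 := hq.l3
        have h4 := L_le (n := n) (A := A) (c - 1)
        omega
      have h3 := N_le (A := A) h2
      rw [hq.n3 (by omega)]
      exact dn_spec hx (by omega) h2 (by omega)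
    · exact hq.n3
  · show L n A c ≤ q.k - 1 + 1
    omega

end ST2
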