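import Pool.Agent.helper32.ST.HNam

/-!
# ST2-HTest : the tests of one iteration are correct

k = q.k >= 1, x = c - (n+2), z1 = N k x = q.n1.
* t2_spec: if l2 = k: n2 = N k (c-(n+1)).  Otherwise l2 = min (L TR) k <> k so L TR < k and N k TR = TR
  (N_eq_of_L_lt; k <= mx TR because mx c >= k + 1 (child_mx) and mx_up).  t3_spec similarly (mx_left).
* main_spec: nb_right, nb_down and nmx_spec give the names at z1 + 1, z1 + (n+1); Am (z1+(n+2)) = N 1 (z1+(n+2)):
  child_cell (a cell < c, so < c + 1).  N 1 v = N 1 c iff A v = A c (E_of_N_eq / N_congr with E_one).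
  Then main_child_iff.
* names_lt: all names and neighbours are < (n+1)^2 = B (N <= cell < B; k <= mx <= n < B).
-/

namespace ST2

variable {n : ℕ} {A : ℕ → ℕ} {O : ℕ → ℕ → Prop} {x : X}

/-- the sizes of the three neighbours -/
theorem HTest_mx {c : ℕ} {q : Q} (hc : Cell n c) (hq : QI n A c q) :
    q.k ≤ mx n (c - (n + 2)) ∧ q.k ≤ mx n (c - (n + 1)) ∧ q.k ≤ mx n (c - 1) := by
  have h1 := child_mx hc hq.kx
  have h2 := mx_up n c hc.1
  have h3 := mx_left n c hc.1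
  exact ⟨le_trans hq.kx (L_le _), by omega, by omega⟩

theorem t2_spec {c : ℕ} {q : Q} (hc : Cell n c) (hq : QI n A c q) (hk : 1 ≤ q.k) :
    q.t2 n c = N n A q.k (c - (n + 1)) := by
  obtain ⟨-, h3, -⟩ := HTest_mx hc hq
  unfold Q.t2
  by_cases h : q.l2 = q.k
  · rw [if_pos h, hq.n2 (by omega), h]
  · rw [if_neg h]
    have h1 := hq.l2
    have h2 : L n A (c - (n + 1)) < q.k := by
      by_contra h4
      exact h (by rw [h1]; exact min_eq_right (by omega))
    exact (N_eq_of_L_lt h2 h3).symm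

theorem t3_spec {c : ℕ} {q : Q} (hc : Cell n c) (hq : QI n A c q) (hk : 1 ≤ q.k) :
    q.t3 c = N n A q.k (c - 1) := by
  obtain ⟨-, -, h3⟩ := HTest_mx hc hq
  unfold Q.t3
  by_cases h : q.l3 = q.k
  · rw [if_pos h, hq.n3 (by omega), h]
  · rw [if_neg h]
    have h1 := hq.l3
    have h2 : L n A (c - 1) < q.k := by
      by_contra h4
      exact h (by rw [h1]; exact min_eq_right (by omega))
    exact (N_eq_of_L_lt h2 h3).symm

theorem main_spec (hs : Sent n A) {c : ℕ} {q : Q} (hc : Cell n c) (hx : NI n A c O x)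
    (hf : FI n A (c + 1) x) (hq : QI n A c q) (hk : 1 ≤ q.k) :
    MainT n c (N n A 1 c) x q ↔ E n A (q.k + 1) (q.n1 + (n + 2)) c := by
  have hn1 := hq.n1 hk
  obtain ⟨r1, r2, r3⟩ := nb_right hs hc hk hq.kx
  obtain ⟨d1, d2, d3⟩ := nb_down hs hc hk hq.kx
  obtain ⟨c1, c2, c3⟩ := child_cell hs hc hk hq.kx
  have e3 : x.Am (q.n1 + (n + 2)) = N n A 1 (q.n1 + (n + 2)) := by
    rw [hn1]
    exact hf.am _ (by omega) c1
  unfold MainT
  rw [t2_spec hc hq hk, t3_spec hc hq hk, e3, hn1, nmx_spec hx hk r2 r3 r1,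
    nmx_spec hx hk d2 d3 d1, main_child_iff hs hc hk hq.kx]
  have e4 : N n A 1 (N n A q.k (c - (n + 2)) + (n + 2)) = N n A 1 c ↔
      A (N n A q.k (c - (n + 2)) + (n + 2)) = A c := by
    constructor
    · intro h
      exact E_letter (E_of_N_eq c1.1 hc.1 h) le_rfl
    · intro h
      exact N_congr (E_one.mpr ⟨c1.1, hc.1, h⟩)
  rw [e4]

theorem names_lt {c : ℕ} {q : Q} (hc : Cell n c) (hq : QI n A c q) (hk : 1 ≤ q.k) :
    q.k < (n + 1) * (n + 1) ∧ q.n1 < (n + 1) * (n + 1) ∧ q.t2 n c < (n + 1) * (n + 1) ∧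
      q.t3 c < (n + 1) * (n + 1) ∧ N n A 1 c < (n + 1) * (n + 1) := by
  have hn1 := hq.n1 hk
  obtain ⟨h1, h2, h3⟩ := HTest_mx hc hq
  have hB := hc.2
  have a1 := N_le (A := A) h1
  have a2 := N_le (A := A) h2
  have a3 := N_le (A := A) h3
  have a4 := N_le (A := A) hc.1
  have a5 := mx_le n (c - (n + 2))
  have a6 : n < (n + 1) * (n + 1) := by nlinarith
  rw [t2_spec hc hq hk, t3_spec hc hq hk, hn1]
  refine ⟨by omega, by omega, by omega, by omega, by omega⟩

/-- the key of c -/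
theorem dx_eq {c : ℕ} {q : Q} (hc : Cell n c) (hq : QI n A c q) (hk : 1 ≤ q.k) :
    q.dx n c (N n A 1 c) = dix n q.k (N n A q.k (c - (n + 2))) (N n A q.k (c - (n + 1)))
      (N n A q.k (c - 1)) (N n A 1 c) := by
  unfold Q.dx
  rw [t2_spec hc hq hk, t3_spec hc hq hk, hq.n1 hk]

end ST2
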