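import Pool.Agent.helper32.ST.IDef
import Pool.Agent.helper32.ST.FDef

/-!
# ST2-IComp : compiling structured programs to the word RAM

Expression e into register k (using registers >= k): code e k has length e.size and takes e.size steps; the
registers < k are unchanged.  Commands at the offset o.
* code_run: induction on e: from pc = pre.length to pre.length + e.size, reg' k = e.ev m, reg' j = reg j for
  j < k; needs e.ok W m.  (For P = pre ++ code e k ++ post: List.getElem?_append_right etc.)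
* comp_len: (c.comp o).length = c.len for all o.
* comp_run: induction on FRun, for all o, pre with pre.length = o, post, reg: steps T <= 2 t.
  ite: code e 0, jz 0 L1, comp c, jmp L2, comp d.  loop: code e 0, jz 0 Lend, comp c, jmp o.
-/

namespace ST2

def FEx.code : FEx → ℕ → List Instr
  | .lit c, k => [.const k c]
  | .ld a, k => a.code k ++ [.load k k]
  | .add x y, k => x.code k ++ y.code (k + 1) ++ [.op .add k k (k + 1)]
  | .sub x y, k => x.code k ++ y.code (k + 1) ++ [.op .sub k k (k + 1)]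
  | .mul x y, k => x.code k ++ y.code (k + 1) ++ [.op .mul k k (k + 1)]
  | .eq x y, k => x.code k ++ y.code (k + 1) ++ [.op .eq k k (k + 1)]
  | .lt x y, k => x.code k ++ y.code (k + 1) ++ [.op .lt k k (k + 1)]

def FCmd.len : FCmd → ℕ
  | .skip => 0
  | .st a e => a.size + e.size + 1
  | .rd a => a.size + 2
  | .seq c d => c.len + d.len
  | .ite e c d => e.size + 1 + c.len + 1 + d.len
  | .loop e c => e.size + 1 + c.len + 1

def FCmd.comp : FCmd → ℕ → List Instr
  | .skip, _ => []
  | .st a e, _ => a.code 0 ++ e.code 1 ++ [.store 0 1]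
  | .rd a, _ => a.code 0 ++ [.read 1, .store 0 1]
  | .seq c d, o => c.comp o ++ d.comp (o + c.len)
  | .ite e c d, o => e.code 0 ++ [.jz 0 (o + e.size + 1 + c.len + 1)] ++
      c.comp (o + e.size + 1) ++ [.jmp (o + e.size + 1 + c.len + 1 + d.len)] ++
      d.comp (o + e.size + 1 + c.len + 1)
  | .loop e c, o => e.code 0 ++ [.jz 0 (o + e.size + 1 + c.len + 1)] ++
      c.comp (o + e.size + 1) ++ [.jmp o]

/-- the code `l` is in the program `P` at the position `o` -/
def IComp_At (P : List Instr) (o : ℕ) (l : List Instr) : Prop :=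
  ∀ i, i < l.length → P[o + i]? = l[i]?

theorem IComp_At.append {P : List Instr} {o : ℕ} {l1 l2 : List Instr}
    (h : IComp_At P o (l1 ++ l2)) : IComp_At P o l1 ∧ IComp_At P (o + l1.length) l2 := by
  constructor
  · intro i hi
    have h1 := h i (by rw [List.length_append]; omega)
    rwa [List.getElem?_append_left hi] at h1
  · intro i hi
    have h1 := h (l1.length + i) (by rw [List.length_append]; omega)
    rw [List.getElem?_append_right (by omega), Nat.add_sub_cancel_left] at h1
    rw [Nat.add_assoc]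
    exact h1

theorem IComp_At.cons {P : List Instr} {o : ℕ} {x : Instr} {l : List Instr}
    (h : IComp_At P o (x :: l)) : P[o]? = some x ∧ IComp_At P (o + 1) l := by
  constructor
  · have h1 := h 0 (by simp)
    simpa using h1
  · intro i hi
    have h1 := h (i + 1) (by simpa using hi)
    rw [Nat.add_assoc, Nat.add_comm 1 i]
    simpa using h1

theorem IComp_trans {W : ℕ} {P : List Instr} {s1 s2 s3 : Conf} {t1 t2 : ℕ}
    (h : Steps W P s1 s2 t1) (h' : Steps W P s2 s3 t2) : Steps W P s1 s3 (t1 + t2) := by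
  induction h with
  | refl s => rwa [Nat.zero_add]
  | cons s s1 s2 t h1 _ ih =>
    rw [show t + 1 + t2 = (t + t2) + 1 by omega]
    exact Steps.cons s s1 s3 (t + t2) h1 (ih h')

theorem IComp_one {W : ℕ} {P : List Instr} {s s' : Conf} (h : Step W P s s') :
    Steps W P s s' 1 :=
  Steps.cons s s' s' 0 h (Steps.refl s')

theorem IComp_upd (m : ℕ → ℕ) (i v : ℕ) : Function.update m i v = upd m i v := by
  funext j
  unfold upd
  rw [Function.update_apply]

section Wrappers

variable {W : ℕ} {P : List Instr} {o : ℕ} {reg m : ℕ → ℕ} {w : List ℕ}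

theorem IComp_const {r k : ℕ} (h : P[o]? = some (.const r k)) (hk : k < W) :
    Steps W P ⟨o, reg, m, w⟩ ⟨o + 1, Function.update reg r k, m, w⟩ 1 :=
  IComp_one (Step.const (W := W) (P := P) ⟨o, reg, m, w⟩ r k h hk)

theorem IComp_load {r a : ℕ} (h : P[o]? = some (.load r a)) (ha : reg a < W)
    (hk : m (reg a) < W) :
    Steps W P ⟨o, reg, m, w⟩ ⟨o + 1, Function.update reg r (m (reg a)), m, w⟩ 1 :=
  IComp_one (Step.load (W := W) (P := P) ⟨o, reg, m, w⟩ r a h ha hk)

theorem IComp_store {r a : ℕ} (h : P[o]? = some (.store a r)) (ha : reg a < W) (hk : reg r < W) :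
    Steps W P ⟨o, reg, m, w⟩ ⟨o + 1, reg, upd m (reg a) (reg r), w⟩ 1 := by
  rw [← IComp_upd]
  exact IComp_one (Step.store (W := W) (P := P) ⟨o, reg, m, w⟩ a r h ha hk)

theorem IComp_op {op : Op} {r a b : ℕ} (h : P[o]? = some (.op op r a b))
    (hk : op.ap (reg a) (reg b) < W) :
    Steps W P ⟨o, reg, m, w⟩ ⟨o + 1, Function.update reg r (op.ap (reg a) (reg b)), m, w⟩ 1 :=
  IComp_one (Step.op (W := W) (P := P) ⟨o, reg, m, w⟩ op r a b h hk)

theorem IComp_jz0 {r l : ℕ} (h : P[o]? = some (.jz r l)) (h0 : reg r = 0) :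
    Steps W P ⟨o, reg, m, w⟩ ⟨l, reg, m, w⟩ 1 :=
  IComp_one (Step.jz0 (W := W) (P := P) ⟨o, reg, m, w⟩ r l h h0)

theorem IComp_jz1 {r l : ℕ} (h : P[o]? = some (.jz r l)) (h0 : reg r ≠ 0) :
    Steps W P ⟨o, reg, m, w⟩ ⟨o + 1, reg, m, w⟩ 1 :=
  IComp_one (Step.jz1 (W := W) (P := P) ⟨o, reg, m, w⟩ r l h h0)

theorem IComp_jmp {l : ℕ} (h : P[o]? = some (.jmp l)) :
    Steps W P ⟨o, reg, m, w⟩ ⟨l, reg, m, w⟩ 1 :=
  IComp_one (Step.jmp (W := W) (P := P) ⟨o, reg, m, w⟩ l h)

theorem IComp_read {r v : ℕ} (h : P[o]? = some (.read r)) (hv : v < W) :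
    Steps W P ⟨o, reg, m, v :: w⟩ ⟨o + 1, Function.update reg r v, m, w⟩ 1 :=
  IComp_one (Step.read (W := W) (P := P) ⟨o, reg, m, v :: w⟩ r v w h rfl hv)

end Wrappers

theorem IComp_codeLen (e : FEx) (k : ℕ) : (e.code k).length = e.size := by
  induction e generalizing k with
  | lit c => rfl
  | ld a ih => simp [FEx.code, ih]
  | add x y ih1 ih2 => simp [FEx.code, ih1, ih2, Nat.add_assoc]
  | sub x y ih1 ih2 => simp [FEx.code, ih1, ih2, Nat.add_assoc]
  | mul x y ih1 ih2 => simp [FEx.code, ih1, ih2, Nat.add_assoc]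
  | eq x y ih1 ih2 => simp [FEx.code, ih1, ih2, Nat.add_assoc]
  | lt x y ih1 ih2 => simp [FEx.code, ih1, ih2, Nat.add_assoc]

/-- the value of an expression is a word -/
theorem IComp_ev {W : ℕ} {m : ℕ → ℕ} {e : FEx} (h : e.ok W m) : e.ev m < W := by
  cases e with
  | lit c => exact h
  | ld a => exact h.2.2
  | add x y => exact h.2.2
  | sub x y => exact h.2.2
  | mul x y => exact h.2.2
  | eq x y =>
    have h1 : 1 < W := h.2.2
    simp only [FEx.ev]
    split_ifs <;> omega
  | lt x y =>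
    have h1 : 1 < W := h.2.2
    simp only [FEx.ev]
    split_ifs <;> omega

/-- the specification of the code of an expression -/
def IComp_Spec (W : ℕ) (m : ℕ → ℕ) (e : FEx) : Prop :=
  ∀ (P : List Instr) (w : List ℕ) (k o : ℕ) (reg : ℕ → ℕ), IComp_At P o (e.code k) → e.ok W m →
    ∃ reg', Steps W P ⟨o, reg, m, w⟩ ⟨o + e.size, reg', m, w⟩ e.size ∧ reg' k = e.ev m ∧
      ∀ j < k, reg' j = reg j

theorem IComp_bin {W : ℕ} {m : ℕ → ℕ} {x y : FEx} (hx : IComp_Spec W m x)
    (hy : IComp_Spec W m y) (op : Op) (P : List Instr) (w : List ℕ) (k o : ℕ) (reg : ℕ → ℕ)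
    (hat : IComp_At P o (x.code k ++ y.code (k + 1) ++ [.op op k k (k + 1)]))
    (okx : x.ok W m) (oky : y.ok W m) (hop : op.ap (x.ev m) (y.ev m) < W) :
    ∃ reg', Steps W P ⟨o, reg, m, w⟩ ⟨o + (x.size + y.size + 1), reg', m, w⟩
        (x.size + y.size + 1) ∧ reg' k = op.ap (x.ev m) (y.ev m) ∧ ∀ j < k, reg' j = reg j := by
  obtain ⟨h12, h3⟩ := hat.append
  obtain ⟨h1, h2⟩ := h12.append
  rw [List.length_append, IComp_codeLen, IComp_codeLen] at h3
  rw [IComp_codeLen] at h2
  obtain ⟨reg1, s1, e1, f1⟩ := hx P w k o reg h1 okx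
  obtain ⟨reg2, s2, e2, f2⟩ := hy P w (k + 1) (o + x.size) reg1 h2 oky
  have e3 : reg2 k = x.ev m := by rw [f2 k (by omega), e1]
  have h4 := h3.cons.1
  have h5 : op.ap (reg2 k) (reg2 (k + 1)) < W := by rw [e3, e2]; exact hop
  refine ⟨Function.update reg2 k (op.ap (reg2 k) (reg2 (k + 1))), ?_, ?_, ?_⟩
  · refine IComp_trans (IComp_trans s1 s2) ?_
    rw [← Nat.add_assoc] at h4
    have h7 : o + (x.size + y.size + 1) = o + x.size + y.size + 1 := by omega
    rw [h7]
    exact IComp_op h4 h5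
  · rw [Function.update_self, e3, e2]
  · intro j hj
    rw [Function.update_of_ne (by omega), f2 j (by omega), f1 j hj]

theorem IComp_spec (W : ℕ) (m : ℕ → ℕ) (e : FEx) : IComp_Spec W m e := by
  induction e with
  | lit c =>
    intro P w k o reg hat ok
    refine ⟨Function.update reg k c, ?_, ?_, ?_⟩
    · exact IComp_const hat.cons.1 ok
    · rw [Function.update_self]
      rfl
    · intro j hj
      rw [Function.update_of_ne (by omega)]
  | ld a ih =>
    intro P w k o reg hat ok
    obtain ⟨h1, h2⟩ := IComp_At.append (l1 := a.code k) (l2 := [.load k k]) hat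
    rw [IComp_codeLen] at h2
    obtain ⟨ok1, ok2, ok3⟩ := ok
    obtain ⟨reg1, s1, e1, f1⟩ := ih P w k o reg h1 ok1
    refine ⟨Function.update reg1 k (m (reg1 k)), ?_, ?_, ?_⟩
    · refine IComp_trans s1 ?_
      exact IComp_load h2.cons.1 (by rw [e1]; exact ok2) (by rw [e1]; exact ok3)
    · rw [Function.update_self, e1]
      rfl
    · intro j hj
      rw [Function.update_of_ne (by omega), f1 j hj]
  | add x y ih1 ih2 =>
    intro P w k o reg hat ok
    exact IComp_bin ih1 ih2 .add P w k o reg hat ok.1 ok.2.1 ok.2.2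
  | sub x y ih1 ih2 =>
    intro P w k o reg hat ok
    exact IComp_bin ih1 ih2 .sub P w k o reg hat ok.1 ok.2.1 ok.2.2
  | mul x y ih1 ih2 =>
    intro P w k o reg hat ok
    exact IComp_bin ih1 ih2 .mul P w k o reg hat ok.1 ok.2.1 ok.2.2
  | eq x y ih1 ih2 =>
    intro P w k o reg hat ok
    exact IComp_bin ih1 ih2 .eq P w k o reg hat ok.1 ok.2.1 (IComp_ev (e := .eq x y) ok)
  | lt x y ih1 ih2 =>
    intro P w k o reg hat ok
    exact IComp_bin ih1 ih2 .lt P w k o reg hat ok.1 ok.2.1 (IComp_ev (e := .lt x y) ok)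

theorem IComp_len (c : FCmd) (o : ℕ) : (c.comp o).length = c.len := by
  induction c generalizing o with
  | skip => rfl
  | st a e => simp [FCmd.comp, FCmd.len, IComp_codeLen, Nat.add_assoc]
  | rd a => simp [FCmd.comp, FCmd.len, IComp_codeLen]
  | seq c d ih1 ih2 => simp [FCmd.comp, FCmd.len, ih1, ih2]
  | ite e c d ih1 ih2 =>
    simp only [FCmd.comp, FCmd.len, List.length_append, ih1, ih2, IComp_codeLen,
      List.length_singleton]
  | loop e c ih =>
    simp only [FCmd.comp, FCmd.len, List.length_append, ih, IComp_codeLen,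
      List.length_singleton]

/-- steps with an equality of configurations -/
theorem IComp_cast {W : ℕ} {P : List Instr} {s : Conf} {a b : ℕ} {reg m : ℕ → ℕ} {w : List ℕ}
    {t : ℕ} (h : Steps W P s ⟨a, reg, m, w⟩ t) (hab : a = b) : Steps W P s ⟨b, reg, m, w⟩ t := by
  rw [← hab]
  exact h

theorem IComp_run {W : ℕ} {c : FCmd} {m m' : ℕ → ℕ} {w w' : List ℕ} {t : ℕ}
    (h : FRun W c m w m' w' t) : ∀ (P : List Instr) (o : ℕ) (reg : ℕ → ℕ),
      IComp_At P o (c.comp o) →
      ∃ reg' T, Steps W P ⟨o, reg, m, w⟩ ⟨o + c.len, reg', m', w'⟩ T ∧ T ≤ 2 * t := by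
  induction h with
  | skip m w =>
    intro P o reg _
    exact ⟨reg, 0, Steps.refl _, by omega⟩
  | st a e m w ha he =>
    intro P o reg hat
    obtain ⟨h12, h3⟩ := IComp_At.append (l1 := a.code 0 ++ e.code 1) (l2 := [.store 0 1]) hat
    obtain ⟨h1, h2⟩ := h12.append
    rw [List.length_append, IComp_codeLen, IComp_codeLen] at h3
    rw [IComp_codeLen] at h2
    obtain ⟨reg1, s1, e1, f1⟩ := IComp_spec W m a P w 0 o reg h1 ha
    obtain ⟨reg2, s2, e2, f2⟩ := IComp_spec W m e P w 1 (o + a.size) reg1 h2 he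
    have e3 : reg2 0 = a.ev m := by rw [f2 0 (by omega), e1]
    have h4 := h3.cons.1
    rw [← Nat.add_assoc] at h4
    have s3 := IComp_store (W := W) (reg := reg2) (m := m) (w := w) h4
      (by rw [e3]; exact IComp_ev ha) (by rw [e2]; exact IComp_ev he)
    rw [e3, e2] at s3
    refine ⟨reg2, _, IComp_cast (IComp_trans (IComp_trans s1 s2) s3) ?_, ?_⟩
    · rw [FCmd.len]
      omega
    · omega
  | rd a m v w ha hv =>
    intro P o reg hat
    obtain ⟨h1, h2⟩ := IComp_At.append (l1 := a.code 0) (l2 := [.read 1, .store 0 1]) hat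
    rw [IComp_codeLen] at h2
    obtain ⟨reg1, s1, e1, f1⟩ := IComp_spec W m a P (v :: w) 0 o reg h1 ha
    obtain ⟨h3, h4⟩ := h2.cons
    have h5 := h4.cons.1
    have s2 := IComp_read (W := W) (reg := reg1) (m := m) (w := w) h3 hv
    have e4 : (Function.update reg1 1 v) 0 = a.ev m := by
      rw [Function.update_of_ne (by omega), e1]
    have e5 : (Function.update reg1 1 v) 1 = v := Function.update_self _ _ _
    have s3 := IComp_store (W := W) (reg := Function.update reg1 1 v) (m := m) (w := w) h5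
      (by rw [e4]; exact IComp_ev ha) (by rw [e5]; exact hv)
    rw [e4, e5] at s3
    refine ⟨_, _, IComp_cast (IComp_trans (IComp_trans s1 s2) s3) ?_, ?_⟩
    · rw [FCmd.len]
      omega
    · omega
  | seq c d m m1 m2 w w1 w2 t1 t2 _ _ ih1 ih2 =>
    intro P o reg hat
    obtain ⟨h1, h2⟩ := IComp_At.append (l1 := c.comp o) (l2 := d.comp (o + c.len)) hat
    rw [IComp_len] at h2
    obtain ⟨reg1, T1, s1, g1⟩ := ih1 P o reg h1
    obtain ⟨reg2, T2, s2, g2⟩ := ih2 P (o + c.len) reg1 h2
    refine ⟨reg2, _, IComp_cast (IComp_trans s1 s2) ?_, ?_⟩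
    · rw [FCmd.len]
      omega
    · omega
  | iteT e c d m m' w w' t he h _ ih =>
    intro P o reg hat
    obtain ⟨h1234, h5⟩ := IComp_At.append (l1 := e.code 0 ++
      [.jz 0 (o + e.size + 1 + c.len + 1)] ++ c.comp (o + e.size + 1) ++
      [.jmp (o + e.size + 1 + c.len + 1 + d.len)]) (l2 := d.comp (o + e.size + 1 + c.len + 1)) hat
    obtain ⟨h123, h4⟩ := h1234.append
    obtain ⟨h12, h3⟩ := h123.append
    obtain ⟨h1, h2⟩ := h12.append
    simp only [List.length_append, IComp_codeLen, IComp_len, List.length_singleton] at h2 h3 h4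
    obtain ⟨reg1, s1, e1, f1⟩ := IComp_spec W m e P w 0 o reg h1 he
    have s2 := IComp_jz1 (W := W) (reg := reg1) (m := m) (w := w) h2.cons.1 (by rw [e1]; exact h)
    obtain ⟨reg3, T3, s3, g3⟩ := ih P (o + e.size + 1) reg1
      (by rw [show o + e.size + 1 = o + (e.size + 1) by omega]; exact h3)
    have h6 := h4.cons.1
    rw [show o + (e.size + 1 + c.len) = o + e.size + 1 + c.len by omega] at h6
    have s4 := IComp_jmp (W := W) (reg := reg3) (m := m') (w := w') h6
    refine ⟨reg3, _, IComp_cast (IComp_trans (IComp_trans (IComp_trans s1 s2) s3) s4) ?_, ?_⟩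
    · rw [FCmd.len]
      omega
    · omega
  | iteF e c d m m' w w' t he h _ ih =>
    intro P o reg hat
    obtain ⟨h1234, h5⟩ := IComp_At.append (l1 := e.code 0 ++
      [.jz 0 (o + e.size + 1 + c.len + 1)] ++ c.comp (o + e.size + 1) ++
      [.jmp (o + e.size + 1 + c.len + 1 + d.len)]) (l2 := d.comp (o + e.size + 1 + c.len + 1)) hat
    obtain ⟨h123, h4⟩ := h1234.append
    obtain ⟨h12, h3⟩ := h123.append
    obtain ⟨h1, h2⟩ := h12.append
    simp only [List.length_append, IComp_codeLen, IComp_len, List.length_singleton] at h2 h5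
    obtain ⟨reg1, s1, e1, f1⟩ := IComp_spec W m e P w 0 o reg h1 he
    have s2 := IComp_jz0 (W := W) (reg := reg1) (m := m) (w := w) h2.cons.1 (by rw [e1]; exact h)
    have h6 : o + (e.size + 1 + c.len + 1) = o + e.size + 1 + c.len + 1 := by omega
    rw [h6] at h5
    obtain ⟨reg3, T3, s3, g3⟩ := ih P (o + e.size + 1 + c.len + 1) reg1 h5
    refine ⟨reg3, _, IComp_cast (IComp_trans (IComp_trans s1 s2) s3) ?_, ?_⟩
    · rw [FCmd.len]
      omega
    · omega
  | loopF e c m w he h =>
    intro P o reg hat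
    obtain ⟨h123, h4⟩ := IComp_At.append (l1 := e.code 0 ++
      [.jz 0 (o + e.size + 1 + c.len + 1)] ++ c.comp (o + e.size + 1)) (l2 := [.jmp o]) hat
    obtain ⟨h12, h3⟩ := h123.append
    obtain ⟨h1, h2⟩ := h12.append
    rw [IComp_codeLen] at h2
    obtain ⟨reg1, s1, e1, f1⟩ := IComp_spec W m e P w 0 o reg h1 he
    have s2 := IComp_jz0 (W := W) (reg := reg1) (m := m) (w := w) h2.cons.1 (by rw [e1]; exact h)
    refine ⟨reg1, _, IComp_cast (IComp_trans s1 s2) ?_, ?_⟩
    · rw [FCmd.len]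
      omega
    · omega
  | loopT e c m m1 m2 w w1 w2 t1 t2 he h _ _ ih1 ih2 =>
    intro P o reg hat
    obtain ⟨h123, h4⟩ := IComp_At.append (l1 := e.code 0 ++
      [.jz 0 (o + e.size + 1 + c.len + 1)] ++ c.comp (o + e.size + 1)) (l2 := [.jmp o]) hat
    obtain ⟨h12, h3⟩ := h123.append
    obtain ⟨h1, h2⟩ := h12.append
    simp only [List.length_append, IComp_codeLen, IComp_len, List.length_singleton] at h2 h3 h4
    obtain ⟨reg1, s1, e1, f1⟩ := IComp_spec W m e P w 0 o reg h1 he
    have s2 := IComp_jz1 (W := W) (reg := reg1) (m := m) (w := w) h2.cons.1 (by rw [e1]; exact h)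
    obtain ⟨reg3, T3, s3, g3⟩ := ih1 P (o + e.size + 1) reg1
      (by rw [show o + e.size + 1 = o + (e.size + 1) by omega]; exact h3)
    have h6 := h4.cons.1
    rw [show o + (e.size + 1 + c.len) = o + e.size + 1 + c.len by omega] at h6
    have s4 := IComp_jmp (W := W) (reg := reg3) (m := m1) (w := w1) h6
    obtain ⟨reg5, T5, s5, g5⟩ := ih2 P o reg3 hat
    refine ⟨reg5, _, IComp_trans (IComp_trans (IComp_trans (IComp_trans s1 s2) s3) s4) s5, ?_⟩
    omega

theorem comp_exec {W : ℕ} {c : FCmd} {m m' : ℕ → ℕ} {w w' : List ℕ} {t : ℕ}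
    (h : FRun W c m w m' w' t) : ∃ T, Exec W (c.comp 0) m w m' w' T ∧ T ≤ 2 * t := by
  obtain ⟨reg', T, h1, h2⟩ := IComp_run h (c.comp 0) 0 (fun _ => 0)
    (by intro i _; rw [Nat.zero_add])
  refine ⟨T, ⟨reg', IComp_cast h1 ?_⟩, h2⟩
  rw [IComp_len, Nat.zero_add]

theorem IComp_inp {W : ℕ} {P : List Instr} {s s' : Conf} (h : Step W P s s') :
    s.inp.length ≤ s'.inp.length + 1 := by
  cases h with
  | read r v w h hi hv =>
    rw [hi]
    simp
  | _ => simp

/-- reading an input word takes a step -/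
theorem exec_read {W : ℕ} {P : List Instr} {m m' : ℕ → ℕ} {w w' : List ℕ} {t : ℕ}
    (h : Exec W P m w m' w' t) : w.length ≤ w'.length + t := by
  obtain ⟨reg', h1⟩ := h
  have key : ∀ (s s' : Conf) (t : ℕ), Steps W P s s' t → s.inp.length ≤ s'.inp.length + t := by
    intro s s' t h
    induction h with
    | refl s => omega
    | cons s s1 s2 t h1 _ ih =>
      have h2 := IComp_inp h1
      omega
  exact key _ _ _ h1

end ST2
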