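import Mathlib

/-!
# ST2-IDef : the word RAM (definitions)

A program is a list of instructions; the registers are numbered (a program uses finitely many of them);
the memory is an array of words indexed by words; the input is a list of words which is read in order.  All values
written into registers, all input values and all addresses used must be < W (words).
-/

namespace ST2

inductive Op
  | add | sub | mul | eq | lt

/-- results of the operations (sub is truncated subtraction, eq and lt are tests) -/
def Op.ap : Op → ℕ → ℕ → ℕ
  | .add, x, y => x + y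
  | .sub, x, y => x - y
  | .mul, x, y => x * y
  | .eq, x, y => if x = y then 1 else 0
  | .lt, x, y => if x < y then 1 else 0

inductive Instr
  | const (r k : ℕ)
  | load (r a : ℕ)
  | store (a r : ℕ)
  | op (o : Op) (r a b : ℕ)
  | jz (r l : ℕ)
  | jmp (l : ℕ)
  | read (r : ℕ)

/-- configuration: program counter, registers, memory, remaining input -/
structure Conf where
  pc : ℕ
  reg : ℕ → ℕ
  mem : ℕ → ℕ
  inp : List ℕ

/-- one step of the program P with word bound W -/
inductive Step (W : ℕ) (P : List Instr) : Conf → Conf → Prop
  | const (s : Conf) (r k : ℕ) (h : P[s.pc]? = some (.const r k)) (hk : k < W) :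
      Step W P s { s with pc := s.pc + 1, reg := Function.update s.reg r k }
  | load (s : Conf) (r a : ℕ) (h : P[s.pc]? = some (.load r a)) (ha : s.reg a < W)
      (hk : s.mem (s.reg a) < W) :
      Step W P s { s with pc := s.pc + 1, reg := Function.update s.reg r (s.mem (s.reg a)) }
  | store (s : Conf) (a r : ℕ) (h : P[s.pc]? = some (.store a r)) (ha : s.reg a < W)
      (hk : s.reg r < W) :
      Step W P s { s with pc := s.pc + 1, mem := Function.update s.mem (s.reg a) (s.reg r) }
  | op (s : Conf) (o : Op) (r a b : ℕ) (h : P[s.pc]? = some (.op o r a b))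
      (hk : o.ap (s.reg a) (s.reg b) < W) :
      Step W P s { s with pc := s.pc + 1,
                          reg := Function.update s.reg r (o.ap (s.reg a) (s.reg b)) }
  | jz0 (s : Conf) (r l : ℕ) (h : P[s.pc]? = some (.jz r l)) (h0 : s.reg r = 0) :
      Step W P s { s with pc := l }
  | jz1 (s : Conf) (r l : ℕ) (h : P[s.pc]? = some (.jz r l)) (h0 : s.reg r ≠ 0) :
      Step W P s { s with pc := s.pc + 1 }
  | jmp (s : Conf) (l : ℕ) (h : P[s.pc]? = some (.jmp l)) : Step W P s { s with pc := l }
  | read (s : Conf) (r v : ℕ) (w : List ℕ) (h : P[s.pc]? = some (.read r)) (hi : s.inp = v :: w)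
      (hv : v < W) :
      Step W P s { s with pc := s.pc + 1, reg := Function.update s.reg r v, inp := w }

/-- t steps -/
inductive Steps (W : ℕ) (P : List Instr) : Conf → Conf → ℕ → Prop
  | refl (s : Conf) : Steps W P s s 0
  | cons (s s1 s2 : Conf) (t : ℕ) (h : Step W P s s1) (h' : Steps W P s1 s2 t) :
      Steps W P s s2 (t + 1)

/-- The program P, started with memory m and input w (at its first instruction, all registers 0),
reaches its end after exactly t steps with memory m' and remaining input w'. -/
def Exec (W : ℕ) (P : List Instr) (m : ℕ → ℕ) (w : List ℕ) (m' : ℕ → ℕ) (w' : List ℕ) (t : ℕ) :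
    Prop :=
  ∃ reg', Steps W P ⟨0, fun _ => 0, m, w⟩ ⟨P.length, reg', m', w'⟩ t

end ST2
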