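import Mathlib

/-!
# ST2: names of squares

Cells of an n by n matrix are coded by numbers z = i (n+1) + j (row i, column j, 1 <= i, j <= n);
`A : ℕ → ℕ` gives the letter of a code.  `mx n z` is the size of the largest square whose bottom right
cell is z.  `E n A k z w`: the k-squares with bottom right cells z and w are equal.
`N n A k z` is the first (row major = numerically least) cell whose k-square equals that of z, and
`L n A z` is the largest k such that the k-square at z has an earlier occurrence.
-/

namespace ST2

def mx (n z : ℕ) : ℕ := min (z / (n + 1)) (z % (n + 1))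

def Cell (n z : ℕ) : Prop := 1 ≤ mx n z ∧ z < (n + 1) * (n + 1)

def E (n : ℕ) (A : ℕ → ℕ) (k z w : ℕ) : Prop :=
  k ≤ mx n z ∧ k ≤ mx n w ∧ ∀ a < k, ∀ b < k, A (z - a * (n + 1) - b) = A (w - a * (n + 1) - b)

noncomputable def N (n : ℕ) (A : ℕ → ℕ) (k z : ℕ) : ℕ := sInf {w | E n A k w z}

open Classical in
noncomputable def L (n : ℕ) (A : ℕ → ℕ) (z : ℕ) : ℕ :=
  Nat.findGreatest (fun k => N n A k z < z) (mx n z)

/-- the letters of the last column do not occur elsewhere in the first n - 1 rows -/
def Sent (n : ℕ) (A : ℕ → ℕ) : Prop :=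
  ∀ z w, Cell n z → z % (n + 1) = n → Cell n w → w < n * (n + 1) → A w = A z → w = z

end ST2
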