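import Pool.Agent.helper32.ST.SPar

/-!
# ST2-SFin : the tree arrays form the suffix tree

inside: for v = fr z k: row of po = r-(k-1) etc. (rs0_canon, z + (n+2) < c0); for v = fo u κ: own_full (sz = 0).
nodes, inj: SLab.  parent: TRep.par for the range; par_real / par_own and par_gen; the label of the parent is a proper
initial segment since j < k (lengths).  children: l = kids v: TRep.nodup, mem; Chain0 from Lnk, fc v = headD,
all members are >= 2 (induction on the list).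
-/

namespace ST2

variable {n t : ℕ} {M : ℕ → ℕ → ℕ} {τ : TR} {fr fo : ℕ → ℕ → ℕ}

theorem SFin_chain {ns ps : ℕ → ℕ} : ∀ {l : List ℕ}, Lnk ns ps l → (∀ x ∈ l, x ≠ 0) →
    Chain0 ns (l.headD 0) l
  | [], _, _ => rfl
  | [x], h, h0 => ⟨rfl, h0 x (by simp), h⟩
  | x :: y :: l, h, h0 => by
    obtain ⟨a, _, c⟩ := h
    refine ⟨rfl, h0 x (by simp), ?_⟩
    rw [a]
    exact SFin_chain (l := y :: l) c (fun z hz => h0 z (List.mem_cons_of_mem _ hz))

theorem SFin_take {w : List (List ℕ)} {j k : ℕ} (hw : w.length = k) (hj : j < k) :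
    w.take j <+: w ∧ w.take j ≠ w := by
  refine ⟨List.take_prefix _ _, ?_⟩
  intro e
  have := congrArg List.length e
  rw [List.length_take, hw] at this
  omega

theorem SFin_inside (hs : Sent n (cod n M)) (ht' : t ≤ n)
    (h : FT n t M τ fr fo) {v : ℕ} (h2 : 2 ≤ v) (hv : v ≤ τ.cnt) :
    1 ≤ τ.po v / (n + 1) ∧ τ.po v / (n + 1) ≤ t ∧
    1 ≤ τ.po v % (n + 1) ∧ τ.po v / (n + 1) + τ.sz v ≤ t + 1 ∧
    τ.po v % (n + 1) + τ.sz v ≤ n + 1 := by
  rcases h.sur v h2 hv with ⟨z, k, hr, rfl⟩ | ⟨u, κ, ho, rfl⟩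
  · obtain ⟨-, -, e1, e2⟩ := h.rr z k hr
    obtain ⟨c1, c2, -, c4, c5, -, -⟩ := rs0_canon hs hr
    have hrow : z / (n + 1) < t + 1 := Nat.div_lt_of_lt_mul (by rw [Nat.mul_comm]; omega)
    have hm : k ≤ z / (n + 1) ∧ k ≤ z % (n + 1) := by
      unfold mx at c2
      exact le_min_iff.1 c2
    rw [e1, e2, sub_div n z (k - 1) (by omega), sub_mod n z (k - 1) (by omega)]
    omega
  · obtain ⟨-, -, e1, e2⟩ := h.oo u κ ho
    have hκ : 1 ≤ κ := by
      have := ho.2.2.1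
      omega
    obtain ⟨c1, c2, c3, -⟩ := own_full ht' hκ ho
    have hm : tl n u κ % (n + 1) < n + 1 := Nat.mod_lt _ (by omega)
    rw [e1, e2]
    omega

theorem sufTree_of_FT (hs : Sent n (cod n M)) (ht : 1 ≤ t) (ht' : t ≤ n)
    (h : FT n t M τ fr fo) : SufTree n M t τ.cnt τ.par τ.fc τ.ns τ.sz τ.po := by
  obtain ⟨kids, hk⟩ := h.rep
  refine ⟨hk.pos, fun v h2 hv => SFin_inside hs ht' h h2 hv, fun w => label_nodes hs ht ht' h w,
    fun v v' h1 h2 h1' h2' he => label_inj hs ht ht' h h1 h2 h1' h2' he, ?_, ?_⟩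
  · intro v h2 hv
    obtain ⟨p1, p2⟩ := hk.par v h2 hv
    refine ⟨p1, p2, ?_⟩
    rcases h.sur v h2 hv with ⟨z, k, hr, rfl⟩ | ⟨u, κ, ho, rfl⟩
    · obtain ⟨c1, c2, -, c4, -, -, c7⟩ := rs0_canon hs hr
      obtain ⟨j, hj, e, hmax⟩ := par_real hs ht ht' h hr
      have hlen : (str n M z k).length = k := lstr_len _ _ _ _
      rw [e, label_real hs h hr]
      obtain ⟨t1, t2⟩ := SFin_take hlen hj
      exact ⟨t1, t2, fun w hw hp hne =>
        par_gen hs ht ht' c7 (by omega) c2 hj hmax w hw hp hne⟩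
    · have hκ : 1 ≤ κ := by
        have := ho.2.2.1
        omega
      obtain ⟨-, -, -, -, z, -, e2, c7, c4, c2, -⟩ := own_full ht' hκ ho
      obtain ⟨j, hj, e, hmax⟩ := par_own hs ht ht' h ho
      rw [e, label_own ht' h ho]
      rw [← e2] at hmax ⊢
      have hlen : (str n M z (full n t (tl n u κ))).length = full n t (tl n u κ) :=
        lstr_len _ _ _ _
      obtain ⟨t1, t2⟩ := SFin_take hlen hj
      exact ⟨t1, t2, fun w hw hp hne =>
        par_gen hs ht ht' c7 c4 c2 hj hmax w hw hp hne⟩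
  · intro v h1 hv
    refine ⟨kids v, hk.nodup v, ?_, hk.mem v⟩
    rw [hk.fc v h1]
    refine SFin_chain (hk.lnk v) ?_
    intro x hx
    have := (hk.mem v x).1 hx
    omega

end ST2
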