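import Pool.Agent.helper32.ST.RCell
import Pool.Agent.helper32.ST.ZDef
import Pool.Agent.helper32.ST.HAll
import Pool.Agent.helper32.ST.SFin

/-!
# ST2-RAll : the whole run in the array language

s0: all registers and arrays 0, inp = [n].  init_sim: compute (rd, then code without loops).
run_all: A = cod n M; all_ex gives xs, gs, ts.  ss 0 = state after initC; xs c = X.init, gs c = G.init for c <= n+1 (the codes
0..n are not cells: row 0).  The states ss t by recursion with choice from row_sim (with inp replaced by the row).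
SufTree after row t: SI n A ((t+1)(n+1)): GI, fin_of_GI, sufTree_of_FT; absT (ss t) = (gs ..).t.
Sum: sum over t of (sum of ts over the row + n + 1) <= 86 (n+1)^2 + n (n+1); total <= 7000 * 87 (n+1)^2 + T0
<= 700000 (n+1)^2 <= 2800000 n^2 for n >= 1; T0 <= 100.
(The rows t(n+1)+1 .. t(n+1)+n, t = 1..n, are disjoint subsets of range ((n+1)^2).)
-/

namespace ST2

def St.zero (w : List ℕ) : St := ⟨fun _ => 0, fun _ _ => 0, w⟩

theorem init_sim (n : ℕ) : ∃ s' T, Run initC (St.zero [n]) s' T ∧ Par n s' ∧ s'.rg .c = n ∧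
    absX s' = X.init ∧ absG s' = G.init ∧ s'.inp = [] ∧ T ≤ 100 := by
  have h1 : Run (.rd .n) (St.zero [n]) { (St.zero [n]).setr .n n with inp := [] } 1 :=
    Run.rd .n _ n [] rfl
  obtain ⟨T, hT, h2⟩ := run_ex (bl [
    .set .n1 (.add (.reg .n) (.lit 1)),
    .set .dl (.add (.reg .n) (.lit 2)),
    .set .bb (.mul (.reg .n1) (.reg .n1)),
    .set .cnt (.lit 1),
    .put .fl (.lit 1) (.lit 1),
    .set .last (.lit 1),
    .set .tc (.lit 1),
    .set .c (.reg .n)]) rfl { (St.zero [n]).setr .n n with inp := [] }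
  refine ⟨_, 1 + T, Run.seq _ _ _ _ _ _ _ h1 h2, ⟨rfl, rfl, rfl, rfl⟩, rfl, rfl, rfl, rfl, ?_⟩
  simp only [bl, Cmd.size, Ex.size] at hT
  omega


theorem RAll_row (n : ℕ) (M : ℕ → ℕ → ℕ) (t : ℕ) :
    rowOf n M t = (List.range n).map (fun j => cod n M (t * (n + 1) + j + 1)) := by
  unfold rowOf
  refine List.map_congr_left fun j hj => ?_
  have hj' : j < n := List.mem_range.1 hj
  show M t (j + 1) = M ((t * (n + 1) + j + 1) / (n + 1)) ((t * (n + 1) + j + 1) % (n + 1))
  have e : t * (n + 1) + j + 1 = t * (n + 1) + (j + 1) := rfl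
  rw [e, (AMx_dm n t (j + 1) (by omega)).1, (AMx_dm n t (j + 1) (by omega)).2]

/-- sums over blocks -/
theorem RAll_blocks (f : ℕ → ℕ) (N K : ℕ) :
    ∑ c ∈ Finset.range (K * N), f c = ∑ r ∈ Finset.range K, ∑ j ∈ Finset.range N, f (r * N + j) := by
  induction K with
  | zero => simp
  | succ K ih => rw [Nat.succ_mul, Finset.sum_range_add, ih, Finset.sum_range_succ]

theorem RAll_sum (f : ℕ → ℕ) (n : ℕ) :
    ∑ t ∈ Finset.range n, ∑ j ∈ Finset.range n, f ((t + 1) * (n + 1) + j + 1) ≤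
      ∑ c ∈ Finset.range ((n + 1) * (n + 1)), f c := by
  rw [RAll_blocks, Finset.sum_range_succ']
  refine le_trans (Finset.sum_le_sum fun t _ => ?_) (Nat.le_add_right _ _)
  rw [Finset.sum_range_succ']
  exact Nat.le_add_right _ _

/-- the invariant after row t -/
def RAllInv (n : ℕ) (xs : ℕ → X) (gs : ℕ → G) (t : ℕ) (s : St) : Prop :=
  Par n s ∧ s.rg .c + 1 = (t + 1) * (n + 1) ∧ absX s = xs ((t + 1) * (n + 1)) ∧
    absG s = gs ((t + 1) * (n + 1)) ∧ s.inp = []

theorem run_all {n : ℕ} {M : ℕ → ℕ → ℕ} (hn : 1 ≤ n) (hs : Sent n (cod n M)) :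
    ∃ (ss : ℕ → St) (T : ℕ → ℕ), Run initC (St.zero [n]) (ss 0) (T 0) ∧ Par n (ss 0) ∧
      (∀ t, 1 ≤ t → t ≤ n → Run rowC { ss (t - 1) with inp := rowOf n M t } (ss t) (T t) ∧
        Par n (ss t) ∧
        SufTree n M t ((ss t).rg .tc) ((ss t).ar .par) ((ss t).ar .fc) ((ss t).ar .ns)
          ((ss t).ar .sz) ((ss t).ar .po)) ∧
      (∀ t ≤ n, (ss t).inp = []) ∧
      ∑ t ∈ Finset.range (n + 1), T t ≤ 3000000 * n ^ 2 := by
  obtain ⟨xs, gs, ts, ms, hx0, hg0, hst, hSI, hsum⟩ := all_ex (A := cod n M) hs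
  -- the codes 0, ..., n are not cells
  have hzero : ∀ c ≤ n + 1, xs c = X.init ∧ gs c = G.init := by
    intro c
    induction c with
    | zero => exact fun _ => ⟨hx0, hg0⟩
    | succ c ih =>
      intro hc
      have h1 := ih (by omega)
      have h2 : c < (n + 1) * (n + 1) := by nlinarith
      have h3 : ¬ Cell n c := by
        intro h
        have h4 := ((cell_iff n c).1 h).1
        rw [Nat.div_eq_of_lt (by omega)] at h4
        omega
      obtain ⟨a1, a2, -⟩ := (hst c h2).2 h3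
      exact ⟨a1.trans h1.1, a2.trans h1.2⟩
  obtain ⟨s0, T0, hr0, hp0, hc0, hX0, hG0, hi0, hT0⟩ := init_sim n
  have hinv0 : RAllInv n xs gs 0 s0 := by
    refine ⟨hp0, by rw [hc0]; ring, ?_, ?_, hi0⟩
    · rw [hX0, (hzero _ (by omega)).1]
    · rw [hG0, (hzero _ (by omega)).2]
  -- one row
  have hrow : ∀ (t : ℕ) (s : St), ∃ (s' : St) (T : ℕ), t < n → RAllInv n xs gs t s →
      Run rowC { s with inp := rowOf n M (t + 1) } s' T ∧ RAllInv n xs gs (t + 1) s' ∧
      T ≤ 7000 * (∑ j ∈ Finset.range n, ts ((t + 1) * (n + 1) + j + 1) + n + 1) := by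
    intro t s
    by_cases h : t < n ∧ RAllInv n xs gs t s
    · obtain ⟨ht, h1, h2, h3, h4, -⟩ := h
      obtain ⟨s', T, b1, b2, b3, b4, b5, b6, b7⟩ := row_sim (n := n) (A := cod n M) (xs := xs)
        (gs := gs) (ts := ts) (t := t + 1) (by omega) (by omega) hst
        (s := { s with inp := rowOf n M (t + 1) }) ⟨h1.hn, h1.hn1, h1.hdl, h1.hbb⟩ h2 h3 h4
        (RAll_row n M (t + 1))
      exact ⟨s', T, fun _ _ => ⟨b1, ⟨b2, b3, b4, b5, b6⟩, b7⟩⟩
    · exact ⟨s, 0, fun h1 h2 => absurd ⟨h1, h2⟩ h⟩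
  choose F C hFC using hrow
  let ss : ℕ → St := fun t => Nat.rec s0 (fun t s => F t s) t
  let T : ℕ → ℕ := fun t => Nat.casesOn t T0 (fun t => C t (ss t))
  have hss : ∀ t, ss (t + 1) = F t (ss t) := fun _ => rfl
  have hTT : ∀ t, T (t + 1) = C t (ss t) := fun _ => rfl
  have hinv : ∀ t ≤ n, RAllInv n xs gs t (ss t) := by
    intro t
    induction t with
    | zero => exact fun _ => hinv0
    | succ t ih =>
      intro ht
      rw [hss]
      exact (hFC t (ss t) (by omega) (ih (by omega))).2.1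
  refine ⟨ss, T, hr0, hp0, ?_, fun t ht => (hinv t ht).2.2.2.2, ?_⟩
  · intro t h1 ht
    obtain ⟨t, rfl⟩ : ∃ u, t = u + 1 := ⟨t - 1, by omega⟩
    have hF := hFC t (ss t) (by omega) (hinv t (by omega))
    have hI := hinv (t + 1) ht
    refine ⟨hF.1, hI.1, ?_⟩
    obtain ⟨-, -, hGI⟩ := hSI ((t + 1 + 1) * (n + 1)) (Nat.mul_le_mul_right _ (by omega))
    obtain ⟨fr, fo, hfin⟩ := fin_of_GI hGI
    have hg := hI.2.2.2.1
    rw [← hg] at hfin
    exact sufTree_of_FT hs h1 ht hfin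
  · rw [Finset.sum_range_succ']
    have e1 : ∑ t ∈ Finset.range n, T (t + 1) ≤ ∑ t ∈ Finset.range n,
        7000 * (∑ j ∈ Finset.range n, ts ((t + 1) * (n + 1) + j + 1) + n + 1) := by
      refine Finset.sum_le_sum fun t ht => ?_
      have ht' : t < n := Finset.mem_range.1 ht
      exact (hFC t (ss t) ht' (hinv t (by omega))).2.2
    have e2 : ∑ t ∈ Finset.range n,
        7000 * (∑ j ∈ Finset.range n, ts ((t + 1) * (n + 1) + j + 1) + n + 1) =
        7000 * (∑ t ∈ Finset.range n, ∑ j ∈ Finset.range n, ts ((t + 1) * (n + 1) + j + 1) +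
          n * (n + 1)) := by
      rw [← Finset.mul_sum]
      congr 1
      simp only [add_assoc]
      rw [Finset.sum_add_distrib, Finset.sum_const, Finset.card_range, smul_eq_mul]
    have e3 := (RAll_sum ts n).trans hsum
    have e4 : T 0 = T0 := rfl
    rw [e2] at e1
    rw [e4]
    generalize (∑ t ∈ Finset.range n, T (t + 1)) = a at *
    generalize (∑ t ∈ Finset.range n, ∑ j ∈ Finset.range n, ts ((t + 1) * (n + 1) + j + 1)) = b
      at *
    have e5 : (n + 1) * (n + 1) ≤ 4 * n ^ 2 := by nlinarith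
    have e6 : n * (n + 1) ≤ 2 * n ^ 2 := by nlinarith
    have e7 : 1 ≤ n ^ 2 := Nat.one_le_pow _ _ hn
    nlinarith

end ST2
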