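import Pool.Agent.helper32.ST.RLeaf

/-!
# ST2-RAtt : realC and attachC

real_sim: cases of RealR; in the second case mE := aE, markC_sim gives g1; sW = nd (nm e) read in g1; splitC gives
TR.splitAbove (if sA <> 0 ...), put nd aE tc: the record splitE.  sP = aZ - (aK-1) dl, dl = n+2.
attach_sim: real_sim, then lV := nd (el (ix aZ aK)) read in the new record, lP := aP, newLeaf_sim.
-/

namespace ST2

/-- the code after the marking -/
def RAtt_code : Cmd := bl [
  .set .sW (.get .nd (.get .nm (.reg .aE))),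
  .set .sK (.reg .aK),
  .set .sP (.sub (.reg .aZ) (.mul (.sub (.reg .aK) (.lit 1)) (.reg .dl))),
  splitC,
  .put .nd (.reg .aE) (.reg .tc)]

theorem RAtt_fr1 (s : St) (r : Rg) (v : ℕ) : Fr [r] s (s.setr r v) := by
  refine ⟨fun q hq => ?_, rfl⟩
  have : q ≠ r := by simpa using hq
  simp [this]

theorem RAtt_ex {n : ℕ} (s : St) (hd : s.rg .dl = n + 2) :
    absG (RAtt_code.ex s) = (absG s).splitE n (s.rg .aZ) (s.rg .aK) (s.rg .aE) ∧
      absX (RAtt_code.ex s) = absX s ∧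
      Fr [.sW, .sK, .sP, .tc, .sU, .sA, .sB] s (RAtt_code.ex s) := by
  by_cases h : s.ar .ps (s.ar .nd (s.ar .nm (s.rg .aE))) = 0
  · refine ⟨?_, ?_, fun r hr => ?_, ?_⟩
    · simp [RAtt_code, splitC, absG, absD, absT, G.splitE, TR.splitAbove, h, hd]
    · simp [RAtt_code, splitC, absX, h]
    · simp only [List.mem_cons, List.not_mem_nil, or_false, not_or] at hr
      obtain ⟨h1, h2, h3, h4, h5, h6, h7⟩ := hr
      simp [RAtt_code, splitC, h, h1, h2, h3, h4, h5, h6, h7]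
    · simp [RAtt_code, splitC, h]
  · refine ⟨?_, ?_, fun r hr => ?_, ?_⟩
    · simp [RAtt_code, splitC, absG, absD, absT, G.splitE, TR.splitAbove, h, hd]
    · simp [RAtt_code, splitC, absX, h]
    · simp only [List.mem_cons, List.not_mem_nil, or_false, not_or] at hr
      obtain ⟨h1, h2, h3, h4, h5, h6, h7⟩ := hr
      simp [RAtt_code, splitC, h, h1, h2, h3, h4, h5, h6, h7]
    · simp [RAtt_code, splitC, h]

theorem real_sim {n : ℕ} {s : St} {g' : G} {t : ℕ} (hb : s.rg .bb = (n + 1) * (n + 1))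
    (hd : s.rg .dl = n + 2) (h : RealR n (absG s) (s.rg .aZ) (s.rg .aK) g' t) :
    ∃ s' T, Run realC s s' T ∧ absG s' = g' ∧ absX s' = absX s ∧ Fr wR s s' ∧
      T ≤ 500 * (t + 1) := by
  have e0 : (Ex.get .el (ixE (.reg .aZ) (.reg .aK))).ev s =
      (absG s).el (ix n (s.rg .aZ) (s.rg .aK)) := by
    simp [ixE, ix, hb, absG]
  have r1 := Run.set .aE (Ex.get .el (ixE (.reg .aZ) (.reg .aK))) s
  rw [e0] at r1
  obtain ⟨e, he⟩ : ∃ e, e = (absG s).el (ix n (s.rg .aZ) (s.rg .aK)) := ⟨_, rfl⟩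
  rw [← he] at r1
  unfold RealR at h
  rw [← he] at h
  have f1 : Fr [.aE] s (s.setr .aE e) := RAtt_fr1 s .aE e
  have g1 : absG (s.setr .aE e) = absG s := by simp [absG, absD, absT]
  have x1 : absX (s.setr .aE e) = absX s := by simp [absX]
  rcases h with ⟨h1, h2, h3⟩ | ⟨h1, gm, hm, h2⟩
  · subst h3
    subst h2
    have h4 : (Ex.get .fl (.reg .aE)).ev (s.setr .aE e) ≠ 0 := by
      simpa [absG, absD] using h1
    have r2 := Run.seq _ .skip _ _ _ _ _ (Run.iteT _ .skip (bl [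
        .set .mE (.reg .aE),
        markC,
        .set .sW (.get .nd (.get .nm (.reg .aE))),
        .set .sK (.reg .aK),
        .set .sP (.sub (.reg .aZ) (.mul (.sub (.reg .aK) (.lit 1)) (.reg .dl))),
        splitC,
        .put .nd (.reg .aE) (.reg .tc)]) _ _ _ h4 (Run.skip (s.setr .aE e))) (Run.skip _)
    refine ⟨_, _, Run.seq _ _ _ _ _ _ _ r1 r2, g1, x1, fr_mono f1 (by decide), ?_⟩
    simp [ixE]
  · have h4 : (Ex.get .fl (.reg .aE)).ev (s.setr .aE e) = 0 := by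
      simpa [absG, absD] using h1
    have r2 := Run.set .mE (.reg .aE) (s.setr .aE e)
    have e2 : (Ex.reg .aE).ev (s.setr .aE e) = e := by simp
    rw [e2] at r2
    have f2 : Fr [.mE] (s.setr .aE e) ((s.setr .aE e).setr .mE e) := RAtt_fr1 _ .mE e
    have g2 : absG ((s.setr .aE e).setr .mE e) = absG s := by
      rw [← g1]; simp [absG, absD, absT]
    have x2 : absX ((s.setr .aE e).setr .mE e) = absX s := by simp [absX]
    have m2 : ((s.setr .aE e).setr .mE e).rg .mE = e := by simp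
    have hm' : MarkG (absG ((s.setr .aE e).setr .mE e)) (((s.setr .aE e).setr .mE e).rg .mE) gm t := by
      rw [g2, m2]; exact hm
    obtain ⟨s3, T3, r3, g3, x3, f3, t3⟩ := markC_sim hm'
    obtain ⟨T4, t4, r4⟩ := run_ex RAtt_code (by decide) s3
    have a1 : s3.rg .aE = e := by
      rw [f3.1 _ (by decide)]; simp
    have a2 : s3.rg .aZ = s.rg .aZ := by
      rw [f3.1 _ (by decide)]; simp
    have a3 : s3.rg .aK = s.rg .aK := by
      rw [f3.1 _ (by decide)]; simp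
    have a4 : s3.rg .dl = n + 2 := by
      rw [f3.1 _ (by decide)]; simpa using hd
    obtain ⟨g5, x5, f5⟩ := RAtt_ex (n := n) s3 a4
    refine ⟨_, _, Run.seq _ _ _ _ _ _ _ r1 (Run.seq _ .skip _ _ _ _ _ (Run.iteF _ .skip _ _ _ _ h4
      (Run.seq _ _ _ _ _ _ _ r2 (Run.seq _ _ _ _ _ _ _ r3 r4))) (Run.skip _)), ?_, ?_, ?_, ?_⟩
    · rw [g5, a1, a2, a3, g3, h2]
    · rw [x5, x3, x2]
    · exact fr_mono (fr_trans f1 (fr_trans f2 (fr_trans f3 f5))) (by decide)
    · have t4' : T4 ≤ 150 := le_trans t4 (by decide)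
      simp only [ixE, Ex.size]
      omega

theorem attach_sim {n : ℕ} {s : St} {g' : G} {t : ℕ} (hb : s.rg .bb = (n + 1) * (n + 1))
    (hd : s.rg .dl = n + 2)
    (h : AttachR n (absG s) (s.rg .aZ) (s.rg .aK) (s.rg .aP) g' t) :
    ∃ s' T, Run attachC s s' T ∧ absG s' = g' ∧ absX s' = absX s ∧ Fr wA s s' ∧
      T ≤ 1500 * (t + 1) := by
  obtain ⟨g1, t1, t2, h1, h2, ht⟩ := h
  obtain ⟨s1, T1, r1, a1, x1, f1, b1⟩ := real_sim hb hd h1
  have c1 : s1.rg .aZ = s.rg .aZ := f1.1 _ (by decide)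
  have c2 : s1.rg .aK = s.rg .aK := f1.1 _ (by decide)
  have c3 : s1.rg .bb = (n + 1) * (n + 1) := by rw [f1.1 _ (by decide)]; exact hb
  have c4 : s1.rg .aP = s.rg .aP := f1.1 _ (by decide)
  obtain ⟨v, hv⟩ : ∃ v, v = (absG s1).nd ((absG s1).el (ix n (s.rg .aZ) (s.rg .aK))) := ⟨_, rfl⟩
  have e1 : (Ex.get .nd (.get .el (ixE (.reg .aZ) (.reg .aK)))).ev s1 = v := by
    rw [hv]
    simp [ixE, ix, c1, c2, c3, absG]
  have r2 := Run.set .lV (Ex.get .nd (.get .el (ixE (.reg .aZ) (.reg .aK)))) s1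
  rw [e1] at r2
  have r3 := Run.set .lP (Ex.reg .aP) (s1.setr .lV v)
  have e3 : (Ex.reg .aP).ev (s1.setr .lV v) = s.rg .aP := by simpa using c4
  rw [e3] at r3
  have g3 : absG ((s1.setr .lV v).setr .lP (s.rg .aP)) = absG s1 := by simp [absG, absD, absT]
  have x3 : absX ((s1.setr .lV v).setr .lP (s.rg .aP)) = absX s1 := by simp [absX]
  have l1 : ((s1.setr .lV v).setr .lP (s.rg .aP)).rg .lV = v := by simp
  have l2 : ((s1.setr .lV v).setr .lP (s.rg .aP)).rg .lP = s.rg .aP := by simp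
  have h2' : NewLeafR (absG ((s1.setr .lV v).setr .lP (s.rg .aP)))
      (((s1.setr .lV v).setr .lP (s.rg .aP)).rg .lV)
      (((s1.setr .lV v).setr .lP (s.rg .aP)).rg .lP) g' t2 := by
    rw [g3, l1, l2, hv, a1]
    exact h2
  obtain ⟨s4, T4, r4, a4, x4, f4, b4⟩ := newLeaf_sim h2'
  refine ⟨_, _, Run.seq _ _ _ _ _ _ _ r1 (Run.seq _ _ _ _ _ _ _ r2 (Run.seq _ _ _ _ _ _ _ r3
    (Run.seq _ .skip _ _ _ _ _ r4 (Run.skip _)))), a4, ?_, ?_, ?_⟩
  · rw [x4, x3, x1]
  · exact fr_mono (fr_trans f1 (fr_trans (RAtt_fr1 s1 .lV v) (fr_trans (RAtt_fr1 _ .lP _) f4)))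
      (by decide)
  · simp only [ixE, Ex.size]
    omega

end ST2
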