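import Pool.Agent.helper32.ST.RCode

/-!
# ST2-RBas : basic facts for the array language

run_ex: induction on c.  run_bl: sequencing.  fr_trans: union of the lists.  run_loop_once etc. are immediate.
run_seqs: if Run c s s1 t1 and Run d s1 s2 t2 then Run (.seq c d) s s2 (t1 + t2).
(proofs: helper41)
-/

namespace ST2

theorem run_ex (c : Cmd) (h : c.lf = true) (s : St) : ∃ T ≤ c.size, Run c s (c.ex s) T := by
  induction c generalizing s with
  | skip => exact ⟨0, le_rfl, Run.skip s⟩
  | set r e => exact ⟨e.size + 1, le_rfl, Run.set r e s⟩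
  | put a i e => exact ⟨i.size + e.size + 1, le_rfl, Run.put a i e s⟩
  | rd r => exact absurd h (by simp)
  | seq c d ihc ihd =>
    have h1 : c.lf = true ∧ d.lf = true := by simpa using h
    obtain ⟨T1, hT1, hr1⟩ := ihc h1.1 s
    obtain ⟨T2, hT2, hr2⟩ := ihd h1.2 (c.ex s)
    exact ⟨T1 + T2, Nat.add_le_add hT1 hT2, Run.seq c d s _ _ T1 T2 hr1 hr2⟩
  | ite e c d ihc ihd =>
    have h1 : c.lf = true ∧ d.lf = true := by simpa using h
    by_cases he : e.ev s = 0
    · obtain ⟨T2, hT2, hr2⟩ := ihd h1.2 s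
      refine ⟨T2 + e.size + 1, ?_, ?_⟩
      · show T2 + e.size + 1 ≤ c.size + d.size + e.size + 1
        omega
      · have h2 : (Cmd.ite e c d).ex s = d.ex s := if_neg (not_not.2 he)
        rw [h2]
        exact Run.iteF e c d s _ T2 he hr2
    · obtain ⟨T1, hT1, hr1⟩ := ihc h1.1 s
      refine ⟨T1 + e.size + 1, ?_, ?_⟩
      · show T1 + e.size + 1 ≤ c.size + d.size + e.size + 1
        omega
      · have h2 : (Cmd.ite e c d).ex s = c.ex s := if_pos he
        rw [h2]
        exact Run.iteT e c d s _ T1 he hr1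
  | loop e c => exact absurd h (by simp)

theorem fr_refl (W : List Rg) (s : St) : Fr W s s := by
  exact ⟨fun _ _ => rfl, rfl⟩

theorem fr_trans {W W' : List Rg} {s s' s'' : St} (h : Fr W s s') (h' : Fr W' s' s'') :
    Fr (W ++ W') s s'' := by
  refine ⟨fun r hr => ?_, h'.2.trans h.2⟩
  rw [List.mem_append, not_or] at hr
  rw [h'.1 r hr.2, h.1 r hr.1]

theorem fr_mono {W W' : List Rg} {s s' : St} (h : Fr W s s') (hW : ∀ r ∈ W, r ∈ W') :
    Fr W' s s' := by
  exact ⟨fun r hr => h.1 r fun h1 => hr (hW r h1), h.2⟩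

/-- registers changed by insC -/
def wI : List Rg := [.cnt, .iE, .iCur, .iNw, .iG, .iRun, .iC1, .iC2, .iC3, .iC4, .iF1, .iF2, .iY]

/-- registers changed by markC -/
def wM : List Rg := [.mC, .mG, .mU, .mP, .mA, .mB2, .mC3, .mB, .mRR, .mTT]

/-- registers changed by newLeafC -/
def wL : List Rg := [.iX, .tc, .sF, .last, .mE] ++ wI ++ wM

/-- registers changed by realC -/
def wR : List Rg := [.aE, .mE, .sW, .sK, .sP, .tc, .sU, .sA, .sB] ++ wM

/-- registers changed by attachC -/
def wA : List Rg := wR ++ [.lV, .lP] ++ wL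

/-- registers changed by the body of the main loop -/
def wB : List Rg := wA ++ wI ++ [.aZ, .aK, .aP, .vZ, .vK, .vY, .iX, .cT2, .cT3, .cM2, .cM3, .cFD,
  .cT, .cK, .cN1, .cL2, .cN2, .cL3, .cN3]

/-- registers changed by cellC -/
def wC : List Rg := wB ++ [.cA]

end ST2
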