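import Pool.Agent.helper32.ST.RBas

/-!
# ST2-RPre : preC simulates the two descents PreR

(proofs: helper96)

pre2_sim, pre3_sim by induction on PreR; dnC: the test lm m < l - 1, else m := om m; l := l - 1.
The arrays do not change, so absX, absG are the same.
-/

namespace ST2

theorem RPre_absG {s s' : St} (har : s'.ar = s.ar) (h1 : s'.rg .cnt = s.rg .cnt)
    (h2 : s'.rg .last = s.rg .last) (h3 : s'.rg .tc = s.rg .tc) : absG s' = absG s := by
  unfold absG absD absT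
  rw [har, h1, h2, h3]

theorem RPre_absX {s s' : St} (har : s'.ar = s.ar) : absX s' = absX s := by
  unfold absX
  rw [har]

theorem dn_sim {s : St} (l m : Rg) (hlm : l ≠ m) (hl : l ∉ [Rg.cnt, Rg.last, Rg.tc])
    (hm : m ∉ [Rg.cnt, Rg.last, Rg.tc]) :
    ∃ s' T, Run (dnC l m) s s' T ∧ absG s' = absG s ∧ absX s' = absX s ∧
      s'.rg l = s.rg l - 1 ∧ s'.rg m = dn (absX s) (s.rg l) (s.rg m) ∧ Fr [l, m] s s' ∧
      T ≤ 20 := by
  have hl1 : Rg.cnt ≠ l := fun h => hl (by simp [h])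
  have hl2 : Rg.last ≠ l := fun h => hl (by simp [h])
  have hl3 : Rg.tc ≠ l := fun h => hl (by simp [h])
  have hm1 : Rg.cnt ≠ m := fun h => hm (by simp [h])
  have hm2 : Rg.last ≠ m := fun h => hm (by simp [h])
  have hm3 : Rg.tc ≠ m := fun h => hm (by simp [h])
  have hlf : (dnC l m).lf = true := rfl
  obtain ⟨T, hT, hrun⟩ := run_ex (dnC l m) hlf s
  have hsize : (dnC l m).size = 14 := rfl
  by_cases h : s.ar .lm (s.rg m) < s.rg l - 1
  · have hex : (dnC l m).ex s = s.setr l (s.rg l - 1) := by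
      simp [dnC, h]
    rw [hex] at hrun
    refine ⟨s.setr l (s.rg l - 1), T, hrun, ?_, ?_, ?_, ?_, ⟨?_, rfl⟩, by omega⟩
    · exact RPre_absG rfl (by simp [hl1]) (by simp [hl2]) (by simp [hl3])
    · exact RPre_absX rfl
    · simp
    · have h1 : dn (absX s) (s.rg l) (s.rg m) = s.rg m := by
        unfold dn absX
        rw [if_pos h]
      rw [h1]
      simp [hlm.symm]
    · intro r hr
      have hr1 : r ≠ l := fun h => hr (by simp [h])
      simp [hr1]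
  · have hex : (dnC l m).ex s = (s.setr m (s.ar .om (s.rg m))).setr l (s.rg l - 1) := by
      simp [dnC, h, hlm]
    rw [hex] at hrun
    refine ⟨(s.setr m (s.ar .om (s.rg m))).setr l (s.rg l - 1), T, hrun, ?_, ?_, ?_, ?_,
      ⟨?_, rfl⟩, by omega⟩
    · exact RPre_absG rfl (by simp [hl1, hm1]) (by simp [hl2, hm2]) (by simp [hl3, hm3])
    · exact RPre_absX rfl
    · simp
    · have h1 : dn (absX s) (s.rg l) (s.rg m) = s.ar .om (s.rg m) := by
        unfold dn absX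
        rw [if_neg h]
      rw [h1]
      simp [hlm.symm]
    · intro r hr
      have hr1 : r ≠ l := fun h => hr (by simp [h])
      have hr2 : r ≠ m := fun h => hr (by simp [h])
      simp [hr1, hr2]

theorem RPre_loop {x : X} {k L M l' m' t : ℕ} (h : PreR x k L M l' m' t) (l m : Rg) (hlm : l ≠ m)
    (hl : l ∉ [Rg.cnt, Rg.last, Rg.tc]) (hm : m ∉ [Rg.cnt, Rg.last, Rg.tc])
    (hlk : Rg.cK ≠ l) (hmk : Rg.cK ≠ m) :
    ∀ s : St, absX s = x → s.rg .cK = k → s.rg l = L → s.rg m = M →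
    ∃ s' T, Run (Cmd.loop (Ex.lt (Ex.reg .cK) (Ex.reg l)) (dnC l m)) s s' T ∧
      absG s' = absG s ∧ absX s' = absX s ∧ s'.rg l = l' ∧ s'.rg m = m' ∧ Fr [l, m] s s' ∧
      T ≤ 25 * t + 4 := by
  induction h with
  | stop L M hk =>
    intro s hx hck hL hM
    refine ⟨s, _, Run.loopF _ _ s ?_, rfl, rfl, hL, hM, ⟨fun _ _ => rfl, rfl⟩, ?_⟩
    · simp [hck, hL, hk]
    · simp
  | go L M l' m' t hk h2 ih =>
    intro s hx hck hL hM
    obtain ⟨s1, T1, hr1, hg1, hx1, hl1, hm1, hf1, hT1⟩ := dn_sim (s := s) l m hlm hl hm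
    have hck1 : s1.rg .cK = k := by
      rw [hf1.1 .cK (by simp [hlk, hmk]), hck]
    obtain ⟨s2, T2, hr2, hg2, hx2, hl2, hm2, hf2, hT2⟩ := ih s1 (hx1.trans hx) hck1
      (by rw [hl1, hL]) (by rw [hm1, hx, hL, hM])
    refine ⟨s2, _, Run.loopT _ _ s s1 s2 T1 T2 ?_ hr1 hr2, hg2.trans hg1, hx2.trans hx1, hl2, hm2,
      ⟨?_, hf2.2.trans hf1.2⟩, ?_⟩
    · simp [hck, hL, hk]
    · intro r hr
      rw [hf2.1 r hr, hf1.1 r hr]
    · simp only [Ex.size]
      omega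

theorem pre_sim {s : St} {l2 m2 s2 l3 m3 s3 : ℕ}
    (h2 : PreR (absX s) (s.rg .cK) (s.rg .cL2) (s.rg .cN2) l2 m2 s2)
    (h3 : PreR (absX s) (s.rg .cK) (s.rg .cL3) (s.rg .cN3) l3 m3 s3) :
    ∃ s' T, Run preC s s' T ∧ absG s' = absG s ∧ absX s' = absX s ∧
      s'.rg .cL2 = l2 ∧ s'.rg .cN2 = m2 ∧ s'.rg .cL3 = l3 ∧ s'.rg .cN3 = m3 ∧
      Fr [.cL2, .cN2, .cL3, .cN3] s s' ∧ T ≤ 50 * (s2 + s3 + 1) := by
  obtain ⟨sa, Ta, hra, hga, hxa, hla, hma, hfa, hTa⟩ :=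
    RPre_loop h2 .cL2 .cN2 (by decide) (by decide) (by decide) (by decide) (by decide) s rfl rfl
      rfl rfl
  have e1 : sa.rg .cK = s.rg .cK := hfa.1 _ (by decide)
  have e2 : sa.rg .cL3 = s.rg .cL3 := hfa.1 _ (by decide)
  have e3 : sa.rg .cN3 = s.rg .cN3 := hfa.1 _ (by decide)
  obtain ⟨sb, Tb, hrb, hgb, hxb, hlb, hmb, hfb, hTb⟩ :=
    RPre_loop h3 .cL3 .cN3 (by decide) (by decide) (by decide) (by decide) (by decide) sa hxa e1
      e2 e3
  refine ⟨sb, Ta + (Tb + 0), ?_, hgb.trans hga, hxb.trans hxa, ?_, ?_, hlb, hmb, ⟨?_, ?_⟩, ?_⟩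
  · exact Run.seq _ _ s sa sb Ta (Tb + 0) hra (Run.seq _ _ sa sb sb Tb 0 hrb (Run.skip sb))
  · rw [hfb.1 _ (by decide), hla]
  · rw [hfb.1 _ (by decide), hma]
  · intro r hr
    simp only [List.mem_cons, List.not_mem_nil, or_false, not_or] at hr
    rw [hfb.1 r (by simp [hr]), hfa.1 r (by simp [hr])]
  · exact hfb.2.trans hfa.2
  · omega

end ST2
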