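import Pool.Agent.helper32.ST.RVis
import Pool.Agent.helper32.ST.RAtt
import Pool.Agent.helper32.ST.RPre

/-!
# ST2-RBody : one iteration of the main loop

namesC: cT2 = q.t2 n c, cT3 = q.t3 c, cM2 = nmx x k (n1+1), cM3 = nmx x k (n1+(n+1)).
mainE <> 0 iff MainT n c a x q.  dxE evaluates to q.dx n c a.
hit: VY and hitC with evis_sim (bb unchanged).  step: put dm dxE c gives x'; attach_sim for (cN1, cK, c - cK*dl)
(absX changes only dm; absG unchanged by the writes of registers); then the test with lm (unchanged): imgC gives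
vY = imgPos n cN1 cK (read in the record after attachC); evis_sim.  nextC: Q.next (dn with lm, om unchanged).
The registers cN1, cK, ... are not in wA, wI.
-/

namespace ST2

/-- the registers of the main loop -/
def absQ (s : St) : Q := ⟨s.rg .cK, s.rg .cN1, s.rg .cL2, s.rg .cN2, s.rg .cL3, s.rg .cN3⟩

/-- the parameter registers -/
structure Par (n : ℕ) (s : St) : Prop where
  hn : s.rg .n = n
  hn1 : s.rg .n1 = n + 1
  hdl : s.rg .dl = n + 2
  hbb : s.rg .bb = (n + 1) * (n + 1)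

theorem RBody_iteset (e a b : Ex) (r : Rg) (s : St) :
    (Cmd.ite e (.set r a) (.set r b)).ex s =
      s.setr r (if e.ev s ≠ 0 then a.ev s else b.ev s) := by
  by_cases h : e.ev s ≠ 0
  · simp only [Cmd.ex, if_pos h]
  · simp only [Cmd.ex, if_neg h]

theorem RBody_setr_self (s : St) (r : Rg) : s.setr r (s.rg r) = s := by
  cases s with
  | mk rg ar inp =>
    simp only [St.setr]
    congr 1
    funext q
    by_cases h : q = r
    · subst h
      simp
    · simp [h]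

theorem RBody_eq_ne (x y : Ex) (s : St) : (Ex.eq x y).ev s ≠ 0 ↔ x.ev s = y.ev s := by
  by_cases h : x.ev s = y.ev s
  · simp [h]
  · simp [h]

theorem RBody_lt_ne (x y : Ex) (s : St) : (Ex.lt x y).ev s ≠ 0 ↔ x.ev s < y.ev s := by
  by_cases h : x.ev s < y.ev s
  · simp [h]
  · simp [h]

theorem RBody_iteset_eq (x y a b : Ex) (r : Rg) (s : St) :
    (Cmd.ite (.eq x y) (.set r a) (.set r b)).ex s =
      s.setr r (if x.ev s = y.ev s then a.ev s else b.ev s) := by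
  rw [RBody_iteset]
  by_cases h : x.ev s = y.ev s
  · rw [if_pos ((RBody_eq_ne x y s).2 h), if_pos h]
  · rw [if_neg (fun hh => h ((RBody_eq_ne x y s).1 hh)), if_neg h]

theorem RBody_iteset_lt (x y a b : Ex) (r : Rg) (s : St) :
    (Cmd.ite (.lt x y) (.set r a) (.set r b)).ex s =
      s.setr r (if x.ev s < y.ev s then a.ev s else b.ev s) := by
  rw [RBody_iteset]
  by_cases h : x.ev s < y.ev s
  · rw [if_pos ((RBody_lt_ne x y s).2 h), if_pos h]
  · rw [if_neg (fun hh => h ((RBody_lt_ne x y s).1 hh)), if_neg h]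

theorem RBody_iteskip (e a : Ex) (r : Rg) (s : St) :
    (Cmd.ite e .skip (.set r a)).ex s =
      s.setr r (if e.ev s ≠ 0 then s.rg r else a.ev s) := by
  by_cases h : e.ev s ≠ 0
  · simp only [Cmd.ex, if_pos h, RBody_setr_self]
  · simp only [Cmd.ex, if_neg h]

theorem RBody_dn (l m : Rg) (hlm : l ≠ m) (s : St) :
    (dnC l m).ex s =
      (s.setr m (dn (absX s) (s.rg l) (s.rg m))).setr l (s.rg l - 1) := by
  unfold dnC
  simp only [bl]
  have h1 : (Cmd.ite (.lt (.get .lm (.reg m)) (.sub (.reg l) (.lit 1))) .skip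
      (.set m (.get .om (.reg m)))).ex s = s.setr m (dn (absX s) (s.rg l) (s.rg m)) := by
    rw [RBody_iteskip]
    congr 1
    unfold dn
    have hc := RBody_lt_ne (.get .lm (.reg m)) (.sub (.reg l) (.lit 1)) s
    by_cases h : s.ar .lm (s.rg m) < s.rg l - 1
    · rw [if_pos (hc.2 h)]
      exact (if_pos h).symm
    · rw [if_neg (fun hh => h (hc.1 hh))]
      exact (if_neg h).symm
  have h2 : (Cmd.seq (Cmd.ite (.lt (.get .lm (.reg m)) (.sub (.reg l) (.lit 1))) .skip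
      (.set m (.get .om (.reg m)))) (.seq (.set l (.sub (.reg l) (.lit 1))) .skip)).ex s =
      (Cmd.seq (.set l (.sub (.reg l) (.lit 1))) .skip).ex
        ((Cmd.ite (.lt (.get .lm (.reg m)) (.sub (.reg l) (.lit 1))) .skip
      (.set m (.get .om (.reg m)))).ex s) := rfl
  rw [h2, h1]
  simp only [Cmd.ex, Ex.ev, rg_setr, if_neg hlm]

theorem RBody_itedn (l m k : Rg) (hlm : l ≠ m) (s : St) :
    (Cmd.ite (.eq (.reg l) (.reg k)) (dnC l m) .skip).ex s =
      (s.setr m (if s.rg l = s.rg k then dn (absX s) (s.rg l) (s.rg m) else s.rg m)).setr l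
        (if s.rg l = s.rg k then s.rg l - 1 else s.rg l) := by
  by_cases h : s.rg l = s.rg k
  · have h1 : (Cmd.ite (.eq (.reg l) (.reg k)) (dnC l m) .skip).ex s = (dnC l m).ex s :=
      if_pos ((RBody_eq_ne (.reg l) (.reg k) s).2 h)
    rw [h1, RBody_dn l m hlm, if_pos h, if_pos h]
  · have h1 : (Cmd.ite (.eq (.reg l) (.reg k)) (dnC l m) .skip).ex s = s :=
      if_neg (fun hh => h ((RBody_eq_ne (.reg l) (.reg k) s).1 hh))
    rw [h1, if_neg h, if_neg h, RBody_setr_self, RBody_setr_self]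

theorem RBody_fr_setr (s : St) (r : Rg) (v : ℕ) : Fr [r] s (s.setr r v) := by
  refine ⟨fun q hq => ?_, rfl⟩
  have : q ≠ r := by simpa using hq
  simp [this]

theorem RBody_fr_seta (s : St) (a : Ar) (i v : ℕ) : Fr [] s (s.seta a i v) :=
  ⟨fun _ _ => rfl, rfl⟩

theorem RBody_absG_setr (s : St) (r : Rg) (v : ℕ) (h : r ∉ [Rg.cnt, Rg.last, Rg.tc]) :
    absG (s.setr r v) = absG s := by
  have h1 : Rg.cnt ≠ r := fun hh => h (by simp [← hh])
  have h2 : Rg.last ≠ r := fun hh => h (by simp [← hh])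
  have h3 : Rg.tc ≠ r := fun hh => h (by simp [← hh])
  simp [absG, absD, absT, h1, h2, h3]

theorem RBody_absX_setr (s : St) (r : Rg) (v : ℕ) : absX (s.setr r v) = absX s := rfl

theorem RBody_seq {c d : Cmd} {s s1 s2 : St} {t1 t2 : ℕ} (h1 : Run c s s1 t1)
    (h2 : Run d s1 s2 t2) : Run (.seq c d) s s2 (t1 + t2) := Run.seq c d s s1 s2 t1 t2 h1 h2

theorem RBody_one {c : Cmd} {s s1 : St} {t1 : ℕ} (h1 : Run c s s1 t1) :
    Run (.seq c .skip) s s1 (t1 + 0) := Run.seq c .skip s s1 s1 t1 0 h1 (Run.skip s1)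

theorem RBody_hitC {n : ℕ} {s : St} {g' : G} {t : ℕ} (hb : s.rg .bb = (n + 1) * (n + 1))
    (h : EVisR n (absG s) (s.rg .cFD) (s.rg .cK + 1) (s.rg .vY) g' t) :
    ∃ s' T, Run hitC s s' T ∧ absG s' = g' ∧ absX s' = absX s ∧
      Fr ([.vZ, .vK, .iX] ++ wI) s s' ∧ T ≤ 400 * (t + 1) + 6 := by
  have hb' : ((s.setr .vZ (s.rg .cFD)).setr .vK (s.rg .cK + 1)).rg .bb =
      (n + 1) * (n + 1) := by
    simpa using hb
  have hG : absG ((s.setr .vZ (s.rg .cFD)).setr .vK (s.rg .cK + 1)) = absG s := by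
    rw [RBody_absG_setr _ _ _ (by decide), RBody_absG_setr _ _ _ (by decide)]
  have h' : EVisR n (absG ((s.setr .vZ (s.rg .cFD)).setr .vK (s.rg .cK + 1)))
      (((s.setr .vZ (s.rg .cFD)).setr .vK (s.rg .cK + 1)).rg .vZ)
      (((s.setr .vZ (s.rg .cFD)).setr .vK (s.rg .cK + 1)).rg .vK)
      (((s.setr .vZ (s.rg .cFD)).setr .vK (s.rg .cK + 1)).rg .vY) g' t := by
    rw [hG]
    simpa using h
  obtain ⟨s', T, hr, h1, h2, h3, h4⟩ := evis_sim hb' h'
  have hrun : Run hitC s s' _ :=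
    RBody_seq (Run.set _ _ _) (RBody_seq (Run.set _ _ _) (RBody_one hr))
  refine ⟨s', _, hrun, h1, ?_, ?_, ?_⟩
  · rw [h2]
    rfl
  · have h5 := fr_trans (fr_trans (RBody_fr_setr s .vZ (s.rg .cFD))
      (RBody_fr_setr (s.setr .vZ (s.rg .cFD)) .vK (s.rg .cK + 1))) h3
    refine fr_mono h5 ?_
    decide
  · simp only [Ex.size]
    omega

theorem RBody_next (s : St) : ∃ s' T, Run nextC s s' T ∧ absG s' = absG s ∧ absX s' = absX s ∧
    absQ s' = (absQ s).next (absX s) ∧ Fr [.cN1, .cL2, .cN2, .cL3, .cN3, .cK] s s' ∧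
    T ≤ 100 := by
  obtain ⟨T, hT, hr⟩ := run_ex nextC rfl s
  have hsz : nextC.size ≤ 100 := by decide
  have hex : nextC.ex s =
      (((((s.setr .cN1 (dn (absX s) (s.rg .cK) (s.rg .cN1))).setr .cN2
        (if s.rg .cL2 = s.rg .cK then dn (absX s) (s.rg .cL2) (s.rg .cN2) else s.rg .cN2)).setr
        .cL2 (if s.rg .cL2 = s.rg .cK then s.rg .cL2 - 1 else s.rg .cL2)).setr .cN3
        (if s.rg .cL3 = s.rg .cK then dn (absX s) (s.rg .cL3) (s.rg .cN3) else s.rg .cN3)).setr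
        .cL3 (if s.rg .cL3 = s.rg .cK then s.rg .cL3 - 1 else s.rg .cL3)).setr .cK
        (s.rg .cK - 1) := by
    unfold nextC
    simp only [bl]
    have e1 : (Cmd.ite (.lt (.get .lm (.reg .cN1)) (.sub (.reg .cK) (.lit 1))) .skip
        (.set .cN1 (.get .om (.reg .cN1)))).ex s =
        s.setr .cN1 (dn (absX s) (s.rg .cK) (s.rg .cN1)) := by
      rw [RBody_iteskip]
      congr 1
      unfold dn
      have hc := RBody_lt_ne (.get .lm (.reg .cN1)) (.sub (.reg .cK) (.lit 1)) s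
      by_cases h : s.ar .lm (s.rg .cN1) < s.rg .cK - 1
      · rw [if_pos (hc.2 h)]
        exact (if_pos h).symm
      · rw [if_neg (fun hh => h (hc.1 hh))]
        exact (if_neg h).symm
    have key : ∀ (c1 c2 c3 c4 : Cmd), (Cmd.seq c1 (.seq c2 (.seq c3 (.seq c4 .skip)))).ex s =
        c4.ex (c3.ex (c2.ex (c1.ex s))) := fun _ _ _ _ => rfl
    rw [key, e1, RBody_itedn .cL2 .cN2 .cK (by decide), RBody_itedn .cL3 .cN3 .cK (by decide)]
    rfl
  refine ⟨nextC.ex s, T, hr, ?_, ?_, ?_, ?_, le_trans hT hsz⟩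
  · rw [hex]
    simp [absG, absD, absT]
  · rw [hex]
    rfl
  · rw [hex]
    rfl
  · rw [hex]
    refine ⟨fun r hr => ?_, rfl⟩
    simp only [List.mem_cons, List.not_mem_nil, or_false, not_or] at hr
    simp [hr]

theorem names_sim {n : ℕ} {s : St} (hp : Par n s) :
    ∃ s' T, Run namesC s s' T ∧ absG s' = absG s ∧ absX s' = absX s ∧ absQ s' = absQ s ∧
      Fr [.cT2, .cT3, .cM2, .cM3] s s' ∧ T ≤ 100 ∧
      (mainE.ev s' ≠ 0 ↔ MainT n (s.rg .c) (s.rg .cA) (absX s) (absQ s)) ∧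
      dxE.ev s' = (absQ s).dx n (s.rg .c) (s.rg .cA) := by
  obtain ⟨T, hT, hr⟩ := run_ex namesC rfl s
  have hsz : namesC.size ≤ 100 := by decide
  have hex : namesC.ex s =
      (((s.setr .cT2 ((absQ s).t2 n (s.rg .c))).setr .cT3 ((absQ s).t3 (s.rg .c))).setr .cM2
        (nmx (absX s) (s.rg .cK) (s.rg .cN1 + 1))).setr .cM3
        (nmx (absX s) (s.rg .cK) (s.rg .cN1 + (n + 1))) := by
    have key : ∀ (c1 c2 c3 c4 : Cmd), (Cmd.seq c1 (.seq c2 (.seq c3 (.seq c4 .skip)))).ex s =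
        c4.ex (c3.ex (c2.ex (c1.ex s))) := fun _ _ _ _ => rfl
    have e2 : (absQ s).t2 n (s.rg .c) =
        if s.rg .cL2 = s.rg .cK then s.rg .cN2 else s.rg .c - s.rg .n1 := by
      rw [hp.hn1]
      rfl
    have e3 : nmx (absX s) (s.rg .cK) (s.rg .cN1 + (n + 1)) =
        if s.ar .lm (s.rg .cN1 + s.rg .n1) < s.rg .cK then s.rg .cN1 + s.rg .n1
          else s.ar .om (s.rg .cN1 + s.rg .n1) := by
      rw [hp.hn1]
      rfl
    unfold namesC
    simp only [bl]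
    rw [key, RBody_iteset_eq, RBody_iteset_eq, RBody_iteset_lt, RBody_iteset_lt, e2, e3]
    rfl
  have hn1 := hp.hn1
  have hdl := hp.hdl
  have hbb := hp.hbb
  refine ⟨namesC.ex s, T, hr, ?_, ?_, ?_, ?_, le_trans hT hsz, ?_, ?_⟩
  · rw [hex]
    simp [absG, absD, absT]
  · rw [hex]
    rfl
  · rw [hex]
    simp [absQ]
  · rw [hex]
    refine ⟨fun r hr => ?_, rfl⟩
    simp only [List.mem_cons, List.not_mem_nil, or_false, not_or] at hr
    simp [hr]
  · rw [hex]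
    simp only [mainE, Ex.ev, rg_setr, ar_setr]
    simp [MainT, absQ, absX, hdl]
    tauto
  · rw [hex]
    simp [dxE, Q.dx, dix, absQ, hbb]

theorem hit_sim {n : ℕ} {s : St} {g' : G} {d t : ℕ} (hp : Par n s)
    (h : HitR n (s.rg .c) (s.rg .cA) (absX s) (absG s) (absQ s) g' d t) :
    ∃ s' T, Run bodyC s s' T ∧ absG s' = g' ∧ absX s' = absX s ∧ s'.rg .cFD = d ∧ d ≠ 0 ∧
      s'.rg .cK = s.rg .cK ∧ Fr wB s s' ∧ T ≤ 1000 * (t + 1) := by
  obtain ⟨s1, T1, hr1, hG1, hX1, hQ1, hF1, hT1, hm1, hd1⟩ := names_sim hp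
  have hK1 : s1.rg .cK = s.rg .cK := hF1.1 _ (by decide)
  have hN1 : s1.rg .cN1 = s.rg .cN1 := hF1.1 _ (by decide)
  have hb1 : s1.rg .bb = (n + 1) * (n + 1) := by
    rw [hF1.1 _ (by decide)]
    exact hp.hbb
  have hl1 : s1.rg .dl = n + 2 := by
    rw [hF1.1 _ (by decide)]
    exact hp.hdl
  rcases h with ⟨hM, hd, hE⟩ | ⟨hM, hd, hd0, hE⟩
  · have hG2 : absG ((s1.setr .cFD (s1.rg .cN1 + s1.rg .dl)).setr .vY
        (s1.ar .el (s1.rg .cN1 * s1.rg .bb + s1.rg .cK))) = absG s := by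
      rw [RBody_absG_setr _ _ _ (by decide), RBody_absG_setr _ _ _ (by decide), hG1]
    have hel : s1.ar .el = s.ar .el := congrArg G.el hG1
    have hE2 : EVisR n (absG ((s1.setr .cFD (s1.rg .cN1 + s1.rg .dl)).setr .vY
        (s1.ar .el (s1.rg .cN1 * s1.rg .bb + s1.rg .cK))))
        (((s1.setr .cFD (s1.rg .cN1 + s1.rg .dl)).setr .vY
        (s1.ar .el (s1.rg .cN1 * s1.rg .bb + s1.rg .cK))).rg .cFD)
        (((s1.setr .cFD (s1.rg .cN1 + s1.rg .dl)).setr .vY
        (s1.ar .el (s1.rg .cN1 * s1.rg .bb + s1.rg .cK))).rg .cK + 1)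
        (((s1.setr .cFD (s1.rg .cN1 + s1.rg .dl)).setr .vY
        (s1.ar .el (s1.rg .cN1 * s1.rg .bb + s1.rg .cK))).rg .vY) g' t := by
      rw [hG2]
      simp only [rg_setr, reduceCtorEq, if_false, if_true, hK1, hN1, hb1, hl1, hel]
      subst hd
      exact hE
    have hb2 : ((s1.setr .cFD (s1.rg .cN1 + s1.rg .dl)).setr .vY
        (s1.ar .el (s1.rg .cN1 * s1.rg .bb + s1.rg .cK))).rg .bb = (n + 1) * (n + 1) := by
      simpa using hb1
    obtain ⟨s2, T2, hr2, hG2', hX2, hF2, hT2⟩ := RBody_hitC hb2 hE2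
    have hrun : Run bodyC s s2 _ := RBody_seq hr1 (RBody_one (Run.iteT _ _ _ _ _ _ (hm1.2 hM)
        (RBody_seq (Run.set _ _ _) (RBody_seq (Run.set _ _ _) (RBody_one hr2)))))
    refine ⟨s2, _, hrun, hG2', ?_, ?_, ?_, ?_, ?_, ?_⟩
    · rw [hX2]
      exact hX1
    · rw [hF2.1 _ (by decide)]
      simp only [rg_setr, reduceCtorEq, if_false, if_true, hN1, hl1]
      exact hd.symm
    · rw [hd]
      simp only [absQ]
      omega
    · rw [hF2.1 _ (by decide)]
      simp only [rg_setr, reduceCtorEq, if_false, hK1]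
    · have h5 := fr_trans (fr_trans (fr_trans hF1 (RBody_fr_setr s1 .cFD
        (s1.rg .cN1 + s1.rg .dl))) (RBody_fr_setr _ .vY
        (s1.ar .el (s1.rg .cN1 * s1.rg .bb + s1.rg .cK)))) hF2
      refine fr_mono h5 ?_
      decide
    · simp only [mainE, ixE, Ex.size]
      omega
  · have hdm : s1.ar .dm = s.ar .dm := congrArg X.Dm hX1
    have hdv : (Ex.get .dm dxE).ev s1 = d := by
      have e1 : (Ex.get .dm dxE).ev s1 = s1.ar .dm (dxE.ev s1) := rfl
      rw [e1, hd1, hdm, hd]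
      rfl
    have hG2 : absG ((s1.setr .cFD ((Ex.get .dm dxE).ev s1)).setr .vY
        (s1.ar .hs (d - s1.rg .cK * s1.rg .dl))) = absG s := by
      rw [RBody_absG_setr _ _ _ (by decide), RBody_absG_setr _ _ _ (by decide), hG1]
    have hhs : s1.ar .hs = s.ar .hs := congrArg G.hs hG1
    have hE2 : EVisR n (absG ((s1.setr .cFD ((Ex.get .dm dxE).ev s1)).setr .vY
        (s1.ar .hs (d - s1.rg .cK * s1.rg .dl))))
        (((s1.setr .cFD ((Ex.get .dm dxE).ev s1)).setr .vY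
        (s1.ar .hs (d - s1.rg .cK * s1.rg .dl))).rg .cFD)
        (((s1.setr .cFD ((Ex.get .dm dxE).ev s1)).setr .vY
        (s1.ar .hs (d - s1.rg .cK * s1.rg .dl))).rg .cK + 1)
        (((s1.setr .cFD ((Ex.get .dm dxE).ev s1)).setr .vY
        (s1.ar .hs (d - s1.rg .cK * s1.rg .dl))).rg .vY) g' t := by
      rw [hG2, hdv]
      simp only [rg_setr, reduceCtorEq, if_false, if_true, hK1, hl1, hhs]
      exact hE
    have hb2 : ((s1.setr .cFD ((Ex.get .dm dxE).ev s1)).setr .vY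
        (s1.ar .hs (d - s1.rg .cK * s1.rg .dl))).rg .bb = (n + 1) * (n + 1) := by
      simpa using hb1
    obtain ⟨s2, T2, hr2, hG2', hX2, hF2, hT2⟩ := RBody_hitC hb2 hE2
    have hset : Run (.set .vY (.get .hs (.sub (.reg .cFD) (.mul (.reg .cK) (.reg .dl)))))
        (s1.setr .cFD ((Ex.get .dm dxE).ev s1))
        ((s1.setr .cFD ((Ex.get .dm dxE).ev s1)).setr .vY
        (s1.ar .hs (d - s1.rg .cK * s1.rg .dl))) 7 := by
      have e1 : (Ex.get .hs (.sub (.reg .cFD) (.mul (.reg .cK) (.reg .dl)))).ev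
          (s1.setr .cFD ((Ex.get .dm dxE).ev s1)) =
          s1.ar .hs (d - s1.rg .cK * s1.rg .dl) := by
        rw [hdv]
        simp
      have e2 := Run.set .vY (.get .hs (.sub (.reg .cFD) (.mul (.reg .cK) (.reg .dl))))
        (s1.setr .cFD ((Ex.get .dm dxE).ev s1))
      rw [e1] at e2
      exact e2
    have hne : (Ex.reg .cFD).ev (s1.setr .cFD ((Ex.get .dm dxE).ev s1)) ≠ 0 := by
      rw [hdv]
      simpa using hd0
    have hm0 : mainE.ev s1 = 0 := by
      by_contra hh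
      exact hM (hm1.1 hh)
    have hrun : Run bodyC s s2 _ := RBody_seq hr1 (RBody_one (Run.iteF _ _ _ _ _ _ hm0
        (RBody_seq (Run.set _ _ _) (RBody_one (Run.iteT _ _ _ _ _ _ hne
          (RBody_seq hset (RBody_one hr2)))))))
    refine ⟨s2, _, hrun, hG2', ?_, ?_, hd0, ?_, ?_, ?_⟩
    · rw [hX2]
      exact hX1
    · rw [hF2.1 _ (by decide)]
      simp only [rg_setr, reduceCtorEq, if_false, if_true]
      exact hdv
    · rw [hF2.1 _ (by decide)]
      simp only [rg_setr, reduceCtorEq, if_false, hK1]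
    · have h5 := fr_trans (fr_trans (fr_trans hF1 (RBody_fr_setr s1 .cFD
        ((Ex.get .dm dxE).ev s1))) (RBody_fr_setr _ .vY
        (s1.ar .hs (d - s1.rg .cK * s1.rg .dl)))) hF2
      refine fr_mono h5 ?_
      decide
    · simp only [mainE, dxE, Ex.size]
      omega

theorem step_sim {n : ℕ} {s : St} {x' : X} {g' : G} {t : ℕ} (hp : Par n s)
    (h : StepR n (s.rg .c) (s.rg .cA) (absX s) (absG s) (absQ s) x' g' t) :
    ∃ s' T, Run bodyC s s' T ∧ absG s' = g' ∧ absX s' = x' ∧ s'.rg .cFD = 0 ∧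
      absQ s' = (absQ s).next (absX s) ∧ Fr wB s s' ∧ T ≤ 3000 * (t + 1) := by
  obtain ⟨s1, T1, hr1, hG1, hX1, hQ1, hF1, hT1, hm1, hd1⟩ := names_sim hp
  have hK1 : s1.rg .cK = s.rg .cK := hF1.1 _ (by decide)
  have hN1 : s1.rg .cN1 = s.rg .cN1 := hF1.1 _ (by decide)
  have hc1 : s1.rg .c = s.rg .c := hF1.1 _ (by decide)
  have hb1 : s1.rg .bb = (n + 1) * (n + 1) := by
    rw [hF1.1 _ (by decide)]
    exact hp.hbb
  have hl1 : s1.rg .dl = n + 2 := by
    rw [hF1.1 _ (by decide)]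
    exact hp.hdl
  obtain ⟨hM, hD0, hx', g1, t1, hA, hrest⟩ := h
  have hm0 : mainE.ev s1 = 0 := by
    by_contra hh
    exact hM (hm1.1 hh)
  have hdm : s1.ar .dm = s.ar .dm := congrArg X.Dm hX1
  have hdv : (Ex.get .dm dxE).ev s1 = 0 := by
    have e1 : (Ex.get .dm dxE).ev s1 = s1.ar .dm (dxE.ev s1) := rfl
    rw [e1, hd1, hdm]
    exact hD0
  -- the state before attachC
  obtain ⟨s2, hs2⟩ : ∃ s2, s2 = s1.setr .cFD ((Ex.get .dm dxE).ev s1) := ⟨_, rfl⟩
  have hdx2 : dxE.ev s2 = (absQ s).dx n (s.rg .c) (s.rg .cA) := by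
    rw [← hd1, hs2]
    simp [dxE]
  have hc2 : (Ex.reg .c).ev s2 = s.rg .c := by
    rw [hs2]
    simpa using hc1
  obtain ⟨s3, hs3⟩ : ∃ s3, s3 = s2.seta .dm (dxE.ev s2) ((Ex.reg .c).ev s2) := ⟨_, rfl⟩
  obtain ⟨s4, hs4⟩ : ∃ s4, s4 = s3.setr .aZ ((Ex.reg .cN1).ev s3) := ⟨_, rfl⟩
  obtain ⟨s5, hs5⟩ : ∃ s5, s5 = s4.setr .aK ((Ex.reg .cK).ev s4) := ⟨_, rfl⟩
  obtain ⟨s6, hs6⟩ : ∃ s6, s6 = s5.setr .aP
    ((Ex.sub (.reg .c) (.mul (.reg .cK) (.reg .dl))).ev s5) := ⟨_, rfl⟩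
  have hr2 : Run (.set .cFD (.get .dm dxE)) s1 s2 ((Ex.get .dm dxE).size + 1) := by
    rw [hs2]
    exact Run.set _ _ _
  have hr3 : Run (.put .dm dxE (.reg .c)) s2 s3 (dxE.size + (Ex.reg .c).size + 1) := by
    rw [hs3]
    exact Run.put _ _ _ _
  have hr4 : Run (.set .aZ (.reg .cN1)) s3 s4 ((Ex.reg .cN1).size + 1) := by
    rw [hs4]
    exact Run.set _ _ _
  have hr5 : Run (.set .aK (.reg .cK)) s4 s5 ((Ex.reg .cK).size + 1) := by
    rw [hs5]
    exact Run.set _ _ _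
  have hr6 : Run (.set .aP (.sub (.reg .c) (.mul (.reg .cK) (.reg .dl)))) s5 s6
      ((Ex.sub (.reg .c) (.mul (.reg .cK) (.reg .dl))).size + 1) := by
    rw [hs6]
    exact Run.set _ _ _
  have hF6 : Fr ([.cT2, .cT3, .cM2, .cM3] ++ [.cFD] ++ [] ++ [.aZ] ++ [.aK] ++ [.aP]) s s6 := by
    have f2 : Fr [.cFD] s1 s2 := by
      rw [hs2]
      exact RBody_fr_setr _ _ _
    have f3 : Fr [] s2 s3 := by
      rw [hs3]
      exact RBody_fr_seta _ _ _ _
    have f4 : Fr [.aZ] s3 s4 := by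
      rw [hs4]
      exact RBody_fr_setr _ _ _
    have f5 : Fr [.aK] s4 s5 := by
      rw [hs5]
      exact RBody_fr_setr _ _ _
    have f6 : Fr [.aP] s5 s6 := by
      rw [hs6]
      exact RBody_fr_setr _ _ _
    exact fr_trans (fr_trans (fr_trans (fr_trans (fr_trans hF1 f2) f3) f4) f5) f6
  have hG3 : absG s3 = absG s := by
    rw [hs3, ← hG1, hs2]
    simp [absG, absD, absT]
  have hG6 : absG s6 = absG s := by
    rw [hs6, RBody_absG_setr _ _ _ (by decide), hs5, RBody_absG_setr _ _ _ (by decide), hs4,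
      RBody_absG_setr _ _ _ (by decide), hG3]
  have hX6 : absX s6 = x' := by
    rw [hs6, hs5, hs4, RBody_absX_setr, RBody_absX_setr, RBody_absX_setr, hs3, hdx2, hc2, hx']
    have e1 : absX (s2.seta .dm ((absQ s).dx n (s.rg .c) (s.rg .cA)) (s.rg .c)) =
        { absX s1 with Dm := upd (absX s1).Dm ((absQ s).dx n (s.rg .c) (s.rg .cA)) (s.rg .c) } := by
      rw [hs2]
      simp [absX]
    rw [e1, hX1]
  have hZ6 : s6.rg .aZ = s.rg .cN1 := by
    rw [hs6, hs5, hs4, hs3, hs2]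
    simpa using hN1
  have hKK6 : s6.rg .aK = s.rg .cK := by
    rw [hs6, hs5, hs4, hs3, hs2]
    simpa using hK1
  have hP6 : s6.rg .aP = s.rg .c - s.rg .cK * (n + 2) := by
    rw [hs6, hs5, hs4, hs3, hs2]
    simp [hc1, hK1, hl1]
  have hb6 : s6.rg .bb = (n + 1) * (n + 1) := by
    rw [hF6.1 _ (by decide)]
    exact hp.hbb
  have hl6 : s6.rg .dl = n + 2 := by
    rw [hF6.1 _ (by decide)]
    exact hp.hdl
  have hA6 : AttachR n (absG s6) (s6.rg .aZ) (s6.rg .aK) (s6.rg .aP) g1 t1 := by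
    rw [hG6, hZ6, hKK6, hP6]
    exact hA
  obtain ⟨s7, T7, hr7, hG7, hX7, hF7, hT7⟩ := attach_sim hb6 hl6 hA6
  have hF07 := fr_trans hF6 hF7
  have hK7 : s7.rg .cK = s.rg .cK := hF07.1 _ (by decide)
  have hN7 : s7.rg .cN1 = s.rg .cN1 := hF07.1 _ (by decide)
  have hb7 : s7.rg .bb = (n + 1) * (n + 1) := by
    rw [hF07.1 _ (by decide)]
    exact hp.hbb
  have hl7 : s7.rg .dl = n + 2 := by
    rw [hF07.1 _ (by decide)]
    exact hp.hdl
  have hQ7 : absQ s7 = absQ s := by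
    simp only [absQ]
    rw [hF07.1 _ (by decide), hF07.1 _ (by decide), hF07.1 _ (by decide),
      hF07.1 _ (by decide), hF07.1 _ (by decide), hF07.1 _ (by decide)]
  have hFD7 : s7.rg .cFD = 0 := by
    rw [hF7.1 _ (by decide), hs6, hs5, hs4, hs3, hs2, hdv]
    simp
  have hlm7 : s7.ar .lm = s.ar .lm := by
    have e1 : (absX s7).Lm = (absX s).Lm := by
      rw [hX7, hX6, hx']
    exact e1
  have hX7' : absX s7 = x' := by rw [hX7, hX6]
  -- the optional visit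
  have hmid : ∃ s8 T8, Run (.ite (.lt (.get .lm (.reg .cN1)) (.sub (.reg .cK) (.lit 1)))
      (bl [imgC, .set .vZ (.reg .cN1), .set .vK (.sub (.reg .cK) (.lit 1)), evisC]) .skip)
      s7 s8 T8 ∧ absG s8 = g' ∧ absX s8 = x' ∧
      Fr ([.cT, .vY, .vZ, .vK, .iX] ++ wI) s7 s8 ∧ T8 + 1500 * t1 ≤ 1500 * t + 500 := by
    rcases hrest with ⟨hlt, t2, hE, ht⟩ | ⟨hlt, hg, ht⟩
    · obtain ⟨T8, hT8, hr8⟩ := run_ex imgC rfl s7
      have hsz : imgC.size ≤ 60 := by decide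
      have hex : imgC.ex s7 = (s7.setr .cT (g1.nm (g1.el (ix n (s.rg .cN1) (s.rg .cK))))).setr
          .vY (g1.imgPos n (s.rg .cN1) (s.rg .cK)) := by
        have key : ∀ (c1 c2 : Cmd), (Cmd.seq c1 (.seq c2 .skip)).ex s7 =
          c2.ex (c1.ex s7) := fun _ _ => rfl
        unfold imgC
        simp only [bl]
        have hT : (Cmd.set .cT (.get .nm (.get .el (ixE (.reg .cN1) (.reg .cK))))).ex s7 =
            s7.setr .cT (g1.nm (g1.el (ix n (s.rg .cN1) (s.rg .cK)))) := by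
          rw [← hG7, ix, ← hb7, ← hN7, ← hK7]
          rfl
        rw [key, hT, RBody_iteset]
        unfold G.imgPos
        generalize g1.nm (g1.el (ix n (s.rg .cN1) (s.rg .cK))) = v
        congr 1
        by_cases hz : g1.kk v = 0
        · have hz' : ¬ (Ex.get .kk (.reg .cT)).ev (s7.setr .cT v) ≠ 0 := by
            rw [← hG7] at hz
            exact not_not.2 hz
          rw [if_pos hz, if_neg hz', ← hG7, ← hN7, ← hK7, ← hl7]
          rfl
        · have hz' : (Ex.get .kk (.reg .cT)).ev (s7.setr .cT v) ≠ 0 := by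
            rw [← hG7] at hz
            exact hz
          rw [if_neg hz, if_pos hz', ← hG7, ix, ← hb7]
          rfl
      obtain ⟨s8, hs8⟩ : ∃ s8, s8 = imgC.ex s7 := ⟨_, rfl⟩
      rw [← hs8] at hr8 hex
      have hF8 : Fr [.cT, .vY] s7 s8 := by
        rw [hex]
        exact fr_trans (RBody_fr_setr _ _ _) (RBody_fr_setr _ _ _)
      obtain ⟨s9, hs9⟩ : ∃ s9, s9 = (s8.setr .vZ ((Ex.reg .cN1).ev s8)).setr .vK
          ((Ex.sub (.reg .cK) (.lit 1)).ev (s8.setr .vZ ((Ex.reg .cN1).ev s8))) := ⟨_, rfl⟩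
      have hF9 : Fr ([.vZ] ++ [.vK]) s8 s9 := by
        rw [hs9]
        exact fr_trans (RBody_fr_setr _ _ _) (RBody_fr_setr _ _ _)
      have hG9 : absG s9 = g1 := by
        rw [hs9, RBody_absG_setr _ _ _ (by decide), RBody_absG_setr _ _ _ (by decide), hex,
          RBody_absG_setr _ _ _ (by decide), RBody_absG_setr _ _ _ (by decide), hG7]
      have hX9 : absX s9 = x' := by
        rw [hs9, RBody_absX_setr, RBody_absX_setr, hex, RBody_absX_setr, RBody_absX_setr, hX7']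
      have hvZ : s9.rg .vZ = s.rg .cN1 := by
        rw [hs9, hex]
        simpa using hN7
      have hvK : s9.rg .vK = s.rg .cK - 1 := by
        rw [hs9, hex]
        simp [hK7]
      have hvY : s9.rg .vY = g1.imgPos n (s.rg .cN1) (s.rg .cK) := by
        rw [hs9, hex]
        simp
      have hb9 : s9.rg .bb = (n + 1) * (n + 1) := by
        rw [hF9.1 _ (by decide), hF8.1 _ (by decide), hb7]
      have hE9 : EVisR n (absG s9) (s9.rg .vZ) (s9.rg .vK) (s9.rg .vY) g' t2 := by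
        rw [hG9, hvZ, hvK, hvY]
        exact hE
      obtain ⟨s10, T10, hr10, hG10, hX10, hF10, hT10⟩ := evis_sim hb9 hE9
      have hcond : (Ex.lt (.get .lm (.reg .cN1)) (.sub (.reg .cK) (.lit 1))).ev s7 ≠ 0 := by
        rw [RBody_lt_ne]
        have hlt' : s.ar .lm (s.rg .cN1) < s.rg .cK - 1 := hlt
        rw [← hlm7, ← hN7, ← hK7] at hlt'
        exact hlt'
      rw [hs9] at hr10
      have hrun : Run (.ite (.lt (.get .lm (.reg .cN1)) (.sub (.reg .cK) (.lit 1)))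
        (bl [imgC, .set .vZ (.reg .cN1), .set .vK (.sub (.reg .cK) (.lit 1)), evisC]) .skip)
        s7 s10 _ := Run.iteT _ _ _ _ _ _ hcond (RBody_seq hr8 (RBody_seq (Run.set _ _ _)
          (RBody_seq (Run.set _ _ _) (RBody_one hr10))))
      refine ⟨s10, _, hrun, hG10, ?_, ?_, ?_⟩
      · rw [hX10, hX9]
      · refine fr_mono (fr_trans (fr_trans hF8 hF9) hF10) ?_
        decide
      · simp only [Ex.size]
        omega
    · have hcond : (Ex.lt (.get .lm (.reg .cN1)) (.sub (.reg .cK) (.lit 1))).ev s7 = 0 := by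
        by_contra hh
        have hh2 := (RBody_lt_ne _ _ s7).1 hh
        have hh3 : s7.ar .lm (s7.rg .cN1) < s7.rg .cK - 1 := hh2
        rw [hlm7, hN7, hK7] at hh3
        exact hlt hh3
      refine ⟨s7, _, Run.iteF _ _ _ _ _ _ hcond (Run.skip _), ?_, hX7', fr_mono (fr_refl [] s7)
        (fun r hr => absurd hr (List.not_mem_nil)), ?_⟩
      · rw [hG7, hg]
      · simp only [Ex.size]
        omega
  obtain ⟨s8, T8, hr8, hG8, hX8, hF8, hT8⟩ := hmid
  obtain ⟨s9, T9, hr9, hG9, hX9, hQ9, hF9, hT9⟩ := RBody_next s8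
  have hQ8 : absQ s8 = absQ s := by
    rw [← hQ7]
    simp only [absQ]
    rw [hF8.1 _ (by decide), hF8.1 _ (by decide), hF8.1 _ (by decide),
      hF8.1 _ (by decide), hF8.1 _ (by decide), hF8.1 _ (by decide)]
  have hne : (Ex.reg .cFD).ev s2 = 0 := by
    rw [hs2, hdv]
    simp
  have hmiss : Run missC s2 s9 _ := RBody_seq hr3 (RBody_seq hr4 (RBody_seq hr5 (RBody_seq hr6
    (RBody_seq hr7 (RBody_seq hr8 (RBody_one hr9))))))
  have hrun : Run bodyC s s9 _ := RBody_seq hr1 (RBody_one (Run.iteF _ _ _ _ _ _ hm0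
      (RBody_seq hr2 (RBody_one (Run.iteF _ _ _ _ _ _ hne hmiss)))))
  refine ⟨s9, _, hrun, ?_, ?_, ?_, ?_, ?_, ?_⟩
  · rw [hG9, hG8]
  · rw [hX9, hX8]
  · rw [hF9.1 _ (by decide), hF8.1 _ (by decide), hFD7]
  · rw [hQ9, hQ8, hX8, hx']
    rfl
  · refine fr_mono (fr_trans (fr_trans hF07 hF8) hF9) ?_
    decide
  · simp only [mainE, dxE, Ex.size]
    omega

end ST2
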