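import Pool.Agent.helper32.ST.RLoop

/-!
# ST2-RCell : one cell, one row

cell_sim: the straight line part gives x0 = (absX s).letter c sy, a = Am c; the registers; pre_sim; cFD := 0; loop_sim;
end_sim.  T <= 100 + 50 (s2+s3+1) + 4000 (s4+1) + 1000 (s5+1) <= 6000 (t+1).
row_sim: the loop over j from 0 to n: induction: after j cells: c = t(n+1) + j, absX = xs (t(n+1)+j+1), inp = the
remaining letters.  Cells: t(n+1)+j+1 for j < n is a cell (cell_iff).  The input list is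
(List.range n).map (fun j => A (t(n+1)+j+1)).
-/

namespace ST2

theorem RCell_app {l1 l2 : List Cmd} : ∀ {s s1 s2 : St} {t1 t2 : ℕ}, Run (bl l1) s s1 t1 →
    Run (bl l2) s1 s2 t2 → Run (bl (l1 ++ l2)) s s2 (t1 + t2) := by
  induction l1 with
  | nil =>
    intro s s1 s2 t1 t2 h1 h2
    simp only [bl] at h1
    cases h1
    simpa using h2
  | cons c l ih =>
    intro s s1 s2 t1 t2 h1 h2
    simp only [bl] at h1
    cases h1 with
    | seq _ _ _ sm _ ta tb ha hb =>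
      simp only [List.cons_append, bl]
      have := Run.seq c (bl (l ++ l2)) s sm s2 ta (tb + t2) ha (ih hb h2)
      rw [Nat.add_assoc]
      exact this

def RCell_hd : List Cmd := [
  .ite (.get .fm (.reg .cS)) (.set .cA (.get .fm (.reg .cS))) (.set .cA (.reg .c)),
  .put .fm (.reg .cS) (.reg .cA),
  .put .am (.reg .c) (.reg .cA),
  .set .cK (.get .lm (.sub (.reg .c) (.reg .dl))),
  .set .cN1 (.get .om (.sub (.reg .c) (.reg .dl))),
  .set .cL2 (.get .lm (.sub (.reg .c) (.reg .n1))),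
  .set .cN2 (.get .om (.sub (.reg .c) (.reg .n1))),
  .set .cL3 (.get .lm (.sub (.reg .c) (.lit 1))),
  .set .cN3 (.get .om (.sub (.reg .c) (.lit 1)))]

theorem RCell_split : cellC = bl (RCell_hd ++ [preC, .set .cFD (.lit 0), mainC, endC]) := rfl

theorem RCell_head (s : St) : ∃ s1 T, Run (bl RCell_hd) s s1 T ∧ T ≤ 60 ∧
    absX s1 = (absX s).letter (s.rg .c) (s.rg .cS) ∧ absG s1 = absG s ∧
    s1.rg .cA = (if s.ar .fm (s.rg .cS) = 0 then s.rg .c else s.ar .fm (s.rg .cS)) ∧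
    s1.rg .cK = s.ar .lm (s.rg .c - s.rg .dl) ∧ s1.rg .cN1 = s.ar .om (s.rg .c - s.rg .dl) ∧
    s1.rg .cL2 = s.ar .lm (s.rg .c - s.rg .n1) ∧ s1.rg .cN2 = s.ar .om (s.rg .c - s.rg .n1) ∧
    s1.rg .cL3 = s.ar .lm (s.rg .c - 1) ∧ s1.rg .cN3 = s.ar .om (s.rg .c - 1) ∧
    Fr [.cA, .cK, .cN1, .cL2, .cN2, .cL3, .cN3] s s1 := by
  obtain ⟨T, hT, hR⟩ := run_ex (bl RCell_hd) (by decide) s
  refine ⟨_, T, hR, le_trans hT (by decide), ?_⟩
  by_cases h0 : s.ar .fm (s.rg .cS) = 0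
  · refine ⟨?_, ?_, ?_, ?_, ?_, ?_, ?_, ?_, ?_, ?_, ?_⟩
    · simp [RCell_hd, absX, X.letter, h0]
    · simp [RCell_hd, absG, absD, absT, h0]
    · simp [RCell_hd, h0]
    · simp [RCell_hd, h0]
    · simp [RCell_hd, h0]
    · simp [RCell_hd, h0]
    · simp [RCell_hd, h0]
    · simp [RCell_hd, h0]
    · simp [RCell_hd, h0]
    · intro r hr
      simp only [List.mem_cons, List.not_mem_nil, or_false, not_or] at hr
      simp [RCell_hd, h0, hr]
    · simp [RCell_hd, h0]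
  · refine ⟨?_, ?_, ?_, ?_, ?_, ?_, ?_, ?_, ?_, ?_, ?_⟩
    · simp [RCell_hd, absX, X.letter, h0]
    · simp [RCell_hd, absG, absD, absT, h0]
    · simp [RCell_hd, h0]
    · simp [RCell_hd, h0]
    · simp [RCell_hd, h0]
    · simp [RCell_hd, h0]
    · simp [RCell_hd, h0]
    · simp [RCell_hd, h0]
    · simp [RCell_hd, h0]
    · intro r hr
      simp only [List.mem_cons, List.not_mem_nil, or_false, not_or] at hr
      simp [RCell_hd, h0, hr]
    · simp [RCell_hd, h0]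

theorem RCell_incl : ∀ r ∈ ([.cA, .cK, .cN1, .cL2, .cN2, .cL3, .cN3] : List Rg) ++
    (([.cL2, .cN2, .cL3, .cN3] : List Rg) ++ (([.cFD] : List Rg) ++ (wB ++ wB))), r ∈ wC := by
  have h1 : ∀ r ∈ ([.cA, .cK, .cN1, .cL2, .cN2, .cL3, .cN3] : List Rg), r ∈ wC := by decide
  have h2 : ∀ r ∈ ([.cL2, .cN2, .cL3, .cN3] : List Rg), r ∈ wC := by decide
  have h3 : ∀ r ∈ ([.cFD] : List Rg), r ∈ wC := by decide
  have h4 : ∀ r ∈ wB, r ∈ wC := fun r hr => List.mem_append_left _ hr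
  intro r hr
  rcases List.mem_append.1 hr with hr | hr
  · exact h1 r hr
  rcases List.mem_append.1 hr with hr | hr
  · exact h2 r hr
  rcases List.mem_append.1 hr with hr | hr
  · exact h3 r hr
  rcases List.mem_append.1 hr with hr | hr
  · exact h4 r hr
  · exact h4 r hr

theorem RCell_par {n : ℕ} {s s' : St} {W : List Rg} (hp : Par n s) (hF : Fr W s s')
    (h1 : Rg.n ∉ W) (h2 : Rg.n1 ∉ W) (h3 : Rg.dl ∉ W) (h4 : Rg.bb ∉ W) : Par n s' :=
  ⟨(hF.1 _ h1).trans hp.hn, (hF.1 _ h2).trans hp.hn1, (hF.1 _ h3).trans hp.hdl,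
    (hF.1 _ h4).trans hp.hbb⟩

theorem cell_sim {n : ℕ} {s : St} {x' : X} {g' : G} {t : ℕ} (hp : Par n s)
    (h : CellR n (absX s) (absG s) (s.rg .c) (s.rg .cS) x' g' t) :
    ∃ s' T, Run cellC s s' T ∧ absG s' = g' ∧ absX s' = x' ∧ Fr wC s s' ∧
      T ≤ 6000 * (t + 1) := by
  obtain ⟨x0, a, l2, m2, s2, l3, m3, s3, x1, g1, k, d, s4, s5, hx0, ha, hP2, hP3, hL, hE, ht⟩ := h
  obtain ⟨u1, T1, hR1, hT1, hX1, hG1, hA1, hK1, hN1, hL2, hN2, hL3, hN3, hF1⟩ := RCell_head s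
  have hX1' : absX u1 = x0 := hX1.trans hx0.symm
  have hc1 : u1.rg .c = s.rg .c := hF1.1 _ (by decide)
  have ha1 : u1.rg .cA = a := by
    rw [hA1, ha, hx0]
    by_cases h0 : s.ar .fm (s.rg .cS) = 0
    · simp [X.letter, absX, h0]
    · simp [X.letter, absX, h0]
  have hLm : x0.Lm = s.ar .lm := by rw [hx0]; rfl
  have hOm : x0.Om = s.ar .om := by rw [hx0]; rfl
  rw [hp.hdl] at hK1 hN1
  rw [hp.hn1] at hL2 hN2
  rw [hLm, hOm] at hP2 hP3 hL
  have hP2' : PreR (absX u1) (u1.rg .cK) (u1.rg .cL2) (u1.rg .cN2) l2 m2 s2 := by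
    rw [hX1', hK1, hL2, hN2]; exact hP2
  have hP3' : PreR (absX u1) (u1.rg .cK) (u1.rg .cL3) (u1.rg .cN3) l3 m3 s3 := by
    rw [hX1', hK1, hL3, hN3]; exact hP3
  obtain ⟨u2, T2, hR2, hG2, hX2, hL2', hN2', hL3', hN3', hF2, hT2⟩ := pre_sim hP2' hP3'
  have hp1 : Par n u1 := RCell_par hp hF1 (by decide) (by decide) (by decide) (by decide)
  have hp2 : Par n u2 := RCell_par hp1 hF2 (by decide) (by decide) (by decide) (by decide)
  have hR3 : Run (.set .cFD (.lit 0)) u2 (u2.setr .cFD 0) 2 := Run.set .cFD (.lit 0) u2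
  have hF3 : Fr [.cFD] u2 (u2.setr .cFD 0) := by
    refine ⟨?_, rfl⟩
    intro r hr
    simp only [List.mem_cons, List.not_mem_nil, or_false] at hr
    simp [hr]
  have hp3 : Par n (u2.setr .cFD 0) :=
    RCell_par hp2 hF3 (by decide) (by decide) (by decide) (by decide)
  have hX3 : absX (u2.setr .cFD 0) = absX u2 := rfl
  have hG3 : absG (u2.setr .cFD 0) = absG u2 := by
    simp [absG, absD, absT]
  have hQ3 : absQ (u2.setr .cFD 0) = ⟨s.ar .lm (s.rg .c - (n + 2)), s.ar .om (s.rg .c - (n + 2)),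
      l2, m2, l3, m3⟩ := by
    have e1 : u2.rg .cK = u1.rg .cK := hF2.1 _ (by decide)
    have e2 : u2.rg .cN1 = u1.rg .cN1 := hF2.1 _ (by decide)
    simp [absQ, e1, e2, hL2', hN2', hL3', hN3', hK1, hN1]
  have hc3 : (u2.setr .cFD 0).rg .c = s.rg .c := by
    rw [hF3.1 _ (by decide), hF2.1 _ (by decide), hc1]
  have ha3 : (u2.setr .cFD 0).rg .cA = a := by
    rw [hF3.1 _ (by decide), hF2.1 _ (by decide), ha1]
  obtain ⟨u4, T4, hR4, hG4, hX4, hK4, hD4, hF4, hT4⟩ := loop_sim hL (u2.setr .cFD 0) hp3 hc3 ha3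
    (by rw [hX3, hX2, hX1']) (by rw [hG3, hG2, hG1]) hQ3 (by simp)
  have hp4 : Par n u4 := RCell_par hp3 hF4 (by decide) (by decide) (by decide) (by decide)
  have hc4 : u4.rg .c = s.rg .c := by rw [hF4.1 _ (by decide), hc3]
  have ha4 : u4.rg .cA = a := by rw [hF4.1 _ (by decide), ha3]
  have hE' : EndR n (u4.rg .c) (u4.rg .cA) (u4.rg .cK) (u4.rg .cFD) (absX u4) (absG u4) x' g' s5 := by
    rw [hc4, ha4, hK4, hD4, hX4, hG4]; exact hE
  obtain ⟨u5, T5, hR5, hG5, hX5, hF5, hT5⟩ := end_sim hp4 hE'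
  refine ⟨u5, T1 + (T2 + (2 + (T4 + (T5 + 0)))), ?_, hG5, hX5, ?_, ?_⟩
  · rw [RCell_split]
    exact RCell_app hR1 (Run.seq _ _ _ _ _ _ _ hR2 (Run.seq _ _ _ _ _ _ _ hR3
      (Run.seq _ _ _ _ _ _ _ hR4 (Run.seq _ _ _ _ _ _ _ hR5 (Run.skip _)))))
  · exact fr_mono (fr_trans hF1 (fr_trans hF2 (fr_trans hF3 (fr_trans hF4 hF5)))) RCell_incl
  · subst ht
    omega

def RCell_body : Cmd := bl [
    .set .c (.add (.reg .c) (.lit 1)), .rd .cS, cellC, .set .j (.add (.reg .j) (.lit 1))]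

theorem RCell_one {n : ℕ} {s : St} {x' : X} {g' : G} {a t : ℕ} {w : List ℕ} (hp : Par n s)
    (hi : s.inp = a :: w)
    (h : CellR n (absX s) (absG s) (s.rg .c + 1) a x' g' t) :
    ∃ s' T, Run RCell_body s s' T ∧ Par n s' ∧ absG s' = g' ∧ absX s' = x' ∧ s'.inp = w ∧
      s'.rg .c = s.rg .c + 1 ∧ s'.rg .j = s.rg .j + 1 ∧ T ≤ 6000 * (t + 1) + 9 := by
  have hR1 : Run (.set .c (.add (.reg .c) (.lit 1))) s (s.setr .c (s.rg .c + 1)) 4 :=
    Run.set .c (.add (.reg .c) (.lit 1)) s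
  have hR2 : Run (.rd .cS) (s.setr .c (s.rg .c + 1))
      { (s.setr .c (s.rg .c + 1)).setr .cS a with inp := w } 1 :=
    Run.rd .cS (s.setr .c (s.rg .c + 1)) a w (by simpa using hi)
  generalize hu : ({ (s.setr .c (s.rg .c + 1)).setr .cS a with inp := w } : St) = u at hR2
  have hpu : Par n u := by
    rw [← hu]
    exact ⟨by simpa using hp.hn, by simpa using hp.hn1, by simpa using hp.hdl,
      by simpa using hp.hbb⟩
  have hXu : absX u = absX s := by rw [← hu]; rfl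
  have hGu : absG u = absG s := by rw [← hu]; simp [absG, absD, absT]
  have hcu : u.rg .c = s.rg .c + 1 := by rw [← hu]; simp
  have hsu : u.rg .cS = a := by rw [← hu]; simp
  have hju : u.rg .j = s.rg .j := by rw [← hu]; simp
  have hiu : u.inp = w := by rw [← hu]
  have h' : CellR n (absX u) (absG u) (u.rg .c) (u.rg .cS) x' g' t := by
    rw [hXu, hGu, hcu, hsu]; exact h
  obtain ⟨v, T, hRv, hGv, hXv, hFv, hTv⟩ := cell_sim hpu h'
  have hR4 : Run (.set .j (.add (.reg .j) (.lit 1))) v (v.setr .j (v.rg .j + 1)) 4 :=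
    Run.set .j (.add (.reg .j) (.lit 1)) v
  have hpv : Par n v := RCell_par hpu hFv (by decide) (by decide) (by decide) (by decide)
  refine ⟨v.setr .j (v.rg .j + 1), 4 + (1 + (T + (4 + 0))), ?_, ?_, ?_, ?_, ?_, ?_, ?_, ?_⟩
  · exact Run.seq _ _ _ _ _ _ _ hR1 (Run.seq _ _ _ _ _ _ _ hR2
      (Run.seq _ _ _ _ _ _ _ hRv (Run.seq _ _ _ _ _ _ _ hR4 (Run.skip _))))
  · exact ⟨by simpa using hpv.hn, by simpa using hpv.hn1, by simpa using hpv.hdl,
      by simpa using hpv.hbb⟩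
  · rw [← hGv]; simp [absG, absD, absT]
  · rw [← hXv]; rfl
  · rw [inp_setr, hFv.2, hiu]
  · have : v.rg .c = u.rg .c := hFv.1 _ (by decide)
    simp [this, hcu]
  · have : v.rg .j = u.rg .j := hFv.1 _ (by decide)
    simp [this, hju]
  · omega

theorem RCell_loop {n : ℕ} {A : ℕ → ℕ} {xs : ℕ → X} {gs : ℕ → G} {ts : ℕ → ℕ} {b : ℕ} :
    ∀ (m j : ℕ), j + m = n →
    (∀ i, j ≤ i → i < n → CellR n (xs (b + i + 1)) (gs (b + i + 1)) (b + i + 1) (A (b + i + 1))
      (xs (b + i + 1 + 1)) (gs (b + i + 1 + 1)) (ts (b + i + 1))) →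
    ∀ s : St, Par n s → s.rg .c = b + j → s.rg .j = j →
    absX s = xs (b + j + 1) → absG s = gs (b + j + 1) →
    s.inp = (List.range m).map (fun i => A (b + (j + i) + 1)) →
    ∃ s' T, Run (.loop (.lt (.reg .j) (.reg .n)) RCell_body) s s' T ∧ Par n s' ∧
      s'.rg .c = b + n ∧ absX s' = xs (b + n + 1) ∧ absG s' = gs (b + n + 1) ∧ s'.inp = [] ∧
      T ≤ 7000 * (∑ i ∈ Finset.range m, ts (b + (j + i) + 1) + m) + 4 := by
  intro m
  induction m with
  | zero =>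
    intro j hj _ s hp hc hjr hX hG hi
    have hjn : j = n := by omega
    subst hjn
    refine ⟨s, 4, Run.loopF (.lt (.reg .j) (.reg .n)) RCell_body s ?_, hp, hc, hX, hG, ?_, ?_⟩
    · simp [hjr, hp.hn]
    · simpa using hi
    · omega
  | succ m ih =>
    intro j hj hC s hp hc hjr hX hG hi
    have hjn : j < n := by omega
    have hi' : s.inp = A (b + j + 1) :: (List.range m).map (fun i => A (b + (j + 1 + i) + 1)) := by
      rw [hi, List.range_succ_eq_map, List.map_cons, List.map_map]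
      congr 1
      apply List.map_congr_left
      intro i _
      simp only [Function.comp]
      congr 1
      omega
    have hcell : CellR n (absX s) (absG s) (s.rg .c + 1) (A (b + j + 1)) (xs (b + j + 1 + 1))
        (gs (b + j + 1 + 1)) (ts (b + j + 1)) := by
      rw [hX, hG, hc]
      exact hC j le_rfl hjn
    obtain ⟨u, T1, hR1, hp1, hG1, hX1, hi1, hc1, hj1, hT1⟩ := RCell_one hp hi' hcell
    obtain ⟨v, T2, hR2, hp2, hc2, hX2, hG2, hi2, hT2⟩ := ih (j + 1) (by omega)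
      (fun i hi1 hi2 => hC i (by omega) hi2) u hp1 (by rw [hc1, hc]; omega) (by rw [hj1, hjr])
      (by rw [hX1]; congr 1) (by rw [hG1]; congr 1) hi1
    refine ⟨v, _, Run.loopT _ _ _ _ _ _ _ ?_ hR1 hR2, hp2, hc2, hX2, hG2, hi2, ?_⟩
    · simp [hjr, hp.hn, hjn]
    · rw [Finset.sum_range_succ']
      have e : ∑ i ∈ Finset.range m, ts (b + (j + 1 + i) + 1) =
          ∑ i ∈ Finset.range m, ts (b + (j + (i + 1)) + 1) := by
        apply Finset.sum_congr rfl
        intro i _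
        congr 1
        omega
      rw [e] at hT2
      have e2 : b + (j + 0) + 1 = b + j + 1 := by omega
      rw [e2]
      simp only [Ex.size]
      omega

theorem row_sim {n : ℕ} {A : ℕ → ℕ} {xs : ℕ → X} {gs : ℕ → G} {ts : ℕ → ℕ} {t : ℕ}
    (ht : 1 ≤ t) (ht' : t ≤ n)
    (h : ∀ c < (n + 1) * (n + 1),
        (Cell n c → CellR n (xs c) (gs c) c (A c) (xs (c + 1)) (gs (c + 1)) (ts c)) ∧
        (¬ Cell n c → xs (c + 1) = xs c ∧ gs (c + 1) = gs c ∧ ts c = 0))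
    {s : St} (hp : Par n s) (hc : s.rg .c + 1 = t * (n + 1)) (hx : absX s = xs (t * (n + 1)))
    (hg : absG s = gs (t * (n + 1)))
    (hi : s.inp = (List.range n).map (fun j => A (t * (n + 1) + j + 1))) :
    ∃ s' T, Run rowC s s' T ∧ Par n s' ∧ s'.rg .c + 1 = (t + 1) * (n + 1) ∧
      absX s' = xs ((t + 1) * (n + 1)) ∧ absG s' = gs ((t + 1) * (n + 1)) ∧ s'.inp = [] ∧
      T ≤ 7000 * (∑ j ∈ Finset.range n, ts (t * (n + 1) + j + 1) + n + 1) := by
  have hlt : ∀ j, j ≤ n → t * (n + 1) + j < (n + 1) * (n + 1) := by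
    intro j hj
    have : t * (n + 1) ≤ n * (n + 1) := Nat.mul_le_mul_right _ ht'
    nlinarith
  have hdiv : ∀ j, j ≤ n → (t * (n + 1) + j) / (n + 1) = t ∧ (t * (n + 1) + j) % (n + 1) = j := by
    intro j hj
    have hj' : j < n + 1 := by omega
    constructor
    · rw [Nat.mul_comm, Nat.mul_add_div (Nat.succ_pos n), Nat.div_eq_of_lt hj']
      omega
    · rw [Nat.mul_comm, Nat.mul_add_mod, Nat.mod_eq_of_lt hj']
  have h0 := (h (t * (n + 1)) (by simpa using hlt 0 (Nat.zero_le _))).2 (by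
    rw [cell_iff]
    have := (hdiv 0 (Nat.zero_le _)).2
    rw [Nat.add_zero] at this
    omega)
  have hcells : ∀ i, 0 ≤ i → i < n → CellR n (xs (t * (n + 1) + i + 1)) (gs (t * (n + 1) + i + 1))
      (t * (n + 1) + i + 1) (A (t * (n + 1) + i + 1))
      (xs (t * (n + 1) + i + 1 + 1)) (gs (t * (n + 1) + i + 1 + 1)) (ts (t * (n + 1) + i + 1)) := by
    intro i _ hi
    refine (h (t * (n + 1) + i + 1) (hlt (i + 1) (by omega))).1 ?_
    rw [cell_iff]
    have := hdiv (i + 1) (by omega)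
    rw [← Nat.add_assoc] at this
    omega
  have hR1 : Run (.set .c (.add (.reg .c) (.lit 1))) s (s.setr .c (s.rg .c + 1)) 4 :=
    Run.set .c (.add (.reg .c) (.lit 1)) s
  have hR2 : Run (.set .j (.lit 0)) (s.setr .c (s.rg .c + 1))
      ((s.setr .c (s.rg .c + 1)).setr .j 0) 2 := Run.set .j (.lit 0) (s.setr .c (s.rg .c + 1))
  generalize hu : ((s.setr .c (s.rg .c + 1)).setr .j 0) = u at hR2
  have hpu : Par n u := by
    rw [← hu]
    exact ⟨by simpa using hp.hn, by simpa using hp.hn1, by simpa using hp.hdl,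
      by simpa using hp.hbb⟩
  have hXu : absX u = xs (t * (n + 1) + 0 + 1) := by
    rw [← hu, Nat.add_zero, h0.1, ← hx]; rfl
  have hGu : absG u = gs (t * (n + 1) + 0 + 1) := by
    rw [← hu, Nat.add_zero, h0.2.1, ← hg]; simp [absG, absD, absT]
  have hcu : u.rg .c = t * (n + 1) + 0 := by rw [← hu]; simp [hc]
  have hju : u.rg .j = 0 := by rw [← hu]; simp
  have hiu : u.inp = (List.range n).map (fun i => A (t * (n + 1) + (0 + i) + 1)) := by
    rw [← hu, inp_setr, inp_setr, hi]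
    apply List.map_congr_left
    intro i _
    rw [Nat.zero_add]
  obtain ⟨v, T, hRv, hpv, hcv, hXv, hGv, hiv, hTv⟩ :=
    RCell_loop n 0 (Nat.zero_add n) hcells u hpu hcu hju hXu hGu hiu
  have hfin : t * (n + 1) + n + 1 = (t + 1) * (n + 1) := by ring
  refine ⟨v, 4 + (2 + (T + 0)), ?_, hpv, ?_, ?_, ?_, hiv, ?_⟩
  · exact Run.seq _ _ _ _ _ _ _ hR1 (Run.seq _ _ _ _ _ _ _ hR2
      (Run.seq _ _ _ _ _ _ _ hRv (Run.skip _)))
  · rw [hcv, hfin]
  · rw [hXv, hfin]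
  · rw [hGv, hfin]
  · have e : ∑ i ∈ Finset.range n, ts (t * (n + 1) + (0 + i) + 1) =
        ∑ j ∈ Finset.range n, ts (t * (n + 1) + j + 1) := by
      apply Finset.sum_congr rfl
      intro i _
      rw [Nat.zero_add]
    rw [e] at hTv
    omega

end ST2
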