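import Pool.Agent.helper32.ST.GDef

/-!
# ST2-RDef : an array language (definitions)

Registers, arrays, expressions, commands, big step semantics with cost.  `bl` is a block.  `ex` executes
code without loops and reads.
-/

namespace ST2

inductive Rg
  | n | n1 | dl | bb | cnt | last | tc | c | j
  | iX | iE | iCur | iNw | iG | iRun | iC1 | iC2 | iC3 | iC4 | iF1 | iF2 | iY
  | mE | mC | mG | mU | mP | mA | mB2 | mC3 | mB | mRR | mTT
  | vZ | vK | vY
  | lV | lP | sF
  | sW | sK | sP | sU | sA | sB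
  | aZ | aK | aP | aE
  | cS | cA | cK | cN1 | cL2 | cN2 | cL3 | cN3 | cT2 | cT3 | cM2 | cM3 | cFD | cT | cNN
  deriving DecidableEq

inductive Ar
  | nx | pv | up | fi | cn | fl | nm | pm | nd | el | kz | kk | hs | ts
  | par | fc | ns | ps | sz | po
  | lm | om | am | fm | dm
  deriving DecidableEq

structure St where
  rg : Rg → ℕ
  ar : Ar → ℕ → ℕ
  inp : List ℕ

def St.setr (s : St) (r : Rg) (v : ℕ) : St := { s with rg := fun q => if q = r then v else s.rg q }

def St.seta (s : St) (a : Ar) (i v : ℕ) : St :=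
  { s with ar := fun b => if b = a then upd (s.ar a) i v else s.ar b }

@[simp] theorem rg_setr (s : St) (r q : Rg) (v : ℕ) :
    (s.setr r v).rg q = if q = r then v else s.rg q := rfl
@[simp] theorem ar_setr (s : St) (r : Rg) (v : ℕ) : (s.setr r v).ar = s.ar := rfl
@[simp] theorem inp_setr (s : St) (r : Rg) (v : ℕ) : (s.setr r v).inp = s.inp := rfl
@[simp] theorem rg_seta (s : St) (a : Ar) (i v : ℕ) : (s.seta a i v).rg = s.rg := rfl
@[simp] theorem ar_seta (s : St) (a b : Ar) (i v : ℕ) :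
    (s.seta a i v).ar b = if b = a then upd (s.ar a) i v else s.ar b := rfl
@[simp] theorem inp_seta (s : St) (a : Ar) (i v : ℕ) : (s.seta a i v).inp = s.inp := rfl

inductive Ex
  | lit (k : ℕ)
  | reg (r : Rg)
  | get (a : Ar) (i : Ex)
  | add (x y : Ex)
  | sub (x y : Ex)
  | mul (x y : Ex)
  | eq (x y : Ex)
  | lt (x y : Ex)

@[simp] def Ex.ev (s : St) : Ex → ℕ
  | .lit k => k
  | .reg r => s.rg r
  | .get a i => s.ar a (i.ev s)
  | .add x y => x.ev s + y.ev s
  | .sub x y => x.ev s - y.ev s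
  | .mul x y => x.ev s * y.ev s
  | .eq x y => if x.ev s = y.ev s then 1 else 0
  | .lt x y => if x.ev s < y.ev s then 1 else 0

@[simp] def Ex.size : Ex → ℕ
  | .lit _ => 1
  | .reg _ => 1
  | .get _ i => i.size + 1
  | .add x y => x.size + y.size + 1
  | .sub x y => x.size + y.size + 1
  | .mul x y => x.size + y.size + 1
  | .eq x y => x.size + y.size + 1
  | .lt x y => x.size + y.size + 1

inductive Cmd
  | skip
  | set (r : Rg) (e : Ex)
  | put (a : Ar) (i e : Ex)
  | rd (r : Rg)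
  | seq (c d : Cmd)
  | ite (e : Ex) (c d : Cmd)
  | loop (e : Ex) (c : Cmd)

inductive Run : Cmd → St → St → ℕ → Prop
  | skip (s : St) : Run .skip s s 0
  | set (r : Rg) (e : Ex) (s : St) : Run (.set r e) s (s.setr r (e.ev s)) (e.size + 1)
  | put (a : Ar) (i e : Ex) (s : St) :
      Run (.put a i e) s (s.seta a (i.ev s) (e.ev s)) (i.size + e.size + 1)
  | rd (r : Rg) (s : St) (v : ℕ) (w : List ℕ) (h : s.inp = v :: w) :
      Run (.rd r) s { s.setr r v with inp := w } 1
  | seq (c d : Cmd) (s s1 s2 : St) (t1 t2 : ℕ) (h1 : Run c s s1 t1) (h2 : Run d s1 s2 t2) :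
      Run (.seq c d) s s2 (t1 + t2)
  | iteT (e : Ex) (c d : Cmd) (s s' : St) (t : ℕ) (h : e.ev s ≠ 0) (h1 : Run c s s' t) :
      Run (.ite e c d) s s' (t + e.size + 1)
  | iteF (e : Ex) (c d : Cmd) (s s' : St) (t : ℕ) (h : e.ev s = 0) (h1 : Run d s s' t) :
      Run (.ite e c d) s s' (t + e.size + 1)
  | loopF (e : Ex) (c : Cmd) (s : St) (h : e.ev s = 0) : Run (.loop e c) s s (e.size + 1)
  | loopT (e : Ex) (c : Cmd) (s s1 s2 : St) (t1 t2 : ℕ) (h : e.ev s ≠ 0) (h1 : Run c s s1 t1)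
      (h2 : Run (.loop e c) s1 s2 t2) : Run (.loop e c) s s2 (t1 + t2 + e.size + 1)

/-- block -/
@[simp] def bl : List Cmd → Cmd
  | [] => .skip
  | c :: l => .seq c (bl l)

/-- execution of code without loops and reads -/
@[simp] def Cmd.ex : Cmd → St → St
  | .skip, s => s
  | .set r e, s => s.setr r (e.ev s)
  | .put a i e, s => s.seta a (i.ev s) (e.ev s)
  | .rd _, s => s
  | .seq c d, s => d.ex (c.ex s)
  | .ite e c d, s => if e.ev s ≠ 0 then c.ex s else d.ex s
  | .loop _ _, s => s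

/-- no loops, no reads -/
@[simp] def Cmd.lf : Cmd → Bool
  | .skip => true
  | .set _ _ => true
  | .put _ _ _ => true
  | .rd _ => false
  | .seq c d => c.lf && d.lf
  | .ite _ c d => c.lf && d.lf
  | .loop _ _ => false

/-- size of code (bounds the cost of code without loops) -/
@[simp] def Cmd.size : Cmd → ℕ
  | .skip => 0
  | .set _ e => e.size + 1
  | .put _ i e => i.size + e.size + 1
  | .rd _ => 1
  | .seq c d => c.size + d.size
  | .ite e c d => c.size + d.size + e.size + 1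
  | .loop e c => c.size + e.size + 1

/-- list part of the state -/
def absD (s : St) : D := ⟨s.ar .nx, s.ar .pv, s.ar .up, s.ar .fi, s.ar .cn, s.ar .fl, s.rg .cnt⟩

def absT (s : St) : TR :=
  ⟨s.ar .par, s.ar .fc, s.ar .ns, s.ar .ps, s.ar .sz, s.ar .po, s.rg .tc⟩

def absG (s : St) : G :=
  ⟨absD s, s.ar .nm, s.ar .pm, s.ar .nd, s.ar .el, s.ar .kz, s.ar .kk, s.ar .hs, s.ar .ts,
    s.rg .last, absT s⟩

def absX (s : St) : X := ⟨s.ar .lm, s.ar .om, s.ar .am, s.ar .fm, s.ar .dm⟩

/-- only the registers in W (and arrays) may have changed -/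
def Fr (W : List Rg) (s s' : St) : Prop := (∀ r, r ∉ W → s'.rg r = s.rg r) ∧ s'.inp = s.inp

end ST2
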