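import Pool.Agent.helper32.ST.RBas

/-!
# ST2-RIns : insC simulates InsOp

insLoop_sim by induction on InsR (generalize s).  One iteration: insBody has no loops; run_ex gives
Run insBody s (insBody.ex s) T1 with T1 <= insBody.size (compute by `decide` / `rfl` / norm_num [size]).
Compute insBody.ex s by simp (Cmd.ex, Ex.ev, rg_setr, ar_seta, ...) in the three cases: up cur = 0;
cn (up cur) < 3; otherwise.  absG of the result is { absG s with d := newRoot / addTo / split } (all by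
simp [absG, absD, absT, D.newRoot, D.split, D.link, ...]; the reads happen before the writes).
After root/add the register iRun is 0, so loopF; after split it is unchanged (nonzero).
insC_sim: the straight line part, then insLoop_sim.
-/

namespace ST2

theorem RIns_lf : insBody.lf = true := by decide

theorem RIns_size : insBody.size ≤ 150 := by decide

theorem RIns_root (s : St) (h : s.ar .up (s.rg .iCur) = 0) :
    absG (insBody.ex s) = { absG s with d := (absD s).newRoot (s.rg .iCur) (s.rg .iNw) } ∧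
    absX (insBody.ex s) = absX s ∧ (insBody.ex s).rg .iRun = 0 ∧
    Fr [.cnt, .iCur, .iNw, .iG, .iRun, .iC1, .iC2, .iC3, .iC4, .iF1, .iF2, .iY] s
      (insBody.ex s) := by
  refine ⟨?_, ?_, ?_, ?_, ?_⟩
  · simp [insBody, rootC, h, absG, absD, absT, D.newRoot]
  · simp [insBody, rootC, h, absX]
  · simp [insBody, rootC, h]
  · intro r hr
    simp only [List.mem_cons, List.not_mem_nil, or_false, not_or] at hr
    simp [insBody, rootC, h, hr]
  · simp [insBody, rootC, h]

theorem RIns_add (s : St) (h : s.ar .up (s.rg .iCur) ≠ 0)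
    (h2 : s.ar .cn (s.ar .up (s.rg .iCur)) < 3) :
    absG (insBody.ex s) =
      { absG s with d := (absD s).addTo (s.ar .up (s.rg .iCur)) (s.rg .iNw) } ∧
    absX (insBody.ex s) = absX s ∧ (insBody.ex s).rg .iRun = 0 ∧
    Fr [.cnt, .iCur, .iNw, .iG, .iRun, .iC1, .iC2, .iC3, .iC4, .iF1, .iF2, .iY] s
      (insBody.ex s) := by
  refine ⟨?_, ?_, ?_, ?_, ?_⟩
  · simp [insBody, addC, h, h2, absG, absD, absT, D.addTo]
  · simp [insBody, addC, h, h2, absX]
  · simp [insBody, addC, h, h2]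
  · intro r hr
    simp only [List.mem_cons, List.not_mem_nil, or_false, not_or] at hr
    simp [insBody, addC, h, h2, hr]
  · simp [insBody, addC, h, h2]

theorem RIns_split (s : St) (h : s.ar .up (s.rg .iCur) ≠ 0)
    (h2 : ¬ s.ar .cn (s.ar .up (s.rg .iCur)) < 3) :
    absG (insBody.ex s) =
      { absG s with d := (absD s).split (s.ar .up (s.rg .iCur)) (s.rg .iNw) } ∧
    absX (insBody.ex s) = absX s ∧ (insBody.ex s).rg .iRun = s.rg .iRun ∧
    (insBody.ex s).rg .iCur = s.ar .up (s.rg .iCur) ∧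
    (insBody.ex s).rg .iNw = s.rg .cnt + 1 ∧
    Fr [.cnt, .iCur, .iNw, .iG, .iRun, .iC1, .iC2, .iC3, .iC4, .iF1, .iF2, .iY] s
      (insBody.ex s) := by
  refine ⟨?_, ?_, ?_, ?_, ?_, ?_, ?_⟩
  · simp [insBody, splitDC, linkC, h, h2, absG, absD, absT, D.split, D.link, D.c1, D.c2, D.c3,
      D.c4]
  · simp [insBody, splitDC, linkC, h, h2, absX]
  · simp [insBody, splitDC, linkC, h, h2]
  · simp [insBody, splitDC, linkC, h, h2]
  · simp [insBody, splitDC, linkC, h, h2]
  · intro r hr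
    simp only [List.mem_cons, List.not_mem_nil, or_false, not_or] at hr
    simp [insBody, splitDC, linkC, h, h2, hr]
  · simp [insBody, splitDC, linkC, h, h2]

theorem insLoop_sim {d d' : D} {cur nw t : ℕ} (h : InsR d cur nw d' t) : ∀ s : St,
    absD s = d → s.rg .iCur = cur → s.rg .iNw = nw → s.rg .iRun ≠ 0 →
    ∃ s' T, Run (.loop (.reg .iRun) insBody) s s' T ∧ absG s' = { absG s with d := d' } ∧
      absX s' = absX s ∧
      Fr [.cnt, .iCur, .iNw, .iG, .iRun, .iC1, .iC2, .iC3, .iC4, .iF1, .iF2, .iY] s s' ∧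
      T ≤ 200 * t + 10 := by
  induction h with
  | root d cur nw h =>
    intro s hd hc hn hr
    subst hd hc hn
    obtain ⟨h1, h2, h3, h4⟩ := RIns_root s h
    obtain ⟨T1, hT1, hr1⟩ := run_ex insBody RIns_lf s
    have hs := RIns_size
    refine ⟨insBody.ex s, T1 + 2 + 1 + 1, ?_, h1, h2, h4, by omega⟩
    exact Run.loopT (.reg .iRun) insBody s _ _ T1 2 hr hr1 (Run.loopF _ _ _ h3)
  | add d cur nw h h2 =>
    intro s hd hc hn hr
    subst hd hc hn
    obtain ⟨h1, h2, h3, h4⟩ := RIns_add s h h2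
    obtain ⟨T1, hT1, hr1⟩ := run_ex insBody RIns_lf s
    have hs := RIns_size
    refine ⟨insBody.ex s, T1 + 2 + 1 + 1, ?_, h1, h2, h4, by omega⟩
    exact Run.loopT (.reg .iRun) insBody s _ _ T1 2 hr hr1 (Run.loopF _ _ _ h3)
  | split d cur nw d' t h h2 h3 ih =>
    intro s hd hc hn hr
    subst hd hc hn
    obtain ⟨k1, k2, k3, k4, k5, k6⟩ := RIns_split s h h2
    obtain ⟨T1, hT1, hr1⟩ := run_ex insBody RIns_lf s
    have hs := RIns_size
    have hD : absD (insBody.ex s) = (absD s).split (s.ar .up (s.rg .iCur)) (s.rg .iNw) :=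
      congrArg G.d k1
    obtain ⟨s', T, q1, q2, q3, q4, q5⟩ := ih (insBody.ex s) hD k4 k5 (by rw [k3]; exact hr)
    refine ⟨s', T1 + T + 1 + 1, ?_, ?_, ?_, ?_, by omega⟩
    · exact Run.loopT (.reg .iRun) insBody s _ _ T1 T hr hr1 q1
    · rw [q2, k1]
    · rw [q3, k2]
    · exact fr_mono (fr_trans k6 q4) (by
        intro r hr
        rw [List.mem_append] at hr
        exact hr.elim id id)

theorem RIns_cons {c : Cmd} (h : c.lf = true) {l : List Cmd} {s s' : St} {T : ℕ}
    (hr : Run (bl l) (c.ex s) s' T) : ∃ T', Run (bl (c :: l)) s s' T' ∧ T' ≤ c.size + T := by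
  obtain ⟨T1, hT1, hr1⟩ := run_ex c h s
  exact ⟨T1 + T, Run.seq _ _ _ _ _ _ _ hr1 hr, by omega⟩

/-- the straight line part of insC -/
def RIns_pre : Cmd := bl [
  .set .cnt (.add (.reg .cnt) (.lit 1)),
  .set .iE (.reg .cnt),
  linkC .iX .iE,
  .set .iCur (.reg .iX),
  .set .iNw (.reg .iE),
  .set .iRun (.lit 1)]

theorem RIns_pre_ex (s : St) :
    absD (RIns_pre.ex s) =
      ({ absD s with cnt := (absD s).cnt + 1 } : D).link (s.rg .iX) ((absD s).cnt + 1) ∧
    (∀ d' : D, ({ absG (RIns_pre.ex s) with d := d' } : G) = { absG s with d := d' }) ∧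
    absX (RIns_pre.ex s) = absX s ∧
    (RIns_pre.ex s).rg .iCur = s.rg .iX ∧
    (RIns_pre.ex s).rg .iNw = (absD s).cnt + 1 ∧
    (RIns_pre.ex s).rg .iRun = 1 ∧
    (RIns_pre.ex s).rg .iE = (absD s).cnt + 1 ∧
    Fr wI s (RIns_pre.ex s) := by
  refine ⟨?_, ?_, ?_, ?_, ?_, ?_, ?_, ?_, ?_⟩
  · simp [RIns_pre, linkC, absD, D.link]
  · intro d'
    simp [RIns_pre, linkC, absG, absD, absT]
  · simp [RIns_pre, linkC, absX]
  · simp [RIns_pre, linkC]
  · simp [RIns_pre, linkC, absD]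
  · simp [RIns_pre, linkC]
  · simp [RIns_pre, linkC, absD]
  · intro r hr
    unfold wI at hr
    simp only [List.mem_cons, List.not_mem_nil, or_false, not_or] at hr
    simp [RIns_pre, linkC, hr]
  · simp [RIns_pre, linkC]

theorem insC_sim {s : St} {d' : D} {t : ℕ} (h : InsOp (absD s) (s.rg .iX) d' t) :
    ∃ s' T, Run insC s s' T ∧ absG s' = { absG s with d := d' } ∧ absX s' = absX s ∧
      s'.rg .iE = (absD s).cnt + 1 ∧ Fr wI s s' ∧ T ≤ 300 * (t + 1) := by
  obtain ⟨p1, p2, p3, p4, p5, p6, p7, p8⟩ := RIns_pre_ex s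
  obtain ⟨s', T, q1, q2, q3, q4, q5⟩ := insLoop_sim h (RIns_pre.ex s) p1 p4 p5 (by rw [p6]; omega)
  have hloop : Run (bl [.loop (.reg .iRun) insBody]) (RIns_pre.ex s) s' (T + 0) :=
    Run.seq _ _ _ _ _ _ _ q1 (Run.skip s')
  obtain ⟨T6, h6, e6⟩ := RIns_cons (c := .set .iRun (.lit 1)) rfl
    (s := (bl [
      .set .cnt (.add (.reg .cnt) (.lit 1)),
      .set .iE (.reg .cnt),
      linkC .iX .iE,
      .set .iCur (.reg .iX),
      .set .iNw (.reg .iE)] : Cmd).ex s) (l := [.loop (.reg .iRun) insBody]) (T := T + 0) hloop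
  obtain ⟨T5, h5, e5⟩ := RIns_cons (c := .set .iNw (.reg .iE)) rfl
    (s := (bl [
      .set .cnt (.add (.reg .cnt) (.lit 1)),
      .set .iE (.reg .cnt),
      linkC .iX .iE,
      .set .iCur (.reg .iX)] : Cmd).ex s) h6
  obtain ⟨T4, h4, e4⟩ := RIns_cons (c := .set .iCur (.reg .iX)) rfl
    (s := (bl [
      .set .cnt (.add (.reg .cnt) (.lit 1)),
      .set .iE (.reg .cnt),
      linkC .iX .iE] : Cmd).ex s) h5
  obtain ⟨T3, h3, e3⟩ := RIns_cons (c := linkC .iX .iE) rfl
    (s := (bl [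
      .set .cnt (.add (.reg .cnt) (.lit 1)),
      .set .iE (.reg .cnt)] : Cmd).ex s) h4
  obtain ⟨T2, h2, e2⟩ := RIns_cons (c := .set .iE (.reg .cnt)) rfl
    (s := (bl [
      .set .cnt (.add (.reg .cnt) (.lit 1))] : Cmd).ex s) h3
  obtain ⟨T1, h1, e1⟩ := RIns_cons (c := .set .cnt (.add (.reg .cnt) (.lit 1))) rfl
    (s := s) h2
  refine ⟨s', T1, h1, ?_, ?_, ?_, ?_, ?_⟩
  · rw [q2, p2]
  · rw [q3, p3]
  · rw [q4.1 .iE (by decide), p7]
  · exact fr_mono (fr_trans p8 q4) (by
      intro r hr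
      rw [List.mem_append] at hr
      rcases hr with hr | hr
      · exact hr
      · unfold wI
        simp only [List.mem_cons, List.not_mem_nil, or_false] at hr ⊢
        tauto)
  · simp only [linkC, bl, Cmd.size, Ex.size] at e1 e2 e3 e4 e5 e6
    omega

end ST2
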