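import Pool.Agent.helper32.ST.RBas

/-!
# ST2-RMark : markOpC and markC simulate MarkOp and MarkG

climb_sim: induction on ClimbR; the loop condition climbCond is nonzero iff up cur <> 0 and fl (up cur) = 0.
descL_sim, descF_sim: induction on DescL / DescF (the memory does not change, only registers);
D.lastF / D.firstF by cases.
markOp_sim: assemble; leftC / rightC by simp with the if-conditions; product of 0/1 values nonzero iff
both nonzero.
markC_sim: G.relink.
-/

namespace ST2

theorem climb_sim {d d' : D} {cur r t : ℕ} (h : ClimbR d cur d' r t) : ∀ s : St,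
    absD s = d → s.rg .mC = cur →
    ∃ s' T, Run (.loop climbCond climbBody) s s' T ∧ absG s' = { absG s with d := d' } ∧
      absX s' = absX s ∧ s'.rg .mC = r ∧ Fr [.mC, .mG] s s' ∧ T ≤ 40 * (t + 1) := by
  induction h with
  | stop d cur h =>
    intro s hd hc
    have hev : climbCond.ev s = 0 := by
      subst hd hc
      have h' : s.ar .up (s.rg .mC) = 0 ∨ s.ar .fl (s.ar .up (s.rg .mC)) ≠ 0 := h
      rcases h' with h1 | h1
      · simp [climbCond, h1]
      · simp [climbCond, h1]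
    refine ⟨s, _, Run.loopF _ _ s hev, ?_, rfl, hc, fr_refl _ _, ?_⟩
    · subst hd
      rfl
    · simp [climbCond]
  | go d cur d' r t h h2 h3 ih =>
    intro s hd hc
    subst hd hc
    have h' : s.ar .up (s.rg .mC) ≠ 0 := h
    have h2' : s.ar .fl (s.ar .up (s.rg .mC)) = 0 := h2
    have hev : climbCond.ev s ≠ 0 := by
      simp [climbCond, h2', Nat.pos_of_ne_zero h']
    obtain ⟨T1, hT1, hr1⟩ := run_ex climbBody rfl s
    have e1 : absD (climbBody.ex s) =
        { absD s with fl := upd (absD s).fl ((absD s).up (s.rg .mC)) 1 } := by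
      simp [climbBody, absD]
    have e2 : (climbBody.ex s).rg .mC = (absD s).up (s.rg .mC) := by
      simp [climbBody, absD]
    have e3 : absG (climbBody.ex s) = { absG s with d := absD (climbBody.ex s) } := by
      simp [climbBody, absG, absD, absT]
    have e4 : absX (climbBody.ex s) = absX s := by
      simp [climbBody, absX]
    have e5 : Fr [.mC, .mG] s (climbBody.ex s) := by
      refine ⟨?_, ?_⟩
      · intro q hq
        simp only [List.mem_cons, List.not_mem_nil, or_false, not_or] at hq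
        simp [climbBody, hq.1, hq.2]
      · simp [climbBody]
    obtain ⟨s', T, hr, hg, hx, hm, hf, hT⟩ := ih _ e1 e2
    refine ⟨s', _, Run.loopT _ _ _ _ _ _ _ hev hr1 hr, ?_, hx.trans e4, hm, ?_, ?_⟩
    · rw [hg, e3]
    · exact fr_mono (fr_trans e5 hf) (by simp)
    · have hs1 : climbBody.size = 8 := by decide
      have hs2 : climbCond.size = 10 := by decide
      rw [hs1] at hT1
      rw [hs2]
      omega

private theorem RMark_kL (s : St) :
    absG (descLBody.ex s) = absG s ∧ absX (descLBody.ex s) = absX s ∧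
      (descLBody.ex s).rg .mU = (absD s).lastF (s.rg .mU) ∧
      Fr [.mU, .mA, .mB2, .mC3] s (descLBody.ex s) := by
  by_cases h1 : s.ar .cn (s.rg .mU) = 3
  · by_cases h2 : s.ar .fl (s.ar .nx (s.ar .nx (s.ar .fi (s.rg .mU)))) = 0
    · by_cases h3 : s.ar .fl (s.ar .nx (s.ar .fi (s.rg .mU))) = 0
      · refine ⟨?_, ?_, ?_, ?_, ?_⟩
        · simp [descLBody, kidsC, absG, absD, absT, h1, h2, h3]
        · simp [descLBody, kidsC, absX, h1, h2, h3]
        · simp [descLBody, kidsC, absD, D.lastF, h1, h2, h3]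
        · intro q hq
          simp only [List.mem_cons, List.not_mem_nil, or_false, not_or] at hq
          simp [descLBody, kidsC, h1, h2, h3, hq.1, hq.2.1, hq.2.2.1, hq.2.2.2]
        · simp [descLBody, kidsC, h1, h2, h3]
      · refine ⟨?_, ?_, ?_, ?_, ?_⟩
        · simp [descLBody, kidsC, absG, absD, absT, h1, h2, h3]
        · simp [descLBody, kidsC, absX, h1, h2, h3]
        · simp [descLBody, kidsC, absD, D.lastF, h1, h2, h3]
        · intro q hq
          simp only [List.mem_cons, List.not_mem_nil, or_false, not_or] at hq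
          simp [descLBody, kidsC, h1, h2, h3, hq.1, hq.2.1, hq.2.2.1, hq.2.2.2]
        · simp [descLBody, kidsC, h1, h2, h3]
    · refine ⟨?_, ?_, ?_, ?_, ?_⟩
      · simp [descLBody, kidsC, absG, absD, absT, h1, h2]
      · simp [descLBody, kidsC, absX, h1, h2]
      · simp [descLBody, kidsC, absD, D.lastF, h1, h2]
      · intro q hq
        simp only [List.mem_cons, List.not_mem_nil, or_false, not_or] at hq
        simp [descLBody, kidsC, h1, h2, hq.1, hq.2.1, hq.2.2.1, hq.2.2.2]
      · simp [descLBody, kidsC, h1, h2]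
  · by_cases h3 : s.ar .fl (s.ar .nx (s.ar .fi (s.rg .mU))) = 0
    · refine ⟨?_, ?_, ?_, ?_, ?_⟩
      · simp [descLBody, kidsC, absG, absD, absT, h1, h3]
      · simp [descLBody, kidsC, absX, h1, h3]
      · simp [descLBody, kidsC, absD, D.lastF, h1, h3]
      · intro q hq
        simp only [List.mem_cons, List.not_mem_nil, or_false, not_or] at hq
        simp [descLBody, kidsC, h1, h3, hq.1, hq.2.1, hq.2.2.1, hq.2.2.2]
      · simp [descLBody, kidsC, h1, h3]
    · refine ⟨?_, ?_, ?_, ?_, ?_⟩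
      · simp [descLBody, kidsC, absG, absD, absT, h1, h3]
      · simp [descLBody, kidsC, absX, h1, h3]
      · simp [descLBody, kidsC, absD, D.lastF, h1, h3]
      · intro q hq
        simp only [List.mem_cons, List.not_mem_nil, or_false, not_or] at hq
        simp [descLBody, kidsC, h1, h3, hq.1, hq.2.1, hq.2.2.1, hq.2.2.2]
      · simp [descLBody, kidsC, h1, h3]

private theorem RMark_kF (s : St) :
    absG (descFBody.ex s) = absG s ∧ absX (descFBody.ex s) = absX s ∧
      (descFBody.ex s).rg .mU = (absD s).firstF (s.rg .mU) ∧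
      Fr [.mU, .mA, .mB2, .mC3] s (descFBody.ex s) := by
  by_cases h1 : s.ar .fl (s.ar .fi (s.rg .mU)) = 0
  · by_cases h3 : s.ar .fl (s.ar .nx (s.ar .fi (s.rg .mU))) = 0
    · refine ⟨?_, ?_, ?_, ?_, ?_⟩
      · simp [descFBody, kidsC, absG, absD, absT, h1, h3]
      · simp [descFBody, kidsC, absX, h1, h3]
      · simp [descFBody, kidsC, absD, D.firstF, h1, h3]
      · intro q hq
        simp only [List.mem_cons, List.not_mem_nil, or_false, not_or] at hq
        simp [descFBody, kidsC, h1, h3, hq.1, hq.2.1, hq.2.2.1, hq.2.2.2]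
      · simp [descFBody, kidsC, h1, h3]
    · refine ⟨?_, ?_, ?_, ?_, ?_⟩
      · simp [descFBody, kidsC, absG, absD, absT, h1, h3]
      · simp [descFBody, kidsC, absX, h1, h3]
      · simp [descFBody, kidsC, absD, D.firstF, h1, h3]
      · intro q hq
        simp only [List.mem_cons, List.not_mem_nil, or_false, not_or] at hq
        simp [descFBody, kidsC, h1, h3, hq.1, hq.2.1, hq.2.2.1, hq.2.2.2]
      · simp [descFBody, kidsC, h1, h3]
  · refine ⟨?_, ?_, ?_, ?_, ?_⟩
    · simp [descFBody, kidsC, absG, absD, absT, h1]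
    · simp [descFBody, kidsC, absX, h1]
    · simp [descFBody, kidsC, absD, D.firstF, h1]
    · intro q hq
      simp only [List.mem_cons, List.not_mem_nil, or_false, not_or] at hq
      simp [descFBody, kidsC, h1, hq.1, hq.2.1, hq.2.2.1, hq.2.2.2]
    · simp [descFBody, kidsC, h1]

theorem descL_sim {d : D} {u r t : ℕ} (h : DescL d u r t) : ∀ s : St,
    absD s = d → s.rg .mU = u →
    ∃ s' T, Run (.loop (.get .cn (.reg .mU)) descLBody) s s' T ∧ absG s' = absG s ∧
      absX s' = absX s ∧ s'.rg .mU = r ∧ Fr [.mU, .mA, .mB2, .mC3] s s' ∧ T ≤ 60 * (t + 1) := by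
  induction h with
  | leaf u h =>
    intro s hd hc
    subst hd hc
    refine ⟨s, _, Run.loopF _ _ s h, rfl, rfl, rfl, fr_refl _ _, ?_⟩
    simp
  | node u r t h h2 ih =>
    intro s hd hc
    subst hd hc
    obtain ⟨T1, hT1, hr1⟩ := run_ex descLBody rfl s
    obtain ⟨e1, e2, e3, e4⟩ := RMark_kL s
    have e5 : absD (descLBody.ex s) = absD s := congrArg G.d e1
    obtain ⟨s', T, hr, hg, hx, hm, hf, hT⟩ := ih _ e5 e3
    refine ⟨s', _, Run.loopT _ _ _ _ _ _ _ h hr1 hr, hg.trans e1, hx.trans e2, hm, ?_, ?_⟩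
    · exact fr_mono (fr_trans e4 hf) (by simp)
    · have hs1 : descLBody.size = 26 := by decide
      rw [hs1] at hT1
      simp only [Ex.size]
      omega

theorem descF_sim {d : D} {u r t : ℕ} (h : DescF d u r t) : ∀ s : St,
    absD s = d → s.rg .mU = u →
    ∃ s' T, Run (.loop (.get .cn (.reg .mU)) descFBody) s s' T ∧ absG s' = absG s ∧
      absX s' = absX s ∧ s'.rg .mU = r ∧ Fr [.mU, .mA, .mB2, .mC3] s s' ∧ T ≤ 60 * (t + 1) := by
  induction h with
  | leaf u h =>
    intro s hd hc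
    subst hd hc
    refine ⟨s, _, Run.loopF _ _ s h, rfl, rfl, rfl, fr_refl _ _, ?_⟩
    simp
  | node u r t h h2 ih =>
    intro s hd hc
    subst hd hc
    obtain ⟨T1, hT1, hr1⟩ := run_ex descFBody rfl s
    obtain ⟨e1, e2, e3, e4⟩ := RMark_kF s
    have e5 : absD (descFBody.ex s) = absD s := congrArg G.d e1
    obtain ⟨s', T, hr, hg, hx, hm, hf, hT⟩ := ih _ e5 e3
    refine ⟨s', _, Run.loopT _ _ _ _ _ _ _ h hr1 hr, hg.trans e1, hx.trans e2, hm, ?_, ?_⟩
    · exact fr_mono (fr_trans e4 hf) (by simp)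
    · have hs1 : descFBody.size = 21 := by decide
      rw [hs1] at hT1
      simp only [Ex.size]
      omega

private def RMark_sel1 : Cmd :=
  .ite (.mul (.eq (.get .up (.reg .mP)) (.get .up (.reg .mC))) (.eq (.get .fl (.reg .mP)) (.lit 0)))
    (.set .mU (.get .pv (.reg .mP))) (.set .mU (.reg .mP))

private def RMark_sel2 : Cmd :=
  .ite (.eq (.get .fl (.get .nx (.reg .mC))) (.lit 0))
    (.set .mU (.get .nx (.get .nx (.reg .mC)))) (.set .mU (.get .nx (.reg .mC)))

private def RMark_cond : Ex :=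
  .mul (.eq (.get .up (.reg .mU)) (.get .up (.reg .mC))) (.get .fl (.reg .mU))

private theorem RMark_k1 (s : St) :
    absG (RMark_sel1.ex (s.setr .mP (s.ar .pv (s.rg .mC)))) = absG s ∧
    absX (RMark_sel1.ex (s.setr .mP (s.ar .pv (s.rg .mC)))) = absX s ∧
    (RMark_sel1.ex (s.setr .mP (s.ar .pv (s.rg .mC)))).rg .mU = (absD s).leftC (s.rg .mC) ∧
    (RMark_sel1.ex (s.setr .mP (s.ar .pv (s.rg .mC)))).rg .mC = s.rg .mC ∧
    Fr [.mP, .mU] s (RMark_sel1.ex (s.setr .mP (s.ar .pv (s.rg .mC)))) := by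
  by_cases h1 : s.ar .up (s.ar .pv (s.rg .mC)) = s.ar .up (s.rg .mC)
  · by_cases h2 : s.ar .fl (s.ar .pv (s.rg .mC)) = 0
    · refine ⟨?_, ?_, ?_, ?_, ?_, ?_⟩
      · simp [RMark_sel1, absG, absD, absT, h1, h2]
      · simp [RMark_sel1, absX, h1, h2]
      · simp [RMark_sel1, absD, D.leftC, h1, h2]
      · simp [RMark_sel1, h1, h2]
      · intro q hq
        simp only [List.mem_cons, List.not_mem_nil, or_false, not_or] at hq
        simp [RMark_sel1, h1, h2, hq.1, hq.2]
      · simp [RMark_sel1, h1, h2]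
    · refine ⟨?_, ?_, ?_, ?_, ?_, ?_⟩
      · simp [RMark_sel1, absG, absD, absT, h1, h2]
      · simp [RMark_sel1, absX, h1, h2]
      · simp [RMark_sel1, absD, D.leftC, h1, h2]
      · simp [RMark_sel1, h1, h2]
      · intro q hq
        simp only [List.mem_cons, List.not_mem_nil, or_false, not_or] at hq
        simp [RMark_sel1, h1, h2, hq.1, hq.2]
      · simp [RMark_sel1, h1, h2]
  · refine ⟨?_, ?_, ?_, ?_, ?_, ?_⟩
    · simp [RMark_sel1, absG, absD, absT, h1]
    · simp [RMark_sel1, absX, h1]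
    · simp [RMark_sel1, absD, D.leftC, h1]
    · simp [RMark_sel1, h1]
    · intro q hq
      simp only [List.mem_cons, List.not_mem_nil, or_false, not_or] at hq
      simp [RMark_sel1, h1, hq.1, hq.2]
    · simp [RMark_sel1, h1]

private theorem RMark_k2 (s : St) :
    absG (RMark_sel2.ex s) = absG s ∧ absX (RMark_sel2.ex s) = absX s ∧
    (RMark_sel2.ex s).rg .mU = (absD s).rightC (s.rg .mC) ∧
    Fr [.mU] s (RMark_sel2.ex s) := by
  by_cases h1 : s.ar .fl (s.ar .nx (s.rg .mC)) = 0
  · refine ⟨?_, ?_, ?_, ?_, ?_⟩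
    · simp [RMark_sel2, absG, absD, absT, h1]
    · simp [RMark_sel2, absX, h1]
    · simp [RMark_sel2, absD, D.rightC, h1]
    · intro q hq
      simp only [List.mem_cons, List.not_mem_nil, or_false] at hq
      simp [RMark_sel2, h1, hq]
    · simp [RMark_sel2, h1]
  · refine ⟨?_, ?_, ?_, ?_, ?_⟩
    · simp [RMark_sel2, absG, absD, absT, h1]
    · simp [RMark_sel2, absX, h1]
    · simp [RMark_sel2, absD, D.rightC, h1]
    · intro q hq
      simp only [List.mem_cons, List.not_mem_nil, or_false] at hq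
      simp [RMark_sel2, h1, hq]
    · simp [RMark_sel2, h1]

private theorem RMark_pre (s : St) {d' : D} {cur t : ℕ}
    (h : ClimbR { absD s with fl := upd (absD s).fl (s.rg .mE) 1 } (s.rg .mE) d' cur t) :
    ∃ s4 T4, (∀ c s5 T5, Run c s4 s5 T5 →
      Run (.seq (.put .fl (.reg .mE) (.lit 1)) (.seq (.set .mC (.reg .mE))
        (.seq (.loop climbCond climbBody) (.seq (.set .mP (.get .pv (.reg .mC)))
          (.seq RMark_sel1 c))))) s s5 (T4 + T5)) ∧
      absG s4 = { absG s with d := d' } ∧ absX s4 = absX s ∧ s4.rg .mU = d'.leftC cur ∧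
      s4.rg .mC = cur ∧ Fr [.mC, .mG, .mP, .mU] s s4 ∧ T4 ≤ 40 * (t + 1) + 30 := by
  have e1 : absD ((s.seta .fl (s.rg .mE) 1).setr .mC (s.rg .mE)) =
      { absD s with fl := upd (absD s).fl (s.rg .mE) 1 } := by
    simp [absD]
  have e2 : ((s.seta .fl (s.rg .mE) 1).setr .mC (s.rg .mE)).rg .mC = s.rg .mE := by simp
  have e3 : absG ((s.seta .fl (s.rg .mE) 1).setr .mC (s.rg .mE)) =
      { absG s with d := absD ((s.seta .fl (s.rg .mE) 1).setr .mC (s.rg .mE)) } := by
    simp [absG, absD, absT]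
  have e4 : absX ((s.seta .fl (s.rg .mE) 1).setr .mC (s.rg .mE)) = absX s := by
    simp [absX]
  have e5 : Fr [.mC] s ((s.seta .fl (s.rg .mE) 1).setr .mC (s.rg .mE)) := by
    refine ⟨?_, ?_⟩
    · intro q hq
      simp only [List.mem_cons, List.not_mem_nil, or_false] at hq
      simp [hq]
    · simp
  obtain ⟨s2, T, hr, hg, hx, hm, hf, hT⟩ := climb_sim h _ e1 e2
  obtain ⟨k1, k2, k3, k4, k5⟩ := RMark_k1 s2
  obtain ⟨T3, hT3, hr3⟩ := run_ex RMark_sel1 rfl (s2.setr .mP (s2.ar .pv (s2.rg .mC)))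
  have hd2 : absD s2 = d' := congrArg G.d hg
  refine ⟨_, 3 + (3 - 1 + (T + (4 - 1 + T3))), ?_, k1.trans (hg.trans (by rw [e3])),
    k2.trans (hx.trans e4), ?_, k4.trans hm, ?_, ?_⟩
  · intro c s5 T5 h5
    have r1 := Run.put .fl (.reg .mE) (.lit 1) s
    have r2 := Run.set .mC (.reg .mE) (s.seta .fl (s.rg .mE) 1)
    have r3 := Run.set .mP (.get .pv (.reg .mC)) s2
    have r4 := Run.seq _ _ _ _ _ _ _ r1 (Run.seq _ _ _ _ _ _ _ r2 (Run.seq _ _ _ _ _ _ _ hr
      (Run.seq _ _ _ _ _ _ _ r3 (Run.seq _ _ _ _ _ _ _ hr3 h5))))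
    convert r4 using 1
    simp only [Ex.size]
    omega
  · rw [k3, hd2, hm]
  · exact fr_mono (fr_trans (fr_trans e5 hf) k5) (by simp)
  · have hs : RMark_sel1.size = 16 := by decide
    rw [hs] at hT3
    omega

theorem markOp_sim {s : St} {d' : D} {r : ℕ} {b : Bool} {t : ℕ}
    (h : MarkOp (absD s) (s.rg .mE) d' r b t) :
    ∃ s' T, Run markOpC s s' T ∧ absG s' = { absG s with d := d' } ∧ absX s' = absX s ∧
      s'.rg .mU = r ∧ (s'.rg .mB = if b = true then 1 else 0) ∧
      Fr [.mC, .mG, .mU, .mP, .mA, .mB2, .mC3, .mB] s s' ∧ T ≤ 200 * (t + 1) := by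
  cases h with
  | left cur _ t t' h h2 h3 =>
    obtain ⟨s4, T4, hrun, hg, hx, hu, hc, hf, hT⟩ := RMark_pre s h
    have hd4 : absD s4 = d' := congrArg G.d hg
    obtain ⟨s5, T5, hr5, hg5, hx5, hm5, hf5, hT5⟩ := descL_sim h3 s4 hd4 hu
    have hev : RMark_cond.ev s4 ≠ 0 := by
      have h4 : s4.ar .up (s4.rg .mU) = s4.ar .up (s4.rg .mC) ∧ s4.ar .fl (s4.rg .mU) ≠ 0 := by
        rw [hu, hc]
        rw [← hd4] at h2 ⊢
        exact h2
      simp [RMark_cond, h4.1, h4.2]
    have r6 := Run.set .mB (.lit 1) s5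
    have r7 := Run.seq _ _ _ _ _ _ _ hr5 (Run.seq _ _ _ _ _ _ _ r6 (Run.skip _))
    have r8 := Run.iteT RMark_cond _ (bl [RMark_sel2,
        .loop (.get .cn (.reg .mU)) descFBody, .set .mB (.lit 0)]) _ _ _ hev r7
    have r9 := hrun _ _ _ (Run.seq _ _ _ _ _ _ _ r8 (Run.skip _))
    refine ⟨_, _, r9, ?_, ?_, ?_, ?_, ?_, ?_⟩
    · have : absG (s5.setr .mB ((Ex.lit 1).ev s5)) = absG s5 := by
        simp [absG, absD, absT]
      rw [this, hg5, hg]
    · have : absX (s5.setr .mB ((Ex.lit 1).ev s5)) = absX s5 := by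
        simp [absX]
      rw [this, hx5, hx]
    · simp [hm5]
    · simp
    · have e5 : Fr [.mB] s5 (s5.setr .mB ((Ex.lit 1).ev s5)) := by
        refine ⟨?_, ?_⟩
        · intro q hq
          simp only [List.mem_cons, List.not_mem_nil, or_false] at hq
          simp [hq]
        · simp
      exact fr_mono (fr_trans (fr_trans hf hf5) e5) (by simp)
    · have hs : RMark_cond.size = 8 := by decide
      rw [hs]
      simp only [Ex.size]
      omega
  | right cur _ t t' h h2 h3 =>
    obtain ⟨s4, T4, hrun, hg, hx, hu, hc, hf, hT⟩ := RMark_pre s h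
    have hd4 : absD s4 = d' := congrArg G.d hg
    obtain ⟨k1, k2, k3, k4⟩ := RMark_k2 s4
    obtain ⟨T3, hT3, hr3⟩ := run_ex RMark_sel2 rfl s4
    have hd4' : absD (RMark_sel2.ex s4) = d' := (congrArg G.d k1).trans hd4
    have hu4 : (RMark_sel2.ex s4).rg .mU = d'.rightC cur := by
      rw [k3, hd4, hc]
    obtain ⟨s5, T5, hr5, hg5, hx5, hm5, hf5, hT5⟩ := descF_sim h3 _ hd4' hu4
    have hev : RMark_cond.ev s4 = 0 := by
      have h4 : ¬ (s4.ar .up (s4.rg .mU) = s4.ar .up (s4.rg .mC) ∧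
          s4.ar .fl (s4.rg .mU) ≠ 0) := by
        rw [hu, hc]
        rw [← hd4] at h2 ⊢
        exact h2
      by_cases h5 : s4.ar .up (s4.rg .mU) = s4.ar .up (s4.rg .mC)
      · have h6 : s4.ar .fl (s4.rg .mU) = 0 := by
          by_contra h7
          exact h4 ⟨h5, h7⟩
        simp [RMark_cond, h6]
      · simp [RMark_cond, h5]
    have r6 := Run.set .mB (.lit 0) s5
    have r7 := Run.seq _ _ _ _ _ _ _ hr3 (Run.seq _ _ _ _ _ _ _ hr5
      (Run.seq _ _ _ _ _ _ _ r6 (Run.skip _)))
    have r8 := Run.iteF RMark_cond (bl [.loop (.get .cn (.reg .mU)) descLBody,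
        .set .mB (.lit 1)]) _ _ _ _ hev r7
    have r9 := hrun _ _ _ (Run.seq _ _ _ _ _ _ _ r8 (Run.skip _))
    refine ⟨_, _, r9, ?_, ?_, ?_, ?_, ?_, ?_⟩
    · have : absG (s5.setr .mB ((Ex.lit 0).ev s5)) = absG s5 := by
        simp [absG, absD, absT]
      rw [this, hg5, k1, hg]
    · have : absX (s5.setr .mB ((Ex.lit 0).ev s5)) = absX s5 := by
        simp [absX]
      rw [this, hx5, k2, hx]
    · simp [hm5]
    · simp
    · have e5 : Fr [.mB] s5 (s5.setr .mB ((Ex.lit 0).ev s5)) := by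
        refine ⟨?_, ?_⟩
        · intro q hq
          simp only [List.mem_cons, List.not_mem_nil, or_false] at hq
          simp [hq]
        · simp
      exact fr_mono (fr_trans (fr_trans (fr_trans hf k4) hf5) e5) (by simp)
    · have hs : RMark_cond.size = 8 := by decide
      have hs2 : RMark_sel2.size = 13 := by decide
      rw [hs2] at hT3
      rw [hs]
      simp only [Ex.size]
      omega

private def RMark_tail : Cmd := bl [
  .ite (.reg .mB) (bl [.set .mRR (.reg .mU), .set .mTT (.get .nm (.reg .mU))])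
    (bl [.set .mRR (.get .pm (.reg .mU)), .set .mTT (.reg .mU)]),
  .put .nm (.reg .mRR) (.reg .mE),
  .put .nm (.reg .mE) (.reg .mTT),
  .put .pm (.reg .mE) (.reg .mRR),
  .put .pm (.reg .mTT) (.reg .mE)]

private theorem RMark_kT (s : St) (b : Bool) (hb : s.rg .mB = if b = true then 1 else 0) :
    absG (RMark_tail.ex s) = (absG s).relink (absD s) (s.rg .mE) (s.rg .mU) b ∧
    absX (RMark_tail.ex s) = absX s ∧ Fr [.mRR, .mTT] s (RMark_tail.ex s) := by
  cases b with
  | true =>
    have hb' : s.rg .mB = 1 := by simpa using hb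
    refine ⟨?_, ?_, ?_, ?_⟩
    · simp [RMark_tail, absG, absD, absT, G.relink, hb']
    · simp [RMark_tail, absX, hb']
    · intro q hq
      simp only [List.mem_cons, List.not_mem_nil, or_false, not_or] at hq
      simp [RMark_tail, hb', hq.1, hq.2]
    · simp [RMark_tail, hb']
  | false =>
    have hb' : s.rg .mB = 0 := by simpa using hb
    refine ⟨?_, ?_, ?_, ?_⟩
    · simp [RMark_tail, absG, absD, absT, G.relink, hb']
    · simp [RMark_tail, absX, hb']
    · intro q hq
      simp only [List.mem_cons, List.not_mem_nil, or_false, not_or] at hq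
      simp [RMark_tail, hb', hq.1, hq.2]
    · simp [RMark_tail, hb']

theorem markC_sim {s : St} {g' : G} {t : ℕ} (h : MarkG (absG s) (s.rg .mE) g' t) :
    ∃ s' T, Run markC s s' T ∧ absG s' = g' ∧ absX s' = absX s ∧ Fr wM s s' ∧
      T ≤ 300 * (t + 1) := by
  obtain ⟨d', r, b, hM, rfl⟩ := h
  obtain ⟨s1, T1, hr1, hg1, hx1, hu1, hb1, hf1, hT1⟩ := markOp_sim hM
  obtain ⟨T2, hT2, hr2⟩ := run_ex RMark_tail rfl s1
  obtain ⟨k1, k2, k3⟩ := RMark_kT s1 b hb1
  have hE : s1.rg .mE = s.rg .mE := hf1.1 .mE (by decide)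
  have hd1 : absD s1 = d' := congrArg G.d hg1
  refine ⟨_, _, Run.seq _ _ _ _ _ _ _ hr1 hr2, ?_, k2.trans hx1, ?_, ?_⟩
  · rw [k1, hE, hu1, hd1, hg1]
    rfl
  · exact fr_mono (fr_trans hf1 k3) (by decide)
  · have hs : RMark_tail.size = 24 := by decide
    rw [hs] at hT2
    omega

end ST2
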