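import Pool.Agent.helper32.ST.RIns
import Pool.Agent.helper32.ST.RMark

/-!
# ST2-RLeaf : newLeafC simulates NewLeafR

iX := last; insC_sim; addChildC and the following assignments give the record preLeaf d1 v p (order of the writes as in
TR.addChild); mE := iE = cnt+1 (of the old record); markC_sim.
The times: 300 (t1+1) + 100 + 300 (t2+1) <= 800 (t+1).
-/

namespace ST2

theorem newLeaf_sim {s : St} {g' : G} {t : ℕ}
    (h : NewLeafR (absG s) (s.rg .lV) (s.rg .lP) g' t) :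
    ∃ s' T, Run newLeafC s s' T ∧ absG s' = g' ∧ absX s' = absX s ∧ Fr wL s s' ∧
      T ≤ 800 * (t + 1) := by
  obtain ⟨d1, t1, t2, hI, hM, rfl⟩ := h
  have hI1 : InsOp (absD (s.setr .iX (s.rg .last))) ((s.setr .iX (s.rg .last)).rg .iX) d1 t1 := by
    simpa [absD, absG] using hI
  obtain ⟨s2, T2, hr2, hg2, hx2, hE2, hf2, hT2⟩ := insC_sim hI1
  obtain ⟨T3, hT3, hr3⟩ := run_ex addChildC rfl s2
  have hcnt : s2.rg .iE = s.rg .cnt + 1 := by
    rw [hE2]; simp [absD]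
  have hlV : s2.rg .lV = s.rg .lV := by
    rw [hf2.1 .lV (by decide)]; simp
  have hlP : s2.rg .lP = s.rg .lP := by
    rw [hf2.1 .lP (by decide)]; simp
  have hinp : s2.inp = s.inp := by
    rw [hf2.2]; simp
  obtain ⟨s8, hs8⟩ : ∃ s8, s8 = (((((addChildC.ex s2).seta .hs ((addChildC.ex s2).rg .lP)
      ((addChildC.ex s2).rg .last)).seta .ts ((addChildC.ex s2).rg .lP)
      ((addChildC.ex s2).rg .iE)).seta .nd ((addChildC.ex s2).rg .iE)
      ((addChildC.ex s2).rg .tc)).setr .last ((addChildC.ex s2).rg .iE)).setr .mE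
      ((addChildC.ex s2).rg .iE) := ⟨_, rfl⟩
  have hfr8 : Fr [.tc, .sF, .last, .mE] s2 s8 := by
    refine ⟨fun r hr => ?_, ?_⟩
    · simp only [List.mem_cons, List.not_mem_nil, or_false, not_or] at hr
      rw [hs8]
      simp [addChildC, hr.1, hr.2.1, hr.2.2.1, hr.2.2.2]
    · rw [hs8]
      simp [addChildC]
  have hmE : s8.rg .mE = s.rg .cnt + 1 := by
    rw [hs8, ← hcnt]
    simp [addChildC]
  have hX8 : absX s8 = absX s := by
    rw [hs8]
    have : absX s2 = absX s := by rw [hx2]; simp [absX]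
    rw [← this]
    simp [addChildC, absX]
  have hG8 : absG s8 = (absG s).preLeaf d1 (s.rg .lV) (s.rg .lP) := by
    simp only [absG, G.mk.injEq, absT, TR.mk.injEq] at hg2
    obtain ⟨g1, g2, g3, g4, g5, g6, g7, g8, g9, g10, g11, g12, g13, g14, g15, g16, g17⟩ := hg2
    simp only [rg_setr, ar_setr, reduceCtorEq, if_false] at g2 g3 g4 g5 g6 g7 g8 g9 g10 g11 g12 g13 g14 g15 g16 g17
    rw [← g1]
    rw [hs8]
    simp [addChildC, absG, absD, absT, G.preLeaf, TR.addChild]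
    simp only [g2, g3, g4, g5, g6, g7, g8, g9, g10, g11, g12, g13, g14, g15, g16, g17, hcnt, hlV, hlP]
    simp
  have hM8 : MarkG (absG s8) (s8.rg .mE) g' t2 := by
    rw [hG8, hmE]
    exact hM
  obtain ⟨s9, T9, hr9, hg9, hx9, hf9, hT9⟩ := markC_sim hM8
  refine ⟨s9, _, Run.seq _ _ _ _ _ _ _ (Run.set _ _ _) (Run.seq _ _ _ _ _ _ _ hr2
    (Run.seq _ _ _ _ _ _ _ hr3 (Run.seq _ _ _ _ _ _ _ (Run.put _ _ _ _)
    (Run.seq _ _ _ _ _ _ _ (Run.put _ _ _ _) (Run.seq _ _ _ _ _ _ _ (Run.put _ _ _ _)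
    (Run.seq _ _ _ _ _ _ _ (Run.set _ _ _) (Run.seq _ _ _ _ _ _ _ (Run.set _ _ _)
    (Run.seq _ _ _ _ _ _ _ (hs8 ▸ hr9) (Run.skip _)))))))))
    , hg9, hx9.trans hX8, ?_, ?_⟩
  · have h1 : Fr [.iX] s (s.setr .iX (s.rg .last)) := by
      refine ⟨fun r hr => ?_, rfl⟩
      simp only [List.mem_cons, List.not_mem_nil, or_false] at hr
      simp [hr]
    exact fr_mono (fr_trans (fr_trans (fr_trans h1 hf2) hfr8) hf9) (by decide)
  · have hsz : addChildC.size ≤ 60 := by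
      simp [addChildC]
    simp
    omega

end ST2
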