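import Pool.Agent.helper32.ST.RBody

/-!
# ST2-RLoop : the main loop and the end of a cell

loop_sim: induction on LoopR: condition (0 < cK) * (cFD = 0).  After a hit cFD = d <> 0: loopF.  Par, c and cA are kept
because they are not in wB.  T <= 4000 (t+1).
end_sim: cases of EndR; lV := 1, lP := c: NewLeafR g 1 c; VY := hs cA.
-/

namespace ST2

private theorem RLoop_par {n : ℕ} {s s' : St} (hp : Par n s) (h : Fr wB s s') :
    Par n s' ∧ s'.rg .c = s.rg .c ∧ s'.rg .cA = s.rg .cA := by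
  refine ⟨⟨?_, ?_, ?_, ?_⟩, ?_, ?_⟩
  · rw [h.1 .n (by decide)]
    exact hp.hn
  · rw [h.1 .n1 (by decide)]
    exact hp.hn1
  · rw [h.1 .dl (by decide)]
    exact hp.hdl
  · rw [h.1 .bb (by decide)]
    exact hp.hbb
  · exact h.1 .c (by decide)
  · exact h.1 .cA (by decide)

private theorem RLoop_fr {s s1 s2 : St} (h1 : Fr wB s s1) (h2 : Fr wB s1 s2) : Fr wB s s2 :=
  ⟨fun r hr => (h2.1 r hr).trans (h1.1 r hr), h2.2.trans h1.2⟩

theorem loop_sim {n c a : ℕ} {x x' : X} {g g' : G} {q : Q} {k' d t : ℕ}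
    (h : LoopR n c a x g q x' g' k' d t) : ∀ s : St, Par n s → s.rg .c = c → s.rg .cA = a →
    absX s = x → absG s = g → absQ s = q → s.rg .cFD = 0 →
    ∃ s' T, Run mainC s s' T ∧ absG s' = g' ∧ absX s' = x' ∧ s'.rg .cK = k' ∧
      s'.rg .cFD = d ∧ Fr wB s s' ∧ T ≤ 4000 * (t + 1) := by
  induction h with
  | stop x g q h =>
    intro s hp hc ha hx hg hq hd
    have hk : s.rg .cK = 0 := by
      rw [← hq] at h
      exact h
    refine ⟨s, _, Run.loopF _ _ s ?_, hg, hx, hk, hd, fr_refl _ _, ?_⟩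
    · simp [hk]
    · simp
  | hit x g q g' d t h h2 =>
    intro s hp hc ha hx hg hq hd
    have hk : s.rg .cK ≠ 0 := by
      rw [← hq] at h
      exact h
    rw [← hc, ← ha, ← hx, ← hg, ← hq] at h2
    obtain ⟨s1, T1, hr, hg1, hx1, hd1, hd0, hk1, hf, hT⟩ := hit_sim hp h2
    refine ⟨s1, _, Run.loopT _ _ s s1 s1 T1 _ ?_ hr (Run.loopF _ _ s1 ?_), hg1,
      hx1.trans hx, ?_, hd1, hf, ?_⟩
    · simp [hd, Nat.pos_of_ne_zero hk]
    · simp [hd1, hd0]
    · rw [hk1, ← hq]
      rfl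
    · simp only [Ex.size]
      omega
  | step x g q x1 g1 t1 x' g' k' d t h h2 h3 ih =>
    intro s hp hc ha hx hg hq hd
    have hk : s.rg .cK ≠ 0 := by
      rw [← hq] at h
      exact h
    rw [← hc, ← ha, ← hx, ← hg, ← hq] at h2
    obtain ⟨s1, T1, hr, hg1, hx1, hd1, hq1, hf, hT⟩ := step_sim hp h2
    obtain ⟨hp1, hc1, ha1⟩ := RLoop_par hp hf
    obtain ⟨s2, T2, hr2, hg2, hx2, hk2, hd2, hf2, hT2⟩ := ih s1 hp1 (hc1.trans hc)
      (ha1.trans ha) hx1 hg1 (by rw [hq1, hq, hx]) hd1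
    refine ⟨s2, _, Run.loopT _ _ s s1 s2 T1 T2 ?_ hr hr2, hg2, hx2, hk2, hd2,
      RLoop_fr hf hf2, ?_⟩
    · simp [hd, Nat.pos_of_ne_zero hk]
    · simp only [Ex.size]
      omega

theorem end_sim {n : ℕ} {s : St} {x' : X} {g' : G} {t : ℕ} (hp : Par n s)
    (h : EndR n (s.rg .c) (s.rg .cA) (s.rg .cK) (s.rg .cFD) (absX s) (absG s) x' g' t) :
    ∃ s' T, Run endC s s' T ∧ absG s' = g' ∧ absX s' = x' ∧ Fr wB s s' ∧
      T ≤ 1000 * (t + 1) := by
  rcases h with ⟨h1, h2, h3, h4⟩ | ⟨h1, h2, h3, h4⟩ | ⟨h1, h2, h3, h4⟩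
  · refine ⟨(s.seta .lm (s.rg .c) (s.rg .cK + 1)).seta .om (s.rg .c) (s.rg .cFD), _,
      Run.iteT _ _ _ s _ _ ?_ (Run.seq _ _ s _ _ _ _ (Run.put .lm _ _ s)
        (Run.seq _ _ _ _ _ _ _ (Run.put .om _ _ _) (Run.skip _))), ?_, ?_, ?_, ?_⟩
    · exact h1
    · rw [h3]
      rfl
    · rw [h2]
      rfl
    · exact ⟨fun r _ => rfl, rfl⟩
    · simp only [Ex.size]
      omega
  · set s3 : St := ((s.seta .lm (s.rg .c) 0).setr .lV 1).setr .lP (s.rg .c) with hs3
    have hg3 : absG s3 = absG s := rfl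
    have hx3 : absX s3 = x' := by
      rw [h3]
      rfl
    have hn : NewLeafR (absG s3) (s3.rg .lV) (s3.rg .lP) g' t := h4
    obtain ⟨s4, T4, hr, hg4, hx4, hf4, hT4⟩ := newLeaf_sim hn
    refine ⟨s4, _, Run.iteF _ _ _ s _ _ ?_ (Run.iteT _ _ _ s _ _ ?_
      (Run.seq _ _ s _ _ _ _ (Run.put .lm _ _ s)
        (Run.seq _ _ _ _ _ _ _ (Run.set .lV _ _)
          (Run.seq _ _ _ s3 _ _ _ (Run.set .lP _ _)
            (Run.seq _ _ _ _ _ _ _ hr (Run.skip _)))))), hg4, hx4.trans hx3, ?_, ?_⟩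
    · exact h1
    · simp [h2]
    · refine ⟨fun r hr' => ?_, ?_⟩
      · have e1 : r ∉ wL := fun hm => hr' (by
          unfold wB wA
          simp only [List.mem_append]
          exact Or.inl (Or.inl (Or.inr hm)))
        rw [hf4.1 r e1]
        have e2 : r ≠ .lV := by
          rintro rfl
          exact hr' (by decide)
        have e3 : r ≠ .lP := by
          rintro rfl
          exact hr' (by decide)
        rw [hs3]
        simp [e2, e3]
      · rw [hf4.2]
        rfl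
    · simp only [Ex.size]
      omega
  · set s5 : St := ((((s.seta .lm (s.rg .c) 1).seta .om (s.rg .c) (s.rg .cA)).setr .vZ
      (s.rg .cA)).setr .vK 1).setr .vY (s.ar .hs (s.rg .cA)) with hs5
    have hg5 : absG s5 = absG s := rfl
    have hx5 : absX s5 = x' := by
      rw [h3]
      rfl
    have hn : EVisR n (absG s5) (s5.rg .vZ) (s5.rg .vK) (s5.rg .vY) g' t := h4
    have hb : s5.rg .bb = (n + 1) * (n + 1) := hp.hbb
    obtain ⟨s6, T6, hr, hg6, hx6, hf6, hT6⟩ := evis_sim hb hn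
    refine ⟨s6, _, Run.iteF _ _ _ s _ _ ?_ (Run.iteF _ _ _ s _ _ ?_
      (Run.seq _ _ s _ _ _ _ (Run.put .lm _ _ s)
        (Run.seq _ _ _ _ _ _ _ (Run.put .om _ _ _)
          (Run.seq _ _ _ _ _ _ _ (Run.set .vZ _ _)
            (Run.seq _ _ _ _ _ _ _ (Run.set .vK _ _)
              (Run.seq _ _ _ s5 _ _ _ (Run.set .vY _ _)
                (Run.seq _ _ _ _ _ _ _ hr (Run.skip _)))))))), hg6, hx6.trans hx5, ?_, ?_⟩
    · exact h1
    · simp [h2]
    · refine ⟨fun r hr' => ?_, ?_⟩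
      · have e1 : r ∉ Rg.iX :: wI := fun hm => hr' (by
          rcases List.mem_cons.1 hm with hm | hm
          · rw [hm]
            decide
          · unfold wB
            simp only [List.mem_append]
            exact Or.inl (Or.inr hm))
        rw [hf6.1 r e1]
        have e2 : r ≠ .vZ := by
          rintro rfl
          exact hr' (by decide)
        have e3 : r ≠ .vK := by
          rintro rfl
          exact hr' (by decide)
        have e4 : r ≠ .vY := by
          rintro rfl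
          exact hr' (by decide)
        rw [hs5]
        simp [e2, e3, e4]
      · rw [hf6.2]
        rfl
    · simp only [Ex.size]
      omega

end ST2
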