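import Pool.Agent.helper32.ST.RIns

/-!
# ST2-RVis : evisC simulates EVisR

The test reads el (vZ * bb + vK) = el (ix n vZ vK) because bb = (n+1)(n+1).  If nonzero: skip.  Otherwise iX := vY
(absD is unchanged), insC_sim, and the three writes: iE = cnt + 1; vZ, vK, bb are unchanged by Fr wI.
-/

namespace ST2

theorem evis_sim {n : ℕ} {s : St} {g' : G} {t : ℕ} (hb : s.rg .bb = (n + 1) * (n + 1))
    (h : EVisR n (absG s) (s.rg .vZ) (s.rg .vK) (s.rg .vY) g' t) :
    ∃ s' T, Run evisC s s' T ∧ absG s' = g' ∧ absX s' = absX s ∧ Fr (.iX :: wI) s s' ∧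
      T ≤ 400 * (t + 1) := by
  have htest : (Ex.get .el (ixE (.reg .vZ) (.reg .vK))).ev s =
      (absG s).el (ix n (s.rg .vZ) (s.rg .vK)) := by
    simp only [ixE, Ex.ev, absG, ix, hb]
  rcases h with ⟨h0, rfl, rfl⟩ | ⟨h0, d', hI, rfl⟩
  · refine ⟨s, _, Run.iteT _ _ _ s s 0 (by rw [htest]; exact h0) (Run.skip s), rfl, rfl,
      ⟨fun r _ => rfl, rfl⟩, ?_⟩
    simp [ixE]
  · have hI1 : InsOp (absD (s.setr .iX (s.rg .vY))) ((s.setr .iX (s.rg .vY)).rg .iX) d' t := hI
    obtain ⟨s2, T2, hr2, hg2, hx2, he2, hf2, hT2⟩ := insC_sim hI1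
    have hvZ : s2.rg .vZ = s.rg .vZ := by
      rw [hf2.1 .vZ (by decide)]; simp
    have hvK : s2.rg .vK = s.rg .vK := by
      rw [hf2.1 .vK (by decide)]; simp
    have hbb : s2.rg .bb = s.rg .bb := by
      rw [hf2.1 .bb (by decide)]; simp
    have hcnt : (absD (s.setr .iX (s.rg .vY))).cnt = (absG s).d.cnt := rfl
    rw [hcnt] at he2
    set s3 := s2.seta .el (s2.rg .vZ * s2.rg .bb + s2.rg .vK) (s2.rg .iE) with hs3
    set s4 := s3.seta .kz (s3.rg .iE) (s3.rg .vZ) with hs4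
    set s5 := s4.seta .kk (s4.rg .iE) (s4.rg .vK) with hs5
    have hrg : s5.rg = s2.rg := rfl
    have hix : s2.rg .vZ * s2.rg .bb + s2.rg .vK = ix n (s.rg .vZ) (s.rg .vK) := by
      rw [hvZ, hvK, hbb, hb, ix]
    have hrun : Run evisC s s5 _ :=
      Run.iteF _ _ _ s s5 _ (by rw [htest]; exact h0)
        (Run.seq _ _ _ _ _ _ _ (Run.set .iX (.reg .vY) s)
          (Run.seq _ _ _ _ _ _ _ hr2
            (Run.seq _ _ _ _ _ _ _ (Run.put .el (ixE (.reg .vZ) (.reg .vK)) (.reg .iE) s2)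
              (Run.seq _ _ _ _ _ _ _ (Run.put .kz (.reg .iE) (.reg .vZ) s3)
                (Run.seq _ _ _ _ _ _ _ (Run.put .kk (.reg .iE) (.reg .vK) s4)
                  (Run.skip s5))))))
    refine ⟨s5, _, hrun, ?_, ?_, ⟨?_, ?_⟩, ?_⟩
    · have e2 : absG s5 = { absG s2 with
          el := upd (absG s2).el (ix n (s.rg .vZ) (s.rg .vK)) ((absG s).d.cnt + 1),
          kz := upd (absG s2).kz ((absG s).d.cnt + 1) (s.rg .vZ),
          kk := upd (absG s2).kk ((absG s).d.cnt + 1) (s.rg .vK) } := by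
        rw [hs5, hs4, hs3]
        rw [hvZ, hvK] at hix
        simp [absG, absD, absT, he2, hvZ, hvK]
        rw [hix]
      rw [e2, hg2]
      rfl
    · have e3 : absX s5 = absX s2 := by
        rw [hs5, hs4, hs3]
        simp [absX]
      rw [e3, hx2]
      rfl
    · intro r hr
      have hr1 : r ≠ .iX := fun h' => hr (by rw [h']; exact List.mem_cons_self)
      have hr2' : r ∉ wI := fun h' => hr (List.mem_cons_of_mem _ h')
      rw [hrg, hf2.1 r hr2']
      simp [hr1]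
    · have : s5.inp = s2.inp := rfl
      rw [this, hf2.2]
      rfl
    · simp only [ixE, Ex.size]
      omega

end ST2
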