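import Pool.Agent.helper32.ST.SOcc
import Pool.Agent.helper32.ST.ABr

/-!
# ST2-SBr : branching strings

c0 = (t+1)(n+1), A = cod n M.
* rs0_canon: as in AVisC for RS0: y with κ <= L y, N κ y = z, y+(n+2) a cell < c: z < y (N_lt_of_le_L),
  z % (n+1) < n by child_col for the cell c' = y + (n+2).
* next_cell: z canonical (N k z = z), E k y z, y + (n+2) a cell < c0: z <= y (N_min), column of z < n: otherwise
  A z = A y (E_letter), y < n(n+1) (col_of_next), Sent gives y = z, but the column of y is < n.  Row z <= row y.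
* branch_iff (->): y1, y2 from ext_iff with different last characters; z + (n+2) is a cell (next_cell).  If both
  E (k+1) (yi+(n+2)) (z+(n+2)), then by str_E both strings are str (z+(n+2)) (k+1), so a = b.  Otherwise
  rs0_of_branch.  (<-) branch_of_rs0: y and z itself give two extensions (str_succ for the form; they
  differ by str_E).
-/

namespace ST2

variable {n t : ℕ} {M : ℕ → ℕ → ℕ}

theorem rs0_canon {A : ℕ → ℕ} (hs : Sent n A) {c z κ : ℕ} (h : RS0 n A c z κ) :
    1 ≤ κ ∧ κ ≤ mx n z ∧ N n A κ z = z ∧ z + (n + 2) < c ∧ z % (n + 1) < n ∧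
      Cell n (z + (n + 2)) ∧ Cell n z := by
  obtain ⟨h1, y, hL, hN, hc, hyc, hL2⟩ := h
  have hL' : κ ≤ L n A (y + (n + 2) - (n + 2)) := by
    rw [Nat.add_sub_cancel]
    exact hL
  have a1 := child_col hs hc h1 hL'
  have a2 := child_cell hs hc h1 hL'
  have a3 := AChild_x hc h1 hL'
  rw [Nat.add_sub_cancel] at a1 a2 a3
  have a4 := N_cell (A := A) a3.1 h1 a3.2.1
  have a5 := N_N (A := A) a3.2.1
  rw [hN] at a1 a2 a3 a4 a5
  exact ⟨h1, a3.2.2.2.2, a5, by omega, a1, a2.1, a4⟩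

theorem next_cell {A : ℕ → ℕ} (hs : Sent n A) {z k y : ℕ} (hz : Cell n z) (h1 : 1 ≤ k)
    (hN : N n A k z = z) (hE : E n A k y z) (hy : Cell n (y + (n + 2))) :
    z ≤ y ∧ z % (n + 1) < n ∧ Cell n (z + (n + 2)) := by
  have h2 := N_min hE
  rw [hN] at h2
  obtain ⟨h3, h4⟩ := col_of_next hy
  have hyc : Cell n y := ⟨h1.trans hE.1, by have := hy.2; omega⟩
  have h5 : z % (n + 1) < n := by
    by_contra h6
    have h7 := Nat.mod_lt z (show 0 < n + 1 by omega)
    have h8 : z % (n + 1) = n := by omega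
    have h9 := hs z y hz h8 hyc h4 (E_letter hE h1)
    rw [h9] at h3
    omega
  refine ⟨h2, h5, ?_, ?_⟩
  · rw [mx_next n z h5]
    omega
  · have := hy.2
    omega

theorem branch_iff (hs : Sent n (cod n M)) (ht : 1 ≤ t) (ht' : t ≤ n) {z k : ℕ} (hz : Cell n z)
    (h1 : 1 ≤ k) (h2 : k ≤ mx n z) (hN : N n (cod n M) k z = z) :
    (∃ a b, a ≠ b ∧ str n M z k ++ [a] ∈ Occ n M t ∧ str n M z k ++ [b] ∈ Occ n M t) ↔
      RS0 n (cod n M) ((t + 1) * (n + 1)) z k := by
  constructor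
  · rintro ⟨a, b, hab, ha, hb⟩
    obtain ⟨y1, a1, a2, a3, a4⟩ := (ext_iff ht ht' hz h1 h2 a).1 ha
    obtain ⟨y2, b1, b2, b3, b4⟩ := (ext_iff ht ht' hz h1 h2 b).1 hb
    have hz1 := (next_cell hs hz h1 hN a1 a2).2.2
    by_cases c1 : E n (cod n M) (k + 1) (y1 + (n + 2)) (z + (n + 2))
    · by_cases c2 : E n (cod n M) (k + 1) (y2 + (n + 2)) (z + (n + 2))
      · exfalso
        have d1 := (str_E c1.1 c1.2.1).2 c1
        have d2 := (str_E c2.1 c2.2.1).2 c2
        rw [a4] at d1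
        rw [b4, ← d1] at d2
        have d3 := List.append_cancel_left d2
        exact hab (List.singleton_injective d3).symm
      · exact rs0_of_branch h1 hN hz1 b1 b2 b3 c2
    · exact rs0_of_branch h1 hN hz1 a1 a2 a3 c1
  · intro h
    obtain ⟨y, a1, a2, a3, a4, a5⟩ := branch_of_rs0 h
    obtain ⟨b1, b2, b3, b4, b5, b6, b7⟩ := rs0_canon hs h
    have c1 := str_succ (M := M) a1.1 (col_of_next a2).1
    have c2 := str_succ (M := M) h2 b5
    rw [(str_E a1.1 a1.2.1).2 a1] at c1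
    refine ⟨_, _, ?_, (ext_iff ht ht' hz h1 h2 _).2 ⟨y, a1, a2, a3, c1⟩,
      (ext_iff ht ht' hz h1 h2 _).2 ⟨z, E_refl h2, b6, b4, c2⟩⟩
    intro h3
    rw [h3, ← c2] at c1
    apply a5
    refine (str_E ?_ ?_).1 c1
    · rw [mx_prev a2]
      have := a1.1
      omega
    · rw [mx_prev b6]
      omega

end ST2
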