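import Mathlib

/-!
# ST2-SDef : two-dimensional suffix trees (specification)

M is the matrix, rows and columns are numbered from 1.  Positions (i, j) are stored as numbers
i (n+1) + j.
-/

namespace ST2

/-- The Lcharacter number q + 1 of the square with top left corner (i, j): the row segment
M(i+q, j), ..., M(i+q, j+q-1), followed by the column segment M(i, j+q), ..., M(i+q, j+q). -/
def lch (M : ℕ → ℕ → ℕ) (i j q : ℕ) : List ℕ :=
  (List.range q).map (fun b => M (i + q) (j + b)) ++
    (List.range (q + 1)).map (fun a => M (i + a) (j + q))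

/-- The Lstring of the k by k square with top left corner (i, j). -/
def lstr (M : ℕ → ℕ → ℕ) (i j k : ℕ) : List (List ℕ) := (List.range k).map (lch M i j)

/-- The Lstrings of all squares inside the first t rows of the n by n matrix M, that is, the initial
segments of the Lstrings of the suffixes of A_t. -/
def Occ (n : ℕ) (M : ℕ → ℕ → ℕ) (t : ℕ) : Set (List (List ℕ)) :=
  {w | ∃ i j k, 1 ≤ i ∧ i ≤ t ∧ 1 ≤ j ∧ j ≤ n ∧ i + k ≤ t + 1 ∧ j + k ≤ n + 1 ∧ w = lstr M i j k}

/-- The nodes of the compacted trie of a set S of strings closed under initial segments: the root, the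
branching strings, and the strings without an extension. -/
def TNode (S : Set (List (List ℕ))) : Set (List (List ℕ)) :=
  {w | w ∈ S ∧ (w = [] ∨ (∃ a b, a ≠ b ∧ w ++ [a] ∈ S ∧ w ++ [b] ∈ S) ∨ ∀ a, w ++ [a] ∉ S)}

/-- The string of the node v: the root 1 has the empty string; sz v = 0 means that the string of v is the
Lstring of the largest square inside the first t rows with top left corner po v (a leaf), otherwise it is
the Lstring of the square of size sz v with top left corner po v. -/
def label (n : ℕ) (M : ℕ → ℕ → ℕ) (t : ℕ) (sz po : ℕ → ℕ) (v : ℕ) : List (List ℕ) :=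
  if v = 1 then [] else
    lstr M (po v / (n + 1)) (po v % (n + 1))
      (if sz v = 0 then min (t + 1 - po v / (n + 1)) (n + 1 - po v % (n + 1)) else sz v)

/-- the list l is the list x, ns x, ns (ns x), ..., ended by 0 -/
def Chain0 (ns : ℕ → ℕ) : ℕ → List ℕ → Prop
  | x, [] => x = 0
  | x, y :: l => x = y ∧ y ≠ 0 ∧ Chain0 ns (ns y) l

/-- The nodes 1, ..., cnt with the arrays par (parent), fc (first child), ns (next sibling), sz, po (string
of a node, see `label`) form the two-dimensional suffix tree of the first t rows of M: the compacted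
trie of the Lstrings of the suffixes of A_t. -/
structure SufTree (n : ℕ) (M : ℕ → ℕ → ℕ) (t cnt : ℕ) (par fc ns sz po : ℕ → ℕ) : Prop where
  root : 1 ≤ cnt
  inside : ∀ v, 2 ≤ v → v ≤ cnt → 1 ≤ po v / (n + 1) ∧ po v / (n + 1) ≤ t ∧
    1 ≤ po v % (n + 1) ∧ po v / (n + 1) + sz v ≤ t + 1 ∧ po v % (n + 1) + sz v ≤ n + 1
  nodes : ∀ w, (∃ v, 1 ≤ v ∧ v ≤ cnt ∧ label n M t sz po v = w) ↔ w ∈ TNode (Occ n M t)
  inj : ∀ v v', 1 ≤ v → v ≤ cnt → 1 ≤ v' → v' ≤ cnt →
    label n M t sz po v = label n M t sz po v' → v = v'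
  parent : ∀ v, 2 ≤ v → v ≤ cnt → 1 ≤ par v ∧ par v ≤ cnt ∧
    label n M t sz po (par v) <+: label n M t sz po v ∧
    label n M t sz po (par v) ≠ label n M t sz po v ∧
    ∀ w ∈ TNode (Occ n M t), w <+: label n M t sz po v → w ≠ label n M t sz po v →
      w <+: label n M t sz po (par v)
  children : ∀ v, 1 ≤ v → v ≤ cnt → ∃ l : List ℕ, l.Nodup ∧ Chain0 ns (fc v) l ∧
    ∀ w, w ∈ l ↔ 2 ≤ w ∧ w ≤ cnt ∧ par w = v

end ST2
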