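import Pool.Agent.helper32.ST.SLeaf
import Pool.Agent.helper32.ST.HFin

/-!
# ST2-SLab : the labels of the tree; nodes and injectivity

proofs: helper68

FinT for R = RS0 c0, O = OW0 c0 (restricted to sizes >= 1: OW0 with κ = 0 is impossible: Cr has L u < κ).
* label_real: po = z-(k-1)(n+2), sz = k >= 1; row and column by sub_div, sub_mod; fr z k <> 1.
* label_own: sz = 0, po = tl; own_full gives the corner equations.
* nodes: (->) v = 1: [] is in Occ and TNode.  v = fr z k: branch_iff (rs0_canon).  v = fo u κ: noext_iff.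
  (<-) w = []: v = 1.  w <> []: occ_N gives canonical (z, k); branching: fr z k; no extension: full_own.
* label_inj: by cases; lengths (str has length k: lstr_len); real/real: str_E, E gives N equal so z = z';
  owner/owner: kf = kf', z = z', then tl equal: tl = z - (kf-1)(n+2), tl_inj;
  real/owner: branching contradicts no extension.  1 versus others: length >= 1.
-/

namespace ST2

variable {n t : ℕ} {M : ℕ → ℕ → ℕ} {τ : TR} {fr fo : ℕ → ℕ → ℕ}

/-- abbreviation for the final tree after t rows -/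
def FT (n t : ℕ) (M : ℕ → ℕ → ℕ) (τ : TR) (fr fo : ℕ → ℕ → ℕ) : Prop :=
  FinT n (cod n M) (RS0 n (cod n M) ((t + 1) * (n + 1))) (OW0 n (cod n M) ((t + 1) * (n + 1)))
    τ fr fo

/-- canonical strings are equal only if they have the same size and end -/
theorem SLab_canon {z k z' k' : ℕ} (h2 : k ≤ mx n z) (h3 : N n (cod n M) k z = z)
    (h2' : k' ≤ mx n z') (h3' : N n (cod n M) k' z' = z') (he : str n M z k = str n M z' k') :
    z = z' ∧ k = k' := by
  have hk : k = k' := by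
    have h := congrArg List.length he
    unfold str at h
    rw [lstr_len, lstr_len] at h
    exact h
  subst hk
  have hE := (str_E h2 h2').1 he
  have hN := N_congr hE
  rw [h3, h3'] at hN
  exact ⟨hN, rfl⟩

theorem SLab_len {z k : ℕ} (h1 : 1 ≤ k) : str n M z k ≠ [] := by
  intro h
  have h' := congrArg List.length h
  unfold str at h'
  rw [lstr_len, List.length_nil] at h'
  omega

theorem label_real (hs : Sent n (cod n M)) (h : FT n t M τ fr fo) {z k : ℕ}
    (hr : RS0 n (cod n M) ((t + 1) * (n + 1)) z k) :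
    label n M t τ.sz τ.po (fr z k) = str n M z k := by
  obtain ⟨r1, r2, r3, r4⟩ := h.rr z k hr
  obtain ⟨c1, c2, -⟩ := rs0_canon hs hr
  unfold label str
  rw [if_neg (by omega), r3, r4, if_neg (by omega), sub_div n z (k - 1) (by omega),
    sub_mod n z (k - 1) (by omega)]
  congr 1
  · omega
  · omega

theorem label_own (ht' : t ≤ n) (h : FT n t M τ fr fo) {u κ : ℕ}
    (ho : OW0 n (cod n M) ((t + 1) * (n + 1)) u κ) :
    label n M t τ.sz τ.po (fo u κ) =
      str n M (u + (full n t (tl n u κ) - κ) * (n + 2)) (full n t (tl n u κ)) := by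
  obtain ⟨r1, r2, r3, r4⟩ := h.oo u κ ho
  have hκ : 1 ≤ κ := by
    have := ho.2.2.1
    omega
  obtain ⟨-, -, -, -, z, -, hz, -, -, -, -, -, -, -, e1, e2⟩ := own_full ht' hκ ho
  rw [← hz]
  unfold label str
  rw [if_neg (by omega), r3, r4, if_pos rfl, ← e1, ← e2]
  rfl

/-- description of the nodes -/
theorem SLab_desc (hs : Sent n (cod n M)) (ht' : t ≤ n) (h : FT n t M τ fr fo) {v : ℕ}
    (h1 : 2 ≤ v) (h2 : v ≤ τ.cnt) :
    ∃ z k, Cell n z ∧ z < (t + 1) * (n + 1) ∧ 1 ≤ k ∧ k ≤ mx n z ∧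
      N n (cod n M) k z = z ∧ label n M t τ.sz τ.po v = str n M z k ∧
      ((RS0 n (cod n M) ((t + 1) * (n + 1)) z k ∧ v = fr z k) ∨
        ((z / (n + 1) = t ∨ z % (n + 1) = n) ∧
          v = fo (uo n (cod n M) z k) (ko n (cod n M) z k))) := by
  rcases h.sur v h1 h2 with ⟨z, k, hr, hv⟩ | ⟨u, κ, ho, hv⟩
  · obtain ⟨c1, c2, c3, c4, -, -, c7⟩ := rs0_canon hs hr
    refine ⟨z, k, c7, by omega, c1, c2, c3, ?_, Or.inl ⟨hr, hv⟩⟩
    rw [hv]
    exact label_real hs h hr
  · have hκ : 1 ≤ κ := by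
      have := ho.2.2.1
      omega
    obtain ⟨-, -, -, d4, z, -, hz, e3, e4, e5, e6, e7, e8, e9, -, -⟩ := own_full ht' hκ ho
    refine ⟨z, full n t (tl n u κ), e3, e4, by omega, e5, e6, ?_, Or.inr ⟨e7, ?_⟩⟩
    · rw [hv, hz]
      exact label_own ht' h ho
    · rw [e8, e9]
      exact hv

theorem label_nodes (hs : Sent n (cod n M)) (ht : 1 ≤ t) (ht' : t ≤ n) (h : FT n t M τ fr fo)
    (w : List (List ℕ)) :
    (∃ v, 1 ≤ v ∧ v ≤ τ.cnt ∧ label n M t τ.sz τ.po v = w) ↔ w ∈ TNode (Occ n M t) := by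
  constructor
  · rintro ⟨v, h1, h2, rfl⟩
    rcases Nat.lt_or_ge 1 v with h3 | h3
    · obtain ⟨z, k, c1, c2, c3, c4, c5, c6, c7⟩ := SLab_desc hs ht' h h3 h2
      rw [c6]
      refine ⟨(occ_iff ht ht' _).2 (Or.inr ⟨z, k, c1, c2, c3, c4, rfl⟩), ?_⟩
      right
      rcases c7 with ⟨c7, -⟩ | ⟨c7, -⟩
      · left
        exact (branch_iff hs ht ht' c1 c3 c4 c5).2 c7
      · right
        exact (noext_iff hs ht ht' c1 c2 c3 c4 c5).2 c7
    · have hv : v = 1 := by omega
      subst hv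
      have e : label n M t τ.sz τ.po 1 = [] := by
        unfold label
        rw [if_pos rfl]
      rw [e]
      exact ⟨(occ_iff ht ht' _).2 (Or.inl rfl), Or.inl rfl⟩
  · rintro ⟨hw, hcase⟩
    by_cases h0 : w = []
    · obtain ⟨kids, hrep⟩ := h.rep
      refine ⟨1, le_rfl, hrep.pos, ?_⟩
      unfold label
      rw [if_pos rfl, h0]
    · obtain ⟨z, k, c1, c2, c3, c4, c5, c6⟩ := occ_N ht ht' hw h0
      rcases hcase with h1 | h1 | h1
      · exact absurd h1 h0
      · rw [c6] at h1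
        have hr := (branch_iff hs ht ht' c1 c3 c4 c5).1 h1
        obtain ⟨r1, r2, -, -⟩ := h.rr z k hr
        refine ⟨fr z k, by omega, r2, ?_⟩
        rw [c6]
        exact label_real hs h hr
      · rw [c6] at h1
        have hb := (noext_iff hs ht ht' c1 c2 c3 c4 c5).1 h1
        obtain ⟨ho, -, hf, -⟩ := full_own ht' c1 c2 c3 c4 c5 hb
        obtain ⟨r1, r2, -, -⟩ := h.oo _ _ ho
        refine ⟨fo (uo n (cod n M) z k) (ko n (cod n M) z k), by omega, r2, ?_⟩
        rw [label_own ht' h ho, hf, c6]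
        obtain ⟨-, -, -, -, e5⟩ := ko_spec c1 c3 c4 c5
        rw [← e5]

theorem label_inj (hs : Sent n (cod n M)) (ht : 1 ≤ t) (ht' : t ≤ n) (h : FT n t M τ fr fo)
    {v v' : ℕ} (h1 : 1 ≤ v) (h2 : v ≤ τ.cnt) (h1' : 1 ≤ v') (h2' : v' ≤ τ.cnt)
    (he : label n M t τ.sz τ.po v = label n M t τ.sz τ.po v') : v = v' := by
  have e1 : label n M t τ.sz τ.po 1 = [] := by
    unfold label
    rw [if_pos rfl]
  rcases Nat.lt_or_ge 1 v with h3 | h3
  · obtain ⟨z, k, c1, c2, c3, c4, c5, c6, c7⟩ := SLab_desc hs ht' h h3 h2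
    rcases Nat.lt_or_ge 1 v' with h3' | h3'
    · obtain ⟨z', k', c1', c2', c3', c4', c5', c6', c7'⟩ := SLab_desc hs ht' h h3' h2'
      rw [c6, c6'] at he
      obtain ⟨f1, f2⟩ := SLab_canon c4 c5 c4' c5' he
      subst f1
      subst f2
      rcases c7 with ⟨c7, c8⟩ | ⟨c7, c8⟩
      · rcases c7' with ⟨c7', c8'⟩ | ⟨c7', c8'⟩
        · rw [c8, c8']
        · exfalso
          obtain ⟨a, -, -, ha, -⟩ := (branch_iff hs ht ht' c1 c3 c4 c5).2 c7
          exact (noext_iff hs ht ht' c1 c2 c3 c4 c5).2 c7' a ha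
      · rcases c7' with ⟨c7', c8'⟩ | ⟨c7', c8'⟩
        · exfalso
          obtain ⟨a, -, -, ha, -⟩ := (branch_iff hs ht ht' c1 c3 c4 c5).2 c7'
          exact (noext_iff hs ht ht' c1 c2 c3 c4 c5).2 c7 a ha
        · rw [c8, c8']
    · exfalso
      have hv : v' = 1 := by omega
      rw [hv, e1, c6] at he
      exact SLab_len c3 he
  · have hv : v = 1 := by omega
    rcases Nat.lt_or_ge 1 v' with h3' | h3'
    · exfalso
      obtain ⟨z', k', c1', c2', c3', c4', c5', c6', c7'⟩ := SLab_desc hs ht' h h3' h2'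
      rw [hv, e1, c6'] at he
      exact SLab_len c3' he.symm
    · omega

end ST2
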