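import Pool.Agent.helper32.ST.SBr
import Pool.Agent.helper32.ST.AKey
import Pool.Agent.helper32.ST.GLI
import Pool.Agent.helper32.ST.GBas

/-!
# ST2-SLeaf : strings without extension

* noext_iff: (->) if z is not at the border then z+(n+2) is a cell < c0 and gives an extension (ext_iff,
  str_succ).  (<-) an extension gives y with E k y z, y+(n+2) a cell < c0; next_cell: z <= y and
  column z < n; so row z = t, but row z <= row y <= t-1.
* own_full: p = tl n u κ has row i, column j: u = p + (κ-1)(n+2) has row i+κ-1 <= t and column j+κ-1 <= n, so κ <= kf.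
  zf = u + (kf-κ)(n+2).  N kf zf = zf by cr_canon; uo, ko by ko_unique.  Border: row zf = i+kf-1, column j+kf-1.
* full_own: ko_spec: Cr, uo <= z < c0.  kf = k because z is at the border.
-/

namespace ST2

variable {n t : ℕ} {M : ℕ → ℕ → ℕ}

theorem noext_iff (hs : Sent n (cod n M)) (ht : 1 ≤ t) (ht' : t ≤ n) {z k : ℕ} (hz : Cell n z)
    (hz' : z < (t + 1) * (n + 1)) (h1 : 1 ≤ k) (h2 : k ≤ mx n z) (hN : N n (cod n M) k z = z) :
    (∀ a, str n M z k ++ [a] ∉ Occ n M t) ↔ (z / (n + 1) = t ∨ z % (n + 1) = n) := by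
  have hrow : z / (n + 1) < t + 1 := (Nat.div_lt_iff_lt_mul (Nat.succ_pos n)).mpr hz'
  have hcol : z % (n + 1) < n + 1 := Nat.mod_lt _ (Nat.succ_pos n)
  have hzc := (cell_iff n z).mp hz
  constructor
  · intro hno
    by_contra hb
    push Not at hb
    have hc : z % (n + 1) < n := by omega
    have hr : z / (n + 1) < t := by omega
    have e1 := add_div n z hc
    have e2 := add_mod n z hc
    have hcell : Cell n (z + (n + 2)) := by
      rw [cell_iff, e1, e2]
      omega
    have hlt : z + (n + 2) < (t + 1) * (n + 1) := by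
      rw [← Nat.div_lt_iff_lt_mul (Nat.succ_pos n), e1]
      omega
    apply hno (lch M (z / (n + 1) + 1 - k) (z % (n + 1) + 1 - k) k)
    rw [ext_iff ht ht' hz h1 h2]
    exact ⟨z, E_refl h2, hcell, hlt, str_succ h2 hc⟩
  · intro hb a ha
    rw [ext_iff ht ht' hz h1 h2] at ha
    obtain ⟨y, hE, hcell, hlt, -⟩ := ha
    obtain ⟨n1, n2, -⟩ := next_cell hs hz h1 hN hE hcell
    have hr : z / (n + 1) = t := by
      rcases hb with hb | hb
      · exact hb
      · omega
    have h3 : z / (n + 1) ≤ y / (n + 1) := Nat.div_le_div_right n1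
    have h4 : y / (n + 1) < t := by
      rw [Nat.div_lt_iff_lt_mul (Nat.succ_pos n)]
      show y < t * (n + 1)
      have h5 : (t + 1) * (n + 1) = t * (n + 1) + (n + 1) := by ring
      omega
    omega

/-- the size of the largest square inside the first t rows with top left corner p -/
def full (n t p : ℕ) : ℕ := min (t + 1 - p / (n + 1)) (n + 1 - p % (n + 1))

theorem own_full {A : ℕ → ℕ} (ht' : t ≤ n) {u κ : ℕ} (h1 : 1 ≤ κ)
    (h : OW0 n A ((t + 1) * (n + 1)) u κ) :
    1 ≤ tl n u κ / (n + 1) ∧ tl n u κ / (n + 1) ≤ t ∧ 1 ≤ tl n u κ % (n + 1) ∧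
    κ ≤ full n t (tl n u κ) ∧
    ∃ z, z = tl n u κ + (full n t (tl n u κ) - 1) * (n + 2) ∧
      z = u + (full n t (tl n u κ) - κ) * (n + 2) ∧ Cell n z ∧
      z < (t + 1) * (n + 1) ∧ full n t (tl n u κ) ≤ mx n z ∧
      N n A (full n t (tl n u κ)) z = z ∧ (z / (n + 1) = t ∨ z % (n + 1) = n) ∧
      uo n A z (full n t (tl n u κ)) = u ∧ ko n A z (full n t (tl n u κ)) = κ ∧
      tl n u κ / (n + 1) = z / (n + 1) + 1 - full n t (tl n u κ) ∧
      tl n u κ % (n + 1) = z % (n + 1) + 1 - full n t (tl n u κ) := by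
  obtain ⟨hlt, hcr⟩ := h
  have hm := cr_mx hcr
  have hcell := (cell_iff n u).mp hcr.1
  have hrow : u / (n + 1) < t + 1 := (Nat.div_lt_iff_lt_mul (Nat.succ_pos n)).mpr hlt
  have hcol : u % (n + 1) < n + 1 := Nat.mod_lt _ (Nat.succ_pos n)
  have hmx : mx n u = min (u / (n + 1)) (u % (n + 1)) := rfl
  have t1 : tl n u κ / (n + 1) = u / (n + 1) - (κ - 1) := sub_div n u (κ - 1) (by omega)
  have t2 : tl n u κ % (n + 1) = u % (n + 1) - (κ - 1) := sub_mod n u (κ - 1) (by omega)
  have hmul : (κ - 1) * (n + 2) ≤ u := mx_mul_le n u (κ - 1) (by omega)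
  have htl : tl n u κ = u - (κ - 1) * (n + 2) := rfl
  have hfull : full n t (tl n u κ) = min (t + 1 - tl n u κ / (n + 1)) (n + 1 - tl n u κ % (n + 1)) :=
    rfl
  have hk : κ ≤ full n t (tl n u κ) := by omega
  obtain ⟨i, hi⟩ : ∃ i, full n t (tl n u κ) = κ + i := ⟨full n t (tl n u κ) - κ, by omega⟩
  have hi1 : u / (n + 1) + i ≤ t := by omega
  have hi2 : u % (n + 1) + i ≤ n := by omega
  have hi3 : u / (n + 1) + i = t ∨ u % (n + 1) + i = n := by omega
  have hu : u = u / (n + 1) * (n + 1) + u % (n + 1) := by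
    have := Nat.div_add_mod u (n + 1)
    rw [mul_comm] at this
    exact this.symm
  have hz : u + i * (n + 2) = (u / (n + 1) + i) * (n + 1) + (u % (n + 1) + i) := by
    have h3 : (u / (n + 1) + i) * (n + 1) + (u % (n + 1) + i) =
        (u / (n + 1) * (n + 1) + u % (n + 1)) + i * (n + 2) := by ring
    rw [h3, ← hu]
  obtain ⟨d1, d2⟩ := AMx_dm n (u / (n + 1) + i) (u % (n + 1) + i) hi2
  rw [← hz] at d1 d2
  have hmz : κ + i ≤ mx n (u + i * (n + 2)) := by
    unfold mx
    rw [d1, d2]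
    omega
  have hzc : Cell n (u + i * (n + 2)) := by
    rw [cell_iff, d1, d2]
    omega
  have hzeq : u + i * (n + 2) = u + (κ + i - κ) * (n + 2) := by
    rw [Nat.add_sub_cancel_left]
  obtain ⟨k1, k2⟩ := ko_unique hcr (show κ ≤ κ + i by omega) hzeq hmz
  refine ⟨by omega, by omega, by omega, hk, u + i * (n + 2), ?_, ?_, hzc, ?_, ?_, ?_, ?_, ?_, ?_,
    ?_, ?_⟩
  · rw [hi, htl, show κ + i - 1 = (κ - 1) + i by omega, Nat.add_mul]
    omega
  · rw [hi]
    exact hzeq
  · rw [← Nat.div_lt_iff_lt_mul (Nat.succ_pos n), d1]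
    omega
  · rw [hi]
    exact hmz
  · rw [hi]
    exact cr_canon hcr (by omega) hzeq hmz
  · rw [d1, d2]
    exact hi3
  · rw [hi]
    exact k2
  · rw [hi]
    exact k1
  · rw [hi, t1, d1]
    omega
  · rw [hi, t2, d2]
    omega

theorem full_own {A : ℕ → ℕ} (ht' : t ≤ n) {z k : ℕ} (hz : Cell n z)
    (hz' : z < (t + 1) * (n + 1)) (h1 : 1 ≤ k) (h2 : k ≤ mx n z) (hN : N n A k z = z)
    (hb : z / (n + 1) = t ∨ z % (n + 1) = n) :
    OW0 n A ((t + 1) * (n + 1)) (uo n A z k) (ko n A z k) ∧ 1 ≤ ko n A z k ∧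
      full n t (tl n (uo n A z k) (ko n A z k)) = k ∧
      tl n (uo n A z k) (ko n A z k) + (k - 1) * (n + 2) = z := by
  obtain ⟨a1, a2, a3, a4, a5⟩ := ko_spec hz h1 h2 hN
  have hm := cr_mx a3
  have hmul : (ko n A z k - 1) * (n + 2) ≤ uo n A z k := mx_mul_le n _ _ (by omega)
  have hmx : mx n z = min (z / (n + 1)) (z % (n + 1)) := rfl
  have hrow : z / (n + 1) < t + 1 := (Nat.div_lt_iff_lt_mul (Nat.succ_pos n)).mpr hz'
  have hcol : z % (n + 1) < n + 1 := Nat.mod_lt _ (Nat.succ_pos n)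
  have hsum : (k - 1) * (n + 2) = (ko n A z k - 1) * (n + 2) + (k - ko n A z k) * (n + 2) := by
    rw [← Nat.add_mul]
    congr 1
    omega
  have hmul2 : (k - 1) * (n + 2) ≤ z := mx_mul_le n _ _ (by omega)
  have htl : tl n (uo n A z k) (ko n A z k) = z - (k - 1) * (n + 2) := by
    unfold tl
    omega
  refine ⟨⟨by omega, a3⟩, a1, ?_, ?_⟩
  · rw [htl]
    unfold full
    rw [sub_div n z (k - 1) (by omega), sub_mod n z (k - 1) (by omega)]
    omega
  · rw [htl]
    omega

end ST2
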