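import Pool.Agent.helper32.ST.SStr
import Pool.Agent.helper32.ST.AN

/-!
# ST2-SOcc : occurrences and extensions

* occ_iff: (i, j, k) with k >= 1 corresponds to z = (i+k-1)(n+1) + (j+k-1) (row <= t, column <= n); k = 0 gives [].
  z < (t+1)(n+1) iff row z <= t.
* occ_N: replace z by N k z <= z (N_E, N_cell, str_E).
* ext_iff: (->) str z k ++ [a] is in Occ, so it is str y' k' with k' = k+1 (length), y' a cell below c0; y = y' -
  (n+2), y' = y + (n+2) (mx_mul_le with 1), str y k = take k of str y' (k+1) (str_take) = str z k, so E k y z.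
  (<-) occ_iff.
-/

namespace ST2

variable {n t : ℕ} {M : ℕ → ℕ → ℕ}

theorem occ_iff (ht : 1 ≤ t) (ht' : t ≤ n) (w : List (List ℕ)) :
    w ∈ Occ n M t ↔ w = [] ∨ ∃ z k, Cell n z ∧ z < (t + 1) * (n + 1) ∧ 1 ≤ k ∧ k ≤ mx n z ∧
      w = str n M z k := by
  constructor
  · rintro ⟨i, j, k, hi1, hi2, hj1, hj2, hik, hjk, rfl⟩
    rcases Nat.eq_zero_or_pos k with hk | hk
    · left
      subst hk
      rfl
    · right
      have hc : j + k - 1 ≤ n := by omega
      refine ⟨(i + k - 1) * (n + 1) + (j + k - 1), k, ?_, ?_, hk, ?_, ?_⟩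
      · refine ⟨?_, ?_⟩
        · rw [AMx_mx n _ _ hc]
          omega
        · have h1 : (i + k - 1) * (n + 1) ≤ n * (n + 1) := Nat.mul_le_mul_right _ (by omega)
          have h2 : (n + 1) * (n + 1) = n * (n + 1) + (n + 1) := by ring
          omega
      · have h1 : (i + k - 1) * (n + 1) ≤ t * (n + 1) := Nat.mul_le_mul_right _ (by omega)
        have h2 : (t + 1) * (n + 1) = t * (n + 1) + (n + 1) := by ring
        omega
      · rw [AMx_mx n _ _ hc]
        omega
      · unfold str
        rw [(AMx_dm n (i + k - 1) (j + k - 1) hc).1, (AMx_dm n (i + k - 1) (j + k - 1) hc).2]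
        have h1 : i + k - 1 + 1 - k = i := by omega
        have h2 : j + k - 1 + 1 - k = j := by omega
        rw [h1, h2]
  · rintro (rfl | ⟨z, k, hz, hzt, hk1, hk2, rfl⟩)
    · exact ⟨1, 1, 0, le_refl _, ht, le_refl _, ht.trans ht', by omega, by omega, rfl⟩
    · obtain ⟨r, c, hc, rfl⟩ := AMx_ex n z
      rw [AMx_mx n r c hc] at hk2
      have hr : r ≤ t := by
        by_contra hcon
        have h1 : (t + 1) * (n + 1) ≤ r * (n + 1) := Nat.mul_le_mul_right _ (by omega)
        omega
      unfold str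
      rw [(AMx_dm n r c hc).1, (AMx_dm n r c hc).2]
      exact ⟨r + 1 - k, c + 1 - k, k, by omega, by omega, by omega, by omega, by omega, by omega,
        rfl⟩

theorem occ_N (ht : 1 ≤ t) (ht' : t ≤ n) {w : List (List ℕ)} (hw : w ∈ Occ n M t) (h0 : w ≠ []) :
    ∃ z k, Cell n z ∧ z < (t + 1) * (n + 1) ∧ 1 ≤ k ∧ k ≤ mx n z ∧
      N n (cod n M) k z = z ∧ w = str n M z k := by
  rcases (occ_iff ht ht' w).mp hw with h | ⟨z, k, hz, hzt, hk1, hk2, rfl⟩
  · exact absurd h h0
  · refine ⟨N n (cod n M) k z, k, N_cell hz hk1 hk2, lt_of_le_of_lt (N_le hk2) hzt, hk1,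
      mx_N hk2, N_N hk2, ?_⟩
    exact (str_E hk2 (mx_N hk2)).mpr (E_symm (N_E hk2))

theorem ext_iff (ht : 1 ≤ t) (ht' : t ≤ n) {z k : ℕ} (hz : Cell n z) (h1 : 1 ≤ k)
    (h2 : k ≤ mx n z) (a : List ℕ) :
    str n M z k ++ [a] ∈ Occ n M t ↔ ∃ y, E n (cod n M) k y z ∧ Cell n (y + (n + 2)) ∧
      y + (n + 2) < (t + 1) * (n + 1) ∧ str n M (y + (n + 2)) (k + 1) = str n M z k ++ [a] := by
  have hlen : ∀ (z k : ℕ), (str n M z k).length = k := fun z k => lstr_len M _ _ k
  constructor
  · intro h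
    rcases (occ_iff ht ht' _).mp h with h3 | ⟨z', k', hz', hzt, hk1, hk2, heq⟩
    · exact absurd h3 (by simp)
    · have hk' : k' = k + 1 := by
        have h3 := congrArg List.length heq
        rw [List.length_append, hlen, hlen, List.length_singleton] at h3
        exact h3.symm
      subst hk'
      have h4 : n + 2 ≤ z' := by
        have h5 := mx_mul_le n z' 1 (by omega)
        omega
      have hy : z' - (n + 2) + (n + 2) = z' := Nat.sub_add_cancel h4
      have hmx : mx n (z' - (n + 2)) = mx n z' - 1 := by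
        have h5 := mx_sub n z' 1 (by omega)
        rwa [one_mul] at h5
      refine ⟨z' - (n + 2), ?_, by rw [hy]; exact hz', by rw [hy]; exact hzt,
        by rw [hy]; exact heq.symm⟩
      have h5 := str_take (M := M) hk2 (Nat.le_succ k)
      have h6 : k + 1 - k = 1 := by omega
      rw [h6, one_mul, ← heq, List.take_left' (hlen z k)] at h5
      exact (str_E (by rw [hmx]; omega) h2).mp h5.symm
  · rintro ⟨y, hE, hc, hyt, heq⟩
    refine (occ_iff ht ht' _).mpr (Or.inr ⟨y + (n + 2), k + 1, hc, hyt, by omega, ?_, heq.symm⟩)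
    have h3 := mx_sub n (y + (n + 2)) 1 hc.1
    rw [one_mul, Nat.add_sub_cancel] at h3
    have h4 := hE.1
    have h5 := hc.1
    omega

/-- the column of y is less than n if y + (n+2) is a cell -/
theorem col_of_next {y : ℕ} (h : Cell n (y + (n + 2))) : y % (n + 1) < n ∧ y < n * (n + 1) := by
  have h1 := sub_mod n (y + (n + 2)) 1 h.1
  rw [one_mul, Nat.add_sub_cancel] at h1
  have h2 : (y + (n + 2)) % (n + 1) ≤ n := Nat.lt_succ_iff.mp (Nat.mod_lt _ (Nat.succ_pos n))
  have h3 : 1 ≤ (y + (n + 2)) % (n + 1) := by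
    have := h.1
    unfold mx at this
    omega
  have h4 := h.2
  have h5 : (n + 1) * (n + 1) = n * (n + 1) + (n + 1) := by ring
  constructor
  · omega
  · omega

end ST2
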