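import Pool.Agent.helper32.ST.SLab

/-!
# ST2-SPar : parents

* par_gen: (z, k) with k <= mx z, z a cell < c0; j < k; P = take j of the string; if for all i with j < i < k,
  (N i (z-(k-i)(n+2)), i) is not in RS0 c0, then every w in TNode which is a proper initial segment of str z k is an
  initial segment of take j.  Proof: w = str (z-(k-i)(n+2)) i, i < k (str_pre; i = k would be equality).  If i <= j:
  done (take of take / str_pre).  If i > j: w <> [] and w has an extension (the next initial segment, in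
  Occ), so w is branching (TNode); let z' = N i (z-(k-i)(n+2)): str z' i = w, branch_iff: RS0: contradiction.
* For v = fr z k: parr.  First case: label of the parent = str (z-(k-j)(n+2)) j = take j.  For j < i < k:
  i > j >= ko, so (z-(k-i)(n+2), i) is canonical (cr_canon / ko_spec) and not in RS0.
  Second case: j = ko - 1: for ko - 1 < i < k canonical and not real.  If ko = 1: label = [] = take 0.
  Otherwise label = str (N (ko-1) (uo-(n+2))) (ko-1) = str (uo-(n+2)) (ko-1) (label_real needs RS0: y = uo-(n+2),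
  Cr uo ko, uo < c0), and uo - (n+2) = z - (k-(ko-1))(n+2).
* For v = fo u κ: the same for z = zf, k = kf (own_full), ko = κ, uo = u; in paro the real (u+(j-κ)(n+2), j) satisfies
  j < kf: rs0_canon says that u+(j+1-κ)(n+2) is a cell < c0, while zf is at the border.
-/

namespace ST2

variable {n t : ℕ} {M : ℕ → ℕ → ℕ} {τ : TR} {fr fo : ℕ → ℕ → ℕ}

theorem SPar_diag {u κ z k i : ℕ} (hz : z = u + (k - κ) * (n + 2)) (h1 : κ ≤ i) (h2 : i ≤ k) :
    z - (k - i) * (n + 2) = u + (i - κ) * (n + 2) := by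
  have h3 : k - κ = (k - i) + (i - κ) := by omega
  rw [hz, h3, Nat.add_mul]
  omega

theorem SPar_canon {A : ℕ → ℕ} {u κ z k i : ℕ} (hu : Cr n A u κ)
    (hz : z = u + (k - κ) * (n + 2)) (hk : k ≤ mx n z) (h1 : κ ≤ i) (h2 : i ≤ k) :
    N n A i (z - (k - i) * (n + 2)) = z - (k - i) * (n + 2) := by
  apply cr_canon hu h1 (SPar_diag hz h1 h2)
  rw [mx_sub n z (k - i) (by omega)]
  omega

theorem SPar_len (z k : ℕ) : (str n M z k).length = k := lstr_len _ _ _ _

theorem SPar_occ (ht : 1 ≤ t) (ht' : t ≤ n) {z k i : ℕ} (hz : Cell n z)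
    (hz' : z < (t + 1) * (n + 1)) (h2 : k ≤ mx n z) (h1 : 1 ≤ i) (hi : i ≤ k) :
    Cell n (z - (k - i) * (n + 2)) ∧ i ≤ mx n (z - (k - i) * (n + 2)) ∧
      str n M (z - (k - i) * (n + 2)) i ∈ Occ n M t := by
  have a1 : Cell n (z - (k - i) * (n + 2)) := cell_sub n z (k - i) hz (by omega)
  have a2 : i ≤ mx n (z - (k - i) * (n + 2)) := by
    rw [mx_sub n z (k - i) (by omega)]
    omega
  refine ⟨a1, a2, (occ_iff ht ht' _).2 (Or.inr ⟨_, i, a1, ?_, h1, a2, rfl⟩)⟩
  exact lt_of_le_of_lt (Nat.sub_le _ _) hz'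

theorem SPar_bot (hs : Sent n (cod n M)) (h : FT n t M τ fr fo) {u κ z k : ℕ}
    (hu : Cr n (cod n M) u κ) (huc : u < (t + 1) * (n + 1)) (h1 : 1 ≤ κ) (hk : κ ≤ k)
    (hz : z = u + (k - κ) * (n + 2)) (h2 : k ≤ mx n z) :
    label n M t τ.sz τ.po (if κ ≤ 1 then 1 else fr (N n (cod n M) (κ - 1) (u - (n + 2))) (κ - 1)) =
      (str n M z k).take (κ - 1) := by
  by_cases hκ : κ ≤ 1
  · rw [if_pos hκ, show κ - 1 = 0 by omega, List.take_zero]
    unfold label
    rw [if_pos rfl]
  · rw [if_neg hκ]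
    obtain ⟨c1, c2, c3⟩ := hu
    have hge := cell_ge n u c1
    have hmy : κ - 1 ≤ mx n (u - (n + 2)) := by
      have := L_le (n := n) (A := cod n M) (u - (n + 2))
      omega
    have hRS : RS0 n (cod n M) ((t + 1) * (n + 1)) (N n (cod n M) (κ - 1) (u - (n + 2)))
        (κ - 1) := by
      have e1 : u - (n + 2) + (n + 2) = u := by omega
      refine ⟨by omega, u - (n + 2), by omega, rfl, ?_, ?_, ?_⟩
      · rw [e1]
        exact c1
      · rw [e1]
        exact huc
      · rw [e1]
        omega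
    rw [label_real hs h hRS, (str_E (mx_N hmy) hmy).2 (N_E hmy), str_take h2 (by omega)]
    congr 1
    have e2 : k - (κ - 1) = (k - κ) + 1 := by omega
    rw [e2, Nat.add_mul, hz]
    omega

theorem par_gen (hs : Sent n (cod n M)) (ht : 1 ≤ t) (ht' : t ≤ n) {z k j : ℕ} (hz : Cell n z)
    (hz' : z < (t + 1) * (n + 1)) (h2 : k ≤ mx n z) (hj : j < k)
    (h : ∀ i, j < i → i < k → ¬ RS0 n (cod n M) ((t + 1) * (n + 1))
      (N n (cod n M) i (z - (k - i) * (n + 2))) i)
    (w : List (List ℕ)) (hw : w ∈ TNode (Occ n M t)) (hp : w <+: str n M z k)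
    (hne : w ≠ str n M z k) : w <+: (str n M z k).take j := by
  obtain ⟨i, hik, hwi⟩ := (str_pre h2 w).1 hp
  have hik' : i < k := by
    refine lt_of_le_of_ne hik fun hc => hne ?_
    rw [hwi, hc, Nat.sub_self, Nat.zero_mul, Nat.sub_zero]
  have hwt : w = (str n M z k).take i := by rw [hwi, str_take h2 hik]
  rcases Nat.lt_or_ge j i with hji | hji
  · exfalso
    have hi1 : 1 ≤ i := by omega
    obtain ⟨a1, a2, a3⟩ := SPar_occ (M := M) ht ht' hz hz' h2 hi1 hik
    have hlen : w.length = i := by rw [hwi, SPar_len]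
    have hw0 : w ≠ [] := by
      intro hc
      rw [hc] at hlen
      simp at hlen
      omega
    have hnext : ∃ a, w ++ [a] ∈ Occ n M t := by
      obtain ⟨r, hr⟩ := hp
      cases r with
      | nil =>
        rw [List.append_nil] at hr
        exact absurd hr hne
      | cons a r =>
        refine ⟨a, ?_⟩
        have hp2 : w ++ [a] <+: str n M z k := ⟨r, by rw [← hr]; simp⟩
        obtain ⟨i', hi'k, hi'⟩ := (str_pre h2 (w ++ [a])).1 hp2
        have hlen' : (w ++ [a]).length = i' := by rw [hi', SPar_len]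
        have h1' : 1 ≤ i' := by
          rw [List.length_append] at hlen'
          simp at hlen'
          omega
        rw [hi']
        exact (SPar_occ (M := M) ht ht' hz hz' h2 h1' hi'k).2.2
    obtain ⟨hwS, hw1⟩ := hw
    rcases hw1 with hw1 | hw1 | hw1
    · exact hw0 hw1
    · have b1 := N_cell (A := cod n M) a1 hi1 a2
      have b2 := mx_N (A := cod n M) a2
      have b3 := N_N (A := cod n M) a2
      have b4 : str n M (N n (cod n M) i (z - (k - i) * (n + 2))) i = w := by
        rw [hwi]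
        exact (str_E b2 a2).2 (N_E a2)
      apply h i hji hik'
      rw [← branch_iff hs ht ht' b1 hi1 b2 b3, b4]
      exact hw1
    · obtain ⟨a, ha⟩ := hnext
      exact hw1 a ha
  · have h3 : (str n M z k).take i = ((str n M z k).take j).take i := by
      rw [List.take_take, min_eq_left hji]
    rw [hwt, h3]
    exact List.take_prefix _ _

theorem par_real (hs : Sent n (cod n M)) (ht : 1 ≤ t) (ht' : t ≤ n) (h : FT n t M τ fr fo)
    {z k : ℕ} (hr : RS0 n (cod n M) ((t + 1) * (n + 1)) z k) :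
    ∃ j, j < k ∧ label n M t τ.sz τ.po (τ.par (fr z k)) = (str n M z k).take j ∧
      ∀ i, j < i → i < k → ¬ RS0 n (cod n M) ((t + 1) * (n + 1))
        (N n (cod n M) i (z - (k - i) * (n + 2))) i := by
  obtain ⟨r1, r2, r3, r4, r5, r6, r7⟩ := rs0_canon hs hr
  obtain ⟨k1, k2, k3, k4, k5⟩ := ko_spec r7 r1 r2 r3
  rcases h.parr z k hr with ⟨j, j1, j2, j3, j4, j5⟩ | ⟨j4, j5⟩
  · refine ⟨j, j2, ?_, ?_⟩
    · rw [j5, label_real hs h j3, str_take r2 j2.le]
    · intro i hi hi'
      rw [SPar_canon k3 k5 r2 (by omega) hi'.le]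
      exact j4 i hi hi'
  · refine ⟨ko n (cod n M) z k - 1, by omega, ?_, ?_⟩
    · rw [j5]
      exact SPar_bot hs h k3 (by omega) k1 k2 k5 r2
    · intro i hi hi'
      rw [SPar_canon k3 k5 r2 (by omega) hi'.le]
      exact j4 i (by omega) hi'

theorem par_own (hs : Sent n (cod n M)) (ht : 1 ≤ t) (ht' : t ≤ n) (h : FT n t M τ fr fo)
    {u κ : ℕ} (ho : OW0 n (cod n M) ((t + 1) * (n + 1)) u κ) :
    ∃ j, j < full n t (tl n u κ) ∧ label n M t τ.sz τ.po (τ.par (fo u κ)) =
      (str n M (u + (full n t (tl n u κ) - κ) * (n + 2)) (full n t (tl n u κ))).take j ∧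
      ∀ i, j < i → i < full n t (tl n u κ) → ¬ RS0 n (cod n M) ((t + 1) * (n + 1))
        (N n (cod n M) i (u + (full n t (tl n u κ) - κ) * (n + 2) -
          (full n t (tl n u κ) - i) * (n + 2))) i := by
  have h1 : 1 ≤ κ := by
    have := ho.2.2.1
    omega
  obtain ⟨f1, f2, f3, f4, z, f5, f6, f7, f8, f9, f10, f11, f12, f13, f14, f15⟩ :=
    own_full ht' h1 ho
  rw [← f6]
  generalize full n t (tl n u κ) = kf at *
  obtain ⟨huc, hu⟩ := ho
  rcases h.paro u κ ⟨huc, hu⟩ with ⟨j, j1, j3, j4, j5⟩ | ⟨j4, j5⟩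
  · obtain ⟨r1, r2, r3, r4, r5, r6, r7⟩ := rs0_canon hs j3
    have hjk : j < kf := by
      by_contra hc
      have hc' : kf ≤ j := by omega
      have hmp := mx_prev r6
      have e1 : z = u + (j - κ) * (n + 2) + (n + 2) - (j - kf + 1) * (n + 2) := by
        have e2 : j - κ = (j - kf) + (kf - κ) := by omega
        rw [f6, e2, Nat.add_mul, Nat.add_mul, one_mul]
        omega
      have hm : j - kf + 1 ≤ mx n (u + (j - κ) * (n + 2) + (n + 2)) := by omega
      have hd := sub_div n _ _ hm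
      have hmd := sub_mod n _ _ hm
      rw [← e1] at hd hmd
      have hrow : (u + (j - κ) * (n + 2) + (n + 2)) / (n + 1) < t + 1 :=
        (Nat.div_lt_iff_lt_mul (Nat.succ_pos n)).2 r4
      have hcol : (u + (j - κ) * (n + 2) + (n + 2)) % (n + 1) < n + 1 :=
        Nat.mod_lt _ (Nat.succ_pos n)
      rcases f11 with f | f
      · omega
      · omega
    refine ⟨j, hjk, ?_, ?_⟩
    · rw [j5, label_real hs h j3, str_take f9 hjk.le, SPar_diag f6 j1 hjk.le]
    · intro i hi hi'
      rw [SPar_canon hu f6 f9 (by omega) hi'.le, SPar_diag f6 (by omega) hi'.le]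
      exact j4 i hi
  · refine ⟨κ - 1, by omega, ?_, ?_⟩
    · rw [j5]
      exact SPar_bot hs h hu huc h1 f4 f6 f9
    · intro i hi hi'
      rw [SPar_canon hu f6 f9 (by omega) hi'.le, SPar_diag f6 (by omega) hi'.le]
      exact j4 i (by omega)

end ST2
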