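import Pool.Agent.helper32.ST.SDef
import Pool.Agent.helper32.ST.AE

/-!
# ST2-SStr : strings of squares by bottom right corners

cod n M: the letters of the codes.  str n M z k: the Lstring of the k-square with bottom right cell z.
With z = r (n+1) + c, k <= min r c: top left corner (r+1-k, c+1-k).
* lstr_eq_iff: (->) entry (a, b): if b < a: character number a, entry b of the row segment; otherwise
  character number b, column segment, entry a.  Use List.map_inj_left-like lemmas: equality of
  maps over range k iff the functions agree below k; lch i j q = lch i' j' q iff the two segments agree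
  (List.append_inj with equal lengths).
* str_E: reindex a = k-1-a', b = k-1-b'; z - a(n+1) - b has row r-a and column c-b (a <= r, b <= c < n+1):
  write z - a (n+1) - b = (r-a)(n+1) + (c-b), Nat.add_mul_div_right etc.
* str_take: List.map_take / range; the top left corner is the same (sub_div, sub_mod).
* str_succ: List.range_succ; add_div, add_mod.
-/

namespace ST2

def cod (n : ℕ) (M : ℕ → ℕ → ℕ) : ℕ → ℕ := fun z => M (z / (n + 1)) (z % (n + 1))

def str (n : ℕ) (M : ℕ → ℕ → ℕ) (z k : ℕ) : List (List ℕ) :=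
  lstr M (z / (n + 1) + 1 - k) (z % (n + 1) + 1 - k) k

theorem lstr_len (M : ℕ → ℕ → ℕ) (i j k : ℕ) : (lstr M i j k).length = k := by
  unfold lstr
  rw [List.length_map, List.length_range]

theorem lstr_take (M : ℕ → ℕ → ℕ) (i j k k' : ℕ) (h : k' ≤ k) :
    (lstr M i j k).take k' = lstr M i j k' := by
  unfold lstr
  rw [← List.map_take, List.take_range, min_eq_left h]

theorem lstr_succ (M : ℕ → ℕ → ℕ) (i j k : ℕ) :
    lstr M i j (k + 1) = lstr M i j k ++ [lch M i j k] := by
  unfold lstr
  rw [List.range_succ, List.map_append, List.map_singleton]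

theorem lstr_eq_iff (M : ℕ → ℕ → ℕ) (i j i' j' k : ℕ) :
    lstr M i j k = lstr M i' j' k ↔ ∀ a < k, ∀ b < k, M (i + a) (j + b) = M (i' + a) (j' + b) := by
  unfold lstr
  rw [List.map_inj_left]
  constructor
  · intro h a ha b hb
    rcases Nat.lt_or_ge b a with hba | hab
    · have h1 := h a (List.mem_range.2 ha)
      unfold lch at h1
      have h2 := (List.append_inj h1 (by simp)).1
      rw [List.map_inj_left] at h2
      exact h2 b (List.mem_range.2 hba)
    · have h1 := h b (List.mem_range.2 hb)
      unfold lch at h1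
      have h2 := (List.append_inj h1 (by simp)).2
      rw [List.map_inj_left] at h2
      exact h2 a (List.mem_range.2 (by omega))
  · intro h q hq
    have hq' := List.mem_range.1 hq
    unfold lch
    congr 1
    · rw [List.map_inj_left]
      intro b hb
      have := List.mem_range.1 hb
      exact h q hq' b (by omega)
    · rw [List.map_inj_left]
      intro a ha
      have := List.mem_range.1 ha
      exact h a (by omega) q hq' 

theorem SStr_cod {n : ℕ} {M : ℕ → ℕ → ℕ} {r c a b : ℕ} (hc : c ≤ n) (ha : a ≤ r) (hb : b ≤ c) :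
    cod n M (r * (n + 1) + c - a * (n + 1) - b) = M (r - a) (c - b) := by
  have h1 : r * (n + 1) + c - a * (n + 1) - b = (r - a) * (n + 1) + (c - b) := by
    obtain ⟨r', rfl⟩ := Nat.exists_eq_add_of_le ha
    obtain ⟨c', rfl⟩ := Nat.exists_eq_add_of_le hb
    rw [Nat.add_sub_cancel_left, Nat.add_sub_cancel_left]
    have h2 : (a + r') * (n + 1) + (b + c') = a * (n + 1) + (b + (r' * (n + 1) + c')) := by ring
    rw [h2, Nat.add_sub_cancel_left, Nat.add_sub_cancel_left]
  have h3 := AMx_dm n (r - a) (c - b) (by omega)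
  unfold cod
  rw [h1, h3.1, h3.2]

theorem str_E {n : ℕ} {M : ℕ → ℕ → ℕ} {z w k : ℕ} (hz : k ≤ mx n z) (hw : k ≤ mx n w) :
    str n M z k = str n M w k ↔ E n (cod n M) k z w := by
  unfold str
  rw [lstr_eq_iff]
  obtain ⟨r, c, hc, rfl⟩ := AMx_ex n z
  obtain ⟨r', c', hc', rfl⟩ := AMx_ex n w
  rw [(AMx_dm n r c hc).1, (AMx_dm n r c hc).2, (AMx_dm n r' c' hc').1, (AMx_dm n r' c' hc').2]
  have hz' := hz
  have hw' := hw
  rw [AMx_mx n r c hc] at hz'
  rw [AMx_mx n r' c' hc'] at hw'
  unfold E
  constructor
  · intro h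
    refine ⟨hz, hw, ?_⟩
    intro a ha b hb
    rw [SStr_cod hc (by omega) (by omega), SStr_cod hc' (by omega) (by omega)]
    have h1 := h (k - 1 - a) (by omega) (k - 1 - b) (by omega)
    rw [show r + 1 - k + (k - 1 - a) = r - a by omega, show c + 1 - k + (k - 1 - b) = c - b by omega,
      show r' + 1 - k + (k - 1 - a) = r' - a by omega,
      show c' + 1 - k + (k - 1 - b) = c' - b by omega] at h1
    exact h1
  · rintro ⟨-, -, h⟩ a ha b hb
    have h1 := h (k - 1 - a) (by omega) (k - 1 - b) (by omega)
    rw [SStr_cod hc (by omega) (by omega), SStr_cod hc' (by omega) (by omega)] at h1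
    rw [show r + 1 - k + a = r - (k - 1 - a) by omega, show c + 1 - k + b = c - (k - 1 - b) by omega,
      show r' + 1 - k + a = r' - (k - 1 - a) by omega,
      show c' + 1 - k + b = c' - (k - 1 - b) by omega]
    exact h1

theorem str_take {n : ℕ} {M : ℕ → ℕ → ℕ} {z k j : ℕ} (hz : k ≤ mx n z) (hj : j ≤ k) :
    (str n M z k).take j = str n M (z - (k - j) * (n + 2)) j := by
  unfold str
  have h1 : k - j ≤ mx n z := by omega
  have h2 : k ≤ min (z / (n + 1)) (z % (n + 1)) := hz
  rw [lstr_take _ _ _ _ _ hj, sub_div n z _ h1, sub_mod n z _ h1]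
  congr 1
  · omega
  · omega

theorem str_succ {n : ℕ} {M : ℕ → ℕ → ℕ} {z k : ℕ} (hz : k ≤ mx n z) (hc : z % (n + 1) < n) :
    str n M (z + (n + 2)) (k + 1) = str n M z k ++
      [lch M (z / (n + 1) + 1 - k) (z % (n + 1) + 1 - k) k] := by
  unfold str
  have h2 : k ≤ min (z / (n + 1)) (z % (n + 1)) := hz
  rw [lstr_succ, add_div n z hc, add_mod n z hc,
    show z / (n + 1) + 1 + 1 - (k + 1) = z / (n + 1) + 1 - k by omega,
    show z % (n + 1) + 1 + 1 - (k + 1) = z % (n + 1) + 1 - k by omega]

/-- initial segments of a string are strings along the diagonal -/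
theorem str_pre {n : ℕ} {M : ℕ → ℕ → ℕ} {z k : ℕ} (hz : k ≤ mx n z) (w : List (List ℕ)) :
    w <+: str n M z k ↔ ∃ j ≤ k, w = str n M (z - (k - j) * (n + 2)) j := by
  constructor
  · intro h
    have h1 := List.prefix_iff_eq_take.1 h
    have h2 := h.length_le
    have h3 : (str n M z k).length = k := lstr_len _ _ _ _
    rw [h3] at h2
    exact ⟨w.length, h2, h1.trans (str_take hz h2)⟩
  · rintro ⟨j, hj, rfl⟩
    rw [← str_take hz hj]
    exact List.take_prefix _ _

end ST2
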