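import Pool.Agent.helper32.ST.RAll
import Pool.Agent.helper32.ST.FTame
import Pool.Agent.helper32.ST.FLazy
import Pool.Agent.helper32.ST.IComp

/-!
# ST2-ZFin : the final theorem

sent_of: RowSent n M implies Sent n (cod n M) (cells z = i(n+1)+j).
Programs: init = (FCmd.seq (.st (.lit 3) (.lit 0)) initC.fc.lz).comp 0, row = rowC.fc.lz.comp 0.
run_all gives ss, T.  Bounds: P = n + 4, M_t = (n+4)^2 + (n+1)^d + P * sum_{i<=t} T i (induction with tame_run; the input of
a row is bounded by (n+1)^d), so all <= Mx = (n+4)^2 + (n+1)^d + (n+4) * 3000000 n^2.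
Wv = 64 (Mx+4)^18 + 5000, W = 4 Wv + 8 <= (n+1)^e for a suitable e depending on d only (n+4 <= (n+1)^3,
3000000 <= 2^22 <= (n+1)^22, sums of k terms <= (n+1)^k times the product ...; monotonicity: use FRun with the W
above and FRun_mono: W <= W' (prove it), or apply frun_of_runB / lz_run directly with W' = (n+1)^e and Wv chosen
as above).
The counter: m 3 <= total number of flat steps <= 6 * 3000000 n^2 < Wv.
The memories: v_t = virtual memory (Rep (ss t) v_t), v_t = vread (m t).  Before the first row: m 0 after the init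
program; vread (upd m0 3 0) = 0 (vread_zero), rep_zero.
The tree arrays: par v = (ss t).ar .par v = v_t (v * 64 + 15) etc. (Rep.arr), cnt = v_t (64 * 6).
Constants: C = 2 * (initC.fc.fac + rowC.fc.fac) * 6 * 3000000 + 10 or any such number: obtain it as an existential
(no need to compute fac).
Lower bound: exec_read for every row: n <= T t, so n^2 <= sum.
-/

namespace ST2

theorem sent_of {n : ℕ} {M : ℕ → ℕ → ℕ} (h : RowSent n M) : Sent n (cod n M) := by
  intro z w hz hzn hw hwn hA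
  unfold Cell mx at hz hw
  obtain ⟨hz1, hz2⟩ := hz
  obtain ⟨hw1, hw2⟩ := hw
  have hz3 : 1 ≤ z / (n + 1) := le_trans hz1 (min_le_left _ _)
  have hw3 : 1 ≤ w / (n + 1) := le_trans hw1 (min_le_left _ _)
  have hw4 : 1 ≤ w % (n + 1) := le_trans hw1 (min_le_right _ _)
  have hz4 : z / (n + 1) < n + 1 := Nat.div_lt_of_lt_mul hz2
  have hw5 : w / (n + 1) < n := Nat.div_lt_of_lt_mul (by rw [Nat.mul_comm]; exact hwn)
  have hw6 : w % (n + 1) < n + 1 := Nat.mod_lt _ (Nat.succ_pos n)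
  have hA' : M (w / (n + 1)) (w % (n + 1)) = M (z / (n + 1)) n := by
    have := hA
    unfold cod at this
    rw [hzn] at this
    exact this
  obtain ⟨h1, h2⟩ := h (z / (n + 1)) (w / (n + 1)) (w % (n + 1)) hz3 (by omega) hw3 hw5 hw4
    (by omega) hA'
  have e1 := Nat.div_add_mod z (n + 1)
  have e2 := Nat.div_add_mod w (n + 1)
  rw [← e1, ← e2, h1, h2, hzn]

/-- building a sequence step by step -/
theorem ZFin_seq {α : Type} (P : ℕ → α → Prop) (R : ℕ → α → α → Prop) (a0 : α) (h0 : P 0 a0) :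
    ∀ N : ℕ, (∀ t < N, ∀ a, P t a → ∃ a', R t a a' ∧ P (t + 1) a') →
    ∃ f : ℕ → α, f 0 = a0 ∧ (∀ t ≤ N, P t (f t)) ∧ ∀ t < N, R t (f t) (f (t + 1)) := by
  intro N
  induction N with
  | zero =>
    intro _
    refine ⟨fun _ => a0, rfl, ?_, ?_⟩
    · intro t ht
      obtain rfl : t = 0 := by omega
      exact h0
    · intro t ht
      omega
  | succ N ih =>
    intro hs
    obtain ⟨f, hf0, hf1, hf2⟩ := ih (fun t ht => hs t (by omega))
    obtain ⟨a', hR, hP⟩ := hs N (by omega) (f N) (hf1 N le_rfl)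
    refine ⟨fun t => if t ≤ N then f t else a', by simpa using hf0, ?_, ?_⟩
    · intro t ht
      by_cases h : t ≤ N
      · simp only [h, if_true]
        exact hf1 t h
      · obtain rfl : t = N + 1 := by omega
        simp only [h, if_false]
        exact hP
    · intro t ht
      by_cases h : t < N
      · have h1 : t ≤ N := by omega
        have h2 : t + 1 ≤ N := by omega
        simp only [h1, h2, if_true]
        exact hf2 t h
      · obtain rfl : t = N := by omega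
        have h2 : ¬ (t + 1 ≤ t) := by omega
        simp only [le_refl, h2, if_true, if_false]
        exact hR

theorem ZFin_pow_le {x a b : ℕ} (hx : 2 ≤ x) (h : a ≤ b) : x ^ a ≤ x ^ b :=
  Nat.pow_le_pow_right (by omega) h

theorem ZFin_arith {Y Q : ℕ} (h1 : 64 * Y ≤ Q) (h2 : 5000 ≤ Q) (h3 : 2 ≤ Q) :
    4 * (64 * Y + 5000) + 8 ≤ 2 ^ 4 * Q := by
  have h4 : (2 : ℕ) ^ 4 = 16 := by norm_num
  rw [h4]
  linarith

/-- the word size -/
theorem ZFin_word {n d : ℕ} (hn : 1 ≤ n) :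
    4 * (64 * (((n + 4) ^ 2 + (n + 1) ^ d + (n + 4) * (3000000 * n ^ 2)) + 4) ^ 18 + 5000) + 8 ≤
      (n + 1) ^ (18 * (d + 30)) := by
  obtain ⟨x, hx⟩ : ∃ x, x = n + 1 := ⟨_, rfl⟩
  have hx2 : 2 ≤ x := by omega
  have e1 : n + 4 ≤ x ^ 3 := by
    have : x * x * x = x ^ 3 := by ring
    nlinarith [Nat.mul_le_mul hx2 hx2, Nat.mul_le_mul (Nat.mul_le_mul hx2 hx2) (le_refl x)]
  have e2 : (n + 4) ^ 2 ≤ x ^ (d + 27) := by
    calc (n + 4) ^ 2 ≤ (x ^ 3) ^ 2 := Nat.pow_le_pow_left e1 2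
      _ = x ^ 6 := by ring
      _ ≤ x ^ (d + 27) := ZFin_pow_le hx2 (by omega)
  have e3 : x ^ d ≤ x ^ (d + 27) := ZFin_pow_le hx2 (by omega)
  have e4 : (3000000 : ℕ) ≤ x ^ 22 :=
    le_trans (by norm_num) (Nat.pow_le_pow_left hx2 22)
  have e5 : (n + 4) * (3000000 * n ^ 2) ≤ x ^ (d + 27) := by
    calc (n + 4) * (3000000 * n ^ 2) ≤ x ^ 3 * (x ^ 22 * x ^ 2) := by
          apply Nat.mul_le_mul e1
          apply Nat.mul_le_mul e4
          exact Nat.pow_le_pow_left (by omega) 2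
      _ = x ^ 27 := by ring
      _ ≤ x ^ (d + 27) := ZFin_pow_le hx2 (by omega)
  have e6 : (4 : ℕ) ≤ x ^ (d + 27) := by
    calc (4 : ℕ) = 2 ^ 2 := by norm_num
      _ ≤ x ^ 2 := Nat.pow_le_pow_left hx2 2
      _ ≤ x ^ (d + 27) := ZFin_pow_le hx2 (by omega)
  have e7 : ((n + 4) ^ 2 + (n + 1) ^ d + (n + 4) * (3000000 * n ^ 2)) + 4 ≤ x ^ (d + 29) := by
    rw [← hx]
    calc (n + 4) ^ 2 + x ^ d + (n + 4) * (3000000 * n ^ 2) + 4 ≤ 2 ^ 2 * x ^ (d + 27) := by
          omega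
      _ ≤ x ^ 2 * x ^ (d + 27) := Nat.mul_le_mul_right _ (Nat.pow_le_pow_left hx2 2)
      _ = x ^ (d + 29) := by rw [← pow_add]; congr 1; omega
  have e8 : (((n + 4) ^ 2 + (n + 1) ^ d + (n + 4) * (3000000 * n ^ 2)) + 4) ^ 18 ≤
      x ^ ((d + 29) * 18) := by
    rw [pow_mul]
    exact Nat.pow_le_pow_left e7 18
  have e9 : (64 : ℕ) ≤ x ^ 6 := le_trans (by norm_num) (Nat.pow_le_pow_left hx2 6)
  have e10 : 64 * (((n + 4) ^ 2 + (n + 1) ^ d + (n + 4) * (3000000 * n ^ 2)) + 4) ^ 18 ≤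
      x ^ ((d + 29) * 18 + 14) := by
    calc _ ≤ x ^ 6 * x ^ ((d + 29) * 18) := Nat.mul_le_mul e9 e8
      _ = x ^ ((d + 29) * 18 + 6) := by rw [← pow_add]; congr 1; omega
      _ ≤ x ^ ((d + 29) * 18 + 14) := ZFin_pow_le hx2 (by omega)
  have e11 : (5000 : ℕ) ≤ x ^ ((d + 29) * 18 + 14) := by
    calc (5000 : ℕ) ≤ 2 ^ 13 := by norm_num
      _ ≤ x ^ 13 := Nat.pow_le_pow_left hx2 13
      _ ≤ x ^ ((d + 29) * 18 + 14) := ZFin_pow_le hx2 (by omega)
  have e12 : (2 : ℕ) ≤ x ^ ((d + 29) * 18 + 14) := by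
    calc (2 : ℕ) ≤ 2 ^ 1 := by norm_num
      _ ≤ x ^ 1 := Nat.pow_le_pow_left hx2 1
      _ ≤ x ^ ((d + 29) * 18 + 14) := ZFin_pow_le hx2 (by omega)
  rw [← hx] at e10 ⊢
  obtain ⟨Y, hY⟩ : ∃ Y, Y = (((n + 4) ^ 2 + x ^ d + (n + 4) * (3000000 * n ^ 2)) + 4) ^ 18 :=
    ⟨_, rfl⟩
  obtain ⟨Q, hQ⟩ : ∃ Q, Q = x ^ ((d + 29) * 18 + 14) := ⟨_, rfl⟩
  rw [← hQ] at e10 e11 e12
  rw [← hY] at e10 ⊢
  have e13 : 4 + ((d + 29) * 18 + 14) = 18 * (d + 30) := by omega
  calc 4 * (64 * Y + 5000) + 8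
      ≤ 2 ^ 4 * Q := ZFin_arith e10 e11 e12
    _ ≤ x ^ 4 * Q := Nat.mul_le_mul_right _ (Nat.pow_le_pow_left hx2 4)
    _ = x ^ (18 * (d + 30)) := by rw [hQ, ← pow_add, e13]

theorem ZFin_counter {n d : ℕ} :
    6 * (3000000 * n ^ 2) <
      64 * (((n + 4) ^ 2 + (n + 1) ^ d + (n + 4) * (3000000 * n ^ 2)) + 4) ^ 18 + 5000 := by
  obtain ⟨q, hq⟩ : ∃ q, q = 3000000 * n ^ 2 := ⟨_, rfl⟩
  rw [← hq]
  obtain ⟨y, hy⟩ : ∃ y, y = ((n + 4) ^ 2 + (n + 1) ^ d + (n + 4) * q) + 4 := ⟨_, rfl⟩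
  rw [← hy]
  have h1 : q ≤ y := by
    have : 1 * q ≤ (n + 4) * q := Nat.mul_le_mul_right _ (by omega)
    omega
  have h2 : y ≤ y ^ 18 := Nat.le_self_pow (by norm_num) _
  omega

theorem online_suffix_tree : ∃ (init row : List Instr) (C : ℕ), ∀ d : ℕ, ∃ e : ℕ,
    ∀ (n : ℕ) (M : ℕ → ℕ → ℕ), 1 ≤ n →
      (∀ i j, 1 ≤ i → i ≤ n → 1 ≤ j → j ≤ n → M i j ≤ (n + 1) ^ d) → RowSent n M →
      ∀ m0 : ℕ → ℕ, (∀ a, m0 a < (n + 1) ^ e) →
        ∃ (m : ℕ → ℕ → ℕ) (T : ℕ → ℕ),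
          Exec ((n + 1) ^ e) init m0 [n] (m 0) [] (T 0) ∧
          (∀ t, 1 ≤ t → t ≤ n →
            Exec ((n + 1) ^ e) row (m (t - 1)) (rowOf n M t) (m t) [] (T t) ∧
            SufTree n M t (vread (m t) 384) (fun v => vread (m t) (64 * v + 15))
              (fun v => vread (m t) (64 * v + 16)) (fun v => vread (m t) (64 * v + 17))
              (fun v => vread (m t) (64 * v + 19)) (fun v => vread (m t) (64 * v + 20))) ∧
          n ^ 2 ≤ ∑ t ∈ Finset.range (n + 1), T t ∧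
          ∑ t ∈ Finset.range (n + 1), T t ≤ C * n ^ 2 := by
  refine ⟨(FCmd.seq (.st (.lit 3) (.lit 0)) initC.fc.lz).comp 0, rowC.fc.lz.comp 0,
    6 + 12 * (initC.fc.fac + rowC.fc.fac) * 3000000, ?_⟩
  intro d
  refine ⟨18 * (d + 30), ?_⟩
  intro n M hn hM hrs m0 hm0
  obtain ⟨ss, T, hrun0, hpar0, hrow, hinp, hsum⟩ := run_all hn (sent_of hrs)
  -- abbreviations
  obtain ⟨W, hWdef⟩ : ∃ W, W = (n + 1) ^ (18 * (d + 30)) := ⟨_, rfl⟩
  obtain ⟨Mx, hMx⟩ : ∃ Mx, Mx = (n + 4) ^ 2 + (n + 1) ^ d + (n + 4) * (3000000 * n ^ 2) :=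
    ⟨_, rfl⟩
  obtain ⟨Wv, hWv⟩ : ∃ Wv, Wv = 64 * (Mx + 4) ^ 18 + 5000 := ⟨_, rfl⟩
  have hW : 4 * Wv + 8 ≤ W := by
    rw [hWv, hMx, hWdef]
    exact ZFin_word hn
  have hcnt : 6 * (3000000 * n ^ 2) < Wv := by
    rw [hWv, hMx]
    exact ZFin_counter
  rw [← hWdef] at hm0 ⊢
  -- partial sums
  have hmono : ∀ t ≤ n, ∑ i ∈ Finset.range (t + 1), T i ≤ 3000000 * n ^ 2 := by
    intro t ht
    refine le_trans ?_ hsum
    exact Finset.sum_le_sum_of_subset (Finset.range_mono (by omega))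
  -- bounds for the states
  have hbd : ∀ t ≤ n, Bd ((n + 4) ^ 2 + (n + 1) ^ d +
      (n + 4) * ∑ i ∈ Finset.range (t + 1), T i) (ss t) := by
    intro t
    induction t with
    | zero =>
      intro _
      have h := (init_runB hrun0).2
      refine ⟨fun r => le_trans (h.1 r) ?_, fun a i => le_trans (h.2.1 a i) ?_,
        fun v hv => le_trans (h.2.2 v hv) ?_⟩ <;> · rw [Nat.add_assoc]; exact Nat.le_add_right _ _
    | succ t ih =>
      intro ht
      have ih' := ih (by omega)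
      obtain ⟨hr, hp, -⟩ := hrow (t + 1) (by omega) ht
      rw [Nat.add_sub_cancel] at hr
      have hp0 : Par n (ss t) := by
        rcases Nat.eq_zero_or_pos t with h0 | h0
        · rw [h0]; exact hpar0
        · exact (hrow t h0 (by omega)).2.1
      have hb : Bd ((n + 4) ^ 2 + (n + 1) ^ d + (n + 4) * ∑ i ∈ Finset.range (t + 1), T i)
          { ss t with inp := rowOf n M (t + 1) } := by
        refine ⟨ih'.1, ih'.2.1, ?_⟩
        intro v hv
        have hv' : v ∈ rowOf n M (t + 1) := hv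
        unfold rowOf at hv'
        rw [List.mem_map] at hv'
        obtain ⟨j, hj, rfl⟩ := hv'
        rw [List.mem_range] at hj
        have := hM (t + 1) (j + 1) (by omega) (by omega) (by omega) (by omega)
        omega
      have h := (tame_run (P := n + 4) (by omega) hr rowC_tm _ hb
        (by have := hp0.hn1; show (ss t).rg .n1 ≤ n + 4; omega)
        (by have := hp0.hdl; show (ss t).rg .dl ≤ n + 4; omega)).2.1
      rw [Finset.sum_range_succ, Nat.mul_add, ← Nat.add_assoc]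
      exact h
  -- runs with bounds
  have hle : ∀ t ≤ n, (n + 4) ^ 2 + (n + 1) ^ d +
      (n + 4) * ∑ i ∈ Finset.range (t + 1), T i ≤ Mx := by
    intro t ht
    rw [hMx]
    exact Nat.add_le_add_left (Nat.mul_le_mul_left _ (hmono t ht)) _
  have hinitB : RunB Mx initC (St.zero [n]) (ss 0) (T 0) := by
    refine runB_mono ?_ (init_runB hrun0).1
    rw [hMx, Nat.add_assoc]
    exact Nat.le_add_right _ _
  have hrowB : ∀ t, t + 1 ≤ n →
      RunB Mx rowC { ss t with inp := rowOf n M (t + 1) } (ss (t + 1)) (T (t + 1)) := by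
    intro t ht
    obtain ⟨hr, hp, -⟩ := hrow (t + 1) (by omega) ht
    rw [Nat.add_sub_cancel] at hr
    have hp0 : Par n (ss t) := by
      rcases Nat.eq_zero_or_pos t with h0 | h0
      · rw [h0]; exact hpar0
      · exact (hrow t h0 (by omega)).2.1
    have ih' := hbd t (by omega)
    have hb : Bd ((n + 4) ^ 2 + (n + 1) ^ d + (n + 4) * ∑ i ∈ Finset.range (t + 1), T i)
        { ss t with inp := rowOf n M (t + 1) } := by
      refine ⟨ih'.1, ih'.2.1, ?_⟩
      intro v hv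
      have hv' : v ∈ rowOf n M (t + 1) := hv
      unfold rowOf at hv'
      rw [List.mem_map] at hv'
      obtain ⟨j, hj, rfl⟩ := hv'
      rw [List.mem_range] at hj
      have := hM (t + 1) (j + 1) (by omega) (by omega) (by omega) (by omega)
      omega
    have h := (tame_run (P := n + 4) (by omega) hr rowC_tm _ hb
      (by have := hp0.hn1; show (ss t).rg .n1 ≤ n + 4; omega)
      (by have := hp0.hdl; show (ss t).rg .dl ≤ n + 4; omega)).1
    refine runB_mono ?_ h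
    have := hle (t + 1) ht
    rw [Finset.sum_range_succ, Nat.mul_add, ← Nat.add_assoc] at this
    exact this
  have hW3 : 3 < W := by omega
  have hWvle : 64 * (Mx + 4) ^ 18 + 5000 ≤ Wv := le_of_eq hWv.symm
  -- the invariant
  let Inv : ℕ → (ℕ → ℕ) × ℕ → Prop := fun t p =>
    Rep (ss t) (vread p.1) ∧ (∀ x, p.1 x < W) ∧
      p.1 3 ≤ 6 * ∑ i ∈ Finset.range (t + 1), T i
  have hbase : ∃ p : (ℕ → ℕ) × ℕ,
      Exec W ((FCmd.seq (.st (.lit 3) (.lit 0)) initC.fc.lz).comp 0) m0 [n] p.1 [] p.2 ∧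
      p.2 ≤ 6 + 12 * initC.fc.fac * T 0 ∧ Inv 0 p := by
    obtain ⟨v0, t0, hf, hrep, ht0⟩ :=
      frun_of_runB (by norm_num) hWvle hinitB rowC_lok.2 (fun _ => 0) (rep_zero [n])
    have hT0 : ∑ i ∈ Finset.range (0 + 1), T i = T 0 := by simp
    have hT0' := hmono 0 (by omega)
    rw [hT0] at hT0'
    obtain ⟨m', t', hl1, hl2, hl3, hl4, hl5⟩ := lz_run hW hf (upd m0 3 0) (vread_zero m0).symm
      (by
        intro x
        unfold upd
        split_ifs
        · omega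
        · exact hm0 x)
      (by rw [upd_same]; omega)
    have hst : FRun W (.st (.lit 3) (.lit 0)) m0 [n] (upd m0 3 0) [n] 3 :=
      FRun.st (.lit 3) (.lit 0) m0 [n] (show 3 < W by omega) (show 0 < W by omega)
    have hseq := FRun.seq _ _ _ _ _ _ _ _ _ _ hst hl1
    obtain ⟨X, hX, hXle⟩ := comp_exec hseq
    have hi0 := hinp 0 (by omega)
    refine ⟨(m', X), ?_, ?_, ?_, hl3, ?_⟩
    · rw [hi0] at hX
      exact hX
    · calc X ≤ 2 * (3 + t') := hXle
        _ ≤ 2 * (3 + initC.fc.fac * t0) := by omega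
        _ ≤ 2 * (3 + initC.fc.fac * (6 * T 0)) := by
            have := Nat.mul_le_mul_left initC.fc.fac ht0
            omega
        _ = 6 + 12 * initC.fc.fac * T 0 := by ring
    · show Rep (ss 0) (vread m')
      rw [← hl2]
      exact hrep
    · show m' 3 ≤ 6 * ∑ i ∈ Finset.range (0 + 1), T i
      rw [hT0]
      rw [upd_same] at hl4
      omega
  have hstep : ∀ t < n, ∀ p : (ℕ → ℕ) × ℕ, Inv t p → ∃ p' : (ℕ → ℕ) × ℕ,
      (Exec W (rowC.fc.lz.comp 0) p.1 (rowOf n M (t + 1)) p'.1 [] p'.2 ∧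
        p'.2 ≤ 12 * rowC.fc.fac * T (t + 1)) ∧ Inv (t + 1) p' := by
    intro t ht p hp
    obtain ⟨hp1, hp2, hp3⟩ := hp
    obtain ⟨v1, t1, hf, hrep, ht1⟩ :=
      frun_of_runB (by norm_num) hWvle (hrowB t (by omega)) rowC_lok.1 (vread p.1) ⟨hp1.reg, hp1.arr⟩
    have hs1 := Finset.sum_range_succ T (t + 1)
    have hs2 := hmono (t + 1) (by omega)
    obtain ⟨m', t', hl1, hl2, hl3, hl4, hl5⟩ := lz_run hW hf p.1 rfl hp2 (by omega)
    obtain ⟨X, hX, hXle⟩ := comp_exec hl1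
    have hi0 := hinp (t + 1) (by omega)
    refine ⟨(m', X), ⟨?_, ?_⟩, ?_, hl3, ?_⟩
    · rw [hi0] at hX
      exact hX
    · calc X ≤ 2 * t' := hXle
        _ ≤ 2 * (rowC.fc.fac * t1) := by omega
        _ ≤ 2 * (rowC.fc.fac * (6 * T (t + 1))) := by
            have := Nat.mul_le_mul_left rowC.fc.fac ht1
            omega
        _ = 12 * rowC.fc.fac * T (t + 1) := by ring
    · show Rep (ss (t + 1)) (vread m')
      rw [← hl2]
      exact hrep
    · show m' 3 ≤ 6 * ∑ i ∈ Finset.range (t + 1 + 1), T i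
      omega
  obtain ⟨p0, hp0e, hp0t, hp0i⟩ := hbase
  obtain ⟨f, hf0, hf1, hf2⟩ := ZFin_seq Inv (fun t a a' =>
    Exec W (rowC.fc.lz.comp 0) a.1 (rowOf n M (t + 1)) a'.1 [] a'.2 ∧
        a'.2 ≤ 12 * rowC.fc.fac * T (t + 1)) p0 hp0i n hstep
  have hex : ∀ t, 1 ≤ t → t ≤ n →
      Exec W (rowC.fc.lz.comp 0) (f (t - 1)).1 (rowOf n M t) (f t).1 [] (f t).2 ∧
        (f t).2 ≤ 12 * rowC.fc.fac * T t := by
    intro t ht1 ht2
    have := hf2 (t - 1) (by omega)
    rw [Nat.sub_add_cancel ht1] at this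
    exact this
  refine ⟨fun t => (f t).1, fun t => (f t).2, ?_, ?_, ?_, ?_⟩
  · show Exec W _ m0 [n] (f 0).1 [] (f 0).2
    rw [hf0]
    exact hp0e
  · intro t ht1 ht2
    refine ⟨(hex t ht1 ht2).1, ?_⟩
    have hst := (hrow t ht1 ht2).2.2
    have hrep := (hf1 t ht2).1
    have h0 : vread (f t).1 384 = (ss t).rg .tc := hrep.reg .tc
    have harr : ∀ (a : Ar), (fun v => vread (f t).1 (64 * v + a.code)) = (ss t).ar a := by
      intro a
      funext v
      rw [Nat.mul_comm 64 v]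
      exact hrep.arr a v
    have h1 := harr .par
    have h2 := harr .fc
    have h3 := harr .ns
    have h4 := harr .sz
    have h5 := harr .po
    simp only [Ar.code] at h1 h2 h3 h4 h5
    show SufTree n M t (vread (f t).1 384) (fun v => vread (f t).1 (64 * v + 15))
              (fun v => vread (f t).1 (64 * v + 16)) (fun v => vread (f t).1 (64 * v + 17))
              (fun v => vread (f t).1 (64 * v + 19)) (fun v => vread (f t).1 (64 * v + 20))
    rw [h0, h1, h2, h3, h4, h5]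
    exact hst
  · show n ^ 2 ≤ ∑ t ∈ Finset.range (n + 1), (f t).2
    rw [Finset.sum_range_succ']
    have : ∑ _t ∈ Finset.range n, n ≤ ∑ t ∈ Finset.range n, (f (t + 1)).2 := by
      apply Finset.sum_le_sum
      intro t ht
      rw [Finset.mem_range] at ht
      have h := exec_read (hf2 t ht).1
      simpa [rowOf] using h
    rw [Finset.sum_const, Finset.card_range, smul_eq_mul] at this
    have e : n ^ 2 = n * n := by ring
    omega
  · show ∑ t ∈ Finset.range (n + 1), (f t).2 ≤ _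
    have hb : ∀ t ∈ Finset.range (n + 1), (f t).2 ≤
        (if t = 0 then 6 else 0) + 12 * (initC.fc.fac + rowC.fc.fac) * T t := by
      intro t ht
      rw [Finset.mem_range] at ht
      rcases Nat.eq_zero_or_pos t with h0 | h0
      · subst h0
        rw [hf0, if_pos rfl]
        refine le_trans hp0t ?_
        apply Nat.add_le_add_left
        apply Nat.mul_le_mul_right
        omega
      · rw [if_neg (by omega), Nat.zero_add]
        refine le_trans (hex t h0 (by omega)).2 ?_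
        apply Nat.mul_le_mul_right
        omega
    refine le_trans (Finset.sum_le_sum hb) ?_
    rw [Finset.sum_add_distrib, ← Finset.mul_sum]
    have h6 : ∑ t ∈ Finset.range (n + 1), (if t = 0 then 6 else 0) = 6 := by
      rw [Finset.sum_ite_eq' (Finset.range (n + 1)) 0 (fun _ => 6)]
      simp
    rw [h6]
    have hn2 : 1 ≤ n ^ 2 := Nat.one_le_pow _ _ hn
    calc 6 + 12 * (initC.fc.fac + rowC.fc.fac) * ∑ i ∈ Finset.range (n + 1), T i
        ≤ 6 * n ^ 2 + 12 * (initC.fc.fac + rowC.fc.fac) * (3000000 * n ^ 2) :=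
          Nat.add_le_add (by omega) (Nat.mul_le_mul_left _ hsum)
      _ = (6 + 12 * (initC.fc.fac + rowC.fc.fac) * 3000000) * n ^ 2 := by ring

end ST2
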